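import Mathlib
import Pool.Agent.Lib.MP_f9aece_nt_gt.StmtsZ

/-!
The law of `log |zeta|` at bounded scale: statements of the modules, first part (uniform measure).
Module `X` proves `theorem x : X`; modules using `X` take it as a hypothesis.  Parameters, windows,
torus and means are those of the library `GT`.
-/

set_option autoImplicit false

namespace Pool.Agent.Lib.LC

open MeasureTheory Set Filter Topology Complex ProbabilityTheory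
open scoped ComplexConjugate
open Pool.Agent.Lib.GT

/-! ### A: constants explicit in `p0` -/

/-- A1: the Euler products under the tilt -/
def FBoundX : Prop := ∃ C : ℝ, 1 ≤ C ∧ ∀ A : Par, A.Ok → ∀ y u : ℝ,
  (∀ s : Finset ℕ, s ⊆ Finset.range A.J →
    ∫ x, A.W s y x * (‖A.F 0 u x‖ ^ 2 * ‖A.mo (-1) s x‖ ^ 2) ∂mu
      ≤ C * Real.log A.p0 ^ 20 * Real.exp (-(2 * ∑ g ∈ s, (A.r g : ℝ))) * (1 + A.lam * A.Y) ^ 17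
        * gr A.Y u * A.G y) ∧
  ∀ σ : ℝ, 0 ≤ σ → σ ≤ A.lam →
    ∫ x, A.W ∅ y x * (‖A.F σ u x‖ ^ 2 * ‖A.mo (-1) ∅ x * A.Msm x‖ ^ 2) ∂mu
      ≤ C * Real.log A.p0 ^ 20 * (1 + A.lam * A.Y) ^ 17 * gr A.Y u * A.G y

/-- A2: the weights and zeta on the line -/
def LineMeanX : Prop := ∃ C T0 : ℝ, 1 ≤ C ∧ 3 ≤ T0 ∧ ∀ A : Par, A.Ok → ∀ T : ℝ, T0 ≤ T → Len A T →
  ∀ x : ℝ, |x| ≤ T → ∀ y w : ℝ, |w| ≤ Real.sqrt T → ∀ s : Finset ℕ, s ⊆ Finset.range A.J →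
  ∫⁻ t in Icc (T ^ (19 / 20 : ℝ)) (x + T), ENNReal.ofReal (A.W s y (om t) * (‖A.mo (-1) s (om t)‖ ^ 2
      * ‖riemannZeta (1 / 2 + I * (t + w : ℝ))‖ ^ 2)) ∂(un x T)
    ≤ ENNReal.ofReal (C * Real.log A.p0 ^ 20 * (Real.log T / A.Y) * (1 + A.lam * A.Y) ^ 17
      * gr (Real.log T) w * Real.exp (-∑ g ∈ s, (A.r g : ℝ)) * A.G y)

/-- A3: the complement of the cut-off, with an exponential factor, as a transform -/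
def Ker3 : Prop := ∃ C : ℝ, 1 ≤ C ∧ ∀ σ w a : ℝ, 0 < σ → 1 ≤ σ * w →
  ∃ K : ℝ → ℂ, Continuous K ∧ (∀ u, ‖K u‖ ≤ C * (σ⁻¹ / (1 + |u| / σ) ^ 8)) ∧
    ∀ ξ : ℝ, 0 ≤ ξ → (1 - Real.smoothTransition ((a - ξ) / w) : ℂ)
      = Real.exp (σ / 2 * (ξ - (a - w))) * ∫ u, K u * cexp (-(I * u * ξ))

/-- A4: smooth sums at distance `σ` from the line through Euler products -/
def SuBoundX : Prop := ∃ C : ℝ, 1 ≤ C ∧ ∀ A : Par, A.Ok → ∀ Λ σ : ℝ, 200 ≤ Λ → 0 < σ → σ ≤ 1 →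
  20 ≤ σ * Λ → ∀ (f : Om → ℝ) (m : Om → ℂ) (B : ℝ), Measurable f → Measurable m →
  (∀ x, 0 ≤ f x ∧ f x ≤ B ∧ ‖m x‖ ≤ B) → Dep {p : ℕ | (p : ℝ) ≤ Real.exp A.Y} f →
  Dep {p : ℕ | (p : ℝ) ≤ Real.exp A.Y} m →
  ∫ x, f x * ‖SU Λ (17 / 20 * Λ) σ 0 x * m x - 1‖ ^ 2 ∂mu
    ≤ C * (∫ x, f x * ‖A.F σ 0 x * m x - 1‖ ^ 2 ∂mu)
      + C * Real.exp (-(4 / 5 * (σ * Λ))) * (∫ u, σ⁻¹ / (1 + |u| / σ) ^ 8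
        * ∫ x, f x * (‖A.F (σ / 2) u x‖ ^ 2 * ‖m x‖ ^ 2) ∂mu)
      + C * (∑ n ∈ RoS A.Y (17 / 20 * Λ), (n : ℝ) ^ (-(1 + 2 * σ)))
        * ∫ u, kf Λ u * ∫ x, f x * (‖A.F σ u x‖ ^ 2 * ‖m x‖ ^ 2) ∂mu

/-- the size of the exceptional sets -/
noncomputable def kap (A : Par) (T : ℝ) : ℝ :=
  Real.exp (-A.v) + 1 / A.p0 + Real.log A.p0 ^ 20 * (1 + A.lam * A.Y) ^ 40 * (Real.log T / A.Y)
    * (Real.exp (-(A.lam * Real.log T / 8)) + Real.exp (-(2 * A.lam * A.Y)))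

/-- A5: the smooth sum and the mollifier on the torus -/
def NearTorusX : Prop := ∃ C : ℝ, 1 ≤ C ∧ ∀ A : Par, A.Ok → ∀ T : ℝ, 200 ≤ Real.log T →
  Len A T → 1 ≤ A.lam * A.Y → 20 ≤ A.lam * Real.log T → ∀ y : ℝ,
  ∫ x, A.W ∅ y x * ‖SU (Real.log T) (17 / 20 * Real.log T) A.lam 0 x
      * (A.mo (-1) ∅ x * A.Msm x) - 1‖ ^ 2 ∂mu ≤ C * kap A T * A.G y

/-- A6: the weights and the mollifier of the small primes -/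
def MsmMean : Prop := ∃ C T0 : ℝ, 1 ≤ C ∧ 3 ≤ T0 ∧ ∀ A : Par, A.Ok → ∀ T : ℝ, T0 ≤ T → Len A T →
  (A.p0 : ℝ) ^ 2 ≤ Real.log T → ∀ x y : ℝ,
  ∫⁻ t, ENNReal.ofReal (A.W ∅ y (om t) * ‖A.Msm (om t)‖ ^ 2) ∂(un x T)
    ≤ ENNReal.ofReal (C * Real.log A.p0 ^ 20 * A.G y)

/-- A7: small values of zeta times the mollifier at distance `lam` from the line -/
def LowPt : Prop := ∃ C T0 : ℝ, 1 ≤ C ∧ 3 ≤ T0 ∧ ∀ A : Par, A.Ok → ∀ T : ℝ, T0 ≤ T → Len A T →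
  (A.p0 : ℝ) ^ 2 ≤ Real.log T → 1 ≤ A.lam * A.Y → 20 ≤ A.lam * Real.log T → A.lam ≤ 1 / 100 →
  ∀ x : ℝ, |x| ≤ T → ∀ y : ℝ,
  ∫⁻ t in {t | t ∈ Icc (T ^ (19 / 20 : ℝ)) (x + T) ∧ ‖riemannZeta (pt A.lam t)‖
      * ‖A.mo (-1) ∅ (om t)‖ ≤ Real.exp (-(A.lam * Real.log T))},
    ENNReal.ofReal (A.W ∅ y (om t)) ∂(un x T) ≤ ENNReal.ofReal (C * kap A T * A.G y)

/-! ### B: discs -/

/-- the kernel of the discs -/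
noncomputable def kd (lam w : ℝ) : ℝ := lam⁻¹ / (1 + |w| / lam) ^ 8

/-- B1: zeta in a disc is controlled by its values on the line -/
def DiscSup : Prop := ∃ C T0 : ℝ, 1 ≤ C ∧ 3 ≤ T0 ∧ ∀ T lam t : ℝ, T0 ≤ T → 0 < lam → lam ≤ 1 / 100 →
  1 ≤ lam * Real.log T → T ^ (9 / 10 : ℝ) ≤ t → t ≤ 3 * T →
  ∀ s ∈ Metric.closedBall (pt lam t) (5 * lam), ENNReal.ofReal (‖riemannZeta s‖ ^ 2)
    ≤ ENNReal.ofReal (C * Real.exp (C * (lam * Real.log T)))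
      * ∫⁻ w : ℝ, ENNReal.ofReal (kd lam w * ‖riemannZeta (1 / 2 + I * (t + w : ℝ))‖ ^ 2)

/-- B2: mean of the kernel of the discs -/
def SupMean : Prop := ∃ C T0 : ℝ, 1 ≤ C ∧ 3 ≤ T0 ∧ ∀ A : Par, A.Ok → ∀ T : ℝ, T0 ≤ T → Len A T →
  1 ≤ A.lam * Real.log T → A.lam ≤ 1 / 100 → ∀ x : ℝ, |x| ≤ T → ∀ y : ℝ,
  ∫⁻ t in Icc (T ^ (19 / 20 : ℝ)) (x + T), ENNReal.ofReal (A.W ∅ y (om t) * ‖A.mo (-1) ∅ (om t)‖ ^ 2)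
      * (∫⁻ w : ℝ, ENNReal.ofReal (kd A.lam w * ‖riemannZeta (1 / 2 + I * (t + w : ℝ))‖ ^ 2)) ∂(un x T)
    ≤ ENNReal.ofReal (C * (Real.log A.p0 ^ 20 * (Real.log T / A.Y) * (1 + A.lam * A.Y) ^ 17
      * (1 + A.lam * Real.log T) ^ 5) * A.G y)

/-- B3: small values of analytic functions -/
def Cartan : Prop := ∃ c C : ℝ, 0 < c ∧ 1 ≤ C ∧ ∀ (f : ℂ → ℂ) (τ lam K a : ℝ), 0 < lam → 1 ≤ K →
  AnalyticOnNhd ℂ f (Metric.closedBall (pt lam τ) (5 * lam)) →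
  (∀ s ∈ Metric.closedBall (pt lam τ) (5 * lam), ‖f s‖ ≤ Real.exp K) →
  Real.exp (-K) ≤ ‖f (pt lam τ)‖ →
  volume {w : ℝ | w ∈ Icc 0 lam ∧ ‖f (1 / 2 + I * (τ + w : ℝ))‖ ≤ Real.exp (-a)}
    ≤ ENNReal.ofReal (lam * Real.exp (C - c * a / K))

/-! ### C: windows -/

/-- C1: from the weights to sets, with a weight -/
def TiltW : Prop := ∃ (C C1 : ℝ) (v0 : ℕ), 1 ≤ C ∧ 1 ≤ C1 ∧ ∀ A : Par, A.Ok → v0 ≤ A.v →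
  A.b = 1 / 20 → ∀ s : Finset ℕ, s ⊆ Finset.range A.J → ∀ m : Measure ℝ, SFinite m → ∀ κ : ℝ, 0 ≤ κ →
  ∀ H : ℝ → ENNReal, Measurable H →
  (∀ y : ℝ, ∫⁻ t, ENNReal.ofReal (A.W s y (om t)) * H t ∂m ≤ ENNReal.ofReal (κ * A.G y)) →
  ∀ ω ω' : ℝ → ENNReal, Measurable ω → Measurable ω' → (∀ u y : ℝ, |u - y| ≤ C1 → ω u ≤ ω' y) →
  ∫⁻ t in {t | A.Good s (om t) ∧ A.Bad s (om t)}, ω (A.X s (om t)) * H t ∂m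
    ≤ ENNReal.ofReal (C * κ) * ∫⁻ y : ℝ, ω' y * ENNReal.ofReal (A.G y)

/-- C2: the law of the prime sum in intervals -/
def LawXloc : Prop := ∃ (C T0 : ℝ) (v0 : ℕ), 1 ≤ C ∧ 3 ≤ T0 ∧ ∀ A : Par, A.Ok → v0 ≤ A.v →
  A.b = 1 / 20 → ∀ T : ℝ, T0 ≤ T → Len A T → ∀ x V1 V2 : ℝ, V1 + 1 ≤ V2 → A.be * (V2 - V1) ≤ 1 →
  |(un x T {t | A.Good ∅ (om t) ∧ V1 < A.X ∅ (om t) ∧ A.X ∅ (om t) ≤ V2}).toReal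
      - (gaussianReal 0 (Real.toNNReal A.s2) (Ioc V1 V2)).toReal|
    ≤ C * ((Real.exp (-A.v) + 1 / A.p0 + 1 / Real.sqrt T) * (V2 - V1) + Real.sqrt (V2 - V1)) * A.G V1

/-- C3: second moments of linear forms under the weights -/
def LinMean : Prop := ∃ C T0 : ℝ, 1 ≤ C ∧ 3 ≤ T0 ∧ ∀ A : Par, A.Ok → ∀ T : ℝ, T0 ≤ T → Len A T →
  ∀ x y : ℝ, ∀ s : Finset ℕ, s ⊆ Finset.range A.J → ∀ c : ℕ → ℂ, (∀ p : ℕ, ‖c p‖ ≤ 2 / Real.sqrt p) →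
  ∀ D : ℝ, 1 ≤ D → ∑ p ∈ A.U \ s.biUnion A.S, A.h p * ‖c p‖ ≤ D →
  ∑ p ∈ A.U \ s.biUnion A.S, ‖c p‖ ^ 2 ≤ D ^ 2 →
  ∫⁻ t, ENNReal.ofReal (A.W s y (om t) * ((lin A.U c (om t)).re) ^ 2) ∂(un x T)
    ≤ ENNReal.ofReal (C * D ^ 2 * Real.exp (-∑ g ∈ s, (A.r g : ℝ)) * A.G y)

/-! ### D: small values of zeta compared with the prime sum -/

/-- nice heights: zeta times the mollifier is not too small at distance `lam` from the line and not too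
large in the disc -/
def Nice (C2 : ℝ) (A : Par) (T t : ℝ) : Prop :=
  Real.exp (-(A.lam * Real.log T)) < ‖riemannZeta (pt A.lam t)‖ * ‖A.mo (-1) ∅ (om t)‖ ∧
  ENNReal.ofReal (‖A.mo (-1) ∅ (om t)‖ ^ 2)
      * (∫⁻ w : ℝ, ENNReal.ofReal (kd A.lam w * ‖riemannZeta (1 / 2 + I * (t + w : ℝ))‖ ^ 2))
    ≤ ENNReal.ofReal (Real.exp (C2 * (A.lam * Real.log T)))

/-- D1: most heights are nice -/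
def NiceMean : Prop := ∃ C C2 T0 : ℝ, 1 ≤ C ∧ 1 ≤ C2 ∧ 3 ≤ T0 ∧ ∀ A : Par, A.Ok → ∀ T : ℝ, T0 ≤ T →
  Len A T → (A.p0 : ℝ) ^ 2 ≤ Real.log T → 1 ≤ A.lam * A.Y → 20 ≤ A.lam * Real.log T →
  A.lam ≤ 1 / 100 → ∀ x : ℝ, |x| ≤ T → ∀ y : ℝ,
  MeasurableSet {t : ℝ | Nice C2 A T t} ∧
  ∫⁻ t in {t | t ∈ Icc (T ^ (19 / 20 : ℝ)) (x + T) ∧ ¬ Nice C2 A T t},
    ENNReal.ofReal (A.W ∅ y (om t)) ∂(un x T) ≤ ENNReal.ofReal (C * kap A T * A.G y)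

/-- D2: at a nice height small values nearby are rare -/
def NiceShift : Prop := ∀ C2 : ℝ, 1 ≤ C2 → ∃ (c C T0 : ℝ) (v0 : ℕ), 0 < c ∧ 1 ≤ C ∧ 3 ≤ T0 ∧
  ∀ A : Par, A.Ok → v0 ≤ A.v → ∀ T : ℝ, T0 ≤ T → 20 ≤ A.lam * Real.log T → A.lam ≤ 1 / 100 →
  ∀ t : ℝ, T ^ (9 / 10 : ℝ) ≤ t → t ≤ 3 * T → A.Good ∅ (om t) → Nice C2 A T t → ∀ a : ℝ,
  volume {w : ℝ | w ∈ Icc 0 A.lam ∧
      ‖riemannZeta (1 / 2 + I * (t + w : ℝ))‖ ≤ Real.exp (A.X ∅ (om t) - a)}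
    ≤ ENNReal.ofReal (A.lam * Real.exp (C - c * a / (A.lam * Real.log T)))

/-- D3: small values of zeta are rare -/
def LowTail : Prop := ∃ (c C T0 : ℝ) (v0 : ℕ), 0 < c ∧ 1 ≤ C ∧ 3 ≤ T0 ∧ ∀ A : Par, A.Ok → v0 ≤ A.v →
  A.b = 1 / 20 → ∀ T : ℝ, T0 ≤ T → Len A T → (A.p0 : ℝ) ^ 2 ≤ Real.log T → 1 ≤ A.lam * A.Y →
  20 ≤ A.lam * Real.log T → A.lam ≤ 1 / 100 → ∀ x : ℝ, |x| ≤ T ^ (9 / 10 : ℝ) → ∀ V1 V2 a : ℝ,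
  V1 ≤ V2 → C ≤ a →
  un x T {t | t ∈ Icc (T ^ (19 / 20 : ℝ)) (x + T) ∧ A.Good ∅ (om t) ∧ V1 < A.X ∅ (om t) ∧
      A.X ∅ (om t) ≤ V2 ∧ ‖riemannZeta (1 / 2 + I * t)‖ ≤ Real.exp (A.X ∅ (om t) - a)}
    ≤ ENNReal.ofReal (C * ((1 + Real.log (1 + A.lam * A.Y)) ^ 2 / a ^ 2 + kap A T
        + Real.exp (-(c * a / (A.lam * Real.log T)))) * ((V2 - V1 + a) * A.G (V1 - a))
      + 4 * T ^ (-(1 / 20) : ℝ))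

/-! ### E: levels -/

/-- the parameters belonging to the size `N` -/
structure Spec (A : Par) (T N : ℝ) : Prop where
  ok : A.Ok
  hb : A.b = 1 / 20
  hv1 : 5 * Real.log N ≤ A.v
  hv2 : (A.v : ℝ) ≤ 6 * Real.log N
  hp1 : N ^ 4 ≤ A.p0
  hp2 : (A.p0 : ℝ) ≤ 2 * N ^ 4
  hl : A.lam = N ^ (1 / 2 : ℝ) / Real.log T
  hY : A.Y = Real.log T / (10 ^ 11 * A.v)
  hN : N ^ 12 ≤ Real.log T
  hbe : A.be ≤ 1 / 10 ^ 4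

/-- the perfect heights of the level `N`, for the values of `log |zeta|` between `V` and `V + h` -/
def Perf (A : Par) (N V h t : ℝ) : Prop :=
  A.Good ∅ (om t) ∧ V - 10 * Real.log N < A.X ∅ (om t) ∧ A.X ∅ (om t) ≤ V + h + N

/-- the heights with values between `V` and `V + h` -/
def Ev (x T V h : ℝ) : Set ℝ := {t | t ∈ Icc (T ^ (19 / 20 : ℝ)) (x + T) ∧
  Real.exp V < ‖riemannZeta (1 / 2 + I * t)‖ ∧ ‖riemannZeta (1 / 2 + I * t)‖ ≤ Real.exp (V + h)}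

/-- E1: the numbers of a level -/
def SpecNum : Prop := ∃ C N0 : ℝ, 1 ≤ C ∧ 1 ≤ N0 ∧ ∀ (A : Par) (T N : ℝ), Spec A T N → N0 ≤ N →
  Len A T ∧ (A.p0 : ℝ) ^ 2 ≤ Real.log T ∧ 1 ≤ A.lam * A.Y ∧ 20 ≤ A.lam * Real.log T ∧
  A.lam ≤ 1 / 100 ∧ kap A T ≤ C / N ^ 3 ∧
  Real.log A.p0 ^ 20 * (Real.log T / A.Y) * (1 + A.lam * A.Y) ^ 17 ≤ C * N ^ 9 ∧
  (1 + Real.log (1 + A.lam * A.Y)) ^ 2 ≤ C * N ^ (1 / 100 : ℝ) ∧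
  |A.vt - Real.log (Real.log T)| ≤ C * N ^ (1 / 2 : ℝ)

/-- E2: the prime sums of two levels -/
def SpecLin : Prop := ∃ C N0 : ℝ, 1 ≤ C ∧ 1 ≤ N0 ∧ ∀ (A A' : Par) (T N : ℝ), Spec A T N →
  Spec A' T (N ^ (3 / 2 : ℝ)) → N0 ≤ N → A'.vt ≤ A.vt ∧ ∀ s : Finset ℕ, s ⊆ Finset.range A.J →
  ∃ c : ℕ → ℂ, (∀ p : ℕ, ‖c p‖ ≤ 2 / Real.sqrt p) ∧
    (∀ x : Om, A'.X ∅ x - A.X s x = (lin A.U c x).re) ∧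
    ∑ p ∈ A.U \ s.biUnion A.S, A.h p * ‖c p‖ ≤ C * Real.log N ∧
    ∑ p ∈ A.U \ s.biUnion A.S, ‖c p‖ ^ 2 ≤ (C * Real.log N) ^ 2

/-- E3: heights whose prime sum is too small -/
def StepLow : Prop := ∃ C N0 T0 : ℝ, 1 ≤ C ∧ 1 ≤ N0 ∧ 3 ≤ T0 ∧ ∀ (A : Par) (T N : ℝ), Spec A T N →
  N0 ≤ N → T0 ≤ T → ∀ x V : ℝ, |x| ≤ T ^ (9 / 10 : ℝ) →
  un x T {t | t ∈ Icc (T ^ (19 / 20 : ℝ)) (x + T) ∧ Real.exp V < ‖riemannZeta (1 / 2 + I * t)‖ ∧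
      ∃ s ⊆ Finset.range A.J, A.Good s (om t) ∧ A.Bad s (om t) ∧ A.X s (om t) ≤ V - 10 * Real.log N}
    ≤ ENNReal.ofReal (C / N * A.G V)

/-- E4: heights with bad groups -/
def StepBad : Prop := ∃ C N0 T0 : ℝ, 1 ≤ C ∧ 1 ≤ N0 ∧ 3 ≤ T0 ∧ ∀ (A : Par) (T N : ℝ), Spec A T N →
  N0 ≤ N → T0 ≤ T → ∀ x V B : ℝ, V ≤ B →
  un x T {t | ∃ s ⊆ Finset.range A.J, s.Nonempty ∧ A.Good s (om t) ∧ A.Bad s (om t) ∧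
      V - 10 * Real.log N < A.X s (om t) ∧ A.X s (om t) ≤ B}
    ≤ ENNReal.ofReal (C * (B - V + N) / N ^ 4 * A.G V)

/-- E5: heights for which two levels are far apart -/
def StepFar : Prop := ∃ C N0 T0 : ℝ, 1 ≤ C ∧ 1 ≤ N0 ∧ 3 ≤ T0 ∧ ∀ (A A' : Par) (T N : ℝ),
  Spec A T N → Spec A' T (N ^ (3 / 2 : ℝ)) → N0 ≤ N → T0 ≤ T → ∀ x V B : ℝ, V ≤ B →
  un x T {t | A'.X ∅ (om t) ≤ B ∧ ∃ s ⊆ Finset.range A.J, A.Good s (om t) ∧ A.Bad s (om t) ∧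
      B + N ^ (3 / 2 : ℝ) < A.X s (om t)}
    ≤ ENNReal.ofReal (C / N * A.G V)

/-- E6: one step -/
def LevelStep : Prop := ∃ C N0 T0 : ℝ, 1 ≤ C ∧ 1 ≤ N0 ∧ 3 ≤ T0 ∧ ∀ (A A' : Par) (T N : ℝ),
  Spec A T N → Spec A' T (N ^ (3 / 2 : ℝ)) → N0 ≤ N → T0 ≤ T → ∀ x V h : ℝ,
  |x| ≤ T ^ (9 / 10 : ℝ) → 0 ≤ h →
  un x T {t | t ∈ Ev x T V h ∧ Perf A' (N ^ (3 / 2 : ℝ)) V h t ∧ ¬ Perf A N V h t}
    ≤ ENNReal.ofReal (C * (1 + h) / N ^ (1 / 4 : ℝ) * A.G V + 4 * T ^ (-(1 / 20) : ℝ))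

/-- E7: the last step; `A.be` is at least `1 / sqrt (log log T)` and `N` is a larger power -/
def LevelTop : Prop := ∃ C N0 T0 : ℝ, 1 ≤ C ∧ 1 ≤ N0 ∧ 3 ≤ T0 ∧ ∀ (A : Par) (T N : ℝ),
  Spec A T N → N0 ≤ N → T0 ≤ T → Real.log (Real.log T) ≤ N ^ (9 / 5 : ℝ) →
  1 / Real.sqrt (Real.log (Real.log T)) ≤ A.be → ∀ x V h : ℝ, |x| ≤ T ^ (9 / 10 : ℝ) → 0 ≤ h →
  un x T {t | t ∈ Ev x T V h ∧ ¬ Perf A N V h t}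
    ≤ ENNReal.ofReal (C * (1 + h) / N ^ (1 / 4 : ℝ) * A.G V)

/-- E8: existence of the parameters -/
def SpecEx : Prop := ∃ N0 : ℝ, 1 ≤ N0 ∧ ∀ N : ℝ, N0 ≤ N → ∀ T : ℝ, N ^ 12 ≤ Real.log T →
  N ≤ Real.log (Real.log T) → ∃ A : Par, ∀ be : ℝ, 0 < be → be ≤ 1 / 10 ^ 4 →
  Spec { A with be := be } T N

/-- E9: all the levels -/
def Levels : Prop := ∃ C N0 : ℝ, 1 ≤ C ∧ 1 ≤ N0 ∧ ∀ N : ℝ, N0 ≤ N → ∃ T0 : ℝ, 3 ≤ T0 ∧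
  ∀ (A : Par) (T : ℝ), Spec A T N → T0 ≤ T → 1 / Real.sqrt (Real.log (Real.log T)) ≤ A.be →
  ∀ x V h : ℝ, |x| ≤ T ^ (9 / 10 : ℝ) → 0 ≤ h →
  un x T {t | t ∈ Ev x T V h ∧ ¬ Perf A N V h t}
    ≤ ENNReal.ofReal (C * (1 + h) / N ^ (1 / 4 : ℝ) * A.G V
      + Real.log (Real.log T) * T ^ (-(1 / 20) : ℝ))

/-- E10: the upper bound -/
def UpLoc : Prop := ∃ C N0 : ℝ, 1 ≤ C ∧ 1 ≤ N0 ∧ ∀ N : ℝ, N0 ≤ N → ∃ T0 : ℝ, 3 ≤ T0 ∧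
  ∀ (A : Par) (T : ℝ), Spec A T N → T0 ≤ T → 1 / Real.sqrt (Real.log (Real.log T)) ≤ A.be →
  ∀ x V h : ℝ, |x| ≤ T ^ (9 / 10 : ℝ) → N ^ 2 ≤ h → A.be * (h + 2 * N) ≤ 1 →
  |(un x T (Ev x T V h)).toReal - (gaussianReal 0 (Real.toNNReal A.s2) (Ioc V (V + h))).toReal|
    ≤ C * h / N ^ (1 / 4 : ℝ) * A.G V + T ^ (-(1 / 30) : ℝ)

/-- the probability that `s Z` lies in `(V, W]` -/
noncomputable def gi (s V W : ℝ) : ℝ := (gaussianReal 0 (Real.toNNReal (s ^ 2)) (Ioc V W)).toReal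

/-- E11: Gaussian intervals -/
def GaussInt : Prop := ∃ C : ℝ, 1 ≤ C ∧
  (∀ s V h : ℝ, 1 ≤ s → 0 ≤ h → h ≤ s → h * |V| ≤ s ^ 2 →
    h / s * Real.exp (-(V ^ 2 / (2 * s ^ 2))) ≤ C * gi s V (V + h) ∧
    gi s V (V + h) ≤ C * (h / s * Real.exp (-(V ^ 2 / (2 * s ^ 2))))) ∧
  (∀ s s' V h : ℝ, 1 ≤ s → 1 ≤ s' → 0 ≤ h → h ≤ s → h * |V| ≤ s ^ 2 → |s ^ 2 - s' ^ 2| ≤ s ^ 2 / 2 →
    |s ^ 2 - s' ^ 2| * V ^ 2 ≤ s ^ 4 →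
    |gi s' V (V + h) - gi s V (V + h)|
      ≤ C * (|s ^ 2 - s' ^ 2| * (1 + V ^ 2 / s ^ 2) / s ^ 2) * gi s V (V + h))

/-- E12: the law of `log |zeta|` in bounded intervals -/
def LocalZero : Prop := ∀ ε : ℝ, 0 < ε → ∃ h0 : ℝ, 1 ≤ h0 ∧ ∀ h1 : ℝ, ∃ δ T0 : ℝ, 0 < δ ∧
  ∀ x T V h : ℝ, T0 ≤ T → |x| ≤ T ^ (9 / 10 : ℝ) → h0 ≤ h → h ≤ h1 →
  -(Real.sqrt (Real.log (Real.log T)) / ε) ≤ V → V ≤ δ * Real.log (Real.log T) →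
  |(volume {u : ℝ | u ∈ Icc (0 : ℝ) 1 ∧ Real.exp V < ‖riemannZeta (1 / 2 + I * x + I * u * T)‖ ∧
      ‖riemannZeta (1 / 2 + I * x + I * u * T)‖ ≤ Real.exp (V + h)}).toReal
    - gi (Real.sqrt (Real.log (Real.log T) / 2)) V (V + h)|
    ≤ ε * gi (Real.sqrt (Real.log (Real.log T) / 2)) V (V + h)

end Pool.Agent.Lib.LC
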