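import Mathlib
import Pool.Agent.Lib.MP_f9aece_nt_gt.Cont
import Pool.Agent.Lib.MP_f9aece_nt_gt.B3
import Pool.Agent.Lib.MP_f9aece_nt_gt.D5
import Pool.Agent.Lib.MP_f9aece_nt_loc.Stmts

/-!
The law of `log |zeta|` at bounded scale, module A1: the Euler products under the tilt, with a
constant explicit in `p0`.
-/

set_option autoImplicit false

namespace Pool.Agent.Lib.LC.A1

open MeasureTheory Set Filter Topology Complex ProbabilityTheory
open scoped ComplexConjugate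
open Pool.Agent.Lib.GT Pool.Agent.Lib.GT.D5 Pool.Agent.Lib.GT.D6
open Pool.Agent.Lib.MP_f9aece_nt (VV)

/-! ### one prime -/

/-- the coefficients of `(1 - b z) / (1 - a z)` -/
noncomputable def cf (a b : ℂ) : ℕ → ℂ
  | 0 => 1
  | n + 1 => (a - b) * a ^ n

lemma summable_cf {a b : ℂ} (ha : ‖a‖ < 1) : Summable fun n => ‖cf a b n‖ := by
  rw [← summable_nat_add_iff 1]
  have h : (fun n => ‖cf a b (n + 1)‖) = fun n => ‖a - b‖ * ‖a‖ ^ n := by
    funext n
    simp only [cf, norm_mul, norm_pow]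
  rw [h]
  exact (summable_geometric_of_lt_one (norm_nonneg _) ha).mul_left _

lemma tsum_cf {a b z : ℂ} (ha : ‖a‖ < 1) (hz : ‖z‖ = 1) :
    ∑' n, cf a b n * z ^ n = (1 - b * z) * (1 - a * z)⁻¹ := by
  have hs : Summable fun n => cf a b n * z ^ n := by
    refine Summable.of_norm ?_
    have : (fun n => ‖cf a b n * z ^ n‖) = fun n => ‖cf a b n‖ := by
      funext n
      rw [norm_mul, norm_pow, hz, one_pow, mul_one]
    rw [this]
    exact summable_cf ha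
  have haz : ‖a * z‖ < 1 := by rwa [norm_mul, hz, mul_one]
  have hne : 1 - a * z ≠ 0 := by
    intro h
    have : a * z = 1 := by linear_combination -h
    rw [this, norm_one] at haz
    exact lt_irrefl _ haz
  rw [hs.tsum_eq_zero_add]
  have h1 : ∀ n : ℕ, cf a b (n + 1) * z ^ (n + 1) = (a - b) * z * (a * z) ^ n := by
    intro n
    simp only [cf]
    rw [mul_pow, pow_succ]
    ring
  simp_rw [h1]
  rw [tsum_mul_left, tsum_geometric_of_norm_lt_one haz]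
  simp only [cf, pow_zero, mul_one]
  field_simp
  ring

lemma measurable_fac (a : ℂ) : Measurable (fac a) := by
  unfold fac
  exact (measurable_const.sub (measurable_const.mul continuous_e1.measurable)).inv

lemma one_prime {a b : ℂ} {p : ℕ} (hp : 2 ≤ p) (ha : ‖a‖ ≤ 1 / Real.sqrt p)
    (hb : ‖b‖ ≤ 1 / Real.sqrt p) :
    ∫ t, ‖(1 - b * e1 t) * fac a t‖ ^ 2 ∂u1 ≤ Real.exp (8 * (p : ℝ)⁻¹) := by
  have hp2 : (2 : ℝ) ≤ p := by exact_mod_cast hp
  have hp0 : (0 : ℝ) < p := by linarith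
  have hinv : (p : ℝ)⁻¹ ≤ 1 / 2 := by
    rw [inv_le_comm₀ hp0 (by norm_num)]
    linarith
  have hi0 : 0 < (p : ℝ)⁻¹ := inv_pos.mpr hp0
  have hsq : (1 / Real.sqrt p) ^ 2 = (p : ℝ)⁻¹ := by
    rw [div_pow, Real.sq_sqrt hp0.le, one_pow, one_div]
  have ha2 : ‖a‖ ^ 2 ≤ (p : ℝ)⁻¹ := by
    rw [← hsq]
    exact pow_le_pow_left₀ (norm_nonneg _) ha 2
  have ha1 : ‖a‖ < 1 := by
    by_contra hcon
    push Not at hcon
    nlinarith
  have h1 := integral_series (summable_cf (b := b) ha1)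
    (B := fun n => conj (cf a b n)) (by simpa using summable_cf (b := b) ha1)
  have h2 : ∀ t : ℝ, (∑' n, cf a b n * e1 t ^ n) * (∑' n, conj (cf a b n) * conj (e1 t) ^ n)
      = ((‖(1 - b * e1 t) * fac a t‖ ^ 2 : ℝ) : ℂ) := by
    intro t
    have h3 : ∑' n, conj (cf a b n) * conj (e1 t) ^ n = conj (∑' n, cf a b n * e1 t ^ n) := by
      rw [Complex.conj_tsum]
      refine tsum_congr fun n => ?_
      rw [map_mul, map_pow]
    rw [h3, tsum_cf ha1 (norm_e1 t), Complex.mul_conj']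
    push_cast
    rfl
  simp_rw [h2] at h1
  rw [integral_complex_ofReal] at h1
  have h4 : ∑' n, cf a b n * conj (cf a b n) = ((1 + ‖a - b‖ ^ 2 * (1 - ‖a‖ ^ 2)⁻¹ : ℝ) : ℂ) := by
    have h5 : ∀ n, cf a b n * conj (cf a b n) = ((‖cf a b n‖ ^ 2 : ℝ) : ℂ) := by
      intro n
      rw [Complex.mul_conj']
      push_cast
      rfl
    simp_rw [h5]
    rw [← Complex.ofReal_tsum]
    congr 1
    have ha2' : ‖a‖ ^ 2 < 1 := by nlinarith [norm_nonneg a]
    have h6 : ∀ n : ℕ, ‖cf a b (n + 1)‖ ^ 2 = ‖a - b‖ ^ 2 * (‖a‖ ^ 2) ^ n := by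
      intro n
      simp only [cf, norm_mul, norm_pow]
      rw [mul_pow, ← pow_mul, ← pow_mul, mul_comm n 2]
    have hs : Summable fun n => ‖cf a b n‖ ^ 2 := by
      rw [← summable_nat_add_iff 1]
      simp_rw [h6]
      exact (summable_geometric_of_lt_one (by positivity) ha2').mul_left _
    rw [hs.tsum_eq_zero_add]
    simp_rw [h6]
    rw [tsum_mul_left, tsum_geometric_of_lt_one (by positivity) ha2']
    simp [cf]
  rw [h4] at h1
  have h7 : ∫ t, ‖(1 - b * e1 t) * fac a t‖ ^ 2 ∂u1 = 1 + ‖a - b‖ ^ 2 * (1 - ‖a‖ ^ 2)⁻¹ := by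
    exact_mod_cast h1
  rw [h7]
  have h8 : ‖a - b‖ ^ 2 ≤ 4 * (p : ℝ)⁻¹ := by
    have h9 : ‖a - b‖ ≤ 2 * (1 / Real.sqrt p) := (norm_sub_le _ _).trans (by linarith)
    calc ‖a - b‖ ^ 2 ≤ (2 * (1 / Real.sqrt p)) ^ 2 := pow_le_pow_left₀ (norm_nonneg _) h9 2
      _ = 4 * (1 / Real.sqrt p) ^ 2 := by ring
      _ = _ := by rw [hsq]
  have h9 : (1 - ‖a‖ ^ 2)⁻¹ ≤ 2 := by
    rw [inv_le_comm₀ (by linarith) (by norm_num)]
    linarith
  have h10 : 0 ≤ (1 - ‖a‖ ^ 2)⁻¹ := inv_nonneg.mpr (by linarith)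
  have h11 : ‖a - b‖ ^ 2 * (1 - ‖a‖ ^ 2)⁻¹ ≤ 4 * (p : ℝ)⁻¹ * 2 :=
    mul_le_mul h8 h9 h10 (by positivity)
  have h12 := Real.add_one_le_exp (8 * (p : ℝ)⁻¹)
  linarith

/-! ### the small primes -/

/-- the Euler factors of the small primes, with mollifier -/
noncomputable def Qg (A : Par) (a b : ℕ → ℂ) (x : Om) : ℝ :=
  ∏ p ∈ Sm A, ‖(1 - b p * e1 (x p)) * fac (a p) (x p)‖ ^ 2

lemma measurable_Qg (A : Par) (a b : ℕ → ℂ) : Measurable (Qg A a b) := by
  unfold Qg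
  refine Finset.measurable_fun_prod _ fun p _ => ?_
  have h1 : Measurable fun t : ℝ => (1 - b p * e1 t) * fac (a p) t :=
    (measurable_const.sub (measurable_const.mul continuous_e1.measurable)).mul (measurable_fac _)
  exact ((h1.comp (measurable_pi_apply p)).norm).pow_const 2

lemma dep_Qg (A : Par) (a b : ℕ → ℂ) : Dep (Sm A : Set ℕ) (Qg A a b) := by
  intro x y hxy
  unfold Qg
  refine Finset.prod_congr rfl fun p hp => ?_
  rw [hxy p (Finset.mem_coe.mpr hp)]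

lemma Qg_nonneg (A : Par) (a b : ℕ → ℂ) (x : Om) : 0 ≤ Qg A a b x :=
  Finset.prod_nonneg fun _ _ => by positivity

/-- a constant -/
noncomputable def c8 : ℝ := Real.exp (8 * (1 + Real.log 2 + 2 * Real.log 4))

lemma VV_Sm {A : Par} (hA : A.Ok) :
    VV (Sm A) ≤ 1 + Real.log 2 + 2 * Real.log 4 + Real.log (Real.log A.p0) := by
  have hp : (1000 : ℝ) ≤ A.p0 := by exact_mod_cast hA.hp
  have hlog2 : 1 / 2 < Real.log 2 := by
    have := Real.log_two_gt_d9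
    linarith
  have hl : Real.log 2 ≤ Real.log A.p0 := Real.log_le_log (by norm_num) (by linarith)
  have h := MP_f9aece_nt_h6.VV_le_log (y := 1 / 2) (Y := Real.log A.p0) (by norm_num)
    (by linarith) (Sm A) (by
      intro p hp
      obtain ⟨⟨h1, h2⟩, h3⟩ := mem_Sm.mp hp
      have hp2 : (2 : ℝ) ≤ p := by exact_mod_cast h3.two_le
      refine ⟨h3, ?_, ?_⟩
      · exact hlog2.trans_le (Real.log_le_log (by norm_num) hp2)
      · exact Real.log_le_log (by linarith) (by exact_mod_cast h2))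
  have h2 : Real.log (Real.log A.p0 / (1 / 2)) = Real.log (Real.log A.p0) + Real.log 2 := by
    rw [div_div_eq_mul_div, div_one, Real.log_mul (by linarith) (by norm_num)]
  rw [h2] at h
  have h3 : Real.log 4 / (1 / 2) = 2 * Real.log 4 := by ring
  rw [h3] at h
  linarith

lemma int_Qg {A : Par} (hA : A.Ok) {a b : ℕ → ℂ} (ha : ∀ p : ℕ, ‖a p‖ ≤ 1 / Real.sqrt p)
    (hb : ∀ p : ℕ, ‖b p‖ ≤ 1 / Real.sqrt p) :
    ∫ x, Qg A a b x ∂mu ≤ c8 * Real.log A.p0 ^ 20 := by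
  unfold Qg
  rw [integral_prod_real (Sm A) (fun p t => ‖(1 - b p * e1 t) * fac (a p) t‖ ^ 2) fun p => by
    have h1 : Measurable fun t : ℝ => (1 - b p * e1 t) * fac (a p) t :=
      (measurable_const.sub (measurable_const.mul continuous_e1.measurable)).mul (measurable_fac _)
    exact h1.norm.pow_const 2]
  have h1 : ∏ p ∈ Sm A, ∫ t, ‖(1 - b p * e1 t) * fac (a p) t‖ ^ 2 ∂u1
      ≤ ∏ p ∈ Sm A, Real.exp (8 * (p : ℝ)⁻¹) :=
    Finset.prod_le_prod (fun p _ => integral_nonneg fun t => by positivity) fun p hp =>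
      one_prime (mem_Sm.mp hp).2.two_le (ha p) (hb p)
  refine h1.trans ?_
  rw [← Real.exp_sum, ← Finset.mul_sum]
  have h2 := VV_Sm hA
  unfold VV at h2
  have hp : (1000 : ℝ) ≤ A.p0 := by exact_mod_cast hA.hp
  have hl : 1 ≤ Real.log A.p0 := by
    rw [Real.le_log_iff_exp_le (by linarith)]
    have := Real.exp_one_lt_d9
    linarith
  have hl0 : 0 < Real.log A.p0 := by linarith
  calc Real.exp (8 * ∑ p ∈ Sm A, (p : ℝ)⁻¹)
      ≤ Real.exp (8 * (1 + Real.log 2 + 2 * Real.log 4 + Real.log (Real.log A.p0))) := by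
        apply Real.exp_le_exp.mpr
        linarith
    _ = c8 * Real.exp (((8 : ℕ) : ℝ) * Real.log (Real.log A.p0)) := by
        unfold c8
        rw [← Real.exp_add]
        congr 1
        push_cast
        ring
    _ = c8 * Real.log A.p0 ^ 8 := by rw [Real.exp_nat_mul, Real.exp_log hl0]
    _ ≤ c8 * Real.log A.p0 ^ 20 := by
        refine mul_le_mul_of_nonneg_left (pow_le_pow_right₀ hl (by norm_num)) ?_
        unfold c8
        positivity

/-! ### dependence on the primes of the groups -/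

lemma S_subset_U (A : Par) {g : ℕ} (hg : g ∈ Finset.range A.J) : A.S g ⊆ A.U := by
  unfold Par.U
  exact Finset.subset_biUnion_of_mem A.S hg

lemma dep_P (A : Par) {g : ℕ} (hg : g ∈ Finset.range A.J) : Dep (A.U : Set ℕ) (A.P g) := by
  refine Dep.mono (dep_lin (S := A.S g) (c := fun p => (A.h p : ℂ))) ?_
  exact_mod_cast S_subset_U A hg

lemma dep_bb (A : Par) {g : ℕ} (hg : g ∈ Finset.range A.J) : Dep (A.U : Set ℕ) (A.bb g) := by
  refine Dep.mono (S := (A.S g : Set ℕ)) ?_ (by exact_mod_cast S_subset_U A hg)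
  intro x y hxy
  unfold Par.bb bp
  rw [dep_lin (S := A.S g) (c := fun p => (A.h p : ℂ)) x y hxy]

lemma dep_mo (A : Par) (μ : ℂ) (s : Finset ℕ) : Dep (A.U : Set ℕ) (A.mo μ s) := by
  unfold Par.mo
  refine dep_prod fun g hg => ?_
  exact (dep_P A (Finset.mem_sdiff.mp hg).1).comp fun z => tex (KK (A.r g)) (μ * z)

lemma dep_q (A : Par) (s : Finset ℕ) (y : ℝ) : Dep (A.U : Set ℕ) (A.q s y) := by
  intro x x' hx
  unfold Par.q
  refine congrArg _ (funext fun η => ?_)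
  refine congrArg _ (congrArg _ (Finset.prod_congr rfl fun g hg => ?_))
  rw [dep_P A (Finset.mem_sdiff.mp hg).1 x x' hx]

lemma dep_W (A : Par) {s : Finset ℕ} (hs : s ⊆ Finset.range A.J) (y : ℝ) :
    Dep (A.U : Set ℕ) (A.W s y) := by
  intro x x' hx
  unfold Par.W
  rw [dep_q A s y x x' hx, Finset.prod_congr rfl fun g hg => dep_bb A (hs hg) x x' hx]

lemma dep_GU (A : Par) (a : ℕ → ℂ) : Dep (A.U : Set ℕ) (GU A a) := by
  intro x x' hx
  unfold GU
  refine Finset.prod_congr rfl fun p hp => ?_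
  rw [hx p (Finset.mem_coe.mpr hp)]

lemma measurable_GU (A : Par) (a : ℕ → ℂ) : Measurable (GU A a) := by
  unfold GU
  exact Finset.measurable_fun_prod _ fun p _ => (measurable_fac _).comp (measurable_pi_apply p)

lemma disj_Sm {A : Par} (hA : A.Ok) : Disjoint A.U (Sm A) := by
  rw [Finset.disjoint_left]
  intro p h2 h1
  rw [U_eq_Pall A hA, MP_f9aece_nt_h6.mem_Pall] at h2
  have := (mem_Sm.mp h1).1.2
  omega

/-- **the second moment of an Euler product, small primes independent** -/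
lemma core1 (hW : WBd) : ∃ C : ℝ, 0 ≤ C ∧ ∀ A : Par, A.Ok → ∀ a : ℕ → ℂ,
    (∀ p : ℕ, ‖a p‖ ≤ 1 / Real.sqrt p) → ∀ (Q : Om → ℝ), Measurable Q →
    Dep (Sm A : Set ℕ) Q → (∀ x, 0 ≤ Q x) → ∀ B : ℝ,
    A.be * (S1 A a).re + S2 A a ≤ B → ∀ (y : ℝ) (s : Finset ℕ), s ⊆ Finset.range A.J →
    ∫ x, A.W s y x * (‖GU A a x‖ ^ 2 * ‖A.mo (-1) s x‖ ^ 2 * Q x) ∂mu
      ≤ C * Real.exp (-(2 * ∑ g ∈ s, (A.r g : ℝ))) * Real.exp B * A.G y * ∫ x, Q x ∂mu := by
  obtain ⟨C, hC, H⟩ := core hW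
  refine ⟨C, hC, fun A hA a ha Q hQ hdep hQ0 B hB y s hs => ?_⟩
  have h1 := H A hA a ha 1 (fun _ => 1) measurable_const (fun _ _ _ => rfl)
    (fun _ => ⟨zero_le_one, le_rfl⟩) B hB y s hs
  simp only [mul_one] at h1
  have hmeas : Measurable fun x => A.W s y x * (‖GU A a x‖ ^ 2 * ‖A.mo (-1) s x‖ ^ 2) :=
    (A.continuous_W' hA s y).measurable.mul (((measurable_GU A a).norm.pow_const 2).mul
      ((A.continuous_mo (-1) s).measurable.norm.pow_const 2))
  have hdepF : Dep (A.U : Set ℕ) fun x => A.W s y x * (‖GU A a x‖ ^ 2 * ‖A.mo (-1) s x‖ ^ 2) := by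
    intro x x' hx
    simp only
    rw [dep_W A hs y x x' hx, dep_GU A a x x' hx, dep_mo A (-1) s x x' hx]
  have h2 := integral_mul_of_dep (disj_Sm hA) (Complex.measurable_ofReal.comp hmeas)
    (Complex.measurable_ofReal.comp hQ) (hdepF.comp fun q : ℝ => (q : ℂ))
    (hdep.comp fun q : ℝ => (q : ℂ))
  simp only [Function.comp_apply] at h2
  rw [integral_complex_ofReal, integral_complex_ofReal] at h2
  have h3 : ∀ x, ((A.W s y x * (‖GU A a x‖ ^ 2 * ‖A.mo (-1) s x‖ ^ 2) : ℝ) : ℂ) * (Q x : ℂ)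
      = ((A.W s y x * (‖GU A a x‖ ^ 2 * ‖A.mo (-1) s x‖ ^ 2 * Q x) : ℝ) : ℂ) := by
    intro x
    push_cast
    ring
  simp_rw [h3] at h2
  rw [integral_complex_ofReal] at h2
  have h4 : ∫ x, A.W s y x * (‖GU A a x‖ ^ 2 * ‖A.mo (-1) s x‖ ^ 2 * Q x) ∂mu
      = (∫ x, A.W s y x * (‖GU A a x‖ ^ 2 * ‖A.mo (-1) s x‖ ^ 2) ∂mu) * ∫ x, Q x ∂mu := by
    exact_mod_cast h2
  rw [h4]
  exact mul_le_mul_of_nonneg_right h1 (integral_nonneg hQ0)

/-! ### the coefficients -/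

/-- coefficients at distance `σ` -/
noncomputable def ac (σ u : ℝ) (p : ℕ) : ℂ := (p : ℂ) ^ (-(1 / 2 + (σ : ℂ) + I * u) : ℂ)

lemma norm_ac (σ u : ℝ) {p : ℕ} (hp : 0 < p) : ‖ac σ u p‖ = (p : ℝ) ^ (-(1 / 2 + σ)) := by
  unfold ac
  rw [Complex.norm_natCast_cpow_of_pos hp]
  have : (-(1 / 2 + (σ : ℂ) + I * u) : ℂ).re = -(1 / 2 + σ) := by simp
  rw [this]

lemma ac_le {σ : ℝ} (hσ : 0 ≤ σ) (u : ℝ) (p : ℕ) : ‖ac σ u p‖ ≤ 1 / Real.sqrt p := by
  rcases Nat.eq_zero_or_pos p with rfl | hp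
  · unfold ac
    rw [Nat.cast_zero, Complex.zero_cpow]
    · simp
    · intro h
      have := congrArg Complex.re h
      simp at this
      linarith
  · have e : 1 / Real.sqrt p = (p : ℝ) ^ (-(1 / 2) : ℝ) := by
      rw [Real.rpow_neg (by positivity), ← Real.sqrt_eq_rpow, one_div]
    rw [norm_ac σ u hp, e]
    have hp1 : (1 : ℝ) ≤ p := by exact_mod_cast hp
    exact Real.rpow_le_rpow_of_exponent_le hp1 (by linarith)

lemma h_le' {A : Par} (hA : A.Ok) (p : ℕ) : ‖(A.h p : ℂ)‖ ≤ 1 / Real.sqrt p := by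
  have := ac_le hA.hl 0 p
  rcases Nat.eq_zero_or_pos p with rfl | hp
  · have h0 : A.h 0 = 0 := by
      unfold Par.h
      rw [Nat.cast_zero, Real.zero_rpow]
      have := hA.hl
      intro h
      linarith
    rw [h0]
    simp
  · rw [norm_ac _ _ hp] at this
    rw [Complex.norm_real, Real.norm_of_nonneg (h_nonneg A p)]
    exact this

lemma F_eq' {A : Par} (hA : A.Ok) (σ u : ℝ) (x : Om) :
    A.F σ u x = (∏ p ∈ Sm A, fac (ac σ u p) (x p)) * GU A (ac σ u) x := by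
  have hp0 : A.p0 ≤ ⌊Real.exp A.Y⌋₊ := by
    by_contra hcon
    rw [not_le] at hcon
    have hU : A.U = ∅ := by
      rw [U_eq_Pall A hA, Finset.eq_empty_iff_forall_notMem]
      intro p hp
      obtain ⟨h1, h2, h3⟩ := MP_f9aece_nt_h6.mem_Pall.mp hp
      rw [Finset.mem_Icc] at h1
      omega
    have h1 := hA.hs
    unfold Par.s2 Par.vt at h1
    rw [hU] at h1
    simp at h1
    linarith
  have hset : (Finset.Icc 1 ⌊Real.exp A.Y⌋₊).filter Nat.Prime = Sm A ∪ A.U := by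
    ext p
    rw [Finset.mem_filter, Finset.mem_Icc, Finset.mem_union, mem_Sm, U_eq_Pall A hA,
      MP_f9aece_nt_h6.mem_Pall, Finset.mem_Icc]
    constructor
    · rintro ⟨⟨h1, h2⟩, h3⟩
      rcases le_or_gt p A.p0 with h | h
      · exact Or.inl ⟨⟨h1, h⟩, h3⟩
      · exact Or.inr ⟨⟨h1, h2⟩, h3, h⟩
    · rintro (⟨⟨h1, h2⟩, h3⟩ | ⟨⟨h1, h2⟩, h3, -⟩)
      · exact ⟨⟨h1, h2.trans hp0⟩, h3⟩
      · exact ⟨⟨h1, h2⟩, h3⟩
  unfold Par.F GU
  rw [hset, Finset.prod_union (disj_Sm hA).symm]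
  rfl

/-- comparison of the distances -/
lemma dist_le {A : Par} (hA : A.Ok) {σ : ℝ} (h0 : 0 ≤ σ) (h1 : σ ≤ A.lam) (u : ℝ) {p : ℕ} (hp : 1 ≤ p) :
    ‖ac σ u p - A.h p‖ ^ 2 ≤ ‖(p : ℂ) ^ (-(1 / 2 + I * u) : ℂ) - A.h p‖ ^ 2 := by
  have hp1 : (1 : ℝ) ≤ p := by exact_mod_cast hp
  have hp0 : (0 : ℝ) < p := by linarith
  have hpc : (p : ℂ) ≠ 0 := by exact_mod_cast hp0.ne'
  set r : ℝ := (p : ℝ) ^ (-σ) with hr
  set q : ℝ := (p : ℝ) ^ (-A.lam) with hq
  set m : ℝ := (p : ℝ) ^ (-(1 / 2) : ℝ) with hm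
  set z : ℂ := (p : ℂ) ^ (-(I * u) : ℂ) with hz
  have hr1 : r ≤ 1 := Real.rpow_le_one_of_one_le_of_nonpos hp1 (by linarith)
  have hqr : q ≤ r := Real.rpow_le_rpow_of_exponent_le hp1 (by linarith)
  have hq0 : 0 ≤ q := by positivity
  have hnz : ‖z‖ = 1 := by
    rw [hz, Complex.norm_natCast_cpow_of_pos (by omega)]
    simp
  have e1' : ac σ u p = (m : ℂ) * ((r : ℂ) * z) := by
    unfold ac
    rw [hm, hr, Complex.ofReal_cpow hp0.le, Complex.ofReal_cpow hp0.le, hz, Complex.ofReal_natCast,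
      ← Complex.cpow_add _ _ hpc, ← Complex.cpow_add _ _ hpc]
    congr 1
    push_cast
    ring
  have e2 : (p : ℂ) ^ (-(1 / 2 + I * u) : ℂ) = (m : ℂ) * z := by
    rw [hm, Complex.ofReal_cpow hp0.le, hz, Complex.ofReal_natCast, ← Complex.cpow_add _ _ hpc]
    congr 1
    push_cast
    ring
  have e3 : (A.h p : ℂ) = (m : ℂ) * (q : ℂ) := by
    unfold Par.h
    rw [hm, hq, ← Complex.ofReal_mul, ← Real.rpow_add hp0]
    congr 2
    ring
  rw [e1', e2, e3, ← mul_sub, ← mul_sub, norm_mul, norm_mul, mul_pow, mul_pow]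
  refine mul_le_mul_of_nonneg_left ?_ (by positivity)
  have hzz : z.re ^ 2 + z.im ^ 2 = 1 := by
    have := Complex.sq_norm z
    rw [hnz, Complex.normSq_apply] at this
    nlinarith
  have hre : z.re ≤ 1 := (Complex.re_le_norm z).trans hnz.le
  rw [← Complex.normSq_eq_norm_sq, ← Complex.normSq_eq_norm_sq, Complex.normSq_apply,
    Complex.normSq_apply]
  simp only [Complex.sub_re, Complex.sub_im, Complex.re_ofReal_mul, Complex.im_ofReal_mul,
    Complex.ofReal_re, Complex.ofReal_im, sub_zero]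
  have h5 : (1 - r) * (1 + r - 2 * q * z.re) ≥ 0 := by
    refine mul_nonneg (by linarith) ?_
    nlinarith
  have h6 : (z.re - q) * (z.re - q) + z.im * z.im
      - ((r * z.re - q) * (r * z.re - q) + r * z.im * (r * z.im))
      = (1 - r) * (1 + r - 2 * q * z.re) := by
    linear_combination (1 - r ^ 2) * hzz
  linarith

lemma S2_le {A : Par} (hA : A.Ok) {σ : ℝ} (h0 : 0 ≤ σ) (h1 : σ ≤ A.lam) (u : ℝ) :
    S2 A (ac σ u) ≤ ∑ p ∈ A.U, ‖(p : ℂ) ^ (-(1 / 2 + I * u) : ℂ) - A.h p‖ ^ 2 := by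
  unfold S2
  exact Finset.sum_le_sum fun p hp => dist_le hA h0 h1 u (U_prime hA hp).one_lt.le

lemma S1_le {A : Par} (hA : A.Ok) {σ : ℝ} (h0 : 0 ≤ σ) (u : ℝ) :
    (S1 A (ac σ u)).re ≤ ∑ p ∈ A.U, A.h p * ((p : ℝ) ^ (-(1 / 2) : ℝ) - A.h p) := by
  unfold S1
  rw [Complex.re_sum]
  refine Finset.sum_le_sum fun p hp => ?_
  have hpp := (U_prime hA hp).pos
  rw [Complex.re_ofReal_mul, Complex.sub_re, Complex.ofReal_re]
  refine mul_le_mul_of_nonneg_left ?_ (h_nonneg A p)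
  have h5 : (ac σ u p).re ≤ (p : ℝ) ^ (-(1 / 2) : ℝ) := by
    refine (Complex.re_le_norm _).trans ?_
    rw [norm_ac σ u hpp]
    have hp1 : (1 : ℝ) ≤ p := by exact_mod_cast hpp
    exact Real.rpow_le_rpow_of_exponent_le hp1 (by linarith)
  linarith

end Pool.Agent.Lib.LC.A1

namespace Pool.Agent.Lib.LC

open MeasureTheory Set Filter Topology Complex ProbabilityTheory
open scoped ComplexConjugate
open Pool.Agent.Lib.GT Pool.Agent.Lib.GT.D5 Pool.Agent.Lib.GT.D6 A1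

theorem fBoundX (h1 : GT.WBd) (h2 : GT.PrimeSums) : FBoundX := by
  obtain ⟨C1, hC1, H1⟩ := core1 h1
  obtain ⟨C2, hC2, H2⟩ := h2
  have hc8 : 0 < c8 := by unfold c8; positivity
  have key : ∀ A : Par, A.Ok → ∀ (σ u y : ℝ), 0 ≤ σ → σ ≤ A.lam → ∀ b : ℕ → ℂ,
      (∀ p : ℕ, ‖b p‖ ≤ 1 / Real.sqrt p) → ∀ s : Finset ℕ, s ⊆ Finset.range A.J →
      ∫ x, A.W s y x * (‖GU A (ac σ u) x‖ ^ 2 * ‖A.mo (-1) s x‖ ^ 2 * Qg A (ac σ u) b x) ∂mu
      ≤ (C1 * Real.exp (2 * C2) * c8) * Real.log A.p0 ^ 20 * Real.exp (-(2 * ∑ g ∈ s, (A.r g : ℝ)))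
        * (1 + A.lam * A.Y) ^ 17 * gr A.Y u * A.G y := by
    intro A hA σ u y hσ0 hσ1 b hb s hs
    obtain ⟨P1, -, P3, -, -⟩ := H2 A hA
    have hlY : 0 ≤ A.lam * A.Y := mul_nonneg hA.hl (by linarith [hA.hY])
    have hS2 := (S2_le hA hσ0 hσ1 u).trans (P1 u)
    have hS1 := (S1_le hA hσ0 u).trans P3
    have hbe : A.be * (S1 A (ac σ u)).re ≤ C2 := by
      have h6 : A.be ≤ 1 := by linarith [hA.hbb, hA.hb]
      have h7 : A.be * (S1 A (ac σ u)).re ≤ A.be * C2 := mul_le_mul_of_nonneg_left hS1 hA.hbe.le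
      nlinarith [hA.hbe]
    have h8 := H1 A hA (ac σ u) (ac_le hσ0 u) (Qg A (ac σ u) b) (measurable_Qg _ _ _)
      (dep_Qg _ _ _) (Qg_nonneg _ _ _)
      (2 * C2 + 17 / 4 * Real.log (1 + A.Y * |u|) + 17 * Real.log (1 + A.lam * A.Y)) (by linarith) y s hs
    refine h8.trans ?_
    have hQ := int_Qg hA (ac_le hσ0 u) hb
    rw [Real.exp_add, Real.exp_add, gr_eq A hA.hY, exp17 hlY]
    have h10 := G_nonneg A y
    have h11 : 0 ≤ gr A.Y u := by
      unfold gr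
      have := hA.hY
      positivity
    have h12 := hA.hY
    refine (mul_le_mul_of_nonneg_left hQ (by positivity)).trans (le_of_eq ?_)
    ring
  refine ⟨1 + C1 * Real.exp (2 * C2) * c8, by
    have : 0 ≤ C1 * Real.exp (2 * C2) * c8 := by positivity
    linarith, fun A hA y u => ⟨fun s hs => ?_, fun σ hσ0 hσ1 => ?_⟩⟩
  · have h9 : ∀ x, A.W s y x * (‖A.F 0 u x‖ ^ 2 * ‖A.mo (-1) s x‖ ^ 2) =
        A.W s y x * (‖GU A (ac 0 u) x‖ ^ 2 * ‖A.mo (-1) s x‖ ^ 2 * Qg A (ac 0 u) (fun _ => 0) x) := by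
      intro x
      rw [F_eq' hA, norm_mul, norm_prod, mul_pow, ← Finset.prod_pow]
      have : Qg A (ac 0 u) (fun _ => 0) x = ∏ p ∈ Sm A, ‖fac (ac 0 u p) (x p)‖ ^ 2 := by
        unfold Qg
        refine Finset.prod_congr rfl fun p _ => ?_
        rw [zero_mul, sub_zero, one_mul]
      rw [this]
      ring
    simp_rw [h9]
    refine (key A hA 0 u y le_rfl hA.hl (fun _ => 0) (fun p => by simp) s hs).trans ?_
    have h10 := G_nonneg A y
    have h11 : 0 ≤ gr A.Y u := by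
      unfold gr
      have := hA.hY
      positivity
    have h12 := hA.hY
    have h13 := hA.hl
    have hlog : 0 ≤ Real.log A.p0 := Real.log_natCast_nonneg _
    gcongr
    linarith
  · have h9 : ∀ x, A.W ∅ y x * (‖A.F σ u x‖ ^ 2 * ‖A.mo (-1) ∅ x * A.Msm x‖ ^ 2) =
        A.W ∅ y x * (‖GU A (ac σ u) x‖ ^ 2 * ‖A.mo (-1) ∅ x‖ ^ 2
          * Qg A (ac σ u) (fun p => (A.h p : ℂ)) x) := by
      intro x
      have hM : A.Msm x = ∏ p ∈ Sm A, (1 - (A.h p : ℂ) * e1 (x p)) := rfl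
      have hQ : Qg A (ac σ u) (fun p => (A.h p : ℂ)) x
          = ‖∏ p ∈ Sm A, fac (ac σ u p) (x p)‖ ^ 2 * ‖A.Msm x‖ ^ 2 := by
        unfold Qg
        rw [hM, norm_prod, norm_prod, ← Finset.prod_pow, ← Finset.prod_pow,
          ← Finset.prod_mul_distrib]
        refine Finset.prod_congr rfl fun p _ => ?_
        rw [norm_mul]
        ring
      rw [F_eq' hA, norm_mul, norm_mul, hQ]
      ring
    simp_rw [h9]
    refine (key A hA σ u y hσ0 hσ1 _ (h_le' hA) ∅ (Finset.empty_subset _)).trans ?_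
    rw [Finset.sum_empty, mul_zero, neg_zero, Real.exp_zero, mul_one]
    have h10 := G_nonneg A y
    have h11 : 0 ≤ gr A.Y u := by
      unfold gr
      have := hA.hY
      positivity
    have h12 := hA.hY
    have h13 := hA.hl
    have hlog : 0 ≤ Real.log A.p0 := Real.log_natCast_nonneg _
    gcongr
    linarith

end Pool.Agent.Lib.LC
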