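import Mathlib
import Pool.Agent.Lib.MP_f9aece_nt_loc.Stmts
import Pool.Agent.Lib.MP_f9aece_nt_gt.E4

/-!
The law of `log |zeta|` at bounded scale: A2, the weights and zeta on the line.
-/

set_option autoImplicit false

namespace Pool.Agent.Lib.LC

open MeasureTheory Set Filter Topology Complex ProbabilityTheory
open scoped ComplexConjugate
open Pool.Agent.Lib.GT
open Pool.Agent.Lib.GT.LM

namespace A2

lemma one_le_P {A : Par} (hA : A.Ok) : 1 ≤ Real.log A.p0 ^ 20 := by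
  refine one_le_pow₀ ?_
  have h1 : (1000 : ℝ) ≤ A.p0 := by exact_mod_cast hA.hp
  rw [Real.le_log_iff_exp_le (by linarith)]
  have h2 := Real.exp_one_lt_d9
  linarith

/-- the bound on the torus -/
lemma torus_leX (h3 : SuBound) (h4 : RoughS) (h5 : FBoundX) (hN : GroupNum) :
    ∃ C : ℝ, 1 ≤ C ∧ ∀ A : Par, A.Ok → ∀ Λ a : ℝ, 200 ≤ Λ → 3 / 10 * Λ ≤ a →
    a ≤ 9 / 10 * Λ → A.Y ≤ 3 / 10 * Λ → ∀ y w : ℝ, ∀ s : Finset ℕ, s ⊆ Finset.range A.J →
    ∫ x, A.W s y x * (‖A.mo (-1) s x‖ ^ 2 * ‖SU Λ a 0 w x‖ ^ 2) ∂mu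
      ≤ (C * Real.log A.p0 ^ 20) * (Λ / A.Y) * (1 + A.lam * A.Y) ^ 17 * gr Λ w
        * Real.exp (-(2 * ∑ g ∈ s, (A.r g : ℝ))) * A.G y := by
  obtain ⟨C1, hC1, h3⟩ := h3
  obtain ⟨C2, hC2, h4⟩ := h4
  obtain ⟨C3, hC3, h5⟩ := h5
  refine ⟨C1 * (1 + C2) * (c3 * C3) + 1, ?_, ?_⟩
  · have := c3_nonneg
    have : 0 ≤ C1 * (1 + C2) * (c3 * C3) := by positivity
    linarith
  intro A hA Λ a hΛ ha1 ha2 hYΛ y w s hs
  have hP := one_le_P hA
  set P : ℝ := Real.log A.p0 ^ 20 with hPd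
  have hP0 : 0 < P := by linarith
  have hΛ0 : 0 < Λ := by linarith
  have hY1 := hA.hY
  have hY0 : 0 < A.Y := by linarith
  obtain ⟨B', hB'⟩ := A.W_le hA s y
  obtain ⟨Bm, hBm⟩ := mo_bd A (-1) s
  have hW0 : ∀ x, 0 ≤ A.W s y x := A.W_nonneg hA.b_pos.le s y
  have hG := hA.G_pos y
  have hl := hA.hl
  have hB0 : 0 ≤ Bm := (norm_nonneg _).trans (hBm (fun _ => 0))
  have key := h3 A hA Λ a 0 w hΛ ha1 ha2 le_rfl zero_le_one (A.W s y) (A.mo (-1) s) (fun _ => 0)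
    (max B' Bm) (A.continuous_W' hA s y).measurable (A.continuous_mo (-1) s).measurable
    measurable_const (fun x => ⟨hW0 x, (hB' x).trans (le_max_left _ _),
      (hBm x).trans (le_max_right _ _), by
        rw [norm_zero]
        exact hB0.trans (le_max_right _ _)⟩)
    (dep_W hN hA hs y) (dep_mo hN hA (-1) s) (fun _ _ _ => rfl)
  set M : ℝ := C3 * P * Real.exp (-(2 * ∑ g ∈ s, (A.r g : ℝ))) * (1 + A.lam * A.Y) ^ 17 * A.G y with hM
  have hM0 : 0 ≤ M := by positivity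
  have hF : ∀ u : ℝ, ∫ x, A.W s y x * (‖A.F 0 u x‖ ^ 2 * ‖A.mo (-1) s x‖ ^ 2) ∂mu
      ≤ M * gr A.Y u := by
    intro u
    refine ((h5 A hA y u).1 s hs).trans (le_of_eq ?_)
    rw [hM]
    ring
  have e1 : ∀ u x, A.W s y x * ‖A.F 0 (w + u) x * A.mo (-1) s x - 0‖ ^ 2
      = A.W s y x * (‖A.F 0 (w + u) x‖ ^ 2 * ‖A.mo (-1) s x‖ ^ 2) := by
    intro u x
    rw [sub_zero, norm_mul, mul_pow]
  have e2 : ∀ x, A.W s y x * ‖SU Λ a 0 w x * A.mo (-1) s x - 0‖ ^ 2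
      = A.W s y x * (‖A.mo (-1) s x‖ ^ 2 * ‖SU Λ a 0 w x‖ ^ 2) := by
    intro x
    rw [sub_zero, norm_mul, mul_pow]
    ring
  simp only [e1, e2] at key
  have hk := kernel_le (Y := A.Y) (Λ := Λ) (w := w) (M := M)
    (φ := fun u => ∫ x, A.W s y x * (‖A.F 0 (w + u) x‖ ^ 2 * ‖A.mo (-1) s x‖ ^ 2) ∂mu) hΛ0 hY0.le
    (by linarith) hM0 (fun u => integral_nonneg fun x => mul_nonneg (hW0 x) (by positivity))
    (fun u => hF (w + u))
  have hr := (h4 A.Y a 0 hY1 (by linarith) le_rfl).1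
  have e3 : ∑ n ∈ RoS A.Y a, (n : ℝ) ^ (-(1 + 2 * (0 : ℝ))) = ∑ n ∈ RoS A.Y a, (n : ℝ) ^ (-(1 : ℝ)) := by
    refine Finset.sum_congr rfl fun n _ => ?_
    norm_num
  rw [e3] at key
  set I : ℝ := ∫ u, kf Λ u * ∫ x, A.W s y x * (‖A.F 0 (w + u) x‖ ^ 2 * ‖A.mo (-1) s x‖ ^ 2) ∂mu with hI
  have hI0 : 0 ≤ I := integral_nonneg fun u => mul_nonneg (kf_nonneg hΛ0 u)
    (integral_nonneg fun x => mul_nonneg (hW0 x) (by positivity))
  have hq : a / A.Y ≤ Λ / A.Y := by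
    gcongr
    linarith
  have hq1 : 1 ≤ Λ / A.Y := by
    rw [one_le_div hY0]
    linarith
  have hg := gr_nonneg hΛ0.le w
  have hc3 := c3_nonneg
  calc ∫ x, A.W s y x * (‖A.mo (-1) s x‖ ^ 2 * ‖SU Λ a 0 w x‖ ^ 2) ∂mu
      ≤ C1 * I + C1 * (∑ n ∈ RoS A.Y a, (n : ℝ) ^ (-(1 : ℝ))) * I := key
    _ ≤ C1 * I + C1 * (C2 * (Λ / A.Y)) * I := by
        gcongr
        exact hr.trans (by gcongr)
    _ ≤ C1 * (Λ / A.Y) * I + C1 * (C2 * (Λ / A.Y)) * I := by
        have : C1 * I ≤ C1 * I * (Λ / A.Y) := le_mul_of_one_le_right (by positivity) hq1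
        linarith
    _ = C1 * (1 + C2) * (Λ / A.Y) * I := by ring
    _ ≤ C1 * (1 + C2) * (Λ / A.Y) * (c3 * (M * gr Λ w)) := by gcongr
    _ = (C1 * (1 + C2) * (c3 * C3)) * (P * (Λ / A.Y) * (1 + A.lam * A.Y) ^ 17 * gr Λ w
        * Real.exp (-(2 * ∑ g ∈ s, (A.r g : ℝ))) * A.G y) := by
        rw [hM]
        ring
    _ ≤ (C1 * (1 + C2) * (c3 * C3) + 1) * (P * (Λ / A.Y) * (1 + A.lam * A.Y) ^ 17 * gr Λ w
        * Real.exp (-(2 * ∑ g ∈ s, (A.r g : ℝ))) * A.G y) := by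
        refine mul_le_mul_of_nonneg_right (by linarith) ?_
        positivity
    _ = _ := by ring

end A2

open A2

/-- A2 -/
theorem lineMeanX (h1 : SmoothAfe) (h3 : SuBound) (h4 : RoughS) (h5 : FBoundX) (hT : WTransfer)
    (hB : WBd) (hN : GroupNum) : LineMeanX := by
  obtain ⟨C0, hC0, h1⟩ := h1
  obtain ⟨C4, hC4, hmo⟩ := mo_mean hT hB hN
  obtain ⟨C2, hC2, hT⟩ := hT
  obtain ⟨C1, hC1, htor⟩ := torus_leX h3 h4 h5 hN
  refine ⟨C0 * (3 * (C1 + C2)) + C0 * C4 + 1, 3, by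
    have : 0 ≤ C0 * (3 * (C1 + C2)) := by positivity
    have : 0 ≤ C0 * C4 := by positivity
    linarith, le_rfl, fun A hA T hT0 hL x hx y w hw s hs => ?_⟩
  have hP := one_le_P hA
  set P : ℝ := Real.log A.p0 ^ 20 with hPd
  have hP0 : 0 < P := by linarith
  have hTp : 0 < T := by linarith
  obtain ⟨hK1, hK2⟩ := log_ge hA hL
  have hK := EE.K_ge hA
  have hprob := prob_un x hTp
  have hv : (4 : ℝ) ≤ A.v := by exact_mod_cast hA.hv
  have hY1 := hA.hY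
  have hY0 : 0 < A.Y := by linarith
  have hG := hA.G_pos y
  have hl := hA.hl
  set Λ : ℝ := Real.log T with hΛ
  have hΛ200 : 200 ≤ Λ := by linarith
  have hΛ0 : 0 < Λ := by linarith
  have hYΛ : A.Y ≤ 3 / 10 * Λ := by nlinarith
  set R : ℝ := ∑ g ∈ s, (A.r g : ℝ) with hR
  have hR0 : 0 ≤ R := Finset.sum_nonneg fun _ _ => by positivity
  have hW0 : ∀ z, 0 ≤ A.W s y z := A.W_nonneg hA.b_pos.le s y
  have hg1 := one_le_gr hΛ0.le w
  have hq1 : 1 ≤ Λ / A.Y := by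
    rw [one_le_div hY0]
    linarith
  have hp1 : 1 ≤ (1 + A.lam * A.Y) ^ 17 := one_le_pow₀ (by
    have : 0 ≤ A.lam * A.Y := by positivity
    linarith)
  set Q : ℝ := P * (Λ / A.Y) * (1 + A.lam * A.Y) ^ 17 * gr Λ w * Real.exp (-R) * A.G y with hQ
  have hQ0 : Real.exp (-R) * A.G y ≤ Q := by
    have h6 : 1 ≤ P * (Λ / A.Y) * (1 + A.lam * A.Y) ^ 17 * gr Λ w :=
      one_le_mul_of_one_le_of_one_le (one_le_mul_of_one_le_of_one_le
        (one_le_mul_of_one_le_of_one_le hP hq1) hp1) hg1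
    have h7 : 0 ≤ Real.exp (-R) * A.G y := by positivity
    calc Real.exp (-R) * A.G y = 1 * (Real.exp (-R) * A.G y) := (one_mul _).symm
      _ ≤ (P * (Λ / A.Y) * (1 + A.lam * A.Y) ^ 17 * gr Λ w) * (Real.exp (-R) * A.G y) := by gcongr
      _ = Q := by rw [hQ]; ring
  have hQp : 0 ≤ Q := le_trans (by positivity) hQ0
  -- the sums over a fixed range
  set N : ℕ := ⌈Real.exp (13 / 20 * Λ)⌉₊ with hNd
  set E : ℝ → ℝ → ℝ := fun a t => A.W s y (om t) * (‖A.mo (-1) s (om t)‖ ^ 2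
    * ‖SN N Λ 0 w a (om t)‖ ^ 2) with hE
  have hE0 : ∀ a t, 0 ≤ E a t := fun a t => mul_nonneg (hW0 _) (by positivity)
  have hsn : ∀ a ≤ 13 / 20 * Λ, ∀ z : Om, SN N Λ 0 w a z = SU Λ a 0 w z := fun a ha z =>
    (su_eq hΛ0 ((Real.exp_le_exp.mpr ha).trans (Nat.le_ceil _)) 0 w z).symm
  have hcE : Continuous fun q : ℝ × ℝ => E q.1 q.2 := continuous_E hA s y w N Λ
  -- the mean for every length
  have hmean : ∀ a ∈ Icc (3 / 10 * Λ) (13 / 20 * Λ), ∫⁻ t, ENNReal.ofReal (E a t) ∂(un x T)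
      ≤ ENNReal.ofReal (3 * (C1 + C2) * Q) := by
    intro a ha
    have ha1 := ha.1
    have ha2 := ha.2
    have tp := tp_su Λ a (le_refl (0 : ℝ)) w
    have hN0 : 0 < Real.exp a := Real.exp_pos a
    have g1 := (hT A hA s hs (-1) (-1) (by simp) (by simp) (Real.exp a) (Real.exp (2 * a)) _
      (Real.one_le_exp (by linarith)) tp x T y hTp).2
    have g2 := ga_mean hN hA hC2 hTp hL hN0 (Real.exp_le_exp.mpr (by linarith))
      (Real.exp_le_exp.mpr (by linarith)) (fun _ => by positivity) tp hs g1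
    have g3 := htor A hA Λ a hΛ200 ha1 (by linarith) hYΛ y w s hs
    rw [← hPd] at g3
    have e1 : ∀ t, E a t = A.W s y (om t) * (‖A.mo (-1) s (om t)‖ ^ 2 * ‖SU Λ a 0 w (om t)‖ ^ 2) := by
      intro t
      rw [hE]
      simp only
      rw [hsn a ha2]
    simp only [e1]
    refine g2.trans (ENNReal.ofReal_le_ofReal ?_)
    rw [mul_assoc]
    refine mul_le_mul_of_nonneg_left ?_ (by norm_num)
    rw [add_mul]
    refine add_le_add (g3.trans ?_) (mul_le_mul_of_nonneg_left hQ0 hC2)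
    have h8 : Real.exp (-(2 * R)) ≤ Real.exp (-R) := Real.exp_le_exp.mpr (by linarith)
    rw [hQ]
    calc C1 * P * (Λ / A.Y) * (1 + A.lam * A.Y) ^ 17 * gr Λ w * Real.exp (-(2 * R)) * A.G y
        ≤ C1 * P * (Λ / A.Y) * (1 + A.lam * A.Y) ^ 17 * gr Λ w * Real.exp (-R) * A.G y := by
          have : 0 ≤ C1 * P * (Λ / A.Y) * (1 + A.lam * A.Y) ^ 17 * gr Λ w := by positivity
          gcongr
      _ = _ := by ring
  -- pointwise
  have hpt : ∀ t ∈ Icc (T ^ (19 / 20 : ℝ)) (x + T),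
      ENNReal.ofReal (A.W s y (om t) * (‖A.mo (-1) s (om t)‖ ^ 2
        * ‖riemannZeta (1 / 2 + I * (t + w : ℝ))‖ ^ 2))
      ≤ ENNReal.ofReal (C0 / Λ) * (∫⁻ a in Ioc (3 / 10 * Λ) (13 / 20 * Λ), ENNReal.ofReal (E a t))
        + ENNReal.ofReal (C0 * Real.exp (-(3 / 10 * Λ)))
          * ENNReal.ofReal (A.W s y (om t) * ‖A.mo (-1) s (om t)‖ ^ 2) := by
    intro t ht
    obtain ⟨k1, k2⟩ := height hTp hΛ200 hx hw ht
    have k3 := h1 Λ hΛ200 (t + w) k1 k2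
    have e1 : (∫ a in (3 / 10 * Λ)..(13 / 20 * Λ), ‖SU Λ a 0 0 (om (t + w))‖ ^ 2)
        = ∫ a in (3 / 10 * Λ)..(13 / 20 * Λ), ‖SN N Λ 0 w a (om t)‖ ^ 2 := by
      refine intervalIntegral.integral_congr fun a ha => ?_
      rw [uIcc_of_le (by linarith)] at ha
      rw [su_shift, hsn a ha.2]
    rw [e1] at k3
    set D : ℝ := A.W s y (om t) * ‖A.mo (-1) s (om t)‖ ^ 2 with hD
    have hD0 : 0 ≤ D := mul_nonneg (hW0 _) (by positivity)
    have k4 : A.W s y (om t) * (‖A.mo (-1) s (om t)‖ ^ 2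
        * ‖riemannZeta (1 / 2 + I * (t + w : ℝ))‖ ^ 2)
        ≤ C0 / Λ * (∫ a in (3 / 10 * Λ)..(13 / 20 * Λ), E a t)
          + C0 * Real.exp (-(3 / 10 * Λ)) * D := by
      have e2 : (∫ a in (3 / 10 * Λ)..(13 / 20 * Λ), E a t)
          = D * ∫ a in (3 / 10 * Λ)..(13 / 20 * Λ), ‖SN N Λ 0 w a (om t)‖ ^ 2 := by
        rw [← intervalIntegral.integral_const_mul]
        refine intervalIntegral.integral_congr fun a _ => ?_
        simp only [hE, hD]
        ring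
      rw [e2]
      calc _ = D * ‖riemannZeta (1 / 2 + I * (t + w : ℝ))‖ ^ 2 := by rw [hD]; ring
        _ ≤ D * (C0 / Λ * (∫ a in (3 / 10 * Λ)..(13 / 20 * Λ), ‖SN N Λ 0 w a (om t)‖ ^ 2)
            + C0 * Real.exp (-(3 / 10 * Λ))) := mul_le_mul_of_nonneg_left k3 hD0
        _ = _ := by ring
    have hint : IntegrableOn (fun a => E a t) (Ioc (3 / 10 * Λ) (13 / 20 * Λ)) := by
      have hc : Continuous fun a => E a t := hcE.comp (f := fun a : ℝ => ((a, t) : ℝ × ℝ))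
        (by fun_prop)
      exact (hc.integrableOn_Icc).mono_set Ioc_subset_Icc_self
    refine (ENNReal.ofReal_le_ofReal k4).trans ?_
    have hi0 : 0 ≤ ∫ a in (3 / 10 * Λ)..(13 / 20 * Λ), E a t :=
      intervalIntegral.integral_nonneg (by linarith) fun a _ => hE0 a t
    rw [ENNReal.ofReal_add (by positivity) (by positivity), ENNReal.ofReal_mul (by positivity),
      ENNReal.ofReal_mul (by positivity) (p := C0 * Real.exp (-(3 / 10 * Λ)))]
    refine add_le_add ?_ le_rfl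
    rw [intervalIntegral.integral_of_le (by linarith),
      ofReal_integral_eq_lintegral_ofReal hint (Eventually.of_forall fun a => hE0 a t)]
  have hmeas : Measurable fun q : ℝ × ℝ => ENNReal.ofReal (E q.2 q.1) :=
    ENNReal.measurable_ofReal.comp (hcE.comp (f := fun q : ℝ × ℝ => (q.2, q.1)) (by fun_prop)).measurable
  have hmI : Measurable fun t : ℝ =>
      ∫⁻ a in Ioc (3 / 10 * Λ) (13 / 20 * Λ), ENNReal.ofReal (E a t) :=
    hmeas.lintegral_prod_right'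
  calc ∫⁻ t in Icc (T ^ (19 / 20 : ℝ)) (x + T), ENNReal.ofReal (A.W s y (om t)
        * (‖A.mo (-1) s (om t)‖ ^ 2 * ‖riemannZeta (1 / 2 + I * (t + w : ℝ))‖ ^ 2)) ∂(un x T)
      ≤ ∫⁻ t in Icc (T ^ (19 / 20 : ℝ)) (x + T), (ENNReal.ofReal (C0 / Λ)
          * (∫⁻ a in Ioc (3 / 10 * Λ) (13 / 20 * Λ), ENNReal.ofReal (E a t))
        + ENNReal.ofReal (C0 * Real.exp (-(3 / 10 * Λ)))
          * ENNReal.ofReal (A.W s y (om t) * ‖A.mo (-1) s (om t)‖ ^ 2)) ∂(un x T) :=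
        setLIntegral_mono' measurableSet_Icc hpt
    _ ≤ ∫⁻ t, (ENNReal.ofReal (C0 / Λ)
          * (∫⁻ a in Ioc (3 / 10 * Λ) (13 / 20 * Λ), ENNReal.ofReal (E a t))
        + ENNReal.ofReal (C0 * Real.exp (-(3 / 10 * Λ)))
          * ENNReal.ofReal (A.W s y (om t) * ‖A.mo (-1) s (om t)‖ ^ 2)) ∂(un x T) :=
        setLIntegral_le_lintegral _ _
    _ = ENNReal.ofReal (C0 / Λ) * (∫⁻ t, (∫⁻ a in Ioc (3 / 10 * Λ) (13 / 20 * Λ),
          ENNReal.ofReal (E a t)) ∂(un x T))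
        + ENNReal.ofReal (C0 * Real.exp (-(3 / 10 * Λ)))
          * ∫⁻ t, ENNReal.ofReal (A.W s y (om t) * ‖A.mo (-1) s (om t)‖ ^ 2) ∂(un x T) := by
        rw [lintegral_add_left (hmI.const_mul _), lintegral_const_mul _ hmI,
          lintegral_const_mul' _ _ ENNReal.ofReal_ne_top]
    _ ≤ ENNReal.ofReal (C0 / Λ) * (ENNReal.ofReal (3 * (C1 + C2) * Q) * ENNReal.ofReal (7 / 20 * Λ))
        + ENNReal.ofReal (C0 * Real.exp (-(3 / 10 * Λ)))
          * ENNReal.ofReal (C4 * Real.exp (4 * (A.v * A.Y)) * Real.exp (-R) * A.G y) := by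
        refine add_le_add (mul_le_mul_right ?_ _) (mul_le_mul_right (hmo A hA T hT0 hL x y s hs) _)
        rw [lintegral_lintegral_swap hmeas.aemeasurable]
        calc ∫⁻ a in Ioc (3 / 10 * Λ) (13 / 20 * Λ), (∫⁻ t, ENNReal.ofReal (E a t) ∂(un x T))
            ≤ ∫⁻ a in Ioc (3 / 10 * Λ) (13 / 20 * Λ), ENNReal.ofReal (3 * (C1 + C2) * Q) :=
              setLIntegral_mono' measurableSet_Ioc fun a ha => hmean a (Ioc_subset_Icc_self ha)
          _ = _ := by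
              rw [setLIntegral_const, Real.volume_Ioc]
              congr 2
              ring
    _ ≤ ENNReal.ofReal (C0 * (3 * (C1 + C2)) * Q + C0 * C4 * Q) := by
        have hC12 : 0 ≤ 3 * (C1 + C2) * Q := by positivity
        rw [← ENNReal.ofReal_mul hC12, ← ENNReal.ofReal_mul (by positivity),
          ← ENNReal.ofReal_mul (by positivity), ← ENNReal.ofReal_add (by positivity) (by positivity)]
        refine ENNReal.ofReal_le_ofReal (add_le_add ?_ ?_)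
        · have e1 : C0 / Λ * (3 * (C1 + C2) * Q * (7 / 20 * Λ)) = 7 / 20 * (C0 * (3 * (C1 + C2)) * Q) := by
            field_simp
          rw [e1]
          have : 0 ≤ C0 * (3 * (C1 + C2)) * Q := by positivity
          linarith
        · have e2 : C0 * Real.exp (-(3 / 10 * Λ)) * (C4 * Real.exp (4 * (A.v * A.Y)) * Real.exp (-R)
              * A.G y) = C0 * C4 * (Real.exp (-(3 / 10 * Λ) + 4 * (A.v * A.Y))
                * (Real.exp (-R) * A.G y)) := by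
            rw [Real.exp_add]
            ring
          rw [e2]
          have h9 : Real.exp (-(3 / 10 * Λ) + 4 * (A.v * A.Y)) ≤ 1 :=
            Real.exp_le_one_iff.mpr (by linarith)
          have h10 : Real.exp (-(3 / 10 * Λ) + 4 * (A.v * A.Y)) * (Real.exp (-R) * A.G y) ≤ Q :=
            (mul_le_of_le_one_left (by positivity) h9).trans hQ0
          gcongr
    _ ≤ _ := by
        refine ENNReal.ofReal_le_ofReal ?_
        have e3 : (C0 * (3 * (C1 + C2)) + C0 * C4 + 1) * P * (Λ / A.Y) * (1 + A.lam * A.Y) ^ 17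
            * gr Λ w * Real.exp (-R) * A.G y = (C0 * (3 * (C1 + C2)) + C0 * C4 + 1) * Q := by
          rw [hQ]
          ring
        rw [e3]
        nlinarith


end Pool.Agent.Lib.LC
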