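import Mathlib
import Pool.Agent.Lib.MP_f9aece_nt_g2.K2
import Pool.Agent.Lib.MP_f9aece_nt_loc.Stmts

/-!
The law of `log |zeta|` at bounded scale, module A3: the complement of the cut-off, with an
exponential factor, as a transform.
-/

set_option autoImplicit false

namespace Pool.Agent.Lib.LC

open MeasureTheory Complex Set Filter Topology
open scoped FourierTransform ContDiff
open Pool.Agent.H20.Smooth
open Pool.Agent.Lib.G2

namespace A3

/-- the complement of the cut-off -/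
noncomputable def R0 (w a : ℝ) (x : ℝ) : ℂ := 1 - sg ((a - x) / w)

/-- the complement of the cut-off with the exponential factor -/
noncomputable def R (σ w a : ℝ) (x : ℝ) : ℂ := cexp (-(σ / 2 : ℂ) * x) * R0 w a x

variable {σ w a : ℝ}

lemma R0_contDiff : ContDiff ℝ ∞ (R0 w a) := by
  have h1 : ContDiff ℝ ∞ (fun x : ℝ => sg ((a - x) / w)) := sg_contDiff.comp (by fun_prop)
  exact contDiff_const.sub h1

lemma R_contDiff : ContDiff ℝ ∞ (R σ w a) := (K2.exp_contDiff _).mul R0_contDiff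

lemma R0_left (hw : 0 < w) {x : ℝ} (hx : x ≤ a - w) : R0 w a x = 0 := by
  unfold R0
  rw [sg_one, sub_self]
  rw [le_div_iff₀ hw]; linarith

lemma iter_R0 (hw : 0 < w) {B : ℝ} {n : ℕ} (hB1 : 1 ≤ B)
    (hB : ∀ j ≤ n, ∀ x, ‖iteratedDeriv j sg x‖ ≤ B) {j : ℕ}
    (hj : j ≤ n) (x : ℝ) : ‖iteratedDeriv j (R0 w a) x‖ ≤ 2 * B * (w⁻¹) ^ j := by
  have h2 : ContDiff ℝ ∞ (fun x : ℝ => sg ((a - x) / w)) := sg_contDiff.comp (by fun_prop)
  have h2' : ContDiff ℝ (j : ℕ∞) (fun x : ℝ => sg ((a - x) / w)) := h2.of_le (by exact_mod_cast le_top)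
  have e : R0 w a = (fun _ : ℝ => (1 : ℂ)) - fun x : ℝ => sg ((a - x) / w) := rfl
  rw [e, iteratedDeriv_sub contDiff_const.contDiffAt h2'.contDiffAt, iter_down]
  have hn : ‖(-1 : ℝ) ^ j‖ = 1 := by rw [norm_pow, norm_neg, norm_one, one_pow]
  have ha : ‖(w⁻¹) ^ j‖ = (w⁻¹) ^ j := Real.norm_of_nonneg (by positivity)
  have h1 : ‖iteratedDeriv j (fun _ : ℝ => (1 : ℂ)) x‖ ≤ B * (w⁻¹) ^ j := by
    rw [iteratedDeriv_const]
    split_ifs with h
    · rw [h, pow_zero, mul_one, norm_one]; exact hB1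
    · rw [norm_zero]; positivity
  refine (norm_sub_le _ _).trans ?_
  rw [norm_smul, norm_smul, hn, ha, one_mul]
  have h4 := hB j hj ((a - x) / w)
  have hw' : 0 ≤ (w⁻¹) ^ j := by positivity
  nlinarith

lemma iter_R_zero (hw : 0 < w) (m : ℕ) {x : ℝ} (hx : x < a - w) :
    iteratedDeriv m (R σ w a) x = 0 := by
  have h : R σ w a =ᶠ[𝓝 x] fun _ => 0 := by
    filter_upwards [Iio_mem_nhds hx] with y hy
    unfold R
    rw [R0_left hw (le_of_lt hy), mul_zero]
  rw [h.iteratedDeriv_eq m]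
  rw [iteratedDeriv_const]
  split_ifs <;> rfl

lemma norm_exp (x : ℝ) : ‖cexp (-(σ / 2 : ℂ) * x)‖ = Real.exp (-(σ / 2) * x) := by
  have : (-(σ / 2 : ℂ) * x) = ((-(σ / 2) * x : ℝ) : ℂ) := by push_cast; ring
  rw [this, ← Complex.ofReal_exp, Complex.norm_real, Real.norm_of_nonneg (Real.exp_pos _).le]

lemma iter_R_le (hσ : 0 < σ) (hw : 1 ≤ σ * w) (hw0 : 0 < w) {B : ℝ} {n : ℕ} (hB1 : 1 ≤ B)
    (hB : ∀ j ≤ n, ∀ x, ‖iteratedDeriv j sg x‖ ≤ B) {m : ℕ} (hm : m ≤ n) (x : ℝ) :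
    ‖iteratedDeriv m (R σ w a) x‖ ≤ 2 ^ (m + 1) * B * σ ^ m * Real.exp (-(σ / 2) * x) := by
  have h := norm_iteratedFDeriv_mul_le (𝕜 := ℝ) (N := ∞) (K2.exp_contDiff (-(σ / 2 : ℂ)))
    (R0_contDiff (w := w) (a := a)) x (n := m) (by exact_mod_cast le_top)
  rw [norm_iteratedFDeriv_eq_norm_iteratedDeriv] at h
  refine h.trans ?_
  have hYw : w⁻¹ ≤ σ := by
    rw [inv_le_comm₀ hw0 hσ, inv_le_iff_one_le_mul₀ hσ]
    linarith [mul_comm σ w]
  have h1 : ∀ i ∈ Finset.range (m + 1), (m.choose i : ℝ)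
      * ‖iteratedFDeriv ℝ i (fun x : ℝ => cexp (-(σ / 2 : ℂ) * x)) x‖
      * ‖iteratedFDeriv ℝ (m - i) (R0 w a) x‖
      ≤ (m.choose i : ℝ) * (2 * B * σ ^ m * Real.exp (-(σ / 2) * x)) := by
    intro i hi
    have hi' : i ≤ m := by have := Finset.mem_range.mp hi; omega
    rw [norm_iteratedFDeriv_eq_norm_iteratedDeriv, norm_iteratedFDeriv_eq_norm_iteratedDeriv,
      K2.iter_exp, mul_assoc]
    refine mul_le_mul_of_nonneg_left ?_ (Nat.cast_nonneg _)
    rw [norm_mul, norm_pow, norm_exp]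
    have e1 : ‖(-(σ / 2 : ℂ))‖ = σ / 2 := by
      rw [norm_neg]
      have : (σ / 2 : ℂ) = ((σ / 2 : ℝ) : ℂ) := by push_cast; ring
      rw [this, Complex.norm_real, Real.norm_of_nonneg (by positivity)]
    rw [e1]
    have h2 := iter_R0 (a := a) hw0 hB1 hB (j := m - i) (by omega) x
    have h3 : (w⁻¹) ^ (m - i) ≤ σ ^ (m - i) := pow_le_pow_left₀ (by positivity) hYw _
    have h4 : σ ^ i * σ ^ (m - i) = σ ^ m := by rw [← pow_add]; congr 1; omega
    have h5 : (σ / 2) ^ i ≤ σ ^ i := pow_le_pow_left₀ (by positivity) (by linarith) _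
    calc (σ / 2) ^ i * Real.exp (-(σ / 2) * x) * ‖iteratedDeriv (m - i) (R0 w a) x‖
        ≤ σ ^ i * Real.exp (-(σ / 2) * x) * (2 * B * σ ^ (m - i)) := by
          refine mul_le_mul (mul_le_mul_of_nonneg_right h5 (Real.exp_pos _).le) (h2.trans ?_)
            (norm_nonneg _) (by positivity)
          exact mul_le_mul_of_nonneg_left h3 (by linarith)
      _ = 2 * B * (σ ^ i * σ ^ (m - i)) * Real.exp (-(σ / 2) * x) := by ring
      _ = _ := by rw [h4]
  refine (Finset.sum_le_sum h1).trans (le_of_eq ?_)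
  rw [← Finset.sum_mul, ← Nat.cast_sum, Nat.sum_range_choose]
  push_cast
  ring

lemma int_exp (hσ : 0 < σ) (b : ℝ) :
    IntegrableOn (fun x => Real.exp (-(σ / 2) * x)) (Ici b) ∧
      ∫ x in Ici b, Real.exp (-(σ / 2) * x) = 2 / σ * Real.exp (-(σ / 2) * b) := by
  have h1 : -(σ / 2) < 0 := by rw [neg_lt_zero]; positivity
  refine ⟨?_, ?_⟩
  · rw [integrableOn_Ici_iff_integrableOn_Ioi]
    exact integrableOn_exp_mul_Ioi h1 b
  · rw [integral_Ici_eq_integral_Ioi, integral_exp_mul_Ioi h1]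
    field_simp

lemma iter_R_int (hσ : 0 < σ) (hw : 1 ≤ σ * w) (hw0 : 0 < w) {B : ℝ} {n : ℕ} (hB1 : 1 ≤ B)
    (hB : ∀ j ≤ n, ∀ x, ‖iteratedDeriv j sg x‖ ≤ B) {m : ℕ} (hm : m ≤ n) :
    Integrable (iteratedDeriv m (R σ w a)) ∧ ∫ x, ‖iteratedDeriv m (R σ w a) x‖
      ≤ 2 ^ (m + 1) * B * σ ^ m * (2 / σ * Real.exp (-(σ / 2) * (a - w))) := by
  obtain ⟨hi, he⟩ := int_exp hσ (a - w)
  have hg : Integrable ((Ici (a - w)).indicator
      (fun x => 2 ^ (m + 1) * B * σ ^ m * Real.exp (-(σ / 2) * x))) :=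
    (integrable_indicator_iff measurableSet_Ici).mpr (hi.const_mul _)
  have hle : ∀ x, ‖iteratedDeriv m (R σ w a) x‖ ≤ (Ici (a - w)).indicator
      (fun x => 2 ^ (m + 1) * B * σ ^ m * Real.exp (-(σ / 2) * x)) x := by
    intro x
    by_cases hx : x < a - w
    · rw [iter_R_zero hw0 m hx, norm_zero]
      exact indicator_nonneg (fun _ _ => by positivity) _
    · rw [indicator_of_mem (by rw [mem_Ici]; linarith)]
      exact iter_R_le hσ hw hw0 hB1 hB hm x
  have hc : Continuous (iteratedDeriv m (R σ w a)) :=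
    R_contDiff.continuous_iteratedDeriv m (by exact_mod_cast le_top)
  refine ⟨hg.mono' hc.aestronglyMeasurable (Eventually.of_forall hle), ?_⟩
  rw [← he, ← integral_const_mul, ← integral_indicator measurableSet_Ici]
  exact integral_mono_of_nonneg (Eventually.of_forall fun _ => norm_nonneg _) hg
    (Eventually.of_forall hle)

lemma norm_fourier_le (f : ℝ → ℂ) (v : ℝ) : ‖𝓕 f v‖ ≤ ∫ x, ‖f x‖ := by
  rw [Real.fourier_real_eq]
  refine (norm_integral_le_integral_norm _).trans (le_of_eq ?_)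
  refine integral_congr_ae (Eventually.of_forall fun x => ?_)
  simp only [Circle.norm_smul]

lemma fourier_cont {f : ℝ → ℂ} (hf : Integrable f) : Continuous (𝓕 f) :=
  VectorFourier.fourierIntegral_continuous Real.continuous_fourierChar
    (innerSL ℝ).continuous₂ hf

end A3

open A3 in
theorem ker3 : Ker3 := by
  obtain ⟨B, hB1, hB⟩ := K2.exists_iter_sg_le 8
  refine ⟨128 * (1028 * B), by linarith, fun σ w a hσ hw => ?_⟩
  have hw0 : 0 < w := by
    rcases lt_or_ge 0 w with h | h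
    · exact h
    · exfalso
      have := mul_nonpos_of_nonneg_of_nonpos hσ.le h
      linarith
  set E := Real.exp (-(σ / 2) * (a - w)) with hE
  have hE0 : 0 < E := Real.exp_pos _
  -- the function with the normalised factor
  have key : ∀ m ≤ 8, Integrable (iteratedDeriv m (R σ w a)) ∧ ∫ x, ‖iteratedDeriv m (R σ w a) x‖
      ≤ 2 ^ (m + 1) * B * σ ^ m * (2 / σ * E) := fun m hm => iter_R_int hσ hw hw0 hB1 hB hm
  have hR : Integrable (R σ w a) := by
    have := (key 0 (by norm_num)).1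
    rwa [iteratedDeriv_zero] at this
  have hF : ∀ m ≤ 8, ∀ v : ℝ, |2 * Real.pi * v| ^ m * ‖𝓕 (R σ w a) v‖
      ≤ 2 ^ (m + 1) * B * σ ^ m * (2 / σ * E) := by
    intro m hm v
    have h1 := Real.fourier_iteratedDeriv (f := R σ w a) (N := (8 : ℕ)) (n := m)
      (R_contDiff.of_le (by exact_mod_cast le_top))
      (fun n hn => (key n (by exact_mod_cast hn)).1) (by exact_mod_cast hm)
    have h2 := norm_fourier_le (iteratedDeriv m (R σ w a)) v
    rw [h1] at h2
    simp only [norm_smul, norm_pow] at h2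
    have e : ‖(2 * Real.pi * I * v : ℂ)‖ = |2 * Real.pi * v| := by
      have : (2 * Real.pi * I * v : ℂ) = I * ((2 * Real.pi * v : ℝ) : ℂ) := by push_cast; ring
      rw [this, norm_mul, norm_I, one_mul, Complex.norm_real, Real.norm_eq_abs]
    rw [e] at h2
    exact h2.trans (key m hm).2
  have hFc : Continuous (𝓕 (R σ w a)) := fourier_cont hR
  have hFi : Integrable (𝓕 (R σ w a)) := by
    have h0 := hF 0 (by norm_num)
    have h2 := hF 2 (by norm_num)
    set M0 := 2 ^ (0 + 1) * B * σ ^ 0 * (2 / σ * E) with hM0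
    set M2 := 2 ^ (2 + 1) * B * σ ^ 2 * (2 / σ * E) with hM2
    refine (integrable_inv_one_add_sq.const_mul (M0 + M2)).mono' hFc.aestronglyMeasurable
      (Eventually.of_forall fun v => ?_)
    have h0' := h0 v
    have h2' := h2 v
    rw [pow_zero, one_mul] at h0'
    rw [sq_abs] at h2'
    have hv : (0 : ℝ) < 1 + v ^ 2 := by positivity
    rw [← div_eq_mul_inv, le_div_iff₀ hv]
    have h3 : v ^ 2 * ‖𝓕 (R σ w a) v‖ ≤ (2 * Real.pi * v) ^ 2 * ‖𝓕 (R σ w a) v‖ := by
      refine mul_le_mul_of_nonneg_right ?_ (norm_nonneg _)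
      have hp := Real.pi_gt_three
      have : 1 ≤ (2 * Real.pi) ^ 2 := by nlinarith
      rw [mul_pow (2 * Real.pi)]
      nlinarith [sq_nonneg v]
    nlinarith
  have hnE : ‖(E⁻¹ : ℂ)‖ = E⁻¹ := by
    have : (E⁻¹ : ℂ) = ((E⁻¹ : ℝ) : ℂ) := by push_cast; ring
    rw [this, Complex.norm_real, Real.norm_of_nonneg (by positivity)]
  have hpi : ‖(1 / (2 * Real.pi) : ℂ)‖ ≤ 1 := by
    have e : (1 / (2 * Real.pi) : ℂ) = ((1 / (2 * Real.pi) : ℝ) : ℂ) := by push_cast; ring
    rw [e, Complex.norm_real, Real.norm_of_nonneg (by positivity), div_le_one (by positivity)]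
    linarith [Real.pi_gt_three]
  refine ⟨fun u => (E⁻¹ : ℂ) * (1 / (2 * Real.pi) * 𝓕 (R σ w a) (-(u / (2 * Real.pi)))), ?_, ?_, ?_⟩
  · have : Continuous fun u : ℝ => 𝓕 (R σ w a) (-(u / (2 * Real.pi))) :=
      hFc.comp (by fun_prop)
    fun_prop
  · intro u
    have h0 := hF 0 (by norm_num) (-(u / (2 * Real.pi)))
    have h8 := hF 8 le_rfl (-(u / (2 * Real.pi)))
    have e : |2 * Real.pi * -(u / (2 * Real.pi))| = |u| := by
      have : 2 * Real.pi * -(u / (2 * Real.pi)) = -u := by field_simp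
      rw [this, abs_neg]
    rw [e] at h0 h8
    rw [pow_zero, one_mul] at h0
    set q := ‖𝓕 (R σ w a) (-(u / (2 * Real.pi)))‖ with hq
    have hq0 : 0 ≤ q := norm_nonneg _
    have hle : ‖(E⁻¹ : ℂ) * (1 / (2 * Real.pi) * 𝓕 (R σ w a) (-(u / (2 * Real.pi))))‖
        ≤ E⁻¹ * q := by
      rw [norm_mul, norm_mul, hnE]
      refine mul_le_mul_of_nonneg_left ?_ (by positivity)
      have := mul_le_mul_of_nonneg_right hpi hq0
      rwa [one_mul] at this
    refine hle.trans ?_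
    rw [← mul_div_assoc, le_div_iff₀ (by positivity)]
    have h4 : (1 + |u| / σ) ^ 8 ≤ 128 * (1 + (|u| / σ) ^ 8) := by
      have h4 := add_pow_le (zero_le_one : (0 : ℝ) ≤ 1) (by positivity : 0 ≤ |u| / σ) 8
      norm_num at h4
      linarith
    calc E⁻¹ * q * (1 + |u| / σ) ^ 8 ≤ E⁻¹ * q * (128 * (1 + (|u| / σ) ^ 8)) :=
          mul_le_mul_of_nonneg_left h4 (by positivity)
      _ = 128 * E⁻¹ * (q + (σ⁻¹) ^ 8 * (|u| ^ 8 * q)) := by
          rw [div_pow]; field_simp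
      _ ≤ 128 * E⁻¹ * (2 ^ (0 + 1) * B * σ ^ 0 * (2 / σ * E)
            + (σ⁻¹) ^ 8 * (2 ^ (8 + 1) * B * σ ^ 8 * (2 / σ * E))) := by gcongr
      _ = 128 * (1028 * B) * σ⁻¹ := by
          field_simp
          ring
  · intro ξ hξ
    have h1 := (R_contDiff (σ := σ) (w := w) (a := a)).continuous.fourierInv_fourier_eq hR hFi
    have h2 := congrFun h1 ξ
    rw [Real.fourierInv_eq'] at h2
    have h3 : (1 - Real.smoothTransition ((a - ξ) / w) : ℂ) = R0 w a ξ := rfl
    have h4 : R0 w a ξ = Real.exp (σ / 2 * ξ) * R σ w a ξ := by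
      unfold R
      have e : (Real.exp (σ / 2 * ξ) : ℂ) = cexp ((σ / 2 : ℂ) * ξ) := by push_cast; rfl
      rw [e, ← mul_assoc, ← Complex.exp_add]
      have : (σ / 2 : ℂ) * ξ + -(σ / 2 : ℂ) * ξ = 0 := by ring
      rw [this, Complex.exp_zero, one_mul]
    have h5 : Real.exp (σ / 2 * ξ) = Real.exp (σ / 2 * (ξ - (a - w))) * E⁻¹ := by
      rw [hE, ← Real.exp_neg, ← Real.exp_add]
      congr 1
      ring
    have h6 : ∫ v, cexp ((↑(2 * Real.pi * inner ℝ v ξ) * I)) • 𝓕 (R σ w a) v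
        = ∫ u : ℝ, (1 / (2 * Real.pi) * 𝓕 (R σ w a) (-(u / (2 * Real.pi)))) * cexp (-(I * u * ξ)) := by
      have h7 := Measure.integral_comp_mul_left
        (fun v : ℝ => cexp ((↑(2 * Real.pi * inner ℝ v ξ) * I)) • 𝓕 (R σ w a) v)
        (-(1 / (2 * Real.pi)))
      have h8 : |(-(1 / (2 * Real.pi)))⁻¹| = 2 * Real.pi := by
        rw [inv_neg, abs_neg, one_div, inv_inv, abs_of_pos (by positivity)]
      rw [h8] at h7
      have h9 : (2 * Real.pi : ℝ) • ∫ u : ℝ, (1 / (2 * Real.pi)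
          * 𝓕 (R σ w a) (-(u / (2 * Real.pi)))) * cexp (-(I * u * ξ))
          = ∫ x : ℝ, (fun v : ℝ => cexp ((↑(2 * Real.pi * inner ℝ v ξ) * I)) • 𝓕 (R σ w a) v)
            (-(1 / (2 * Real.pi)) * x) := by
        rw [← integral_smul]
        refine integral_congr_ae (Eventually.of_forall fun x => ?_)
        simp only [smul_eq_mul, real_smul]
        have e1 : -(1 / (2 * Real.pi)) * x = -(x / (2 * Real.pi)) := by ring
        rw [e1]
        have e2 : ((2 * Real.pi * inner ℝ (-(x / (2 * Real.pi))) ξ : ℝ) : ℂ) * I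
            = -(I * x * ξ) := by
          have e3 : inner ℝ (-(x / (2 * Real.pi))) ξ = ξ * -(x / (2 * Real.pi)) := by
            simp
          rw [e3]
          have e4 : 2 * Real.pi * (ξ * -(x / (2 * Real.pi))) = -(x * ξ) := by field_simp
          rw [e4]
          push_cast
          ring
        rw [e2]
        push_cast
        have hp : (Real.pi : ℂ) ≠ 0 := by exact_mod_cast Real.pi_ne_zero
        field_simp
      rw [← h9] at h7
      have hp : (2 * Real.pi : ℝ) ≠ 0 := by positivity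
      exact (smul_right_injective ℂ hp h7).symm
    rw [h3, h4, h5, ← h2, h6]
    push_cast
    rw [mul_assoc, ← integral_const_mul]
    congr 1
    refine integral_congr_ae (Eventually.of_forall fun v => ?_)
    simp only
    ring

end Pool.Agent.Lib.LC
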