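import Mathlib
import Pool.Agent.Lib.MP_f9aece_nt_gt.D3
import Pool.Agent.Lib.MP_f9aece_nt_loc.Stmts

/-!
The law of `log |zeta|` at bounded scale: module A4 (`suBoundX`), smooth sums at distance `σ` from the
critical line through Euler products.
-/

set_option autoImplicit false

namespace Pool.Agent.Lib.LC

open MeasureTheory Set Filter Topology Complex ProbabilityTheory
open scoped ComplexConjugate
open Pool.Agent.Lib.J4 (Rough)
open Pool.Agent.Lib.GT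
open Pool.Agent.Lib.GT.D3

namespace A4

/-- sums over smooth numbers against a transform -/
lemma hasSum_gen {K : ℝ → ℂ} (hKc : Continuous K) (hKi : Integrable K)
    {P : Finset ℕ} (hP : ∀ p ∈ P, p.Prime) {σ : ℝ} (hσ : 0 ≤ σ) (x : Om) :
    HasSum (fun m : Nat.factoredNumbers P => ((m : ℕ) : ℂ) ^ sx σ 0 * ch x m
      * ∫ u : ℝ, K u * cexp (-(I * u * (Real.log ((m : ℕ) : ℝ) : ℝ)))) (∫ u, K u * FP P σ u x) := by
  have hnorm : ∀ (m : Nat.factoredNumbers P) (u : ℝ),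
      ‖K u * (((m : ℕ) : ℂ) ^ sx σ u * ch x m)‖
        = ‖K u‖ * ((m : ℕ) : ℝ) ^ (-(1 / 2 + σ)) := by
    intro m u
    rw [norm_mul, norm_mul, norm_ch, mul_one, norm_cpow_sx (Nat.ne_zero_of_mem_factoredNumbers m.2)]
  have hint : ∀ m : Nat.factoredNumbers P, Integrable fun u : ℝ =>
      K u * (((m : ℕ) : ℂ) ^ sx σ u * ch x m) := by
    intro m
    have hm' : (((m : ℕ)) : ℂ) ≠ 0 := by exact_mod_cast Nat.ne_zero_of_mem_factoredNumbers m.2
    refine (hKi.norm.mul_const (((m : ℕ) : ℝ) ^ (-(1 / 2 + σ)))).mono' ?_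
      (Eventually.of_forall fun u => (hnorm m u).le)
    refine Continuous.aestronglyMeasurable ?_
    refine hKc.mul ?_
    simp only [Complex.cpow_def_of_ne_zero hm']
    unfold sx
    fun_prop
  have hsum : Summable fun m : Nat.factoredNumbers P => ∫ u : ℝ,
      ‖K u * (((m : ℕ) : ℂ) ^ sx σ u * ch x m)‖ := by
    simp only [hnorm, integral_mul_const]
    exact (euler hP hσ 0 x).1.mul_left _
  have h := hasSum_integral_of_summable_integral_norm hint hsum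
  have e1 : ∀ u : ℝ, ∑' m : Nat.factoredNumbers P,
      K u * (((m : ℕ) : ℂ) ^ sx σ u * ch x m) = K u * FP P σ u x := fun u =>
    ((euler hP hσ u x).2.mul_left _).tsum_eq
  simp only [e1] at h
  have e2 : ∀ m : Nat.factoredNumbers P, ∫ u : ℝ,
      K u * (((m : ℕ) : ℂ) ^ sx σ u * ch x m)
      = ((m : ℕ) : ℂ) ^ sx σ 0 * ch x m
        * ∫ u : ℝ, K u * cexp (-(I * u * (Real.log ((m : ℕ) : ℝ) : ℝ))) := by
    intro m
    have hm0 := Nat.ne_zero_of_mem_factoredNumbers m.2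
    have hm' : (((m : ℕ)) : ℂ) ≠ 0 := by exact_mod_cast hm0
    have e3 : ∀ u : ℝ, K u * (((m : ℕ) : ℂ) ^ sx σ u * ch x m)
        = ((m : ℕ) : ℂ) ^ sx σ 0 * ch x m
          * (K u * cexp (-(I * u * (Real.log ((m : ℕ) : ℝ) : ℝ)))) := by
      intro u
      have h1 := exp_log_mul one_ne_zero hm0 u
      rw [Nat.cast_one, Complex.one_cpow, one_mul, Nat.cast_one, one_mul] at h1
      rw [← h1]
      have h2 : sx σ u = sx σ 0 + -(I * u) := by
        have := sx_add σ 0 u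
        rwa [zero_add] at this
      rw [h2, Complex.cpow_add _ _ hm']
      ring
    simp only [e3]
    rw [integral_const_mul]
  simp only [e2] at h
  exact h

/-- measurability of the Euler products -/
lemma measurable_FP0 {P : Finset ℕ} (σ v : ℝ) : Measurable (FP P σ v) := by
  unfold FP
  refine Finset.measurable_fun_prod _ fun p _ => ?_
  have h1 : Continuous fun q : Om => (p : ℂ) ^ sx σ v * e1 (q p) := by fun_prop
  exact (h1.measurable.const_sub 1).inv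

lemma sub_sq_le (X1 X2 : ℂ) : ‖X1 - X2‖ ^ 2 ≤ 2 * ‖X1‖ ^ 2 + 2 * ‖X2‖ ^ 2 := by
  have h4 := pow_le_pow_left₀ (norm_nonneg _) (norm_sub_le X1 X2) 2
  nlinarith [sq_nonneg (‖X1‖ - ‖X2‖)]

/-- the kernel of the complement -/
lemma ks_eq (σ u : ℝ) : σ⁻¹ / (1 + |u| / σ) ^ 8 = kf σ⁻¹ u := by
  unfold kf
  rw [div_eq_inv_mul |u| σ]

/-- the transform for `r = 1` -/
lemma Mt_one {C C3 Λ σ a : ℝ} {K K3 : ℝ → ℂ} (hΛ : 0 < Λ) (hσ : 0 < σ) (hKc : Continuous K)
    (hK : ∀ u, ‖K u‖ ≤ C * kf Λ u)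
    (hrep : ∀ ξ : ℝ, 0 ≤ ξ → (Real.smoothTransition ((a - ξ) / (Λ / 20)) : ℂ)
      = ∫ u, K u * cexp (-(I * u * ξ)))
    (hK3c : Continuous K3) (hK3 : ∀ u, ‖K3 u‖ ≤ C3 * kf σ⁻¹ u)
    (hrep3 : ∀ ξ : ℝ, 0 ≤ ξ → (1 - Real.smoothTransition ((a - ξ) / (Λ / 20)) : ℂ)
      = Real.exp (σ / 2 * (ξ - (a - Λ / 20))) * ∫ u, K3 u * cexp (-(I * u * ξ)))
    {P : Finset ℕ} (hP : ∀ p ∈ P, p.Prime) (x : Om) :
    Mt K P σ 0 1 x = FP P σ 0 x
      - (Real.exp (-(σ / 2 * (a - Λ / 20))) : ℂ) * ∫ u, K3 u * FP P (σ / 2) u x := by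
  have hK3i : Integrable K3 := ((integrable_kf (inv_pos.2 hσ)).const_mul C3).mono'
    hK3c.aestronglyMeasurable (Eventually.of_forall hK3)
  have h1 := hasSum_Mt (a := a) hΛ hKc hK hrep hP hσ.le 0 one_ne_zero x
  have h2 := (euler hP hσ.le 0 x).2
  have h3 := (hasSum_gen hK3c hK3i hP (by linarith : 0 ≤ σ / 2) x).mul_left
    (Real.exp (-(σ / 2 * (a - Λ / 20))) : ℂ)
  have h4 := h2.sub h1
  have e : (fun m : Nat.factoredNumbers P => ((m : ℕ) : ℂ) ^ sx σ 0 * ch x m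
      - ((m : ℕ) : ℂ) ^ sx σ 0 * ch x m * st Λ a (Real.log (((1 : ℕ) : ℝ) * (m : ℕ))))
      = fun m : Nat.factoredNumbers P => (Real.exp (-(σ / 2 * (a - Λ / 20))) : ℂ)
        * (((m : ℕ) : ℂ) ^ sx (σ / 2) 0 * ch x m
        * ∫ u : ℝ, K3 u * cexp (-(I * u * (Real.log ((m : ℕ) : ℝ) : ℝ)))) := by
    funext m
    have hm0 := Nat.ne_zero_of_mem_factoredNumbers m.2
    have hm' : (((m : ℕ)) : ℂ) ≠ 0 := by exact_mod_cast hm0
    have hm1 : (0 : ℝ) < ((m : ℕ) : ℝ) := by exact_mod_cast Nat.pos_of_ne_zero hm0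
    have hlog : 0 ≤ Real.log ((m : ℕ) : ℝ) := Real.log_natCast_nonneg _
    have h5 := hrep3 _ hlog
    have h6 : (((m : ℕ)) : ℂ) ^ sx (σ / 2) 0
        = ((m : ℕ) : ℂ) ^ sx σ 0 * (Real.exp (σ / 2 * Real.log ((m : ℕ) : ℝ)) : ℂ) := by
      have h7 : sx (σ / 2) 0 = sx σ 0 + ((σ / 2 : ℝ) : ℂ) := by
        unfold sx
        push_cast
        ring
      rw [h7, Complex.cpow_add _ _ hm']
      congr 1
      rw [Complex.cpow_def_of_ne_zero hm', ← Complex.natCast_log, ← Complex.ofReal_mul,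
        ← Complex.ofReal_exp, mul_comm]
    have h8 : Real.exp (σ / 2 * (Real.log ((m : ℕ) : ℝ) - (a - Λ / 20)))
        = Real.exp (-(σ / 2 * (a - Λ / 20))) * Real.exp (σ / 2 * Real.log ((m : ℕ) : ℝ)) := by
      rw [← Real.exp_add]
      congr 1
      ring
    rw [Nat.cast_one, one_mul, h6]
    have h9 : ((m : ℕ) : ℂ) ^ sx σ 0 * ch x m
        - ((m : ℕ) : ℂ) ^ sx σ 0 * ch x m * st Λ a (Real.log ((m : ℕ) : ℝ))
        = ((m : ℕ) : ℂ) ^ sx σ 0 * ch x m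
          * (1 - (Real.smoothTransition ((a - Real.log ((m : ℕ) : ℝ)) / (Λ / 20)) : ℂ)) := by
      unfold st
      ring
    rw [h9, h5, h8]
    push_cast
    ring
  rw [e] at h4
  have h5 := h4.unique h3
  have h6 : (∏ p ∈ P, (1 - (p : ℂ) ^ sx σ 0 * e1 (x p))⁻¹) = FP P σ 0 x := rfl
  rw [h6] at h5
  rw [← h5]
  ring

end A4

open A4 in
/-- A4 -/
theorem suBoundX (hker : GT.KerRep) (h3 : Ker3) : SuBoundX := by
  classical
  obtain ⟨C, hC1, hker⟩ := hker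
  obtain ⟨C3, hC3, h3⟩ := h3
  have hc8 := c8_nonneg
  refine ⟨C ^ 2 * (c8 + 1) + 2 * (C3 ^ 2 * (c8 + 1)) + 2, ?_, ?_⟩
  · have h1 : 0 ≤ C ^ 2 * (c8 + 1) := by positivity
    have h2 : 0 ≤ 2 * (C3 ^ 2 * (c8 + 1)) := by positivity
    linarith
  intro A hA Λ σ hΛ hσ hσ1 hσΛ f m B hf hm hB hfd hmd
  obtain ⟨K, hKc, hK, hrep⟩ := hker Λ (17 / 20 * Λ) hΛ (by linarith) (by linarith)
  obtain ⟨K3, hK3c, hK3', hrep3⟩ := h3 σ (Λ / 20) (17 / 20 * Λ) hσ (by linarith)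
  have hK3 : ∀ u, ‖K3 u‖ ≤ C3 * kf σ⁻¹ u := fun u => by
    rw [← ks_eq]
    exact hK3' u
  have hσi : 0 < σ⁻¹ := inv_pos.2 hσ
  simp only [ks_eq]
  set a : ℝ := 17 / 20 * Λ with ha
  have hΛ0 : 0 < Λ := by linarith
  have ha0 : 0 ≤ a := by linarith
  set P : Finset ℕ := (Finset.Icc 1 ⌊Real.exp A.Y⌋₊).filter Nat.Prime with hPdef
  have hP : ∀ p ∈ P, p.Prime := fun p hp => (Finset.mem_filter.1 hp).2
  have hF : ∀ s w x, A.F s w x = FP P s w x := fun s w x => rfl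
  set T : Finset ℕ := Finset.range (⌊Real.exp A.Y⌋₊ + 1) with hT
  have hTset : {p : ℕ | (p : ℝ) ≤ Real.exp A.Y} = (T : Set ℕ) := by
    ext p
    rw [Set.mem_ofPred_eq, hT, Finset.mem_coe, Finset.mem_range, Nat.lt_succ_iff,
      Nat.le_floor_iff (Real.exp_pos _).le]
  rw [hTset] at hfd hmd
  have hPT : ∀ p ∈ P, p ∈ (T : Set ℕ) := by
    intro p hp
    have := (Finset.mem_Icc.1 (Finset.mem_filter.1 hp).1).2
    rw [Finset.mem_coe, hT, Finset.mem_range]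
    omega
  have hB0 : 0 ≤ B := (hB (fun _ => 0)).1.trans (hB (fun _ => 0)).2.1
  set R : Finset ℕ := insert 1 (RoS A.Y a) with hR
  have hRne : ∀ r ∈ R, r ≠ 0 := by
    intro r hr
    rw [hR, Finset.mem_insert] at hr
    rcases hr with rfl | hr
    · exact one_ne_zero
    · have := (Finset.mem_Icc.1 (Finset.mem_filter.1 hr).1).1
      omega
  have hRT : ∀ r ∈ R, r ≠ 0 ∧ ∀ p ∈ r.primeFactors, p ∉ T := by
    intro r hr
    refine ⟨hRne r hr, fun p hp hpT => ?_⟩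
    rw [hR, Finset.mem_insert] at hr
    rcases hr with rfl | hr
    · simp at hp
    · have h1 := (Finset.mem_filter.1 hr).2 p hp
      have h2 : p ∈ (T : Set ℕ) := hpT
      rw [← hTset] at h2
      have h3 : (p : ℝ) ≤ Real.exp A.Y := h2
      linarith
  have hBF : 0 ≤ BF P σ := (norm_nonneg _).trans (norm_FP_le hP hσ.le 0 (fun _ => 0))
  have hσ2 : 0 ≤ σ / 2 := by linarith
  have hBF2 : 0 ≤ BF P (σ / 2) := (norm_nonneg _).trans (norm_FP_le hP hσ2 0 (fun _ => 0))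
  -- the transforms
  have hKi : Integrable fun u => C * kf Λ u * BF P σ :=
    ((integrable_kf hΛ0).const_mul C).mul_const _
  have hMB : ∀ r ∈ R, ∀ x, ‖Mt K P σ 0 r x‖ ≤ C * c8 * BF P σ := by
    intro r hr x
    have h1 : ∫ u, C * kf Λ u * BF P σ = C * c8 * BF P σ := by
      rw [integral_mul_const, integral_const_mul, integral_kf hΛ0]
    rw [← h1]
    refine norm_integral_le_of_norm_le hKi (Eventually.of_forall fun u => ?_)
    rw [norm_mul, norm_mul, norm_cpow_I (hRne r hr), one_mul]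
    exact mul_le_mul (hK u) (norm_FP_le hP hσ.le _ x) (norm_nonneg _)
      (mul_nonneg (by linarith) (kf_nonneg hΛ0 u))
  set Z : ℕ → Om → ℂ := fun r x => (r : ℂ) ^ sx σ 0 * Mt K P σ 0 r x * m x
    - (if r = 1 then 1 else 0) with hZ
  have hsxle : ∀ r ∈ R, ‖(r : ℂ) ^ sx σ 0‖ ≤ 1 := by
    intro r hr
    rw [norm_cpow_sx (hRne r hr)]
    exact Real.rpow_le_one_of_one_le_of_nonpos
      (by exact_mod_cast Nat.one_le_iff_ne_zero.2 (hRne r hr)) (by linarith)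
  have hZp : ∀ r ∈ R, Measurable (Z r) ∧ Dep (T : Set ℕ) (Z r) ∧
      ∀ x, ‖Z r x‖ ≤ C * c8 * BF P σ * B + 1 := by
    intro r hr
    refine ⟨?_, ?_, fun x => ?_⟩
    · exact Measurable.sub (((measurable_Mt hKc hP σ 0 (hRne r hr)).const_mul _).mul hm)
        measurable_const
    · intro x y hxy
      simp only [hZ]
      rw [dep_Mt hPT σ 0 r x y hxy, hmd x y hxy]
    · simp only [hZ]
      have h1 : ‖(r : ℂ) ^ sx σ 0 * Mt K P σ 0 r x * m x‖ ≤ C * c8 * BF P σ * B := by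
        rw [norm_mul, norm_mul]
        refine mul_le_mul ?_ (hB x).2.2 (norm_nonneg _) (by positivity)
        calc _ ≤ 1 * (C * c8 * BF P σ) := mul_le_mul (hsxle r hr) (hMB r hr x) (norm_nonneg _)
              zero_le_one
          _ = _ := one_mul _
      have h2 : ‖(if r = 1 then 1 else 0 : ℂ)‖ ≤ 1 := by
        by_cases h : r = 1
        · simp only [h, if_true]; rw [norm_one]
        · simp only [h, if_false]; rw [norm_zero]; exact zero_le_one
      exact (norm_sub_le _ _).trans (add_le_add h1 h2)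
  have hdec : ∀ x, SU Λ a σ 0 x * m x - 1 = ∑ r ∈ R, ch x r * Z r x := by
    intro x
    rw [SU_eq (C := C) hΛ0 hKc hK ha0 hrep hPdef hσ.le 0 x]
    simp only [hZ, mul_sub]
    rw [Finset.sum_sub_distrib, Finset.sum_mul]
    congr 1
    · refine Finset.sum_congr rfl fun r _ => ?_
      ring
    · simp only [mul_ite, mul_zero]
      rw [Finset.sum_ite_eq', if_pos (Finset.mem_insert_self _ _), ch_one, one_mul]
  have horth := orth T R hRT (Z := Z) (B := B) hf hfd (fun x => ⟨(hB x).1, (hB x).2.1⟩) hZp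
  simp only [hdec]
  rw [horth]
  have h1R : (1 : ℕ) ∉ RoS A.Y a := by
    intro h
    have := (Finset.mem_Icc.1 (Finset.mem_filter.1 h).1).1
    omega
  rw [hR, Finset.sum_insert h1R]
  -- bounds for the functions of `(x, u)`
  have hFm : ∀ s : ℝ, Measurable fun q : Om × ℝ => FP P s q.2 q.1 := by
    intro s
    have := measurable_FP hP s 0
    simpa only [zero_add] using this
  have hFB : ∀ q : Om × ℝ, ‖FP P σ q.2 q.1‖ ≤ BF P σ := fun q => norm_FP_le hP hσ.le _ _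
  have hFB2 : ∀ q : Om × ℝ, ‖FP P (σ / 2) q.2 q.1‖ ≤ BF P (σ / 2) := fun q =>
    norm_FP_le hP hσ2 _ _
  have hfB : ∀ x, 0 ≤ f x ∧ f x ≤ B := fun x => ⟨(hB x).1, (hB x).2.1⟩
  have hCC : 0 ≤ C ^ 2 * (c8 + 1) := by positivity
  have hCC3 : 0 ≤ 2 * (C3 ^ 2 * (c8 + 1)) := by positivity
  -- nonnegativity
  set J1 : ℝ := ∫ x, f x * ‖A.F σ 0 x * m x - 1‖ ^ 2 ∂mu with hJ1
  set J2 : ℝ := ∫ u, kf σ⁻¹ u * ∫ x, f x * (‖A.F (σ / 2) u x‖ ^ 2 * ‖m x‖ ^ 2) ∂mu with hJ2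
  set J3 : ℝ := ∫ u, kf Λ u * ∫ x, f x * (‖A.F σ u x‖ ^ 2 * ‖m x‖ ^ 2) ∂mu with hJ3
  have hJ1n : 0 ≤ J1 := integral_nonneg fun x => mul_nonneg (hfB x).1 (sq_nonneg _)
  have hJ2n : 0 ≤ J2 := integral_nonneg fun u => mul_nonneg (kf_nonneg hσi u)
    (integral_nonneg fun x => mul_nonneg (hfB x).1 (by positivity))
  have hJ3n : 0 ≤ J3 := integral_nonneg fun u => mul_nonneg (kf_nonneg hΛ0 u)
    (integral_nonneg fun x => mul_nonneg (hfB x).1 (by positivity))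
  have hSn : 0 ≤ ∑ n ∈ RoS A.Y a, (n : ℝ) ^ (-(1 + 2 * σ)) :=
    Finset.sum_nonneg fun n _ => by positivity
  have hE2 : Real.exp (-(σ / 2 * (a - Λ / 20))) ^ 2 = Real.exp (-(4 / 5 * (σ * Λ))) := by
    rw [← Real.exp_nat_mul]
    congr 1
    rw [ha]
    push_cast
    ring
  -- the term `r = 1`
  have hT1 : ∫ x, f x * ‖Z 1 x‖ ^ 2 ∂mu
      ≤ 2 * J1 + 2 * (C3 ^ 2 * (c8 + 1)) * (Real.exp (-(4 / 5 * (σ * Λ))) * J2) := by
    set G : Om × ℝ → ℂ := fun q => FP P (σ / 2) q.2 q.1 * m q.1 with hG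
    have hGm : Measurable G := (hFm (σ / 2)).mul (hm.comp measurable_fst)
    have hGB : ∀ q, ‖G q‖ ≤ BF P (σ / 2) * B := by
      intro q
      rw [hG, norm_mul]
      exact mul_le_mul (hFB2 q) (hB q.1).2.2 (norm_nonneg _) hBF2
    obtain ⟨hi, hsw⟩ := kernel_swap hσi hGm hGB hf hfB
    have hGn : ∀ x u, ‖G (x, u)‖ ^ 2 = ‖A.F (σ / 2) u x‖ ^ 2 * ‖m x‖ ^ 2 := by
      intro x u
      simp only [hG, hF]
      rw [norm_mul, mul_pow]
    have hZ1 : ∀ x, Z 1 x = (A.F σ 0 x * m x - 1)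
        - (Real.exp (-(σ / 2 * (a - Λ / 20))) : ℂ) * ∫ u, K3 u * G (x, u) := by
      intro x
      simp only [hZ, if_true, hG, hF]
      rw [Nat.cast_one, Complex.one_cpow, one_mul, Mt_one hΛ0 hσ hKc hK hrep hK3c hK3 hrep3 hP x]
      have e : (fun u => K3 u * (FP P (σ / 2) u x * m x)) = fun u => K3 u * FP P (σ / 2) u x * m x := by
        funext u; ring
      rw [e, integral_mul_const]
      ring
    have hsq : ∀ x, ‖Z 1 x‖ ^ 2 ≤ 2 * ‖A.F σ 0 x * m x - 1‖ ^ 2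
        + 2 * (Real.exp (-(4 / 5 * (σ * Λ))) * (C3 ^ 2 * (c8 + 1) * ∫ u, kf σ⁻¹ u * ‖G (x, u)‖ ^ 2)) := by
      intro x
      rw [hZ1 x]
      have h1 := kernel_sq (C := C3) hσi hK3 (G := fun u => G (x, u))
        (hGm.comp measurable_prodMk_left) (fun u => hGB (x, u))
      have h2 : ‖(Real.exp (-(σ / 2 * (a - Λ / 20))) : ℂ) * ∫ u, K3 u * G (x, u)‖ ^ 2
          ≤ Real.exp (-(4 / 5 * (σ * Λ))) * (C3 ^ 2 * (c8 + 1) * ∫ u, kf σ⁻¹ u * ‖G (x, u)‖ ^ 2) := by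
        rw [norm_mul, mul_pow, Complex.norm_real, Real.norm_eq_abs, sq_abs, hE2]
        exact mul_le_mul_of_nonneg_left h1 (Real.exp_pos _).le
      have h3 := sub_sq_le (A.F σ 0 x * m x - 1)
        ((Real.exp (-(σ / 2 * (a - Λ / 20))) : ℂ) * ∫ u, K3 u * G (x, u))
      linarith
    have hi1 : Integrable (fun x => f x * ‖A.F σ 0 x * m x - 1‖ ^ 2) mu := by
      refine integrable_of_bd (C := B * (BF P σ * B + 1) ^ 2) ?_ fun x => ?_
      · have h1 : Measurable fun x : Om => A.F σ 0 x := measurable_FP0 σ 0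
        exact (hf.mul (((h1.mul hm).sub measurable_const).norm.pow_const 2)).aestronglyMeasurable
      · have h1 : ‖A.F σ 0 x * m x - 1‖ ≤ BF P σ * B + 1 := by
          refine (norm_sub_le _ _).trans ?_
          rw [norm_mul, norm_one]
          gcongr
          · exact hFB (x, 0)
          · exact (hB x).2.2
        rw [norm_mul, norm_pow, norm_norm, Real.norm_eq_abs, abs_of_nonneg (hfB x).1]
        exact mul_le_mul (hfB x).2 (pow_le_pow_left₀ (norm_nonneg _) h1 2) (by positivity) hB0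
    calc ∫ x, f x * ‖Z 1 x‖ ^ 2 ∂mu
        ≤ ∫ x, (2 * (f x * ‖A.F σ 0 x * m x - 1‖ ^ 2)
          + 2 * (Real.exp (-(4 / 5 * (σ * Λ))) * (C3 ^ 2 * (c8 + 1)))
            * (f x * ∫ u, kf σ⁻¹ u * ‖G (x, u)‖ ^ 2)) ∂mu := by
          refine integral_mono_of_nonneg (Eventually.of_forall fun x =>
            mul_nonneg (hfB x).1 (sq_nonneg _)) ((hi1.const_mul _).add (hi.const_mul _))
            (Eventually.of_forall fun x => ?_)
          simp only
          calc _ ≤ f x * (2 * ‖A.F σ 0 x * m x - 1‖ ^ 2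
              + 2 * (Real.exp (-(4 / 5 * (σ * Λ))) * (C3 ^ 2 * (c8 + 1)
                * ∫ u, kf σ⁻¹ u * ‖G (x, u)‖ ^ 2))) :=
                mul_le_mul_of_nonneg_left (hsq x) (hfB x).1
            _ = _ := by ring
      _ = _ := by
          rw [integral_add (hi1.const_mul _) (hi.const_mul _), integral_const_mul,
            integral_const_mul, hsw, hJ1, hJ2]
          simp only [hGn]
          ring
  -- the other terms
  have hT2 : ∑ r ∈ RoS A.Y a, ∫ x, f x * ‖Z r x‖ ^ 2 ∂mu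
      ≤ C ^ 2 * (c8 + 1) * (∑ n ∈ RoS A.Y a, (n : ℝ) ^ (-(1 + 2 * σ))) * J3 := by
    set G : Om × ℝ → ℂ := fun q => FP P σ q.2 q.1 * m q.1 with hG
    have hGm : Measurable G := (hFm σ).mul (hm.comp measurable_fst)
    have hGB : ∀ q, ‖G q‖ ≤ BF P σ * B := by
      intro q
      rw [hG, norm_mul]
      exact mul_le_mul (hFB q) (hB q.1).2.2 (norm_nonneg _) hBF
    obtain ⟨hi, hsw⟩ := kernel_swap hΛ0 hGm hGB hf hfB
    have hGn : ∀ x u, ‖G (x, u)‖ ^ 2 = ‖A.F σ u x‖ ^ 2 * ‖m x‖ ^ 2 := by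
      intro x u
      simp only [hG, hF]
      rw [norm_mul, mul_pow]
    have hterm : ∀ r ∈ RoS A.Y a, ∫ x, f x * ‖Z r x‖ ^ 2 ∂mu
        ≤ C ^ 2 * (c8 + 1) * (r : ℝ) ^ (-(1 + 2 * σ))
          * ∫ u, kf Λ u * ∫ x, f x * ‖G (x, u)‖ ^ 2 ∂mu := by
      intro r hr
      have hr1 : r ≠ 1 := fun h => h1R (h ▸ hr)
      have hr0 : r ≠ 0 := hRne r (by rw [hR]; exact Finset.mem_insert_of_mem hr)
      have hrn : ‖(r : ℂ) ^ sx σ 0‖ ^ 2 = (r : ℝ) ^ (-(1 + 2 * σ)) := by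
        rw [norm_cpow_sx hr0, ← Real.rpow_natCast, ← Real.rpow_mul (by positivity)]
        congr 1
        push_cast
        ring
      have hZr : ∀ x, Z r x = (r : ℂ) ^ sx σ 0
          * ∫ u, K u * ((r : ℂ) ^ (-(I * u) : ℂ) * G (x, u)) := by
        intro x
        simp only [hZ, if_neg hr1, sub_zero, hG]
        unfold Mt
        rw [mul_assoc, ← integral_mul_const]
        congr 1
        refine integral_congr_ae (Eventually.of_forall fun u => ?_)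
        simp only [zero_add]
        ring
      have hsq : ∀ x, ‖Z r x‖ ^ 2 ≤ (r : ℝ) ^ (-(1 + 2 * σ))
          * (C ^ 2 * (c8 + 1) * ∫ u, kf Λ u * ‖G (x, u)‖ ^ 2) := by
        intro x
        rw [hZr x, norm_mul, mul_pow, hrn]
        refine mul_le_mul_of_nonneg_left ?_ (by positivity)
        have hn : ∀ u : ℝ, ‖(r : ℂ) ^ (-(I * u) : ℂ) * G (x, u)‖ = ‖G (x, u)‖ := by
          intro u
          rw [norm_mul, norm_cpow_I hr0, one_mul]
        have h1 := kernel_sq (C := C) hΛ0 hK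
          (G := fun u => (r : ℂ) ^ (-(I * u) : ℂ) * G (x, u)) (B := BF P σ * B)
          ((continuous_cpow_I hr0).measurable.mul (hGm.comp measurable_prodMk_left))
          (fun u => by rw [hn]; exact hGB (x, u))
        simp only [hn] at h1
        exact h1
      calc ∫ x, f x * ‖Z r x‖ ^ 2 ∂mu
          ≤ ∫ x, C ^ 2 * (c8 + 1) * (r : ℝ) ^ (-(1 + 2 * σ))
            * (f x * ∫ u, kf Λ u * ‖G (x, u)‖ ^ 2) ∂mu := by
            refine integral_mono_of_nonneg (Eventually.of_forall fun x =>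
              mul_nonneg (hfB x).1 (sq_nonneg _)) (hi.const_mul _)
              (Eventually.of_forall fun x => ?_)
            simp only
            calc _ ≤ f x * ((r : ℝ) ^ (-(1 + 2 * σ))
                  * (C ^ 2 * (c8 + 1) * ∫ u, kf Λ u * ‖G (x, u)‖ ^ 2)) :=
                  mul_le_mul_of_nonneg_left (hsq x) (hfB x).1
              _ = _ := by ring
        _ = _ := by rw [integral_const_mul, hsw]
    refine (Finset.sum_le_sum hterm).trans (le_of_eq ?_)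
    simp only [hGn]
    rw [← Finset.sum_mul, ← Finset.mul_sum]
  have hex : 0 ≤ Real.exp (-(4 / 5 * (σ * Λ))) := (Real.exp_pos _).le
  have hEJ : 0 ≤ Real.exp (-(4 / 5 * (σ * Λ))) * J2 := mul_nonneg hex hJ2n
  have hSJ : 0 ≤ (∑ n ∈ RoS A.Y a, (n : ℝ) ^ (-(1 + 2 * σ))) * J3 := mul_nonneg hSn hJ3n
  set CC : ℝ := C ^ 2 * (c8 + 1) with hCCdef
  set CD : ℝ := 2 * (C3 ^ 2 * (c8 + 1)) with hCDdef
  set SS : ℝ := ∑ n ∈ RoS A.Y a, (n : ℝ) ^ (-(1 + 2 * σ)) with hSSdef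
  set EE : ℝ := Real.exp (-(4 / 5 * (σ * Λ))) with hEEdef
  have g1 : 2 * J1 ≤ (CC + CD + 2) * J1 := by
    refine mul_le_mul_of_nonneg_right ?_ hJ1n
    linarith
  have g2 : CD * (EE * J2) ≤ (CC + CD + 2) * EE * J2 := by
    rw [mul_assoc (CC + CD + 2)]
    refine mul_le_mul_of_nonneg_right ?_ hEJ
    linarith
  have g3 : CC * SS * J3 ≤ (CC + CD + 2) * SS * J3 := by
    rw [mul_assoc, mul_assoc (CC + CD + 2)]
    refine mul_le_mul_of_nonneg_right ?_ hSJ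
    linarith
  linarith

end Pool.Agent.Lib.LC
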