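import Mathlib
import Pool.Agent.Lib.MP_f9aece_nt_gt.E5b
import Pool.Agent.Lib.MP_f9aece_nt_loc.Stmts

/-!
The law of `log |zeta|` at bounded scale: module A5 (`nearTorusX`), the smooth sum and the mollifier on
the torus.
-/

set_option autoImplicit false

namespace Pool.Agent.Lib.LC

open MeasureTheory Set Filter Topology Complex ProbabilityTheory
open scoped ComplexConjugate
open Pool.Agent.Lib.GT
open Pool.Agent.Lib.GT.LM

namespace A5

/-- integrals against the kernel of scale `lam` -/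
lemma kernel_lam {Y lam : ℝ} (hl : 0 < lam) (hY : 0 ≤ Y) {φ : ℝ → ℝ} {M : ℝ}
    (hM : 0 ≤ M) (h0 : ∀ u, 0 ≤ φ u) (h : ∀ u, φ u ≤ M * gr Y u) :
    ∫ u, lam⁻¹ / (1 + |u| / lam) ^ 8 * φ u ≤ c3 * (M * (1 + lam * Y) ^ 5) := by
  have hli : 0 < lam⁻¹ := inv_pos.2 hl
  have hlY : 0 ≤ lam * Y := by positivity
  have e0 : ∀ u : ℝ, lam⁻¹ / (1 + |u| / lam) ^ 8 = kf lam⁻¹ u := fun u => by
    unfold kf
    rw [div_eq_inv_mul |u| lam]
  simp only [e0]
  calc ∫ u, kf lam⁻¹ u * φ u ≤ ∫ u, M * (1 + lam * Y) ^ 5 * (lam⁻¹ * k3 (lam⁻¹ * u)) := by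
        refine integral_mono_of_nonneg
          (Eventually.of_forall fun u => mul_nonneg (kf_nonneg hli u) (h0 u))
          ((integrable_Lk3 hli).const_mul _) (Eventually.of_forall fun u => ?_)
        simp only
        have h1 : gr Y u ≤ (1 + lam * Y) ^ 5 * gr lam⁻¹ u := by
          unfold gr
          have h2 : (1 + lam * Y) ^ (17 / 4 : ℝ) ≤ (1 + lam * Y) ^ (5 : ℝ) :=
            Real.rpow_le_rpow_of_exponent_le (by linarith) (by norm_num)
          have h3 : (1 + lam * Y) ^ (5 : ℝ) = (1 + lam * Y) ^ 5 := by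
            rw [← Real.rpow_natCast]
            norm_num
          rw [← h3]
          refine le_trans ?_ (mul_le_mul_of_nonneg_right h2 (by positivity))
          rw [← Real.mul_rpow (by positivity) (by positivity)]
          refine Real.rpow_le_rpow (by positivity) ?_ (by norm_num)
          have h4 : lam * Y * (lam⁻¹ * |u|) = Y * |u| := by
            field_simp
          have h5 : 0 ≤ lam⁻¹ * |u| := by positivity
          nlinarith
        have h2 := kf_mul_gr_le hli u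
        have h3 := kf_nonneg hli u
        calc kf lam⁻¹ u * φ u ≤ kf lam⁻¹ u * (M * ((1 + lam * Y) ^ 5 * gr lam⁻¹ u)) := by
              refine mul_le_mul_of_nonneg_left ((h u).trans ?_) h3
              exact mul_le_mul_of_nonneg_left h1 hM
          _ = M * (1 + lam * Y) ^ 5 * (kf lam⁻¹ u * gr lam⁻¹ u) := by ring
          _ ≤ _ := mul_le_mul_of_nonneg_left h2 (by positivity)
    _ = c3 * (M * (1 + lam * Y) ^ 5) := by
        rw [integral_const_mul, integral_Lk3 hli]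
        ring

end A5

open A5 in
/-- A5 -/
theorem nearTorusX (h : SuBoundX) (h4 : GT.RoughS) (h5 : FBoundX) (h6 : GT.FNear)
    (hN : GT.GroupNum) : NearTorusX := by
  obtain ⟨C1, hC1, h3⟩ := h
  obtain ⟨C2, hC2, h4⟩ := h4
  obtain ⟨C5, hC5, h5⟩ := h5
  obtain ⟨C6, hC6, h6⟩ := h6
  have hc3 := c3_nonneg
  refine ⟨C1 * C6 + C1 * C5 * c3 + C1 * C2 * C5 * c3 + 1, ?_, ?_⟩
  · have : 0 ≤ C1 * C6 + C1 * C5 * c3 + C1 * C2 * C5 * c3 := by positivity
    linarith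
  intro A hA T hT hLen hlY hlL y
  set Λ : ℝ := Real.log T with hΛdef
  have hp0 := hA.hp
  obtain ⟨C7, hC7, h6⟩ := h6 A.p0 hp0
  have hΛ0 : 0 < Λ := by linarith
  have hY1 := hA.hY
  have hY0 : 0 < A.Y := by linarith
  have hl := hA.hl
  have hl1 := hA.hl1
  have hlpos : 0 < A.lam := by
    rcases hl.lt_or_eq with h | h
    · exact h
    · rw [← h] at hlY
      norm_num at hlY
  have hv4 : (4 : ℝ) ≤ A.v := by exact_mod_cast hA.hv
  have hLen' : 10 ^ 10 * A.v * A.Y ≤ Λ := hLen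
  have hYΛ : 10 * A.Y ≤ Λ := by
    have h1 : 10 * A.Y ≤ 10 ^ 10 * A.v * A.Y := by
      have : (10 : ℝ) ≤ 10 ^ 10 * A.v := by nlinarith
      exact mul_le_mul_of_nonneg_right this hY0.le
    linarith
  have hG := hA.G_pos y
  obtain ⟨B', hB'⟩ := A.W_le hA ∅ y
  obtain ⟨Bm, hBm⟩ := mo_bd A (-1) ∅
  have hW0 : ∀ x, 0 ≤ A.W ∅ y x := A.W_nonneg hA.b_pos.le ∅ y
  have hBm0 : 0 ≤ Bm := (norm_nonneg _).trans (hBm (fun _ => 0))
  have hcs := one_le_csm A.p0
  have hm : ∀ x, ‖A.mo (-1) ∅ x * A.Msm x‖ ≤ Bm * csm A.p0 := fun x => by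
    rw [norm_mul]
    exact mul_le_mul (hBm x) (norm_Msm_le hA x) (norm_nonneg _) hBm0
  have key := h3 A hA Λ A.lam hT hlpos hl1 hlL (A.W ∅ y) (fun x => A.mo (-1) ∅ x * A.Msm x)
    (max B' (Bm * csm A.p0)) (A.continuous_W' hA ∅ y).measurable
    ((A.continuous_mo (-1) ∅).mul (continuous_Msm A)).measurable
    (fun x => ⟨hW0 x, (hB' x).trans (le_max_left _ _), (hm x).trans (le_max_right _ _)⟩)
    (dep_W hN hA (Finset.empty_subset _) y) ((dep_mo hN hA (-1) ∅).mul (dep_Msm hA))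
  have hr := (h4 A.Y (17 / 20 * Λ) A.lam hY1 (by linarith) hl).2 hlY
  set P : ℝ := Real.log A.p0 ^ 20 with hP
  have hp0r : (1000 : ℝ) ≤ A.p0 := by exact_mod_cast hp0
  have hlogp : 1 ≤ Real.log A.p0 := by
    rw [Real.le_log_iff_exp_le (by linarith)]
    have := Real.exp_one_lt_d9
    linarith
  have hP1 : 1 ≤ P := one_le_pow₀ hlogp
  have hP0 : 0 < P := by linarith
  set q : ℝ := 1 + A.lam * A.Y with hq
  have hq1 : 1 ≤ q := by linarith
  have hq0 : 0 < q := by linarith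
  -- the first integral
  have k1 : ∫ x, A.W ∅ y x * ‖A.F A.lam 0 x * (A.mo (-1) ∅ x * A.Msm x) - 1‖ ^ 2 ∂mu
      ≤ C6 * (Real.exp (-A.v) + 1 / A.p0) * A.G y := by
    refine (h6 A hA rfl y 0).trans (le_of_eq ?_)
    have : gr A.Y 0 = 1 := by
      unfold gr
      rw [abs_zero, mul_zero, add_zero, Real.one_rpow]
    rw [this, abs_zero]
    ring
  -- the second integral
  have k2 := kernel_lam (Y := A.Y) (M := C5 * P * q ^ 17 * A.G y)
    (φ := fun u => ∫ x, A.W ∅ y x * (‖A.F (A.lam / 2) u x‖ ^ 2 * ‖A.mo (-1) ∅ x * A.Msm x‖ ^ 2) ∂mu)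
    hlpos hY0.le (by positivity)
    (fun u => integral_nonneg fun x => mul_nonneg (hW0 x) (by positivity)) (fun u => by
      refine ((h5 A hA y u).2 (A.lam / 2) (by linarith) (by linarith)).trans (le_of_eq ?_)
      ring)
  -- the third integral
  have k3 := kernel_le2 (Y := A.Y) (Λ := Λ) (M0 := C5 * P * q ^ 17 * A.G y) (M1 := 0)
    (φ := fun u => ∫ x, A.W ∅ y x * (‖A.F A.lam u x‖ ^ 2 * ‖A.mo (-1) ∅ x * A.Msm x‖ ^ 2) ∂mu)
    hΛ0 hY0.le (by linarith) (by positivity) le_rfl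
    (fun u => integral_nonneg fun x => mul_nonneg (hW0 x) (by positivity)) (fun u => by
      refine ((h5 A hA y u).2 A.lam hl le_rfl).trans (le_of_eq ?_)
      ring)
  rw [mul_zero, add_zero] at k3
  set I1 : ℝ := ∫ x, A.W ∅ y x * ‖A.F A.lam 0 x * (A.mo (-1) ∅ x * A.Msm x) - 1‖ ^ 2 ∂mu
    with hI1
  set I2 : ℝ := ∫ u, A.lam⁻¹ / (1 + |u| / A.lam) ^ 8 *
    ∫ x, A.W ∅ y x * (‖A.F (A.lam / 2) u x‖ ^ 2 * ‖A.mo (-1) ∅ x * A.Msm x‖ ^ 2) ∂mu with hI2
  set I3 : ℝ := ∫ u, kf Λ u *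
    ∫ x, A.W ∅ y x * (‖A.F A.lam u x‖ ^ 2 * ‖A.mo (-1) ∅ x * A.Msm x‖ ^ 2) ∂mu with hI3
  have hI2n : 0 ≤ I2 := integral_nonneg fun u => mul_nonneg (by positivity)
    (integral_nonneg fun x => mul_nonneg (hW0 x) (by positivity))
  have hI3n : 0 ≤ I3 := integral_nonneg fun u => mul_nonneg (kf_nonneg hΛ0 u)
    (integral_nonneg fun x => mul_nonneg (hW0 x) (by positivity))
  have hev : 0 < Real.exp (-(A.v : ℝ)) := Real.exp_pos _
  have hp0' : (0 : ℝ) ≤ 1 / A.p0 := by positivity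
  have hex := Real.exp_pos (-(2 * A.lam * A.Y))
  -- the sizes
  have hLY : 1 ≤ Λ / A.Y := by
    rw [le_div_iff₀ hY0]
    linarith
  have hq22 : q ^ 17 * q ^ 5 ≤ q ^ 40 := by
    rw [← pow_add]
    exact pow_le_pow_right₀ hq1 (by norm_num)
  have hq17 : q ^ 17 ≤ q ^ 40 := pow_le_pow_right₀ hq1 (by norm_num)
  have hE : Real.exp (-(4 / 5 * (A.lam * Λ))) ≤ Real.exp (-(A.lam * Λ / 8)) :=
    Real.exp_le_exp.2 (by linarith)
  set E1 : ℝ := Real.exp (-(A.lam * Λ / 8)) with hE1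
  set E2 : ℝ := Real.exp (-(2 * A.lam * A.Y)) with hE2
  have hE1p : 0 < E1 := Real.exp_pos _
  have hkap : kap A T = Real.exp (-A.v) + 1 / A.p0 + P * q ^ 40 * (Λ / A.Y) * (E1 + E2) := rfl
  have t2 : C1 * Real.exp (-(4 / 5 * (A.lam * Λ))) * I2
      ≤ C1 * C5 * c3 * (P * q ^ 40 * (Λ / A.Y) * E1) * A.G y := by
    calc C1 * Real.exp (-(4 / 5 * (A.lam * Λ))) * I2
        ≤ C1 * E1 * (c3 * (C5 * P * q ^ 17 * A.G y * q ^ 5)) := by
          refine mul_le_mul ?_ k2 hI2n (by positivity)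
          exact mul_le_mul_of_nonneg_left hE (by linarith)
      _ = C1 * C5 * c3 * (P * (q ^ 17 * q ^ 5) * 1 * E1) * A.G y := by ring
      _ ≤ C1 * C5 * c3 * (P * q ^ 40 * (Λ / A.Y) * E1) * A.G y := by
          gcongr
  have t3 : C1 * (∑ n ∈ RoS A.Y (17 / 20 * Λ), (n : ℝ) ^ (-(1 + 2 * A.lam))) * I3
      ≤ C1 * C2 * C5 * c3 * (P * q ^ 40 * (Λ / A.Y) * E2) * A.G y := by
    calc C1 * (∑ n ∈ RoS A.Y (17 / 20 * Λ), (n : ℝ) ^ (-(1 + 2 * A.lam))) * I3
        ≤ C1 * (C2 * E2) * (c3 * (C5 * P * q ^ 17 * A.G y)) := by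
          refine mul_le_mul ?_ k3 hI3n (by positivity)
          exact mul_le_mul_of_nonneg_left hr (by linarith)
      _ = C1 * C2 * C5 * c3 * (P * q ^ 17 * 1 * E2) * A.G y := by ring
      _ ≤ C1 * C2 * C5 * c3 * (P * q ^ 40 * (Λ / A.Y) * E2) * A.G y := by
          gcongr
  have t1 : C1 * I1 ≤ C1 * C6 * (Real.exp (-A.v) + 1 / A.p0) * A.G y := by
    calc C1 * I1 ≤ C1 * (C6 * (Real.exp (-A.v) + 1 / A.p0) * A.G y) :=
          mul_le_mul_of_nonneg_left k1 (by linarith)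
      _ = _ := by ring
  refine key.trans ((add_le_add (add_le_add t1 t2) t3).trans ?_)
  rw [hkap]
  set D : ℝ := P * q ^ 40 * (Λ / A.Y) with hD
  have hDp : 0 < D := by positivity
  set U : ℝ := Real.exp (-(A.v : ℝ)) + 1 / A.p0 with hU
  have hUp : 0 < U := by positivity
  have a1 : 0 ≤ C1 * C6 := by positivity
  have a2 : 0 ≤ C1 * C5 * c3 := by positivity
  have a3 : 0 ≤ C1 * C2 * C5 * c3 := by positivity
  have e : (C1 * C6 + C1 * C5 * c3 + C1 * C2 * C5 * c3 + 1) * (U + D * (E1 + E2)) * A.G y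
      = (C1 * C6 * U * A.G y + C1 * C5 * c3 * (D * E1) * A.G y + C1 * C2 * C5 * c3 * (D * E2) * A.G y)
        + (C1 * C6 * (D * (E1 + E2)) + C1 * C5 * c3 * (U + D * E2) + C1 * C2 * C5 * c3 * (U + D * E1)
          + (U + D * (E1 + E2))) * A.G y := by ring
  rw [e]
  refine le_add_of_nonneg_right ?_
  positivity

end Pool.Agent.Lib.LC
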