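import Mathlib
import Pool.Agent.Lib.MP_f9aece_nt_loc.Stmts
import Pool.Agent.Lib.MP_f9aece_nt_gt.E5a
import Pool.Agent.Lib.MP_f9aece_nt_gt.N3

/-!
The law of `log |zeta|` at bounded scale, A6: the weights and the mollifier of the small primes.
-/

set_option autoImplicit false

namespace Pool.Agent.Lib.LC

open MeasureTheory Set Filter Topology Complex ProbabilityTheory
open scoped ComplexConjugate
open Pool.Agent.Lib.GT Pool.Agent.Lib.GT.EE Pool.Agent.Lib.GT.LM
open Pool.Agent.Lib.MP_f9aece_nt (VV)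

namespace A6

/-- the small primes -/
noncomputable def Sm (n : ℕ) : Finset ℕ := (Finset.Icc 1 n).filter Nat.Prime

lemma int_e1 : ∫ x, e1 x ∂u1 = 0 := by
  have h := integral_e1 1
  rw [if_neg one_ne_zero] at h
  rw [← h]
  refine integral_congr_ae (Eventually.of_forall fun x => ?_)
  simp only [e1]
  congr 1
  push_cast
  ring

lemma int_ce1 : ∫ x, conj (e1 x) ∂u1 = 0 := by
  rw [integral_conj, int_e1, map_zero]

lemma integrable_e1 : Integrable e1 u1 :=
  Integrable.of_bound continuous_e1.aestronglyMeasurable 1 (Eventually.of_forall fun x => (norm_e1 x).le)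

/-- one prime -/
lemma int_one (h : ℝ) : ∫ x, (((‖1 - (h : ℂ) * e1 x‖ ^ 2 : ℝ)) : ℂ) ∂u1 = 1 + (h : ℂ) ^ 2 := by
  have e : ∀ x : ℝ, (((‖1 - (h : ℂ) * e1 x‖ ^ 2 : ℝ)) : ℂ)
      = (1 + (h : ℂ) ^ 2) - (h : ℂ) * e1 x - (h : ℂ) * conj (e1 x) := by
    intro x
    rw [← Complex.normSq_eq_norm_sq, ← Complex.mul_conj, map_sub, map_mul, map_one, Complex.conj_ofReal]
    have := e1_mul_conj x
    linear_combination (h : ℂ) ^ 2 * this
  simp_rw [e]
  have i1 : Integrable (fun _ : ℝ => (1 + (h : ℂ) ^ 2)) u1 := integrable_const _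
  have i2 : Integrable (fun x : ℝ => (h : ℂ) * e1 x) u1 := integrable_e1.const_mul _
  have i3 : Integrable (fun x : ℝ => (h : ℂ) * conj (e1 x)) u1 := by
    refine Integrable.const_mul ?_ _
    exact Integrable.of_bound (Complex.continuous_conj.comp continuous_e1).aestronglyMeasurable 1
      (Eventually.of_forall fun x => by
        simp only [Complex.norm_conj]
        exact (norm_e1 x).le)
  have i12 : Integrable (fun x : ℝ => (1 + (h : ℂ) ^ 2) - (h : ℂ) * e1 x) u1 := i1.sub i2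
  rw [integral_sub i12 i3, integral_sub i1 i2, integral_const_mul, integral_const_mul, int_e1, int_ce1,
    integral_const]
  simp

/-- the mean of the square of the mollifier on the torus -/
lemma int_Msm (A : Par) : ∫ x, (((‖A.Msm x‖ ^ 2 : ℝ)) : ℂ) ∂mu
    = ((∏ p ∈ Sm A.p0, (1 + A.h p ^ 2) : ℝ) : ℂ) := by
  have e : ∀ x : Om, (((‖A.Msm x‖ ^ 2 : ℝ)) : ℂ)
      = ∏ p ∈ Sm A.p0, (fun (p : ℕ) (z : ℝ) => (((‖1 - (A.h p : ℂ) * e1 z‖ ^ 2 : ℝ)) : ℂ)) p (x p) := by
    intro x
    unfold Par.Msm Sm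
    rw [norm_prod, ← Finset.prod_pow]
    push_cast
    rfl
  simp_rw [e]
  rw [integral_prod (Sm A.p0) (fun (p : ℕ) (z : ℝ) => (((‖1 - (A.h p : ℂ) * e1 z‖ ^ 2 : ℝ)) : ℂ))]
  · push_cast
    exact Finset.prod_congr rfl fun p _ => by
      have := int_one (A.h p)
      push_cast at this
      exact this
  · intro p
    have hc : Continuous fun z : ℝ => (((‖1 - (A.h p : ℂ) * e1 z‖ ^ 2 : ℝ)) : ℂ) := by
      have := continuous_e1
      fun_prop
    exact hc.measurable

/-- the sum of the reciprocals of the small primes -/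
lemma sum_inv_le {n : ℕ} (hn : 1000 ≤ n) : ∑ p ∈ Sm n, (p : ℝ)⁻¹ ≤ Real.log (Real.log n) + 5 := by
  have h1 : (1 : ℝ) ≤ Real.log n := by
    have h2 : (3 : ℝ) ≤ n := by
      have : (1000 : ℝ) ≤ n := by exact_mod_cast hn
      linarith
    rw [Real.le_log_iff_exp_le (by linarith)]
    have := Real.exp_one_lt_three
    linarith
  have h3 := MP_f9aece_nt_h6.VV_Pall_le (p0 := 0) h1
  have hn0 : (0 : ℝ) < n := by
    have : (1000 : ℝ) ≤ n := by exact_mod_cast hn
    linarith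
  have e : MP_f9aece_nt_h6.Pall (Real.log n) 0 = Sm n := by
    ext p
    rw [MP_f9aece_nt_h6.mem_Pall, Real.exp_log hn0, Nat.floor_natCast]
    unfold Sm
    rw [Finset.mem_filter]
    constructor
    · rintro ⟨h, h', -⟩
      exact ⟨h, h'⟩
    · rintro ⟨h, h'⟩
      exact ⟨h, h', h'.pos⟩
  rw [e] at h3
  unfold VV at h3
  exact h3

/-- Mertens -/
lemma prod_le {A : Par} (hA : A.Ok) : ∏ p ∈ Sm A.p0, (1 + A.h p ^ 2) ≤ Real.exp 5 * Real.log A.p0 := by
  have h0 := sum_inv_le hA.hp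
  have hp : (1000 : ℝ) ≤ A.p0 := by exact_mod_cast hA.hp
  have h1 : (0 : ℝ) < Real.log A.p0 := Real.log_pos (by linarith)
  calc ∏ p ∈ Sm A.p0, (1 + A.h p ^ 2) ≤ ∏ p ∈ Sm A.p0, Real.exp ((p : ℝ)⁻¹) := by
        refine Finset.prod_le_prod (fun p _ => by positivity) fun p hp => ?_
        have h2 := h_sq_le hA (Finset.mem_filter.mp hp).2.one_lt.le
        have h3 := Real.add_one_le_exp ((p : ℝ)⁻¹)
        rw [one_div] at h2
        linarith
    _ = Real.exp (∑ p ∈ Sm A.p0, (p : ℝ)⁻¹) := (Real.exp_sum _ _).symm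
    _ ≤ Real.exp (Real.log (Real.log A.p0) + 5) := Real.exp_le_exp.mpr h0
    _ = _ := by rw [Real.exp_add, Real.exp_log h1]; ring

lemma log_le_pow {A : Par} (hA : A.Ok) : Real.log A.p0 ≤ Real.log A.p0 ^ 20 ∧ 1 ≤ Real.log A.p0 := by
  have hp : (1000 : ℝ) ≤ A.p0 := by exact_mod_cast hA.hp
  have h1 : (1 : ℝ) ≤ Real.log A.p0 := by
    rw [Real.le_log_iff_exp_le (by linarith)]
    have := Real.exp_one_lt_three
    linarith
  exact ⟨le_self_pow₀ h1 (by norm_num), h1⟩

/-- the weights do not depend on the small primes -/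
lemma dep_W (A : Par) (y : ℝ) : Dep (A.U : Set ℕ) (fun x : Om => ((A.W ∅ y x : ℝ) : ℂ)) := by
  intro x x' hx
  have hP : ∀ g ∈ Finset.range A.J, A.P g x = A.P g x' := by
    intro g hg
    unfold Par.P lin
    refine Finset.sum_congr rfl fun p hp => ?_
    have : p ∈ A.U := by
      unfold Par.U
      exact Finset.mem_biUnion.mpr ⟨g, hg, hp⟩
    rw [hx p (Finset.mem_coe.mpr this)]
  have hq : A.q ∅ y x = A.q ∅ y x' := by
    unfold Par.q
    refine integral_congr_ae (Eventually.of_forall fun η => ?_)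
    simp only [Finset.sdiff_empty]
    congr 2
    exact Finset.prod_congr rfl fun g hg => by rw [hP g hg]
  simp only [Par.W, hq, Finset.prod_empty]

lemma dep_Msm (A : Par) : Dep ((Finset.range (A.p0 + 1) : Finset ℕ) : Set ℕ)
    (fun x : Om => (((‖A.Msm x‖ ^ 2 : ℝ)) : ℂ)) := by
  intro x x' hx
  have : A.Msm x = A.Msm x' := by
    unfold Par.Msm
    refine Finset.prod_congr rfl fun p hp => ?_
    have h1 := (Finset.mem_Icc.mp (Finset.mem_filter.mp hp).1).2
    rw [hx p (Finset.mem_coe.mpr (Finset.mem_range.mpr (by omega)))]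
  simp only [this]

/-- the product of the lengths -/
lemma len_le (n : ℕ) : csm n * csm n * Nsm n ≤ Real.exp (3 * n) := by
  have h1 : Nsm n ≤ 4 ^ n := by
    have e : Nsm n = (primorial n : ℕ) := by
      unfold Nsm primorial
      push_cast
      refine Finset.prod_congr ?_ fun _ _ => rfl
      ext p
      simp only [Finset.mem_filter, Finset.mem_Icc, Finset.mem_range]
      constructor
      · rintro ⟨⟨h, h'⟩, h''⟩
        exact ⟨by omega, h''⟩
      · rintro ⟨h, h'⟩
        exact ⟨⟨h'.pos, by omega⟩, h'⟩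
    rw [e]
    exact_mod_cast primorial_le_four_pow n
  have h2 : csm n ≤ 2 ^ n := by
    unfold csm
    rw [Finset.prod_const]
    refine pow_le_pow_right₀ one_le_two ?_
    refine (Finset.card_filter_le _ _).trans ?_
    simp
  have h3 := one_le_csm n
  have h4 := one_le_Nsm n
  have h5 : csm n * csm n * Nsm n ≤ 2 ^ n * 2 ^ n * 4 ^ n := by gcongr
  refine h5.trans ?_
  have e : (2 : ℝ) ^ n * 2 ^ n * 4 ^ n = 16 ^ n := by
    rw [← mul_pow, ← mul_pow]
    norm_num
  have h6 : (16 : ℝ) ≤ Real.exp 3 := by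
    have h7 := Real.exp_one_gt_d9
    have h8 : Real.exp 3 = Real.exp 1 ^ 3 := by
      rw [← Real.exp_nat_mul]
      norm_num
    rw [h8]
    have h9 : (2.7 : ℝ) ^ 3 ≤ Real.exp 1 ^ 3 := pow_le_pow_left₀ (by norm_num) (by linarith) 3
    linarith [h9, show (16 : ℝ) ≤ 2.7 ^ 3 by norm_num]
  rw [e]
  calc (16 : ℝ) ^ n ≤ Real.exp 3 ^ n := pow_le_pow_left₀ (by norm_num) h6 n
    _ = Real.exp (3 * n) := by rw [← Real.exp_nat_mul]; congr 1; ring

end A6

open A6

/-- A6 -/
theorem msmMean (hT : GT.WTransfer) (hB : GT.WBd) (hN : GT.GroupNum) : MsmMean := by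
  obtain ⟨C, hC, hT⟩ := hT
  obtain ⟨C', hC', hB⟩ := hB
  have hE5 : (1 : ℝ) ≤ Real.exp 5 := Real.one_le_exp (by norm_num)
  refine ⟨C' * Real.exp 5 + C + 1, Real.exp 144, by nlinarith [mul_nonneg hC' (Real.exp_pos 5).le], ?_,
    fun A hA T hT0 hL hp x y => ?_⟩
  · have h1 := Real.add_one_le_exp (144 : ℝ)
    linarith
  have hTp : 0 < T := (Real.exp_pos _).trans_le hT0
  have hG := hA.G_pos y
  set L := Real.log T with hLd
  have hL144 : 144 ≤ L := by
    rw [hLd, Real.le_log_iff_exp_le hTp]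
    exact hT0
  have hK := K_ge hA
  have hK2 : 10 ^ 10 * (A.v * A.Y) ≤ L := by
    have := hL
    unfold Len at this
    rw [← hLd] at this
    linarith
  obtain ⟨hlp, hlp1⟩ := log_le_pow hA
  -- the torus
  have hW0 : ∀ w, 0 ≤ A.W ∅ y w := A.W_nonneg hA.b_pos.le ∅ y
  have h1 := (hB A hA 0 0 (by simp) (by simp) D0 D0_ok 0 expBd_D0 1 (fun _ => 1) small_one y).1 ∅
    (Finset.empty_subset _)
  have h2 : ∫ w, A.W ∅ y w ∂mu ≤ C' * A.G y := by
    have e1 : ∀ w : Om, (A.W ∅ y w : ℂ) * (A.mo 0 ∅ w * conj (A.mo 0 ∅ w)) * (HF A.U D0 w * 1)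
        = ((A.W ∅ y w : ℝ) : ℂ) := by
      intro w
      rw [mo_zero, map_one, HF_D0]
      push_cast
      ring
    simp only [e1] at h1
    rw [integral_complex_ofReal, Complex.norm_real, mul_one, Real.exp_zero, mul_one,
      Finset.sum_empty, mul_zero, neg_zero, Real.exp_zero, mul_one] at h1
    exact (le_abs_self _).trans h1
  have hdis : Disjoint A.U (Finset.range (A.p0 + 1)) := by
    rw [Finset.disjoint_left]
    intro p hp hp'
    have := (((hN A hA).2.2.2.1 p).mp hp).2.1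
    rw [Finset.mem_range] at hp'
    omega
  have h3 : ∫ w, A.W ∅ y w * ‖A.Msm w‖ ^ 2 ∂mu ≤ C' * Real.exp 5 * Real.log A.p0 ^ 20 * A.G y := by
    have e2 : ((∫ w, A.W ∅ y w * ‖A.Msm w‖ ^ 2 ∂mu : ℝ) : ℂ)
        = ((∫ w, A.W ∅ y w ∂mu : ℝ) : ℂ) * ((∏ p ∈ Sm A.p0, (1 + A.h p ^ 2) : ℝ) : ℂ) := by
      have hm := integral_mul_of_dep (F := fun x : Om => ((A.W ∅ y x : ℝ) : ℂ))
          (G := fun x : Om => (((‖A.Msm x‖ ^ 2 : ℝ)) : ℂ)) hdis
          (Complex.continuous_ofReal.comp (A.continuous_W' hA ∅ y)).measurable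
          (Complex.continuous_ofReal.comp ((continuous_Msm A).norm.pow 2)).measurable
          (dep_W A y) (dep_Msm A)
      rw [← int_Msm, ← integral_complex_ofReal, ← integral_complex_ofReal, ← hm]
      refine integral_congr_ae (Eventually.of_forall fun w => ?_)
      simp only
      push_cast
      ring
    rw [← Complex.ofReal_mul, Complex.ofReal_inj] at e2
    rw [e2]
    have h4 := prod_le hA
    have h5 : 0 ≤ ∫ w, A.W ∅ y w ∂mu := integral_nonneg hW0
    calc (∫ w, A.W ∅ y w ∂mu) * ∏ p ∈ Sm A.p0, (1 + A.h p ^ 2)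
        ≤ (C' * A.G y) * (Real.exp 5 * Real.log A.p0 ^ 20) := by
          refine mul_le_mul h2 (h4.trans ?_) (Finset.prod_nonneg fun p _ => by positivity)
            (by positivity)
          exact mul_le_mul_of_nonneg_left hlp (Real.exp_pos _).le
      _ = _ := by ring
  -- the transfer
  have hap := (ap_Msm hA).normSq
  have h6 := (hT A hA ∅ (Finset.empty_subset _) 0 0 (by simp) (by simp) (Nsm A.p0)
    (csm A.p0 * csm A.p0) _ (one_le_Nsm _) hap x T y hTp).1
  have h7 := abs_mean_sub_le (A := A) (s := ∅) (x := x) (y := y) (H := fun w => ‖A.Msm w‖ ^ 2) h6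
  have h8 := lmean_le (H := fun w => ‖A.Msm w‖ ^ 2) hA hTp ((continuous_Msm A).norm.pow 2)
    (fun w => by positivity)
    ⟨csm A.p0 ^ 2, fun w => pow_le_pow_left₀ (norm_nonneg _) (norm_Msm_le hA w) 2⟩ h3 h7
  refine h8.trans (ENNReal.ofReal_le_ofReal ?_)
  -- the error
  have hp0 : (0 : ℝ) ≤ A.p0 := Nat.cast_nonneg _
  have h9 : 3 * (A.p0 : ℝ) ≤ L / 4 := by
    have h10 : (A.p0 : ℝ) ≤ L / 12 := by
      refine le_of_sq_le_sq (hp.trans ?_) (by positivity)
      rw [div_pow]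
      rw [le_div_iff₀ (by norm_num)]
      nlinarith
    linarith
  have h10 := exp_le_G hN hA y
  have h11 := len_le A.p0
  have h12 : Real.exp (-(A.be * y)) * (Real.exp (2 * 10 ^ 7 * A.v * A.Y)
      * (csm A.p0 * csm A.p0 * Nsm A.p0 / T)) ≤ A.G y := by
    calc Real.exp (-(A.be * y)) * (Real.exp (2 * 10 ^ 7 * A.v * A.Y)
          * (csm A.p0 * csm A.p0 * Nsm A.p0 / T))
        ≤ (Real.exp (A.v * A.Y) * A.G y) * (Real.exp (2 * 10 ^ 7 * A.v * A.Y)
          * (Real.exp (L / 4) / T)) := by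
          have h13 : csm A.p0 * csm A.p0 * Nsm A.p0 ≤ Real.exp (L / 4) :=
            h11.trans (Real.exp_le_exp.mpr h9)
          have h17 : 0 ≤ csm A.p0 * csm A.p0 * Nsm A.p0 := by
            have := one_le_csm A.p0
            have := one_le_Nsm A.p0
            positivity
          exact mul_le_mul h10 (mul_le_mul_of_nonneg_left (div_le_div_of_nonneg_right h13 hTp.le)
            (Real.exp_pos _).le) (mul_nonneg (Real.exp_pos _).le (div_nonneg h17 hTp.le))
            (mul_nonneg (Real.exp_pos _).le hG.le)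
      _ = Real.exp (A.v * A.Y + 2 * 10 ^ 7 * A.v * A.Y + L / 4 - L) * A.G y := by
          rw [Real.exp_sub, Real.exp_add, Real.exp_add, hLd, Real.exp_log hTp]
          ring
      _ ≤ 1 * A.G y := by
          refine mul_le_mul_of_nonneg_right (Real.exp_le_one_iff.mpr ?_) hG.le
          nlinarith
      _ = A.G y := one_mul _
  have h14 : (1 : ℝ) ≤ Real.log A.p0 ^ 20 := one_le_pow₀ hlp1
  have h15 : C * (Real.exp (-(A.be * y)) * (Real.exp (2 * 10 ^ 7 * A.v * A.Y)
      * (csm A.p0 * csm A.p0 * Nsm A.p0 / T))) ≤ C * (Real.log A.p0 ^ 20 * A.G y) := by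
    refine mul_le_mul_of_nonneg_left (h12.trans ?_) hC
    exact le_mul_of_one_le_left hG.le h14
  have h16 : 0 ≤ Real.log A.p0 ^ 20 * A.G y := by positivity
  calc _ ≤ C' * Real.exp 5 * Real.log A.p0 ^ 20 * A.G y + C * (Real.log A.p0 ^ 20 * A.G y) := by
        gcongr
    _ ≤ _ := by nlinarith

end Pool.Agent.Lib.LC
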