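import Mathlib
import Pool.Agent.Lib.MP_f9aece_nt_loc.Stmts
import Pool.Agent.Lib.MP_f9aece_nt_gt.E5

/-!
The law of `log |zeta|` at bounded scale: A7, small values of zeta times the mollifier at distance
`lam` from the line.
-/

set_option autoImplicit false

namespace Pool.Agent.Lib.LC

open MeasureTheory Set Filter Topology Complex ProbabilityTheory
open scoped ComplexConjugate
open Pool.Agent.Lib.GT Pool.Agent.Lib.GT.LM

namespace A7

lemma Nsm_le {p0 : ℕ} {Λ : ℝ} (hp : 1000 ≤ p0) (h : (p0 : ℝ) ^ 2 ≤ Λ) :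
    Nsm p0 ≤ Real.exp (1 / 20 * Λ) := by
  have h1 : Nsm p0 = (primorial p0 : ℝ) := by
    unfold Nsm primorial
    rw [Nat.cast_prod]
    refine Finset.prod_congr ?_ fun _ _ => rfl
    ext p
    simp only [Finset.mem_filter, Finset.mem_Icc, Finset.mem_range]
    constructor
    · rintro ⟨⟨a, b⟩, c⟩
      exact ⟨by omega, c⟩
    · rintro ⟨a, c⟩
      exact ⟨⟨c.one_lt.le, by omega⟩, c⟩
  rw [h1]
  have h2 : (primorial p0 : ℝ) ≤ 4 ^ p0 := by exact_mod_cast primorial_le_four_pow p0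
  have h3 : (1000 : ℝ) ≤ p0 := by exact_mod_cast hp
  have h4 : (4 : ℝ) ≤ Real.exp 2 := by
    have h5 := Real.add_one_le_exp (1 : ℝ)
    have h6 : Real.exp 2 = Real.exp 1 * Real.exp 1 := by rw [← Real.exp_add]; norm_num
    rw [h6]
    nlinarith
  calc (primorial p0 : ℝ) ≤ 4 ^ p0 := h2
    _ ≤ (Real.exp 2) ^ p0 := pow_le_pow_left₀ (by norm_num) h4 _
    _ = Real.exp (p0 * 2) := by rw [← Real.exp_nat_mul]
    _ ≤ Real.exp (1 / 20 * Λ) := Real.exp_le_exp.2 (by nlinarith)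

lemma csm_le_Nsm (p0 : ℕ) : csm p0 ≤ Nsm p0 := by
  unfold csm Nsm
  refine Finset.prod_le_prod (fun _ _ => by norm_num) fun p hp => ?_
  exact_mod_cast (Finset.mem_filter.mp hp).2.two_le

/-- the three cases -/
lemma cases {z S m μ : ℂ} {K : ℝ} (hK : 20 ≤ K) (h : ‖z‖ * ‖m‖ ≤ Real.exp (-K)) :
    1 ≤ 4 * ‖S * (m * μ) - 1‖ ^ 2 + Real.exp (-(K / 4)) * ‖μ‖ ^ 2
      + 16 * Real.exp (K / 4) * (‖z - S‖ ^ 2 * ‖m‖ ^ 2) := by
  set u : ℝ := Real.exp (K / 8) with hu
  have hu0 : 0 < u := Real.exp_pos _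
  have hu3 : 3 ≤ u := by
    have h1 := Real.add_one_le_exp (K / 8)
    linarith
  have e1 : Real.exp (K / 4) = u ^ 2 := by
    rw [hu, ← Real.exp_nat_mul]; congr 1; push_cast; ring
  have e2 : Real.exp (-(K / 4)) = (u ^ 2)⁻¹ := by rw [Real.exp_neg, e1]
  have e3 : Real.exp (-K) = (u ^ 8)⁻¹ := by
    rw [Real.exp_neg, hu, ← Real.exp_nat_mul]; congr 2; push_cast; ring
  rw [e1, e2]
  rw [e3] at h
  have hn1 : 0 ≤ 4 * ‖S * (m * μ) - 1‖ ^ 2 := by positivity
  have hn2 : 0 ≤ (u ^ 2)⁻¹ * ‖μ‖ ^ 2 := by positivity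
  have hn3 : 0 ≤ 16 * u ^ 2 * (‖z - S‖ ^ 2 * ‖m‖ ^ 2) := by positivity
  rcases le_or_gt (1 / 2) ‖S * (m * μ) - 1‖ with h1 | h1
  · nlinarith
  rcases le_or_gt u ‖μ‖ with h2 | h2
  · have h3 : 1 ≤ (u ^ 2)⁻¹ * ‖μ‖ ^ 2 := by
      rw [inv_mul_eq_div, one_le_div (by positivity)]
      gcongr
    linarith
  have h3 : 1 / 2 ≤ ‖S * m‖ * ‖μ‖ := by
    have h4 : ‖(1 : ℂ)‖ ≤ ‖S * (m * μ)‖ + ‖S * (m * μ) - 1‖ := by
      have h5 := norm_sub_le (S * (m * μ)) (S * (m * μ) - 1)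
      rwa [sub_sub_cancel] at h5
    rw [norm_one, ← mul_assoc, norm_mul (S * m) μ] at h4
    rw [← mul_assoc] at h1
    linarith
  have h4 : 1 / 2 * u⁻¹ ≤ ‖S * m‖ := by
    rw [← div_eq_mul_inv, div_le_iff₀ hu0]
    exact h3.trans (mul_le_mul_of_nonneg_left h2.le (norm_nonneg _))
  have h5 : (u ^ 8)⁻¹ ≤ 1 / 4 * u⁻¹ := by
    rw [← div_eq_mul_inv, inv_le_comm₀ (by positivity) (by positivity), inv_div,
      div_le_iff₀ (by norm_num)]
    have h6 : (4 : ℝ) ≤ u ^ 7 := by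
      calc (4 : ℝ) ≤ 3 ^ 7 := by norm_num
        _ ≤ u ^ 7 := by gcongr
    nlinarith [h6, hu0]
  have h6 : 1 / 4 * u⁻¹ ≤ ‖(z - S) * m‖ := by
    have h7 : ‖S * m‖ ≤ ‖z * m‖ + ‖(z - S) * m‖ := by
      have h8 := norm_sub_le (z * m) ((z - S) * m)
      rwa [show z * m - (z - S) * m = S * m by ring] at h8
    rw [norm_mul z m] at h7
    linarith
  have h7 : 1 ≤ 16 * u ^ 2 * (‖z - S‖ ^ 2 * ‖m‖ ^ 2) := by
    rw [← mul_pow, ← norm_mul]
    have h8 : (1 / 4 * u⁻¹) ^ 2 ≤ ‖(z - S) * m‖ ^ 2 := by gcongr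
    have h9 : 16 * u ^ 2 * (1 / 4 * u⁻¹) ^ 2 = 1 := by
      field_simp
      norm_num
    calc (1 : ℝ) = 16 * u ^ 2 * (1 / 4 * u⁻¹) ^ 2 := h9.symm
      _ ≤ _ := by gcongr
  linarith

lemma continuous_pt {lam : ℝ} (hl : lam ≤ 1 / 100) :
    Continuous fun t : ℝ => riemannZeta (pt lam t) := by
  rw [continuous_iff_continuousAt]
  intro t
  have h1 : pt lam t ≠ 1 := by
    intro h
    have h2 := congrArg Complex.re h
    simp [pt] at h2
    linarith
  have h3 : ContinuousAt (fun t : ℝ => pt lam t) t := by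
    unfold pt
    fun_prop
  exact (differentiableAt_riemannZeta h1).continuousAt.comp h3

end A7

open A7

/-- A7 -/
theorem lowPt (h : NearTorusX) (hL : LineMeanX) (hM : MsmMean) (hT : WTransfer) (hB : WBd)
    (hN : GroupNum) : LowPt := by
  obtain ⟨Cp, hCp, hpt⟩ := near_pt
  obtain ⟨C4, hC4, hmo⟩ := mo_mean hT hB hN
  obtain ⟨Ct, hCt, hT⟩ := hT
  obtain ⟨Cn, hCn, htor⟩ := h
  obtain ⟨CL, TL, hCL, hTL, hLM⟩ := hL
  obtain ⟨CM, TM, hCM, hTM, hMM⟩ := hM
  have hc7 := c7_nonneg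
  have hC : 1 ≤ 12 * (Cn + 4 * Ct) + CM + 16 * Cp * (C4 + c7 * CL) := by
    have h1 : 0 ≤ 12 * (Cn + 4 * Ct) := by positivity
    have h2 : 0 ≤ 16 * Cp * (C4 + c7 * CL) := by positivity
    linarith
  refine ⟨12 * (Cn + 4 * Ct) + CM + 16 * Cp * (C4 + c7 * CL), max TL TM, hC,
    hTL.trans (le_max_left _ _), ?_⟩
  intro A hA T hT0 hLen hp2 hlY hlT hl1 x hx y
  have hTL' : TL ≤ T := (le_max_left _ _).trans hT0
  have hTM' : TM ≤ T := (le_max_right _ _).trans hT0
  have hT3 : 3 ≤ T := hTL.trans hTL'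
  have hTp : 0 < T := by linarith
  obtain ⟨hK, hK2⟩ := log_ge hA hLen
  have hKK := EE.K_ge hA
  have hG := hA.G_pos y
  have hl := hA.hl
  have hl0 : 0 < A.lam := by
    rcases hl.lt_or_eq with h | h
    · exact h
    · rw [← h] at hlT
      norm_num at hlT
  have hY1 := hA.hY
  have hY0 : 0 < A.Y := by linarith
  have hv : (4 : ℝ) ≤ A.v := by exact_mod_cast hA.hv
  have hW0 : ∀ z, 0 ≤ A.W ∅ y z := A.W_nonneg hA.b_pos.le ∅ y
  have hprob := prob_un x hTp
  have hp1000 : (1000 : ℝ) ≤ A.p0 := by exact_mod_cast hA.hp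
  have hlog1 : 1 ≤ Real.log A.p0 := by
    rw [Real.le_log_iff_exp_le (by linarith)]
    have := Real.exp_one_lt_d9
    linarith
  have hNsm : Nsm A.p0 ≤ Real.exp (1 / 20 * Real.log T) := Nsm_le hA.hp hp2
  have hcsm : csm A.p0 ≤ Real.exp (1 / 20 * Real.log T) := (csm_le_Nsm _).trans hNsm
  set Λ : ℝ := Real.log T with hΛ
  have hΛ0 : 0 < Λ := by linarith
  have hΛ200 : 200 ≤ Λ := by linarith
  set K : ℝ := A.lam * Λ with hKdef
  have hK100 : K ≤ Λ / 100 := by
    rw [hKdef]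
    nlinarith
  -- the size of `kap`
  set lg : ℝ := Real.log A.p0 ^ 20 with hlg
  have hlg1 : 1 ≤ lg := one_le_pow₀ hlog1
  set q8 : ℝ := Real.exp (-(K / 8)) with hq8
  have hq80 : 0 < q8 := Real.exp_pos _
  have hΛY : 1 ≤ Λ / A.Y := by
    rw [one_le_div hY0]
    nlinarith
  have hlY0 : 0 ≤ A.lam * A.Y := by linarith
  have hb1 : (1 : ℝ) ≤ (1 + A.lam * A.Y) ^ 40 := one_le_pow₀ (by linarith)
  have hb17 : (1 + A.lam * A.Y) ^ 17 ≤ (1 + A.lam * A.Y) ^ 40 :=
    pow_le_pow_right₀ (by linarith) (by norm_num)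
  have hkap : lg * (1 + A.lam * A.Y) ^ 40 * (Λ / A.Y) * q8 ≤ kap A T := by
    unfold kap
    rw [← hΛ, ← hlg, show A.lam * Λ / 8 = K / 8 by rw [hKdef], ← hq8]
    have h1 : 0 < Real.exp (-(A.v : ℝ)) := Real.exp_pos _
    have h2 : (0 : ℝ) ≤ 1 / A.p0 := by positivity
    have h3 : 0 ≤ lg * (1 + A.lam * A.Y) ^ 40 * (Λ / A.Y) * Real.exp (-(2 * A.lam * A.Y)) := by
      positivity
    rw [mul_add]
    linarith
  have hkap1 : lg * q8 ≤ kap A T := by
    refine le_trans ?_ hkap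
    calc lg * q8 = lg * 1 * 1 * q8 := by ring
      _ ≤ lg * (1 + A.lam * A.Y) ^ 40 * (Λ / A.Y) * q8 := by gcongr
  have hkap0 : q8 ≤ kap A T := by
    refine le_trans ?_ hkap1
    exact le_mul_of_one_le_left hq80.le hlg1
  have hkap2 : lg * (Λ / A.Y) * (1 + A.lam * A.Y) ^ 17 * q8 ≤ kap A T := by
    refine le_trans ?_ hkap
    calc lg * (Λ / A.Y) * (1 + A.lam * A.Y) ^ 17 * q8
        ≤ lg * (Λ / A.Y) * (1 + A.lam * A.Y) ^ 40 * q8 := by gcongr
      _ = _ := by ring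
  have hkpos : 0 < kap A T := lt_of_lt_of_le hq80 hkap0
  set S : Om → ℂ := SU Λ (17 / 20 * Λ) A.lam 0 with hS
  -- the smooth sum
  have hsum : ∫⁻ t, ENNReal.ofReal (A.W ∅ y (om t)
        * ‖S (om t) * (A.mo (-1) ∅ (om t) * A.Msm (om t)) - 1‖ ^ 2) ∂(un x T)
      ≤ ENNReal.ofReal (3 * (Cn * kap A T * A.G y + 4 * Ct * (A.G y * Real.exp (-Λ)))) := by
    have h1 := near_un hN hCt hA
      (fun μ1 μ2 n1 n2 N c H hN1 hH x T y hT0 =>
        (hT A hA ∅ (Finset.empty_subset _) μ1 μ2 n1 n2 N c H hN1 hH x T y hT0).2)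
      (x := x) (y := y) hTp hLen (ap_su Λ (17 / 20 * Λ) hl 0) (Real.one_le_exp (by positivity))
      (Real.one_le_exp (by positivity)) (by
        calc Real.exp (17 / 20 * Λ) * Nsm A.p0 ≤ Real.exp (17 / 20 * Λ) * Real.exp (1 / 20 * Λ) := by
              gcongr
          _ = Real.exp (9 / 10 * Λ) := by
              rw [← Real.exp_add]
              congr 1
              ring) (by
        calc Real.exp (17 / 20 * Λ) * csm A.p0 ≤ Real.exp (17 / 20 * Λ) * Real.exp (1 / 20 * Λ) := by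
              gcongr
          _ = Real.exp (9 / 10 * Λ) := by
              rw [← Real.exp_add]
              congr 1
              ring
          _ ≤ Real.exp (2 * Λ) := Real.exp_le_exp.mpr (by linarith))
    refine h1.trans (ENNReal.ofReal_le_ofReal ?_)
    have h2 := htor A hA T hΛ200 hLen hlY hlT y
    have h3 : ∫ w, A.W ∅ y w * ‖S w * (A.mo (-1) ∅ w * A.Msm w) - 1‖ ^ 2 ∂mu
        ≤ Cn * kap A T * A.G y := h2
    linarith
  -- the difference
  set J : ℝ → ℝ := fun t => ∫ v in Icc (-Real.exp (1 / 2 * Λ)) (Real.exp (1 / 2 * Λ)),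
    Λ / (1 + Λ * |v|) ^ 6 * ‖riemannZeta (1 / 2 + I * (t + v : ℝ))‖ ^ 2 with hJ
  have hJ0 : ∀ t, 0 ≤ J t := fun t => integral_nonneg fun v => by positivity
  set E8 : ℝ := Real.exp (-(8 / 5 * (A.lam * Λ))) with hE8
  have hE80 : 0 < E8 := Real.exp_pos _
  have hm := hmo A hA T hT3 hLen x y ∅ (Finset.empty_subset _)
  rw [Finset.sum_empty, neg_zero, Real.exp_zero, mul_one] at hm
  have havg := avg_mean (x := x) (y := y)
    (M := CL * lg * (Λ / A.Y) * (1 + A.lam * A.Y) ^ 17 * A.G y)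
    hA hT3 hLen (by positivity) (fun v hv => by
      have h1 := hLM A hA T hTL' hLen x hx y v hv ∅ (Finset.empty_subset _)
      rw [Finset.sum_empty, neg_zero, Real.exp_zero, mul_one] at h1
      refine h1.trans (le_of_eq ?_)
      congr 1
      ring)
  have hmsm := hMM A hA T hTM' hLen hp2 x y
  set k4 : ℝ := Real.exp (K / 4) with hk4
  have hk40 : 0 < k4 := Real.exp_pos _
  set E : Set ℝ := {t | t ∈ Icc (T ^ (19 / 20 : ℝ)) (x + T) ∧ ‖riemannZeta (pt A.lam t)‖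
      * ‖A.mo (-1) ∅ (om t)‖ ≤ Real.exp (-(A.lam * Λ))} with hE
  have hEm : MeasurableSet E := by
    have c1 := continuous_pt hl1
    have c3 : Continuous fun t : ℝ => A.mo (-1) ∅ (om t) :=
      (A.continuous_mo (-1) ∅).comp continuous_om
    have h1 : MeasurableSet {t : ℝ | ‖riemannZeta (pt A.lam t)‖
      * ‖A.mo (-1) ∅ (om t)‖ ≤ Real.exp (-(A.lam * Λ))} :=
      (isClosed_le (c1.norm.mul c3.norm) continuous_const).measurableSet
    exact measurableSet_Icc.inter h1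
  have hbd : ∀ t ∈ E, ENNReal.ofReal (A.W ∅ y (om t))
      ≤ ENNReal.ofReal 4 * ENNReal.ofReal (A.W ∅ y (om t)
        * ‖S (om t) * (A.mo (-1) ∅ (om t) * A.Msm (om t)) - 1‖ ^ 2)
      + (ENNReal.ofReal (Real.exp (-(K / 4))) * ENNReal.ofReal (A.W ∅ y (om t) * ‖A.Msm (om t)‖ ^ 2)
      + (ENNReal.ofReal (16 * k4 * Cp * Real.exp (-(1 / 2 * Λ)))
          * ENNReal.ofReal (A.W ∅ y (om t) * ‖A.mo (-1) ∅ (om t)‖ ^ 2)
        + ENNReal.ofReal (16 * k4 * Cp * E8)
          * ENNReal.ofReal (A.W ∅ y (om t) * (‖A.mo (-1) ∅ (om t)‖ ^ 2 * J t)))) := by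
    intro t ht
    obtain ⟨htI, htK⟩ := ht
    have ht1 : Real.exp (19 / 20 * Λ) ≤ t := by
      have := htI.1
      rwa [rpow_eq hTp] at this
    have ht2 : t ≤ 2 * Real.exp Λ := by
      rw [hΛ, Real.exp_log hTp]
      have h1 := htI.2
      have h2 := (abs_le.mp hx).2
      linarith
    have h1 := hpt Λ A.lam t hΛ200 hl0 (by linarith) hlT ht1 ht2
    have h0 := hW0 (om t)
    have hmn := norm_nonneg (A.mo (-1) ∅ (om t))
    have h3 := A7.cases (z := riemannZeta (pt A.lam t)) (S := S (om t)) (m := A.mo (-1) ∅ (om t))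
      (μ := A.Msm (om t)) (K := K) hlT htK
    rw [← ENNReal.ofReal_mul (by norm_num), ← ENNReal.ofReal_mul (by positivity),
      ← ENNReal.ofReal_mul (by positivity), ← ENNReal.ofReal_mul (by positivity),
      ← ENNReal.ofReal_add
        (mul_nonneg (by positivity) (mul_nonneg h0 (by positivity)))
        (mul_nonneg (by positivity) (mul_nonneg h0 (mul_nonneg (by positivity) (hJ0 t)))),
      ← ENNReal.ofReal_add (mul_nonneg (by positivity) (mul_nonneg h0 (by positivity)))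
        (add_nonneg (mul_nonneg (by positivity) (mul_nonneg h0 (by positivity)))
          (mul_nonneg (by positivity) (mul_nonneg h0 (mul_nonneg (by positivity) (hJ0 t))))),
      ← ENNReal.ofReal_add (mul_nonneg (by positivity) (mul_nonneg h0 (by positivity)))
        (add_nonneg (mul_nonneg (by positivity) (mul_nonneg h0 (by positivity)))
        (add_nonneg (mul_nonneg (by positivity) (mul_nonneg h0 (by positivity)))
          (mul_nonneg (by positivity) (mul_nonneg h0 (mul_nonneg (by positivity) (hJ0 t))))))]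
    refine ENNReal.ofReal_le_ofReal ?_
    set z := riemannZeta (pt A.lam t) with hz
    set m := A.mo (-1) ∅ (om t) with hm'
    set μ := A.Msm (om t) with hμ
    have h6 : ‖z - S (om t)‖ ^ 2 * ‖m‖ ^ 2
        ≤ Cp * (Real.exp (-(1 / 2 * Λ)) + E8 * J t) * ‖m‖ ^ 2 :=
      mul_le_mul_of_nonneg_right h1 (by positivity)
    have h7 : 16 * Real.exp (K / 4) * (‖z - S (om t)‖ ^ 2 * ‖m‖ ^ 2)
        ≤ 16 * k4 * (Cp * (Real.exp (-(1 / 2 * Λ)) + E8 * J t) * ‖m‖ ^ 2) :=
      mul_le_mul_of_nonneg_left h6 (by positivity)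
    calc A.W ∅ y (om t) = A.W ∅ y (om t) * 1 := (mul_one _).symm
      _ ≤ A.W ∅ y (om t) * (4 * ‖S (om t) * (m * μ) - 1‖ ^ 2 + Real.exp (-(K / 4)) * ‖μ‖ ^ 2
          + 16 * k4 * (Cp * (Real.exp (-(1 / 2 * Λ)) + E8 * J t) * ‖m‖ ^ 2)) :=
          mul_le_mul_of_nonneg_left (by linarith) h0
      _ = _ := by ring
  have c0' : Continuous fun t : ℝ => A.W ∅ y (om t) := (A.continuous_W' hA ∅ y).comp continuous_om
  have c1' : Continuous fun t : ℝ => A.mo (-1) ∅ (om t) :=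
    (A.continuous_mo (-1) ∅).comp continuous_om
  have c2' : Continuous fun t : ℝ => A.Msm (om t) := (continuous_Msm A).comp continuous_om
  have hWm : Measurable fun t : ℝ => ENNReal.ofReal (A.W ∅ y (om t)
      * ‖S (om t) * (A.mo (-1) ∅ (om t) * A.Msm (om t)) - 1‖ ^ 2) := by
    have c2 : Continuous fun t : ℝ => S (om t) := (continuous_SU _ _ _ _).comp continuous_om
    exact ENNReal.measurable_ofReal.comp
      (c0'.mul (((c2.mul (c1'.mul c2')).sub continuous_const).norm.pow 2)).measurable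
  have hmm : Measurable fun t : ℝ => ENNReal.ofReal (A.W ∅ y (om t) * ‖A.mo (-1) ∅ (om t)‖ ^ 2) :=
    ENNReal.measurable_ofReal.comp (c0'.mul (c1'.norm.pow 2)).measurable
  have hms : Measurable fun t : ℝ => ENNReal.ofReal (A.W ∅ y (om t) * ‖A.Msm (om t)‖ ^ 2) :=
    ENNReal.measurable_ofReal.comp (c0'.mul (c2'.norm.pow 2)).measurable
  have hEI : E ⊆ Icc (T ^ (19 / 20 : ℝ)) (x + T) := fun t ht => ht.1
  calc _ ≤ ∫⁻ t in E,
        (ENNReal.ofReal 4 * ENNReal.ofReal (A.W ∅ y (om t)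
        * ‖S (om t) * (A.mo (-1) ∅ (om t) * A.Msm (om t)) - 1‖ ^ 2)
      + (ENNReal.ofReal (Real.exp (-(K / 4))) * ENNReal.ofReal (A.W ∅ y (om t) * ‖A.Msm (om t)‖ ^ 2)
      + (ENNReal.ofReal (16 * k4 * Cp * Real.exp (-(1 / 2 * Λ)))
          * ENNReal.ofReal (A.W ∅ y (om t) * ‖A.mo (-1) ∅ (om t)‖ ^ 2)
        + ENNReal.ofReal (16 * k4 * Cp * E8)
          * ENNReal.ofReal (A.W ∅ y (om t) * (‖A.mo (-1) ∅ (om t)‖ ^ 2 * J t))))) ∂(un x T) :=
        setLIntegral_mono' hEm hbd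
    _ ≤ ∫⁻ t in Icc (T ^ (19 / 20 : ℝ)) (x + T),
        (ENNReal.ofReal 4 * ENNReal.ofReal (A.W ∅ y (om t)
        * ‖S (om t) * (A.mo (-1) ∅ (om t) * A.Msm (om t)) - 1‖ ^ 2)
      + (ENNReal.ofReal (Real.exp (-(K / 4))) * ENNReal.ofReal (A.W ∅ y (om t) * ‖A.Msm (om t)‖ ^ 2)
      + (ENNReal.ofReal (16 * k4 * Cp * Real.exp (-(1 / 2 * Λ)))
          * ENNReal.ofReal (A.W ∅ y (om t) * ‖A.mo (-1) ∅ (om t)‖ ^ 2)
        + ENNReal.ofReal (16 * k4 * Cp * E8)
          * ENNReal.ofReal (A.W ∅ y (om t) * (‖A.mo (-1) ∅ (om t)‖ ^ 2 * J t))))) ∂(un x T) :=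
        lintegral_mono_set hEI
    _ = ENNReal.ofReal 4 * (∫⁻ t in Icc (T ^ (19 / 20 : ℝ)) (x + T), ENNReal.ofReal
          (A.W ∅ y (om t) * ‖S (om t) * (A.mo (-1) ∅ (om t) * A.Msm (om t)) - 1‖ ^ 2) ∂(un x T))
        + (ENNReal.ofReal (Real.exp (-(K / 4))) * (∫⁻ t in Icc (T ^ (19 / 20 : ℝ)) (x + T),
            ENNReal.ofReal (A.W ∅ y (om t) * ‖A.Msm (om t)‖ ^ 2) ∂(un x T))
        + (ENNReal.ofReal (16 * k4 * Cp * Real.exp (-(1 / 2 * Λ)))
          * (∫⁻ t in Icc (T ^ (19 / 20 : ℝ)) (x + T),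
            ENNReal.ofReal (A.W ∅ y (om t) * ‖A.mo (-1) ∅ (om t)‖ ^ 2) ∂(un x T))
        + ENNReal.ofReal (16 * k4 * Cp * E8)
          * ∫⁻ t in Icc (T ^ (19 / 20 : ℝ)) (x + T), ENNReal.ofReal (A.W ∅ y (om t)
            * (‖A.mo (-1) ∅ (om t)‖ ^ 2 * J t)) ∂(un x T))) := by
        rw [lintegral_add_left (hWm.const_mul _), lintegral_add_left (hms.const_mul _),
          lintegral_add_left (hmm.const_mul _),
          lintegral_const_mul' _ _ ENNReal.ofReal_ne_top,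
          lintegral_const_mul' _ _ ENNReal.ofReal_ne_top,
          lintegral_const_mul' _ _ ENNReal.ofReal_ne_top,
          lintegral_const_mul' _ _ ENNReal.ofReal_ne_top]
    _ ≤ ENNReal.ofReal 4 * ENNReal.ofReal (3 * (Cn * kap A T * A.G y
          + 4 * Ct * (A.G y * Real.exp (-Λ))))
        + (ENNReal.ofReal (Real.exp (-(K / 4))) * ENNReal.ofReal (CM * lg * A.G y)
        + (ENNReal.ofReal (16 * k4 * Cp * Real.exp (-(1 / 2 * Λ)))
          * ENNReal.ofReal (C4 * Real.exp (4 * (A.v * A.Y)) * A.G y)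
        + ENNReal.ofReal (16 * k4 * Cp * E8)
          * ENNReal.ofReal (c7 * (CL * lg * (Λ / A.Y) * (1 + A.lam * A.Y) ^ 17 * A.G y)))) := by
        refine add_le_add (mul_le_mul_right ((setLIntegral_le_lintegral _ _).trans hsum) _)
          (add_le_add (mul_le_mul_right ((setLIntegral_le_lintegral _ _).trans hmsm) _)
          (add_le_add (mul_le_mul_right ((setLIntegral_le_lintegral _ _).trans hm) _)
            (mul_le_mul_right havg _)))
    _ ≤ _ := by
        rw [← ENNReal.ofReal_mul (by norm_num), ← ENNReal.ofReal_mul (by positivity),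
          ← ENNReal.ofReal_mul (by positivity), ← ENNReal.ofReal_mul (by positivity),
          ← ENNReal.ofReal_add (by positivity) (by positivity),
          ← ENNReal.ofReal_add (by positivity) (by positivity),
          ← ENNReal.ofReal_add (by positivity) (by positivity)]
        refine ENNReal.ofReal_le_ofReal ?_
        have r1 : Real.exp (-Λ) ≤ kap A T := by
          refine le_trans (Real.exp_le_exp.2 ?_) hkap0
          linarith
        have r2 : Real.exp (-(K / 4)) * lg ≤ kap A T := by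
          rw [mul_comm]
          refine le_trans (mul_le_mul_of_nonneg_left (Real.exp_le_exp.2 ?_) (by linarith)) hkap1
          linarith
        have r3 : k4 * Real.exp (-(1 / 2 * Λ)) * Real.exp (4 * (A.v * A.Y)) ≤ kap A T := by
          rw [hk4, ← Real.exp_add, ← Real.exp_add]
          refine le_trans (Real.exp_le_exp.2 ?_) hkap0
          linarith
        have r4 : k4 * E8 * (lg * (Λ / A.Y) * (1 + A.lam * A.Y) ^ 17) ≤ kap A T := by
          have h1 : k4 * E8 ≤ q8 := by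
            rw [hk4, hE8, ← Real.exp_add]
            refine Real.exp_le_exp.2 ?_
            rw [← hKdef]
            linarith
          calc k4 * E8 * (lg * (Λ / A.Y) * (1 + A.lam * A.Y) ^ 17)
              ≤ q8 * (lg * (Λ / A.Y) * (1 + A.lam * A.Y) ^ 17) := by gcongr
            _ = lg * (Λ / A.Y) * (1 + A.lam * A.Y) ^ 17 * q8 := by ring
            _ ≤ kap A T := hkap2
        have s1 : 4 * (3 * (Cn * kap A T * A.G y + 4 * Ct * (A.G y * Real.exp (-Λ))))
            ≤ 12 * (Cn + 4 * Ct) * kap A T * A.G y := by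
          have : 48 * Ct * A.G y * Real.exp (-Λ) ≤ 48 * Ct * A.G y * kap A T := by gcongr
          linarith
        have s2 : Real.exp (-(K / 4)) * (CM * lg * A.G y) ≤ CM * kap A T * A.G y := by
          calc _ = CM * A.G y * (Real.exp (-(K / 4)) * lg) := by ring
            _ ≤ CM * A.G y * kap A T := by gcongr
            _ = _ := by ring
        have s3 : 16 * k4 * Cp * Real.exp (-(1 / 2 * Λ))
            * (C4 * Real.exp (4 * (A.v * A.Y)) * A.G y) ≤ 16 * Cp * C4 * kap A T * A.G y := by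
          calc _ = 16 * Cp * C4 * A.G y
              * (k4 * Real.exp (-(1 / 2 * Λ)) * Real.exp (4 * (A.v * A.Y))) := by ring
            _ ≤ 16 * Cp * C4 * A.G y * kap A T := by gcongr
            _ = _ := by ring
        have s4 : 16 * k4 * Cp * E8
            * (c7 * (CL * lg * (Λ / A.Y) * (1 + A.lam * A.Y) ^ 17 * A.G y))
            ≤ 16 * Cp * (c7 * CL) * kap A T * A.G y := by
          calc _ = 16 * Cp * (c7 * CL) * A.G y
              * (k4 * E8 * (lg * (Λ / A.Y) * (1 + A.lam * A.Y) ^ 17)) := by ring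
            _ ≤ 16 * Cp * (c7 * CL) * A.G y * kap A T := by gcongr
            _ = _ := by ring
        refine (add_le_add s1 (add_le_add s2 (add_le_add s3 s4))).trans (le_of_eq ?_)
        ring

end Pool.Agent.Lib.LC
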