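import Mathlib
import Pool.Agent.Lib.MP_f9aece_nt_loc.Stmts
import Pool.Agent.Lib.MP_f9aece_nt_h40.Poisson
import Pool.Agent.Lib.MP_f9aece_nt_h40.Growth
import Pool.Agent.Lib.MP_f9aece_nt_mp.LeftCore
import Pool.Agent.Lib.MP_708a61_C.ExtA

/-!
The law of `log |zeta|` at bounded scale: zeta in a disc is controlled by its values on the line
(row B1).
-/

set_option autoImplicit false

namespace Pool.Agent.Lib.LC

open MeasureTheory Set Filter Topology Complex ProbabilityTheory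
open Pool.Agent.Lib.GT

namespace B1aux

open Pool.Agent.Lib.MP_f9aece_nt_h40 (poisson_ineq F F_analyticAt F_bound Z1_eq norm_sub_one_le
  one_le_norm_add_one)

lemma measurable_zeta : Measurable riemannZeta :=
  measurable_of_continuousOn_compl_singleton 1 fun _ hs =>
    (differentiableAt_riemannZeta hs).continuousAt.continuousWithinAt

lemma enorm_sq {E : Type*} [NormedAddCommGroup E] (z : E) :
    ENNReal.ofReal (‖z‖ ^ 2) = ‖z‖ₑ ^ 2 := by
  rw [ENNReal.ofReal_pow (norm_nonneg _), ofReal_norm]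

/-- the integral over a line in the half plane -/
lemma line_le {G : ℂ → ℂ} (hG : ∀ s : ℂ, 1 / 2 ≤ s.re → AnalyticAt ℂ G s) {K : ℝ} (hK : 0 ≤ K)
    (hb : ∀ s : ℂ, 1 / 2 ≤ s.re → ‖G s‖ ^ (2 : ℝ) ≤ K) {δ : ℝ} (hδ : 0 ≤ δ) :
    ∫⁻ v : ℝ, ENNReal.ofReal (‖G (1 / 2 + δ + v * I)‖ ^ 2)
      ≤ ∫⁻ u : ℝ, ENNReal.ofReal (‖G (1 / 2 + u * I)‖ ^ 2) := by
  rcases hδ.eq_or_lt with h0 | hδ
  · rw [← h0]
    simp
  have hpi := Real.pi_pos
  set g : ℝ → ℝ := fun u => ‖G (1 / 2 + (u : ℂ) * I)‖ ^ 2 with hg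
  set h : ℝ → ℝ := fun θ => δ * (Real.cos (θ / 2) / Real.sin (θ / 2)) with hh
  have hgc : Continuous g := by
    rw [continuous_iff_continuousAt]
    intro u
    have h1 : ContinuousAt G (1 / 2 + (u : ℂ) * I) := by
      apply (hG _ _).continuousAt
      rw [Complex.add_re, Complex.re_ofReal_mul]
      simp
    have h2 : ContinuousAt (fun u : ℝ => (1 / 2 + (u : ℂ) * I)) u := by fun_prop
    exact (ContinuousAt.comp (f := fun u : ℝ => (1 / 2 + (u : ℂ) * I)) h1 h2).norm.pow 2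
  have hhm : Measurable h := by
    simp only [hh]
    fun_prop
  have hstep : ∀ v : ℝ, ENNReal.ofReal (‖G (1 / 2 + δ + v * I)‖ ^ 2)
      ≤ ENNReal.ofReal (2 * Real.pi)⁻¹ * ∫⁻ θ in Ioc 0 (2 * Real.pi), ENNReal.ofReal (g (v + h θ)) := by
    intro v
    have h1 := poisson_ineq hG (K := K) (a := 0) (p := 2) (by norm_num) le_rfl (by norm_num) hK
      (fun s hs => by simpa using hb s hs) hδ v
    rw [intervalIntegral.integral_of_le (by positivity)] at h1
    simp only [Real.rpow_two] at h1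
    have h2 : ENNReal.ofReal (∫ θ in Ioc 0 (2 * Real.pi), g (v + h θ))
        ≤ ∫⁻ θ in Ioc 0 (2 * Real.pi), ENNReal.ofReal (g (v + h θ)) := by
      have h3 := enorm_integral_le_lintegral_enorm (μ := volume.restrict (Ioc 0 (2 * Real.pi)))
        (fun θ => g (v + h θ))
      have h4 : 0 ≤ ∫ θ in Ioc 0 (2 * Real.pi), g (v + h θ) :=
        integral_nonneg fun θ => by simp only [hg]; positivity
      rw [Real.enorm_eq_ofReal h4] at h3
      refine h3.trans (le_of_eq ?_)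
      refine lintegral_congr fun θ => ?_
      rw [Real.enorm_eq_ofReal (by simp only [hg]; positivity)]
    calc ENNReal.ofReal (‖G (1 / 2 + δ + v * I)‖ ^ 2)
        ≤ ENNReal.ofReal ((2 * Real.pi)⁻¹ * ∫ θ in Ioc 0 (2 * Real.pi), g (v + h θ)) :=
          ENNReal.ofReal_le_ofReal h1
      _ = ENNReal.ofReal (2 * Real.pi)⁻¹ * ENNReal.ofReal (∫ θ in Ioc 0 (2 * Real.pi), g (v + h θ)) :=
          ENNReal.ofReal_mul (by positivity)
      _ ≤ _ := by gcongr
  have hm : Measurable (Function.uncurry fun v θ : ℝ => ENNReal.ofReal (g (v + h θ))) := by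
    have : (Function.uncurry fun v θ : ℝ => ENNReal.ofReal (g (v + h θ)))
        = fun z : ℝ × ℝ => ENNReal.ofReal (g (z.1 + h z.2)) := by
      funext z
      rfl
    rw [this]
    exact (hgc.measurable.comp (measurable_fst.add (hhm.comp measurable_snd))).ennreal_ofReal
  calc ∫⁻ v : ℝ, ENNReal.ofReal (‖G (1 / 2 + δ + v * I)‖ ^ 2)
      ≤ ∫⁻ v : ℝ, ENNReal.ofReal (2 * Real.pi)⁻¹ *
          ∫⁻ θ in Ioc 0 (2 * Real.pi), ENNReal.ofReal (g (v + h θ)) := lintegral_mono hstep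
    _ = ENNReal.ofReal (2 * Real.pi)⁻¹ *
          ∫⁻ v : ℝ, ∫⁻ θ in Ioc 0 (2 * Real.pi), ENNReal.ofReal (g (v + h θ)) :=
        lintegral_const_mul' _ _ ENNReal.ofReal_ne_top
    _ = ENNReal.ofReal (2 * Real.pi)⁻¹ *
          ∫⁻ θ in Ioc 0 (2 * Real.pi), ∫⁻ v : ℝ, ENNReal.ofReal (g (v + h θ)) := by
        rw [lintegral_lintegral_swap hm.aemeasurable]
    _ = ENNReal.ofReal (2 * Real.pi)⁻¹ *
          ∫⁻ _ in Ioc 0 (2 * Real.pi), ∫⁻ u : ℝ, ENNReal.ofReal (g u) := by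
        congr 1
        refine lintegral_congr fun θ => ?_
        exact lintegral_add_right_eq_self (fun u => ENNReal.ofReal (g u)) (h θ)
    _ = ∫⁻ u : ℝ, ENNReal.ofReal (g u) := by
        rw [lintegral_const, Measure.restrict_apply_univ, Real.volume_Ioc, sub_zero, mul_comm _
          (ENNReal.ofReal (2 * Real.pi)), ← mul_assoc, ← ENNReal.ofReal_mul (by positivity),
          inv_mul_cancel₀ (by positivity), ENNReal.ofReal_one, one_mul]

/-- the function to which the Poisson inequality is applied -/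
noncomputable def G (lam t : ℝ) (z : ℂ) : ℂ := F z * ((lam : ℂ) / (z - 1 / 2 + lam - I * t)) ^ 4

lemma re_q (lam t : ℝ) (s : ℂ) : (s - 1 / 2 + lam - I * t).re = s.re - 1 / 2 + lam := by simp

lemma q_ge {lam : ℝ} (t : ℝ) {s : ℂ} (hl : 0 < lam) (hs : 1 / 2 ≤ s.re) :
    lam ≤ ‖s - 1 / 2 + lam - I * t‖ := by
  have h1 := Complex.abs_re_le_norm (s - 1 / 2 + lam - I * t)
  rw [re_q, abs_of_pos (by linarith)] at h1
  linarith

lemma q_ne {lam : ℝ} (t : ℝ) {s : ℂ} (hl : 0 < lam) (hs : 1 / 2 ≤ s.re) :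
    s - 1 / 2 + lam - I * t ≠ 0 := norm_pos_iff.mp (lt_of_lt_of_le hl (q_ge t hl hs))

lemma G_an {lam : ℝ} (t : ℝ) {s : ℂ} (hl : 0 < lam) (hs : 1 / 2 ≤ s.re) :
    AnalyticAt ℂ (G lam t) s := by
  have h1 : AnalyticAt ℂ F s := F_analyticAt (by linarith)
  have h2 : AnalyticAt ℂ (fun z : ℂ => ((lam : ℂ) / (z - 1 / 2 + lam - I * t)) ^ 4) s := by
    fun_prop (disch := exact q_ne t hl hs)
  exact h1.mul h2

lemma G_norm (lam t : ℝ) (hl : 0 < lam) (s : ℂ) :
    ‖G lam t s‖ = ‖F s‖ * (lam / ‖s - 1 / 2 + lam - I * t‖) ^ 4 := by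
  unfold G
  rw [norm_mul, norm_pow, norm_div, Complex.norm_real, Real.norm_of_nonneg hl.le]

lemma G_bd {lam : ℝ} (t : ℝ) (hl : 0 < lam) : ∃ K : ℝ, 0 ≤ K ∧
    ∀ s : ℂ, 1 / 2 ≤ s.re → ‖G lam t s‖ ^ (2 : ℝ) ≤ K := by
  obtain ⟨D, hD⟩ : ∃ D : ℝ, D = (1 + ‖(1 / 2 - lam + I * t : ℂ)‖) / lam + 1 := ⟨_, rfl⟩
  have hD0 : 0 < D := by rw [hD]; positivity
  refine ⟨(6 * D * lam) ^ 2, by positivity, fun s hs => ?_⟩
  rw [Real.rpow_two]
  refine pow_le_pow_left₀ (norm_nonneg _) ?_ 2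
  rw [G_norm lam t hl]
  set q : ℂ := s - 1 / 2 + lam - I * t with hq
  have hqg : lam ≤ ‖q‖ := q_ge t hl hs
  have hq0 : 0 < ‖q‖ := lt_of_lt_of_le hl hqg
  have h1 : ‖F s‖ ≤ 6 * (1 + ‖s‖) := F_bound (by linarith)
  have h2 : ‖s‖ ≤ ‖q‖ + ‖(1 / 2 - lam + I * t : ℂ)‖ := by
    have : s = q + (1 / 2 - lam + I * t) := by rw [hq]; ring
    calc ‖s‖ = ‖q + (1 / 2 - lam + I * t)‖ := by rw [← this]
      _ ≤ _ := norm_add_le _ _
  have h3 : 1 + ‖s‖ ≤ D * ‖q‖ := by
    have h4 : 1 + ‖(1 / 2 - lam + I * t : ℂ)‖ ≤ (1 + ‖(1 / 2 - lam + I * t : ℂ)‖) / lam * ‖q‖ := by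
      rw [div_mul_eq_mul_div, le_div_iff₀ hl]
      gcongr
    rw [hD]
    linarith
  have h4 : (lam / ‖q‖) ^ 4 ≤ lam / ‖q‖ := by
    have h5 : lam / ‖q‖ ≤ 1 := (div_le_one hq0).mpr hqg
    have h6 : 0 ≤ lam / ‖q‖ := by positivity
    calc (lam / ‖q‖) ^ 4 ≤ (lam / ‖q‖) ^ 1 := pow_le_pow_of_le_one h6 h5 (by norm_num)
      _ = _ := pow_one _
  calc ‖F s‖ * (lam / ‖q‖) ^ 4 ≤ (6 * (D * ‖q‖)) * (lam / ‖q‖) := by
        refine mul_le_mul (h1.trans ?_) h4 (by positivity) (by positivity)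
        gcongr
    _ = 6 * D * lam := by field_simp

/-- `G` is not small near `t` -/
lemma G_ge {lam t a v : ℝ} (hl : 0 < lam) (hl1 : lam ≤ 1 / 100) (ht : 4 ≤ t) (ha : 0 ≤ a)
    (ha1 : a ≤ 7 * lam) (hv : |v - t| ≤ 6 * lam) :
    ‖riemannZeta (1 / 2 + a + v * I)‖ ^ 2 ≤ 4 * 14 ^ 8 * ‖G lam t (1 / 2 + a + v * I)‖ ^ 2 := by
  set z : ℂ := 1 / 2 + a + v * I with hz
  have hre : z.re = 1 / 2 + a := by simp [hz]
  have him : z.im = v := by simp [hz]
  have hv0 : 2 ≤ v := by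
    have := (abs_le.mp hv).1
    linarith
  have hz1 : z ≠ 1 := by
    intro h
    rw [h] at him
    simp at him
    linarith
  have hq : ‖z - 1 / 2 + lam - I * t‖ ≤ 14 * lam := by
    have h1 : z - 1 / 2 + lam - I * t = ((a + lam : ℝ) : ℂ) + ((v - t : ℝ) : ℂ) * I := by
      rw [hz]; push_cast; ring
    rw [h1]
    refine (norm_add_le _ _).trans ?_
    rw [norm_mul, norm_I, Complex.norm_real, Complex.norm_real, Real.norm_of_nonneg (by linarith),
      Real.norm_eq_abs]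
    linarith
  have hq0 : 0 < ‖z - 1 / 2 + lam - I * t‖ :=
    lt_of_lt_of_le hl (q_ge t hl (by rw [hre]; linarith))
  have h2 : ‖riemannZeta z‖ ≤ 2 * ‖F z‖ := by
    have h3 : 0 < z.re := by rw [hre]; linarith
    have h4 : 0 < ‖z + 1‖ := by linarith [one_le_norm_add_one h3]
    have h5 : 2 ≤ ‖z - 1‖ := by
      have h6 := Complex.abs_im_le_norm (z - 1)
      have h7 : (z - 1).im = v := by simp [him]
      rw [h7, abs_of_nonneg (by linarith)] at h6
      linarith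
    have h6 : ‖z + 1‖ ≤ 2 * ‖z - 1‖ := by
      have h7 : z + 1 = (z - 1) + 2 := by ring
      rw [h7]
      refine (norm_add_le _ _).trans ?_
      have : ‖(2 : ℂ)‖ = 2 := by simp
      rw [this]
      linarith
    have h7 : ‖F z‖ = ‖z - 1‖ * ‖riemannZeta z‖ / ‖z + 1‖ := by
      rw [F, Z1_eq hz1, norm_div, norm_mul]
    rw [h7, ← mul_div_assoc, le_div_iff₀ h4]
    calc ‖riemannZeta z‖ * ‖z + 1‖ ≤ ‖riemannZeta z‖ * (2 * ‖z - 1‖) := by gcongr
      _ = _ := by ring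
  have h3 : (1 / 14 : ℝ) ^ 4 ≤ (lam / ‖z - 1 / 2 + lam - I * t‖) ^ 4 := by
    apply pow_le_pow_left₀ (by norm_num)
    rw [div_le_div_iff₀ (by norm_num) hq0]
    linarith
  have h4 : ‖riemannZeta z‖ ≤ 2 * 14 ^ 4 * ‖G lam t z‖ := by
    rw [G_norm lam t hl]
    calc ‖riemannZeta z‖ ≤ 2 * ‖F z‖ := h2
      _ = 2 * 14 ^ 4 * (‖F z‖ * (1 / 14) ^ 4) := by ring
      _ ≤ _ := by gcongr
  calc ‖riemannZeta z‖ ^ 2 ≤ (2 * 14 ^ 4 * ‖G lam t z‖) ^ 2 :=
        pow_le_pow_left₀ (norm_nonneg _) h4 2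
    _ = _ := by ring

/-- `G` on the line -/
lemma G_le {lam : ℝ} (t u : ℝ) (hl : 0 < lam) :
    ‖G lam t (1 / 2 + u * I)‖ ^ 2
      ≤ 16 * lam * (kd lam (u - t) * ‖riemannZeta (1 / 2 + I * u)‖ ^ 2) := by
  set z : ℂ := 1 / 2 + u * I with hz
  have hre : z.re = 1 / 2 := by simp [hz]
  have hz1 : z ≠ 1 := by
    intro h
    rw [h] at hre
    norm_num at hre
  have e1 : (1 / 2 + I * u : ℂ) = z := by rw [hz]; ring
  rw [e1, G_norm lam t hl]
  have h3 : 0 < z.re := by rw [hre]; norm_num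
  have h4 : 0 < ‖z + 1‖ := by linarith [one_le_norm_add_one h3]
  have h2 : ‖F z‖ ≤ ‖riemannZeta z‖ := by
    have h7 : ‖F z‖ = ‖z - 1‖ * ‖riemannZeta z‖ / ‖z + 1‖ := by
      rw [F, Z1_eq hz1, norm_div, norm_mul]
    rw [h7, div_le_iff₀ h4]
    have := norm_sub_one_le h3
    calc ‖z - 1‖ * ‖riemannZeta z‖ ≤ ‖z + 1‖ * ‖riemannZeta z‖ := by gcongr
      _ = _ := by ring
  have hq : ‖z - 1 / 2 + lam - I * t‖ ^ 2 = lam ^ 2 + (u - t) ^ 2 := by
    have h1 : z - 1 / 2 + lam - I * t = ((lam : ℝ) : ℂ) + ((u - t : ℝ) : ℂ) * I := by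
      rw [hz]; push_cast; ring
    rw [h1, ← Complex.normSq_eq_norm_sq, Complex.normSq_add_mul_I]
  have h5 : ((lam / ‖z - 1 / 2 + lam - I * t‖) ^ 4) ^ 2 ≤ 16 / (1 + |u - t| / lam) ^ 8 := by
    have h6 : (lam / ‖z - 1 / 2 + lam - I * t‖) ^ 2 ≤ 2 / (1 + |u - t| / lam) ^ 2 := by
      rw [div_pow, hq, div_le_div_iff₀ (by positivity) (by positivity)]
      have h7 : lam * (1 + |u - t| / lam) = lam + |u - t| := by field_simp
      calc lam ^ 2 * (1 + |u - t| / lam) ^ 2 = (lam * (1 + |u - t| / lam)) ^ 2 := by ring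
        _ = (lam + |u - t|) ^ 2 := by rw [h7]
        _ ≤ 2 * (lam ^ 2 + |u - t| ^ 2) := by nlinarith [sq_nonneg (lam - |u - t|)]
        _ = _ := by rw [sq_abs]
    calc ((lam / ‖z - 1 / 2 + lam - I * t‖) ^ 4) ^ 2
        = ((lam / ‖z - 1 / 2 + lam - I * t‖) ^ 2) ^ 4 := by ring
      _ ≤ (2 / (1 + |u - t| / lam) ^ 2) ^ 4 := by gcongr
      _ = _ := by rw [div_pow]; ring_nf
  have h6 : 16 * lam * (kd lam (u - t) * ‖riemannZeta z‖ ^ 2)
      = ‖riemannZeta z‖ ^ 2 * (16 / (1 + |u - t| / lam) ^ 8) := by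
    unfold kd
    field_simp
  rw [h6, mul_pow]
  exact mul_le_mul (pow_le_pow_left₀ (norm_nonneg _) h2 2) h5 (by positivity) (by positivity)

/-- the integral over a short vertical segment to the right of the line -/
lemma seg_right {lam t a : ℝ} (hl : 0 < lam) (hl1 : lam ≤ 1 / 100) (ht : 4 ≤ t) (ha : 0 ≤ a)
    (ha1 : a ≤ 7 * lam) :
    ∫⁻ v in Icc (t - 6 * lam) (t + 6 * lam), ENNReal.ofReal (‖riemannZeta (1 / 2 + a + v * I)‖ ^ 2)
      ≤ ENNReal.ofReal (64 * 14 ^ 8 * lam)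
        * ∫⁻ w : ℝ, ENNReal.ofReal (kd lam w * ‖riemannZeta (1 / 2 + I * (t + w : ℝ))‖ ^ 2) := by
  obtain ⟨K, hK, hb⟩ := G_bd t hl
  have h1 := line_le (G := G lam t) (fun s hs => G_an t hl hs) hK hb ha
  have h2 : ∫⁻ u : ℝ, ENNReal.ofReal (‖G lam t (1 / 2 + u * I)‖ ^ 2)
      ≤ ENNReal.ofReal (16 * lam)
        * ∫⁻ w : ℝ, ENNReal.ofReal (kd lam w * ‖riemannZeta (1 / 2 + I * (t + w : ℝ))‖ ^ 2) := by
    rw [← lintegral_const_mul' _ _ ENNReal.ofReal_ne_top, ← lintegral_add_right_eq_self _ t]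
    refine lintegral_mono fun w => ?_
    simp only
    rw [← ENNReal.ofReal_mul (by positivity)]
    refine ENNReal.ofReal_le_ofReal ?_
    have h3 := G_le t (w + t) hl
    rw [add_sub_cancel_right] at h3
    rw [add_comm t w]
    exact h3
  calc ∫⁻ v in Icc (t - 6 * lam) (t + 6 * lam), ENNReal.ofReal (‖riemannZeta (1 / 2 + a + v * I)‖ ^ 2)
      ≤ ∫⁻ v in Icc (t - 6 * lam) (t + 6 * lam),
          ENNReal.ofReal (4 * 14 ^ 8) * ENNReal.ofReal (‖G lam t (1 / 2 + a + v * I)‖ ^ 2) := by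
        refine setLIntegral_mono' measurableSet_Icc fun v hv => ?_
        rw [← ENNReal.ofReal_mul (by positivity)]
        refine ENNReal.ofReal_le_ofReal (G_ge hl hl1 ht ha ha1 ?_)
        rw [abs_le]
        constructor <;> linarith [hv.1, hv.2]
    _ ≤ ∫⁻ v : ℝ, ENNReal.ofReal (4 * 14 ^ 8) * ENNReal.ofReal (‖G lam t (1 / 2 + a + v * I)‖ ^ 2) :=
        setLIntegral_le_lintegral _ _
    _ = ENNReal.ofReal (4 * 14 ^ 8)
          * ∫⁻ v : ℝ, ENNReal.ofReal (‖G lam t (1 / 2 + a + v * I)‖ ^ 2) :=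
        lintegral_const_mul' _ _ ENNReal.ofReal_ne_top
    _ ≤ ENNReal.ofReal (4 * 14 ^ 8) * (ENNReal.ofReal (16 * lam)
        * ∫⁻ w : ℝ, ENNReal.ofReal (kd lam w * ‖riemannZeta (1 / 2 + I * (t + w : ℝ))‖ ^ 2)) := by
        gcongr
        exact h1.trans h2
    _ = _ := by
        rw [← mul_assoc, ← ENNReal.ofReal_mul (by positivity)]
        congr 2
        ring

/-- the integral over a short vertical segment -/
lemma seg {lam t a T : ℝ} (hl : 0 < lam) (hl1 : lam ≤ 1 / 100) (hT : 4 ≤ T)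
    (hlT : 1 ≤ lam * Real.log T) (ht : 4 ≤ t) (htT : t ≤ 3 * T) (ha : -(5 * lam) ≤ a)
    (ha1 : a ≤ 7 * lam) :
    ∫⁻ v in Icc (t - 6 * lam) (t + 6 * lam), ENNReal.ofReal (‖riemannZeta (1 / 2 + a + v * I)‖ ^ 2)
      ≤ ENNReal.ofReal (Real.exp (22 * (lam * Real.log T)) * (64 * 14 ^ 8 * lam))
        * ∫⁻ w : ℝ, ENNReal.ofReal (kd lam w * ‖riemannZeta (1 / 2 + I * (t + w : ℝ))‖ ^ 2) := by
  rw [ENNReal.ofReal_mul (Real.exp_pos _).le, mul_assoc]
  rcases le_total 0 a with h | h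
  · refine (seg_right hl hl1 ht h ha1).trans ?_
    refine le_mul_of_one_le_left' ?_
    rw [ENNReal.one_le_ofReal]
    exact Real.one_le_exp (by positivity)
  · have h1 := seg_right (a := -a) hl hl1 ht (by linarith) (by linarith)
    have h2 : ∀ v ∈ Icc (t - 6 * lam) (t + 6 * lam),
        ENNReal.ofReal (‖riemannZeta (1 / 2 + a + v * I)‖ ^ 2)
          ≤ ENNReal.ofReal (Real.exp (22 * (lam * Real.log T)))
            * ENNReal.ofReal (‖riemannZeta (1 / 2 + (-a : ℝ) + v * I)‖ ^ 2) := by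
      intro v hv
      have hv0 : 3 ≤ v := by linarith [hv.1]
      have hv1 : v ≤ 4 * T := by linarith [hv.2]
      have h3 := Pool.Agent.Lib.MP2.zeta_left_le (t := v) (x := -a)
        (by rw [abs_of_nonneg (by linarith)]; linarith) (by linarith) (by linarith)
      rw [abs_of_nonneg (by linarith : (0:ℝ) ≤ v)] at h3
      have e1 : (1 / 2 + a + v * I : ℂ) = 1 / 2 - (-a : ℝ) + I * v := by push_cast; ring
      have e2 : (1 / 2 + (-a : ℝ) + v * I : ℂ) = 1 / 2 + (-a : ℝ) + I * v := by push_cast; ring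
      rw [← ENNReal.ofReal_mul (Real.exp_pos _).le, e1, e2]
      refine ENNReal.ofReal_le_ofReal ?_
      have hlog4 : Real.log (4 * T) ≤ 2 * Real.log T := by
        rw [Real.log_mul (by norm_num) (by linarith)]
        have : Real.log 4 ≤ Real.log T := Real.log_le_log (by norm_num) hT
        linarith
      have h4 : Real.exp (4 * -a) * v ^ (-a) ≤ Real.exp (11 * (lam * Real.log T)) := by
        rw [Real.rpow_def_of_pos (by linarith), ← Real.exp_add]
        refine Real.exp_le_exp.mpr ?_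
        have h5 : Real.log v ≤ Real.log (4 * T) := Real.log_le_log (by linarith) hv1
        have h6 : Real.log v * -a ≤ (2 * Real.log T) * (5 * lam) := by
          refine mul_le_mul (h5.trans hlog4) (by linarith) (by linarith) ?_
          have : 0 ≤ Real.log T := Real.log_nonneg (by linarith)
          linarith
        nlinarith
      calc ‖riemannZeta (1 / 2 - (-a : ℝ) + I * v)‖ ^ 2
          ≤ (Real.exp (11 * (lam * Real.log T)) * ‖riemannZeta (1 / 2 + (-a : ℝ) + I * v)‖) ^ 2 := by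
            refine pow_le_pow_left₀ (norm_nonneg _) (h3.trans ?_) 2
            gcongr
        _ = Real.exp (22 * (lam * Real.log T)) * ‖riemannZeta (1 / 2 + (-a : ℝ) + I * v)‖ ^ 2 := by
            rw [mul_pow, ← Real.exp_nat_mul]
            congr 2
            push_cast; ring
    calc ∫⁻ v in Icc (t - 6 * lam) (t + 6 * lam), ENNReal.ofReal (‖riemannZeta (1 / 2 + a + v * I)‖ ^ 2)
        ≤ ∫⁻ v in Icc (t - 6 * lam) (t + 6 * lam), ENNReal.ofReal (Real.exp (22 * (lam * Real.log T)))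
            * ENNReal.ofReal (‖riemannZeta (1 / 2 + (-a : ℝ) + v * I)‖ ^ 2) :=
          setLIntegral_mono' measurableSet_Icc h2
      _ = ENNReal.ofReal (Real.exp (22 * (lam * Real.log T)))
          * ∫⁻ v in Icc (t - 6 * lam) (t + 6 * lam),
            ENNReal.ofReal (‖riemannZeta (1 / 2 + (-a : ℝ) + v * I)‖ ^ 2) :=
          lintegral_const_mul' _ _ ENNReal.ofReal_ne_top
      _ ≤ _ := by gcongr

end B1aux

open B1aux

theorem discSup : DiscSup := by
  refine ⟨768 * 14 ^ 8, 10, by norm_num, by norm_num, fun T lam t hT hl hl1 hlT htT htT' s hs => ?_⟩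
  have hT1 : 1 ≤ T := by linarith
  have hpi := Real.pi_pos
  have hpi1 : 1 ≤ Real.pi := by linarith [Real.pi_gt_three]
  have ht : 4 ≤ t := by
    refine le_trans ?_ htT
    calc (4 : ℝ) ≤ 10 ^ (9 / 10 : ℝ) := by
          have h1 : ((4 : ℝ) ^ (10 : ℕ)) ^ (1 / 10 : ℝ) = 4 := by
            rw [← Real.rpow_natCast, ← Real.rpow_mul (by norm_num)]
            norm_num
          have h2 : ((10 : ℝ) ^ (9 : ℕ)) ^ (1 / 10 : ℝ) = 10 ^ (9 / 10 : ℝ) := by
            rw [← Real.rpow_natCast, ← Real.rpow_mul (by norm_num)]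
            norm_num
          rw [← h2]
          nth_rw 1 [← h1]
          apply Real.rpow_le_rpow (by norm_num) (by norm_num) (by norm_num)
      _ ≤ T ^ (9 / 10 : ℝ) := Real.rpow_le_rpow (by norm_num) hT (by norm_num)
  set J : ENNReal := ∫⁻ w : ℝ, ENNReal.ofReal (kd lam w * ‖riemannZeta (1 / 2 + I * (t + w : ℝ))‖ ^ 2)
    with hJ
  set M : ℝ := Real.exp (22 * (lam * Real.log T)) * (64 * 14 ^ 8 * lam) with hM
  have hM0 : 0 ≤ M := by positivity
  -- the disc lies in a rectangle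
  set R : Set ℂ := {z : ℂ | z.re ∈ Icc (1 / 2 - 5 * lam) (1 / 2 + 7 * lam) ∧
    z.im ∈ Icc (t - 6 * lam) (t + 6 * lam)} with hR
  have hsub : Metric.ball s lam ⊆ R := by
    intro z hz
    rw [Metric.mem_closedBall, dist_eq_norm] at hs
    rw [Metric.mem_ball, dist_eq_norm] at hz
    have h1 : ‖z - pt lam t‖ ≤ 6 * lam := by
      calc ‖z - pt lam t‖ = ‖(z - s) + (s - pt lam t)‖ := by congr 1; ring
        _ ≤ ‖z - s‖ + ‖s - pt lam t‖ := norm_add_le _ _
        _ ≤ _ := by linarith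
    have h2 := (Complex.abs_re_le_norm (z - pt lam t)).trans h1
    have h3 := (Complex.abs_im_le_norm (z - pt lam t)).trans h1
    have e1 : (z - pt lam t).re = z.re - (1 / 2 + lam) := by simp [pt]
    have e2 : (z - pt lam t).im = z.im - t := by simp [pt]
    rw [e1] at h2
    rw [e2] at h3
    rw [abs_le] at h2 h3
    refine ⟨⟨by linarith [h2.1], by linarith [h2.2]⟩, ⟨by linarith [h3.1], by linarith [h3.2]⟩⟩
  -- the area mean value inequality
  have hmean : ENNReal.ofReal (Real.pi * lam ^ 2) * ENNReal.ofReal (‖riemannZeta s‖ ^ 2)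
      ≤ ∫⁻ z in R, ENNReal.ofReal (‖riemannZeta z‖ ^ 2) := by
    have h1 := Pool.Agent.K708C.ExtA.area_mean (f := riemannZeta) (z := s) hl (by
      intro z hz
      refine (differentiableAt_riemannZeta ?_).differentiableWithinAt
      intro h
      have h2 := (hsub hz).2.1
      rw [h] at h2
      simp at h2
      linarith)
    simp only [enorm_sq]
    exact h1.trans (lintegral_mono_set hsub)
  have hfub : ∫⁻ z in R, ENNReal.ofReal (‖riemannZeta z‖ ^ 2)
      = ∫⁻ x in Icc (1 / 2 - 5 * lam) (1 / 2 + 7 * lam), ∫⁻ v in Icc (t - 6 * lam) (t + 6 * lam),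
          ENNReal.ofReal (‖riemannZeta (x + v * I)‖ ^ 2) := by
    have hRm : R = Complex.measurableEquivRealProd ⁻¹' (Icc (1 / 2 - 5 * lam) (1 / 2 + 7 * lam) ×ˢ
        Icc (t - 6 * lam) (t + 6 * lam)) := by
      ext z
      simp [hR, Complex.measurableEquivRealProd_apply]
      tauto
    have h1 := Complex.volume_preserving_equiv_real_prod.setLIntegral_comp_preimage_emb
      Complex.measurableEquivRealProd.measurableEmbedding
      (fun q : ℝ × ℝ => ENNReal.ofReal (‖riemannZeta (q.1 + q.2 * I)‖ ^ 2))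
      (Icc (1 / 2 - 5 * lam) (1 / 2 + 7 * lam) ×ˢ Icc (t - 6 * lam) (t + 6 * lam))
    rw [← hRm] at h1
    have h2 : ∀ z : ℂ, (((Complex.measurableEquivRealProd z).1 : ℂ)
        + ((Complex.measurableEquivRealProd z).2 : ℂ) * I) = z := by
      intro z
      simp [Complex.measurableEquivRealProd_apply]
    simp only [h2] at h1
    rw [h1, Measure.volume_eq_prod, ← Measure.prod_restrict, lintegral_prod]
    apply Measurable.aemeasurable
    refine ((measurable_zeta.comp ?_).norm.pow_const 2).ennreal_ofReal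
    fun_prop
  have hseg : ∀ x ∈ Icc (1 / 2 - 5 * lam) (1 / 2 + 7 * lam),
      ∫⁻ v in Icc (t - 6 * lam) (t + 6 * lam), ENNReal.ofReal (‖riemannZeta (x + v * I)‖ ^ 2)
        ≤ ENNReal.ofReal M * J := by
    intro x hx
    have h1 := seg (a := x - 1 / 2) hl hl1 (by linarith) hlT ht htT' (by linarith [hx.1])
      (by linarith [hx.2])
    have h2 : ∀ v : ℝ, (1 / 2 + ((x - 1 / 2 : ℝ) : ℂ) + v * I : ℂ) = x + v * I := by
      intro v; push_cast; ring
    simp only [h2] at h1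
    exact h1
  have hall : ENNReal.ofReal (Real.pi * lam ^ 2) * ENNReal.ofReal (‖riemannZeta s‖ ^ 2)
      ≤ ENNReal.ofReal (12 * lam * M) * J := by
    calc ENNReal.ofReal (Real.pi * lam ^ 2) * ENNReal.ofReal (‖riemannZeta s‖ ^ 2)
        ≤ ∫⁻ x in Icc (1 / 2 - 5 * lam) (1 / 2 + 7 * lam), ∫⁻ v in Icc (t - 6 * lam) (t + 6 * lam),
          ENNReal.ofReal (‖riemannZeta (x + v * I)‖ ^ 2) := by rw [← hfub]; exact hmean
      _ ≤ ∫⁻ _ in Icc (1 / 2 - 5 * lam) (1 / 2 + 7 * lam), ENNReal.ofReal M * J :=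
          setLIntegral_mono' measurableSet_Icc hseg
      _ = ENNReal.ofReal (12 * lam * M) * J := by
          rw [lintegral_const, Measure.restrict_apply_univ, Real.volume_Icc]
          have e1 : 1 / 2 + 7 * lam - (1 / 2 - 5 * lam) = 12 * lam := by ring
          rw [e1, mul_comm, ← mul_assoc, ← ENNReal.ofReal_mul (by positivity)]
  have hpl : 0 < Real.pi * lam ^ 2 := by positivity
  have hfin : ENNReal.ofReal (‖riemannZeta s‖ ^ 2)
      ≤ ENNReal.ofReal ((Real.pi * lam ^ 2)⁻¹ * (12 * lam * M)) * J := by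
    calc ENNReal.ofReal (‖riemannZeta s‖ ^ 2)
        = ENNReal.ofReal (Real.pi * lam ^ 2)⁻¹ * (ENNReal.ofReal (Real.pi * lam ^ 2)
          * ENNReal.ofReal (‖riemannZeta s‖ ^ 2)) := by
          rw [← mul_assoc, ← ENNReal.ofReal_mul (by positivity), inv_mul_cancel₀ hpl.ne',
            ENNReal.ofReal_one, one_mul]
      _ ≤ ENNReal.ofReal (Real.pi * lam ^ 2)⁻¹ * (ENNReal.ofReal (12 * lam * M) * J) := by
          gcongr
      _ = _ := by rw [← mul_assoc, ← ENNReal.ofReal_mul (by positivity)]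
  refine hfin.trans (mul_le_mul' (ENNReal.ofReal_le_ofReal ?_) le_rfl)
  have e1 : (Real.pi * lam ^ 2)⁻¹ * (12 * lam * M)
      = 768 * 14 ^ 8 / Real.pi * Real.exp (22 * (lam * Real.log T)) := by
    rw [hM]
    field_simp
    ring
  rw [e1]
  have h1 : 768 * 14 ^ 8 / Real.pi ≤ (768 * 14 ^ 8 : ℝ) :=
    div_le_self (by norm_num) hpi1
  have h2 : Real.exp (22 * (lam * Real.log T)) ≤ Real.exp (768 * 14 ^ 8 * (lam * Real.log T)) := by
    refine Real.exp_le_exp.mpr ?_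
    nlinarith
  gcongr

end Pool.Agent.Lib.LC
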