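import Pool.Agent.Lib.MP_f9aece_nt_loc.Stmts
import Pool.Agent.Lib.MP_af3d17_nt_h98.Jen

/-! Module B3: small values of analytic functions. -/

set_option autoImplicit false

namespace Pool.Agent.Lib.LC

open MeasureTheory Set Filter Topology Complex
open Pool.Agent.Lib.GT

namespace CT

/-- the truncated inverse square root -/
noncomputable def ph (u : ℝ) : ENNReal :=
  (Ioc (0 : ℝ) 1).indicator (fun u : ℝ => ENNReal.ofReal (u ^ (-(1 / 2) : ℝ))) u

lemma ph_meas : Measurable ph := by
  have h : Measurable (fun u : ℝ => ENNReal.ofReal (u ^ (-(1 / 2) : ℝ))) := by fun_prop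
  exact h.indicator measurableSet_Ioc

lemma ph_int : ∫⁻ u, ph u = ENNReal.ofReal 2 := by
  unfold ph
  rw [lintegral_indicator measurableSet_Ioc]
  have hI : IntervalIntegrable (fun u : ℝ => u ^ (-(1 / 2) : ℝ)) volume 0 1 :=
    intervalIntegral.intervalIntegrable_rpow' (by norm_num)
  have h1 : IntegrableOn (fun u : ℝ => u ^ (-(1 / 2) : ℝ)) (Ioc 0 1) := by
    rwa [intervalIntegrable_iff_integrableOn_Ioc_of_le zero_le_one] at hI
  rw [← ofReal_integral_eq_lintegral_ofReal h1]
  · rw [← intervalIntegral.integral_of_le zero_le_one, integral_rpow (Or.inl (by norm_num))]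
    norm_num
  · refine (ae_restrict_iff' measurableSet_Ioc).2 (Eventually.of_forall fun x hx => ?_)
    exact Real.rpow_nonneg hx.1.le _

lemma pw (x y : ℝ) : ENNReal.ofReal (|x - y| ^ (-(1 / 2) : ℝ)) ≤ ph (x - y) + ph (y - x) + 1 := by
  rcases lt_trichotomy x y with h | h | h
  · have h0 : |x - y| = y - x := by rw [abs_of_neg (by linarith)]; ring
    rcases le_or_gt (y - x) 1 with h1 | h1
    · have h2 : ph (y - x) = ENNReal.ofReal ((y - x) ^ (-(1 / 2) : ℝ)) := by
        unfold ph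
        rw [indicator_of_mem]
        exact ⟨by linarith, h1⟩
      rw [h0, ← h2]
      exact (le_add_left le_rfl).trans (le_add_right le_rfl)
    · have h2 : (y - x) ^ (-(1 / 2) : ℝ) ≤ 1 :=
        Real.rpow_le_one_of_one_le_of_nonpos h1.le (by norm_num)
      rw [h0]
      refine (ENNReal.ofReal_le_ofReal h2).trans ?_
      rw [ENNReal.ofReal_one]
      exact le_add_left le_rfl
  · rw [h, sub_self, abs_zero, Real.zero_rpow (by norm_num), ENNReal.ofReal_zero]
    exact zero_le
  · have h0 : |x - y| = x - y := abs_of_pos (by linarith)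
    rcases le_or_gt (x - y) 1 with h1 | h1
    · have h2 : ph (x - y) = ENNReal.ofReal ((x - y) ^ (-(1 / 2) : ℝ)) := by
        unfold ph
        rw [indicator_of_mem]
        exact ⟨by linarith, h1⟩
      rw [h0, ← h2]
      exact (le_add_right le_rfl).trans (le_add_right le_rfl)
    · have h2 : (x - y) ^ (-(1 / 2) : ℝ) ≤ 1 :=
        Real.rpow_le_one_of_one_le_of_nonpos h1.le (by norm_num)
      rw [h0]
      refine (ENNReal.ofReal_le_ofReal h2).trans ?_
      rw [ENNReal.ofReal_one]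
      exact le_add_left le_rfl

lemma int_le (y : ℝ) :
    ∫⁻ x in Icc (0 : ℝ) 1, ENNReal.ofReal (|x - y| ^ (-(1 / 2) : ℝ)) ≤ ENNReal.ofReal 5 := by
  have m1 : Measurable fun x : ℝ => ph (x - y) := ph_meas.comp (measurable_id.sub_const y)
  have m2 : Measurable fun x : ℝ => ph (y - x) := ph_meas.comp (measurable_const.sub measurable_id)
  calc ∫⁻ x in Icc (0 : ℝ) 1, ENNReal.ofReal (|x - y| ^ (-(1 / 2) : ℝ))
      ≤ ∫⁻ x in Icc (0 : ℝ) 1, (ph (x - y) + ph (y - x) + 1) := lintegral_mono fun x => pw x y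
    _ = (∫⁻ x in Icc (0 : ℝ) 1, ph (x - y)) + (∫⁻ x in Icc (0 : ℝ) 1, ph (y - x))
          + ∫⁻ _x in Icc (0 : ℝ) 1, 1 := by
        have h1 := lintegral_add_left (μ := volume.restrict (Icc (0 : ℝ) 1)) (m1.add m2) (fun _ => 1)
        have h2 := lintegral_add_left (μ := volume.restrict (Icc (0 : ℝ) 1)) m1
          (fun x => ph (y - x))
        rw [← h2]
        exact h1
    _ ≤ (∫⁻ x, ph (x - y)) + (∫⁻ x, ph (y - x)) + ENNReal.ofReal 1 := by
        refine add_le_add (add_le_add (setLIntegral_le_lintegral _ _)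
          (setLIntegral_le_lintegral _ _)) (le_of_eq ?_)
        rw [setLIntegral_const, Real.volume_Icc, one_mul, sub_zero]
    _ = ENNReal.ofReal 5 := by
        rw [lintegral_sub_right_eq_self ph y, lintegral_sub_left_eq_self ph y, ph_int,
          ← ENNReal.ofReal_add (by norm_num) (by norm_num),
          ← ENNReal.ofReal_add (by norm_num) (by norm_num)]
        norm_num

lemma sublevel {k : ℕ} (hk : 0 < k) (y : Fin k → ℝ) {B : ℝ} (hB : 0 < B) :
    volume {x : ℝ | x ∈ Icc (0 : ℝ) 1 ∧ ∏ i, |x - y i| ≤ B}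
      ≤ ENNReal.ofReal (5 * B ^ (1 / (2 * k) : ℝ)) := by
  have hk0 : (0 : ℝ) < k := by exact_mod_cast hk
  set e : ℝ := B ^ (-(1 / (2 * k)) : ℝ) with he
  have he0 : 0 < e := Real.rpow_pos_of_pos hB _
  set Φ : ℝ → ENNReal := fun x => ∑ i, ENNReal.ofReal (1 / k)
    * ENNReal.ofReal (|x - y i| ^ (-(1 / 2) : ℝ)) with hΦ
  have hm : ∀ i, Measurable fun x : ℝ => ENNReal.ofReal (|x - y i| ^ (-(1 / 2) : ℝ)) := by
    intro i
    fun_prop
  have hΦm : Measurable Φ := by
    rw [hΦ]
    exact Finset.measurable_fun_sum _ fun i _ => (hm i).const_mul _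
  have hint : ∫⁻ x in Icc (0 : ℝ) 1, Φ x ≤ ENNReal.ofReal 5 := by
    rw [hΦ, lintegral_finsetSum _ fun i _ => (hm i).const_mul _]
    calc ∑ i, ∫⁻ x in Icc (0 : ℝ) 1, ENNReal.ofReal (1 / k)
          * ENNReal.ofReal (|x - y i| ^ (-(1 / 2) : ℝ))
        ≤ ∑ _i : Fin k, ENNReal.ofReal (1 / k) * ENNReal.ofReal 5 := by
          refine Finset.sum_le_sum fun i _ => ?_
          rw [lintegral_const_mul _ (hm i)]
          gcongr
          exact int_le (y i)
      _ = ENNReal.ofReal 5 := by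
          rw [Finset.sum_const, Finset.card_univ, Fintype.card_fin, nsmul_eq_mul,
            ← ENNReal.ofReal_mul (by positivity), ← ENNReal.ofReal_natCast,
            ← ENNReal.ofReal_mul (by positivity)]
          congr 1
          field_simp
  have hsub : {x : ℝ | x ∈ Icc (0 : ℝ) 1 ∧ ∏ i, |x - y i| ≤ B}
      ⊆ range y ∪ ({x | ENNReal.ofReal e ≤ Φ x} ∩ Icc (0 : ℝ) 1) := by
    rintro x ⟨hx1, hx2⟩
    by_cases hr : x ∈ range y
    · exact Or.inl hr
    · refine Or.inr ⟨?_, hx1⟩
      have hpos : ∀ i, 0 < |x - y i| := fun i =>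
        abs_pos.2 (sub_ne_zero.2 fun h => hr ⟨i, h.symm⟩)
      have hprod : 0 < ∏ i, |x - y i| := Finset.prod_pos fun i _ => hpos i
      have h1 := Real.geom_mean_le_arith_mean_weighted (Finset.univ : Finset (Fin k))
        (fun _ => 1 / (k : ℝ)) (fun i => |x - y i| ^ (-(1 / 2) : ℝ)) (fun i _ => by positivity)
        (by simp [hk0.ne']) (fun i _ => by positivity)
      have h2 : ∏ i, (|x - y i| ^ (-(1 / 2) : ℝ)) ^ (1 / (k : ℝ))
          = (∏ i, |x - y i|) ^ (-(1 / (2 * k)) : ℝ) := by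
        rw [← Real.finsetProd_rpow _ _ (fun i _ => (hpos i).le)]
        refine Finset.prod_congr rfl fun i _ => ?_
        rw [← Real.rpow_mul (hpos i).le]
        congr 1
        field_simp
      have h3 : e ≤ (∏ i, |x - y i|) ^ (-(1 / (2 * k)) : ℝ) :=
        Real.rpow_le_rpow_of_nonpos hprod hx2 (by
          have : 0 < 1 / (2 * (k : ℝ)) := by positivity
          linarith)
      rw [h2] at h1
      show ENNReal.ofReal e ≤ Φ x
      have h4 : Φ x = ENNReal.ofReal (∑ i, 1 / (k : ℝ) * |x - y i| ^ (-(1 / 2) : ℝ)) := by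
        rw [hΦ, ENNReal.ofReal_sum_of_nonneg fun i _ => by positivity]
        refine Finset.sum_congr rfl fun i _ => ?_
        rw [ENNReal.ofReal_mul (by positivity)]
      rw [h4]
      exact ENNReal.ofReal_le_ofReal (h3.trans h1)
  refine (measure_mono hsub).trans ((measure_union_le _ _).trans ?_)
  rw [(Set.finite_range y).measure_zero, zero_add,
    ← Measure.restrict_apply' measurableSet_Icc]
  refine (meas_ge_le_lintegral_div hΦm.aemeasurable (ENNReal.ofReal_pos.2 he0).ne'
    ENNReal.ofReal_ne_top).trans ?_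
  refine (ENNReal.div_le_div_right hint _).trans ?_
  rw [← ENNReal.ofReal_div_of_pos he0]
  refine ENNReal.ofReal_le_ofReal (le_of_eq ?_)
  rw [he, Real.rpow_neg hB.le, div_inv_eq_mul]

lemma five_le : (5 : ℝ) ≤ Real.exp 2 := by
  have h1 := Real.exp_one_gt_d9
  have h2 : Real.exp 2 = Real.exp 1 * Real.exp 1 := by
    rw [← Real.exp_add]; norm_num
  rw [h2]
  nlinarith

end CT

open CT in
/-- B3: small values of analytic functions -/
theorem cartan : Cartan := by
  obtain ⟨C0, hC0, hlf⟩ := Pool.Agent.ZP.local_factor (r := 2) (r' := 3) (R := 5)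
    (by norm_num) (by norm_num) (by norm_num)
  refine ⟨1 / (2 * C0), 5, by positivity, by norm_num, ?_⟩
  intro f τ lam K a hlam hK hf hb hc
  have hK0 : 0 < K := by linarith
  set F : ℂ → ℂ := fun z => f (pt lam τ + lam * z) with hF
  have hmem : ∀ z ∈ Metric.closedBall (0 : ℂ) 5,
      pt lam τ + lam * z ∈ Metric.closedBall (pt lam τ) (5 * lam) := by
    intro z hz
    rw [mem_closedBall_zero_iff] at hz
    rw [Metric.mem_closedBall, dist_eq_norm, add_sub_cancel_left, norm_mul, Complex.norm_real,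
      Real.norm_eq_abs, abs_of_pos hlam]
    nlinarith
  have hFa : AnalyticOnNhd ℂ F (Metric.closedBall 0 5) := by
    intro z hz
    have h1 := hf _ (hmem z hz)
    have h2 : AnalyticAt ℂ (fun z : ℂ => pt lam τ + lam * z) z := by fun_prop
    exact AnalyticAt.fun_comp (f := fun z : ℂ => pt lam τ + lam * z) h1 h2
  have hFc : F 0 = f (pt lam τ) := by rw [hF]; simp
  obtain ⟨k, z, g, hk, -, -, hfg, -, -, hlow⟩ := hlf F 0 (Real.exp K) (Real.exp_le_exp.2 hK) hFa
    (fun z hz => hb _ (hmem z hz)) (by rw [hFc, one_div, ← Real.exp_neg]; exact hc)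
  rw [Real.log_exp] at hk hlow
  -- points of the line
  have hpt : ∀ w ∈ Icc (0 : ℝ) lam, f (1 / 2 + I * (τ + w : ℝ)) = F (-1 + I * (lam⁻¹ * w : ℝ)) ∧
      (-1 + I * (lam⁻¹ * w : ℝ) : ℂ) ∈ Metric.closedBall (0 : ℂ) 2 := by
    intro w hw
    have hw1 : 0 ≤ lam⁻¹ * w := mul_nonneg (by positivity) hw.1
    have hw2 : lam⁻¹ * w ≤ 1 := by
      rw [inv_mul_le_iff₀ hlam, mul_one]; exact hw.2
    constructor
    · rw [hF]
      congr 1
      rw [pt]
      have hl : (lam : ℂ) ≠ 0 := by exact_mod_cast hlam.ne'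
      push_cast
      field_simp
      ring
    · rw [mem_closedBall_zero_iff]
      calc ‖(-1 + I * (lam⁻¹ * w : ℝ) : ℂ)‖ ≤ ‖(-1 : ℂ)‖ + ‖I * (lam⁻¹ * w : ℝ)‖ := norm_add_le _ _
        _ ≤ 1 + 1 := by
            rw [norm_neg, norm_one, norm_mul, Complex.norm_I, one_mul, Complex.norm_real,
              Real.norm_eq_abs, abs_of_nonneg hw1]
            gcongr
        _ = 2 := by norm_num
  rcases le_or_gt a (C0 * K) with ha | ha
  · -- the trivial bound
    refine (measure_mono (fun w hw => hw.1)).trans ?_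
    rw [Real.volume_Icc, sub_zero]
    refine ENNReal.ofReal_le_ofReal ?_
    have h1 : 1 / (2 * C0) * a / K ≤ 1 / 2 := by
      rw [div_le_iff₀ hK0]
      calc 1 / (2 * C0) * a ≤ 1 / (2 * C0) * (C0 * K) := by gcongr
        _ = 1 / 2 * K := by field_simp
    have h2 : 1 ≤ Real.exp (5 - 1 / (2 * C0) * a / K) := Real.one_le_exp (by linarith)
    nlinarith
  · rcases Nat.eq_zero_or_pos k with hk0 | hk0
    · -- no zeros
      have hempty : {w : ℝ | w ∈ Icc 0 lam ∧
          ‖f (1 / 2 + I * (τ + w : ℝ))‖ ≤ Real.exp (-a)} = ∅ := by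
        rw [Set.eq_empty_iff_forall_notMem]
        rintro w ⟨hw1, hw2⟩
        obtain ⟨h1, h2⟩ := hpt w hw1
        have h3 := hlow _ h2
        rw [h1, hfg _ (Metric.closedBall_subset_closedBall (by norm_num) h2)] at hw2
        subst hk0
        simp only [Finset.univ_eq_empty, Finset.prod_empty, one_mul] at hw2
        have h4 := Real.exp_le_exp.1 (h3.trans hw2)
        linarith
      rw [hempty, measure_empty]
      exact zero_le
    · set S : Set ℝ := {x : ℝ | x ∈ Icc (0 : ℝ) 1 ∧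
        ∏ i, |x - (z i).im| ≤ Real.exp (C0 * K - a)} with hS
      have hsub : {w : ℝ | w ∈ Icc 0 lam ∧ ‖f (1 / 2 + I * (τ + w : ℝ))‖ ≤ Real.exp (-a)}
          ⊆ (fun w => lam⁻¹ * w) ⁻¹' S := by
        rintro w ⟨hw1, hw2⟩
        obtain ⟨h1, h2⟩ := hpt w hw1
        have h3 := hlow _ h2
        rw [h1, hfg _ (Metric.closedBall_subset_closedBall (by norm_num) h2), norm_mul,
          norm_prod] at hw2
        show lam⁻¹ * w ∈ S
        have hw3 : 0 ≤ lam⁻¹ * w := mul_nonneg (by positivity) hw1.1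
        have hw4 : lam⁻¹ * w ≤ 1 := by
          rw [inv_mul_le_iff₀ hlam, mul_one]; exact hw1.2
        refine ⟨⟨hw3, hw4⟩, ?_⟩
        have h5 : ∏ i, |lam⁻¹ * w - (z i).im| ≤ ∏ i, ‖(-1 + I * (lam⁻¹ * w : ℝ) : ℂ) - z i‖ := by
          refine Finset.prod_le_prod (fun i _ => abs_nonneg _) fun i _ => ?_
          have h6 := Complex.abs_im_le_norm ((-1 + I * (lam⁻¹ * w : ℝ) : ℂ) - z i)
          have h7 : ((-1 + I * (lam⁻¹ * w : ℝ) : ℂ) - z i).im = lam⁻¹ * w - (z i).im := by
            simp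
          rw [h7] at h6
          exact h6
        have h8 : (∏ i, ‖(-1 + I * (lam⁻¹ * w : ℝ) : ℂ) - z i‖) * Real.exp (-(C0 * K))
            ≤ Real.exp (-a) := by
          refine le_trans ?_ hw2
          gcongr
        calc ∏ i, |lam⁻¹ * w - (z i).im|
            ≤ ∏ i, ‖(-1 + I * (lam⁻¹ * w : ℝ) : ℂ) - z i‖ := h5
          _ = (∏ i, ‖(-1 + I * (lam⁻¹ * w : ℝ) : ℂ) - z i‖) * Real.exp (-(C0 * K))
                * Real.exp (C0 * K) := by
              rw [mul_assoc, ← Real.exp_add, neg_add_cancel, Real.exp_zero, mul_one]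
          _ ≤ Real.exp (-a) * Real.exp (C0 * K) := by gcongr
          _ = Real.exp (C0 * K - a) := by rw [← Real.exp_add]; congr 1; ring
      refine (measure_mono hsub).trans ?_
      rw [Real.volume_preimage_mul_left (by positivity), inv_inv, abs_of_pos hlam,
        ENNReal.ofReal_mul hlam.le]
      gcongr
      refine (sublevel hk0 (fun i => (z i).im) (Real.exp_pos _)).trans ?_
      refine ENNReal.ofReal_le_ofReal ?_
      have hkr : (0 : ℝ) < k := by exact_mod_cast hk0
      rw [← Real.exp_mul]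
      have h9 : (C0 * K - a) * (1 / (2 * k)) ≤ 1 / 2 - 1 / (2 * C0) * a / K := by
        have h10 : (a - C0 * K) * (1 / (2 * (C0 * K))) ≤ (a - C0 * K) * (1 / (2 * k)) := by
          have : 0 ≤ a - C0 * K := by linarith
          gcongr
        have h11 : (a - C0 * K) * (1 / (2 * (C0 * K))) = 1 / (2 * C0) * a / K - 1 / 2 := by
          field_simp
        linarith
      calc 5 * Real.exp ((C0 * K - a) * (1 / (2 * k)))
          ≤ Real.exp 2 * Real.exp (1 / 2 - 1 / (2 * C0) * a / K) := by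
            gcongr
            exact five_le
        _ = Real.exp (5 / 2 - 1 / (2 * C0) * a / K) := by
            rw [← Real.exp_add]; congr 1; ring
        _ ≤ Real.exp (5 - 1 / (2 * C0) * a / K) := by
            rw [Real.exp_le_exp]; linarith

end Pool.Agent.Lib.LC
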