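import Mathlib
import Pool.Agent.Lib.MP_f9aece_nt_gt.C11

/-!
Comparison of two laws in intervals through the windows.
-/

set_option autoImplicit false

namespace Pool.Agent.Lib.LC

open MeasureTheory Set Filter Topology Complex ProbabilityTheory
open scoped ComplexConjugate
open Pool.Agent.Lib.GT

namespace C2a

open Pool.Agent.Lib.GT.C11

lemma psq {K : ℝ} (hψ : ∀ r : ℝ, ‖psi r‖ ≤ K / (1 + r ^ 2)) (r : ℝ) :
    ‖psi r‖ ^ 2 ≤ K ^ 2 * (1 + r ^ 2)⁻¹ * (1 + r ^ 2)⁻¹ := by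
  have h1 := pow_le_pow_left₀ (norm_nonneg _) (hψ r) 2
  refine h1.trans (le_of_eq ?_)
  field_simp

lemma ca1 (r : ℝ) : (1 + r ^ 2)⁻¹ ≤ 1 := inv_le_one_of_one_le₀ (by nlinarith [sq_nonneg r])

lemma ps_int {K : ℝ} (hψ : ∀ r : ℝ, ‖psi r‖ ≤ K / (1 + r ^ 2)) (hc : Continuous psi) {κ : ℝ}
    (hκ : 0 ≤ κ) (a : ℝ) : IntegrableOn (fun r : ℝ => Real.exp (κ * r) * ‖psi r‖ ^ 2) (Iio a) := by
  have hψc : Continuous fun r => ‖psi r‖ ^ 2 := by fun_prop
  refine ((exp_ca_int κ a hκ).const_mul (K ^ 2)).mono' ?_ ?_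
  · exact (Continuous.mul (by fun_prop) hψc).aestronglyMeasurable
  · refine Eventually.of_forall fun r => ?_
    rw [Real.norm_eq_abs, abs_of_nonneg (by positivity)]
    calc Real.exp (κ * r) * ‖psi r‖ ^ 2 ≤ Real.exp (κ * r) * (K ^ 2 * (1 + r ^ 2)⁻¹ * 1) := by
          refine mul_le_mul_of_nonneg_left ((psq hψ r).trans ?_) (by positivity)
          exact mul_le_mul_of_nonneg_left (ca1 r) (by positivity)
      _ = K ^ 2 * (Real.exp (κ * r) * (1 + r ^ 2)⁻¹) := by ring

lemma iio_iio (a b : ℝ) : Iio b \ Iio a = Ico a b := by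
  ext r
  simp only [Set.mem_sdiff, mem_Iio, mem_Ico, not_lt]
  exact and_comm

/-- integrals against the square of the Cauchy density -/
lemma bnd {E : Set ℝ} (hE : MeasurableSet E) {g : ℝ → ℝ} {M : ℝ} (hM : 0 ≤ M)
    (h : ∀ r ∈ E, |g r| ≤ M * (1 + r ^ 2)⁻¹) : |∫ r in E, g r| ≤ M * Real.pi := by
  have hi : Integrable fun r : ℝ => M * (1 + r ^ 2)⁻¹ := integrable_inv_one_add_sq.const_mul _
  rw [← Real.norm_eq_abs]
  refine (norm_integral_le_of_norm_le hi.integrableOn ?_).trans ?_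
  · filter_upwards [ae_restrict_mem hE] with r hr
    rw [Real.norm_eq_abs]
    exact h r hr
  · refine (setIntegral_le_integral hi (Eventually.of_forall fun r => by positivity)).trans ?_
    rw [integral_const_mul, integral_univ_inv_one_add_sq]

/-- the pointwise comparison -/
lemma pw {K : ℝ} (hψ : ∀ r : ℝ, ‖psi r‖ ≤ K / (1 + r ^ 2)) (hc : Continuous psi)
    (hc0 : 0 < c0) (hi : Integrable fun r => ‖psi r‖ ^ 2) {κ a1 a2 : ℝ} (hκ : 0 < κ) (h12 : a2 ≤ a1)
    (h1 : κ * (a1 - a2) ≤ 1) :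
    |(if a2 ≤ 0 ∧ 0 < a1 then (1 : ℝ) else 0) - (Ph' κ a1 - Ph' κ a2) / c0| ≤
      3 * K ^ 2 * Real.pi / c0 * (Real.exp (κ * a1) * (1 + a1 ^ 2)⁻¹ +
        Real.exp (κ * a2) * (1 + a2 ^ 2)⁻¹) +
      2 * K ^ 2 * Real.pi / c0 * κ * (if a2 ≤ 0 ∧ 0 < a1 then (1 : ℝ) else 0) := by
  have hpi := Real.pi_pos
  have he3 : Real.exp 1 ≤ 3 := by
    have := Real.exp_one_lt_d9
    linarith
  have hD : Ph' κ a1 - Ph' κ a2 = ∫ r in Ico a2 a1, Real.exp (κ * r) * ‖psi r‖ ^ 2 := by
    unfold Ph'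
    rw [← setIntegral_sdiff measurableSet_Iio (ps_int hψ hc hκ.le a1) (Iio_subset_Iio h12),
      iio_iio]
  have hD0 : 0 ≤ ∫ r in Ico a2 a1, Real.exp (κ * r) * ‖psi r‖ ^ 2 :=
    setIntegral_nonneg measurableSet_Ico fun r _ => by positivity
  rw [hD]
  have hp1 : 0 ≤ Real.exp (κ * a1) * (1 + a1 ^ 2)⁻¹ := by positivity
  have hp2 : 0 ≤ Real.exp (κ * a2) * (1 + a2 ^ 2)⁻¹ := by positivity
  have hK2 : 0 ≤ K ^ 2 * Real.pi / c0 := by positivity
  by_cases hin : a2 ≤ 0 ∧ 0 < a1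
  · rw [if_pos hin]
    obtain ⟨h2, h3⟩ := hin
    have e1 : c0 = (∫ r in Iio a2, ‖psi r‖ ^ 2) + (∫ r in Ico a2 a1, ‖psi r‖ ^ 2) +
        ∫ r in Ici a1, ‖psi r‖ ^ 2 := by
      have h4 := integral_add_compl (s := Iio a1) measurableSet_Iio hi
      rw [compl_Iio] at h4
      have h5 := setIntegral_sdiff (μ := volume) (f := fun r => ‖psi r‖ ^ 2) (s := Iio a1)
        (t := Iio a2) measurableSet_Iio hi.integrableOn (Iio_subset_Iio h12)
      rw [iio_iio] at h5
      have h6 : c0 = ∫ r, ‖psi r‖ ^ 2 := rfl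
      rw [h6]
      linarith
    have hIi : IntegrableOn (fun r => Real.exp (κ * r) * ‖psi r‖ ^ 2) (Ico a2 a1) :=
      (ps_int hψ hc hκ.le a1).mono_set fun r hr => hr.2
    have e2 : ∫ r in Ico a2 a1, (1 - Real.exp (κ * r)) * ‖psi r‖ ^ 2 =
        (∫ r in Ico a2 a1, ‖psi r‖ ^ 2) - ∫ r in Ico a2 a1, Real.exp (κ * r) * ‖psi r‖ ^ 2 := by
      rw [← integral_sub hi.integrableOn hIi]
      refine integral_congr_ae (Eventually.of_forall fun r => ?_)
      simp only
      ring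
    have e3 : 1 - (∫ r in Ico a2 a1, Real.exp (κ * r) * ‖psi r‖ ^ 2) / c0 =
        ((∫ r in Iio a2, ‖psi r‖ ^ 2) + (∫ r in Ici a1, ‖psi r‖ ^ 2) +
          ∫ r in Ico a2 a1, (1 - Real.exp (κ * r)) * ‖psi r‖ ^ 2) / c0 := by
      rw [e2, eq_div_iff hc0.ne', sub_mul, div_mul_cancel₀ _ hc0.ne', one_mul]
      linarith
    rw [e3, abs_div, abs_of_pos hc0]
    have b1 : |∫ r in Iio a2, ‖psi r‖ ^ 2| ≤ K ^ 2 * (1 + a2 ^ 2)⁻¹ * Real.pi := by
      refine bnd measurableSet_Iio (by positivity) fun r hr => ?_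
      rw [abs_of_nonneg (by positivity)]
      refine (psq hψ r).trans ?_
      refine mul_le_mul_of_nonneg_right ?_ (by positivity)
      refine mul_le_mul_of_nonneg_left ?_ (by positivity)
      have hr' : r < a2 := hr
      exact inv_anti₀ (by positivity) (by nlinarith)
    have b2 : |∫ r in Ici a1, ‖psi r‖ ^ 2| ≤ K ^ 2 * (1 + a1 ^ 2)⁻¹ * Real.pi := by
      refine bnd measurableSet_Ici (by positivity) fun r hr => ?_
      rw [abs_of_nonneg (by positivity)]
      refine (psq hψ r).trans ?_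
      refine mul_le_mul_of_nonneg_right ?_ (by positivity)
      refine mul_le_mul_of_nonneg_left ?_ (by positivity)
      have hr' : a1 ≤ r := hr
      exact inv_anti₀ (by positivity) (by nlinarith)
    have b3 : |∫ r in Ico a2 a1, (1 - Real.exp (κ * r)) * ‖psi r‖ ^ 2| ≤
        2 * κ * K ^ 2 * Real.pi := by
      refine bnd measurableSet_Ico (by positivity) fun r hr => ?_
      rw [abs_mul, abs_of_nonneg (sq_nonneg ‖psi r‖)]
      have h4 : |κ * r| ≤ 1 := by
        rw [abs_le]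
        constructor
        · have : κ * a2 ≤ κ * r := mul_le_mul_of_nonneg_left hr.1 hκ.le
          nlinarith
        · have : κ * r ≤ κ * a1 := mul_le_mul_of_nonneg_left hr.2.le hκ.le
          nlinarith
      have h5 := Real.abs_exp_sub_one_le h4
      rw [abs_sub_comm] at h5
      have h6 : |r| * (1 + r ^ 2)⁻¹ ≤ 1 := by
        rw [← div_eq_mul_inv, div_le_one (by positivity)]
        have := sq_abs r
        nlinarith [sq_nonneg (|r| - 1), abs_nonneg r]
      rw [abs_mul, abs_of_pos hκ] at h5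
      calc |1 - Real.exp (κ * r)| * ‖psi r‖ ^ 2
          ≤ 2 * (κ * |r|) * (K ^ 2 * (1 + r ^ 2)⁻¹ * (1 + r ^ 2)⁻¹) :=
            mul_le_mul h5 (psq hψ r) (by positivity) (by positivity)
        _ = 2 * κ * K ^ 2 * (1 + r ^ 2)⁻¹ * (|r| * (1 + r ^ 2)⁻¹) := by ring
        _ ≤ 2 * κ * K ^ 2 * (1 + r ^ 2)⁻¹ * 1 := mul_le_mul_of_nonneg_left h6 (by positivity)
        _ = _ := by ring
    have c1 : (1 + a1 ^ 2)⁻¹ ≤ Real.exp (κ * a1) * (1 + a1 ^ 2)⁻¹ := by
      have : 1 ≤ Real.exp (κ * a1) := Real.one_le_exp (by positivity)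
      exact le_mul_of_one_le_left (by positivity) this
    have c2 : (1 + a2 ^ 2)⁻¹ ≤ 3 * (Real.exp (κ * a2) * (1 + a2 ^ 2)⁻¹) := by
      have h4 : 1 ≤ 3 * Real.exp (κ * a2) := by
        have h5 : -1 ≤ κ * a2 := by nlinarith
        have h6 : 1 ≤ Real.exp 1 * Real.exp (κ * a2) := by
          rw [← Real.exp_add]
          exact Real.one_le_exp (by linarith)
        have h7 := Real.exp_pos (κ * a2)
        nlinarith
      rw [← mul_assoc]
      exact le_mul_of_one_le_left (by positivity) h4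
    have b4 : |(∫ r in Iio a2, ‖psi r‖ ^ 2) + (∫ r in Ici a1, ‖psi r‖ ^ 2) +
          ∫ r in Ico a2 a1, (1 - Real.exp (κ * r)) * ‖psi r‖ ^ 2| ≤
        3 * K ^ 2 * Real.pi * (Real.exp (κ * a1) * (1 + a1 ^ 2)⁻¹ +
          Real.exp (κ * a2) * (1 + a2 ^ 2)⁻¹) + 2 * K ^ 2 * Real.pi * κ := by
      refine (abs_add_le _ _).trans ((add_le_add ((abs_add_le _ _).trans (add_le_add b1 b2))
        b3).trans ?_)
      have d1 : K ^ 2 * (1 + a1 ^ 2)⁻¹ * Real.pi ≤
          3 * K ^ 2 * Real.pi * (Real.exp (κ * a1) * (1 + a1 ^ 2)⁻¹) := by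
        have : K ^ 2 * Real.pi * (1 + a1 ^ 2)⁻¹ ≤
            K ^ 2 * Real.pi * (Real.exp (κ * a1) * (1 + a1 ^ 2)⁻¹) :=
          mul_le_mul_of_nonneg_left c1 (by positivity)
        have h0 : 0 ≤ K ^ 2 * Real.pi * (Real.exp (κ * a1) * (1 + a1 ^ 2)⁻¹) := by positivity
        linarith
      have d2 : K ^ 2 * (1 + a2 ^ 2)⁻¹ * Real.pi ≤
          3 * K ^ 2 * Real.pi * (Real.exp (κ * a2) * (1 + a2 ^ 2)⁻¹) := by
        have : K ^ 2 * Real.pi * (1 + a2 ^ 2)⁻¹ ≤
            K ^ 2 * Real.pi * (3 * (Real.exp (κ * a2) * (1 + a2 ^ 2)⁻¹)) :=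
          mul_le_mul_of_nonneg_left c2 (by positivity)
        linarith
      rw [mul_add]
      linarith
    calc |(∫ r in Iio a2, ‖psi r‖ ^ 2) + (∫ r in Ici a1, ‖psi r‖ ^ 2) +
          ∫ r in Ico a2 a1, (1 - Real.exp (κ * r)) * ‖psi r‖ ^ 2| / c0
        ≤ (3 * K ^ 2 * Real.pi * (Real.exp (κ * a1) * (1 + a1 ^ 2)⁻¹ +
          Real.exp (κ * a2) * (1 + a2 ^ 2)⁻¹) + 2 * K ^ 2 * Real.pi * κ) / c0 :=
          div_le_div_of_nonneg_right b4 hc0.le
      _ = _ := by ring
  · rw [if_neg hin, zero_sub, abs_neg, abs_of_nonneg (div_nonneg hD0 hc0.le), mul_zero, add_zero]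
    rcases le_or_gt a1 0 with h3 | h3
    · have b1 : |∫ r in Ico a2 a1, Real.exp (κ * r) * ‖psi r‖ ^ 2| ≤
          K ^ 2 * (Real.exp (κ * a1) * (1 + a1 ^ 2)⁻¹) * Real.pi := by
        refine bnd measurableSet_Ico (by positivity) fun r hr => ?_
        rw [abs_of_nonneg (by positivity)]
        have hr' : r < a1 := hr.2
        calc Real.exp (κ * r) * ‖psi r‖ ^ 2
            ≤ Real.exp (κ * a1) * (K ^ 2 * (1 + a1 ^ 2)⁻¹ * (1 + r ^ 2)⁻¹) := by
              refine mul_le_mul (Real.exp_le_exp.2 (mul_le_mul_of_nonneg_left hr'.le hκ.le)) ?_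
                (by positivity) (by positivity)
              refine (psq hψ r).trans ?_
              refine mul_le_mul_of_nonneg_right ?_ (by positivity)
              refine mul_le_mul_of_nonneg_left ?_ (by positivity)
              exact inv_anti₀ (by positivity) (by nlinarith)
          _ = _ := by ring
      rw [abs_of_nonneg hD0] at b1
      calc (∫ r in Ico a2 a1, Real.exp (κ * r) * ‖psi r‖ ^ 2) / c0
          ≤ K ^ 2 * (Real.exp (κ * a1) * (1 + a1 ^ 2)⁻¹) * Real.pi / c0 :=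
            div_le_div_of_nonneg_right b1 hc0.le
        _ = K ^ 2 * Real.pi / c0 * (Real.exp (κ * a1) * (1 + a1 ^ 2)⁻¹) := by ring
        _ ≤ 3 * (K ^ 2 * Real.pi / c0) * (Real.exp (κ * a1) * (1 + a1 ^ 2)⁻¹ +
            Real.exp (κ * a2) * (1 + a2 ^ 2)⁻¹) := by
            refine mul_le_mul (by linarith) (by linarith) hp1 (by positivity)
        _ = _ := by ring
    · have h2 : 0 < a2 := by
        by_contra hcon
        exact hin ⟨not_lt.1 hcon, h3⟩
      have b1 : |∫ r in Ico a2 a1, Real.exp (κ * r) * ‖psi r‖ ^ 2| ≤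
          3 * K ^ 2 * (Real.exp (κ * a2) * (1 + a2 ^ 2)⁻¹) * Real.pi := by
        refine bnd measurableSet_Ico (by positivity) fun r hr => ?_
        rw [abs_of_nonneg (by positivity)]
        have hr1 : a2 ≤ r := hr.1
        have h5 : Real.exp (κ * r) ≤ 3 * Real.exp (κ * a2) := by
          have h6 : κ * r ≤ 1 + κ * a2 := by
            have : κ * r ≤ κ * a1 := mul_le_mul_of_nonneg_left hr.2.le hκ.le
            nlinarith
          calc Real.exp (κ * r) ≤ Real.exp (1 + κ * a2) := Real.exp_le_exp.2 h6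
            _ = Real.exp 1 * Real.exp (κ * a2) := Real.exp_add _ _
            _ ≤ _ := mul_le_mul_of_nonneg_right he3 (Real.exp_pos _).le
        calc Real.exp (κ * r) * ‖psi r‖ ^ 2
            ≤ 3 * Real.exp (κ * a2) * (K ^ 2 * (1 + a2 ^ 2)⁻¹ * (1 + r ^ 2)⁻¹) := by
              refine mul_le_mul h5 ?_ (by positivity) (by positivity)
              refine (psq hψ r).trans ?_
              refine mul_le_mul_of_nonneg_right ?_ (by positivity)
              refine mul_le_mul_of_nonneg_left ?_ (by positivity)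
              exact inv_anti₀ (by positivity) (by nlinarith)
          _ = _ := by ring
      rw [abs_of_nonneg hD0] at b1
      calc (∫ r in Ico a2 a1, Real.exp (κ * r) * ‖psi r‖ ^ 2) / c0
          ≤ 3 * K ^ 2 * (Real.exp (κ * a2) * (1 + a2 ^ 2)⁻¹) * Real.pi / c0 :=
            div_le_div_of_nonneg_right b1 hc0.le
        _ = 3 * (K ^ 2 * Real.pi / c0) * (Real.exp (κ * a2) * (1 + a2 ^ 2)⁻¹) := by ring
        _ ≤ 3 * (K ^ 2 * Real.pi / c0) * (Real.exp (κ * a1) * (1 + a1 ^ 2)⁻¹ +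
            Real.exp (κ * a2) * (1 + a2 ^ 2)⁻¹) := by
            refine mul_le_mul_of_nonneg_left (by linarith) (by positivity)
        _ = _ := by ring

/-- points of the interval through the envelope -/
lemma one_le_env {be b V x : ℝ} (hbe : 0 < be) (hb : be ≤ b) (hb2 : b ≤ 1 / 20) (hx : V < x) :
    1 ≤ 4 / b * ∫ y in Ioi (V - 1 / b), Env be b y x := by
  have hb0 : 0 < b := by linarith
  rw [int_Env hb0]
  have h := EE_ge (κ := be / b) (a := b * (x - V)) (by positivity) (mul_pos hb0 (by linarith))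
  have h2 : (1 : ℝ) ≤ 4 / b * (1 / 2) := by
    rw [div_mul_eq_mul_div, le_div_iff₀ hb0]
    linarith
  refine h2.trans (mul_le_mul_of_nonneg_left h (by positivity))

end C2a

open Pool.Agent.Lib.GT.C11 C2a in
/-- comparison of two laws in an interval -/
theorem compLoc (hpsi : PsiBd) : ∃ C : ℝ, 1 ≤ C ∧ ∀ (be b G V1 V2 ε : ℝ) (ν ν' : Measure ℝ), 0 < be →
    be ≤ b → b = 1 / 20 → 0 ≤ ε → 0 ≤ G → V1 + 1 ≤ V2 → be * (V2 - V1) ≤ 1 → IsFiniteMeasure ν →
    IsFiniteMeasure ν' →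
    (∀ y : ℝ, Integrable (Env be b y) ν ∧ ∫ x, Env be b y x ∂ν ≤ G * Real.exp (-(be * (y - V1)))) →
    (∀ y : ℝ, Integrable (Env be b y) ν' ∧ ∫ x, Env be b y x ∂ν' ≤ G * Real.exp (-(be * (y - V1)))) →
    (∀ y : ℝ, |∫ x, HH be b y x ∂ν - ∫ x, HH be b y x ∂ν'| ≤ ε * (G * Real.exp (-(be * (y - V1))))) →
    |(ν (Ioc V1 V2)).toReal - (ν' (Ioc V1 V2)).toReal| ≤ C * (ε * (V2 - V1) + 1) * G := by
  obtain ⟨K, hK, hψ, hc, hc0, hi⟩ := hpsi
  set c₁ : ℝ := 3 * K ^ 2 * Real.pi / c0 with hc₁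
  set c₂ : ℝ := 2 * K ^ 2 * Real.pi / c0 with hc₂
  have hpi := Real.pi_pos
  have hc₁0 : 0 ≤ c₁ := by positivity
  have hc₂0 : 0 ≤ c₂ := by positivity
  refine ⟨1 + 80 * c₁ + 9600 * c₂, by linarith, ?_⟩
  intro be b G V1 V2 ε ν ν' hbe hbb hb hε hG hV hbV hν hν' h1 h2 h3
  have hb0 : 0 < b := lt_of_lt_of_le hbe hbb
  set κ : ℝ := be / b with hκd
  have hκ0 : 0 < κ := div_pos hbe hb0
  have hκ1 : κ ≤ 1 := (div_le_one hb0).2 hbb
  have hEc : Continuous fun p : ℝ × ℝ => Env be b p.2 p.1 := by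
    unfold Env
    refine Continuous.mul continuous_const (Continuous.div (by fun_prop) (by fun_prop) ?_)
    intro p
    positivity
  have hE0 : ∀ y x, 0 ≤ Env be b y x := fun y x => by unfold Env; positivity
  have hHc : Continuous fun p : ℝ × ℝ => HH be b p.2 p.1 := by
    unfold HH
    fun_prop
  have hH0 : ∀ y x, 0 ≤ HH be b y x := fun y x => by unfold HH; positivity
  have hHE : ∀ y x, HH be b y x ≤ K ^ 2 / c0 * Env be b y x := by
    intro y x
    unfold HH Env
    have h4 := pow_le_pow_left₀ (norm_nonneg _) (hψ (b * (x - y))) 2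
    have h5 : (K / (1 + (b * (x - y)) ^ 2)) ^ 2 ≤ K ^ 2 / (1 + (b * (x - y)) ^ 2) := by
      rw [div_pow]
      refine div_le_div_of_nonneg_left (by positivity) (by positivity) ?_
      nlinarith [sq_nonneg (b * (x - y)), sq_nonneg ((b * (x - y)) ^ 2)]
    calc b / c0 * (Real.exp (be * (x - y)) * ‖psi (b * (x - y))‖ ^ 2)
        ≤ b / c0 * (Real.exp (be * (x - y)) * (K ^ 2 / (1 + (b * (x - y)) ^ 2))) := by
          gcongr
          exact h4.trans h5
      _ = _ := by ring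
  have hGM : ∀ y : ℝ, G * Real.exp (-(be * (y - V1))) =
      (G / be) * (be * Real.exp (-(be * (y - V1)))) := by
    intro y
    field_simp
  have hle1 : ∀ y : ℝ, V1 ≤ y → Real.exp (-(be * (y - V1))) ≤ 1 := by
    intro y hy
    rw [Real.exp_le_one_iff]
    have : 0 ≤ be * (y - V1) := mul_nonneg hbe.le (by linarith)
    linarith
  -- one measure
  have key : ∀ (ρ : Measure ℝ), IsFiniteMeasure ρ →
      (∀ y : ℝ, Integrable (Env be b y) ρ ∧
        ∫ x, Env be b y x ∂ρ ≤ G * Real.exp (-(be * (y - V1)))) →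
      (IntegrableOn (fun y => ∫ x, HH be b y x ∂ρ) (Ioc V1 V2)) ∧
      |(ρ (Ioc V1 V2)).toReal - ∫ y in Ioc V1 V2, (∫ x, HH be b y x ∂ρ)| ≤
        (40 * c₁ + 4800 * c₂) * G := by
    intro ρ hρ h
    have hEi : ∀ y : ℝ, Integrable (Env be b y) ρ ∧ ∫ x, Env be b y x ∂ρ ≤
        (G / be) * (be * Real.exp (-(be * (y - V1)))) := fun y => by
      rw [← hGM y]; exact h y
    have hHi : ∀ y : ℝ, Integrable (HH be b y) ρ ∧ ∫ x, HH be b y x ∂ρ ≤
        (K ^ 2 / c0 * (G / be)) * (be * Real.exp (-(be * (y - V1)))) := by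
      intro y
      have i1 : Integrable (HH be b y) ρ := by
        refine ((h y).1.const_mul (K ^ 2 / c0)).mono' ?_ ?_
        · exact (hHc.comp (Continuous.prodMk_left y)).aestronglyMeasurable
        · refine Eventually.of_forall fun x => ?_
          rw [Real.norm_eq_abs, abs_of_nonneg (hH0 y x)]
          exact hHE y x
      refine ⟨i1, ?_⟩
      calc ∫ x, HH be b y x ∂ρ ≤ ∫ x, K ^ 2 / c0 * Env be b y x ∂ρ :=
            integral_mono i1 ((h y).1.const_mul _) fun x => hHE y x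
        _ = K ^ 2 / c0 * ∫ x, Env be b y x ∂ρ := integral_const_mul _ _
        _ ≤ K ^ 2 / c0 * ((G / be) * (be * Real.exp (-(be * (y - V1))))) :=
            mul_le_mul_of_nonneg_left (hEi y).2 (by positivity)
        _ = _ := by ring
    obtain ⟨a1, a2, a3, -⟩ := fub hHc hH0 hbe hHi V1
    obtain ⟨a1', a2', a3', -⟩ := fub hHc hH0 hbe hHi V2
    obtain ⟨b1, -, b3, b4⟩ := fub hEc hE0 hbe hEi (V1 - 1 / b)
    have hVV : V1 ≤ V2 := by linarith
    have hset : Ioi V1 \ Ioi V2 = Ioc V1 V2 := Ioi_sdiff_Ioi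
    refine ⟨a2.mono_set fun y hy => hy.1, ?_⟩
    have e4 : ∫ y in Ioc V1 V2, (∫ x, HH be b y x ∂ρ) =
        ∫ x, ((∫ y in Ioi V1, HH be b y x) - ∫ y in Ioi V2, HH be b y x) ∂ρ := by
      rw [integral_sub a1 a1', a3, a3', ← hset, setIntegral_sdiff measurableSet_Ioi a2
        (Ioi_subset_Ioi hVV)]
    have e1 : (ρ (Ioc V1 V2)).toReal = ∫ x, (Ioc V1 V2).indicator (fun _ => (1 : ℝ)) x ∂ρ := by
      rw [integral_indicator measurableSet_Ioc]
      simp [Measure.real]
    have i0 : Integrable (fun x => (Ioc V1 V2).indicator (fun _ => (1 : ℝ)) x) ρ :=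
      (integrable_const 1).indicator measurableSet_Ioc
    -- the mass of the interval
    have hmass : κ * (∫ x, (Ioc V1 V2).indicator (fun _ => (1 : ℝ)) x ∂ρ) ≤ 4800 * G := by
      have m1 : ∫ x, (Ioc V1 V2).indicator (fun _ => (1 : ℝ)) x ∂ρ ≤
          ∫ x, 4 / b * (∫ y in Ioi (V1 - 1 / b), Env be b y x) ∂ρ := by
        refine integral_mono i0 (b1.const_mul _) fun x => ?_
        simp only
        by_cases hx : x ∈ Ioc V1 V2
        · rw [indicator_of_mem hx]
          exact one_le_env hbe hbb hb.le hx.1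
        · rw [indicator_of_notMem hx]
          exact mul_nonneg (by positivity) (integral_nonneg fun y => hE0 y x)
      rw [integral_const_mul, b3] at m1
      have m2 : Real.exp (-(be * (V1 - 1 / b - V1))) ≤ 3 := by
        have : -(be * (V1 - 1 / b - V1)) ≤ 1 := by
          have e4 : -(be * (V1 - 1 / b - V1)) = κ := by rw [hκd]; field_simp; ring
          rw [e4]; exact hκ1
        calc Real.exp (-(be * (V1 - 1 / b - V1))) ≤ Real.exp 1 := Real.exp_le_exp.2 this
          _ ≤ 3 := by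
            have := Real.exp_one_lt_d9
            linarith
      have m3 : ∫ y in Ioi (V1 - 1 / b), (∫ x, Env be b y x ∂ρ) ≤ G / be * 3 :=
        b4.trans (mul_le_mul_of_nonneg_left m2 (by positivity))
      calc κ * (∫ x, (Ioc V1 V2).indicator (fun _ => (1 : ℝ)) x ∂ρ)
          ≤ κ * (4 / b * (G / be * 3)) := by
            refine mul_le_mul_of_nonneg_left (m1.trans ?_) hκ0.le
            exact mul_le_mul_of_nonneg_left m3 (by positivity)
        _ = 12 / b ^ 2 * G := by rw [hκd]; field_simp; ring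
        _ = 4800 * G := by rw [hb]; norm_num
    have a12 : Integrable (fun x => (∫ y in Ioi V1, HH be b y x) - ∫ y in Ioi V2, HH be b y x) ρ :=
      a1.sub a1'
    rw [e4, e1, ← integral_sub i0 a12, ← Real.norm_eq_abs]
    have hp : ∀ x : ℝ, ‖(Ioc V1 V2).indicator (fun _ => (1 : ℝ)) x -
          ((∫ y in Ioi V1, HH be b y x) - ∫ y in Ioi V2, HH be b y x)‖ ≤
        c₁ * (Env be b V1 x / b + Env be b V2 x / b) +
          c₂ * (κ * (Ioc V1 V2).indicator (fun _ => (1 : ℝ)) x) := by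
      intro x
      rw [Real.norm_eq_abs, int_HH hb0, int_HH hb0, ← sub_div]
      have h4 := pw hψ hc hc0 hi (κ := κ) (a1 := b * (x - V1)) (a2 := b * (x - V2)) hκ0
        (mul_le_mul_of_nonneg_left (by linarith) hb0.le) (by
          have : κ * (b * (x - V1) - b * (x - V2)) = be * (V2 - V1) := by
            rw [hκd]; field_simp; ring
          rw [this]; exact hbV)
      have e2 : (if b * (x - V2) ≤ 0 ∧ 0 < b * (x - V1) then (1 : ℝ) else 0) =
          (Ioc V1 V2).indicator (fun _ => (1 : ℝ)) x := by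
        by_cases hx : x ∈ Ioc V1 V2
        · rw [indicator_of_mem hx, if_pos]
          exact ⟨mul_nonpos_of_nonneg_of_nonpos hb0.le (by linarith [hx.2]),
            mul_pos hb0 (by linarith [hx.1])⟩
        · rw [indicator_of_notMem hx, if_neg]
          rintro ⟨g1, g2⟩
          apply hx
          constructor
          · have := (mul_pos_iff_of_pos_left hb0).1 g2
            linarith
          · by_contra hcon
            push Not at hcon
            have := mul_pos hb0 (show 0 < x - V2 by linarith)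
            linarith
      have e3 : ∀ V : ℝ, Env be b V x / b =
          Real.exp (κ * (b * (x - V))) * (1 + (b * (x - V)) ^ 2)⁻¹ := by
        intro V
        unfold Env
        rw [show κ * (b * (x - V)) = be * (x - V) by rw [hκd]; field_simp, div_eq_mul_inv
          (Real.exp _)]
        field_simp
      rw [e2] at h4
      rw [e3, e3]
      refine h4.trans (le_of_eq ?_)
      rw [hc₁, hc₂]
      ring
    have i3 : Integrable (fun x => c₁ * (Env be b V1 x / b + Env be b V2 x / b)) ρ :=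
      (((h V1).1.div_const b).add ((h V2).1.div_const b)).const_mul _
    have i4 : Integrable (fun x => c₂ * (κ * (Ioc V1 V2).indicator (fun _ => (1 : ℝ)) x)) ρ :=
      (i0.const_mul κ).const_mul _
    refine (norm_integral_le_of_norm_le (i3.add i4) (Eventually.of_forall hp)).trans ?_
    have e5 : ∫ x, ((fun x => c₁ * (Env be b V1 x / b + Env be b V2 x / b)) +
        (fun x => c₂ * (κ * (Ioc V1 V2).indicator (fun _ => (1 : ℝ)) x))) x ∂ρ =
        c₁ * ((∫ x, Env be b V1 x ∂ρ) / b + (∫ x, Env be b V2 x ∂ρ) / b) +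
          c₂ * (κ * (∫ x, (Ioc V1 V2).indicator (fun _ => (1 : ℝ)) x ∂ρ)) := by
      rw [integral_add' i3 i4, integral_const_mul, integral_const_mul, integral_const_mul,
        integral_add ((h V1).1.div_const b) ((h V2).1.div_const b), integral_div, integral_div]
    rw [e5]
    have hGb : 20 * G * b = G := by rw [hb]; ring
    have f1 : (∫ x, Env be b V1 x ∂ρ) / b ≤ 20 * G := by
      have h8 := (h V1).2
      rw [sub_self, mul_zero, neg_zero, Real.exp_zero, mul_one] at h8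
      rw [div_le_iff₀ hb0, hGb]
      exact h8
    have f2 : (∫ x, Env be b V2 x ∂ρ) / b ≤ 20 * G := by
      have h8 := (h V2).2
      have h9 : G * Real.exp (-(be * (V2 - V1))) ≤ G * 1 :=
        mul_le_mul_of_nonneg_left (hle1 V2 hVV) hG
      rw [div_le_iff₀ hb0, hGb]
      linarith
    calc c₁ * ((∫ x, Env be b V1 x ∂ρ) / b + (∫ x, Env be b V2 x ∂ρ) / b) +
          c₂ * (κ * (∫ x, (Ioc V1 V2).indicator (fun _ => (1 : ℝ)) x ∂ρ))
        ≤ c₁ * (20 * G + 20 * G) + c₂ * (4800 * G) :=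
          add_le_add (mul_le_mul_of_nonneg_left (add_le_add f1 f2) hc₁0)
            (mul_le_mul_of_nonneg_left hmass hc₂0)
      _ = _ := by ring
  obtain ⟨i1, k1⟩ := key ν hν h1
  obtain ⟨i2, k2⟩ := key ν' hν' h2
  have h4 : |(∫ y in Ioc V1 V2, (∫ x, HH be b y x ∂ν)) - ∫ y in Ioc V1 V2, (∫ x, HH be b y x ∂ν')| ≤
      ε * G * (V2 - V1) := by
    rw [← integral_sub i1 i2, ← Real.norm_eq_abs]
    have h5 : ∀ y ∈ Ioc V1 V2, ‖(∫ x, HH be b y x ∂ν) - ∫ x, HH be b y x ∂ν'‖ ≤ ε * G := by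
      intro y hy
      rw [Real.norm_eq_abs]
      refine (h3 y).trans ?_
      refine mul_le_mul_of_nonneg_left ?_ hε
      have := mul_le_mul_of_nonneg_left (hle1 y hy.1.le) hG
      linarith
    have h6 := norm_setIntegral_le_of_norm_le_const (μ := volume) (s := Ioc V1 V2)
      (by simp : volume (Ioc V1 V2) < ⊤) h5
    have h7 : volume.real (Ioc V1 V2) = V2 - V1 := by
      rw [Real.volume_real_Ioc]
      exact max_eq_left (by linarith)
    rw [h7] at h6
    exact h6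
  have h5 : |(ν (Ioc V1 V2)).toReal - (ν' (Ioc V1 V2)).toReal| ≤
      (40 * c₁ + 4800 * c₂) * G + ε * G * (V2 - V1) + (40 * c₁ + 4800 * c₂) * G := by
    have e1 : (ν (Ioc V1 V2)).toReal - (ν' (Ioc V1 V2)).toReal =
        ((ν (Ioc V1 V2)).toReal - ∫ y in Ioc V1 V2, (∫ x, HH be b y x ∂ν)) +
        ((∫ y in Ioc V1 V2, (∫ x, HH be b y x ∂ν)) - ∫ y in Ioc V1 V2, (∫ x, HH be b y x ∂ν')) -
        ((ν' (Ioc V1 V2)).toReal - ∫ y in Ioc V1 V2, (∫ x, HH be b y x ∂ν')) := by ring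
    rw [e1]
    exact (abs_sub _ _).trans (add_le_add ((abs_add_le _ _).trans (add_le_add k1 h4)) k2)
  refine h5.trans ?_
  have j1 : 0 ≤ ε * (V2 - V1) := mul_nonneg hε (by linarith)
  have j2 : 0 ≤ (80 * c₁ + 9600 * c₂) * (ε * (V2 - V1)) * G := by positivity
  calc (40 * c₁ + 4800 * c₂) * G + ε * G * (V2 - V1) + (40 * c₁ + 4800 * c₂) * G
      = (80 * c₁ + 9600 * c₂) * G + ε * (V2 - V1) * G := by ring
    _ ≤ (80 * c₁ + 9600 * c₂) * G + ε * (V2 - V1) * G +
        ((80 * c₁ + 9600 * c₂) * (ε * (V2 - V1)) * G + G) := by linarith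
    _ = _ := by ring

end Pool.Agent.Lib.LC
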