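import Mathlib
import Pool.Agent.Lib.MP_f9aece_nt_gt.F3
import Pool.Agent.Lib.MP_f9aece_nt_loc.Stmts
import Pool.Agent.Lib.MP_f9aece_nt_loc.C2a

/-!
C2: the law of the prime sum in intervals.
-/

set_option autoImplicit false

namespace Pool.Agent.Lib.LC

open MeasureTheory Set Filter Topology Complex ProbabilityTheory
open scoped ComplexConjugate
open Pool.Agent.Lib.GT

open Pool.Agent.Lib.GT.F1 Pool.Agent.Lib.GT.F3 in
/-- C2 -/
theorem lawXloc (hM : GT.WMean) (hA : GT.WAsym) (hS : GT.WShift) (hP : GT.WPoint) (_hW : TiltW)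
    (hG : GT.WGauss) (hN : GT.GroupNum) (h1 : GT.PsiBd) : LawXloc := by
  obtain ⟨Cm, Tm, hCm, hTm, hM⟩ := hM
  obtain ⟨Ca, Ta, hCa, hTa, hA⟩ := hA
  obtain ⟨Cs, Ts, hCs, hTs, hS⟩ := hS
  obtain ⟨Cp, C1, v0, hCp, hC1, hP⟩ := hP
  obtain ⟨Cc, hCc, hC⟩ := compLoc h1
  obtain ⟨Cg, hCg, hG⟩ := hG
  have hpi : 1 ≤ Real.pi := by linarith [Real.pi_gt_three]
  set K : ℝ := Cp * Cm * Real.pi + Cg with hK
  set D : ℝ := Cp * (Cp * Cm * Real.pi) + 2 * Cs + Ca with hD
  have hCC : 1 ≤ Cp * Cm * Real.pi := by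
    have h1 : 1 ≤ Cp * Cm := by nlinarith
    nlinarith
  have hK1 : 1 ≤ K := by rw [hK]; linarith
  have hD0 : 0 ≤ D := by rw [hD]; positivity
  refine ⟨Cc * K * (D + 1), max Tm (max Ta Ts), v0, ?_, hTm.trans (le_max_left _ _), ?_⟩
  · have h1 : 1 ≤ Cc * K := by nlinarith
    nlinarith
  intro A hOk hv hb20 T hT hLen x V1 V2 hV hbV
  have hTm' : Tm ≤ T := (le_max_left _ _).trans hT
  have hTa' : Ta ≤ T := ((le_max_left _ _).trans (le_max_right _ _)).trans hT
  have hTs' : Ts ≤ T := ((le_max_right _ _).trans (le_max_right _ _)).trans hT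
  have hT0 : 0 < T := by linarith
  have hbe := hOk.hbe
  have hbb := hOk.hbb
  have hb0 : 0 < A.b := lt_of_lt_of_le hbe hbb
  have hG0 : ∀ y, 0 ≤ A.G y := fun y => by unfold Par.G; positivity
  have := prob_un x hT0
  set E0 : Set ℝ := {t : ℝ | A.Good ∅ (om t)} with hE0
  have hE0m : MeasurableSet E0 := (closed_good A ∅).measurableSet
  set Xf : ℝ → ℝ := fun t => A.X ∅ (om t) with hXf
  have hXc : Continuous Xf := by
    rw [hXf]
    fun_prop
  set ν : Measure ℝ := ((un x T).restrict E0).map Xf with hν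
  set ν' : Measure ℝ := gaussianReal 0 (Real.toNNReal A.s2) with hν'
  -- the weights
  have hWl : ∀ y : ℝ, ∫⁻ t, ENNReal.ofReal (A.W ∅ y (om t)) ∂(un x T) ≤
      ENNReal.ofReal (Cm * A.G y) := by
    intro y
    have h1 := hM A hOk T hTm' hLen x y ∅ (Finset.empty_subset _)
    simpa using h1
  have hWc : ∀ y : ℝ, Continuous fun t : ℝ => A.W ∅ y (om t) := fun y => cont_W A ∅ y
  have hWi : ∀ y : ℝ, Integrable (fun t => A.W ∅ y (om t)) (un x T) := fun y =>
    (int_of_lint (hWc y).aestronglyMeasurable (fun t => W_nonneg A hb0.le _ _ _)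
      (mul_nonneg (by linarith) (hG0 y)) (hWl y)).1
  -- the envelope
  have hEnv0 : ∀ y z, 0 ≤ Env A.be A.b y z := fun y z => by unfold Env; positivity
  have hEl : ∀ y : ℝ, ∫⁻ t in E0, ENNReal.ofReal (Env A.be A.b y (Xf t)) ∂(un x T) ≤
      ENNReal.ofReal (Cp * Cm * Real.pi * A.G y) := by
    intro y
    have h1 := tonelli A ∅ x T Cm (Cp * A.b) hT0 (by linarith) (by positivity) (fun _ => 1)
      measurable_const (by intro y; simpa using hWl y) E0
      (fun t => ENNReal.ofReal (Env A.be A.b y (Xf t)))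
      (fun y' => Real.exp (A.be * (y' - y)) / (1 + (A.b * (y' - y)) ^ 2))
      (by
        refine Continuous.measurable (Continuous.div (by fun_prop) (by fun_prop) ?_)
        intro p
        positivity)
      (fun y' => by positivity) univ (by
        intro t ht
        have h2 := (hP A hOk hv ∅ (Finset.empty_subset _) (om t) ht (by
          intro g hg
          exact absurd hg (Finset.notMem_empty g))).2.2.1 y
        rw [setLIntegral_univ]
        exact h2)
    simp only [mul_one] at h1
    refine h1.trans ?_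
    refine (mul_le_mul' le_rfl (int_w A hb0 y)).trans ?_
    rw [← ENNReal.ofReal_mul (by positivity)]
    refine ENNReal.ofReal_le_ofReal (le_of_eq ?_)
    field_simp
  have hEi : ∀ y : ℝ, IntegrableOn (fun t => Env A.be A.b y (Xf t)) E0 (un x T) ∧
      ∫ t in E0, Env A.be A.b y (Xf t) ∂(un x T) ≤ Cp * Cm * Real.pi * A.G y := fun y =>
    int_of_lint ((cont_Env _ _ y).comp hXc).aestronglyMeasurable (fun t => hEnv0 _ _)
      (mul_nonneg (by linarith) (hG0 y)) (hEl y)
  -- the factor
  have hGV : ∀ y : ℝ, K * A.G V1 * Real.exp (-(A.be * (y - V1))) = K * A.G y := by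
    intro y
    have e1 : A.G y = A.G V1 * Real.exp (-(A.be * (y - V1))) := by
      unfold Par.G
      rw [mul_assoc, ← Real.exp_add]
      congr 2
      ring
    rw [e1]
    ring
  have hcmp := hC A.be A.b (K * A.G V1) V1 V2
    (D * (Real.exp (-A.v) + 1 / A.p0 + 1 / Real.sqrt T))
    ν ν' hbe hbb hb20 (by positivity)
    (mul_nonneg (by linarith) (hG0 V1)) hV hbV inferInstance inferInstance
    (by
      intro y
      rw [hGV y]
      have hm : AEMeasurable Xf ((un x T).restrict E0) := hXc.measurable.aemeasurable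
      constructor
      · rw [hν, integrable_map_measure (cont_Env _ _ y).aestronglyMeasurable hm]
        exact (hEi y).1
      · rw [hν, integral_map hm (cont_Env _ _ y).aestronglyMeasurable]
        refine (hEi y).2.trans ?_
        refine mul_le_mul_of_nonneg_right ?_ (hG0 y)
        rw [hK]
        linarith)
    (by
      intro y
      rw [hGV y]
      constructor
      · have h1 : Integrable (fun z => A.b * Real.exp (-(A.be * y)) * Real.exp (A.be * z)) ν' :=
          (integrable_exp_mul_gaussianReal A.be).const_mul _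
        refine h1.mono' (cont_Env _ _ y).aestronglyMeasurable (Eventually.of_forall fun z => ?_)
        rw [Real.norm_eq_abs, abs_of_nonneg (hEnv0 y z)]
        unfold Env
        rw [mul_assoc, ← Real.exp_add, show -(A.be * y) + A.be * z = A.be * (z - y) by ring]
        refine mul_le_mul_of_nonneg_left ?_ hb0.le
        refine div_le_self (Real.exp_pos _).le ?_
        nlinarith [sq_nonneg (A.b * (z - y))]
      · refine (hG A hOk y).2.2.trans ?_
        refine mul_le_mul_of_nonneg_right ?_ (hG0 y)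
        rw [hK]
        linarith)
    (by
      intro y
      rw [hGV y]
      have hm : AEMeasurable Xf ((un x T).restrict E0) := hXc.measurable.aemeasurable
      rw [hν, integral_map hm (cont_HH _ _ y).aestronglyMeasurable]
      -- the difference at the good points
      have hd : ∀ t ∈ E0, |HH A.be A.b y (Xf t) - A.W ∅ y (om t)| ≤
          Cp * Real.exp (-A.v) * Env A.be A.b y (Xf t) := by
        intro t ht
        rw [abs_sub_comm]
        exact (hP A hOk hv ∅ (Finset.empty_subset _) (om t) ht (by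
          intro g hg
          exact absurd hg (Finset.notMem_empty g))).2.2.2.1 rfl y
      have hdi : IntegrableOn (fun t => HH A.be A.b y (Xf t) - A.W ∅ y (om t)) E0 (un x T) := by
        refine ((hEi y).1.const_mul (Cp * Real.exp (-A.v))).mono' ?_ ?_
        · exact (((cont_HH _ _ y).comp hXc).sub (hWc y)).aestronglyMeasurable
        · filter_upwards [ae_restrict_mem hE0m] with t ht
          rw [Real.norm_eq_abs]
          exact hd t ht
      have hHi : IntegrableOn (fun t => HH A.be A.b y (Xf t)) E0 (un x T) := by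
        have h1 := hdi.add (hWi y).integrableOn
        refine h1.congr (Eventually.of_forall fun t => ?_)
        simp
      have e1 : (∫ t in E0, HH A.be A.b y (Xf t) ∂(un x T)) - ∫ t, A.W ∅ y (om t) ∂(un x T) =
          (∫ t in E0, (HH A.be A.b y (Xf t) - A.W ∅ y (om t)) ∂(un x T)) -
            ∫ t in E0ᶜ, A.W ∅ y (om t) ∂(un x T) := by
        rw [integral_sub hHi (hWi y).integrableOn, ← integral_add_compl hE0m (hWi y)]
        ring
      have b1 : |∫ t in E0, (HH A.be A.b y (Xf t) - A.W ∅ y (om t)) ∂(un x T)| ≤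
          Cp * Real.exp (-A.v) * (Cp * Cm * Real.pi * A.G y) := by
        rw [← Real.norm_eq_abs]
        refine (norm_integral_le_of_norm_le ((hEi y).1.const_mul (Cp * Real.exp (-A.v)))
          ?_).trans ?_
        · filter_upwards [ae_restrict_mem hE0m] with t ht
          rw [Real.norm_eq_abs]
          exact hd t ht
        · rw [integral_const_mul]
          exact mul_le_mul_of_nonneg_left (hEi y).2 (by positivity)
      have b2 : |∫ t in E0ᶜ, A.W ∅ y (om t) ∂(un x T)| ≤ 2 * Cs * Real.exp (-A.v) * A.G y := by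
        have h1 := not_good A hOk hb0.le hN hCs x T y fun g hg => hS A hOk T hTs' hLen x y 0 g hg
        have h2 := int_of_lint (hWc y).aestronglyMeasurable (fun t => W_nonneg A hb0.le _ _ _)
          (mul_nonneg (by positivity) (hG0 y)) h1
        rw [abs_of_nonneg (integral_nonneg fun t => W_nonneg A hb0.le _ _ _)]
        exact h2.2
      have b3 := hA A hOk T hTa' hLen x y
      have hE1 : 0 ≤ 1 / (A.p0 : ℝ) := by positivity
      have hE2 : 0 ≤ 1 / Real.sqrt T := by positivity
      have hE3 : 0 < Real.exp (-A.v) := Real.exp_pos _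
      have b4 : |(∫ t in E0, HH A.be A.b y (Xf t) ∂(un x T)) - ∫ z, HH A.be A.b y z ∂ν'| ≤
          Cp * Real.exp (-A.v) * (Cp * Cm * Real.pi * A.G y) + 2 * Cs * Real.exp (-A.v) * A.G y +
            Ca * (Real.exp (-A.v) + 1 / A.p0 + 1 / Real.sqrt T) * A.G y := by
        have e2 : (∫ t in E0, HH A.be A.b y (Xf t) ∂(un x T)) - ∫ z, HH A.be A.b y z ∂ν' =
            ((∫ t in E0, HH A.be A.b y (Xf t) ∂(un x T)) - ∫ t, A.W ∅ y (om t) ∂(un x T)) +
            ((∫ t, A.W ∅ y (om t) ∂(un x T)) - ∫ z, HH A.be A.b y z ∂ν') := by ring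
        rw [e2, e1]
        exact (abs_add_le _ _).trans (add_le_add ((abs_sub _ _).trans (add_le_add b1 b2)) b3)
      refine b4.trans ?_
      have hg := hG0 y
      set Ee : ℝ := Real.exp (-A.v) + 1 / A.p0 + 1 / Real.sqrt T with hEe
      have hEe1 : Real.exp (-A.v) ≤ Ee := by rw [hEe]; linarith
      have hEe0 : 0 ≤ Ee := by linarith
      have c1 : Cp * Real.exp (-A.v) * (Cp * Cm * Real.pi * A.G y) ≤
          Cp * (Cp * Cm * Real.pi) * (Ee * A.G y) := by
        have h1 : Real.exp (-A.v) * A.G y ≤ Ee * A.G y := mul_le_mul_of_nonneg_right hEe1 hg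
        have h2 : 0 ≤ Cp * (Cp * Cm * Real.pi) := by positivity
        calc Cp * Real.exp (-A.v) * (Cp * Cm * Real.pi * A.G y)
            = Cp * (Cp * Cm * Real.pi) * (Real.exp (-A.v) * A.G y) := by ring
          _ ≤ _ := mul_le_mul_of_nonneg_left h1 h2
      have c2 : 2 * Cs * Real.exp (-A.v) * A.G y ≤ 2 * Cs * (Ee * A.G y) := by
        have h1 : Real.exp (-A.v) * A.G y ≤ Ee * A.G y := mul_le_mul_of_nonneg_right hEe1 hg
        calc 2 * Cs * Real.exp (-A.v) * A.G y = 2 * Cs * (Real.exp (-A.v) * A.G y) := by ring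
          _ ≤ _ := mul_le_mul_of_nonneg_left h1 (by positivity)
      calc Cp * Real.exp (-A.v) * (Cp * Cm * Real.pi * A.G y) + 2 * Cs * Real.exp (-A.v) * A.G y +
            Ca * Ee * A.G y
          ≤ Cp * (Cp * Cm * Real.pi) * (Ee * A.G y) + 2 * Cs * (Ee * A.G y) + Ca * Ee * A.G y := by
            linarith
        _ = D * Ee * (1 * A.G y) := by rw [hD]; ring
        _ ≤ D * Ee * (K * A.G y) :=
            mul_le_mul_of_nonneg_left (mul_le_mul_of_nonneg_right hK1 hg) (by positivity))
  -- the measure of the interval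
  have e3 : ν (Ioc V1 V2) =
      un x T {t | A.Good ∅ (om t) ∧ V1 < A.X ∅ (om t) ∧ A.X ∅ (om t) ≤ V2} := by
    rw [hν, Measure.map_apply hXc.measurable measurableSet_Ioc,
      Measure.restrict_apply (hXc.measurable measurableSet_Ioc)]
    congr 1
    ext t
    simp [hE0, hXf, and_comm]
  rw [e3] at hcmp
  refine hcmp.trans ?_
  set Ee : ℝ := Real.exp (-A.v) + 1 / A.p0 + 1 / Real.sqrt T with hEe
  have hEe0 : 0 ≤ Ee := by positivity
  have hl1 : 1 ≤ V2 - V1 := by linarith
  have hs1 : 1 ≤ Real.sqrt (V2 - V1) := Real.one_le_sqrt.2 hl1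
  have h5 : D * Ee * (V2 - V1) + 1 ≤ (D + 1) * (Ee * (V2 - V1) + Real.sqrt (V2 - V1)) := by
    have i1 : 0 ≤ Ee * (V2 - V1) := mul_nonneg hEe0 (by linarith)
    have i2 : 0 ≤ D * Real.sqrt (V2 - V1) := by positivity
    nlinarith
  have h6 : 0 ≤ K * A.G V1 := mul_nonneg (by linarith) (hG0 V1)
  calc Cc * (D * Ee * (V2 - V1) + 1) * (K * A.G V1)
      ≤ Cc * ((D + 1) * (Ee * (V2 - V1) + Real.sqrt (V2 - V1))) * (K * A.G V1) :=
        mul_le_mul_of_nonneg_right (mul_le_mul_of_nonneg_left h5 (by linarith)) h6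
    _ = _ := by ring

end Pool.Agent.Lib.LC
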