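import Mathlib
import Pool.Agent.Lib.MP_f9aece_nt_gt.E3
import Pool.Agent.Lib.MP_f9aece_nt_loc.Stmts

/-!
The law of `log |zeta|` at bounded scale: C3, second moments of linear forms under the weights.
-/

set_option autoImplicit false

namespace Pool.Agent.Lib.LC

open MeasureTheory Set Filter Topology Complex ProbabilityTheory
open scoped ComplexConjugate
open Pool.Agent.Lib.GT Pool.Agent.Lib.GT.EE
open Pool.Agent.Lib.MP_f9aece_nt (VV)

namespace LinM

/-- the weights and the square of a real part, with bad groups -/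
lemma delta_s (hT : WTransfer) (hB : WBd) (hN : GroupNum) : ∃ C : ℝ, 0 ≤ C ∧ ∀ A : Par, A.Ok →
    ∀ T : ℝ, 3 ≤ T → Len A T → ∀ (x y : ℝ) (s : Finset ℕ), s ⊆ Finset.range A.J →
    ∀ (c : ℕ → ℂ), (∀ p : ℕ, ‖c p‖ ≤ 2 / Real.sqrt p) →
    ∀ L : ℝ, 1 ≤ L → A.be / 2 * (1 / L * |∑ p ∈ A.U, A.h p * (c p).re|)
      + (1 / L) ^ 2 / 4 * ∑ p ∈ A.U, ‖c p‖ ^ 2 ≤ 1 + ∑ g ∈ s, (A.r g : ℝ) →
    ∫⁻ t, ENNReal.ofReal (A.W s y (om t) * ((lin A.U c (om t)).re) ^ 2) ∂(un x T)
      ≤ ENNReal.ofReal (C * L ^ 2 * Real.exp (-∑ g ∈ s, (A.r g : ℝ)) * A.G y) := by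
  obtain ⟨C, hC, hT⟩ := hT
  obtain ⟨C', hC', hB⟩ := hB
  refine ⟨C + 4 * (C' * Real.exp 1), by positivity,
    fun A hA T hT0 hL x y s hs c hc L hL1 hexp => ?_⟩
  have hTp : 0 < T := by linarith
  have hLp : 0 < L := by linarith
  obtain ⟨-, -, -, n4, -, -, -, -⟩ := hN A hA
  have hY := hA.hY
  have hG := hA.G_pos y
  set R : ℝ := ∑ g ∈ s, (A.r g : ℝ) with hR
  set a : ℝ := Real.exp (-R) with ha
  have ha0 : 0 < a := Real.exp_pos _
  have hU : ∀ p ∈ A.U, p.Prime ∧ (p : ℝ) ≤ Real.exp A.Y := by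
    intro p hp
    have := (n4 p).mp hp
    exact ⟨this.1, this.2.2⟩
  have hc2 : ∀ p ∈ A.U, ‖c p‖ ≤ 2 := by
    intro p hp
    refine (hc p).trans ?_
    have h1 : (1 : ℝ) ≤ p := by exact_mod_cast (hU p hp).1.one_le
    rw [div_le_iff₀ (Real.sqrt_pos.mpr (by linarith))]
    have : 1 ≤ Real.sqrt p := by rwa [Real.one_le_sqrt]
    linarith
  have hlin := (lin_tp (by linarith) hU zero_le_two hc2).re
  have htp := hlin.mul hlin
  have htp' : TP (Real.exp A.Y * Real.exp A.Y) (2 * Real.exp A.Y * (2 * Real.exp A.Y))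
      (fun z => ((((lin A.U c z).re) ^ 2 : ℝ) : ℂ)) :=
    htp.congr fun z => by push_cast; ring
  -- the torus
  have key : ∀ τ : ℝ, |τ| = 1 / L → ∫ z, A.W s y z * Real.exp (τ * (lin A.U c z).re) ∂mu ≤
      C' * Real.exp 1 * a * A.G y := by
    intro τ hτ
    have hτ1 : |τ| ≤ 1 := by
      rw [hτ, div_le_one hLp]
      exact hL1
    have hτ2 : τ ^ 2 = (1 / L) ^ 2 := by rw [← sq_abs, hτ]
    have hexp' : A.be / 2 * (τ * ∑ p ∈ A.U, A.h p * (c p).re)
        + τ ^ 2 / 4 * ∑ p ∈ A.U, ‖c p‖ ^ 2 ≤ 1 + R := by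
      refine le_trans ?_ hexp
      rw [hτ2]
      refine add_le_add_left (mul_le_mul_of_nonneg_left ?_ (by have := hA.hbe; linarith)) _
      refine (le_abs_self _).trans ?_
      rw [abs_mul, hτ]
    have h1 := (hB A hA 0 0 (by simp) (by simp) (Dt τ c) (Dt_ok hτ1 hc) (1 + R) (expBd_Dt hexp') 1
      (fun _ => 1) small_one y).1 s hs
    have e1 : ∀ z : Om, (A.W s y z : ℂ) * (A.mo 0 s z * conj (A.mo 0 s z))
        * (HF A.U (Dt τ c) z * 1) = ((A.W s y z * Real.exp (τ * (lin A.U c z).re) : ℝ) : ℂ) := by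
      intro z
      rw [mo_zero, map_one, HF_Dt]
      push_cast
      ring
    simp only [e1] at h1
    rw [integral_complex_ofReal, Complex.norm_real, mul_one] at h1
    refine (le_abs_self _).trans (h1.trans (le_of_eq ?_))
    have e2 : Real.exp (-(2 * ∑ g ∈ s, (A.r g : ℝ))) * Real.exp (1 + R) = Real.exp 1 * a := by
      rw [ha, ← Real.exp_add, ← Real.exp_add]
      congr 1
      rw [← hR]
      ring
    calc C' * Real.exp (-(2 * ∑ g ∈ s, (A.r g : ℝ))) * Real.exp (1 + R) * A.G y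
        = C' * (Real.exp (-(2 * ∑ g ∈ s, (A.r g : ℝ))) * Real.exp (1 + R)) * A.G y := by ring
      _ = _ := by rw [e2]; ring
  have hWc : Continuous fun z : Om => A.W s y z := A.continuous_W' hA s y
  obtain ⟨BW, hBW⟩ := A.W_le hA s y
  have hW0 : ∀ z, 0 ≤ A.W s y z := A.W_nonneg hA.b_pos.le s y
  have hRc : Continuous fun z : Om => (lin A.U c z).re :=
    Complex.continuous_re.comp (continuous_lin _ _)
  have hRb : ∀ z : Om, |(lin A.U c z).re| ≤ ∑ p ∈ A.U, ‖c p‖ := fun z =>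
    (Complex.abs_re_le_norm _).trans (norm_lin_le _ _ _)
  have hint : ∀ τ : ℝ, Integrable (fun z : Om => A.W s y z * Real.exp (τ * (lin A.U c z).re)) mu := by
    intro τ
    refine integrable_of_bd (hWc.mul (Real.continuous_exp.comp
      (continuous_const.mul hRc))).aestronglyMeasurable
      (C := BW * Real.exp (|τ| * ∑ p ∈ A.U, ‖c p‖)) fun z => ?_
    rw [Real.norm_of_nonneg (mul_nonneg (hW0 _) (Real.exp_nonneg _))]
    refine mul_le_mul (hBW z) (Real.exp_le_exp.mpr ?_) (Real.exp_nonneg _) ((hW0 z).trans (hBW z))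
    refine (le_abs_self _).trans ?_
    rw [abs_mul]
    exact mul_le_mul_of_nonneg_left (hRb z) (abs_nonneg _)
  have hint2 : Integrable (fun z : Om => A.W s y z * ((lin A.U c z).re) ^ 2) mu := by
    refine integrable_of_bd (hWc.mul (hRc.pow 2)).aestronglyMeasurable
      (C := BW * (∑ p ∈ A.U, ‖c p‖) ^ 2) fun z => ?_
    rw [Real.norm_of_nonneg (mul_nonneg (hW0 _) (sq_nonneg _))]
    refine mul_le_mul (hBW z) ?_ (sq_nonneg _) ((hW0 z).trans (hBW z))
    rw [← sq_abs]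
    exact pow_le_pow_left₀ (abs_nonneg _) (hRb z) 2
  have h2 : ∫ z, A.W s y z * ((lin A.U c z).re) ^ 2 ∂mu ≤
      4 * (C' * Real.exp 1) * L ^ 2 * a * A.G y := by
    have k1 := key (1 / L) (abs_of_pos (by positivity))
    have k2 := key (-(1 / L)) (by rw [abs_neg]; exact abs_of_pos (by positivity))
    calc ∫ z, A.W s y z * ((lin A.U c z).re) ^ 2 ∂mu
        ≤ ∫ z, 2 * L ^ 2 * (A.W s y z * Real.exp (1 / L * (lin A.U c z).re)
            + A.W s y z * Real.exp (-(1 / L) * (lin A.U c z).re)) ∂mu := by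
          refine integral_mono hint2 (((hint _).add (hint _)).const_mul _) fun z => ?_
          have h3 := sq_le_exp (1 / L * (lin A.U c z).re)
          have h4 : (lin A.U c z).re ^ 2 = L ^ 2 * (1 / L * (lin A.U c z).re) ^ 2 := by
            field_simp
          show A.W s y z * (lin A.U c z).re ^ 2 ≤ _
          rw [h4, neg_mul]
          have h5 := hW0 z
          calc A.W s y z * (L ^ 2 * (1 / L * (lin A.U c z).re) ^ 2)
              = L ^ 2 * (A.W s y z * (1 / L * (lin A.U c z).re) ^ 2) := by ring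
            _ ≤ L ^ 2 * (A.W s y z * (2 * (Real.exp (1 / L * (lin A.U c z).re)
                + Real.exp (-(1 / L * (lin A.U c z).re))))) := by gcongr
            _ = _ := by ring
      _ = 2 * L ^ 2 * (∫ z, A.W s y z * Real.exp (1 / L * (lin A.U c z).re) ∂mu
            + ∫ z, A.W s y z * Real.exp (-(1 / L) * (lin A.U c z).re) ∂mu) := by
          rw [integral_const_mul, integral_add (hint _) (hint _)]
      _ ≤ 2 * L ^ 2 * (C' * Real.exp 1 * a * A.G y + C' * Real.exp 1 * a * A.G y) := by gcongr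
      _ = _ := by ring
  have hN1 : 1 ≤ Real.exp A.Y * Real.exp A.Y := by
    rw [← Real.exp_add]
    exact Real.one_le_exp (by linarith)
  have h3 := (hT A hA s hs 0 0 (by simp) (by simp) _ _
    (fun z => ((((lin A.U c z).re) ^ 2 : ℝ) : ℂ)) hN1 htp' x T y hTp).1
  have h4 := abs_mean_sub_le (A := A) (s := s) (x := x) (y := y)
    (H := fun z => ((lin A.U c z).re) ^ 2) h3
  have h5 := lmean_le (H := fun z => ((lin A.U c z).re) ^ 2) hA hTp (hRc.pow 2)
    (fun z => sq_nonneg _)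
    ⟨(∑ p ∈ A.U, ‖c p‖) ^ 2, fun z => by
      show (lin A.U c z).re ^ 2 ≤ _
      rw [← sq_abs]
      exact pow_le_pow_left₀ (abs_nonneg _) (hRb z) 2⟩ h2 h4
  refine h5.trans (ENNReal.ofReal_le_ofReal ?_)
  have hK := K_ge hA
  have hv : (4 : ℝ) ≤ A.v := by exact_mod_cast hA.hv
  have hKY : 4 * A.Y ≤ A.v * A.Y := by nlinarith
  have h6 := err_le hN hA hT0 hL y (D := 2 * Real.exp A.Y * (2 * Real.exp A.Y) *
    (Real.exp A.Y * Real.exp A.Y)) (by positivity) (by
      have e : 2 * Real.exp A.Y * (2 * Real.exp A.Y) * (Real.exp A.Y * Real.exp A.Y) =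
          4 * Real.exp (4 * A.Y) := by
        rw [show 4 * A.Y = A.Y + A.Y + (A.Y + A.Y) by ring, Real.exp_add, Real.exp_add]
        ring
      have h4' : (4 : ℝ) ≤ Real.exp (A.v * A.Y) := by
        have := Real.add_one_le_exp (A.v * A.Y)
        linarith
      rw [e]
      calc 4 * Real.exp (4 * A.Y) ≤ Real.exp (A.v * A.Y) * Real.exp (A.v * A.Y) := by gcongr
        _ = Real.exp (A.v * A.Y + A.v * A.Y) := by rw [Real.exp_add]
        _ ≤ _ := Real.exp_le_exp.mpr (by linarith))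
  have h7 : R ≤ ∑ g ∈ Finset.range A.J, (A.r g : ℝ) :=
    Finset.sum_le_sum_of_subset_of_nonneg hs fun _ _ _ => by positivity
  have h9 : A.G y / Real.sqrt T ≤ A.G y := by
    refine div_le_self hG.le ?_
    rw [Real.one_le_sqrt]
    linarith
  have h10 : Real.exp (-∑ g ∈ Finset.range A.J, (A.r g : ℝ)) ≤ a :=
    Real.exp_le_exp.mpr (by linarith)
  have h13 : (1 : ℝ) ≤ L ^ 2 := one_le_pow₀ hL1
  have h14 : a * A.G y ≤ L ^ 2 * a * A.G y := by
    have h15 : 0 < a * A.G y := by positivity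
    nlinarith
  have h15 : C * (Real.exp (-(A.be * y)) * (Real.exp (2 * 10 ^ 7 * A.v * A.Y) *
      (2 * Real.exp A.Y * (2 * Real.exp A.Y) * (Real.exp A.Y * Real.exp A.Y) / T))) ≤
      C * (L ^ 2 * a * A.G y) := by
    refine mul_le_mul_of_nonneg_left ?_ hC
    refine h6.trans (le_trans ?_ h14)
    exact mul_le_mul h10 h9 (by positivity) ha0.le
  calc _ ≤ 4 * (C' * Real.exp 1) * L ^ 2 * a * A.G y + C * (L ^ 2 * a * A.G y) := by
        gcongr
    _ = _ := by ring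

/-- sums over all the primes: outside and inside the bad groups -/
lemma sum_split (hN : GroupNum) {A : Par} (hA : A.Ok) {s : Finset ℕ} (hs : s ⊆ Finset.range A.J)
    (f : ℕ → ℝ) (k : ℝ) (hk : 0 ≤ k) (hf : ∀ p : ℕ, p.Prime → f p ≤ k / p) :
    ∑ p ∈ A.U, f p ≤ ∑ p ∈ A.U \ s.biUnion A.S, f p + 2 * k * ∑ g ∈ s, (A.r g : ℝ) := by
  obtain ⟨n1, n2, n3, -⟩ := hN A hA
  have hsub : s.biUnion A.S ⊆ A.U := Finset.biUnion_subset_biUnion_of_subset_left _ hs
  rw [← Finset.sum_sdiff hsub]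
  refine add_le_add_right ?_ _
  rw [Finset.sum_biUnion fun g _ g' _ hgg => n3 g g' hgg, Finset.mul_sum]
  refine Finset.sum_le_sum fun g _ => ?_
  have h1 : ∑ p ∈ A.S g, f p ≤ k * VV (A.S g) := by
    unfold VV
    rw [Finset.mul_sum]
    refine Finset.sum_le_sum fun p hp => ?_
    rw [← div_eq_mul_inv]
    exact hf p (n1 g p hp).1
  have h2 := mul_le_mul_of_nonneg_left (n2 g) hk
  linarith

end LinM

open LinM

/-- C3 -/
theorem linMean (hT : WTransfer) (hB : WBd) (hN : GroupNum) : LinMean := by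
  obtain ⟨C, hC, hD⟩ := delta_s hT hB hN
  refine ⟨16 * C + 1, 3, by linarith, le_refl _, fun A hA T hT0 hL x y s hs c hc D hD1 h1 h2 => ?_⟩
  have hG := hA.G_pos y
  have hDp : 0 < D := by linarith
  set R : ℝ := ∑ g ∈ s, (A.r g : ℝ) with hR
  have hR0 : 0 ≤ R := Finset.sum_nonneg fun _ _ => by positivity
  have hsq : ∀ p : ℕ, p.Prime → (1 / Real.sqrt p) * (1 / Real.sqrt p) = 1 / (p : ℝ) := by
    intro p hp
    rw [div_mul_div_comm, one_mul, Real.mul_self_sqrt (Nat.cast_nonneg p)]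
  have k1 : ∑ p ∈ A.U, A.h p * ‖c p‖ ≤ D + 4 * R := by
    have := sum_split hN hA hs (fun p => A.h p * ‖c p‖) 2 (by norm_num) (fun p hp => by
      calc A.h p * ‖c p‖ ≤ 1 / Real.sqrt p * (2 / Real.sqrt p) :=
            mul_le_mul (h_le hA hp.one_le) (hc p) (norm_nonneg _) (by positivity)
        _ = 2 * (1 / Real.sqrt p * (1 / Real.sqrt p)) := by ring
        _ = _ := by rw [hsq p hp]; ring)
    linarith
  have k2 : ∑ p ∈ A.U, ‖c p‖ ^ 2 ≤ D ^ 2 + 8 * R := by
    have := sum_split hN hA hs (fun p => ‖c p‖ ^ 2) 4 (by norm_num) (fun p hp => by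
      calc ‖c p‖ ^ 2 ≤ (2 / Real.sqrt p) ^ 2 := pow_le_pow_left₀ (norm_nonneg _) (hc p) 2
        _ = 4 * (1 / Real.sqrt p * (1 / Real.sqrt p)) := by ring
        _ = _ := by rw [hsq p hp]; ring)
    linarith
  have k3 : |∑ p ∈ A.U, A.h p * (c p).re| ≤ D + 4 * R := by
    refine ((Finset.abs_sum_le_sum_abs _ _).trans (Finset.sum_le_sum fun p _ => ?_)).trans k1
    rw [abs_mul, abs_of_nonneg (h_nonneg p)]
    exact mul_le_mul_of_nonneg_left (Complex.abs_re_le_norm _) (h_nonneg p)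
  have hbe := hA.hbe
  have hbe' : A.be ≤ 1 / 20 := hA.hbb.trans hA.hb
  have hexp : A.be / 2 * (1 / (4 * D) * |∑ p ∈ A.U, A.h p * (c p).re|)
      + (1 / (4 * D)) ^ 2 / 4 * ∑ p ∈ A.U, ‖c p‖ ^ 2 ≤ 1 + R := by
    have m1 : 1 / (4 * D) * |∑ p ∈ A.U, A.h p * (c p).re| ≤ 1 / (4 * D) * (D + 4 * R) := by gcongr
    have m2 : 1 / (4 * D) * (D + 4 * R) ≤ 1 / 4 + R := by
      rw [one_div, inv_mul_le_iff₀ (by positivity)]
      nlinarith
    have m3 : A.be / 2 * (1 / (4 * D) * |∑ p ∈ A.U, A.h p * (c p).re|) ≤ 1 / 40 * (1 / 4 + R) :=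
      mul_le_mul (by linarith) (m1.trans m2) (by positivity) (by norm_num)
    have m4 : (1 / (4 * D)) ^ 2 / 4 * ∑ p ∈ A.U, ‖c p‖ ^ 2 ≤
        (1 / (4 * D)) ^ 2 / 4 * (D ^ 2 + 8 * R) := by gcongr
    have m5 : (1 / (4 * D)) ^ 2 / 4 * (D ^ 2 + 8 * R) ≤ 1 / 64 + R / 8 := by
      have e : (1 / (4 * D)) ^ 2 / 4 * (D ^ 2 + 8 * R) = 1 / 64 + R / 8 * (1 / D ^ 2) := by
        field_simp
        ring
      rw [e]
      have m6 : 1 / D ^ 2 ≤ 1 := by
        rw [div_le_one (by positivity)]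
        exact one_le_pow₀ hD1
      have m7 : 0 ≤ R / 8 := by positivity
      nlinarith
    linarith
  refine (hD A hA T hT0 hL x y s hs c hc (4 * D) (by linarith) hexp).trans
    (ENNReal.ofReal_le_ofReal ?_)
  rw [← hR]
  have : 0 < D ^ 2 * Real.exp (-R) * A.G y := by positivity
  nlinarith

end Pool.Agent.Lib.LC
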