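import Mathlib
import Pool.Agent.Lib.MP_f9aece_nt_loc.Stmts
import Pool.Agent.Lib.MP_f9aece_nt_gt.Cont
import Pool.Agent.Lib.MP_f9aece_nt_gt.E1

/-!
The law of `log |zeta|` at bounded scale: D1, most heights are nice.
-/

set_option autoImplicit false

namespace Pool.Agent.Lib.LC

open MeasureTheory Set Filter Topology Complex ProbabilityTheory
open scoped ComplexConjugate
open Pool.Agent.Lib.GT

namespace NM

lemma continuous_zeta_pt {σ : ℝ} (h : σ ≤ 1 / 100) : Continuous fun t : ℝ => riemannZeta (pt σ t) := by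
  refine continuous_iff_continuousAt.2 fun t => ?_
  have h1 : pt σ t ≠ 1 := by
    intro h2
    have h3 := congrArg Complex.re h2
    unfold pt at h3
    simp at h3
    linarith
  have h4 : Continuous fun t : ℝ => pt σ t := by
    unfold pt
    fun_prop
  exact ContinuousAt.comp (f := fun t : ℝ => pt σ t) (g := riemannZeta)
    (differentiableAt_riemannZeta h1).continuousAt h4.continuousAt

lemma continuous_zeta_line : Continuous fun t : ℝ => riemannZeta (1 / 2 + I * t) := by
  have h := continuous_zeta_pt (σ := 0) (by norm_num)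
  refine h.congr fun t => ?_
  unfold pt
  simp

/-- the kernel mean of zeta -/
noncomputable def KM (lam t : ℝ) : ENNReal :=
  ∫⁻ w : ℝ, ENNReal.ofReal (kd lam w * ‖riemannZeta (1 / 2 + I * (t + w : ℝ))‖ ^ 2)

lemma measurable_KM {lam : ℝ} (hl : 0 < lam) : Measurable (KM lam) := by
  have h1 : Continuous fun q : ℝ × ℝ =>
      kd lam q.2 * ‖riemannZeta (1 / 2 + I * (q.1 + q.2 : ℝ))‖ ^ 2 := by
    have h2 : Continuous fun q : ℝ × ℝ => riemannZeta (1 / 2 + I * (q.1 + q.2 : ℝ)) :=
      continuous_zeta_line.comp (f := fun q : ℝ × ℝ => q.1 + q.2) (by fun_prop)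
    have h3 : Continuous fun w : ℝ => kd lam w := by
      unfold kd
      refine continuous_const.div (by fun_prop) fun w => ?_
      have : 0 ≤ |w| / lam := by positivity
      positivity
    exact (h3.comp continuous_snd).mul (h2.norm.pow 2)
  exact (ENNReal.measurable_ofReal.comp h1.measurable).lintegral_prod_right'

end NM

open NM

/-- D1 -/
theorem niceMean (hL : LowPt) (hS : SupMean) : NiceMean := by
  obtain ⟨C1, T1, hC1, hT1, hL⟩ := hL
  obtain ⟨C2, T2, hC2, hT2, hS⟩ := hS
  refine ⟨C1 + C2, 10, max T1 T2, by linarith, by norm_num, le_max_of_le_left hT1, ?_⟩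
  intro A hA T hT hLen hp hlY hlT hl x hx y
  have hT1' : T1 ≤ T := (le_max_left _ _).trans hT
  have hT2' : T2 ≤ T := (le_max_right _ _).trans hT
  have hTp : 0 < T := by linarith
  have hY1 := hA.hY
  have hY0 : 0 < A.Y := by linarith
  have hlam : 0 < A.lam := by
    rcases lt_or_ge 0 A.lam with h | h
    · exact h
    · have : A.lam * A.Y ≤ 0 := mul_nonpos_of_nonpos_of_nonneg h hY0.le
      linarith
  have hG := hA.G_pos y
  have hmo : Continuous fun t : ℝ => ‖A.mo (-1) ∅ (om t)‖ :=
    ((A.continuous_mo (-1) ∅).comp continuous_om).norm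
  have hmeas : MeasurableSet {t : ℝ | Nice 10 A T t} := by
    have h1 : MeasurableSet {t : ℝ | Real.exp (-(A.lam * Real.log T))
        < ‖riemannZeta (pt A.lam t)‖ * ‖A.mo (-1) ∅ (om t)‖} :=
      measurableSet_lt measurable_const (((continuous_zeta_pt hl).norm).mul hmo).measurable
    have h2 : MeasurableSet {t : ℝ | ENNReal.ofReal (‖A.mo (-1) ∅ (om t)‖ ^ 2) * KM A.lam t
        ≤ ENNReal.ofReal (Real.exp (10 * (A.lam * Real.log T)))} :=
      measurableSet_le ((ENNReal.measurable_ofReal.comp (hmo.pow 2).measurable).mul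
        (measurable_KM hlam)) measurable_const
    exact h1.inter h2
  refine ⟨hmeas, ?_⟩
  set K : ℝ := A.lam * Real.log T with hK
  set S1 : Set ℝ := {t | t ∈ Icc (T ^ (19 / 20 : ℝ)) (x + T) ∧ ‖riemannZeta (pt A.lam t)‖
      * ‖A.mo (-1) ∅ (om t)‖ ≤ Real.exp (-K)} with hS1
  set S2 : Set ℝ := {t | t ∈ Icc (T ^ (19 / 20 : ℝ)) (x + T) ∧ ENNReal.ofReal (Real.exp (10 * K))
      ≤ ENNReal.ofReal (‖A.mo (-1) ∅ (om t)‖ ^ 2) * KM A.lam t} with hS2
  have hsub : {t | t ∈ Icc (T ^ (19 / 20 : ℝ)) (x + T) ∧ ¬ Nice 10 A T t} ⊆ S1 ∪ S2 := by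
    rintro t ⟨ht, hn⟩
    by_cases h1 : Real.exp (-K) < ‖riemannZeta (pt A.lam t)‖ * ‖A.mo (-1) ∅ (om t)‖
    · right
      refine ⟨ht, ?_⟩
      by_contra h2
      exact hn ⟨h1, (not_le.1 h2).le⟩
    · left
      exact ⟨ht, not_lt.1 h1⟩
  have hm2 : MeasurableSet S2 := measurableSet_Icc.inter
    (measurableSet_le measurable_const ((ENNReal.measurable_ofReal.comp (hmo.pow 2).measurable).mul
      (measurable_KM hlam)))
  have hkap0 : 0 ≤ Real.log A.p0 ^ 20 * (1 + A.lam * A.Y) ^ 40 * (Real.log T / A.Y)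
    * (Real.exp (-(A.lam * Real.log T / 8)) + Real.exp (-(2 * A.lam * A.Y))) := by
    have : 0 ≤ Real.log A.p0 := Real.log_natCast_nonneg _
    have h2 : 0 ≤ Real.log T := Real.log_nonneg (by linarith)
    positivity
  have hlow := hL A hA T hT1' hLen hp hlY hlT hl x hx y
  have hsup := hS A hA T hT2' hLen (by linarith) hl x hx y
  have hW0 : ∀ z, 0 ≤ A.W ∅ y z := A.W_nonneg hA.b_pos.le ∅ y
  have hpt : ∀ t ∈ S2, ENNReal.ofReal (A.W ∅ y (om t)) ≤ ENNReal.ofReal (Real.exp (-(10 * K)))
      * (ENNReal.ofReal (A.W ∅ y (om t) * ‖A.mo (-1) ∅ (om t)‖ ^ 2) * KM A.lam t) := by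
    rintro t ⟨_, h2⟩
    rw [ENNReal.ofReal_mul (hW0 _)]
    calc ENNReal.ofReal (A.W ∅ y (om t))
        = ENNReal.ofReal (Real.exp (-(10 * K))) * (ENNReal.ofReal (A.W ∅ y (om t))
          * ENNReal.ofReal (Real.exp (10 * K))) := by
          rw [← ENNReal.ofReal_mul (hW0 _), ← ENNReal.ofReal_mul (Real.exp_pos _).le]
          congr 1
          have : Real.exp (-(10 * K)) * Real.exp (10 * K) = 1 := by
            rw [← Real.exp_add]
            simp
          linear_combination (-(A.W ∅ y (om t))) * this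
      _ ≤ ENNReal.ofReal (Real.exp (-(10 * K))) * (ENNReal.ofReal (A.W ∅ y (om t))
          * (ENNReal.ofReal (‖A.mo (-1) ∅ (om t)‖ ^ 2) * KM A.lam t)) := by gcongr
      _ = _ := by rw [mul_assoc (ENNReal.ofReal (A.W ∅ y (om t)))]
  have hI2 : ∫⁻ t in S2, ENNReal.ofReal (A.W ∅ y (om t)) ∂(un x T)
      ≤ ENNReal.ofReal (C2 * kap A T * A.G y) := by
    calc ∫⁻ t in S2, ENNReal.ofReal (A.W ∅ y (om t)) ∂(un x T)
        ≤ ∫⁻ t in S2, ENNReal.ofReal (Real.exp (-(10 * K)))
          * (ENNReal.ofReal (A.W ∅ y (om t) * ‖A.mo (-1) ∅ (om t)‖ ^ 2) * KM A.lam t) ∂(un x T) :=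
          setLIntegral_mono' hm2 hpt
      _ ≤ ∫⁻ t in Icc (T ^ (19 / 20 : ℝ)) (x + T), ENNReal.ofReal (Real.exp (-(10 * K)))
          * (ENNReal.ofReal (A.W ∅ y (om t) * ‖A.mo (-1) ∅ (om t)‖ ^ 2) * KM A.lam t) ∂(un x T) :=
          lintegral_mono_set fun t ht => ht.1
      _ = ENNReal.ofReal (Real.exp (-(10 * K))) * ∫⁻ t in Icc (T ^ (19 / 20 : ℝ)) (x + T),
          ENNReal.ofReal (A.W ∅ y (om t) * ‖A.mo (-1) ∅ (om t)‖ ^ 2) * KM A.lam t ∂(un x T) :=
          lintegral_const_mul' _ _ ENNReal.ofReal_ne_top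
      _ ≤ ENNReal.ofReal (Real.exp (-(10 * K)))
          * ENNReal.ofReal (C2 * (Real.log A.p0 ^ 20 * (Real.log T / A.Y) * (1 + A.lam * A.Y) ^ 17
            * (1 + A.lam * Real.log T) ^ 5) * A.G y) := mul_le_mul_right hsup _
      _ = ENNReal.ofReal (Real.exp (-(10 * K)) * (C2 * (Real.log A.p0 ^ 20 * (Real.log T / A.Y)
            * (1 + A.lam * A.Y) ^ 17 * (1 + A.lam * Real.log T) ^ 5) * A.G y)) := by
          rw [ENNReal.ofReal_mul (Real.exp_pos _).le]
      _ ≤ _ := by
          refine ENNReal.ofReal_le_ofReal ?_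
          rw [← hK]
          have hK1 : 0 ≤ K := by linarith
          have g1 : (1 + K) ^ 5 ≤ Real.exp (5 * K) := by
            have h3 : 1 + K ≤ Real.exp K := by
              have := Real.add_one_le_exp K
              linarith
            calc (1 + K) ^ 5 ≤ Real.exp K ^ 5 := by gcongr
              _ = Real.exp (5 * K) := by
                  rw [← Real.exp_nat_mul]
                  norm_num
          have g2 : Real.exp (-(10 * K)) * (1 + K) ^ 5 ≤ Real.exp (-(K / 8)) := by
            calc Real.exp (-(10 * K)) * (1 + K) ^ 5 ≤ Real.exp (-(10 * K)) * Real.exp (5 * K) := by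
                  gcongr
              _ = Real.exp (-(10 * K) + 5 * K) := (Real.exp_add _ _).symm
              _ ≤ _ := Real.exp_le_exp.mpr (by linarith)
          have hp0 : 0 ≤ Real.log A.p0 := Real.log_natCast_nonneg _
          have hT0 : 0 ≤ Real.log T := Real.log_nonneg (by linarith)
          have g3 : (1 + A.lam * A.Y) ^ 17 ≤ (1 + A.lam * A.Y) ^ 40 :=
            pow_le_pow_right₀ (by linarith) (by norm_num)
          have g4 : Real.log A.p0 ^ 20 * (Real.log T / A.Y) * (1 + A.lam * A.Y) ^ 17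
              * (Real.exp (-(10 * K)) * (1 + K) ^ 5) ≤ kap A T := by
            unfold kap
            have h5 : 0 ≤ Real.exp (-A.v : ℝ) := (Real.exp_pos _).le
            have h6 : (0 : ℝ) ≤ 1 / A.p0 := by positivity
            have h7 : 0 ≤ Real.exp (-(2 * A.lam * A.Y)) := (Real.exp_pos _).le
            calc Real.log A.p0 ^ 20 * (Real.log T / A.Y) * (1 + A.lam * A.Y) ^ 17
                * (Real.exp (-(10 * K)) * (1 + K) ^ 5)
                ≤ Real.log A.p0 ^ 20 * (Real.log T / A.Y) * (1 + A.lam * A.Y) ^ 40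
                * Real.exp (-(K / 8)) := by
                  have : 0 ≤ (1 + A.lam * A.Y) ^ 17 := by
                    have : 0 ≤ A.lam * A.Y := by positivity
                    positivity
                  gcongr
              _ ≤ Real.log A.p0 ^ 20 * (Real.log T / A.Y) * (1 + A.lam * A.Y) ^ 40
                * (Real.exp (-(K / 8)) + Real.exp (-(2 * A.lam * A.Y))) := by
                  have : 0 ≤ (1 + A.lam * A.Y) ^ 40 := by
                    have : 0 ≤ A.lam * A.Y := by positivity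
                    positivity
                  gcongr
                  linarith
              _ = Real.log A.p0 ^ 20 * (1 + A.lam * A.Y) ^ 40 * (Real.log T / A.Y)
                * (Real.exp (-(K / 8)) + Real.exp (-(2 * A.lam * A.Y))) := by ring
              _ ≤ _ := by
                  rw [hK]
                  linarith
          calc Real.exp (-(10 * K)) * (C2 * (Real.log A.p0 ^ 20 * (Real.log T / A.Y)
                * (1 + A.lam * A.Y) ^ 17 * (1 + K) ^ 5) * A.G y)
              = C2 * (Real.log A.p0 ^ 20 * (Real.log T / A.Y) * (1 + A.lam * A.Y) ^ 17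
                * (Real.exp (-(10 * K)) * (1 + K) ^ 5)) * A.G y := by ring
            _ ≤ C2 * kap A T * A.G y := by gcongr
  have hk : 0 ≤ kap A T := by
    unfold kap
    positivity
  calc ∫⁻ t in {t | t ∈ Icc (T ^ (19 / 20 : ℝ)) (x + T) ∧ ¬ Nice 10 A T t},
        ENNReal.ofReal (A.W ∅ y (om t)) ∂(un x T)
      ≤ ∫⁻ t in S1 ∪ S2, ENNReal.ofReal (A.W ∅ y (om t)) ∂(un x T) := lintegral_mono_set hsub
    _ ≤ (∫⁻ t in S1, ENNReal.ofReal (A.W ∅ y (om t)) ∂(un x T))
        + ∫⁻ t in S2, ENNReal.ofReal (A.W ∅ y (om t)) ∂(un x T) := lintegral_union_le _ _ _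
    _ ≤ ENNReal.ofReal (C1 * kap A T * A.G y) + ENNReal.ofReal (C2 * kap A T * A.G y) :=
        add_le_add hlow hI2
    _ = _ := by
        rw [← ENNReal.ofReal_add (by positivity) (by positivity)]
        congr 1
        ring

end Pool.Agent.Lib.LC
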