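import Mathlib
import Pool.Agent.Lib.MP_f9aece_nt_loc.Stmts

/-!
Module D2: at a nice height small values of zeta nearby are rare.
-/

set_option autoImplicit false

namespace Pool.Agent.Lib.LC

open MeasureTheory Set Filter Topology Complex ProbabilityTheory
open scoped ComplexConjugate
open Pool.Agent.Lib.GT

namespace NS

/-- the mollifier at a good point -/
theorem mo_le {A : Par} {x : Om} {ε : ℝ} (hε : ε ≤ 1)
    (h : ‖A.mo (-1) ∅ x * cexp (∑ g ∈ Finset.range A.J \ ∅, A.P g x) - 1‖ ≤ ε) :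
    ‖A.mo (-1) ∅ x‖ ≤ 2 * Real.exp (-(A.X ∅ x)) := by
  have h1 : ‖A.mo (-1) ∅ x * cexp (∑ g ∈ Finset.range A.J \ ∅, A.P g x)‖ ≤ 2 := by
    calc ‖A.mo (-1) ∅ x * cexp (∑ g ∈ Finset.range A.J \ ∅, A.P g x)‖
        = ‖(A.mo (-1) ∅ x * cexp (∑ g ∈ Finset.range A.J \ ∅, A.P g x) - 1) + 1‖ := by
          rw [sub_add_cancel]
      _ ≤ ‖A.mo (-1) ∅ x * cexp (∑ g ∈ Finset.range A.J \ ∅, A.P g x) - 1‖ + ‖(1 : ℂ)‖ :=
          norm_add_le _ _
      _ ≤ 2 := by rw [norm_one]; linarith
  rw [norm_mul, Complex.norm_exp, Complex.re_sum] at h1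
  have h2 : (∑ g ∈ Finset.range A.J \ ∅, (A.P g x).re) = A.X ∅ x := rfl
  rw [h2] at h1
  have h3 : ‖A.mo (-1) ∅ x‖ = ‖A.mo (-1) ∅ x‖ * Real.exp (A.X ∅ x) * Real.exp (-(A.X ∅ x)) := by
    rw [mul_assoc, ← Real.exp_add, add_neg_cancel, Real.exp_zero, mul_one]
  rw [h3]
  exact mul_le_mul_of_nonneg_right h1 (Real.exp_pos _).le

end NS

/-- D2 -/
theorem niceShift (hD : DiscSup) (hC : Cartan) (hP : GT.Pointwise) : NiceShift := by
  intro C2 hC2
  obtain ⟨C, T0, hC1, hT0, hD⟩ := hD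
  obtain ⟨c, Cc, hc, hCc, hCar⟩ := hC
  obtain ⟨Cp, hCp, hP⟩ := hP
  have hM : (0 : ℝ) < 2 * C + C2 := by linarith
  refine ⟨c / (2 * C + C2), Cc + c, T0, ⌈Cp⌉₊, by positivity, by linarith, hT0, ?_⟩
  intro A hA hv T hT hK hlam t ht1 ht2 hgood hnice a
  obtain ⟨hn1, hn2⟩ := hnice
  set K : ℝ := A.lam * Real.log T with hKdef
  have hK1 : 1 ≤ K := by linarith
  have hlam0 : 0 < A.lam := by
    rcases lt_or_eq_of_le hA.hl with h | h
    · exact h
    · rw [hKdef, ← h] at hK
      norm_num at hK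
  have hT1 : (1 : ℝ) ≤ T := by linarith
  have hT9 : (1 : ℝ) ≤ T ^ (9 / 10 : ℝ) := Real.one_le_rpow hT1 (by norm_num)
  set m : ℝ := ‖A.mo (-1) ∅ (om t)‖ with hm
  have hm0 : 0 ≤ m := norm_nonneg _
  have hpw := (hP A hA ∅ (Finset.empty_subset _) (om t) hgood).2
  have hε : Cp * Real.exp (-A.v) ≤ 1 := by
    have h1 : Cp ≤ A.v := by
      have := Nat.le_ceil Cp
      have h2 : ((⌈Cp⌉₊ : ℕ) : ℝ) ≤ A.v := by exact_mod_cast hv
      linarith
    have h2 : Cp ≤ Real.exp A.v := by
      have := Real.add_one_le_exp (A.v : ℝ)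
      linarith
    calc Cp * Real.exp (-A.v) ≤ Real.exp A.v * Real.exp (-A.v) :=
          mul_le_mul_of_nonneg_right h2 (Real.exp_pos _).le
      _ = 1 := by rw [← Real.exp_add, add_neg_cancel, Real.exp_zero]
  have hmo := NS.mo_le hε hpw
  rw [← hm] at hmo
  have hne : ∀ s ∈ Metric.closedBall (pt A.lam t) (5 * A.lam), s ≠ 1 := by
    intro s hs h1
    rw [h1, Metric.mem_closedBall, dist_eq_norm] at hs
    have h2 := Complex.abs_im_le_norm (1 - pt A.lam t)
    have h3 : (1 - pt A.lam t).im = -t := by simp [pt]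
    rw [h3, abs_neg, abs_of_pos (by linarith)] at h2
    linarith
  have hcar := hCar (fun s => riemannZeta s * (m : ℂ)) t A.lam ((2 * C + C2) * K) (a - 1) hlam0
    (by nlinarith)
    (by
      intro s hs
      have h1 : s ∈ ({1}ᶜ : Set ℂ) := hne s hs
      have h2 : AnalyticAt ℂ riemannZeta s :=
        DifferentiableOn.analyticAt (s := ({1}ᶜ : Set ℂ))
          (fun z hz => (differentiableAt_riemannZeta hz).differentiableWithinAt)
          (isOpen_compl_singleton.mem_nhds h1)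
      exact h2.mul analyticAt_const)
    (by
      intro s hs
      have h1 := hD T A.lam t hT hlam0 hlam hK1 ht1 ht2 s hs
      rw [← hKdef] at h1
      rw [norm_mul, Complex.norm_real, Real.norm_of_nonneg hm0]
      have h2 : ENNReal.ofReal (m ^ 2 * ‖riemannZeta s‖ ^ 2)
          ≤ ENNReal.ofReal (C * Real.exp (C * K) * Real.exp (C2 * K)) := by
        rw [ENNReal.ofReal_mul (by positivity), ENNReal.ofReal_mul (by positivity)]
        calc ENNReal.ofReal (m ^ 2) * ENNReal.ofReal (‖riemannZeta s‖ ^ 2)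
            ≤ ENNReal.ofReal (m ^ 2) * (ENNReal.ofReal (C * Real.exp (C * K))
              * ∫⁻ w : ℝ, ENNReal.ofReal (kd A.lam w * ‖riemannZeta (1 / 2 + I * (t + w : ℝ))‖ ^ 2)) :=
              mul_le_mul_right h1 _
          _ = ENNReal.ofReal (C * Real.exp (C * K)) * (ENNReal.ofReal (m ^ 2)
              * ∫⁻ w : ℝ, ENNReal.ofReal (kd A.lam w * ‖riemannZeta (1 / 2 + I * (t + w : ℝ))‖ ^ 2)) := by
              ring
          _ ≤ ENNReal.ofReal (C * Real.exp (C * K)) * ENNReal.ofReal (Real.exp (C2 * K)) :=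
              mul_le_mul_right hn2 _
      rw [ENNReal.ofReal_le_ofReal_iff (by positivity)] at h2
      have h3 : C ≤ Real.exp (C * K) := by
        have := Real.add_one_le_exp (C * K)
        nlinarith
      have h4 : (‖riemannZeta s‖ * m) ^ 2 ≤ Real.exp ((2 * C + C2) * K) ^ 2 := by
        calc (‖riemannZeta s‖ * m) ^ 2 = m ^ 2 * ‖riemannZeta s‖ ^ 2 := by ring
          _ ≤ C * Real.exp (C * K) * Real.exp (C2 * K) := h2
          _ ≤ Real.exp (C * K) * Real.exp (C * K) * Real.exp (C2 * K) := by gcongr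
          _ = Real.exp ((2 * C + C2) * K) := by
              rw [← Real.exp_add, ← Real.exp_add]; congr 1; ring
          _ ≤ Real.exp ((2 * C + C2) * K) ^ 2 := by
              have h5 : 1 ≤ Real.exp ((2 * C + C2) * K) := Real.one_le_exp (by positivity)
              nlinarith
      exact (pow_le_pow_iff_left₀ (by positivity) (Real.exp_pos _).le (by norm_num)).1 h4)
    (by
      rw [norm_mul, Complex.norm_real, Real.norm_of_nonneg hm0]
      refine le_trans ?_ hn1.le
      apply Real.exp_le_exp.2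
      nlinarith)
  refine le_trans (measure_mono ?_) (hcar.trans ?_)
  · rintro w ⟨hw1, hw2⟩
    refine ⟨hw1, ?_⟩
    rw [norm_mul, Complex.norm_real, Real.norm_of_nonneg hm0]
    calc ‖riemannZeta (1 / 2 + I * (t + w : ℝ))‖ * m
        ≤ Real.exp (A.X ∅ (om t) - a) * (2 * Real.exp (-(A.X ∅ (om t)))) := by gcongr
      _ = 2 * Real.exp (-a) := by
          rw [show A.X ∅ (om t) - a = A.X ∅ (om t) + (-a) by ring, Real.exp_add]
          have : Real.exp (A.X ∅ (om t)) * Real.exp (-(A.X ∅ (om t))) = 1 := by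
            rw [← Real.exp_add, add_neg_cancel, Real.exp_zero]
          linear_combination (2 * Real.exp (-a)) * this
      _ ≤ Real.exp 1 * Real.exp (-a) := by
          have := Real.add_one_le_exp (1 : ℝ)
          have h2 := Real.exp_pos (-a)
          nlinarith
      _ = Real.exp (-(a - 1)) := by rw [← Real.exp_add]; congr 1; ring
  · apply ENNReal.ofReal_le_ofReal
    apply mul_le_mul_of_nonneg_left _ hlam0.le
    apply Real.exp_le_exp.2
    have hMK : (1 : ℝ) ≤ (2 * C + C2) * K := by nlinarith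
    have h1 : c * (a - 1) / ((2 * C + C2) * K) = c / (2 * C + C2) * a / K - c / ((2 * C + C2) * K) := by
      field_simp
    have h2 : c / ((2 * C + C2) * K) ≤ c := div_le_self hc.le hMK
    rw [h1]
    linarith

end Pool.Agent.Lib.LC
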