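import Mathlib
import Pool.Agent.Lib.MP_f9aece_nt_loc.Stmts
import Pool.Agent.Lib.MP_f9aece_nt_gt.P4

/-!
The law of `log |zeta|` at bounded scale: small values of zeta are rare (row D3).
-/

set_option autoImplicit false
set_option linter.unusedVariables false

namespace Pool.Agent.Lib.LC

open MeasureTheory Set Filter Topology Complex ProbabilityTheory
open scoped ComplexConjugate
open Pool.Agent.Lib.GT
open Pool.Agent.Lib.GT.P4aux (markov un_shift un_ends X_sub not_good bbv_nonneg meas_good div_aux)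

namespace D3aux

lemma G_anti {A : Par} (hA : A.Ok) {u v : ℝ} (h : u ≤ v) : A.G v ≤ A.G u := by
  rw [A.G_shift v u]
  have h1 := hA.G_pos u
  have h2 : Real.exp (-(A.be * (v - u))) ≤ 1 := by
    rw [Real.exp_le_one_iff]
    have := mul_nonneg hA.hbe.le (sub_nonneg.2 h)
    linarith
  calc A.G u * Real.exp (-(A.be * (v - u))) ≤ A.G u * 1 := by gcongr
    _ = _ := mul_one _

/-- the windows, the sum between two levels -/
lemma win_set {C C1 : ℝ} (hC : 0 ≤ C) {A : Par} (hA : A.Ok) {m : Measure ℝ}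
    (h : ∀ κ : ℝ, 0 ≤ κ → ∀ H : ℝ → ENNReal, Measurable H →
      (∀ y : ℝ, ∫⁻ t, ENNReal.ofReal (A.W ∅ y (om t)) * H t ∂m ≤ ENNReal.ofReal (κ * A.G y)) →
      ∀ ω ω' : ℝ → ENNReal, Measurable ω → Measurable ω' → (∀ u y : ℝ, |u - y| ≤ C1 → ω u ≤ ω' y) →
      ∫⁻ t in {t | A.Good ∅ (om t) ∧ A.Bad ∅ (om t)}, ω (A.X ∅ (om t)) * H t ∂m
        ≤ ENNReal.ofReal (C * κ) * ∫⁻ y : ℝ, ω' y * ENNReal.ofReal (A.G y))
    {f : ℝ → ℝ} (hf : Measurable f) (hf0 : ∀ t, 0 ≤ f t) {κ : ℝ} (hκ : 0 ≤ κ)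
    (hW : ∀ y : ℝ, ∫⁻ t, ENNReal.ofReal (A.W ∅ y (om t) * f t) ∂m ≤ ENNReal.ofReal (κ * A.G y))
    (a1 a2 : ℝ) {S : Set ℝ} {c : ℝ} (hc : 0 ≤ c)
    (hS : ∀ t ∈ S, A.Good ∅ (om t) ∧ a1 < A.X ∅ (om t) ∧ A.X ∅ (om t) ≤ a2 ∧ 1 ≤ c * f t) :
    m S ≤ ENNReal.ofReal (C * (c * κ) * (A.G (a1 - C1) * (a2 - a1 + 2 * C1))) := by
  have hb : 0 ≤ A.b := hA.b_pos.le
  obtain ⟨ω, hω⟩ : ∃ ω : ℝ → ENNReal, ω = (Ioc a1 a2).indicator (fun _ => 1) := ⟨_, rfl⟩
  obtain ⟨ω', hω'⟩ : ∃ ω' : ℝ → ENNReal, ω' = (Icc (a1 - C1) (a2 + C1)).indicator (fun _ => 1) :=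
    ⟨_, rfl⟩
  have hωm : Measurable ω := by
    rw [hω]
    exact measurable_const.indicator measurableSet_Ioc
  have hωm' : Measurable ω' := by
    rw [hω']
    exact measurable_const.indicator measurableSet_Icc
  have hH : Measurable fun t => ENNReal.ofReal (c * f t) := (hf.const_mul c).ennreal_ofReal
  have hX : Measurable fun t : ℝ => A.X ∅ (om t) := ((A.continuous_X ∅).comp continuous_om).measurable
  have h1 := h (c * κ) (by positivity) (fun t => ENNReal.ofReal (c * f t)) hH (by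
    intro y
    have e : ∀ t, ENNReal.ofReal (A.W ∅ y (om t)) * ENNReal.ofReal (c * f t)
        = ENNReal.ofReal c * ENNReal.ofReal (A.W ∅ y (om t) * f t) := by
      intro t
      rw [← ENNReal.ofReal_mul (A.W_nonneg hb ∅ y (om t)), ← ENNReal.ofReal_mul hc]
      congr 1
      ring
    simp only [e]
    rw [lintegral_const_mul' _ _ ENNReal.ofReal_ne_top]
    calc ENNReal.ofReal c * ∫⁻ t, ENNReal.ofReal (A.W ∅ y (om t) * f t) ∂m
        ≤ ENNReal.ofReal c * ENNReal.ofReal (κ * A.G y) := by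
          gcongr
          exact hW y
      _ = ENNReal.ofReal (c * κ * A.G y) := by
          rw [← ENNReal.ofReal_mul hc]
          congr 1
          ring) ω ω' hωm hωm' (by
    intro u y huy
    rw [hω, hω']
    by_cases hu : u ∈ Ioc a1 a2
    · have hy : y ∈ Icc (a1 - C1) (a2 + C1) := by
        have h2 := abs_le.1 huy
        exact ⟨by linarith [hu.1], by linarith [hu.2]⟩
      rw [indicator_of_mem hu, indicator_of_mem hy]
    · rw [indicator_of_notMem hu]
      exact zero_le)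
  have h2 : m S ≤ ∫⁻ t in {t | A.Good ∅ (om t) ∧ A.Bad ∅ (om t)},
      ω (A.X ∅ (om t)) * ENNReal.ofReal (c * f t) ∂m := by
    refine markov ((hωm.comp hX).mul hH) ?_
    intro t ht
    obtain ⟨g1, g2, g3, g4⟩ := hS t ht
    refine ⟨⟨g1, ?_⟩, ?_⟩
    · intro g hg
      simp at hg
    · have hm : A.X ∅ (om t) ∈ Ioc a1 a2 := ⟨g2, g3⟩
      show 1 ≤ ω (A.X ∅ (om t)) * ENNReal.ofReal (c * f t)
      rw [hω, indicator_of_mem hm, one_mul, ← ENNReal.ofReal_one]
      exact ENNReal.ofReal_le_ofReal g4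
  have hG := (hA.G_pos (a1 - C1)).le
  have h3 : ∫⁻ y : ℝ, ω' y * ENNReal.ofReal (A.G y)
      ≤ ENNReal.ofReal (A.G (a1 - C1) * (a2 - a1 + 2 * C1)) := by
    calc ∫⁻ y : ℝ, ω' y * ENNReal.ofReal (A.G y)
        ≤ ∫⁻ y : ℝ, (Icc (a1 - C1) (a2 + C1)).indicator
            (fun _ => ENNReal.ofReal (A.G (a1 - C1))) y := by
          refine lintegral_mono fun y => ?_
          rw [hω']
          by_cases hy : y ∈ Icc (a1 - C1) (a2 + C1)
          · rw [indicator_of_mem hy, indicator_of_mem hy, one_mul]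
            exact ENNReal.ofReal_le_ofReal (G_anti hA hy.1)
          · rw [indicator_of_notMem hy, indicator_of_notMem hy, zero_mul]
      _ = ENNReal.ofReal (A.G (a1 - C1)) * volume (Icc (a1 - C1) (a2 + C1)) := by
          rw [lintegral_indicator measurableSet_Icc, setLIntegral_const]
      _ = _ := by
          rw [Real.volume_Icc, ← ENNReal.ofReal_mul hG]
          congr 2
          ring
  refine h2.trans (h1.trans ?_)
  calc ENNReal.ofReal (C * (c * κ)) * ∫⁻ y : ℝ, ω' y * ENNReal.ofReal (A.G y)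
      ≤ ENNReal.ofReal (C * (c * κ)) * ENNReal.ofReal (A.G (a1 - C1) * (a2 - a1 + 2 * C1)) := by
        gcongr
    _ = _ := by rw [← ENNReal.ofReal_mul (by positivity)]

/-- averages over shifts -/
lemma avg {x T lam : ℝ} {M : Set ℝ} (hM : MeasurableSet M) (hsub : M ⊆ Icc x (x + T))
    {R : Set (ℝ × ℝ)} (hR : MeasurableSet R) {K : ENNReal}
    (hK : ∀ τ ∈ M, volume {w : ℝ | w ∈ Icc 0 lam ∧ (τ, w) ∈ R} ≤ K) :
    ∫⁻ w in Icc 0 lam, un x T {t | t - w ∈ M ∧ (t - w, w) ∈ R} ≤ K * un x T M := by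
  have hI : Measurable (R.indicator (fun _ => (1 : ENNReal))) := measurable_const.indicator hR
  have h1 : ∀ w : ℝ, un x T {t | t - w ∈ M ∧ (t - w, w) ∈ R}
      ≤ (ENNReal.ofReal T)⁻¹ * ∫⁻ τ in M, R.indicator (fun _ => (1 : ENNReal)) (τ, w) := by
    intro w
    have hRw : MeasurableSet {τ : ℝ | (τ, w) ∈ R} := by
      have : Measurable fun τ : ℝ => ((τ, w) : ℝ × ℝ) := by fun_prop
      exact this hR
    unfold un
    rw [Measure.smul_apply, smul_eq_mul]
    gcongr
    calc (volume.restrict (Icc x (x + T))) {t | t - w ∈ M ∧ (t - w, w) ∈ R}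
        ≤ volume {t | t - w ∈ M ∧ (t - w, w) ∈ R} := Measure.restrict_apply_le _ _
      _ = volume ((fun t => t + -w) ⁻¹' {τ | τ ∈ M ∧ (τ, w) ∈ R}) := by
          congr 1
      _ = volume {τ | τ ∈ M ∧ (τ, w) ∈ R} := measure_preimage_add_right _ _ _
      _ = ∫⁻ τ in M, {τ : ℝ | (τ, w) ∈ R}.indicator (fun _ => (1 : ENNReal)) τ := by
          rw [lintegral_indicator hRw, setLIntegral_const, one_mul, Measure.restrict_apply hRw,
            inter_comm]
          rfl
      _ = ∫⁻ τ in M, R.indicator (fun _ => (1 : ENNReal)) (τ, w) := by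
          refine lintegral_congr fun τ => ?_
          by_cases h : (τ, w) ∈ R
          · rw [indicator_of_mem h, indicator_of_mem (by exact h)]
          · rw [indicator_of_notMem h, indicator_of_notMem (by exact h)]
  calc ∫⁻ w in Icc 0 lam, un x T {t | t - w ∈ M ∧ (t - w, w) ∈ R}
      ≤ ∫⁻ w in Icc 0 lam, (ENNReal.ofReal T)⁻¹
          * ∫⁻ τ in M, R.indicator (fun _ => (1 : ENNReal)) (τ, w) := lintegral_mono h1
    _ = (ENNReal.ofReal T)⁻¹ * ∫⁻ w in Icc 0 lam,
          ∫⁻ τ in M, R.indicator (fun _ => (1 : ENNReal)) (τ, w) := by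
        rw [lintegral_const_mul]
        exact hI.lintegral_prod_left'
    _ = (ENNReal.ofReal T)⁻¹ * ∫⁻ τ in M,
          ∫⁻ w in Icc 0 lam, R.indicator (fun _ => (1 : ENNReal)) (τ, w) := by
        congr 1
        have hI2 : Measurable (Function.uncurry fun w τ : ℝ =>
            R.indicator (fun _ => (1 : ENNReal)) (τ, w)) := hI.comp measurable_swap
        exact lintegral_lintegral_swap hI2.aemeasurable
    _ ≤ (ENNReal.ofReal T)⁻¹ * ∫⁻ τ in M, K := by
        refine mul_le_mul' le_rfl ?_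
        refine setLIntegral_mono' hM fun τ hτ => ?_
        refine le_trans (le_of_eq ?_) (hK τ hτ)
        have hRt : MeasurableSet {w : ℝ | (τ, w) ∈ R} := by
          have : Measurable fun w : ℝ => ((τ, w) : ℝ × ℝ) := by fun_prop
          exact this hR
        have e : ∀ w : ℝ, R.indicator (fun _ => (1 : ENNReal)) (τ, w)
            = {w : ℝ | (τ, w) ∈ R}.indicator (fun _ => (1 : ENNReal)) w := by
          intro w
          by_cases h : (τ, w) ∈ R
          · rw [indicator_of_mem h, indicator_of_mem (by exact h)]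
          · rw [indicator_of_notMem h, indicator_of_notMem (by exact h)]
        simp only [e]
        rw [lintegral_indicator hRt, setLIntegral_const, one_mul, Measure.restrict_apply hRt,
          inter_comm]
        rfl
    _ = K * un x T M := by
        rw [setLIntegral_const]
        unfold un
        rw [Measure.smul_apply, smul_eq_mul, Measure.restrict_apply hM, inter_eq_left.mpr hsub]
        ring

/-- from the shifts to the set -/
lemma shifts {x T lam : ℝ} (hl : 0 < lam) {E : Set ℝ} {K1 K2 : ENNReal} {D : ℝ → Set ℝ}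
    (h : ∀ w ∈ Icc 0 lam, un x T E ≤ K1 + un x T (D w))
    (hD : ∫⁻ w in Icc 0 lam, un x T (D w) ≤ ENNReal.ofReal lam * K2) : un x T E ≤ K1 + K2 := by
  have h0 : ENNReal.ofReal lam ≠ 0 := by simpa using hl
  have h1 : ENNReal.ofReal lam * un x T E ≤ ENNReal.ofReal lam * (K1 + K2) := by
    calc ENNReal.ofReal lam * un x T E = ∫⁻ w in Icc 0 lam, un x T E := by
          rw [setLIntegral_const, Real.volume_Icc, sub_zero, mul_comm]
      _ ≤ ∫⁻ w in Icc 0 lam, (K1 + un x T (D w)) := setLIntegral_mono' measurableSet_Icc h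
      _ = (∫⁻ w in Icc 0 lam, K1) + ∫⁻ w in Icc 0 lam, un x T (D w) :=
          lintegral_add_left measurable_const _
      _ ≤ ENNReal.ofReal lam * K1 + ENNReal.ofReal lam * K2 := by
          refine add_le_add (le_of_eq ?_) hD
          rw [setLIntegral_const, Real.volume_Icc, sub_zero, mul_comm]
      _ = _ := by rw [mul_add]
  exact (ENNReal.mul_le_mul_iff_right h0 ENNReal.ofReal_ne_top).1 h1

lemma cont_zeta : Continuous fun t : ℝ => riemannZeta (1 / 2 + I * t) := by
  rw [continuous_iff_continuousAt]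
  intro t
  have h1 : (1 / 2 + I * t : ℂ) ≠ 1 := by
    intro h
    have := congrArg Complex.re h
    norm_num at this
  have h2 : ContinuousAt (fun t : ℝ => (1 / 2 + I * t : ℂ)) t := by fun_prop
  exact ContinuousAt.comp (g := riemannZeta) (f := fun t : ℝ => (1 / 2 + I * t : ℂ))
    (differentiableAt_riemannZeta h1).continuousAt h2

end D3aux

open D3aux

/-- D3 -/
theorem lowTail (hW : TiltW) (hM : WMean) (hD : WDelta) (hS : WShift) (hN : NiceMean)
    (hT : NiceShift) (hG : GroupNum) : LowTail := by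
  obtain ⟨CT, C1, v1, hCT, hC1, hW⟩ := hW
  obtain ⟨CM, TM, hCM, hTM, hM⟩ := hM
  obtain ⟨CD, TD, hCD, hTD, hD⟩ := hD
  obtain ⟨CS, TS, hCS, hTS, hS⟩ := hS
  obtain ⟨CN, C2, TN, hCN, hC2, hTN, hN⟩ := hN
  obtain ⟨cI, CI, TI, vI, hcI, hCI, hTI, hI⟩ := hT C2 hC2
  have hEI := Real.exp_pos CI
  refine ⟨7 / 8 * cI, CT * (64 * CD + 2 * CS + CN + CM * Real.exp CI) + 4 * C1,
    max TM (max TD (max TS (max TN TI))), max v1 vI, by positivity, ?_,
    hTM.trans (le_max_left _ _), ?_⟩
  · have : 0 ≤ CT * (64 * CD + 2 * CS + CN + CM * Real.exp CI) := by positivity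
    linarith
  intro A hA hv hb T hTT hLen hp0 hlY hlT hl1 x hx V1 V2 a hV ha
  have hTM' : TM ≤ T := (le_max_left _ _).trans hTT
  have hTD' : TD ≤ T := ((le_max_left _ _).trans (le_max_right _ _)).trans hTT
  have hTS' : TS ≤ T :=
    (((le_max_left _ _).trans (le_max_right _ _)).trans (le_max_right _ _)).trans hTT
  have hTN' : TN ≤ T := ((((le_max_left _ _).trans (le_max_right _ _)).trans
    (le_max_right _ _)).trans (le_max_right _ _)).trans hTT
  have hTI' : TI ≤ T := ((((le_max_right _ _).trans (le_max_right _ _)).trans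
    (le_max_right _ _)).trans (le_max_right _ _)).trans hTT
  have hT3 : 3 ≤ T := hTM.trans hTM'
  have hT0 : 0 < T := by linarith
  have hlogT : 1 < Real.log T := by
    rw [Real.lt_log_iff_exp_lt hT0]
    have := Real.exp_one_lt_d9
    linarith
  have hlt0 : 0 < Real.log T := by linarith
  have hl := hA.hl
  have hl0 : 0 < A.lam := by
    by_contra h
    have : A.lam = 0 := le_antisymm (not_lt.mp h) hl
    rw [this] at hlT
    linarith
  have hY1 := hA.hY
  have hY0 : 0 < A.Y := by linarith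
  have hp1 : (0 : ℝ) < A.p0 := by
    have : (1000 : ℝ) ≤ A.p0 := by exact_mod_cast hA.hp
    linarith
  have hxT : |x| ≤ T := hx.trans (by
    calc T ^ (9 / 10 : ℝ) ≤ T ^ (1 : ℝ) :=
          Real.rpow_le_rpow_of_exponent_le (by linarith) (by norm_num)
      _ = T := Real.rpow_one T)
  have hx' : x ≤ T ^ (19 / 20 : ℝ) := ((le_abs_self x).trans hx).trans
    (Real.rpow_le_rpow_of_exponent_le (by linarith) (by norm_num))
  have h910 : T ^ (9 / 10 : ℝ) ≤ T ^ (19 / 20 : ℝ) :=
    Real.rpow_le_rpow_of_exponent_le (by linarith) (by norm_num)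
  have hprob := prob_un x hT0
  have hbb : 0 ≤ A.b := hA.b_pos.le
  -- the size of `a`
  have haC : 4 * C1 ≤ a := by
    have : 0 ≤ CT * (64 * CD + 2 * CS + CN + CM * Real.exp CI) := by positivity
    linarith
  have ha0 : 0 < a := by linarith
  -- the tilt
  have htilt : ∀ κ : ℝ, 0 ≤ κ → ∀ H : ℝ → ENNReal, Measurable H →
      (∀ y : ℝ, ∫⁻ t, ENNReal.ofReal (A.W ∅ y (om t)) * H t ∂(un x T)
        ≤ ENNReal.ofReal (κ * A.G y)) →
      ∀ ω ω' : ℝ → ENNReal, Measurable ω → Measurable ω' → (∀ u y : ℝ, |u - y| ≤ C1 → ω u ≤ ω' y) →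
      ∫⁻ t in {t | A.Good ∅ (om t) ∧ A.Bad ∅ (om t)}, ω (A.X ∅ (om t)) * H t ∂(un x T)
        ≤ ENNReal.ofReal (CT * κ) * ∫⁻ y : ℝ, ω' y * ENNReal.ofReal (A.G y) :=
    fun κ hκ H hH hW' => hW A hA ((le_max_left _ _).trans hv) hb ∅ (Finset.empty_subset _) (un x T)
      inferInstance κ hκ H hH hW'
  obtain ⟨Gb, hGb⟩ : ∃ Gb : ℝ, Gb = (V2 - V1 + a) * A.G (V1 - a) := ⟨_, rfl⟩
  have hGb0 : 0 ≤ Gb := by
    rw [hGb]
    have := (hA.G_pos (V1 - a)).le
    have : 0 ≤ V2 - V1 + a := by linarith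
    positivity
  -- comparison of the sizes
  have hsz : ∀ d : ℝ, 0 ≤ d → d ≤ a / 8 →
      A.G (V1 - d - C1) * (V2 + d - (V1 - d) + 2 * C1) ≤ Gb := by
    intro d hd0 hd
    rw [hGb, mul_comm]
    have h1 : A.G (V1 - d - C1) ≤ A.G (V1 - a) := G_anti hA (by linarith)
    have h2 := (hA.G_pos (V1 - d - C1)).le
    have h3 : 0 ≤ V2 - V1 + a := by linarith
    exact mul_le_mul (by linarith) h1 h2 h3
  -- the variation of the prime sum
  obtain ⟨ℓ, hℓ⟩ : ∃ ℓ : ℝ, ℓ = 1 + Real.log (1 + A.lam * A.Y) := ⟨_, rfl⟩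
  have hSa : ∀ w ∈ Icc 0 A.lam, un x T {t | A.Good ∅ (om t) ∧ V1 < A.X ∅ (om t) ∧
      A.X ∅ (om t) ≤ V2 ∧ a / 8 < |A.X ∅ (om (t - w)) - A.X ∅ (om t)|}
      ≤ ENNReal.ofReal (CT * ((8 / a) ^ 2 * (CD * ℓ ^ 2)) * Gb) := by
    intro w hw
    refine le_trans (win_set (C1 := C1) (by linarith) hA htilt
      (f := fun t => ((lin A.U (fun p => (A.h p : ℂ) * ((p : ℂ) ^ (-(I * (-w : ℝ)) : ℂ) - 1))
        (om t)).re) ^ 2) ?_ (fun t => by positivity) (κ := CD * ℓ ^ 2) (by positivity) ?_ V1 V2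
      (c := (8 / a) ^ 2) (by positivity) ?_) ?_
    · apply Continuous.measurable
      exact (Complex.continuous_re.comp ((continuous_lin _ _).comp continuous_om)).pow 2
    · intro y
      refine ((hD A hA T hTD' hLen x y (-w)).2).trans (ENNReal.ofReal_le_ofReal ?_)
      have hGy := (hA.G_pos y).le
      refine mul_le_mul_of_nonneg_right ?_ hGy
      rw [abs_neg, abs_of_nonneg hw.1]
      have h1 : Real.log (1 + A.Y * w) ≤ Real.log (1 + A.lam * A.Y) := by
        apply Real.log_le_log (by have := mul_nonneg hY0.le hw.1; linarith)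
        have := mul_le_mul_of_nonneg_left hw.2 hY0.le
        linarith
      have h2 : 0 ≤ Real.log (1 + A.Y * w) := Real.log_nonneg (by
        have := mul_nonneg hY0.le hw.1
        linarith)
      have h3 : 1 + Real.log (1 + A.Y * w) ≤ ℓ := by
        rw [hℓ]
        linarith
      gcongr
    · intro t ht
      obtain ⟨g1, g2, g3, g4⟩ := ht
      refine ⟨g1, g2, g3, ?_⟩
      rw [X_sub hA] at g4
      have h1 : (a / 8) ^ 2 ≤ ((lin A.U (fun p => (A.h p : ℂ)
          * ((p : ℂ) ^ (-(I * (-w : ℝ)) : ℂ) - 1)) (om t)).re) ^ 2 := by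
        rw [← sq_abs ((lin A.U (fun p => (A.h p : ℂ)
          * ((p : ℂ) ^ (-(I * (-w : ℝ)) : ℂ) - 1)) (om t)).re)]
        gcongr
      calc (1 : ℝ) = (8 / a) ^ 2 * (a / 8) ^ 2 := by
            field_simp
        _ ≤ _ := by gcongr
    · apply ENNReal.ofReal_le_ofReal
      have h1 := hsz 0 le_rfl (by positivity)
      simp only [sub_zero, add_zero] at h1
      have : 0 ≤ CT * ((8 / a) ^ 2 * (CD * ℓ ^ 2)) := by positivity
      gcongr
  -- bad groups
  have hSb : ∀ w ∈ Icc 0 A.lam, un x T {t | A.Good ∅ (om t) ∧ V1 < A.X ∅ (om t) ∧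
      A.X ∅ (om t) ≤ V2 ∧ ¬ A.Good ∅ (om (t - w))}
      ≤ ENNReal.ofReal (CT * (1 * (2 * CS * Real.exp (-A.v))) * Gb) := by
    intro w hw
    refine le_trans (win_set (C1 := C1) (by linarith) hA htilt
      (f := fun t => ∑ g ∈ Finset.range A.J, A.bbv (-w) g (om t)) ?_
      (fun t => Finset.sum_nonneg fun g _ => bbv_nonneg _ _ _)
      (κ := 2 * CS * Real.exp (-A.v)) (by positivity) ?_ V1 V2
      (c := 1) zero_le_one ?_) ?_
    · apply Continuous.measurable
      exact continuous_finsetSum _ fun g _ => (A.continuous_bbv (-w) g).comp continuous_om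
    · intro y
      have hm : ∀ g, Measurable fun t : ℝ => ENNReal.ofReal (A.W ∅ y (om t) * A.bbv (-w) g (om t)) := by
        intro g
        apply Measurable.ennreal_ofReal
        apply Continuous.measurable
        exact ((A.continuous_W' hA ∅ y).comp continuous_om).mul
          ((A.continuous_bbv (-w) g).comp continuous_om)
      have e : ∀ t : ℝ, ENNReal.ofReal (A.W ∅ y (om t) * ∑ g ∈ Finset.range A.J, A.bbv (-w) g (om t))
          = ∑ g ∈ Finset.range A.J, ENNReal.ofReal (A.W ∅ y (om t) * A.bbv (-w) g (om t)) := by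
        intro t
        rw [Finset.mul_sum, ENNReal.ofReal_sum_of_nonneg]
        intro g _
        exact mul_nonneg (A.W_nonneg hbb ∅ y _) (bbv_nonneg _ _ _)
      simp only [e]
      rw [lintegral_finsetSum _ (fun g _ => hm g)]
      calc ∑ g ∈ Finset.range A.J, ∫⁻ t, ENNReal.ofReal (A.W ∅ y (om t) * A.bbv (-w) g (om t))
            ∂(un x T)
          ≤ ∑ g ∈ Finset.range A.J, ENNReal.ofReal (CS * Real.exp (-(A.r g : ℝ)) * A.G y) :=
            Finset.sum_le_sum fun g hg => hS A hA T hTS' hLen x y (-w) g (Finset.mem_range.mp hg)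
        _ = ENNReal.ofReal (∑ g ∈ Finset.range A.J, CS * Real.exp (-(A.r g : ℝ)) * A.G y) := by
            rw [ENNReal.ofReal_sum_of_nonneg]
            intro g _
            have := (hA.G_pos y).le
            positivity
        _ ≤ ENNReal.ofReal (2 * CS * Real.exp (-A.v) * A.G y) := by
            refine ENNReal.ofReal_le_ofReal ?_
            rw [← Finset.sum_mul, ← Finset.mul_sum]
            have h7 := (hG A hA).2.2.2.2.2.1
            have := (hA.G_pos y).le
            refine mul_le_mul_of_nonneg_right ?_ this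
            calc CS * ∑ g ∈ Finset.range A.J, Real.exp (-(A.r g : ℝ))
                ≤ CS * (2 * Real.exp (-A.v)) := by gcongr
              _ = _ := by ring
    · intro t ht
      obtain ⟨g1, g2, g3, g4⟩ := ht
      refine ⟨g1, g2, g3, ?_⟩
      rw [one_mul]
      exact not_good hA g4
    · apply ENNReal.ofReal_le_ofReal
      have h1 := hsz 0 le_rfl (by positivity)
      simp only [sub_zero, add_zero] at h1
      have : 0 ≤ CT * (1 * (2 * CS * Real.exp (-A.v))) := by positivity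
      gcongr
  -- heights which are not nice
  have hNm : MeasurableSet {t : ℝ | Nice C2 A T t} :=
    (hN A hA T hTN' hLen hp0 hlY hlT hl1 x hxT 0).1
  have hXm : Measurable fun t : ℝ => A.X ∅ (om t) := ((A.continuous_X ∅).comp continuous_om).measurable
  have hkap : 0 ≤ kap A T := by
    unfold kap
    have : 0 ≤ Real.log (A.p0 : ℝ) := Real.log_natCast_nonneg _
    positivity
  obtain ⟨Bn, hBn⟩ : ∃ Bn : Set ℝ, Bn = {t | t ∈ Icc (T ^ (19 / 20 : ℝ)) (x + T) ∧
      A.Good ∅ (om t) ∧ (V1 - a / 8 < A.X ∅ (om t) ∧ A.X ∅ (om t) ≤ V2 + a / 8) ∧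
      ¬ Nice C2 A T t} := ⟨_, rfl⟩
  have hBm : MeasurableSet Bn := by
    rw [hBn]
    refine measurableSet_Icc.inter ((meas_good A).inter (MeasurableSet.inter ?_ hNm.compl))
    exact (measurableSet_lt measurable_const hXm).inter (measurableSet_le hXm measurable_const)
  obtain ⟨Bx, hBx⟩ : ∃ Bx : Set ℝ, Bx = {t | t ∈ Icc (T ^ (19 / 20 : ℝ)) (x + T) ∧
      ¬ Nice C2 A T t} := ⟨_, rfl⟩
  have hBxm : MeasurableSet Bx := by
    rw [hBx]
    exact measurableSet_Icc.inter hNm.compl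
  have hSc : un x T Bn ≤ ENNReal.ofReal (CT * (1 * (CN * kap A T)) * Gb) := by
    refine le_trans (win_set (C1 := C1) (by linarith) hA htilt
      (f := Bx.indicator (fun _ => (1 : ℝ)))
      ?_ ?_ (κ := CN * kap A T) (by positivity) ?_ (V1 - a / 8) (V2 + a / 8)
      (c := 1) zero_le_one ?_) ?_
    · exact measurable_const.indicator hBxm
    · intro t
      exact Set.indicator_nonneg (fun _ _ => zero_le_one) t
    · intro y
      refine le_trans (le_of_eq ?_) ((hN A hA T hTN' hLen hp0 hlY hlT hl1 x hxT y).2)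
      rw [← hBx, ← lintegral_indicator hBxm]
      congr 1
      ext t
      by_cases ht : t ∈ Bx
      · rw [indicator_of_mem ht, indicator_of_mem ht, mul_one]
      · rw [indicator_of_notMem ht, indicator_of_notMem ht, mul_zero, ENNReal.ofReal_zero]
    · intro t ht
      rw [hBn] at ht
      obtain ⟨g1, g2, g3, g4⟩ := ht
      refine ⟨g2, g3.1, g3.2, ?_⟩
      have hm : t ∈ Bx := by
        rw [hBx]
        exact ⟨g1, g4⟩
      rw [indicator_of_mem hm, mul_one]
    · apply ENNReal.ofReal_le_ofReal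
      have h1 := hsz (a / 8) (by positivity) le_rfl
      have : 0 ≤ CT * (1 * (CN * kap A T)) := by positivity
      gcongr
  -- the nice heights
  obtain ⟨M, hMd⟩ : ∃ M : Set ℝ, M = {t | t ∈ Icc (T ^ (19 / 20 : ℝ)) (x + T) ∧
      A.Good ∅ (om t) ∧ (V1 - a / 8 < A.X ∅ (om t) ∧ A.X ∅ (om t) ≤ V2 + a / 8) ∧
      Nice C2 A T t} := ⟨_, rfl⟩
  have hMm : MeasurableSet M := by
    rw [hMd]
    refine measurableSet_Icc.inter ((meas_good A).inter (MeasurableSet.inter ?_ hNm))
    exact (measurableSet_lt measurable_const hXm).inter (measurableSet_le hXm measurable_const)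
  have hMs : M ⊆ Icc x (x + T) := by
    intro t ht
    rw [hMd] at ht
    exact ⟨hx'.trans ht.1.1, ht.1.2⟩
  have hSd : un x T M ≤ ENNReal.ofReal (CT * (1 * CM) * Gb) := by
    refine le_trans (win_set (C1 := C1) (by linarith) hA htilt (f := fun _ => (1 : ℝ))
      measurable_const (fun _ => zero_le_one) (κ := CM) (by linarith) ?_ (V1 - a / 8) (V2 + a / 8)
      (c := 1) zero_le_one ?_) ?_
    · intro y
      have h1 := hM A hA T hTM' hLen x y ∅ (Finset.empty_subset _)
      simpa using h1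
    · intro t ht
      rw [hMd] at ht
      obtain ⟨g1, g2, g3, g4⟩ := ht
      exact ⟨g2, g3.1, g3.2, by norm_num⟩
    · apply ENNReal.ofReal_le_ofReal
      have h1 := hsz (a / 8) (by positivity) le_rfl
      have : 0 ≤ CT * (1 * CM) := by positivity
      gcongr
  obtain ⟨R, hRd⟩ : ∃ R : Set (ℝ × ℝ), R = {p | ‖riemannZeta (1 / 2 + I * (p.1 + p.2 : ℝ))‖
      ≤ Real.exp (A.X ∅ (om p.1) - 7 / 8 * a)} := ⟨_, rfl⟩
  have hRm : MeasurableSet R := by
    rw [hRd]
    refine measurableSet_le ?_ ?_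
    · have h1 : Continuous fun p : ℝ × ℝ => riemannZeta (1 / 2 + I * (p.1 + p.2 : ℝ)) :=
        cont_zeta.comp (f := fun p : ℝ × ℝ => p.1 + p.2) (by fun_prop)
      exact h1.norm.measurable
    · exact Real.measurable_exp.comp ((hXm.comp measurable_fst).sub measurable_const)
  obtain ⟨q, hq⟩ : ∃ q : ℝ, q = Real.exp (CI - cI * (7 / 8 * a) / (A.lam * Real.log T)) := ⟨_, rfl⟩
  have hq0 : 0 ≤ q := by
    rw [hq]
    positivity
  have hav := avg (x := x) (T := T) (lam := A.lam) hMm hMs hRm (K := ENNReal.ofReal (A.lam * q)) (by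
    intro τ hτ
    rw [hMd] at hτ
    obtain ⟨g1, g2, g3, g4⟩ := hτ
    have hτ3 : τ ≤ 3 * T := by
      have h1 := g1.2
      have h2 := (abs_le.1 hxT).2
      linarith
    have h1 := hI A hA ((le_max_right _ _).trans hv) T hTI' hlT hl1 τ (h910.trans g1.1) hτ3 g2 g4
      (7 / 8 * a)
    rw [hq]
    refine le_trans (le_of_eq ?_) h1
    congr 1
    ext w
    rw [hRd]
    exact Iff.rfl)
  -- one shift
  obtain ⟨K1, hK1⟩ : ∃ K1 : ℝ, K1 = CT * ((8 / a) ^ 2 * (CD * ℓ ^ 2)) * Gb
    + (CT * (1 * (2 * CS * Real.exp (-A.v))) * Gb + CT * (1 * (CN * kap A T)) * Gb) := ⟨_, rfl⟩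
  obtain ⟨E, hE⟩ : ∃ E : Set ℝ, E = {t | t ∈ Icc (T ^ (19 / 20 : ℝ) + 1) (x + T - 1) ∧
      A.Good ∅ (om t) ∧ V1 < A.X ∅ (om t) ∧ A.X ∅ (om t) ≤ V2 ∧
      ‖riemannZeta (1 / 2 + I * t)‖ ≤ Real.exp (A.X ∅ (om t) - a)} := ⟨_, rfl⟩
  have hone : ∀ w ∈ Icc 0 A.lam, un x T E
      ≤ ENNReal.ofReal K1 + un x T {t | t - w ∈ M ∧ (t - w, w) ∈ R} := by
    intro w hw
    have hcov : E ⊆ ({t | A.Good ∅ (om t) ∧ V1 < A.X ∅ (om t) ∧
        A.X ∅ (om t) ≤ V2 ∧ a / 8 < |A.X ∅ (om (t - w)) - A.X ∅ (om t)|}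
        ∪ ({t | A.Good ∅ (om t) ∧ V1 < A.X ∅ (om t) ∧
          A.X ∅ (om t) ≤ V2 ∧ ¬ A.Good ∅ (om (t - w))} ∪ {t | t - w ∈ Bn}))
        ∪ {t | t - w ∈ M ∧ (t - w, w) ∈ R} := by
      intro t ht
      rw [hE] at ht
      obtain ⟨g0, g1, g2, g3, g4⟩ := ht
      by_cases c1 : a / 8 < |A.X ∅ (om (t - w)) - A.X ∅ (om t)|
      · exact Or.inl (Or.inl ⟨g1, g2, g3, c1⟩)
      push Not at c1
      by_cases c2 : A.Good ∅ (om (t - w))
      swap
      · exact Or.inl (Or.inr (Or.inl ⟨g1, g2, g3, c2⟩))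
      have c1' := abs_le.1 c1
      have hw1 : w ≤ 1 := hw.2.trans (by linarith)
      have hI0 : t - w ∈ Icc (T ^ (19 / 20 : ℝ)) (x + T) := by
        have e1 := g0.1
        have e2 := g0.2
        have e3 := hw.1
        exact ⟨by linarith, by linarith⟩
      have hX2 : V1 - a / 8 < A.X ∅ (om (t - w)) ∧ A.X ∅ (om (t - w)) ≤ V2 + a / 8 :=
        ⟨by linarith [c1'.1], by linarith [c1'.2]⟩
      by_cases c3 : Nice C2 A T (t - w)
      swap
      · refine Or.inl (Or.inr (Or.inr ?_))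
        show t - w ∈ Bn
        rw [hBn]
        exact ⟨hI0, c2, hX2, c3⟩
      refine Or.inr ⟨?_, ?_⟩
      · rw [hMd]
        exact ⟨hI0, c2, hX2, c3⟩
      · rw [hRd]
        show ‖riemannZeta (1 / 2 + I * ((t - w) + w : ℝ))‖ ≤ Real.exp (A.X ∅ (om (t - w)) - 7 / 8 * a)
        rw [sub_add_cancel]
        refine g4.trans (Real.exp_le_exp.2 ?_)
        linarith [c1'.1]
    calc un x T E ≤ _ := measure_mono hcov
      _ ≤ _ := measure_union_le _ _
      _ ≤ _ := by
        refine add_le_add ?_ le_rfl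
        have h1 : un x T {t | t - w ∈ Bn} ≤ ENNReal.ofReal (CT * (1 * (CN * kap A T)) * Gb) := by
          refine le_trans (un_shift hBm ?_ (fun τ hτ => hτ)) hSc
          intro t ht
          rw [hBn] at ht
          exact ⟨hx'.trans ht.1.1, ht.1.2⟩
        rw [hK1, ENNReal.ofReal_add (by positivity) (by positivity),
          ENNReal.ofReal_add (by positivity) (by positivity)]
        refine (measure_union_le _ _).trans (add_le_add (hSa w hw) ?_)
        exact (measure_union_le _ _).trans (add_le_add (hSb w hw) h1)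
  have hmain : un x T E ≤ ENNReal.ofReal K1 + ENNReal.ofReal (q * (CT * (1 * CM) * Gb)) := by
    refine shifts hl0 hone (hav.trans ?_)
    rw [ENNReal.ofReal_mul hl, ENNReal.ofReal_mul hq0, mul_assoc]
    gcongr
  -- the end points
  have hends := un_ends hT3 hx
  obtain ⟨S, hSs⟩ : ∃ S : Set ℝ, S = {t | t ∈ Icc (T ^ (19 / 20 : ℝ)) (x + T) ∧ A.Good ∅ (om t) ∧
      V1 < A.X ∅ (om t) ∧ A.X ∅ (om t) ≤ V2 ∧
      ‖riemannZeta (1 / 2 + I * t)‖ ≤ Real.exp (A.X ∅ (om t) - a)} := ⟨_, rfl⟩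
  have hS2 : un x T S ≤ un x T E + un x T {t | t ∉ Icc (T ^ (19 / 20 : ℝ) + 1) (x + T - 1)} := by
    refine (measure_mono ?_).trans (measure_union_le _ _)
    intro t ht
    rw [hSs] at ht
    by_cases c : t ∈ Icc (T ^ (19 / 20 : ℝ) + 1) (x + T - 1)
    · left
      rw [hE]
      exact ⟨c, ht.2⟩
    · exact Or.inr c
  rw [← hSs]
  have hqq : q = Real.exp CI * Real.exp (-(7 / 8 * cI * a / (A.lam * Real.log T))) := by
    rw [hq, ← Real.exp_add]
    congr 1
    ring
  calc un x T S ≤ _ := hS2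
    _ ≤ (ENNReal.ofReal K1 + ENNReal.ofReal (q * (CT * (1 * CM) * Gb)))
        + ENNReal.ofReal (4 * T ^ (-(1 / 20) : ℝ)) := add_le_add hmain hends
    _ = ENNReal.ofReal (K1 + q * (CT * (1 * CM) * Gb) + 4 * T ^ (-(1 / 20) : ℝ)) := by
        have hK10 : 0 ≤ K1 := by
          rw [hK1]
          positivity
        rw [← ENNReal.ofReal_add hK10 (by positivity), ← ENNReal.ofReal_add (by positivity)
          (by positivity)]
    _ ≤ _ := by
        apply ENNReal.ofReal_le_ofReal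
        refine add_le_add ?_ le_rfl
        rw [← hGb, hK1, ← hℓ]
        obtain ⟨Q, hQ⟩ : ∃ Q : ℝ, Q = Real.exp (-(7 / 8 * cI * a / (A.lam * Real.log T))) := ⟨_, rfl⟩
        have hQ0 : 0 ≤ Q := by
          rw [hQ]
          positivity
        rw [hqq, ← hQ]
        have e1 : (8 / a) ^ 2 * (CD * ℓ ^ 2) = 64 * CD * (ℓ ^ 2 / a ^ 2) := by
          field_simp
          ring
        have hr0 : 0 ≤ ℓ ^ 2 / a ^ 2 := by positivity
        have hev : Real.exp (-A.v) ≤ kap A T := by
          unfold kap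
          have h1 : 0 ≤ Real.log (A.p0 : ℝ) := Real.log_natCast_nonneg _
          have h2 : 0 ≤ 1 / (A.p0 : ℝ) := by positivity
          have h3 : 0 ≤ Real.log A.p0 ^ 20 * (1 + A.lam * A.Y) ^ 40 * (Real.log T / A.Y)
            * (Real.exp (-(A.lam * Real.log T / 8)) + Real.exp (-(2 * A.lam * A.Y))) := by positivity
          linarith
        have e2 : CT * (64 * CD * (ℓ ^ 2 / a ^ 2)) * Gb + (CT * (1 * (2 * CS * Real.exp (-A.v))) * Gb
            + CT * (1 * (CN * kap A T)) * Gb) + Real.exp CI * Q * (CT * (1 * CM) * Gb)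
            = (CT * (64 * CD) * (ℓ ^ 2 / a ^ 2) + (CT * (2 * CS) * Real.exp (-A.v)
              + CT * CN * kap A T) + CT * (CM * Real.exp CI) * Q) * Gb := by ring
        have f1 : CT * (2 * CS) * Real.exp (-A.v) + CT * CN * kap A T
            ≤ CT * (2 * CS + CN) * kap A T := by
          calc CT * (2 * CS) * Real.exp (-A.v) + CT * CN * kap A T
              ≤ CT * (2 * CS) * kap A T + CT * CN * kap A T := by gcongr
            _ = _ := by ring
        have hz : 0 ≤ Real.exp CI := hEI.le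
        have g1 : CT * (64 * CD) ≤ CT * (64 * CD + 2 * CS + CN + CM * Real.exp CI) + 4 * C1 := by
          have : 0 ≤ CT * (2 * CS + CN + CM * Real.exp CI) := by positivity
          linarith
        have g2 : CT * (2 * CS + CN) ≤ CT * (64 * CD + 2 * CS + CN + CM * Real.exp CI) + 4 * C1 := by
          have : 0 ≤ CT * (64 * CD + CM * Real.exp CI) := by positivity
          linarith
        have g3 : CT * (CM * Real.exp CI)
            ≤ CT * (64 * CD + 2 * CS + CN + CM * Real.exp CI) + 4 * C1 := by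
          have : 0 ≤ CT * (64 * CD + 2 * CS + CN) := by positivity
          linarith
        obtain ⟨C, hC⟩ : ∃ C : ℝ, C = CT * (64 * CD + 2 * CS + CN + CM * Real.exp CI) + 4 * C1 :=
          ⟨_, rfl⟩
        rw [← hC] at g1 g2 g3 ⊢
        rw [e1, e2]
        refine mul_le_mul_of_nonneg_right ?_ hGb0
        have h1 := mul_le_mul_of_nonneg_right g1 hr0
        have h2 := mul_le_mul_of_nonneg_right g2 hkap
        have h3 := mul_le_mul_of_nonneg_right g3 hQ0
        linarith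

end Pool.Agent.Lib.LC
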