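import Mathlib
import Pool.Agent.Lib.MP_f9aece_nt_loc.Stmts

/-!
E1: the numbers of a level.
-/

set_option autoImplicit false

namespace Pool.Agent.Lib.LC

open Filter Topology
open Pool.Agent.Lib.GT

namespace E1

/-- powers of logarithms against powers -/
theorem logpow (c : ℝ) (k : ℕ) (ε : ℝ) (hε : 0 < ε) :
    ∃ N0 : ℝ, ∀ N : ℝ, N0 ≤ N → c * Real.log N ^ k ≤ N ^ ε := by
  have h := isLittleO_log_rpow_rpow_atTop (k : ℝ) hε
  have h1 := h.bound (c := (|c| + 1)⁻¹) (by positivity)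
  obtain ⟨M, hM⟩ := Filter.eventually_atTop.1 h1
  refine ⟨max M 1, fun N hN => ?_⟩
  have hN1 : 1 ≤ N := le_trans (le_max_right _ _) hN
  have hlog : 0 ≤ Real.log N := Real.log_nonneg hN1
  have h2 := hM N (le_trans (le_max_left _ _) hN)
  rw [Real.norm_of_nonneg (by positivity), Real.norm_of_nonneg (by positivity),
    Real.rpow_natCast] at h2
  have hc : 0 < |c| + 1 := by positivity
  have h3 : (|c| + 1) * Real.log N ^ k ≤ N ^ ε := by
    calc (|c| + 1) * Real.log N ^ k ≤ (|c| + 1) * ((|c| + 1)⁻¹ * N ^ ε) :=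
          mul_le_mul_of_nonneg_left h2 hc.le
      _ = N ^ ε := by field_simp
  refine le_trans (mul_le_mul_of_nonneg_right ?_ (by positivity)) h3
  linarith [le_abs_self c]

end E1

/-- E1 -/
theorem specNum (hV : GT.Variance) : SpecNum := by
  obtain ⟨C1, hC1, hV⟩ := hV
  obtain ⟨Na, ha⟩ := E1.logpow (5 ^ 20 * (6 * 10 ^ 11)) 21 (1 / 2) (by norm_num)
  obtain ⟨Nb, hb⟩ := E1.logpow (100 * 10 ^ 11) 2 (1 / 2) (by norm_num)
  obtain ⟨Nd, hd⟩ := E1.logpow 4 2 (1 / 100) (by norm_num)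
  refine ⟨2 * C1 + 4, max (max Na Nb) (max Nd 1000), by linarith,
    le_trans (by norm_num) (le_trans (le_max_right _ _) (le_max_right _ _)), ?_⟩
  intro A T N hA hN
  obtain ⟨hok, hbb, hv1, hv2, hp1, hp2, hl, hY, hNL, hbe⟩ := hA
  have hNa : Na ≤ N := le_trans (le_trans (le_max_left _ _) (le_max_left _ _)) hN
  have hNb : Nb ≤ N := le_trans (le_trans (le_max_right _ _) (le_max_left _ _)) hN
  have hNd : Nd ≤ N := le_trans (le_trans (le_max_left _ _) (le_max_right _ _)) hN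
  have hN3 : (1000 : ℝ) ≤ N := le_trans (le_trans (le_max_right _ _) (le_max_right _ _)) hN
  have ha' := ha N hNa
  have hb' := hb N hNb
  have hd' := hd N hNd
  have hN0 : 0 < N := by linarith
  have hn1 : 1 ≤ Real.log N := by
    rw [Real.le_log_iff_exp_le hN0]
    have := Real.exp_one_lt_d9
    linarith
  set n : ℝ := Real.log N with hn
  set R : ℝ := N ^ (1 / 2 : ℝ) with hRdef
  set L : ℝ := Real.log T with hL
  have hR0 : 0 < R := Real.rpow_pos_of_pos hN0 _
  have hR2 : R ^ 2 = N := by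
    rw [hRdef, ← Real.rpow_natCast, ← Real.rpow_mul hN0.le]
    norm_num
  have hR30 : 30 ≤ R := by nlinarith
  have hL0 : 0 < L := lt_of_lt_of_le (by positivity) hNL
  have hv0 : (0 : ℝ) < A.v := by linarith
  have hnR : 5 ^ 20 * (6 * 10 ^ 11) * n ^ 21 ≤ R := ha'
  have hnR2 : 100 * 10 ^ 11 * n ^ 2 ≤ R := hb'
  have hn2 : n ≤ n ^ 2 := by nlinarith
  have hv3 : 10 ^ 11 * (A.v : ℝ) ≤ R := by nlinarith
  have hp0 : (0 : ℝ) < A.p0 := lt_of_lt_of_le (by positivity) hp1
  -- the product lam Y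
  have hlY : A.lam * A.Y = R / (10 ^ 11 * A.v) := by
    rw [hl, hY]; field_simp
  have hlY1 : 1 ≤ A.lam * A.Y := by
    rw [hlY, le_div_iff₀ (by positivity)]; linarith
  have hlYR : 1 + A.lam * A.Y ≤ R := by
    have : A.lam * A.Y ≤ R / 10 := by
      rw [hlY]
      apply div_le_div_of_nonneg_left hR0.le (by norm_num)
      nlinarith
    linarith
  have hlL : A.lam * L = R := by
    rw [hl]; field_simp
  have hLY : L / A.Y = 10 ^ 11 * A.v := by
    rw [hY]; field_simp
  have hlp0 : 0 ≤ Real.log A.p0 := Real.log_nonneg (by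
    have := hok.hp
    have h2 : (1000 : ℝ) ≤ A.p0 := by exact_mod_cast this
    linarith)
  have hlp : Real.log A.p0 ≤ 5 * n := by
    calc Real.log A.p0 ≤ Real.log (2 * N ^ 4) := Real.log_le_log hp0 hp2
      _ = Real.log 2 + 4 * n := by
        rw [Real.log_mul (by norm_num) (by positivity), Real.log_pow]; norm_num [hn]
      _ ≤ 5 * n := by linarith [Real.log_two_lt_d9]
  have hfac : Real.log A.p0 ^ 20 * (L / A.Y) ≤ R := by
    rw [hLY]
    calc Real.log A.p0 ^ 20 * (10 ^ 11 * (A.v : ℝ)) ≤ (5 * n) ^ 20 * (10 ^ 11 * (6 * n)) := by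
          apply mul_le_mul (pow_le_pow_left₀ hlp0 hlp 20) (by linarith) (by positivity)
            (by positivity)
      _ = 5 ^ 20 * (6 * 10 ^ 11) * n ^ 21 := by ring
      _ ≤ R := hnR
  have hfac0 : 0 ≤ Real.log A.p0 ^ 20 * (L / A.Y) := by rw [hLY]; positivity
  have hlY0 : 0 ≤ 1 + A.lam * A.Y := by linarith
  have hexpN : ∀ k : ℕ, Real.exp (-(k * n)) = 1 / N ^ k := by
    intro k
    rw [Real.exp_neg, hn, ← Real.log_pow, Real.exp_log (by positivity), one_div]
  refine ⟨?_, ?_, hlY1, ?_, ?_, ?_, ?_, ?_, ?_⟩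
  · -- Len
    unfold Len
    rw [← hL]
    have : 10 ^ 10 * (A.v : ℝ) * A.Y = L / 10 := by rw [hY]; field_simp
    rw [this]; linarith
  · calc (A.p0 : ℝ) ^ 2 ≤ (2 * N ^ 4) ^ 2 := pow_le_pow_left₀ hp0.le hp2 2
      _ = 4 * N ^ 8 := by ring
      _ ≤ N ^ 4 * N ^ 8 := by
        apply mul_le_mul_of_nonneg_right _ (by positivity)
        have : N ≤ N ^ 4 := by
          calc N = N ^ 1 := (pow_one N).symm
            _ ≤ N ^ 4 := pow_le_pow_right₀ (by linarith) (by norm_num)
        linarith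
      _ = N ^ 12 := by ring
      _ ≤ L := hNL
  · rw [hlL]; linarith
  · rw [hl, div_le_iff₀ hL0]
    have h1 : R ≤ N := by rw [← hR2]; nlinarith
    have h2 : N * N ≤ N ^ 12 := by
      calc N * N = N ^ 2 := by ring
        _ ≤ N ^ 12 := pow_le_pow_right₀ (by linarith) (by norm_num)
    nlinarith
  · -- kap
    unfold kap
    rw [← hL, hlL]
    have e1 : Real.exp (-A.v) ≤ 1 / N ^ 3 := by
      calc Real.exp (-(A.v : ℝ)) ≤ Real.exp (-((3 : ℕ) * n)) := by
            apply Real.exp_le_exp.2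
            push_cast; linarith
        _ = 1 / N ^ 3 := hexpN 3
    have e2 : 1 / (A.p0 : ℝ) ≤ 1 / N ^ 3 := by
      apply one_div_le_one_div_of_le (by positivity)
      refine le_trans ?_ hp1
      exact pow_le_pow_right₀ (by linarith) (by norm_num)
    have e3 : Real.exp (-(R / 8)) ≤ 1 / N ^ 24 := by
      calc Real.exp (-(R / 8)) ≤ Real.exp (-((24 : ℕ) * n)) := by
            apply Real.exp_le_exp.2
            push_cast
            nlinarith
        _ = 1 / N ^ 24 := hexpN 24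
    have e4 : Real.exp (-(2 * A.lam * A.Y)) ≤ 1 / N ^ 24 := by
      calc Real.exp (-(2 * A.lam * A.Y)) ≤ Real.exp (-((24 : ℕ) * n)) := by
            apply Real.exp_le_exp.2
            push_cast
            have h1 : 24 * n ≤ 2 * (A.lam * A.Y) := by
              rw [hlY, ← mul_div_assoc, le_div_iff₀ (by positivity)]
              have h2 : 24 * n * (10 ^ 11 * (A.v : ℝ)) ≤ 24 * n * (10 ^ 11 * (6 * n)) := by
                apply mul_le_mul_of_nonneg_left (by linarith) (by linarith)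
              nlinarith
            linarith
        _ = 1 / N ^ 24 := hexpN 24
    have e5 : Real.log A.p0 ^ 20 * (1 + A.lam * A.Y) ^ 40 * (L / A.Y) ≤ N ^ 21 := by
      calc Real.log A.p0 ^ 20 * (1 + A.lam * A.Y) ^ 40 * (L / A.Y)
          = (Real.log A.p0 ^ 20 * (L / A.Y)) * (1 + A.lam * A.Y) ^ 40 := by ring
        _ ≤ R * R ^ 40 := mul_le_mul hfac (pow_le_pow_left₀ hlY0 hlYR 40) (by positivity) hR0.le
        _ = R ^ 41 := by ring
        _ ≤ R ^ 42 := pow_le_pow_right₀ (by linarith) (by norm_num)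
        _ = N ^ 21 := by rw [← hR2]; ring
    have e6 : 0 ≤ Real.log A.p0 ^ 20 * (1 + A.lam * A.Y) ^ 40 * (L / A.Y) := by
      rw [hLY]; positivity
    have e7 : Real.log A.p0 ^ 20 * (1 + A.lam * A.Y) ^ 40 * (L / A.Y)
        * (Real.exp (-(R / 8)) + Real.exp (-(2 * A.lam * A.Y))) ≤ 2 / N ^ 3 := by
      calc Real.log A.p0 ^ 20 * (1 + A.lam * A.Y) ^ 40 * (L / A.Y)
            * (Real.exp (-(R / 8)) + Real.exp (-(2 * A.lam * A.Y)))
          ≤ N ^ 21 * (1 / N ^ 24 + 1 / N ^ 24) :=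
            mul_le_mul e5 (add_le_add e3 e4) (by positivity) (by positivity)
        _ = 2 / N ^ 3 := by field_simp; norm_num
    have e8 : Real.exp (-A.v) + 1 / A.p0 + 2 / N ^ 3 ≤ 4 / N ^ 3 := by
      have : (4 : ℝ) / N ^ 3 = 1 / N ^ 3 + 1 / N ^ 3 + 2 / N ^ 3 := by ring
      rw [this]; linarith
    refine le_trans (add_le_add_right e7 _) (le_trans e8 ?_)
    apply div_le_div_of_nonneg_right _ (by positivity)
    linarith
  · calc Real.log A.p0 ^ 20 * (L / A.Y) * (1 + A.lam * A.Y) ^ 17 ≤ R * R ^ 17 :=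
          mul_le_mul hfac (pow_le_pow_left₀ hlY0 hlYR 17) (by positivity) hR0.le
      _ = N ^ 9 := by rw [← hR2]; ring
      _ ≤ (2 * C1 + 4) * N ^ 9 := le_mul_of_one_le_left (by positivity) (by linarith)
  · have h1 : Real.log (1 + A.lam * A.Y) ≤ n := by
      rw [hn]
      apply Real.log_le_log (by linarith)
      refine le_trans hlYR ?_
      rw [← hR2]; nlinarith
    have h2 : 0 ≤ Real.log (1 + A.lam * A.Y) := Real.log_nonneg (by linarith)
    calc (1 + Real.log (1 + A.lam * A.Y)) ^ 2 ≤ (2 * n) ^ 2 :=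
          pow_le_pow_left₀ (by linarith) (by linarith) 2
      _ = 4 * n ^ 2 := by ring
      _ ≤ N ^ (1 / 100 : ℝ) := hd'
      _ ≤ (2 * C1 + 4) * N ^ (1 / 100 : ℝ) :=
          le_mul_of_one_le_left (Real.rpow_nonneg hN0.le _) (by linarith)
  · have h1 := hV A hok
    have h2 : Real.log A.Y = Real.log L - Real.log (10 ^ 11 * A.v) := by
      rw [hY, Real.log_div hL0.ne' (by positivity)]
    have h3 : 0 ≤ Real.log (10 ^ 11 * A.v) := Real.log_nonneg (by nlinarith)
    have h4 : Real.log (10 ^ 11 * A.v) ≤ R := by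
      calc Real.log (10 ^ 11 * A.v) ≤ 10 ^ 11 * A.v - 1 := Real.log_le_sub_one_of_pos (by positivity)
        _ ≤ R := by linarith
    have h5 : Real.log A.p0 ≤ R := by nlinarith
    have h6 : A.lam * A.Y ≤ R := by linarith
    have h7 : C1 * (A.lam * A.Y) ≤ C1 * R := mul_le_mul_of_nonneg_left h6 hC1
    have h8 : C1 ≤ C1 * R := by nlinarith
    have h9 : |A.vt - Real.log L| ≤ |A.vt - Real.log A.Y| + Real.log (10 ^ 11 * A.v) := by
      have : A.vt - Real.log L = (A.vt - Real.log A.Y) + (-Real.log (10 ^ 11 * A.v)) := by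
        rw [h2]; ring
      rw [this]
      refine le_trans (abs_add_le _ _) ?_
      rw [abs_neg, abs_of_nonneg h3]
    nlinarith

end Pool.Agent.Lib.LC
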