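import Pool.Agent.Lib.MP_f9aece_nt_loc.E6

/-!
Project LOCAL, row E10: the law of `log |zeta|` through the levels.
-/

set_option autoImplicit false

namespace Pool.Agent.Lib.LC

open MeasureTheory Set Filter Topology Complex ProbabilityTheory
open scoped ComplexConjugate
open Pool.Agent.Lib.GT

namespace E10

open E6

lemma cont_lin (S : Finset ℕ) (c : ℕ → ℂ) : Continuous fun t : ℝ => lin S c (om t) := by
  have h : Continuous fun x : Om => lin S c x := by
    unfold lin
    fun_prop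
  exact h.comp continuous_om

lemma cont_X (A : Par) (s : Finset ℕ) : Continuous fun t : ℝ => A.X s (om t) := by
  unfold Par.X
  exact continuous_finsetSum _ fun g _ => Complex.continuous_re.comp (cont_lin _ _)

lemma cont_mo (A : Par) (μ : ℂ) (s : Finset ℕ) : Continuous fun t : ℝ => A.mo μ s (om t) := by
  unfold Par.mo
  refine continuous_finsetProd _ fun g _ => ?_
  have h : Continuous fun t : ℝ => A.P g (om t) := cont_lin _ _
  unfold tex
  fun_prop

lemma cont_zeta : Continuous fun t : ℝ => riemannZeta (1 / 2 + I * t) := by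
  rw [continuous_iff_continuousAt]
  intro t
  have h1 : (1 / 2 + I * t : ℂ) ≠ 1 := by
    intro h
    have := congrArg Complex.re h
    norm_num at this
  have h2 : ContinuousAt (fun t : ℝ => (1 / 2 + I * t : ℂ)) t := by fun_prop
  exact ContinuousAt.comp (g := riemannZeta) (f := fun t : ℝ => (1 / 2 + I * t : ℂ))
    (differentiableAt_riemannZeta h1).continuousAt h2

lemma W_nonneg (A : Par) (hb : 0 ≤ A.b) (s : Finset ℕ) (y : ℝ) (x : Om) : 0 ≤ A.W s y x := by
  have h0 : 0 ≤ c0 := integral_nonneg fun r => by positivity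
  unfold Par.W Par.bb bp
  refine mul_nonneg (mul_nonneg (div_nonneg hb h0) (Finset.prod_nonneg fun g _ => ?_)) (sq_nonneg _)
  exact Even.pow_nonneg ⟨MM (A.r g), by ring⟩ _

lemma un_out {T x : ℝ} (hT : 3 ≤ T) (hx : |x| ≤ T ^ (9 / 10 : ℝ)) :
    un x T (Icc (T ^ (19 / 20 : ℝ)) (x + T))ᶜ ≤ ENNReal.ofReal (2 * T ^ (-(1 / 20) : ℝ)) := by
  have hT0 : 0 < T := by linarith
  unfold un
  rw [Measure.smul_apply, Measure.restrict_apply measurableSet_Icc.compl, smul_eq_mul]
  have h1 : (Icc (T ^ (19 / 20 : ℝ)) (x + T))ᶜ ∩ Icc x (x + T) ⊆ Ico x (T ^ (19 / 20 : ℝ)) := by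
    rintro t ⟨ht, ht1, ht2⟩
    refine ⟨ht1, ?_⟩
    by_contra h
    exact ht ⟨not_lt.1 h, ht2⟩
  have h2 : T ^ (9 / 10 : ℝ) ≤ T ^ (19 / 20 : ℝ) :=
    Real.rpow_le_rpow_of_exponent_le (by linarith) (by norm_num)
  have h3 : volume ((Icc (T ^ (19 / 20 : ℝ)) (x + T))ᶜ ∩ Icc x (x + T))
      ≤ ENNReal.ofReal (2 * T ^ (19 / 20 : ℝ)) := by
    refine (measure_mono h1).trans ?_
    rw [Real.volume_Ico]
    refine ENNReal.ofReal_le_ofReal ?_
    have := (abs_le.1 hx).1
    linarith
  calc (ENNReal.ofReal T)⁻¹ * volume ((Icc (T ^ (19 / 20 : ℝ)) (x + T))ᶜ ∩ Icc x (x + T))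
      ≤ (ENNReal.ofReal T)⁻¹ * ENNReal.ofReal (2 * T ^ (19 / 20 : ℝ)) := by gcongr
    _ = ENNReal.ofReal (2 * T ^ (-(1 / 20) : ℝ)) := by
        rw [← ENNReal.ofReal_inv_of_pos hT0, ← ENNReal.ofReal_mul (by positivity)]
        congr 1
        have : T ^ (-(1 / 20) : ℝ) = T ^ (19 / 20 : ℝ) * T ^ (-1 : ℝ) := by
          rw [← Real.rpow_add hT0]
          norm_num
        rw [this, Real.rpow_neg_one]
        ring

/-- the Gaussian density is below the function `G` -/
lemma gauss_le (A : Par) (hs : 1 ≤ A.s2) (hbe : 0 ≤ A.be) {a b : ℝ} (hab : a ≤ b) :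
    (gaussianReal 0 (Real.toNNReal A.s2) (Ioc a b)).toReal ≤ (b - a) * A.G a := by
  have hs0 : 0 < A.s2 := by linarith
  have hv : Real.toNNReal A.s2 ≠ 0 := by
    rw [Ne, Real.toNNReal_eq_zero, not_le]
    exact hs0
  have hG0 := G_nonneg A a
  refine ENNReal.toReal_le_of_le_ofReal (by nlinarith) ?_
  rw [gaussianReal_apply 0 hv]
  calc ∫⁻ u in Ioc a b, gaussianPDF 0 (Real.toNNReal A.s2) u
      ≤ ∫⁻ u in Ioc a b, ENNReal.ofReal (A.G a) := by
        refine setLIntegral_mono' measurableSet_Ioc fun u hu => ?_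
        unfold gaussianPDF
        refine ENNReal.ofReal_le_ofReal ((le_trans ?_ (G_anti A hbe hu.1.le)))
        unfold gaussianPDFReal Par.G
        rw [Real.coe_toNNReal _ hs0.le, sub_zero, one_div]
        refine mul_le_mul ?_ (Real.exp_le_exp.2 ?_) (Real.exp_pos _).le (by positivity)
        · refine inv_anti₀ (Real.sqrt_pos.2 hs0) (Real.sqrt_le_sqrt ?_)
          have := Real.pi_gt_three
          nlinarith
        · rw [neg_div, neg_le_iff_add_nonneg]
          have h1 : 0 ≤ (u - A.be * A.s2) ^ 2 / (2 * A.s2) := by positivity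
          have h2 : (u - A.be * A.s2) ^ 2 / (2 * A.s2) =
              -(A.be * u) + A.be ^ 2 * A.s2 / 2 + u ^ 2 / (2 * A.s2) := by
            field_simp
            ring
          linarith
    _ = ENNReal.ofReal ((b - a) * A.G a) := by
        rw [setLIntegral_const, Real.volume_Ioc, ← ENNReal.ofReal_mul hG0, mul_comm]

lemma gauss_split (v : NNReal) (a b c : ℝ) :
    (gaussianReal 0 v (Ioc a c)).toReal ≤ (gaussianReal 0 v (Ioc a b)).toReal
      + (gaussianReal 0 v (Ioc b c)).toReal := by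
  rw [← ENNReal.toReal_add (measure_ne_top _ _) (measure_ne_top _ _)]
  refine ENNReal.toReal_mono (ENNReal.add_ne_top.2 ⟨measure_ne_top _ _, measure_ne_top _ _⟩) ?_
  refine (measure_mono ?_).trans (measure_union_le _ _)
  intro u hu
  by_cases h : u ≤ b
  · exact Or.inl ⟨hu.1, h⟩
  · exact Or.inr ⟨not_le.1 h, hu.2⟩

/-- heights whose value is much larger than the exponential of the prime sum -/
lemma high (A : Par) (hA : A.Ok) {C C1 κ T x N V1 V2 : ℝ} (hC : 1 ≤ C) (_hC1 : 1 ≤ C1) (hκ : 0 ≤ κ)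
    (hT : 0 < T) (_hV : V1 ≤ V2)
    (hW : ∀ m : Measure ℝ, SFinite m → ∀ κ : ℝ, 0 ≤ κ → ∀ H : ℝ → ENNReal, Measurable H →
      (∀ y : ℝ, ∫⁻ t, ENNReal.ofReal (A.W ∅ y (om t)) * H t ∂m ≤ ENNReal.ofReal (κ * A.G y)) →
      ∀ ω ω' : ℝ → ENNReal, Measurable ω → Measurable ω' →
      (∀ u y : ℝ, |u - y| ≤ C1 → ω u ≤ ω' y) →
      ∫⁻ t in {t | A.Good ∅ (om t) ∧ A.Bad ∅ (om t)}, ω (A.X ∅ (om t)) * H t ∂m
        ≤ ENNReal.ofReal (C * κ) * ∫⁻ y : ℝ, ω' y * ENNReal.ofReal (A.G y))
    (hM : ∀ y : ℝ, ∫⁻ t in Icc (T ^ (19 / 20 : ℝ)) (x + T),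
      ENNReal.ofReal (A.W ∅ y (om t) * (‖A.mo (-1) ∅ (om t)‖ ^ 2
        * ‖riemannZeta (1 / 2 + I * t)‖ ^ 2)) ∂(un x T) ≤ ENNReal.ofReal (κ * A.G y))
    (hP : ∀ t : ℝ, A.Good ∅ (om t) →
      1 / 2 * Real.exp (-(2 * A.X ∅ (om t))) ≤ ‖A.mo (-1) ∅ (om t)‖ ^ 2) :
    un x T {t | t ∈ Icc (T ^ (19 / 20 : ℝ)) (x + T) ∧ A.Good ∅ (om t) ∧ V1 < A.X ∅ (om t) ∧
      A.X ∅ (om t) ≤ V2 ∧ Real.exp (A.X ∅ (om t) + N) < ‖riemannZeta (1 / 2 + I * t)‖}
      ≤ ENNReal.ofReal (2 * Real.exp (-(2 * N)) * (C * κ * ((V2 - V1 + 2 * C1) * A.G (V1 - C1)))) := by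
  classical
  have : IsProbabilityMeasure (un x T) := prob_un x hT
  set I0 : Set ℝ := Icc (T ^ (19 / 20 : ℝ)) (x + T) with hI0
  set m : Measure ℝ := (un x T).restrict I0 with hm
  have hb : 0 ≤ A.b := (hA.hbe.trans_le hA.hbb).le
  let q : ℝ → ℝ := fun t => ‖A.mo (-1) ∅ (om t)‖ ^ 2 * ‖riemannZeta (1 / 2 + I * t)‖ ^ 2
  have hq : Continuous q := ((cont_mo A (-1) ∅).norm.pow 2).mul (cont_zeta.norm.pow 2)
  let H : ℝ → ENNReal := fun t => ENNReal.ofReal (q t)
  have hH : Measurable H := ENNReal.measurable_ofReal.comp hq.measurable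
  let ω : ℝ → ENNReal := (Ioc V1 V2).indicator 1
  let ω' : ℝ → ENNReal := (Icc (V1 - C1) (V2 + C1)).indicator 1
  have hω : Measurable ω := measurable_one.indicator measurableSet_Ioc
  have hω' : Measurable ω' := measurable_one.indicator measurableSet_Icc
  have hle : ∀ u y : ℝ, |u - y| ≤ C1 → ω u ≤ ω' y := by
    intro u y huy
    rw [abs_le] at huy
    by_cases hu : u ∈ Ioc V1 V2
    · have hy : y ∈ Icc (V1 - C1) (V2 + C1) := ⟨by linarith [hu.1], by linarith [hu.2]⟩
      simp only [ω, ω', indicator_of_mem hu, indicator_of_mem hy]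
      exact le_rfl
    · simp only [ω, indicator_of_notMem hu]
      exact zero_le
  have key := hW m inferInstance κ hκ H hH (fun y => by
    refine le_trans (le_of_eq ?_) (hM y)
    refine lintegral_congr fun t => ?_
    rw [ENNReal.ofReal_mul (W_nonneg A hb _ _ _)]) ω ω' hω hω' hle
  have hint : ∫⁻ y : ℝ, ω' y * ENNReal.ofReal (A.G y) ≤
      ENNReal.ofReal ((V2 - V1 + 2 * C1) * A.G (V1 - C1)) := by
    calc ∫⁻ y : ℝ, ω' y * ENNReal.ofReal (A.G y)
        ≤ ∫⁻ y : ℝ, (Icc (V1 - C1) (V2 + C1)).indicator (fun _ => ENNReal.ofReal (A.G (V1 - C1))) y := by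
          refine lintegral_mono fun y => ?_
          by_cases hy : y ∈ Icc (V1 - C1) (V2 + C1)
          · simp only [ω', indicator_of_mem hy, Pi.one_apply, one_mul]
            exact ENNReal.ofReal_le_ofReal (G_anti A hA.hbe.le hy.1)
          · simp only [ω', indicator_of_notMem hy, zero_mul]
            exact le_rfl
      _ = ENNReal.ofReal ((V2 - V1 + 2 * C1) * A.G (V1 - C1)) := by
          rw [lintegral_indicator measurableSet_Icc, setLIntegral_const, Real.volume_Icc,
            ← ENNReal.ofReal_mul (G_nonneg A _)]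
          congr 1
          ring
  let f : ℝ → ENNReal := fun t => ENNReal.ofReal (2 * Real.exp (-(2 * N))) *
    (ω (A.X ∅ (om t)) * H t)
  have hf : Measurable f := ((hω.comp (cont_X A ∅).measurable).mul hH).const_mul _
  set GB : Set ℝ := {t | A.Good ∅ (om t) ∧ A.Bad ∅ (om t)} with hGB
  have hset : MeasurableSet {t | (1 : ENNReal) ≤ f t} := measurableSet_le measurable_const hf
  calc un x T {t | t ∈ I0 ∧ A.Good ∅ (om t) ∧ V1 < A.X ∅ (om t) ∧
      A.X ∅ (om t) ≤ V2 ∧ Real.exp (A.X ∅ (om t) + N) < ‖riemannZeta (1 / 2 + I * t)‖}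
      ≤ m ({t | (1 : ENNReal) ≤ f t} ∩ GB) := by
        rw [hm, Measure.restrict_apply' measurableSet_Icc]
        refine measure_mono ?_
        rintro t ⟨h1, h2, h3, h4, h5⟩
        refine ⟨⟨?_, h2, fun g hg => absurd hg (Finset.notMem_empty g)⟩, h1⟩
        have hX : A.X ∅ (om t) ∈ Ioc V1 V2 := ⟨h3, h4⟩
        change (1 : ENNReal) ≤ ENNReal.ofReal (2 * Real.exp (-(2 * N))) * (ω (A.X ∅ (om t)) * H t)
        simp only [ω, indicator_of_mem hX, Pi.one_apply, one_mul, H]
        rw [← ENNReal.ofReal_mul (by positivity), ENNReal.one_le_ofReal]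
        have h6 : Real.exp (A.X ∅ (om t) + N) ^ 2 ≤ ‖riemannZeta (1 / 2 + I * t)‖ ^ 2 :=
          pow_le_pow_left₀ (Real.exp_pos _).le h5.le 2
        have h7 := mul_le_mul (hP t h2) h6 (by positivity) (by positivity)
        have h8 : 1 / 2 * Real.exp (-(2 * A.X ∅ (om t))) * Real.exp (A.X ∅ (om t) + N) ^ 2 =
            1 / 2 * Real.exp (2 * N) := by
          rw [← Real.exp_nat_mul, mul_assoc, ← Real.exp_add]
          congr 2
          push_cast
          ring
        rw [h8] at h7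
        calc (1 : ℝ) = 2 * Real.exp (-(2 * N)) * (1 / 2 * Real.exp (2 * N)) := by
              rw [show 2 * Real.exp (-(2 * N)) * (1 / 2 * Real.exp (2 * N)) =
                Real.exp (-(2 * N)) * Real.exp (2 * N) by ring, ← Real.exp_add, neg_add_cancel,
                Real.exp_zero]
          _ ≤ 2 * Real.exp (-(2 * N)) * q t := mul_le_mul_of_nonneg_left h7 (by positivity)
    _ = (m.restrict GB) {t | (1 : ENNReal) ≤ f t} := by rw [Measure.restrict_apply hset]
    _ ≤ ∫⁻ t in GB, f t ∂m := by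
        have := mul_meas_ge_le_lintegral₀ (μ := m.restrict GB) hf.aemeasurable 1
        rwa [one_mul] at this
    _ = ENNReal.ofReal (2 * Real.exp (-(2 * N))) * ∫⁻ t in GB, ω (A.X ∅ (om t)) * H t ∂m := by
        exact lintegral_const_mul _ ((hω.comp (cont_X A ∅).measurable).mul hH)
    _ ≤ ENNReal.ofReal (2 * Real.exp (-(2 * N))) * (ENNReal.ofReal (C * κ) *
          ENNReal.ofReal ((V2 - V1 + 2 * C1) * A.G (V1 - C1))) := by
        refine mul_le_mul_right (key.trans ?_) _
        exact mul_le_mul_right hint _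
    _ = ENNReal.ofReal (2 * Real.exp (-(2 * N)) * (C * κ * ((V2 - V1 + 2 * C1) * A.G (V1 - C1)))) := by
        rw [← ENNReal.ofReal_mul (by positivity), ← ENNReal.ofReal_mul (by positivity)]

/-- elementary numbers -/
lemma log_small {N : ℝ} (hN : 400 ≤ N) : 10 * Real.log N ≤ N := by
  have hN0 : 0 < N := by linarith
  have h1 : Real.log N = 2 * Real.log (Real.sqrt N) := by
    rw [Real.log_sqrt hN0.le]
    ring
  have h2 : Real.log (Real.sqrt N) ≤ Real.sqrt N - 1 :=
    Real.log_le_sub_one_of_pos (Real.sqrt_pos.2 hN0)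
  have h3 : 20 ≤ Real.sqrt N := by
    rw [show (20 : ℝ) = Real.sqrt (20 ^ 2) by rw [Real.sqrt_sq (by norm_num)]]
    exact Real.sqrt_le_sqrt (by linarith)
  have h4 : Real.sqrt N * Real.sqrt N = N := Real.mul_self_sqrt hN0.le
  nlinarith

lemma exp_small {N : ℝ} (hN : 0 < N) : Real.exp (-(2 * N)) * N ^ 9 ≤ 3544 / N := by
  have h1 := Real.pow_div_factorial_le_exp (2 * N) (by linarith) 10
  have h2 : ((10 : ℕ).factorial : ℝ) = 3628800 := by norm_num [Nat.factorial]
  rw [h2] at h1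
  rw [Real.exp_neg, inv_mul_le_iff₀ (Real.exp_pos _)]
  have h3 : (2 * N) ^ 10 = 1024 * (N ^ 9 * N) := by ring
  rw [h3] at h1
  have h4 : N ^ 9 = (N ^ 9 * N) / N := by field_simp
  rw [h4, mul_div_assoc', mul_comm]
  refine div_le_div_of_nonneg_right ?_ hN.le
  nlinarith [Real.exp_pos (2 * N), pow_pos hN 10]

lemma T_small {T : ℝ} (hT : Real.exp 14400 ≤ T) :
    Real.log (Real.log T) * T ^ (-(1 / 20) : ℝ) ≤ T ^ (-(1 / 30) : ℝ) ∧
    6 * T ^ (-(1 / 20) : ℝ) ≤ T ^ (-(1 / 30) : ℝ) := by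
  have hT0 : 0 < T := (Real.exp_pos _).trans_le hT
  have hL : 14400 ≤ Real.log T := by rwa [Real.le_log_iff_exp_le hT0]
  have hL0 : 0 < Real.log T := by linarith
  have hlow : Real.log T / 60 ≤ T ^ (1 / 60 : ℝ) := by
    rw [Real.rpow_def_of_pos hT0]
    have := Real.add_one_le_exp (Real.log T * (1 / 60))
    linarith
  have hsq : 120 ≤ Real.sqrt (Real.log T) := by
    rw [show (120 : ℝ) = Real.sqrt (120 ^ 2) by rw [Real.sqrt_sq (by norm_num)]]
    exact Real.sqrt_le_sqrt (by linarith)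
  have hll : Real.log (Real.log T) ≤ T ^ (1 / 60 : ℝ) := by
    refine le_trans ?_ hlow
    have h1 : Real.log (Real.log T) = 2 * Real.log (Real.sqrt (Real.log T)) := by
      rw [Real.log_sqrt hL0.le]
      ring
    have h2 : Real.log (Real.sqrt (Real.log T)) ≤ Real.sqrt (Real.log T) - 1 :=
      Real.log_le_sub_one_of_pos (Real.sqrt_pos.2 hL0)
    have h4 : Real.sqrt (Real.log T) * Real.sqrt (Real.log T) = Real.log T :=
      Real.mul_self_sqrt hL0.le
    nlinarith
  have h6 : 6 ≤ T ^ (1 / 60 : ℝ) := by linarith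
  have hsplit : T ^ (-(1 / 30) : ℝ) = T ^ (1 / 60 : ℝ) * T ^ (-(1 / 20) : ℝ) := by
    rw [← Real.rpow_add hT0]
    norm_num
  have h0 : 0 ≤ T ^ (-(1 / 20) : ℝ) := Real.rpow_nonneg hT0.le _
  rw [hsplit]
  exact ⟨mul_le_mul_of_nonneg_right hll h0, mul_le_mul_of_nonneg_right h6 h0⟩

theorem fin_low {g0 g1 u0 u1 NG XG Q s r CL CX KT KH : ℝ} (k1 : g0 ≤ NG + g1)
    (k2 : g1 ≤ u1 + XG) (k3 : u1 ≤ u0 + (KT * Q + 4 * s) + KH * Q + 2 * s) (e2 : NG ≤ 2 * Q)
    (eX : XG ≤ 4 * CX * Q) (hs : 6 * s ≤ r) (hQ : 0 ≤ Q) (p1 : 0 ≤ CL * Q) (p2 : 0 ≤ CX * Q) :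
    -((2 * CL + 33 * CX + 4 + KT + KH) * Q + r) ≤ u0 - g0 := by
  have e : (2 * CL + 33 * CX + 4 + KT + KH) * Q =
      2 * (CL * Q) + 33 * (CX * Q) + 4 * Q + KT * Q + KH * Q := by ring
  have e' : 4 * CX * Q = 4 * (CX * Q) := by ring
  rw [e]
  rw [e'] at eX
  linarith

theorem fin_up {g0 g1 u0 u1 NG XG LG ls Q r CL CX KT KH : ℝ} (k3 : u0 ≤ (LG + ls) + u1)
    (k2 : u1 - g1 ≤ XG) (k4 : g1 ≤ g0 + NG) (eL : LG ≤ 2 * CL * Q) (eX : XG ≤ 33 * CX * Q)
    (e2 : NG ≤ 4 * Q) (hs : ls ≤ r) (p1 : 0 ≤ KT * Q) (p2 : 0 ≤ KH * Q) :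
    u0 - g0 ≤ (2 * CL + 33 * CX + 4 + KT + KH) * Q + r := by
  have e : (2 * CL + 33 * CX + 4 + KT + KH) * Q =
      2 * CL * Q + 33 * CX * Q + 4 * Q + KT * Q + KH * Q := by ring
  rw [e]
  linarith

end E10

open E6 E10

theorem upLoc (hL : Levels) (hX : LawXloc) (hT : LowTail) (hW : TiltW) (hM : LineMeanX)
    (hP : GT.WPoint) (hN : SpecNum) : UpLoc := by
  classical
  obtain ⟨CL, NL, hCL, hNL, HL⟩ := hL
  obtain ⟨CX, TX, vX, hCX, hTX, HX⟩ := hX
  obtain ⟨c, C4, T4, v4, hc, hC4, hT4, H4⟩ := hT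
  obtain ⟨CW, C1, vW, hCW, hC1, HW⟩ := hW
  obtain ⟨CM, TM, hCM, hTM, HM⟩ := hM
  obtain ⟨CP, CP1, vP, -, -, HP⟩ := hP
  obtain ⟨C5, N5, hC5, hN5, H5⟩ := hN
  let KT : ℝ := C4 * (2 * C5 + 24 / c ^ 4)
  let KH : ℝ := 2 * CW * CM * C5 * 3544
  have hKT : 0 ≤ KT := by positivity
  have hKH : 0 ≤ KH := by positivity
  refine ⟨2 * CL + 33 * CX + 4 + KT + KH, NL + N5 + C4 + C1 + Real.exp vX + Real.exp v4
    + Real.exp vW + Real.exp vP + 400, by linarith, ?_, ?_⟩
  · have := Real.exp_pos (vX : ℝ)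
    have := Real.exp_pos (v4 : ℝ)
    have := Real.exp_pos (vW : ℝ)
    have := Real.exp_pos (vP : ℝ)
    linarith
  intro N hN0
  have ex1 := Real.exp_pos (vX : ℝ)
  have ex2 := Real.exp_pos (v4 : ℝ)
  have ex3 := Real.exp_pos (vW : ℝ)
  have ex4 := Real.exp_pos (vP : ℝ)
  obtain ⟨TL, hTL, HL⟩ := HL N (by linarith)
  refine ⟨TL + TX + T4 + TM + Real.exp 14400, by
    have := Real.exp_pos (14400 : ℝ)
    linarith, ?_⟩
  intro A T hS hT0 hbe1 x V h hx hh hbeh
  have ex5 := Real.exp_pos (14400 : ℝ)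
  have hN400 : 400 ≤ N := by linarith
  have hNp : 1 ≤ N := by linarith
  have hNpos : 0 < N := by linarith
  have hNC1 : C1 ≤ N := by linarith
  have hNC4 : C4 ≤ N := by linarith
  have tL : TL ≤ T := by linarith
  have tX : TX ≤ T := by linarith
  have t4 : T4 ≤ T := by linarith
  have tM : TM ≤ T := by linarith
  have tE : Real.exp 14400 ≤ T := by linarith
  have hT3 : 3 ≤ T := by linarith
  have hTpos : 0 < T := by linarith
  obtain ⟨s1, s2, s3, s4, s5, s6, s7, s8, s9⟩ := H5 A T N hS (by linarith)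
  have hbe : 0 < A.be := hS.ok.hbe
  have hG0 : 0 ≤ A.G V := G_nonneg A V
  have hlogT : 0 < Real.log T := Real.log_pos (by linarith)
  have hlogN : 0 ≤ Real.log N := Real.log_nonneg hNp
  have hv : ∀ w : ℕ, Real.exp w ≤ N → w ≤ A.v := by
    intro w hw
    have h1 : (w : ℝ) ≤ Real.log N := by
      rw [Real.le_log_iff_exp_le hNpos]
      exact hw
    have h2 := hS.hv1
    have h3 : (w : ℝ) ≤ A.v := by linarith
    exact_mod_cast h3
  have hvX : vX ≤ A.v := hv _ (by linarith)
  have hv4 : v4 ≤ A.v := hv _ (by linarith)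
  have hvW : vW ≤ A.v := hv _ (by linarith)
  have hvP : vP ≤ A.v := hv _ (by linarith)
  have hlog10 : 10 * Real.log N ≤ N := log_small hN400
  have hh400 : 400 * N ≤ h := le_trans (by nlinarith only [hN400]) hh
  have hh0 : 0 < h := by linarith only [hh400, hN400]
  have hNh : N ≤ h / N := by
    rw [le_div_iff₀ hNpos]
    linarith only [hh]
  have hsqh : Real.sqrt h ≤ h / N := by
    rw [le_div_iff₀ hNpos]
    have h1 : N ≤ Real.sqrt h := by
      rw [show N = Real.sqrt (N ^ 2) by rw [Real.sqrt_sq hNpos.le]]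
      exact Real.sqrt_le_sqrt hh
    calc Real.sqrt h * N ≤ Real.sqrt h * Real.sqrt h :=
          mul_le_mul_of_nonneg_left h1 (Real.sqrt_nonneg _)
      _ = h := Real.mul_self_sqrt hh0.le
  -- the small quantities
  have hsmall : Real.exp (-A.v) + 1 / A.p0 + 1 / Real.sqrt T ≤ 3 / N := by
    have e1 : Real.exp (-(A.v : ℝ)) ≤ 1 / N := by
      rw [Real.exp_neg, one_div]
      refine inv_anti₀ hNpos ?_
      have h1 : Real.log N ≤ A.v := by linarith only [hS.hv1, hlogN]
      calc N = Real.exp (Real.log N) := (Real.exp_log hNpos).symm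
        _ ≤ Real.exp A.v := Real.exp_le_exp.2 h1
    have e2 : 1 / (A.p0 : ℝ) ≤ 1 / N := by
      refine one_div_le_one_div_of_le hNpos (le_trans ?_ hS.hp1)
      calc N = N ^ 1 := (pow_one N).symm
        _ ≤ N ^ 4 := pow_le_pow_right₀ hNp (by norm_num)
    have e3 : 1 / Real.sqrt T ≤ 1 / N := by
      refine one_div_le_one_div_of_le hNpos ?_
      rw [show N = Real.sqrt (N ^ 2) by rw [Real.sqrt_sq hNpos.le]]
      refine Real.sqrt_le_sqrt ?_
      calc N ^ 2 ≤ N ^ 12 := pow_le_pow_right₀ hNp (by norm_num)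
        _ ≤ Real.log T := hS.hN
        _ ≤ T := by linarith only [Real.log_le_sub_one_of_pos hTpos]
    calc _ ≤ 1 / N + 1 / N + 1 / N := by linarith only [e1, e2, e3]
      _ = 3 / N := by ring
  have hq1 : h / N ≤ h / N ^ (1 / 4 : ℝ) := by
    refine div_le_div_of_nonneg_left hh0.le (Real.rpow_pos_of_pos hNpos _) ?_
    calc N ^ (1 / 4 : ℝ) ≤ N ^ (1 : ℝ) := Real.rpow_le_rpow_of_exponent_le hNp (by norm_num)
      _ = N := Real.rpow_one N
  obtain ⟨hTs1, hTs2⟩ := T_small tE
  have hprob : IsProbabilityMeasure (un x T) := prob_un x hTpos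
  have hT20 : 0 ≤ T ^ (-(1 / 20) : ℝ) := Real.rpow_nonneg hTpos.le _
  have hll : 0 ≤ Real.log (Real.log T) := by
    refine Real.log_nonneg ?_
    have : N ^ 12 ≤ Real.log T := hS.hN
    have h1 : (1 : ℝ) ≤ N ^ 12 := one_le_pow₀ hNp
    linarith only [this, h1]
  have hh1 : 1 + h ≤ 2 * h := by linarith only [hh400, hN400]
  set g : ℝ → ℝ → ℝ := fun a b => (gaussianReal 0 (Real.toNNReal A.s2) (Ioc a b)).toReal with hg
  have gle : ∀ a b : ℝ, a ≤ b → g a b ≤ (b - a) * A.G a := fun a b hab =>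
    gauss_le A hS.ok.hs hbe.le hab
  have gsp : ∀ a b c : ℝ, g a c ≤ g a b + g b c := fun a b c => gauss_split _ a b c
  change |(un x T (Ev x T V h)).toReal - g V (V + h)| ≤ _
  set Q : ℝ := h / N ^ (1 / 4 : ℝ) * A.G V with hQ
  have hQ0 : 0 ≤ Q := by positivity
  have hGd : A.G (V - 10 * Real.log N) ≤ 3 * A.G V := by
    have h1 : A.G (V - 10 * Real.log N) = Real.exp (A.be * (10 * Real.log N)) * A.G V := by
      unfold Par.G
      rw [mul_left_comm, ← Real.exp_add]
      congr 2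
      ring
    rw [h1]
    refine mul_le_mul_of_nonneg_right ?_ hG0
    have h2 : A.be * (10 * Real.log N) ≤ 1 := by
      refine le_trans (mul_le_mul_of_nonneg_left ?_ hbe.le) hbeh
      linarith only [hlog10, hh400, hN400]
    calc Real.exp (A.be * (10 * Real.log N)) ≤ Real.exp 1 := Real.exp_le_exp.2 h2
      _ ≤ 3 := by linarith only [Real.exp_one_lt_d9]
  rw [abs_le]
  constructor
  · -- lower bound
    have key1 : g V (V + h) ≤ 2 * N * A.G V + g (V + N) (V + h - N) := by
      have a1 := gsp V (V + N) (V + h)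
      have a2 := gsp (V + N) (V + h - N) (V + h)
      have a3 := gle V (V + N) (by linarith only [hNpos])
      have a4 := gle (V + h - N) (V + h) (by linarith only [hNpos])
      have a5 : A.G (V + h - N) ≤ A.G V := G_anti A hbe.le (by linarith only [hh400, hN400])
      have a6 : (V + h - (V + h - N)) * A.G (V + h - N) ≤ N * A.G V := by
        have : V + h - (V + h - N) = N := by ring
        rw [this]
        exact mul_le_mul_of_nonneg_left a5 hNpos.le
      have a7 : (V + N - V) * A.G V = N * A.G V := by ring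
      linarith only [a1, a2, a3, a4, a6, a7]
    have key2 := HX A hS.ok hvX hS.hb T tX s1 x (V + N) (V + h - N) 
      (by linarith only [hh400, hN400]) (by
      refine le_trans (mul_le_mul_of_nonneg_left ?_ hbe.le) hbeh
      linarith only [hNpos])
    rw [abs_le] at key2
    have key2' : g (V + N) (V + h - N) ≤
        (un x T {t | A.Good ∅ (om t) ∧ V + N < A.X ∅ (om t) ∧ A.X ∅ (om t) ≤ V + h - N}).toReal
        + CX * (4 * (h / N)) * A.G V := by
      have b1 : V + h - N - (V + N) ≤ h := by linarith only [hNpos]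
      have b2 : 0 ≤ V + h - N - (V + N) := by linarith only [hh400, hN400]
      have b3 : Real.sqrt (V + h - N - (V + N)) ≤ h / N := (Real.sqrt_le_sqrt b1).trans hsqh
      have b4 : (Real.exp (-A.v) + 1 / A.p0 + 1 / Real.sqrt T) * (V + h - N - (V + N)) ≤
          3 * (h / N) := by
        calc _ ≤ 3 / N * h := mul_le_mul hsmall b1 b2 (by positivity)
          _ = 3 * (h / N) := by ring
      have b5 : CX * ((Real.exp (-A.v) + 1 / A.p0 + 1 / Real.sqrt T) * (V + h - N - (V + N))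
          + Real.sqrt (V + h - N - (V + N))) * A.G (V + N) ≤ CX * (4 * (h / N)) * A.G V := by
        refine mul_le_mul ?_ (G_anti A hbe.le (by linarith only [hNpos])) (G_nonneg A _) (by positivity)
        refine mul_le_mul_of_nonneg_left ?_ (by linarith only [hCX])
        linarith only [b3, b4]
      have := key2.1
      linarith only [this, b5]
    -- the inclusion
    have hsub : {t | A.Good ∅ (om t) ∧ V + N < A.X ∅ (om t) ∧ A.X ∅ (om t) ≤ V + h - N} ⊆
        ((Ev x T V h ∪ {t | t ∈ Icc (T ^ (19 / 20 : ℝ)) (x + T) ∧ A.Good ∅ (om t) ∧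
          V + N < A.X ∅ (om t) ∧ A.X ∅ (om t) ≤ V + h - N ∧
          ‖riemannZeta (1 / 2 + I * t)‖ ≤ Real.exp (A.X ∅ (om t) - N)}) ∪
        {t | t ∈ Icc (T ^ (19 / 20 : ℝ)) (x + T) ∧ A.Good ∅ (om t) ∧ V + N < A.X ∅ (om t) ∧
          A.X ∅ (om t) ≤ V + h - N ∧
          Real.exp (A.X ∅ (om t) + N) < ‖riemannZeta (1 / 2 + I * t)‖}) ∪
        (Icc (T ^ (19 / 20 : ℝ)) (x + T))ᶜ := by
      rintro t ⟨h1, h2, h3⟩
      by_cases h4 : t ∈ Icc (T ^ (19 / 20 : ℝ)) (x + T)
      · left
        by_cases h5 : Real.exp (A.X ∅ (om t) + N) < ‖riemannZeta (1 / 2 + I * t)‖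
        · exact Or.inr ⟨h4, h1, h2, h3, h5⟩
        · left
          by_cases h6 : ‖riemannZeta (1 / 2 + I * t)‖ ≤ Real.exp (A.X ∅ (om t) - N)
          · exact Or.inr ⟨h4, h1, h2, h3, h6⟩
          · left
            refine ⟨h4, lt_of_le_of_lt (Real.exp_le_exp.2 ?_) (not_le.1 h6),
              (not_lt.1 h5).trans (Real.exp_le_exp.2 ?_)⟩
            · linarith only [h2, h3]
            · linarith only [h2, h3]
      · exact Or.inr h4
    have bT := H4 A hS.ok hv4 hS.hb T t4 s1 s2 s3 s4 s5 x hx (V + N) (V + h - N) N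
      (by linarith only [hh400, hN400]) hNC4
    have hxT : |x| ≤ T := hx.trans (by
      conv_rhs => rw [← Real.rpow_one T]
      exact Real.rpow_le_rpow_of_exponent_le (by linarith only [hT3]) (by norm_num))
    have bH := high A hS.ok (C := CW) (C1 := C1) (κ := CM * (C5 * N ^ 9)) (T := T) (x := x) (N := N)
      (V1 := V + N) (V2 := V + h - N) hCW hC1 (by positivity) hTpos (by linarith only [hh400, hN400])
      (fun m hm κ hκ H hH hyp ω ω' hω hω' hle =>
        HW A hS.ok hvW hS.hb ∅ (Finset.empty_subset _) m hm κ hκ H hH hyp ω ω' hω hω' hle)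
      (fun y => by
        have h1 := HM A hS.ok T tM s1 x hxT y 0 (by
          rw [abs_zero]; exact Real.sqrt_nonneg _) ∅ (Finset.empty_subset _)
        simp only [add_zero] at h1
        refine h1.trans (ENNReal.ofReal_le_ofReal ?_)
        have h2 : gr (Real.log T) 0 = 1 := by
          unfold gr
          rw [abs_zero, mul_zero, add_zero, Real.one_rpow]
        rw [h2, Finset.sum_empty, neg_zero, Real.exp_zero, mul_one, mul_one]
        refine mul_le_mul_of_nonneg_right ?_ (G_nonneg A y)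
        calc CM * Real.log A.p0 ^ 20 * (Real.log T / A.Y) * (1 + A.lam * A.Y) ^ 17
            = CM * (Real.log A.p0 ^ 20 * (Real.log T / A.Y) * (1 + A.lam * A.Y) ^ 17) := by ring
          _ ≤ CM * (C5 * N ^ 9) := mul_le_mul_of_nonneg_left s7 (by linarith only [hCM]))
      (fun t ht => (HP A hS.ok hvP ∅ (Finset.empty_subset _) (om t) ht
        (fun g hg => absurd hg (Finset.notMem_empty g))).2.2.2.2)
    have bO := un_out (T := T) (x := x) hT3 hx
    have eT : C4 * ((1 + Real.log (1 + A.lam * A.Y)) ^ 2 / N ^ 2 + kap A T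
        + Real.exp (-(c * N / (A.lam * Real.log T)))) * ((V + h - N - (V + N) + N)
          * A.G (V + N - N)) ≤ KT * Q := by
      have hlamL : A.lam * Real.log T = N ^ (1 / 2 : ℝ) := by
        rw [hS.hl, div_mul_cancel₀ _ hlogT.ne']
      have hexp : Real.exp (-(c * N / (A.lam * Real.log T))) ≤ 24 / c ^ 4 / N ^ 2 := by
        have h1 : c * N / (A.lam * Real.log T) = c * N ^ (1 / 2 : ℝ) := by
          rw [hlamL, mul_div_assoc]
          congr 1
          rw [div_eq_iff (Real.rpow_pos_of_pos hNpos _).ne', ← Real.rpow_add hNpos]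
          norm_num
        rw [h1]
        refine (exp_bound hc (Real.rpow_pos_of_pos hNpos _)).trans (le_of_eq ?_)
        congr 1
        rw [← Real.rpow_natCast (N ^ (1 / 2 : ℝ)) 4, ← Real.rpow_mul hNpos.le,
          ← Real.rpow_natCast N 2]
        norm_num
      have hN100 : 1 ≤ N ^ (1 / 100 : ℝ) := Real.one_le_rpow hNp (by norm_num)
      have hkap : kap A T ≤ C5 / N ^ 2 := by
        refine s6.trans ?_
        rw [div_le_div_iff₀ (by positivity) (by positivity)]
        have : N ^ 2 ≤ N ^ 3 := pow_le_pow_right₀ hNp (by norm_num)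
        exact mul_le_mul_of_nonneg_left this (by linarith only [hC5])
      have hsum : (1 + Real.log (1 + A.lam * A.Y)) ^ 2 / N ^ 2 + kap A T
          + Real.exp (-(c * N / (A.lam * Real.log T))) ≤
          (2 * C5 + 24 / c ^ 4) * N ^ (1 / 100 : ℝ) / N ^ 2 := by
        have h1 : (1 + Real.log (1 + A.lam * A.Y)) ^ 2 / N ^ 2 ≤ C5 * N ^ (1 / 100 : ℝ) / N ^ 2 :=
          div_le_div_of_nonneg_right s8 (by positivity)
        have h2 : C5 / N ^ 2 ≤ C5 * N ^ (1 / 100 : ℝ) / N ^ 2 :=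
          div_le_div_of_nonneg_right (le_mul_of_one_le_right (by linarith only [hC5]) hN100) (by positivity)
        have h3 : 24 / c ^ 4 / N ^ 2 ≤ 24 / c ^ 4 * N ^ (1 / 100 : ℝ) / N ^ 2 :=
          div_le_div_of_nonneg_right (le_mul_of_one_le_right (by positivity) hN100) (by positivity)
        calc _ ≤ C5 * N ^ (1 / 100 : ℝ) / N ^ 2 + C5 * N ^ (1 / 100 : ℝ) / N ^ 2
              + 24 / c ^ 4 * N ^ (1 / 100 : ℝ) / N ^ 2 := by linarith only [h1, h2, h3, hkap, hexp]
          _ = _ := by ring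
      have hrate : N ^ (1 / 100 : ℝ) / N ^ 2 ≤ 1 / N ^ (1 / 4 : ℝ) := by
        rw [div_le_div_iff₀ (by positivity) (Real.rpow_pos_of_pos hNpos _), one_mul,
          ← Real.rpow_add hNpos]
        calc N ^ (1 / 100 + 1 / 4 : ℝ) ≤ N ^ (2 : ℝ) :=
              Real.rpow_le_rpow_of_exponent_le hNp (by norm_num)
          _ = N ^ 2 := by rw [← Real.rpow_natCast]; norm_num
      have hGG : (V + h - N - (V + N) + N) * A.G (V + N - N) ≤ h * A.G V := by
        have h1 : V + N - N = V := by ring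
        rw [h1]
        exact mul_le_mul_of_nonneg_right (by linarith only [hNpos]) hG0
      have hGG0 : 0 ≤ (V + h - N - (V + N) + N) * A.G (V + N - N) :=
        mul_nonneg (by linarith only [hh400, hN400]) (G_nonneg A _)
      calc _ ≤ C4 * ((2 * C5 + 24 / c ^ 4) * N ^ (1 / 100 : ℝ) / N ^ 2) * (h * A.G V) := by
            refine mul_le_mul (mul_le_mul_of_nonneg_left hsum (by linarith only [hC4])) hGG hGG0 (by positivity)
        _ = KT * (h * A.G V) * (N ^ (1 / 100 : ℝ) / N ^ 2) := by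
            simp only [KT]
            ring
        _ ≤ KT * (h * A.G V) * (1 / N ^ (1 / 4 : ℝ)) :=
            mul_le_mul_of_nonneg_left hrate (by positivity)
        _ = KT * Q := by
            rw [hQ]
            ring
    have eH : 2 * Real.exp (-(2 * N)) * (CW * (CM * (C5 * N ^ 9)) *
        ((V + h - N - (V + N) + 2 * C1) * A.G (V + N - C1))) ≤ KH * Q := by
      have h1 : (V + h - N - (V + N) + 2 * C1) * A.G (V + N - C1) ≤ h * A.G V :=
        mul_le_mul (by linarith only [hNC1]) (G_anti A hbe.le (by linarith only [hNC1])) (G_nonneg A _) hh0.le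
      have h2 := exp_small hNpos
      calc _ ≤ 2 * Real.exp (-(2 * N)) * (CW * (CM * (C5 * N ^ 9)) * (h * A.G V)) := by
            refine mul_le_mul_of_nonneg_left (mul_le_mul_of_nonneg_left h1 (by positivity))
              (by positivity)
        _ = 2 * CW * CM * C5 * (h * A.G V) * (Real.exp (-(2 * N)) * N ^ 9) := by ring
        _ ≤ 2 * CW * CM * C5 * (h * A.G V) * (3544 / N) :=
            mul_le_mul_of_nonneg_left h2 (by positivity)
        _ = KH * (h / N * A.G V) := by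
            simp only [KH]
            ring
        _ ≤ KH * Q := by
            refine mul_le_mul_of_nonneg_left ?_ hKH
            exact mul_le_mul_of_nonneg_right hq1 hG0
    have key3 : (un x T {t | A.Good ∅ (om t) ∧ V + N < A.X ∅ (om t) ∧
        A.X ∅ (om t) ≤ V + h - N}).toReal ≤
        (un x T (Ev x T V h)).toReal + (KT * Q + 4 * T ^ (-(1 / 20) : ℝ)) + KH * Q
          + 2 * T ^ (-(1 / 20) : ℝ) := by
      have hle : un x T {t | A.Good ∅ (om t) ∧ V + N < A.X ∅ (om t) ∧
          A.X ∅ (om t) ≤ V + h - N} ≤ un x T (Ev x T V h)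
          + ENNReal.ofReal (KT * Q + 4 * T ^ (-(1 / 20) : ℝ)) + ENNReal.ofReal (KH * Q)
          + ENNReal.ofReal (2 * T ^ (-(1 / 20) : ℝ)) := by
        refine (measure_mono hsub).trans ((measure_union_le _ _).trans ?_)
        refine add_le_add ((measure_union_le _ _).trans ?_) bO
        refine add_le_add ((measure_union_le _ _).trans ?_) (bH.trans (ENNReal.ofReal_le_ofReal eH))
        refine add_le_add le_rfl (bT.trans (ENNReal.ofReal_le_ofReal ?_))
        linarith only [eT]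
      have hfin : un x T (Ev x T V h) + ENNReal.ofReal (KT * Q + 4 * T ^ (-(1 / 20) : ℝ))
          + ENNReal.ofReal (KH * Q) + ENNReal.ofReal (2 * T ^ (-(1 / 20) : ℝ)) ≠ ⊤ := by
        refine ENNReal.add_ne_top.2 ⟨ENNReal.add_ne_top.2 ⟨ENNReal.add_ne_top.2
          ⟨measure_ne_top _ _, ENNReal.ofReal_ne_top⟩, ENNReal.ofReal_ne_top⟩, ENNReal.ofReal_ne_top⟩
      have h1 := ENNReal.toReal_mono hfin hle
      rw [ENNReal.toReal_add (ENNReal.add_ne_top.2 ⟨ENNReal.add_ne_top.2
          ⟨measure_ne_top _ _, ENNReal.ofReal_ne_top⟩, ENNReal.ofReal_ne_top⟩) ENNReal.ofReal_ne_top,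
        ENNReal.toReal_add (ENNReal.add_ne_top.2
          ⟨measure_ne_top _ _, ENNReal.ofReal_ne_top⟩) ENNReal.ofReal_ne_top,
        ENNReal.toReal_add (measure_ne_top _ _) ENNReal.ofReal_ne_top,
        ENNReal.toReal_ofReal (by positivity), ENNReal.toReal_ofReal (by positivity),
        ENNReal.toReal_ofReal (by positivity)] at h1
      exact h1
    have e2N : 2 * N * A.G V ≤ 2 * Q := by
      have h1 : N * A.G V ≤ Q := by
        rw [hQ]
        exact mul_le_mul_of_nonneg_right (hNh.trans hq1) hG0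
      linarith only [h1]
    have eX : CX * (4 * (h / N)) * A.G V ≤ 4 * CX * Q := by
      have h1 : h / N * A.G V ≤ Q := mul_le_mul_of_nonneg_right hq1 hG0
      calc CX * (4 * (h / N)) * A.G V = 4 * CX * (h / N * A.G V) := by ring
        _ ≤ 4 * CX * Q := mul_le_mul_of_nonneg_left h1 (by linarith only [hCX])
    have etot : (2 * CL + 33 * CX + 4 + KT + KH) * h / N ^ (1 / 4 : ℝ) * A.G V =
        (2 * CL + 33 * CX + 4 + KT + KH) * Q := by
      rw [hQ]
      ring
    rw [etot]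
    exact fin_low key1 key2' key3 e2N eX hTs2 hQ0 (by positivity) (by positivity)
  · -- upper bound
    have hsub : Ev x T V h ⊆ {t | t ∈ Ev x T V h ∧ ¬ Perf A N V h t} ∪
        {t | A.Good ∅ (om t) ∧ V - 10 * Real.log N < A.X ∅ (om t) ∧
          A.X ∅ (om t) ≤ V + h + N} := by
      intro t ht
      by_cases hp : Perf A N V h t
      · exact Or.inr hp
      · exact Or.inl ⟨ht, hp⟩
    have bL := HL A T hS tL hbe1 x V h hx hh0.le
    have key2 := HX A hS.ok hvX hS.hb T tX s1 x (V - 10 * Real.log N) (V + h + N) 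
      (by linarith only [hlogN, hh400, hN400]) (by
      refine le_trans (mul_le_mul_of_nonneg_left ?_ hbe.le) hbeh
      linarith only [hlog10, hh400, hN400])
    rw [abs_le] at key2
    have b1 : V + h + N - (V - 10 * Real.log N) ≤ 3 * h := by linarith only [hlog10, hh400, hN400]
    have b2 : 0 ≤ V + h + N - (V - 10 * Real.log N) := by linarith only [hlogN, hh400, hN400]
    have b3 : Real.sqrt (V + h + N - (V - 10 * Real.log N)) ≤ 2 * (h / N) := by
      refine (Real.sqrt_le_sqrt b1).trans ?_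
      have h1 : Real.sqrt (3 * h) ≤ 2 * Real.sqrt h := by
        refine Real.sqrt_le_iff.2 ⟨by positivity, ?_⟩
        rw [mul_pow, Real.sq_sqrt hh0.le]
        linarith only [hh0]
      linarith only [h1, hsqh]
    have b4 : (Real.exp (-A.v) + 1 / A.p0 + 1 / Real.sqrt T) *
        (V + h + N - (V - 10 * Real.log N)) ≤ 9 * (h / N) := by
      calc _ ≤ 3 / N * (3 * h) := mul_le_mul hsmall b1 b2 (by positivity)
        _ = 9 * (h / N) := by ring
    have b5 : CX * ((Real.exp (-A.v) + 1 / A.p0 + 1 / Real.sqrt T) *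
        (V + h + N - (V - 10 * Real.log N)) + Real.sqrt (V + h + N - (V - 10 * Real.log N)))
        * A.G (V - 10 * Real.log N) ≤ CX * (11 * (h / N)) * (3 * A.G V) := by
      refine mul_le_mul ?_ hGd (G_nonneg A _) (by positivity)
      refine mul_le_mul_of_nonneg_left ?_ (by linarith only [hCX])
      linarith only [b3, b4]
    have key4 : g (V - 10 * Real.log N) (V + h + N) ≤ g V (V + h) + 4 * N * A.G V := by
      have a1 := gsp (V - 10 * Real.log N) V (V + h + N)
      have a2 := gsp V (V + h) (V + h + N)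
      have a3 := gle (V - 10 * Real.log N) V (by linarith only [hlogN])
      have a4 := gle (V + h) (V + h + N) (by linarith only [hNpos])
      have a5 : A.G (V + h) ≤ A.G V := G_anti A hbe.le (by linarith only [hh0])
      have a6 : (V + h + N - (V + h)) * A.G (V + h) ≤ N * A.G V := by
        have : V + h + N - (V + h) = N := by ring
        rw [this]
        exact mul_le_mul_of_nonneg_left a5 hNpos.le
      have a7 : (V - (V - 10 * Real.log N)) * A.G (V - 10 * Real.log N) ≤ N * (3 * A.G V) :=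
        mul_le_mul (by linarith only [hlog10]) hGd (G_nonneg A _) hNpos.le
      linarith only [a1, a2, a3, a4, a6, a7]
    have key3 : (un x T (Ev x T V h)).toReal ≤
        (CL * (1 + h) / N ^ (1 / 4 : ℝ) * A.G V + Real.log (Real.log T) * T ^ (-(1 / 20) : ℝ))
        + (un x T {t | A.Good ∅ (om t) ∧ V - 10 * Real.log N < A.X ∅ (om t) ∧
          A.X ∅ (om t) ≤ V + h + N}).toReal := by
      have hle := (measure_mono (μ := un x T) hsub).trans ((measure_union_le _ _).trans
        (add_le_add bL le_rfl))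
      have h1 := ENNReal.toReal_mono (ENNReal.add_ne_top.2
        ⟨ENNReal.ofReal_ne_top, measure_ne_top _ _⟩) hle
      rw [ENNReal.toReal_add ENNReal.ofReal_ne_top (measure_ne_top _ _),
        ENNReal.toReal_ofReal (by positivity)] at h1
      exact h1
    have eL : CL * (1 + h) / N ^ (1 / 4 : ℝ) * A.G V ≤ 2 * CL * Q := by
      rw [hQ]
      have h1 : (1 + h) / N ^ (1 / 4 : ℝ) ≤ 2 * (h / N ^ (1 / 4 : ℝ)) := by
        rw [mul_div_assoc']
        exact div_le_div_of_nonneg_right hh1 (Real.rpow_nonneg hNpos.le _)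
      calc CL * (1 + h) / N ^ (1 / 4 : ℝ) * A.G V = CL * ((1 + h) / N ^ (1 / 4 : ℝ)) * A.G V := by
            ring
        _ ≤ CL * (2 * (h / N ^ (1 / 4 : ℝ))) * A.G V :=
            mul_le_mul_of_nonneg_right (mul_le_mul_of_nonneg_left h1 (by linarith only [hCL])) hG0
        _ = _ := by ring
    have eX : CX * (11 * (h / N)) * (3 * A.G V) ≤ 33 * CX * Q := by
      have h1 : h / N * A.G V ≤ Q := mul_le_mul_of_nonneg_right hq1 hG0
      calc CX * (11 * (h / N)) * (3 * A.G V) = 33 * CX * (h / N * A.G V) := by ring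
        _ ≤ 33 * CX * Q := mul_le_mul_of_nonneg_left h1 (by linarith only [hCX])
    have e4N : 4 * N * A.G V ≤ 4 * Q := by
      have h1 : N * A.G V ≤ Q := by
        rw [hQ]
        exact mul_le_mul_of_nonneg_right (hNh.trans hq1) hG0
      linarith only [h1]
    have etot : (2 * CL + 33 * CX + 4 + KT + KH) * h / N ^ (1 / 4 : ℝ) * A.G V =
        (2 * CL + 33 * CX + 4 + KT + KH) * Q := by
      rw [hQ]
      ring
    rw [etot]
    exact fin_up key3 (key2.2.trans b5) key4 eL eX e4N hTs1 (by positivity) (by positivity)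

end Pool.Agent.Lib.LC
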