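import Pool.Agent.Lib.MP_f9aece_nt_loc.Stmts

/-! Module E11: Gaussian intervals. -/

set_option autoImplicit false

namespace Pool.Agent.Lib.LC

open MeasureTheory Set Filter Topology ProbabilityTheory

namespace GI

/-- the density -/
noncomputable def p (s x : ℝ) : ℝ := gaussianPDFReal 0 (Real.toNNReal (s ^ 2)) x

lemma p_eq {s : ℝ} (_hs : 0 < s) (x : ℝ) :
    p s x = (Real.sqrt (2 * Real.pi) * s)⁻¹ * Real.exp (-(x ^ 2 / (2 * s ^ 2))) := by
  rw [p, gaussianPDFReal, Real.coe_toNNReal _ (sq_nonneg s), sub_zero,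
    Real.sqrt_mul (by positivity), Real.sqrt_sq _hs.le, neg_div]

lemma gi_eq {s : ℝ} (hs : 0 < s) (V W : ℝ) : gi s V W = ∫ x in Ioc V W, p s x := by
  have hv : Real.toNNReal (s ^ 2) ≠ 0 := by
    exact (Real.toNNReal_pos.2 (by positivity)).ne'
  rw [gi, gaussianReal_apply_eq_integral _ hv, ENNReal.toReal_ofReal]
  · rfl
  · exact integral_nonneg fun x => gaussianPDFReal_nonneg _ _ _

lemma p_int (s : ℝ) (S : Set ℝ) : IntegrableOn (p s) S :=
  (integrable_gaussianPDFReal 0 (Real.toNNReal (s ^ 2))).integrableOn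

/-- the exponent on the interval -/
lemma sq_near {s V h x : ℝ} (h0 : 0 ≤ h) (hhs : h ≤ s) (hV : h * |V| ≤ s ^ 2)
    (hx : x ∈ Ioc V (V + h)) : |x ^ 2 - V ^ 2| ≤ 3 * s ^ 2 := by
  have h1 : x ^ 2 - V ^ 2 = (x - V) * (2 * V + (x - V)) := by ring
  have h2 : |x - V| ≤ h := by
    rw [abs_of_nonneg (by linarith [hx.1])]
    linarith [hx.2]
  rw [h1, abs_mul]
  have h3 : |2 * V + (x - V)| ≤ 2 * |V| + h := by
    calc |2 * V + (x - V)| ≤ |2 * V| + |x - V| := abs_add_le _ _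
      _ ≤ 2 * |V| + h := by rw [abs_mul, abs_two]; linarith
  have h4 : 0 ≤ |V| := abs_nonneg V
  have hs : 0 ≤ s := h0.trans hhs
  calc |x - V| * |2 * V + (x - V)| ≤ h * (2 * |V| + h) := by gcongr
    _ = 2 * (h * |V|) + h * h := by ring
    _ ≤ 2 * s ^ 2 + s * s := by gcongr
    _ = 3 * s ^ 2 := by ring

lemma sqrt_two_pi_le : Real.sqrt (2 * Real.pi) ≤ 3 := by
  rw [Real.sqrt_le_left (by norm_num)]
  have := Real.pi_lt_four
  nlinarith

lemma one_le_sqrt_two_pi : 1 ≤ Real.sqrt (2 * Real.pi) := by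
  rw [Real.one_le_sqrt]
  have := Real.pi_gt_three
  linarith

lemma exp_three_half_le : Real.exp (3 / 2) ≤ 5 := by
  have h1 : Real.exp (3 / 2) ^ 2 = Real.exp 1 ^ 3 := by
    rw [← Real.exp_nat_mul, ← Real.exp_nat_mul]
    norm_num
  have h2 := Real.exp_one_lt_d9
  have h3 : Real.exp 1 ^ 3 ≤ 2.7182818286 ^ 3 := by
    gcongr
  have h4 : Real.exp (3 / 2) ^ 2 ≤ 5 ^ 2 := by
    rw [h1]; refine h3.trans (by norm_num)
  exact le_of_sq_le_sq h4 (by norm_num)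

lemma exp_five_half_le : Real.exp (5 / 2) ≤ 13 := by
  have h1 : Real.exp (5 / 2) ^ 2 = Real.exp 1 ^ 5 := by
    rw [← Real.exp_nat_mul, ← Real.exp_nat_mul]
    norm_num
  have h2 := Real.exp_one_lt_d9
  have h3 : Real.exp 1 ^ 5 ≤ 2.7182818286 ^ 5 := by
    gcongr
  have h4 : Real.exp (5 / 2) ^ 2 ≤ 13 ^ 2 := by
    rw [h1]; refine h3.trans (by norm_num)
  exact le_of_sq_le_sq h4 (by norm_num)

lemma abs_exp_sub_one (u : ℝ) : |Real.exp u - 1| ≤ |u| * Real.exp |u| := by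
  have h1 := Real.add_one_le_exp u
  have h2 := Real.add_one_le_exp (-u)
  have h3 : Real.exp (-u) * Real.exp u = 1 := by rw [← Real.exp_add]; simp
  have h4 : Real.exp u - 1 ≤ u * Real.exp u := by
    have := mul_le_mul_of_nonneg_right h2 (Real.exp_pos u).le
    rw [h3] at this
    linarith
  have h5 : Real.exp u ≤ Real.exp |u| := Real.exp_le_exp.2 (le_abs_self u)
  have h6 : 1 ≤ Real.exp |u| := Real.one_le_exp (abs_nonneg u)
  rw [abs_le]
  constructor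
  · have h7 : -(|u| * Real.exp |u|) ≤ -|u| := by
      have := mul_le_mul_of_nonneg_left h6 (abs_nonneg u)
      linarith
    have := neg_abs_le u
    linarith
  · refine h4.trans ?_
    calc u * Real.exp u ≤ |u| * Real.exp u := by
          gcongr; exact le_abs_self u
      _ ≤ |u| * Real.exp |u| := by gcongr

lemma p_low {s V h x : ℝ} (hs : 1 ≤ s) (h0 : 0 ≤ h) (hhs : h ≤ s) (hV : h * |V| ≤ s ^ 2)
    (hx : x ∈ Ioc V (V + h)) : Real.exp (-(V ^ 2 / (2 * s ^ 2))) / (15 * s) ≤ p s x := by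
  have hs0 : 0 < s := by linarith
  have h1 := sq_near h0 hhs hV hx
  rw [p_eq hs0]
  have h2 : -(V ^ 2 / (2 * s ^ 2)) ≤ -(x ^ 2 / (2 * s ^ 2)) + 3 / 2 := by
    have h3 : x ^ 2 ≤ V ^ 2 + 3 * s ^ 2 := by linarith [(abs_le.1 h1).2]
    have h4 : x ^ 2 / (2 * s ^ 2) ≤ (V ^ 2 + 3 * s ^ 2) / (2 * s ^ 2) := by gcongr
    have h5 : (V ^ 2 + 3 * s ^ 2) / (2 * s ^ 2) = V ^ 2 / (2 * s ^ 2) + 3 / 2 := by
      field_simp
    linarith
  have h6 : Real.exp (-(V ^ 2 / (2 * s ^ 2))) ≤ Real.exp (-(x ^ 2 / (2 * s ^ 2))) * 5 := by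
    calc Real.exp (-(V ^ 2 / (2 * s ^ 2))) ≤ Real.exp (-(x ^ 2 / (2 * s ^ 2)) + 3 / 2) :=
          Real.exp_le_exp.2 h2
      _ = Real.exp (-(x ^ 2 / (2 * s ^ 2))) * Real.exp (3 / 2) := Real.exp_add _ _
      _ ≤ _ := by gcongr; exact exp_three_half_le
  have h7 : (3 * s)⁻¹ ≤ (Real.sqrt (2 * Real.pi) * s)⁻¹ := by
    have := one_le_sqrt_two_pi
    have := sqrt_two_pi_le
    gcongr
  calc Real.exp (-(V ^ 2 / (2 * s ^ 2))) / (15 * s)
      ≤ (Real.exp (-(x ^ 2 / (2 * s ^ 2))) * 5) / (15 * s) := by gcongr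
    _ = (3 * s)⁻¹ * Real.exp (-(x ^ 2 / (2 * s ^ 2))) := by field_simp; ring
    _ ≤ _ := by gcongr

lemma p_up {s V h x : ℝ} (hs : 1 ≤ s) (h0 : 0 ≤ h) (hhs : h ≤ s) (hV : h * |V| ≤ s ^ 2)
    (hx : x ∈ Ioc V (V + h)) : p s x ≤ 5 * Real.exp (-(V ^ 2 / (2 * s ^ 2))) / s := by
  have hs0 : 0 < s := by linarith
  have h1 := sq_near h0 hhs hV hx
  rw [p_eq hs0]
  have h2 : -(x ^ 2 / (2 * s ^ 2)) ≤ -(V ^ 2 / (2 * s ^ 2)) + 3 / 2 := by
    have h3 : V ^ 2 ≤ x ^ 2 + 3 * s ^ 2 := by linarith [(abs_le.1 h1).1]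
    have h4 : V ^ 2 / (2 * s ^ 2) ≤ (x ^ 2 + 3 * s ^ 2) / (2 * s ^ 2) := by gcongr
    have h5 : (x ^ 2 + 3 * s ^ 2) / (2 * s ^ 2) = x ^ 2 / (2 * s ^ 2) + 3 / 2 := by
      field_simp
    linarith
  have h6 : Real.exp (-(x ^ 2 / (2 * s ^ 2))) ≤ 5 * Real.exp (-(V ^ 2 / (2 * s ^ 2))) := by
    calc Real.exp (-(x ^ 2 / (2 * s ^ 2))) ≤ Real.exp (-(V ^ 2 / (2 * s ^ 2)) + 3 / 2) :=
          Real.exp_le_exp.2 h2
      _ = Real.exp (3 / 2) * Real.exp (-(V ^ 2 / (2 * s ^ 2))) := by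
          rw [Real.exp_add]; ring
      _ ≤ _ := by gcongr; exact exp_three_half_le
  have h7 : (Real.sqrt (2 * Real.pi) * s)⁻¹ ≤ (1 * s)⁻¹ := by
    have := one_le_sqrt_two_pi
    gcongr
  calc (Real.sqrt (2 * Real.pi) * s)⁻¹ * Real.exp (-(x ^ 2 / (2 * s ^ 2)))
      ≤ (1 * s)⁻¹ * (5 * Real.exp (-(V ^ 2 / (2 * s ^ 2)))) := by gcongr
    _ = _ := by field_simp

lemma vol_Ioc (V : ℝ) {h : ℝ} (h0 : 0 ≤ h) : (volume.real (Ioc V (V + h))) = h := by
  rw [Measure.real, Real.volume_Ioc, add_sub_cancel_left, ENNReal.toReal_ofReal h0]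

lemma int_const (V c : ℝ) {h : ℝ} (h0 : 0 ≤ h) : ∫ _x in Ioc V (V + h), c = h * c := by
  rw [setIntegral_const, vol_Ioc V h0, smul_eq_mul]

lemma const_int (V c h : ℝ) : IntegrableOn (fun _ : ℝ => c) (Ioc V (V + h)) :=
  integrableOn_const (by simp [Real.volume_Ioc])

lemma part_one {s V h : ℝ} (hs : 1 ≤ s) (h0 : 0 ≤ h) (hhs : h ≤ s) (hV : h * |V| ≤ s ^ 2) :
    h / s * Real.exp (-(V ^ 2 / (2 * s ^ 2))) ≤ 15 * gi s V (V + h) ∧
    gi s V (V + h) ≤ 5 * (h / s * Real.exp (-(V ^ 2 / (2 * s ^ 2)))) := by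
  have hs0 : 0 < s := by linarith
  rw [gi_eq hs0]
  constructor
  · have h1 : ∫ _x in Ioc V (V + h), Real.exp (-(V ^ 2 / (2 * s ^ 2))) / (15 * s)
        ≤ ∫ x in Ioc V (V + h), p s x :=
      setIntegral_mono_on (const_int _ _ _) (p_int s _) measurableSet_Ioc
        fun x hx => p_low hs h0 hhs hV hx
    rw [int_const V _ h0] at h1
    calc h / s * Real.exp (-(V ^ 2 / (2 * s ^ 2)))
        = 15 * (h * (Real.exp (-(V ^ 2 / (2 * s ^ 2))) / (15 * s))) := by field_simp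
      _ ≤ _ := by gcongr
  · have h1 : ∫ x in Ioc V (V + h), p s x
        ≤ ∫ _x in Ioc V (V + h), 5 * Real.exp (-(V ^ 2 / (2 * s ^ 2))) / s :=
      setIntegral_mono_on (p_int s _) (const_int _ _ _) measurableSet_Ioc
        fun x hx => p_up hs h0 hhs hV hx
    rw [int_const V _ h0] at h1
    refine h1.trans (le_of_eq ?_)
    ring

lemma ratio {s s' V h x : ℝ} (hs : 1 ≤ s) (hs' : 1 ≤ s') (h0 : 0 ≤ h) (hhs : h ≤ s)
    (hV : h * |V| ≤ s ^ 2) (hD : |s ^ 2 - s' ^ 2| ≤ s ^ 2 / 2)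
    (hDV : |s ^ 2 - s' ^ 2| * V ^ 2 ≤ s ^ 4) (hx : x ∈ Ioc V (V + h)) :
    |p s' x - p s x| ≤ 60 * (|s ^ 2 - s' ^ 2| * (1 + V ^ 2 / s ^ 2) / s ^ 2) * p s x := by
  have hs0 : 0 < s := by linarith
  have hs0' : 0 < s' := by linarith
  set D : ℝ := |s ^ 2 - s' ^ 2| with hDdef
  have hD0 : 0 ≤ D := abs_nonneg _
  have h1 := sq_near h0 hhs hV hx
  have hx2 : x ^ 2 ≤ V ^ 2 + 3 * s ^ 2 := by linarith [(abs_le.1 h1).2]
  have hp0 : 0 < p s x := by
    rw [p_eq hs0]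
    have := one_le_sqrt_two_pi
    positivity
  set u : ℝ := x ^ 2 * (s' ^ 2 - s ^ 2) / (2 * s ^ 2 * s' ^ 2) with hu
  have hratio : p s' x = s / s' * Real.exp u * p s x := by
    rw [p_eq hs0, p_eq hs0']
    have h2 : Real.exp (-(x ^ 2 / (2 * s' ^ 2))) = Real.exp u * Real.exp (-(x ^ 2 / (2 * s ^ 2))) := by
      rw [← Real.exp_add]
      congr 1
      rw [hu]
      field_simp
      ring
    rw [h2]
    have := one_le_sqrt_two_pi
    have h3 : Real.sqrt (2 * Real.pi) ≠ 0 := by positivity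
    field_simp
  have hs'2 : s ^ 2 ≤ 2 * s' ^ 2 := by
    have := (abs_le.1 hD).2
    linarith
  have hss : s ≤ 3 / 2 * s' := by
    have h4 : s ^ 2 ≤ (3 / 2 * s') ^ 2 := by nlinarith [sq_nonneg s']
    exact le_of_sq_le_sq h4 (by positivity)
  have hss2 : s / s' ≤ 3 / 2 := by rw [div_le_iff₀ hs0']; exact hss
  have hss0 : 0 < s / s' := by positivity
  set e : ℝ := D * (1 + V ^ 2 / s ^ 2) / s ^ 2 with he
  have he0 : 0 ≤ e := by positivity
  -- the size of `u`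
  have hu1 : |u| ≤ D / s ^ 2 * (V ^ 2 / s ^ 2 + 3) := by
    rw [hu, abs_div, abs_mul, abs_of_nonneg (sq_nonneg x),
      abs_of_pos (show 0 < 2 * s ^ 2 * s' ^ 2 by positivity), abs_sub_comm, ← hDdef]
    have h5 : s ^ 2 * s ^ 2 ≤ 2 * s ^ 2 * s' ^ 2 := by nlinarith [sq_nonneg s]
    calc x ^ 2 * D / (2 * s ^ 2 * s' ^ 2) ≤ (V ^ 2 + 3 * s ^ 2) * D / (s ^ 2 * s ^ 2) := by gcongr
      _ = _ := by field_simp
  have hu2 : |u| ≤ 3 * e := by
    refine hu1.trans ?_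
    rw [he]
    have h6 : 0 ≤ V ^ 2 / s ^ 2 := by positivity
    calc D / s ^ 2 * (V ^ 2 / s ^ 2 + 3) ≤ D / s ^ 2 * (3 * (1 + V ^ 2 / s ^ 2)) := by
          gcongr; linarith
      _ = _ := by ring
  have hu3 : |u| ≤ 5 / 2 := by
    refine hu1.trans ?_
    have h7 : D / s ^ 2 * (V ^ 2 / s ^ 2 + 3) = D * V ^ 2 / s ^ 4 + 3 * (D / s ^ 2) := by
      field_simp
    have h8 : D * V ^ 2 / s ^ 4 ≤ 1 := by
      rw [div_le_one (by positivity)]; exact hDV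
    have h9 : D / s ^ 2 ≤ 1 / 2 := by
      rw [div_le_iff₀ (by positivity)]; linarith
    linarith
  have hexp : |Real.exp u - 1| ≤ 39 * e := by
    calc |Real.exp u - 1| ≤ |u| * Real.exp |u| := abs_exp_sub_one u
      _ ≤ (3 * e) * 13 := by
          gcongr
          exact (Real.exp_le_exp.2 hu3).trans exp_five_half_le
      _ = 39 * e := by ring
  have hsd : |s / s' - 1| ≤ 3 / 2 * e := by
    have h10 : s / s' - 1 = (s ^ 2 - s' ^ 2) / (s' * (s + s')) := by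
      field_simp
      ring
    rw [h10, abs_div, abs_of_pos (show 0 < s' * (s + s') by positivity), ← hDdef]
    have h11 : s ^ 2 ≤ 3 / 2 * (s' * (s + s')) := by nlinarith
    have h12 : D ≤ D * (1 + V ^ 2 / s ^ 2) := by
      have : 0 ≤ V ^ 2 / s ^ 2 := by positivity
      nlinarith
    rw [he, div_le_iff₀ (by positivity)]
    calc D ≤ D * (1 + V ^ 2 / s ^ 2) := h12
      _ = D * (1 + V ^ 2 / s ^ 2) / s ^ 2 * s ^ 2 := by field_simp
      _ ≤ D * (1 + V ^ 2 / s ^ 2) / s ^ 2 * (3 / 2 * (s' * (s + s'))) := by gcongr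
      _ = _ := by ring
  have hfin : |s / s' * Real.exp u - 1| ≤ 60 * e := by
    have h13 : s / s' * Real.exp u - 1 = s / s' * (Real.exp u - 1) + (s / s' - 1) := by ring
    rw [h13]
    calc |s / s' * (Real.exp u - 1) + (s / s' - 1)|
        ≤ |s / s' * (Real.exp u - 1)| + |s / s' - 1| := abs_add_le _ _
      _ ≤ 3 / 2 * (39 * e) + 3 / 2 * e := by
          rw [abs_mul, abs_of_pos hss0]
          gcongr
      _ = 60 * e := by ring
  rw [hratio]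
  have h14 : s / s' * Real.exp u * p s x - p s x = (s / s' * Real.exp u - 1) * p s x := by ring
  rw [h14, abs_mul, abs_of_pos hp0]
  gcongr

lemma part_two {s s' V h : ℝ} (hs : 1 ≤ s) (hs' : 1 ≤ s') (h0 : 0 ≤ h) (hhs : h ≤ s)
    (hV : h * |V| ≤ s ^ 2) (hD : |s ^ 2 - s' ^ 2| ≤ s ^ 2 / 2)
    (hDV : |s ^ 2 - s' ^ 2| * V ^ 2 ≤ s ^ 4) :
    |gi s' V (V + h) - gi s V (V + h)|
      ≤ 60 * (|s ^ 2 - s' ^ 2| * (1 + V ^ 2 / s ^ 2) / s ^ 2) * gi s V (V + h) := by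
  have hs0 : 0 < s := by linarith
  have hs0' : 0 < s' := by linarith
  rw [gi_eq hs0, gi_eq hs0', ← integral_sub (p_int s' _) (p_int s _), ← integral_const_mul]
  refine (abs_integral_le_integral_abs).trans ?_
  refine setIntegral_mono_on ((p_int s' _).sub (p_int s _)).abs ((p_int s _).const_mul _)
    measurableSet_Ioc fun x hx => ?_
  exact ratio hs hs' h0 hhs hV hD hDV hx

end GI

open GI in
/-- E11: Gaussian intervals -/
theorem gaussInt : GaussInt := by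
  refine ⟨60, by norm_num, ?_, ?_⟩
  · intro s V h hs h0 hhs hV
    have h1 := part_one hs h0 hhs hV
    have h2 : 0 ≤ gi s V (V + h) := ENNReal.toReal_nonneg
    have h3 : 0 ≤ h / s * Real.exp (-(V ^ 2 / (2 * s ^ 2))) := by positivity
    exact ⟨h1.1.trans (by linarith), h1.2.trans (by linarith)⟩
  · intro s s' V h hs hs' h0 hhs hV hD hDV
    exact part_two hs hs' h0 hhs hV hD hDV

end Pool.Agent.Lib.LC
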