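import Mathlib
import Pool.Agent.Lib.MP_f9aece_nt_loc.Stmts
import Pool.Agent.Lib.MP_f9aece_nt_gt.N2

/-!
Module E2: the prime sums of two levels.
-/

set_option autoImplicit false

namespace Pool.Agent.Lib.LC

open MeasureTheory Set Filter Topology Complex ProbabilityTheory
open scoped ComplexConjugate
open Pool.Agent.Lib.GT
open Pool.Agent.Lib.MP_f9aece_nt (VV)

namespace SL

theorem h_nonneg (A : Par) (p : ℕ) : 0 ≤ A.h p := by unfold Par.h; positivity

theorem h_le_half (A : Par) (hl : 0 ≤ A.lam) {p : ℕ} (hp : 1 ≤ p) :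
    A.h p ≤ (p : ℝ) ^ (-(1 / 2) : ℝ) := by
  unfold Par.h
  exact Real.rpow_le_rpow_of_exponent_le (by exact_mod_cast hp) (by linarith)

theorem half_eq {p : ℕ} : (p : ℝ) ^ (-(1 / 2) : ℝ) = 1 / Real.sqrt p := by
  rw [Real.rpow_neg (Nat.cast_nonneg p), ← Real.sqrt_eq_rpow, one_div]

theorem half_sq {p : ℕ} (hp : 1 ≤ p) : (p : ℝ) ^ (-(1 / 2) : ℝ) * (p : ℝ) ^ (-(1 / 2) : ℝ) = (p : ℝ)⁻¹ := by
  have hp0 : (0 : ℝ) < p := by exact_mod_cast hp
  rw [← Real.rpow_add hp0, ← Real.rpow_neg_one]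
  congr 1
  norm_num

theorem h_mono {A A' : Par} (hl : A.lam ≤ A'.lam) {p : ℕ} (hp : 1 ≤ p) : A'.h p ≤ A.h p := by
  unfold Par.h
  exact Real.rpow_le_rpow_of_exponent_le (by exact_mod_cast hp) (by linarith)

/-- the prime sum outside the groups of `s` as a linear form -/
theorem X_eq {A : Par} (hd : ∀ g h, g ≠ h → Disjoint (A.S g) (A.S h)) {s : Finset ℕ}
    (hs : s ⊆ Finset.range A.J) (x : Om) :
    A.X s x = (∑ p ∈ A.U \ s.biUnion A.S, (A.h p : ℂ) * e1 (x p)).re := by
  have hU : A.U \ s.biUnion A.S = (Finset.range A.J \ s).biUnion A.S := by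
    ext p
    simp only [Par.U, Finset.mem_sdiff, Finset.mem_biUnion, not_exists, not_and]
    constructor
    · rintro ⟨⟨g, hg, hp⟩, h2⟩
      exact ⟨g, ⟨hg, fun hgs => h2 g hgs hp⟩, hp⟩
    · rintro ⟨g, ⟨hg, hgs⟩, hp⟩
      refine ⟨⟨g, hg, hp⟩, ?_⟩
      intro g' hg' hp'
      have hne : g ≠ g' := by
        rintro rfl
        exact hgs hg'
      exact Finset.disjoint_left.1 (hd g g' hne) hp hp'
  rw [hU, Finset.sum_biUnion (fun g _ g' _ hne => hd g g' hne), Complex.re_sum]
  rfl

end SL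

/-- E2 -/
theorem specLin (hN : GT.GroupNum) : SpecLin := by
  obtain ⟨C, hC, hPS⟩ := primeSums
  refine ⟨2 * C + 60, 3, by linarith, by norm_num, ?_⟩
  intro A A' T N hA hA' hN3
  have hAok := hA.ok
  have hAok' := hA'.ok
  obtain ⟨hG1, -, hG3, hG4, -⟩ := hN A hAok
  obtain ⟨hG1', -, hG3', hG4', -⟩ := hN A' hAok'
  have hN0 : (0 : ℝ) < N := by linarith
  have hN1 : (1 : ℝ) ≤ N := by linarith
  -- logarithms
  have hL1 : 1 ≤ Real.log N := by
    rw [Real.le_log_iff_exp_le hN0]
    have := Real.exp_one_lt_three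
    linarith
  have hN' : Real.log (N ^ (3 / 2 : ℝ)) = 3 / 2 * Real.log N := Real.log_rpow hN0 _
  have hN'4 : (N ^ (3 / 2 : ℝ)) ^ 4 = N ^ 6 := by
    rw [← Real.rpow_natCast, ← Real.rpow_mul hN0.le, ← Real.rpow_natCast]
    norm_num
  have hv0 : (0 : ℝ) < A.v := by
    have : (4 : ℝ) ≤ A.v := by exact_mod_cast hAok.hv
    linarith
  have hv0' : (0 : ℝ) < A'.v := by
    have : (4 : ℝ) ≤ A'.v := by exact_mod_cast hAok'.hv
    linarith
  have hvv : (A.v : ℝ) ≤ A'.v := by
    have h1 := hA.hv2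
    have h2 := hA'.hv1
    rw [hN'] at h2
    linarith
  have hlogT : 1 ≤ Real.log T := by
    have h1 := hA.hN
    have h2 : (1 : ℝ) ≤ N ^ 12 := one_le_pow₀ hN1
    linarith
  have hYY : A'.Y ≤ A.Y := by
    rw [hA.hY, hA'.hY]
    apply div_le_div_of_nonneg_left (by linarith) (by positivity)
    gcongr
  have hYr : A.Y / A'.Y ≤ 2 := by
    have h1 := hA.hv1
    have h2 := hA'.hv2
    rw [hN'] at h2
    have h3 : A.Y / A'.Y = A'.v / A.v := by
      rw [hA.hY, hA'.hY]
      field_simp
    rw [h3, div_le_iff₀ hv0]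
    linarith
  have hpp : A.p0 ≤ A'.p0 := by
    have h1 := hA.hp2
    have h2 := hA'.hp1
    rw [hN'4] at h2
    have h3 : 2 * N ^ 4 ≤ N ^ 6 := by
      have h4 : (2 : ℝ) ≤ N ^ 2 := by nlinarith
      have h5 : (0 : ℝ) < N ^ 4 := by positivity
      nlinarith
    exact_mod_cast h1.trans (h3.trans h2)
  have hll : A.lam ≤ A'.lam := by
    rw [hA.hl, hA'.hl]
    apply div_le_div_of_nonneg_right _ (by linarith)
    apply Real.rpow_le_rpow hN0.le _ (by norm_num)
    calc N = N ^ (1 : ℝ) := (Real.rpow_one N).symm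
      _ ≤ N ^ (3 / 2 : ℝ) := Real.rpow_le_rpow_of_exponent_le hN1 (by norm_num)
  -- the sets of primes
  have hUU : A'.U ⊆ A.U := by
    intro p hp
    obtain ⟨h1, h2, h3⟩ := (hG4' p).1 hp
    exact (hG4 p).2 ⟨h1, lt_of_le_of_lt hpp h2, h3.trans (Real.exp_le_exp.2 hYY)⟩
  have hU1 : ∀ p ∈ A.U, 1 ≤ p := fun p hp => ((hG4 p).1 hp).1.one_le
  have hhh : ∀ p ∈ A.U, A'.h p ≤ A.h p := fun p hp => SL.h_mono hll (hU1 p hp)
  -- the main sum
  have hmain : ∑ p ∈ A.U, A.h p * (A.h p - (if p ∈ A'.U then A'.h p else 0))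
      ≤ (2 * C + 60) * Real.log N := by
    rw [← Finset.sum_sdiff hUU]
    -- the common primes
    have hcom : ∑ p ∈ A'.U, A.h p * (A.h p - (if p ∈ A'.U then A'.h p else 0))
        ≤ 51 * Real.log N + 2 * C := by
      obtain ⟨hp1, -, hp3, -⟩ := hPS A' hAok'
      have hp1 := hp1 0
      have hpt : ∀ p ∈ A'.U, A.h p * (A.h p - (if p ∈ A'.U then A'.h p else 0))
          ≤ ‖(p : ℂ) ^ (-(1 / 2 + I * (0 : ℝ)) : ℂ) - A'.h p‖ ^ 2
            + A'.h p * ((p : ℝ) ^ (-(1 / 2) : ℝ) - A'.h p) := by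
        intro p hp
        have h1 := hU1 p (hUU hp)
        rw [if_pos hp]
        have h2 := SL.h_le_half A hAok.hl h1
        have h3 := hhh p (hUU hp)
        have h4 := SL.h_nonneg A p
        have h5 := SL.h_nonneg A' p
        have h6 : (p : ℂ) ^ (-(1 / 2 + I * (0 : ℝ)) : ℂ) - A'.h p
            = (((p : ℝ) ^ (-(1 / 2) : ℝ) - A'.h p : ℝ) : ℂ) := by
          rw [Complex.ofReal_sub, Complex.ofReal_cpow (Nat.cast_nonneg p)]
          congr 2
          push_cast
          ring
        rw [h6, Complex.norm_real, Real.norm_eq_abs, sq_abs]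
        nlinarith
      calc ∑ p ∈ A'.U, A.h p * (A.h p - (if p ∈ A'.U then A'.h p else 0))
          ≤ ∑ p ∈ A'.U, (‖(p : ℂ) ^ (-(1 / 2 + I * (0 : ℝ)) : ℂ) - A'.h p‖ ^ 2
            + A'.h p * ((p : ℝ) ^ (-(1 / 2) : ℝ) - A'.h p)) := Finset.sum_le_sum hpt
        _ = ∑ p ∈ A'.U, ‖(p : ℂ) ^ (-(1 / 2 + I * (0 : ℝ)) : ℂ) - A'.h p‖ ^ 2
            + ∑ p ∈ A'.U, A'.h p * ((p : ℝ) ^ (-(1 / 2) : ℝ) - A'.h p) := Finset.sum_add_distrib
        _ ≤ (17 / 4 * Real.log (1 + A'.Y * |(0 : ℝ)|) + 17 * Real.log (1 + A'.lam * A'.Y) + C) + C :=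
            add_le_add hp1 hp3
        _ ≤ 51 * Real.log N + 2 * C := by
            rw [abs_zero, mul_zero, add_zero, Real.log_one]
            have h1 : A'.lam * A'.Y ≤ N ^ (3 / 4 : ℝ) := by
              rw [hA'.hl, hA'.hY]
              have h2 : (N ^ (3 / 2 : ℝ)) ^ (1 / 2 : ℝ) = N ^ (3 / 4 : ℝ) := by
                rw [← Real.rpow_mul hN0.le]; norm_num
              rw [h2]
              have h3 : N ^ (3 / 4 : ℝ) / Real.log T * (Real.log T / (10 ^ 11 * A'.v))
                  = N ^ (3 / 4 : ℝ) / (10 ^ 11 * A'.v) := by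
                field_simp
              rw [h3]
              apply div_le_self (by positivity)
              have : (4 : ℝ) ≤ A'.v := by exact_mod_cast hAok'.hv
              nlinarith
            have h2 : N ^ (3 / 4 : ℝ) ≤ N := by
              calc N ^ (3 / 4 : ℝ) ≤ N ^ (1 : ℝ) :=
                    Real.rpow_le_rpow_of_exponent_le hN1 (by norm_num)
                _ = N := Real.rpow_one N
            have h3 : 1 + A'.lam * A'.Y ≤ N ^ 3 := by
              have : N + 1 ≤ N ^ 3 := by nlinarith [mul_pos hN0 hN0]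
              linarith
            have h4 : 0 ≤ A'.lam * A'.Y := mul_nonneg hAok'.hl (by linarith [hAok'.hY])
            have h5 : Real.log (1 + A'.lam * A'.Y) ≤ 3 * Real.log N := by
              calc Real.log (1 + A'.lam * A'.Y) ≤ Real.log (N ^ 3) :=
                    Real.log_le_log (by linarith) h3
                _ = 3 * Real.log N := by rw [Real.log_pow]; norm_num
            linarith
    -- the other primes
    have hoth : ∑ p ∈ A.U \ A'.U, A.h p * (A.h p - (if p ∈ A'.U then A'.h p else 0)) ≤ 9 := by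
      have hpt : ∀ p ∈ A.U \ A'.U, A.h p * (A.h p - (if p ∈ A'.U then A'.h p else 0)) ≤ (p : ℝ)⁻¹ := by
        intro p hp
        rw [Finset.mem_sdiff] at hp
        rw [if_neg hp.2, sub_zero]
        have h1 := hU1 p hp.1
        rw [← SL.half_sq h1]
        have h2 := SL.h_le_half A hAok.hl h1
        exact mul_le_mul h2 h2 (SL.h_nonneg A p) ((SL.h_nonneg A p).trans h2)
      have hlp0 : 4 * Real.log N ≤ Real.log A.p0 := by
        have h1 : N ^ 4 ≤ (A.p0 : ℝ) := hA.hp1
        calc 4 * Real.log N = Real.log (N ^ 4) := by rw [Real.log_pow]; norm_num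
          _ ≤ Real.log A.p0 := Real.log_le_log (by positivity) h1
      have hlp0' : Real.log A'.p0 ≤ 8 * Real.log N := by
        have h1 := hA'.hp2
        rw [hN'4] at h1
        have h2 : (0 : ℝ) < A'.p0 := by
          have : 1000 ≤ A'.p0 := hAok'.hp
          exact_mod_cast (by omega : 0 < A'.p0)
        have h3 : (A'.p0 : ℝ) ≤ N ^ 8 := by
          have h4 : (2 : ℝ) ≤ N ^ 2 := by nlinarith
          have h5 : (0 : ℝ) < N ^ 6 := by positivity
          have h6 : N ^ 8 = N ^ 2 * N ^ 6 := by ring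
          rw [h6]
          nlinarith
        calc Real.log A'.p0 ≤ Real.log (N ^ 8) := Real.log_le_log h2 h3
          _ = 8 * Real.log N := by rw [Real.log_pow]; norm_num
      have hlog4 : Real.log 4 ≤ 2 := by
        have h1 : Real.log 4 = 2 * Real.log 2 := by
          rw [show (4 : ℝ) = 2 ^ 2 by norm_num, Real.log_pow]
          norm_num
        have := Real.log_two_lt_d9
        rw [h1]
        linarith
      have hlog2 : Real.log 2 ≤ 1 := by
        have := Real.log_two_lt_d9
        linarith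
      have hlogp : ∀ p ∈ A.U, Real.log A.p0 < Real.log p ∧ Real.log p ≤ A.Y := by
        intro p hp
        obtain ⟨h1, h2, h3⟩ := (hG4 p).1 hp
        have hp0 : (0 : ℝ) < p := by exact_mod_cast h1.pos
        have h4 : (0 : ℝ) < A.p0 := by
          have : 1000 ≤ A.p0 := hAok.hp
          exact_mod_cast (by omega : 0 < A.p0)
        refine ⟨Real.log_lt_log h4 (by exact_mod_cast h2), ?_⟩
        rw [Real.log_le_iff_le_exp hp0]
        exact h3
      have hs1 : VV ((A.U \ A'.U).filter (fun p => p ≤ A'.p0)) ≤ 3 := by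
        have h1 := MP_f9aece_nt_h6.VV_le_log (y := Real.log A.p0) (Y := Real.log A'.p0)
          (by linarith) (Real.log_le_log (by
            have : 1000 ≤ A.p0 := hAok.hp
            exact_mod_cast (by omega : 0 < A.p0)) (by exact_mod_cast hpp))
          ((A.U \ A'.U).filter (fun p => p ≤ A'.p0)) (by
            intro p hp
            rw [Finset.mem_filter, Finset.mem_sdiff] at hp
            obtain ⟨⟨h1, -⟩, h2⟩ := hp
            refine ⟨((hG4 p).1 h1).1, (hlogp p h1).1, ?_⟩
            apply Real.log_le_log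
            · exact_mod_cast ((hG4 p).1 h1).1.pos
            · exact_mod_cast h2)
        have h2 : Real.log A'.p0 / Real.log A.p0 ≤ 2 := by
          rw [div_le_iff₀ (by linarith)]
          linarith
        have h3 : 0 < Real.log A'.p0 / Real.log A.p0 := by
          have : Real.log A.p0 ≤ Real.log A'.p0 := Real.log_le_log (by
            have : 1000 ≤ A.p0 := hAok.hp
            exact_mod_cast (by omega : 0 < A.p0)) (by exact_mod_cast hpp)
          apply div_pos <;> linarith
        have h4 : Real.log (Real.log A'.p0 / Real.log A.p0) ≤ Real.log 2 := Real.log_le_log h3 h2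
        have h5 : Real.log 4 / Real.log A.p0 ≤ 1 / 2 := by
          rw [div_le_iff₀ (by linarith)]
          linarith
        have h6 := Real.log_two_lt_d9
        linarith
      have hs2 : VV ((A.U \ A'.U).filter (fun p => ¬ p ≤ A'.p0)) ≤ 4 := by
        have hY1 : 1 ≤ A'.Y := hAok'.hY
        have h1 := MP_f9aece_nt_h6.VV_le_log (y := A'.Y) (Y := A.Y)
          (by linarith) hYY
          ((A.U \ A'.U).filter (fun p => ¬ p ≤ A'.p0)) (by
            intro p hp
            rw [Finset.mem_filter, Finset.mem_sdiff] at hp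
            obtain ⟨⟨h1, h3⟩, h2⟩ := hp
            have hpr := ((hG4 p).1 h1).1
            refine ⟨hpr, ?_, (hlogp p h1).2⟩
            by_contra h4
            apply h3
            refine (hG4' p).2 ⟨hpr, not_le.1 h2, ?_⟩
            have hp0 : (0 : ℝ) < p := by exact_mod_cast hpr.pos
            rw [← Real.log_le_iff_le_exp hp0]
            exact not_lt.1 h4)
        have h4 : Real.log (A.Y / A'.Y) ≤ Real.log 2 := Real.log_le_log
          (div_pos (by linarith) (by linarith)) hYr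
        have h5 : Real.log 4 / A'.Y ≤ 2 := by
          rw [div_le_iff₀ (by linarith)]
          linarith
        linarith
      calc ∑ p ∈ A.U \ A'.U, A.h p * (A.h p - (if p ∈ A'.U then A'.h p else 0))
          ≤ ∑ p ∈ A.U \ A'.U, (p : ℝ)⁻¹ := Finset.sum_le_sum hpt
        _ = VV ((A.U \ A'.U).filter (fun p => p ≤ A'.p0))
            + VV ((A.U \ A'.U).filter (fun p => ¬ p ≤ A'.p0)) := by
            unfold MP_f9aece_nt.VV
            rw [Finset.sum_filter_add_sum_filter_not]
        _ ≤ 9 := by linarith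
    have h60 : 51 * Real.log N + 2 * C + 9 ≤ (2 * C + 60) * Real.log N := by
      have : 2 * C ≤ 2 * C * Real.log N := le_mul_of_one_le_right (by linarith) hL1
      linarith
    linarith
  refine ⟨?_, ?_⟩
  · -- the variances
    unfold Par.vt
    calc ∑ p ∈ A'.U, A'.h p ^ 2 ≤ ∑ p ∈ A'.U, A.h p ^ 2 :=
          Finset.sum_le_sum fun p hp => pow_le_pow_left₀ (SL.h_nonneg A' p) (hhh p (hUU hp)) 2
      _ ≤ ∑ p ∈ A.U, A.h p ^ 2 :=
          Finset.sum_le_sum_of_subset_of_nonneg hUU fun p _ _ => sq_nonneg _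
  intro s hs
  set c : ℕ → ℂ := fun p => if p ∈ A.U then
    ((if p ∈ A'.U then (A'.h p : ℂ) else 0) - (if p ∈ s.biUnion A.S then 0 else (A.h p : ℂ))) else 0
    with hc
  have hnorm1 : ∀ (B : Par), 0 ≤ B.lam → ∀ p : ℕ, 1 ≤ p → ‖(B.h p : ℂ)‖ ≤ 1 / Real.sqrt p := by
    intro B hB p hp
    rw [Complex.norm_real, Real.norm_of_nonneg (SL.h_nonneg B p), ← SL.half_eq]
    exact SL.h_le_half B hB hp
  have hcn : ∀ p ∈ A.U \ s.biUnion A.S, ‖c p‖ = A.h p - (if p ∈ A'.U then A'.h p else 0) := by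
    intro p hp
    rw [Finset.mem_sdiff] at hp
    have h1 : c p = -((A.h p - (if p ∈ A'.U then A'.h p else 0) : ℝ) : ℂ) := by
      simp only [hc]
      rw [if_pos hp.1, if_neg hp.2]
      split_ifs <;> push_cast <;> ring
    rw [h1, norm_neg, Complex.norm_real, Real.norm_of_nonneg]
    split_ifs with h2
    · have := hhh p hp.1
      linarith
    · rw [sub_zero]
      exact SL.h_nonneg A p
  have hcle : ∀ p ∈ A.U \ s.biUnion A.S, ‖c p‖ ≤ A.h p := by
    intro p hp
    rw [hcn p hp]
    split_ifs with h2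
    · have := SL.h_nonneg A' p
      linarith
    · linarith
  have hsum1 : ∑ p ∈ A.U \ s.biUnion A.S, A.h p * ‖c p‖ ≤ (2 * C + 60) * Real.log N := by
    refine le_trans ?_ hmain
    calc ∑ p ∈ A.U \ s.biUnion A.S, A.h p * ‖c p‖
        = ∑ p ∈ A.U \ s.biUnion A.S, A.h p * (A.h p - (if p ∈ A'.U then A'.h p else 0)) :=
          Finset.sum_congr rfl fun p hp => by rw [hcn p hp]
      _ ≤ ∑ p ∈ A.U, A.h p * (A.h p - (if p ∈ A'.U then A'.h p else 0)) := by
          apply Finset.sum_le_sum_of_subset_of_nonneg Finset.sdiff_subset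
          intro p hp _
          apply mul_nonneg (SL.h_nonneg A p)
          split_ifs with h2
          · have := hhh p hp
            linarith
          · rw [sub_zero]
            exact SL.h_nonneg A p
  refine ⟨c, ?_, ?_, hsum1, ?_⟩
  · -- the size
    intro p
    simp only [hc]
    by_cases hp : p ∈ A.U
    · rw [if_pos hp]
      have hp1 := hU1 p hp
      have hsq : 0 ≤ 1 / Real.sqrt p := by positivity
      have h1 : ‖(if p ∈ A'.U then (A'.h p : ℂ) else 0)‖ ≤ 1 / Real.sqrt p := by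
        split_ifs
        · exact hnorm1 A' hAok'.hl p hp1
        · rw [norm_zero]; exact hsq
      have h2 : ‖(if p ∈ s.biUnion A.S then 0 else (A.h p : ℂ))‖ ≤ 1 / Real.sqrt p := by
        split_ifs
        · rw [norm_zero]; exact hsq
        · exact hnorm1 A hAok.hl p hp1
      calc ‖(if p ∈ A'.U then (A'.h p : ℂ) else 0) - (if p ∈ s.biUnion A.S then 0 else (A.h p : ℂ))‖
          ≤ _ := norm_sub_le _ _
        _ ≤ 1 / Real.sqrt p + 1 / Real.sqrt p := add_le_add h1 h2
        _ = 2 / Real.sqrt p := by ring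
    · rw [if_neg hp, norm_zero]
      positivity
  · -- the linear form
    intro x
    rw [SL.X_eq hG3' (Finset.empty_subset _) x, SL.X_eq hG3 hs x, ← Complex.sub_re]
    congr 1
    unfold lin
    have h1 : ∀ p ∈ A.U, c p * e1 (x p) = (if p ∈ A'.U then (A'.h p : ℂ) * e1 (x p) else 0)
        - (if p ∈ A.U \ s.biUnion A.S then (A.h p : ℂ) * e1 (x p) else 0) := by
      intro p hp
      simp only [hc, Finset.mem_sdiff]
      rw [if_pos hp]
      by_cases h2 : p ∈ A'.U <;> by_cases h3 : p ∈ s.biUnion A.S <;> simp [h2, h3, hp]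
      all_goals ring
    rw [Finset.sum_congr rfl h1, Finset.sum_sub_distrib, Finset.sum_ite_mem, Finset.sum_ite_mem]
    have h2 : A.U ∩ A'.U = A'.U := Finset.inter_eq_right.2 hUU
    have h3 : A.U ∩ (A.U \ s.biUnion A.S) = A.U \ s.biUnion A.S :=
      Finset.inter_eq_right.2 Finset.sdiff_subset
    rw [h2, h3]
    simp
  · -- the second moment
    have h1 : ∑ p ∈ A.U \ s.biUnion A.S, ‖c p‖ ^ 2 ≤ (2 * C + 60) * Real.log N := by
      refine le_trans (Finset.sum_le_sum fun p hp => ?_) hsum1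
      rw [sq]
      exact mul_le_mul_of_nonneg_right (hcle p hp) (norm_nonneg _)
    have h2 : 1 ≤ (2 * C + 60) * Real.log N := by nlinarith
    nlinarith

end Pool.Agent.Lib.LC
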