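import Mathlib
import Pool.Agent.Lib.MP_f9aece_nt_loc.Stmts

/-!
The law of `log |zeta|` at bounded scale: module E4, heights with bad groups.
-/

set_option autoImplicit false

namespace Pool.Agent.Lib.LC

open MeasureTheory Set Filter Topology Complex ProbabilityTheory
open scoped ComplexConjugate
open Pool.Agent.Lib.GT

namespace E4

lemma G_eq (A : Par) (V y : ℝ) : A.G y = A.G V * Real.exp (A.be * (V - y)) := by
  unfold Par.G
  rw [mul_assoc, ← Real.exp_add]
  congr 2
  ring

lemma G_nonneg (A : Par) (y : ℝ) : 0 ≤ A.G y := by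
  unfold Par.G
  positivity

lemma measurable_G (A : Par) : Measurable A.G := by
  unfold Par.G
  fun_prop

lemma cont_lin (S : Finset ℕ) (c : ℕ → ℂ) : Continuous fun t : ℝ => lin S c (om t) := by
  have h : Continuous fun x : Om => lin S c x := by
    unfold lin
    fun_prop
  exact h.comp continuous_om

lemma cont_X (A : Par) (s : Finset ℕ) : Continuous fun t : ℝ => A.X s (om t) := by
  unfold Par.X
  exact continuous_finsetSum _ fun g _ => Complex.continuous_re.comp (cont_lin _ _)

/-- the sum over the sets of groups -/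
lemma sum_sets (J : ℕ) (a : ℕ → ℝ) (ε : ℝ) (hε : 0 ≤ ε) (hε1 : ε ≤ 1)
    (h : ∑ g ∈ Finset.range J, Real.exp (-a g) ≤ 2 * ε) :
    ∑ s ∈ (Finset.range J).powerset.erase ∅, Real.exp (-∑ g ∈ s, a g) ≤ 16 * ε ∧
      ∑ s ∈ (Finset.range J).powerset, Real.exp (-∑ g ∈ s, a g) ≤ 17 := by
  have h1 : ∑ s ∈ (Finset.range J).powerset, Real.exp (-∑ g ∈ s, a g)
      = ∏ g ∈ Finset.range J, (1 + Real.exp (-a g)) := by
    rw [Finset.prod_one_add]
    refine Finset.sum_congr rfl fun s _ => ?_
    rw [← Real.exp_sum, Finset.sum_neg_distrib]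
  have h2 : ∏ g ∈ Finset.range J, (1 + Real.exp (-a g)) ≤ Real.exp (2 * ε) := by
    calc ∏ g ∈ Finset.range J, (1 + Real.exp (-a g))
        ≤ ∏ g ∈ Finset.range J, Real.exp (Real.exp (-a g)) := by
          refine Finset.prod_le_prod (fun g _ => by positivity) fun g _ => ?_
          have := Real.add_one_le_exp (Real.exp (-a g))
          linarith
      _ = Real.exp (∑ g ∈ Finset.range J, Real.exp (-a g)) := (Real.exp_sum _ _).symm
      _ ≤ Real.exp (2 * ε) := Real.exp_le_exp.2 h
  have h3 : Real.exp (2 * ε) ≤ 1 + 16 * ε := by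
    have hc := convexOn_exp.2 (Set.mem_univ (0 : ℝ)) (Set.mem_univ (2 : ℝ))
      (show (0 : ℝ) ≤ 1 - ε by linarith) hε (by ring)
    simp only [smul_eq_mul, mul_zero, zero_add, Real.exp_zero, mul_one] at hc
    have he : Real.exp 2 ≤ 9 := by
      have h4 := Real.exp_one_lt_d9
      have h5 : Real.exp 2 = Real.exp 1 * Real.exp 1 := by rw [← Real.exp_add]; norm_num
      rw [h5]
      nlinarith [Real.exp_pos 1]
    have : ε * 2 = 2 * ε := by ring
    rw [this] at hc
    nlinarith
  have h4 : (∅ : Finset ℕ) ∈ (Finset.range J).powerset := Finset.empty_mem_powerset _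
  have h5 := Finset.add_sum_erase _ (fun s : Finset ℕ => Real.exp (-∑ g ∈ s, a g)) h4
  simp only [Finset.sum_empty, neg_zero, Real.exp_zero] at h5
  constructor <;> linarith

/-- the polynomials of a level are short -/
lemma len_of_spec {A : Par} {T N : ℝ} (h : Spec A T N) (hT : 1 ≤ T) : Len A T := by
  have h1 : 0 ≤ Real.log T := Real.log_nonneg hT
  have h2 : (0 : ℝ) < A.v := by
    have := h.ok.hv
    exact_mod_cast (by omega : 0 < A.v)
  unfold Len
  rw [h.hY]
  have : (10 : ℝ) ^ 10 * A.v * (Real.log T / (10 ^ 11 * A.v)) = Real.log T / 10 := by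
    field_simp
  rw [this]
  linarith

/-- the mass of an interval under the size of the windows -/
lemma lint_G (A : Par) (hbe : 0 ≤ A.be) {a b : ℝ} (hab : a ≤ b) :
    ∫⁻ y in Icc a b, ENNReal.ofReal (A.G y) ≤ ENNReal.ofReal ((b - a) * A.G a) := by
  have h1 : ∀ y ∈ Icc a b, ENNReal.ofReal (A.G y) ≤ ENNReal.ofReal (A.G a) := by
    intro y hy
    refine ENNReal.ofReal_le_ofReal ?_
    rw [G_eq A a y]
    have : Real.exp (A.be * (a - y)) ≤ 1 := by
      rw [Real.exp_le_one_iff]
      nlinarith [hy.1]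
    nlinarith [G_nonneg A a]
  refine (setLIntegral_mono' measurableSet_Icc h1).trans ?_
  rw [setLIntegral_const, Real.volume_Icc, mul_comm, ← ENNReal.ofReal_mul (by linarith)]

end E4

open E4

/-- E4 -/
theorem stepBad (hW : TiltW) (hM : GT.WMean) (hG : GT.GroupNum) : StepBad := by
  classical
  obtain ⟨C, C1, v0, hC, hC1, HW⟩ := hW
  obtain ⟨C3, T3, hC3, hT3, HM⟩ := hM
  refine ⟨16 * (C * C3) * ((10 + 2 * C1) * Real.exp C1), Real.exp v0 + 1, T3, ?_, ?_, hT3, ?_⟩
  · have h1 : 1 ≤ Real.exp C1 := Real.one_le_exp (by linarith)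
    have h2 : 1 ≤ C * C3 := by nlinarith
    have h3 : 1 ≤ (10 + 2 * C1) * Real.exp C1 := by nlinarith
    nlinarith
  · linarith [Real.exp_pos (v0 : ℝ)]
  intro A T N hS hN hT x V B hVB
  have hA := hS.ok
  have hT0 : 0 < T := by linarith
  have hN1 : 1 ≤ N := by linarith [Real.exp_pos (v0 : ℝ)]
  have hN0 : 0 < N := by linarith
  have hlN : 0 ≤ Real.log N := Real.log_nonneg hN1
  have hv : v0 ≤ A.v := by
    have h1 : (v0 : ℝ) ≤ Real.log N := by
      rw [Real.le_log_iff_exp_le hN0]
      linarith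
    have h2 : (v0 : ℝ) ≤ A.v := by linarith [hS.hv1]
    exact_mod_cast h2
  have hL : Len A T := len_of_spec hS (by linarith)
  have hbe := hA.hbe
  have hbe1 := hS.hbe
  set μ := un x T with hμ
  have : IsProbabilityMeasure μ := prob_un x hT0
  set P := (Finset.range A.J).powerset with hP
  set w : Finset ℕ → ℝ := fun s => Real.exp (-∑ g ∈ s, (A.r g : ℝ)) with hw
  set a : ℝ := V - 10 * Real.log N with ha
  set E : Finset ℕ → Set ℝ := fun s => {t | A.Good s (om t) ∧ A.Bad s (om t) ∧ a < A.X s (om t) ∧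
    A.X s (om t) ≤ B} with hE
  have haB : a ≤ B := by rw [ha]; linarith
  have bE : ∀ s ∈ P, μ (E s) ≤
      ENNReal.ofReal (C * (C3 * w s) * ((B + C1 - (a - C1)) * A.G (a - C1))) := by
    intro s hs
    rw [hP, Finset.mem_powerset] at hs
    have key := HW A hA hv hS.hb s hs μ inferInstance (C3 * w s) (by positivity) (fun _ => 1)
      measurable_const (fun y => by
        simp only [mul_one]
        exact HM A hA T hT hL x y s hs) ((Ioc a B).indicator fun _ => 1)
      ((Icc (a - C1) (B + C1)).indicator fun _ => 1) (measurable_const.indicator measurableSet_Ioc)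
      (measurable_const.indicator measurableSet_Icc) (fun u y huy => by
        by_cases hu : u ∈ Ioc a B
        · have h1 := abs_le.1 huy
          rw [Set.indicator_of_mem hu, Set.indicator_of_mem
            (show y ∈ Icc (a - C1) (B + C1) from ⟨by linarith [hu.1], by linarith [hu.2]⟩)]
        · rw [Set.indicator_of_notMem hu]
          exact bot_le)
    refine le_trans ?_ (key.trans ?_)
    · have e1 : E s ⊆ {t | A.Good s (om t) ∧ A.Bad s (om t)} := fun t ht => ⟨ht.1, ht.2.1⟩
      rw [← Measure.restrict_eq_self (μ := μ) e1]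
      refine meas_le_lintegral₀ ?_ ?_
      · refine Measurable.aemeasurable ?_
        simp only [mul_one]
        exact (measurable_const.indicator measurableSet_Ioc).comp (cont_X A s).measurable
      · rintro t ⟨-, -, ht⟩
        rw [Set.indicator_of_mem (show A.X s (om t) ∈ Ioc a B from ht), mul_one]
    · rw [ENNReal.ofReal_mul (by positivity : (0 : ℝ) ≤ C * (C3 * w s))]
      refine mul_le_mul_right ?_ _
      have e2 : ∀ y : ℝ, (Icc (a - C1) (B + C1)).indicator (fun _ => (1 : ENNReal)) y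
          * ENNReal.ofReal (A.G y)
          = (Icc (a - C1) (B + C1)).indicator (fun y => ENNReal.ofReal (A.G y)) y := by
        intro y
        by_cases hy : y ∈ Icc (a - C1) (B + C1)
        · rw [Set.indicator_of_mem hy, Set.indicator_of_mem hy, one_mul]
        · rw [Set.indicator_of_notMem hy, Set.indicator_of_notMem hy, zero_mul]
      simp_rw [e2]
      rw [lintegral_indicator measurableSet_Icc]
      exact lint_G A hbe.le (by linarith)
  -- the covering
  have cov : {t : ℝ | ∃ s ⊆ Finset.range A.J, s.Nonempty ∧ A.Good s (om t) ∧ A.Bad s (om t) ∧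
      V - 10 * Real.log N < A.X s (om t) ∧ A.X s (om t) ≤ B} ⊆ ⋃ s ∈ P.erase ∅, E s := by
    rintro t ⟨s, hs, hne, h1, h2, h3, h4⟩
    refine mem_iUnion₂.2 ⟨s, ?_, h1, h2, h3, h4⟩
    rw [Finset.mem_erase, hP, Finset.mem_powerset]
    exact ⟨hne.ne_empty, hs⟩
  refine (measure_mono cov).trans ((measure_biUnion_finset_le _ _).trans ?_)
  refine (Finset.sum_le_sum fun s hs => bE s (Finset.mem_of_mem_erase hs)).trans ?_
  have hG0 : 0 ≤ A.G (a - C1) := G_nonneg A _
  have hlen : 0 ≤ B + C1 - (a - C1) := by linarith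
  rw [← ENNReal.ofReal_sum_of_nonneg fun s _ => by positivity]
  refine ENNReal.ofReal_le_ofReal ?_
  have e3 : ∑ s ∈ P.erase ∅, C * (C3 * w s) * ((B + C1 - (a - C1)) * A.G (a - C1))
      = C * C3 * ((B + C1 - (a - C1)) * A.G (a - C1)) * ∑ s ∈ P.erase ∅, w s := by
    rw [Finset.mul_sum]
    refine Finset.sum_congr rfl fun s _ => ?_
    ring
  rw [e3]
  have hev : Real.exp (-(A.v : ℝ)) ≤ N ^ (-5 : ℝ) := by
    rw [Real.rpow_def_of_pos hN0]
    refine Real.exp_le_exp.2 ?_
    have := hS.hv1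
    linarith
  have hsum := (sum_sets A.J (fun g => (A.r g : ℝ)) (Real.exp (-(A.v : ℝ))) (Real.exp_nonneg _)
    (Real.exp_le_one_iff.2 (by have : (0 : ℝ) ≤ A.v := Nat.cast_nonneg _; linarith))
    (hG A hA).2.2.2.2.2.1).1
  have hsum' : ∑ s ∈ P.erase ∅, w s ≤ 16 * N ^ (-5 : ℝ) := hsum.trans (by linarith)
  -- the density
  have hGa : A.G (a - C1) ≤ A.G V * (N * Real.exp C1) := by
    rw [G_eq A V]
    refine mul_le_mul_of_nonneg_left ?_ (G_nonneg A V)
    have e4 : N * Real.exp C1 = Real.exp (Real.log N + C1) := by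
      rw [Real.exp_add, Real.exp_log hN0]
    rw [e4]
    refine Real.exp_le_exp.2 ?_
    rw [ha]
    have h5 : A.be * (V - (V - 10 * Real.log N - C1)) = A.be * (10 * Real.log N + C1) := by ring
    rw [h5]
    nlinarith
  have hNN : N ^ (-5 : ℝ) * N = 1 / N ^ 4 := by
    have h6 : N ^ (-5 : ℝ) = (N ^ 5)⁻¹ := by
      rw [Real.rpow_neg hN0.le]
      congr 1
      exact_mod_cast Real.rpow_natCast N 5
    rw [h6]
    field_simp
  have hlen2 : B + C1 - (a - C1) ≤ (10 + 2 * C1) * (B - V + N) := by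
    rw [ha]
    have h7 : Real.log N ≤ N := (Real.log_le_sub_one_of_pos hN0).trans (by linarith)
    nlinarith
  have hGV := G_nonneg A V
  have hCC : 0 ≤ C * C3 := by positivity
  have hBV : 0 ≤ B - V + N := by linarith
  have hsum0 : 0 ≤ ∑ s ∈ P.erase ∅, w s := Finset.sum_nonneg fun s _ => Real.exp_nonneg _
  calc C * C3 * ((B + C1 - (a - C1)) * A.G (a - C1)) * ∑ s ∈ P.erase ∅, w s
      ≤ C * C3 * (((10 + 2 * C1) * (B - V + N)) * (A.G V * (N * Real.exp C1)))
        * (16 * N ^ (-5 : ℝ)) := by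
        gcongr
    _ = 16 * (C * C3) * ((10 + 2 * C1) * Real.exp C1) * (B - V + N) * (N ^ (-5 : ℝ) * N) * A.G V := by
        ring
    _ = 16 * (C * C3) * ((10 + 2 * C1) * Real.exp C1) * (B - V + N) / N ^ 4 * A.G V := by
        rw [hNN]
        ring

end Pool.Agent.Lib.LC
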