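import Mathlib
import Pool.Agent.Lib.MP_f9aece_nt_loc.E4

/-!
The law of `log |zeta|` at bounded scale: module E3, heights whose prime sum is too small.
-/

set_option autoImplicit false

namespace Pool.Agent.Lib.LC

open MeasureTheory Set Filter Topology Complex ProbabilityTheory
open scoped ComplexConjugate
open Pool.Agent.Lib.GT

namespace E4

lemma cont_mo (A : Par) (μ : ℂ) (s : Finset ℕ) : Continuous fun t : ℝ => A.mo μ s (om t) := by
  unfold Par.mo
  refine continuous_finsetProd _ fun g _ => ?_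
  have h : Continuous fun t : ℝ => A.P g (om t) := cont_lin _ _
  unfold tex
  fun_prop

lemma cont_zeta : Continuous fun t : ℝ => riemannZeta (1 / 2 + I * t) := by
  rw [continuous_iff_continuousAt]
  intro t
  have h1 : (1 / 2 + I * t : ℂ) ≠ 1 := by
    intro h
    have := congrArg Complex.re h
    norm_num at this
  have h2 : ContinuousAt (fun t : ℝ => (1 / 2 + I * t : ℂ)) t := by fun_prop
  exact ContinuousAt.comp (g := riemannZeta) (f := fun t : ℝ => (1 / 2 + I * t : ℂ))
    (differentiableAt_riemannZeta h1).continuousAt h2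

/-- the mass of the far left with an exponential weight -/
lemma lint_left (A : Par) (_hbe : 0 ≤ A.be) (hbe1 : A.be ≤ 1) (V D : ℝ) :
    ∫⁻ y in Iic D, ENNReal.ofReal (Real.exp (2 * (y - V)) * A.G y)
      ≤ ENNReal.ofReal (A.G V * Real.exp ((2 - A.be) * (D - V))) := by
  have hc : 0 < 2 - A.be := by linarith
  have h1 : ∀ y : ℝ, Real.exp (2 * (y - V)) * A.G y
      = A.G V * Real.exp (-((2 - A.be) * V)) * Real.exp ((2 - A.be) * y) := by
    intro y
    rw [G_eq A V y, mul_left_comm, mul_assoc, ← Real.exp_add, ← Real.exp_add]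
    congr 2
    ring
  simp_rw [h1]
  have hint : IntegrableOn (fun y : ℝ => A.G V * Real.exp (-((2 - A.be) * V))
      * Real.exp ((2 - A.be) * y)) (Iic D) :=
    (integrableOn_exp_mul_Iic hc D).const_mul _
  rw [← ofReal_integral_eq_lintegral_ofReal hint
    (ae_of_all _ fun y => by have := G_nonneg A V; positivity)]
  refine ENNReal.ofReal_le_ofReal ?_
  rw [integral_const_mul, integral_exp_mul_Iic hc, mul_assoc]
  refine mul_le_mul_of_nonneg_left ?_ (G_nonneg A V)
  rw [mul_div_assoc', ← Real.exp_add, div_le_iff₀ hc]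
  have h2 : -((2 - A.be) * V) + (2 - A.be) * D = (2 - A.be) * (D - V) := by ring
  rw [h2]
  nlinarith [Real.exp_pos ((2 - A.be) * (D - V))]

end E4

open E4

/-- E3 -/
theorem stepLow (hW : TiltW) (hL : LineMeanX) (hP : GT.WPoint) (hN : SpecNum)
    (hG : GT.GroupNum) : StepLow := by
  classical
  obtain ⟨C, C1, v0, hC, hC1, HW⟩ := hW
  obtain ⟨C4, T4, hC4, hT4, HL⟩ := hL
  obtain ⟨C5, D5, v5, -, -, H5⟩ := hP
  obtain ⟨C6, N6, hC6, hN6, H6⟩ := hN
  set K : ℝ := 17 * (C * (2 * C4 * C6)) * (Real.exp (2 * C1) * Real.exp (2 * C1)) with hK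
  have hK1 : 1 ≤ K := by
    have h1 : 1 ≤ Real.exp (2 * C1) := Real.one_le_exp (by linarith)
    have h2 : 1 ≤ C4 * C6 := by nlinarith
    have h3 : 1 ≤ C * (2 * C4 * C6) := by nlinarith
    have h4 : 1 ≤ Real.exp (2 * C1) * Real.exp (2 * C1) := by nlinarith
    rw [hK]
    nlinarith
  refine ⟨K, max (Real.exp (max v0 v5 : ℕ) + 1) N6, T4, hK1, ?_, hT4, ?_⟩
  · exact le_max_of_le_right hN6
  intro A T N hS hNN hT x V hx
  have hA := hS.ok
  have hT1 : 3 ≤ T := hT4.trans hT
  have hT0 : 0 < T := by linarith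
  have hNa : Real.exp (max v0 v5 : ℕ) + 1 ≤ N := (le_max_left _ _).trans hNN
  have hNb : N6 ≤ N := (le_max_right _ _).trans hNN
  have hN1 : 1 ≤ N := hN6.trans hNb
  have hN0 : 0 < N := by linarith
  have hlN : 0 ≤ Real.log N := Real.log_nonneg hN1
  have hv : max v0 v5 ≤ A.v := by
    have h1 : ((max v0 v5 : ℕ) : ℝ) ≤ Real.log N := by
      rw [Real.le_log_iff_exp_le hN0]
      linarith
    have h2 : ((max v0 v5 : ℕ) : ℝ) ≤ A.v := by linarith [hS.hv1]
    exact_mod_cast h2
  have hv0 : v0 ≤ A.v := (le_max_left _ _).trans hv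
  have hv5 : v5 ≤ A.v := (le_max_right _ _).trans hv
  obtain ⟨hLen, -, -, -, -, -, hL9, -, -⟩ := H6 A T N hS hNb
  have hbe := hA.hbe
  have hbe1 := hS.hbe
  have hxT : |x| ≤ T := hx.trans (by
    conv_rhs => rw [← Real.rpow_one T]
    exact Real.rpow_le_rpow_of_exponent_le (by linarith) (by norm_num))
  set μ := un x T with hμ
  have : IsProbabilityMeasure μ := prob_un x hT0
  set P := (Finset.range A.J).powerset with hP
  set w : Finset ℕ → ℝ := fun s => Real.exp (-∑ g ∈ s, (A.r g : ℝ)) with hw
  set D : ℝ := V - 10 * Real.log N with hD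
  set I0 : Set ℝ := Icc (T ^ (19 / 20 : ℝ)) (x + T) with hI0
  set L : ℝ := Real.log A.p0 ^ 20 * (Real.log T / A.Y) * (1 + A.lam * A.Y) ^ 17 with hLdef
  have hL0 : 0 ≤ L := by
    have h1 := hA.hl
    have h2 := hA.hY
    have h3 : 0 ≤ Real.log T := Real.log_nonneg (by linarith)
    have h4 : 0 ≤ Real.log A.p0 := Real.log_nonneg (by
      have := hA.hp
      exact_mod_cast (by omega : 1 ≤ A.p0))
    have h5 : 0 < A.Y := by linarith
    positivity
  set E : Finset ℕ → Set ℝ := fun s => {t | t ∈ I0 ∧ Real.exp V < ‖riemannZeta (1 / 2 + I * t)‖ ∧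
    A.Good s (om t) ∧ A.Bad s (om t) ∧ A.X s (om t) ≤ D} with hE
  have hGV := G_nonneg A V
  set Q : ℝ := Real.exp (2 * C1) * (A.G V * Real.exp ((2 - A.be) * (D + C1 - V))) with hQ
  have hQ0 : 0 ≤ Q := by positivity
  have bE : ∀ s ∈ P, μ (E s) ≤ ENNReal.ofReal (C * (2 * C4 * L * w s) * Q) := by
    intro s hs
    rw [hP, Finset.mem_powerset] at hs
    set m : ℝ → ℝ := fun t => ‖A.mo (-1) s (om t)‖ ^ 2 * ‖riemannZeta (1 / 2 + I * t)‖ ^ 2 with hm
    have hmc : Continuous m := by
      have c1 := cont_mo A (-1) s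
      have c2 := cont_zeta
      exact (c1.norm.pow 2).mul (c2.norm.pow 2)
    have hm0 : ∀ t, 0 ≤ m t := fun t => by positivity
    set H : ℝ → ENNReal := I0.indicator fun t => ENNReal.ofReal (2 * m t) with hH
    have hHm : Measurable H := by
      refine Measurable.indicator ?_ measurableSet_Icc
      exact ENNReal.measurable_ofReal.comp (continuous_const.mul hmc).measurable
    have hω : Measurable ((Iic D).indicator fun u : ℝ => ENNReal.ofReal (Real.exp (2 * (u - V)))) :=
      Measurable.indicator (by fun_prop) measurableSet_Iic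
    have hω' : Measurable ((Iic (D + C1)).indicator fun u : ℝ =>
        ENNReal.ofReal (Real.exp (2 * C1) * Real.exp (2 * (u - V)))) :=
      Measurable.indicator (by fun_prop) measurableSet_Iic
    have key := HW A hA hv0 hS.hb s hs μ inferInstance (2 * C4 * L * w s) (by positivity) H hHm ?_
      _ _ hω hω' ?_
    · refine le_trans ?_ (key.trans ?_)
      · have e1 : E s ⊆ {t | A.Good s (om t) ∧ A.Bad s (om t)} := fun t ht => ⟨ht.2.2.1, ht.2.2.2.1⟩
        rw [← Measure.restrict_eq_self (μ := μ) e1]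
        refine meas_le_lintegral₀ ?_ ?_
        · exact Measurable.aemeasurable ((hω.comp (cont_X A s).measurable).mul hHm)
        · rintro t ⟨ht1, ht2, ht3, ht4, ht5⟩
          have q1 := (H5 A hA hv5 s hs (om t) ht3 ht4).2.2.2.2
          rw [Set.indicator_of_mem (show A.X s (om t) ∈ Iic D from ht5), hH,
            Set.indicator_of_mem ht1, ← ENNReal.ofReal_mul (Real.exp_nonneg _),
            ← ENNReal.ofReal_one]
          refine ENNReal.ofReal_le_ofReal ?_
          have q2 : Real.exp (2 * V) ≤ ‖riemannZeta (1 / 2 + I * t)‖ ^ 2 := by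
            have : Real.exp (2 * V) = Real.exp V ^ 2 := by rw [← Real.exp_nat_mul]; norm_num
            rw [this]
            exact pow_le_pow_left₀ (Real.exp_nonneg _) ht2.le 2
          have q3 : 1 / 2 * Real.exp (-(2 * A.X s (om t))) * Real.exp (2 * V) ≤ m t :=
            mul_le_mul q1 q2 (Real.exp_nonneg _) (by positivity)
          calc (1 : ℝ) = Real.exp (2 * (A.X s (om t) - V))
                * (2 * (1 / 2 * Real.exp (-(2 * A.X s (om t))) * Real.exp (2 * V))) := by
                have : Real.exp (2 * (A.X s (om t) - V)) * (Real.exp (-(2 * A.X s (om t)))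
                    * Real.exp (2 * V)) = 1 := by
                  rw [← Real.exp_add, ← Real.exp_add]
                  rw [show 2 * (A.X s (om t) - V) + (-(2 * A.X s (om t)) + 2 * V) = 0 by ring,
                    Real.exp_zero]
                linear_combination -this
            _ ≤ Real.exp (2 * (A.X s (om t) - V)) * (2 * m t) := by
                refine mul_le_mul_of_nonneg_left ?_ (Real.exp_nonneg _)
                linarith
      · rw [ENNReal.ofReal_mul (by positivity : (0 : ℝ) ≤ C * (2 * C4 * L * w s))]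
        refine mul_le_mul_right ?_ _
        have e2 : ∀ y : ℝ, (Iic (D + C1)).indicator (fun u : ℝ =>
            ENNReal.ofReal (Real.exp (2 * C1) * Real.exp (2 * (u - V)))) y * ENNReal.ofReal (A.G y)
            = (Iic (D + C1)).indicator (fun y => ENNReal.ofReal (Real.exp (2 * C1))
              * ENNReal.ofReal (Real.exp (2 * (y - V)) * A.G y)) y := by
          intro y
          by_cases hy : y ∈ Iic (D + C1)
          · rw [Set.indicator_of_mem hy, Set.indicator_of_mem hy,
              ENNReal.ofReal_mul (Real.exp_nonneg _), ENNReal.ofReal_mul (Real.exp_nonneg _),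
              mul_assoc]
          · rw [Set.indicator_of_notMem hy, Set.indicator_of_notMem hy, zero_mul]
        simp_rw [e2]
        rw [lintegral_indicator measurableSet_Iic, lintegral_const_mul' _ _ ENNReal.ofReal_ne_top,
          hQ, ENNReal.ofReal_mul (Real.exp_nonneg _)]
        exact mul_le_mul_right (lint_left A hbe.le (by linarith) V (D + C1)) _
    · intro y
      have q4 := HL A hA T hT hLen x hxT y 0 (by simp [Real.sqrt_nonneg]) s hs
      have e2 : ∀ t, ENNReal.ofReal (A.W s y (om t)) * H t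
          = I0.indicator (fun t => 2 * ENNReal.ofReal (A.W s y (om t) * m t)) t := by
        intro t
        rw [hH]
        by_cases ht : t ∈ I0
        · rw [Set.indicator_of_mem ht, Set.indicator_of_mem ht, ← ENNReal.ofReal_mul'
            (by have := hm0 t; positivity)]
          rw [show A.W s y (om t) * (2 * m t) = 2 * (A.W s y (om t) * m t) by ring,
            ENNReal.ofReal_mul (by norm_num)]
          norm_num
        · rw [Set.indicator_of_notMem ht, Set.indicator_of_notMem ht, mul_zero]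
      simp_rw [e2]
      rw [lintegral_indicator measurableSet_Icc, lintegral_const_mul' _ _ (by norm_num)]
      have e3 : ∫⁻ t in I0, ENNReal.ofReal (A.W s y (om t) * m t) ∂μ
          ≤ ENNReal.ofReal (C4 * Real.log A.p0 ^ 20 * (Real.log T / A.Y) * (1 + A.lam * A.Y) ^ 17
            * gr (Real.log T) 0 * w s * A.G y) := by
        refine le_trans (le_of_eq ?_) q4
        refine lintegral_congr fun t => ?_
        rw [hm]
        simp only [add_zero]
      refine (mul_le_mul_right e3 2).trans ?_
      rw [show (2 : ENNReal) = ENNReal.ofReal 2 by norm_num, ← ENNReal.ofReal_mul (by norm_num)]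
      refine ENNReal.ofReal_le_ofReal (le_of_eq ?_)
      have e4 : gr (Real.log T) 0 = 1 := by
        unfold gr
        simp
      rw [e4, hLdef]
      ring
    · intro u y huy
      by_cases hu : u ∈ Iic D
      · have h1 := abs_le.1 huy
        have hu' : u ≤ D := hu
        rw [Set.indicator_of_mem hu, Set.indicator_of_mem
          (show y ∈ Iic (D + C1) from (by linarith : y ≤ D + C1)), ← Real.exp_add]
        refine ENNReal.ofReal_le_ofReal (Real.exp_le_exp.2 ?_)
        linarith
      · rw [Set.indicator_of_notMem hu]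
        exact bot_le
  -- the covering
  have cov : {t : ℝ | t ∈ I0 ∧ Real.exp V < ‖riemannZeta (1 / 2 + I * t)‖ ∧
      ∃ s ⊆ Finset.range A.J, A.Good s (om t) ∧ A.Bad s (om t) ∧ A.X s (om t) ≤ D}
      ⊆ ⋃ s ∈ P, E s := by
    rintro t ⟨h0, h1, s, hs, h2, h3, h4⟩
    exact mem_iUnion₂.2 ⟨s, by rwa [hP, Finset.mem_powerset], h0, h1, h2, h3, h4⟩
  refine (measure_mono cov).trans ((measure_biUnion_finset_le _ _).trans ?_)
  refine (Finset.sum_le_sum bE).trans ?_
  rw [← ENNReal.ofReal_sum_of_nonneg fun s _ => by positivity]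
  refine ENNReal.ofReal_le_ofReal ?_
  have e5 : ∑ s ∈ P, C * (2 * C4 * L * w s) * Q = C * (2 * C4 * L) * Q * ∑ s ∈ P, w s := by
    rw [Finset.mul_sum]
    refine Finset.sum_congr rfl fun s _ => ?_
    ring
  rw [e5]
  have hsum : ∑ s ∈ P, w s ≤ 17 :=
    (sum_sets A.J (fun g => (A.r g : ℝ)) (Real.exp (-(A.v : ℝ))) (Real.exp_nonneg _)
      (Real.exp_le_one_iff.2 (by have : (0 : ℝ) ≤ A.v := Nat.cast_nonneg _; linarith))
      (hG A hA).2.2.2.2.2.1).2
  have hsum0 : 0 ≤ ∑ s ∈ P, w s := Finset.sum_nonneg fun s _ => Real.exp_nonneg _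
  -- the size of `Q`
  have hQ1 : Q ≤ Real.exp (2 * C1) * Real.exp (2 * C1) * (N ^ 10)⁻¹ * A.G V := by
    have h1 : Real.exp ((2 - A.be) * (D + C1 - V)) ≤ Real.exp (2 * C1) * (N ^ 10)⁻¹ := by
      have h2 : (N ^ 10)⁻¹ = Real.exp (-(10 * Real.log N)) := by
        rw [Real.exp_neg, ← Real.exp_log (pow_pos hN0 10), Real.log_pow]
        norm_num
      rw [h2, ← Real.exp_add]
      refine Real.exp_le_exp.2 ?_
      rw [hD]
      nlinarith
    calc Q ≤ Real.exp (2 * C1) * (A.G V * (Real.exp (2 * C1) * (N ^ 10)⁻¹)) := by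
          rw [hQ]
          gcongr
      _ = Real.exp (2 * C1) * Real.exp (2 * C1) * (N ^ 10)⁻¹ * A.G V := by ring
  have hfin : N ^ 9 * (N ^ 10)⁻¹ = 1 / N := by
    field_simp
  have hC0 : 0 ≤ C := by linarith
  have hC40 : 0 ≤ C4 := by linarith
  have hC60 : 0 ≤ C6 := by linarith
  calc C * (2 * C4 * L) * Q * ∑ s ∈ P, w s
      ≤ C * (2 * C4 * (C6 * N ^ 9)) * (Real.exp (2 * C1) * Real.exp (2 * C1) * (N ^ 10)⁻¹ * A.G V)
        * 17 := by
        gcongr
    _ = 17 * (C * (2 * C4 * C6)) * (Real.exp (2 * C1) * Real.exp (2 * C1)) * (N ^ 9 * (N ^ 10)⁻¹)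
        * A.G V := by ring
    _ = K / N * A.G V := by
        rw [hfin, hK]
        ring

end Pool.Agent.Lib.LC
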