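import Mathlib
import Pool.Agent.Lib.MP_f9aece_nt_loc.Stmts
import Pool.Agent.Lib.MP_f9aece_nt_gt.Cont

/-!
The law of `log |zeta|` at bounded scale: module E5, heights for which two levels are far apart.
-/

set_option autoImplicit false

namespace Pool.Agent.Lib.LC

open MeasureTheory Set Filter Topology Complex ProbabilityTheory
open scoped ComplexConjugate
open Pool.Agent.Lib.GT

namespace SF

lemma cont_lin (S : Finset ℕ) (c : ℕ → ℂ) : Continuous fun t : ℝ => lin S c (om t) := by
  have h : Continuous fun x : Om => lin S c x := by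
    unfold lin
    fun_prop
  exact h.comp continuous_om

/-- the sum over the sets of groups -/
lemma sum_sets (J : ℕ) (a : ℕ → ℝ) (ε : ℝ) (hε1 : ε ≤ 1)
    (h : ∑ g ∈ Finset.range J, Real.exp (-a g) ≤ 2 * ε) :
    ∑ s ∈ (Finset.range J).powerset, Real.exp (-∑ g ∈ s, a g) ≤ 17 := by
  have h1 : ∑ s ∈ (Finset.range J).powerset, Real.exp (-∑ g ∈ s, a g)
      = ∏ g ∈ Finset.range J, (1 + Real.exp (-a g)) := by
    rw [Finset.prod_one_add]
    refine Finset.sum_congr rfl fun s _ => ?_
    rw [← Real.exp_sum, Finset.sum_neg_distrib]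
  have h2 : ∏ g ∈ Finset.range J, (1 + Real.exp (-a g)) ≤ Real.exp (2 * ε) := by
    calc ∏ g ∈ Finset.range J, (1 + Real.exp (-a g))
        ≤ ∏ g ∈ Finset.range J, Real.exp (Real.exp (-a g)) := by
          refine Finset.prod_le_prod (fun g _ => by positivity) fun g _ => ?_
          have := Real.add_one_le_exp (Real.exp (-a g))
          linarith
      _ = Real.exp (∑ g ∈ Finset.range J, Real.exp (-a g)) := (Real.exp_sum _ _).symm
      _ ≤ Real.exp (2 * ε) := Real.exp_le_exp.2 h
  have he : Real.exp (2 * ε) ≤ Real.exp 2 := Real.exp_le_exp.2 (by linarith)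
  have h4 := Real.exp_one_lt_d9
  have h5 : Real.exp 2 = Real.exp 1 * Real.exp 1 := by rw [← Real.exp_add]; norm_num
  have h6 := Real.exp_pos 1
  nlinarith

/-- the integral of the far part -/
lemma far_int {B R : ℝ} (hR : 0 < R) :
    ∫⁻ y in Ioi (B + R), ENNReal.ofReal (4 / (y - B) ^ 2) = ENNReal.ofReal (4 / R) := by
  have h0 : ∀ y ∈ Ioi (B + R), HasDerivAt (fun y : ℝ => -(4 / (y - B))) (4 / (y - B) ^ 2) y := by
    intro y hy
    have hy' : y - B ≠ 0 := by
      rw [mem_Ioi] at hy
      intro h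
      linarith
    have h1 : HasDerivAt (fun y : ℝ => y - B) 1 y := (hasDerivAt_id y).sub_const B
    have h2 := (h1.inv hy').const_mul (-4)
    refine h2.congr_deriv ?_ |>.congr_of_eventuallyEq ?_
    · field_simp
    · refine Eventually.of_forall fun z => ?_
      simp only [Pi.inv_apply]
      ring
  have hc : ContinuousWithinAt (fun y : ℝ => -(4 / (y - B))) (Ici (B + R)) (B + R) := by
    refine ContinuousAt.continuousWithinAt ?_
    have : B + R - B ≠ 0 := by simp [hR.ne']
    fun_prop (disch := assumption)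
  have ht : Tendsto (fun y : ℝ => -(4 / (y - B))) atTop (𝓝 0) := by
    have h1 : Tendsto (fun y : ℝ => y - B) atTop atTop := tendsto_atTop_add_const_right _ _ tendsto_id
    have h2 := (tendsto_const_nhds (x := (4 : ℝ))).div_atTop h1
    simpa using h2.neg
  have hnn : ∀ y ∈ Ioi (B + R), 0 ≤ 4 / (y - B) ^ 2 := fun y _ => by positivity
  have hint := integrableOn_Ioi_deriv_of_nonneg hc h0 hnn ht
  rw [← ofReal_integral_eq_lintegral_ofReal hint
    ((ae_restrict_iff' measurableSet_Ioi).2 (Eventually.of_forall hnn))]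
  rw [integral_Ioi_of_hasDerivAt_of_nonneg hc h0 hnn ht]
  congr 1
  rw [show B + R - B = R by ring]
  ring

end SF

open SF

/-- E5 -/
theorem stepFar (hW : TiltW) (hL : LinMean) (hN : SpecNum) (hS : SpecLin) (hG : GroupNum) :
    StepFar := by
  classical
  obtain ⟨CW, C1, v0, hCW, hC1, HW⟩ := hW
  obtain ⟨CL, TL, hCL, hTL, HL⟩ := hL
  obtain ⟨CN, N1, hCN, hN1, HN⟩ := hN
  obtain ⟨CS, N2, hCS, hN2, HS⟩ := hS
  -- the logarithm is small
  obtain ⟨N3, hN3, HN3⟩ : ∃ N3 : ℝ, 1 ≤ N3 ∧ ∀ N : ℝ, N3 ≤ N →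
      Real.log N ^ 2 ≤ N ^ (1 / 2 : ℝ) ∧ 2 * C1 ≤ N ^ (3 / 2 : ℝ) ∧ (v0 : ℝ) ≤ 5 * Real.log N ∧
      1 ≤ Real.log N := by
    have e1 : ∀ᶠ N : ℝ in atTop, Real.log N ^ 2 ≤ N ^ (1 / 2 : ℝ) := by
      have h1 := (isLittleO_log_rpow_rpow_atTop (s := 1 / 2) 2 (by norm_num)).bound
        (show (0 : ℝ) < 1 by norm_num)
      filter_upwards [h1, eventually_ge_atTop (1 : ℝ)] with N h2 h3
      rw [one_mul, Real.norm_of_nonneg (Real.rpow_nonneg (Real.log_nonneg h3) _),
        Real.norm_of_nonneg (Real.rpow_nonneg (by linarith) _)] at h2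
      calc Real.log N ^ 2 = Real.log N ^ (2 : ℝ) := by norm_cast
        _ ≤ _ := h2
    have e2 : ∀ᶠ N : ℝ in atTop, 2 * C1 ≤ N ^ (3 / 2 : ℝ) :=
      (tendsto_rpow_atTop (show (0 : ℝ) < 3 / 2 by norm_num)).eventually_ge_atTop _
    have e3 : ∀ᶠ N : ℝ in atTop, (v0 : ℝ) / 5 ≤ Real.log N :=
      Real.tendsto_log_atTop.eventually_ge_atTop _
    have e4 : ∀ᶠ N : ℝ in atTop, 1 ≤ Real.log N := Real.tendsto_log_atTop.eventually_ge_atTop _
    obtain ⟨N3, H⟩ := eventually_atTop.1 (e1.and (e2.and (e3.and e4)))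
    refine ⟨max 1 N3, le_max_left _ _, fun N hN => ?_⟩
    obtain ⟨q1, q2, q3, q4⟩ := H N ((le_max_right _ _).trans hN)
    exact ⟨q1, q2, by linarith, q4⟩
  refine ⟨CW * CL * CS ^ 2 * 17 * 8, max N1 (max N2 N3), TL, ?_, le_max_of_le_left hN1, hTL, ?_⟩
  · have : 1 ≤ CW * CL := by nlinarith
    have : 1 ≤ CS ^ 2 := by nlinarith
    nlinarith
  intro A A' T N hA hA' hNN hT x V B hVB
  have hNN1 : N1 ≤ N := (le_max_left _ _).trans hNN
  have hNN2 : N2 ≤ N := ((le_max_left _ _).trans (le_max_right _ _)).trans hNN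
  have hNN3 : N3 ≤ N := ((le_max_right _ _).trans (le_max_right _ _)).trans hNN
  obtain ⟨l1, l2, l3, l4⟩ := HN3 N hNN3
  have hNp : 1 ≤ N := hN3.trans hNN3
  have hT0 : 0 < T := by linarith
  have hOk := hA.ok
  obtain ⟨hLen, -⟩ := HN A T N hA hNN1
  obtain ⟨-, HS⟩ := HS A A' T N hA hA' hNN2
  have hv : v0 ≤ A.v := by
    have := hA.hv1
    have h1 : (v0 : ℝ) ≤ A.v := by linarith
    exact_mod_cast h1
  set M : ℝ := N ^ (3 / 2 : ℝ) with hM
  have hMp : 0 < M := by positivity
  have hbe := hOk.hbe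
  have hGV : 0 ≤ A.G V := by unfold Par.G; positivity
  set μ := un x T with hμ
  have hprob : IsProbabilityMeasure μ := prob_un x hT0
  set P := (Finset.range A.J).powerset with hP
  set w : Finset ℕ → ℝ := fun s => Real.exp (-∑ g ∈ s, (A.r g : ℝ)) with hw
  set E : Finset ℕ → Set ℝ := fun s => {t | A'.X ∅ (om t) ≤ B ∧ A.Good s (om t) ∧ A.Bad s (om t) ∧
    B + M < A.X s (om t)} with hE
  -- one set of groups
  have one : ∀ s ∈ P, μ (E s) ≤ ENNReal.ofReal (CW * (CL * (CS * Real.log N) ^ 2 * w s)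
      * (8 / M * A.G V)) := by
    intro s hs
    rw [hP, Finset.mem_powerset] at hs
    obtain ⟨c, c1, c2, c3, c4⟩ := HS s hs
    set D : ℝ := CS * Real.log N with hD
    have hD1 : 1 ≤ D := by rw [hD]; nlinarith
    set H : ℝ → ENNReal := fun t => ENNReal.ofReal ((lin A.U c (om t)).re ^ 2) with hH
    have hHm : Measurable H := by
      refine ENNReal.measurable_ofReal.comp ?_
      exact ((Complex.continuous_re.comp (cont_lin A.U c)).pow 2).measurable
    set ω : ℝ → ENNReal := (Ioi (B + M)).indicator fun u => ENNReal.ofReal (1 / (u - B) ^ 2) with hω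
    set ω' : ℝ → ENNReal := (Ioi (B + (M - C1))).indicator
      fun u => ENNReal.ofReal (4 / (u - B) ^ 2) with hω'
    have hωm : Measurable ω := by
      refine Measurable.indicator ?_ measurableSet_Ioi
      exact ENNReal.measurable_ofReal.comp (by fun_prop)
    have hωm' : Measurable ω' := by
      refine Measurable.indicator ?_ measurableSet_Ioi
      exact ENNReal.measurable_ofReal.comp (by fun_prop)
    have hcmp : ∀ u y : ℝ, |u - y| ≤ C1 → ω u ≤ ω' y := by
      intro u y huy
      rw [abs_le] at huy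
      by_cases hu : u ∈ Ioi (B + M)
      · rw [hω, Set.indicator_of_mem hu]
        rw [mem_Ioi] at hu
        have hy : y ∈ Ioi (B + (M - C1)) := by rw [mem_Ioi]; linarith [huy.2]
        rw [hω', Set.indicator_of_mem hy]
        rw [mem_Ioi] at hy
        refine ENNReal.ofReal_le_ofReal ?_
        have h1 : 0 < y - B := by linarith
        have h2 : 0 < u - B := by linarith
        have h3 : y - B ≤ 2 * (u - B) := by linarith [huy.1]
        rw [div_le_div_iff₀ (by positivity) (by positivity)]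
        nlinarith
      · rw [hω, Set.indicator_of_notMem hu]
        exact zero_le
    have key := HW A hOk hv hA.hb s hs μ inferInstance (CL * D ^ 2 * w s) (by positivity) H hHm
      (fun y => by
        have := HL A hOk T hT hLen x y s hs c c1 D hD1 c3 c4
        refine le_trans (le_of_eq ?_) this
        refine lintegral_congr fun t => ?_
        rw [hH]
        simp only
        rw [← ENNReal.ofReal_mul' (sq_nonneg _)])
      ω ω' hωm hωm' hcmp
    have hup : μ (E s) ≤ ∫⁻ t in {t | A.Good s (om t) ∧ A.Bad s (om t)}, ω (A.X s (om t)) * H t ∂μ := by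
      have e1 : E s ⊆ {t | A.Good s (om t) ∧ A.Bad s (om t)} := fun t ht => ⟨ht.2.1, ht.2.2.1⟩
      rw [← Measure.restrict_eq_self (μ := μ) e1]
      refine meas_le_lintegral₀ ?_ ?_
      · refine Measurable.aemeasurable (Measurable.mul (hωm.comp ?_) hHm)
        unfold Par.X
        exact (continuous_finsetSum _ fun g _ => Complex.continuous_re.comp
          (cont_lin _ _)).measurable
      · rintro t ⟨ht1, ht2, ht3, ht4⟩
        rw [hω, Set.indicator_of_mem (show A.X s (om t) ∈ Ioi (B + M) from ht4), hH]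
        simp only
        rw [← ENNReal.ofReal_mul (by positivity), ← ENNReal.ofReal_one]
        refine ENNReal.ofReal_le_ofReal ?_
        rw [← c2 (om t)]
        have h2 : 0 < A.X s (om t) - B := by linarith
        rw [div_mul_eq_mul_div, one_mul, one_le_div (by positivity)]
        have h3 : A.X s (om t) - B ≤ A.X s (om t) - A'.X ∅ (om t) := by linarith
        nlinarith
    refine hup.trans (key.trans ?_)
    have esp : ENNReal.ofReal (CW * (CL * D ^ 2 * w s) * (8 / M * A.G V))
        = ENNReal.ofReal (CW * (CL * D ^ 2 * w s)) * ENNReal.ofReal (8 / M * A.G V) :=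
      ENNReal.ofReal_mul (by positivity)
    rw [esp]
    refine mul_le_mul_right ?_ _
    -- the integral over the window
    have hpt : ∀ y : ℝ, ω' y * ENNReal.ofReal (A.G y)
        ≤ (Ioi (B + (M - C1))).indicator (fun u => ENNReal.ofReal (4 / (u - B) ^ 2)) y
          * ENNReal.ofReal (A.G V) := by
      intro y
      by_cases hy : y ∈ Ioi (B + (M - C1))
      · rw [hω', Set.indicator_of_mem hy]
        refine mul_le_mul_right (ENNReal.ofReal_le_ofReal ?_) _
        rw [mem_Ioi] at hy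
        unfold Par.G
        have h1 : V ≤ y := by linarith
        have h2 : A.be * V ≤ A.be * y := mul_le_mul_of_nonneg_left h1 hbe.le
        gcongr
      · rw [hω', Set.indicator_of_notMem hy, zero_mul]
        exact zero_le
    refine (lintegral_mono hpt).trans ?_
    rw [lintegral_mul_const _ (by
      refine Measurable.indicator ?_ measurableSet_Ioi
      exact ENNReal.measurable_ofReal.comp (by fun_prop)), lintegral_indicator measurableSet_Ioi,
      far_int (by linarith), ENNReal.ofReal_mul (by positivity)]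
    refine mul_le_mul_left (ENNReal.ofReal_le_ofReal ?_) _
    rw [div_le_div_iff₀ (by linarith) hMp]
    linarith
  -- all the sets
  have cov : {t : ℝ | A'.X ∅ (om t) ≤ B ∧ ∃ s ⊆ Finset.range A.J, A.Good s (om t) ∧
      A.Bad s (om t) ∧ B + M < A.X s (om t)} ⊆ ⋃ s ∈ P, E s := by
    rintro t ⟨ht1, s, hs, ht2, ht3, ht4⟩
    simp only [Set.mem_iUnion]
    exact ⟨s, Finset.mem_powerset.2 hs, ht1, ht2, ht3, ht4⟩
  have s2 := sum_sets A.J (fun g => (A.r g : ℝ)) (Real.exp (-A.v))
    (Real.exp_le_one_iff.2 (by simp)) (hG A hOk).2.2.2.2.2.1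
  refine (measure_mono cov).trans ((measure_biUnion_finset_le _ _).trans
    ((Finset.sum_le_sum one).trans ?_))
  rw [← ENNReal.ofReal_sum_of_nonneg (fun s _ => by positivity)]
  refine ENNReal.ofReal_le_ofReal ?_
  rw [← Finset.sum_mul, ← Finset.mul_sum, ← Finset.mul_sum]
  have e1 : M = N * N ^ (1 / 2 : ℝ) := by
    rw [hM, show (3 / 2 : ℝ) = 1 + 1 / 2 by norm_num, Real.rpow_add (by linarith), Real.rpow_one]
  have hN2p : 0 < N ^ (1 / 2 : ℝ) := by positivity
  have e2 : (CS * Real.log N) ^ 2 / M ≤ CS ^ 2 / N := by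
    rw [e1, div_le_div_iff₀ (by positivity) (by positivity)]
    have : CS ^ 2 * (Real.log N ^ 2 * N) ≤ CS ^ 2 * (N ^ (1 / 2 : ℝ) * N) := by gcongr
    nlinarith
  calc CW * (CL * (CS * Real.log N) ^ 2 * ∑ s ∈ P, w s) * (8 / M * A.G V)
      = CW * CL * (∑ s ∈ P, w s) * 8 * ((CS * Real.log N) ^ 2 / M) * A.G V := by ring
    _ ≤ CW * CL * 17 * 8 * (CS ^ 2 / N) * A.G V := by gcongr
    _ = CW * CL * CS ^ 2 * 17 * 8 / N * A.G V := by ring

end Pool.Agent.Lib.LC
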