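import Pool.Agent.Lib.MP_f9aece_nt_loc.Stmts

/-!
Project LOCAL, row E6: one step between two levels.
-/

set_option autoImplicit false

namespace Pool.Agent.Lib.LC

open MeasureTheory Set Filter Topology Complex ProbabilityTheory
open Pool.Agent.Lib.GT

namespace E6

lemma G_nonneg (A : Par) (y : ℝ) : 0 ≤ A.G y := by
  unfold Par.G
  positivity

lemma G_anti (A : Par) (hbe : 0 ≤ A.be) {y z : ℝ} (h : y ≤ z) : A.G z ≤ A.G y := by
  unfold Par.G
  have h1 := mul_le_mul_of_nonneg_left h hbe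
  exact mul_le_mul_of_nonneg_left (Real.exp_le_exp.2 (by linarith)) (by positivity)

lemma exp_bound {c x : ℝ} (hc : 0 < c) (hx : 0 < x) :
    Real.exp (-(c * x)) ≤ 24 / c ^ 4 / x ^ 4 := by
  have h0 : 0 < c * x := mul_pos hc hx
  have h1 : (c * x) ^ 4 / 24 ≤ Real.exp (c * x) := by
    have h := Real.pow_div_factorial_le_exp (c * x) h0.le 4
    have h2 : ((4 : ℕ).factorial : ℝ) = 24 := by norm_num [Nat.factorial]
    rw [h2] at h
    exact h
  rw [Real.exp_neg, div_div, ← mul_pow, inv_eq_one_div, div_le_div_iff₀ (Real.exp_pos _) (by positivity)]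
  linarith

end E6

open E6

theorem levelStep (hL : StepLow) (hB : StepBad) (hF : StepFar) (hT : LowTail) (hN : SpecNum) :
    LevelStep := by
  classical
  obtain ⟨C1, N1, T1, hC1, hN1, hT1, H1⟩ := hL
  obtain ⟨C2, N2, T2, hC2, hN2, hT2, H2⟩ := hB
  obtain ⟨C3, N3, T3, hC3, hN3, hT3, H3⟩ := hF
  obtain ⟨c, C4, T4, v0, hc, hC4, hT4, H4⟩ := hT
  obtain ⟨C5, N5, hC5, hN5, H5⟩ := hN
  let K : ℝ := 2 * C4 * (2 * C5 + 24 / c ^ 4)
  have hK : 0 ≤ K := by positivity
  refine ⟨C1 + 3 * C2 + C3 + K, N1 + N2 + N3 + N5 + C4 + Real.exp v0, T1 + T2 + T3 + T4, ?_, ?_, ?_, ?_⟩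
  · linarith
  · have := Real.exp_pos v0
    linarith
  · linarith
  intro A A' T N hS hS' hN0 hT0 x V h hx hh
  have hev := Real.exp_pos (v0 : ℝ)
  have hNp : 1 ≤ N := by linarith
  have hNpos : 0 < N := by linarith
  have n1 : N1 ≤ N := by linarith
  have n2 : N2 ≤ N := by linarith
  have n3 : N3 ≤ N := by linarith
  have n5 : N5 ≤ N := by linarith
  have n4 : C4 ≤ N := by linarith
  have nv : Real.exp v0 ≤ N := by linarith
  have t1 : T1 ≤ T := by linarith
  have t2 : T2 ≤ T := by linarith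
  have t3 : T3 ≤ T := by linarith
  have t4 : T4 ≤ T := by linarith
  obtain ⟨s1, s2, s3, s4, s5, s6, s7, s8, s9⟩ := H5 A T N hS n5
  have hbe : 0 < A.be := hS.ok.hbe
  set M : ℝ := N ^ (3 / 2 : ℝ) with hM
  have hMN : N ≤ M := by
    calc N = N ^ (1 : ℝ) := (Real.rpow_one N).symm
      _ ≤ M := Real.rpow_le_rpow_of_exponent_le hNp (by norm_num)
  have hMpos : 0 < M := by linarith
  have hlogT : 0 < Real.log T := Real.log_pos (by linarith)
  have hlamL : A.lam * Real.log T = N ^ (1 / 2 : ℝ) := by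
    rw [hS.hl, div_mul_cancel₀ _ hlogT.ne']
  have hG0 : 0 ≤ A.G V := G_nonneg A V
  have hv0 : v0 ≤ A.v := by
    have h1 : (v0 : ℝ) ≤ Real.log N := by
      rw [Real.le_log_iff_exp_le hNpos]
      exact nv
    have h2 := hS.hv1
    have h3 : (v0 : ℝ) ≤ A.v := by
      have h4 : 0 ≤ Real.log N := Real.log_nonneg hNp
      linarith
    exact_mod_cast h3
  -- the four sets
  have b1 := H1 A T N hS n1 t1 x V hx
  have b2 := H2 A T N hS n2 t2 x V (V + h + 2 * M) (by linarith)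
  have b3 := H3 A A' T N hS hS' n3 t3 x V (V + h + M) (by linarith)
  have b4 := H4 A hS.ok hv0 hS.hb T t4 s1 s2 s3 s4 s5 x hx (V + h + N) (V + h + 2 * M) N
    (by linarith) n4
  -- the inclusion
  have hsub : {t | t ∈ Ev x T V h ∧ Perf A' M V h t ∧ ¬ Perf A N V h t} ⊆
      (({t | t ∈ Icc (T ^ (19 / 20 : ℝ)) (x + T) ∧ Real.exp V < ‖riemannZeta (1 / 2 + I * t)‖ ∧
        ∃ s ⊆ Finset.range A.J, A.Good s (om t) ∧ A.Bad s (om t) ∧
          A.X s (om t) ≤ V - 10 * Real.log N} ∪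
      {t | ∃ s ⊆ Finset.range A.J, s.Nonempty ∧ A.Good s (om t) ∧ A.Bad s (om t) ∧
        V - 10 * Real.log N < A.X s (om t) ∧ A.X s (om t) ≤ V + h + 2 * M}) ∪
      {t | A'.X ∅ (om t) ≤ V + h + M ∧ ∃ s ⊆ Finset.range A.J, A.Good s (om t) ∧
        A.Bad s (om t) ∧ V + h + M + M < A.X s (om t)}) ∪
      {t | t ∈ Icc (T ^ (19 / 20 : ℝ)) (x + T) ∧ A.Good ∅ (om t) ∧ V + h + N < A.X ∅ (om t) ∧
        A.X ∅ (om t) ≤ V + h + 2 * M ∧
        ‖riemannZeta (1 / 2 + I * t)‖ ≤ Real.exp (A.X ∅ (om t) - N)} := by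
    rintro t ⟨⟨ht1, ht2, ht3⟩, ⟨-, -, hp3⟩, hnp⟩
    let s : Finset ℕ := (Finset.range A.J).filter fun g => RR (A.r g) < ‖A.P g (om t)‖
    have hs : s ⊆ Finset.range A.J := Finset.filter_subset _ _
    have hgood : A.Good s (om t) := by
      intro g hg
      rw [Finset.mem_sdiff, Finset.mem_filter] at hg
      by_contra hcon
      exact hg.2 ⟨hg.1, not_le.1 hcon⟩
    have hbad : A.Bad s (om t) := by
      intro g hg
      exact (Finset.mem_filter.1 hg).2
    by_cases c1 : A.X s (om t) ≤ V - 10 * Real.log N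
    · exact Or.inl (Or.inl (Or.inl ⟨ht1, ht2, s, hs, hgood, hbad, c1⟩))
    rw [not_le] at c1
    by_cases c2 : V + h + M + M < A.X s (om t)
    · exact Or.inl (Or.inr ⟨hp3, s, hs, hgood, hbad, c2⟩)
    rw [not_lt] at c2
    have c2' : A.X s (om t) ≤ V + h + 2 * M := by linarith
    rcases s.eq_empty_or_nonempty with h0 | h0
    · right
      rw [h0] at hgood c1 c2'
      have c3 : V + h + N < A.X ∅ (om t) := by
        by_contra hcon
        exact hnp ⟨hgood, c1, not_lt.1 hcon⟩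
      refine ⟨ht1, hgood, c3, c2', ht3.trans (Real.exp_le_exp.2 ?_)⟩
      linarith
    · exact Or.inl (Or.inl (Or.inr ⟨s, hs, h0, hgood, hbad, c1, c2'⟩))
  refine (measure_mono hsub).trans ?_
  refine (measure_union_le _ _).trans ?_
  refine (add_le_add ((measure_union_le _ _).trans
    (add_le_add ((measure_union_le _ _).trans (add_le_add b1 b2)) b3)) b4).trans ?_
  -- numbers
  have hNq : 0 < N ^ (1 / 4 : ℝ) := Real.rpow_pos_of_pos hNpos _
  have hq1 : N ^ (1 / 4 : ℝ) ≤ N := by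
    calc N ^ (1 / 4 : ℝ) ≤ N ^ (1 : ℝ) := Real.rpow_le_rpow_of_exponent_le hNp (by norm_num)
      _ = N := Real.rpow_one N
  have e1 : C1 / N * A.G V ≤ C1 * (1 + h) / N ^ (1 / 4 : ℝ) * A.G V := by
    refine mul_le_mul_of_nonneg_right ?_ hG0
    rw [div_le_div_iff₀ hNpos hNq]
    have h1 : C1 * N ^ (1 / 4 : ℝ) ≤ C1 * N := mul_le_mul_of_nonneg_left hq1 (by linarith)
    have h2 : C1 * N ≤ C1 * (1 + h) * N := by
      have : 0 ≤ C1 * h * N := by positivity
      linarith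
    linarith
  have e3 : C3 / N * A.G V ≤ C3 * (1 + h) / N ^ (1 / 4 : ℝ) * A.G V := by
    refine mul_le_mul_of_nonneg_right ?_ hG0
    rw [div_le_div_iff₀ hNpos hNq]
    have h1 : C3 * N ^ (1 / 4 : ℝ) ≤ C3 * N := mul_le_mul_of_nonneg_left hq1 (by linarith)
    have h2 : C3 * N ≤ C3 * (1 + h) * N := by
      have : 0 ≤ C3 * h * N := by positivity
      linarith
    linarith
  have hM4 : M * N ^ (1 / 4 : ℝ) ≤ N ^ 4 := by
    rw [hM, ← Real.rpow_add hNpos]
    calc N ^ (3 / 2 + 1 / 4 : ℝ) ≤ N ^ (4 : ℝ) :=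
          Real.rpow_le_rpow_of_exponent_le hNp (by norm_num)
      _ = N ^ 4 := by rw [← Real.rpow_natCast]; norm_num
  have e2 : C2 * (V + h + 2 * M - V + N) / N ^ 4 * A.G V ≤
      3 * C2 * (1 + h) / N ^ (1 / 4 : ℝ) * A.G V := by
    refine mul_le_mul_of_nonneg_right ?_ hG0
    rw [div_le_div_iff₀ (by positivity) hNq]
    have h1 : V + h + 2 * M - V + N ≤ 3 * (1 + h) * M := by
      have h3 : 1 ≤ M := by linarith
      have h4 : h ≤ h * M := le_mul_of_one_le_right hh h3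
      nlinarith
    calc C2 * (V + h + 2 * M - V + N) * N ^ (1 / 4 : ℝ)
        ≤ C2 * (3 * (1 + h) * M) * N ^ (1 / 4 : ℝ) :=
          mul_le_mul_of_nonneg_right (mul_le_mul_of_nonneg_left h1 (by linarith)) hNq.le
      _ = 3 * C2 * (1 + h) * (M * N ^ (1 / 4 : ℝ)) := by ring
      _ ≤ 3 * C2 * (1 + h) * N ^ 4 := mul_le_mul_of_nonneg_left hM4 (by positivity)
  have e4 : C4 * ((1 + Real.log (1 + A.lam * A.Y)) ^ 2 / N ^ 2 + kap A T
        + Real.exp (-(c * N / (A.lam * Real.log T)))) * ((V + h + 2 * M - (V + h + N) + N)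
          * A.G (V + h + N - N)) + 4 * T ^ (-(1 / 20) : ℝ) ≤
      K * (1 + h) / N ^ (1 / 4 : ℝ) * A.G V + 4 * T ^ (-(1 / 20) : ℝ) := by
    refine add_le_add_left ?_ _
    have hexp : Real.exp (-(c * N / (A.lam * Real.log T))) ≤ 24 / c ^ 4 / N ^ 2 := by
      have h1 : c * N / (A.lam * Real.log T) = c * N ^ (1 / 2 : ℝ) := by
        rw [hlamL, mul_div_assoc]
        congr 1
        rw [div_eq_iff (Real.rpow_pos_of_pos hNpos _).ne', ← Real.rpow_add hNpos]
        norm_num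
      rw [h1]
      refine (exp_bound hc (Real.rpow_pos_of_pos hNpos _)).trans (le_of_eq ?_)
      congr 1
      rw [← Real.rpow_natCast (N ^ (1 / 2 : ℝ)) 4, ← Real.rpow_mul hNpos.le, ← Real.rpow_natCast N 2]
      norm_num
    have hN100 : 1 ≤ N ^ (1 / 100 : ℝ) := Real.one_le_rpow hNp (by norm_num)
    have hkap : kap A T ≤ C5 / N ^ 2 := by
      refine s6.trans ?_
      rw [div_le_div_iff₀ (by positivity) (by positivity)]
      have : N ^ 2 ≤ N ^ 3 := pow_le_pow_right₀ hNp (by norm_num)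
      exact mul_le_mul_of_nonneg_left this (by linarith)
    have hsum : (1 + Real.log (1 + A.lam * A.Y)) ^ 2 / N ^ 2 + kap A T
        + Real.exp (-(c * N / (A.lam * Real.log T))) ≤
        (2 * C5 + 24 / c ^ 4) * N ^ (1 / 100 : ℝ) / N ^ 2 := by
      have h1 : (1 + Real.log (1 + A.lam * A.Y)) ^ 2 / N ^ 2 ≤ C5 * N ^ (1 / 100 : ℝ) / N ^ 2 :=
        div_le_div_of_nonneg_right s8 (by positivity)
      have h2 : C5 / N ^ 2 ≤ C5 * N ^ (1 / 100 : ℝ) / N ^ 2 :=
        div_le_div_of_nonneg_right (le_mul_of_one_le_right (by linarith) hN100) (by positivity)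
      have h3 : 24 / c ^ 4 / N ^ 2 ≤ 24 / c ^ 4 * N ^ (1 / 100 : ℝ) / N ^ 2 :=
        div_le_div_of_nonneg_right (le_mul_of_one_le_right (by positivity) hN100) (by positivity)
      calc _ ≤ C5 * N ^ (1 / 100 : ℝ) / N ^ 2 + C5 * N ^ (1 / 100 : ℝ) / N ^ 2
            + 24 / c ^ 4 * N ^ (1 / 100 : ℝ) / N ^ 2 := by linarith
        _ = _ := by ring
    have hGG : (V + h + 2 * M - (V + h + N) + N) * A.G (V + h + N - N) ≤ 2 * M * A.G V := by
      have h1 : V + h + 2 * M - (V + h + N) + N = 2 * M := by ring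
      rw [h1]
      refine mul_le_mul_of_nonneg_left (G_anti A hbe.le ?_) (by positivity)
      linarith
    have hGG0 : 0 ≤ (V + h + 2 * M - (V + h + N) + N) * A.G (V + h + N - N) := by
      have h1 : V + h + 2 * M - (V + h + N) + N = 2 * M := by ring
      rw [h1]
      exact mul_nonneg (by positivity) (G_nonneg A _)
    calc C4 * ((1 + Real.log (1 + A.lam * A.Y)) ^ 2 / N ^ 2 + kap A T
          + Real.exp (-(c * N / (A.lam * Real.log T)))) * ((V + h + 2 * M - (V + h + N) + N)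
            * A.G (V + h + N - N))
        ≤ C4 * ((2 * C5 + 24 / c ^ 4) * N ^ (1 / 100 : ℝ) / N ^ 2) * ((V + h + 2 * M - (V + h + N) + N)
            * A.G (V + h + N - N)) :=
          mul_le_mul_of_nonneg_right (mul_le_mul_of_nonneg_left hsum (by linarith)) hGG0
      _ ≤ C4 * ((2 * C5 + 24 / c ^ 4) * N ^ (1 / 100 : ℝ) / N ^ 2) * (2 * M * A.G V) :=
          mul_le_mul_of_nonneg_left hGG (by positivity)
      _ = K * (N ^ (1 / 100 : ℝ) * M / N ^ 2) * A.G V := by
          simp only [K]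
          ring
      _ ≤ K * ((1 + h) / N ^ (1 / 4 : ℝ)) * A.G V := by
          refine mul_le_mul_of_nonneg_right (mul_le_mul_of_nonneg_left ?_ hK) hG0
          rw [div_le_div_iff₀ (by positivity) hNq]
          have h1 : N ^ (1 / 100 : ℝ) * M * N ^ (1 / 4 : ℝ) ≤ N ^ 2 := by
            rw [hM, ← Real.rpow_add hNpos, ← Real.rpow_add hNpos]
            calc N ^ (1 / 100 + 3 / 2 + 1 / 4 : ℝ) ≤ N ^ (2 : ℝ) :=
                  Real.rpow_le_rpow_of_exponent_le hNp (by norm_num)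
              _ = N ^ 2 := by rw [← Real.rpow_natCast]; norm_num
          have h2 : N ^ 2 ≤ (1 + h) * N ^ 2 := by
            have : 0 ≤ h * N ^ 2 := by positivity
            linarith
          linarith
      _ = K * (1 + h) / N ^ (1 / 4 : ℝ) * A.G V := by ring
  have hq0 : 0 ≤ (1 + h) / N ^ (1 / 4 : ℝ) * A.G V := by positivity
  have hT20 : 0 ≤ T ^ (-(1 / 20) : ℝ) := Real.rpow_nonneg (by linarith) _
  calc ENNReal.ofReal (C1 / N * A.G V)
        + ENNReal.ofReal (C2 * (V + h + 2 * M - V + N) / N ^ 4 * A.G V)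
        + ENNReal.ofReal (C3 / N * A.G V)
        + ENNReal.ofReal (C4 * ((1 + Real.log (1 + A.lam * A.Y)) ^ 2 / N ^ 2 + kap A T
        + Real.exp (-(c * N / (A.lam * Real.log T)))) * ((V + h + 2 * M - (V + h + N) + N)
          * A.G (V + h + N - N)) + 4 * T ^ (-(1 / 20) : ℝ))
      ≤ ENNReal.ofReal (C1 * (1 + h) / N ^ (1 / 4 : ℝ) * A.G V)
        + ENNReal.ofReal (3 * C2 * (1 + h) / N ^ (1 / 4 : ℝ) * A.G V)
        + ENNReal.ofReal (C3 * (1 + h) / N ^ (1 / 4 : ℝ) * A.G V)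
        + ENNReal.ofReal (K * (1 + h) / N ^ (1 / 4 : ℝ) * A.G V + 4 * T ^ (-(1 / 20) : ℝ)) :=
        add_le_add (add_le_add (add_le_add (ENNReal.ofReal_le_ofReal e1)
          (ENNReal.ofReal_le_ofReal e2)) (ENNReal.ofReal_le_ofReal e3)) (ENNReal.ofReal_le_ofReal e4)
    _ = ENNReal.ofReal ((C1 + 3 * C2 + C3 + K) * (1 + h) / N ^ (1 / 4 : ℝ) * A.G V
          + 4 * T ^ (-(1 / 20) : ℝ)) := by
        rw [← ENNReal.ofReal_add (by positivity) (by positivity),
          ← ENNReal.ofReal_add (by positivity) (by positivity),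
          ← ENNReal.ofReal_add (by positivity) (by positivity)]
        congr 1
        ring

end Pool.Agent.Lib.LC
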