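import Mathlib
import Pool.Agent.Lib.MP_f9aece_nt_gt.F1
import Pool.Agent.Lib.MP_f9aece_nt_gt.Cont
import Pool.Agent.Lib.MP_f9aece_nt_loc.Stmts

/-!
The law of `log |zeta|` at bounded scale: E7, the last level.
-/

set_option autoImplicit false

namespace Pool.Agent.Lib.LC

open MeasureTheory Set Filter Topology Complex ProbabilityTheory
open scoped ComplexConjugate
open Pool.Agent.Lib.GT

namespace LTop

/-- the sum over the sets of groups -/
lemma sum_sets (J : ℕ) (a : ℕ → ℝ) (h : ∑ g ∈ Finset.range J, Real.exp (-a g) ≤ 2) :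
    ∑ s ∈ (Finset.range J).powerset, Real.exp (-∑ g ∈ s, a g) ≤ Real.exp 2 := by
  have h1 : ∑ s ∈ (Finset.range J).powerset, Real.exp (-∑ g ∈ s, a g)
      = ∏ g ∈ Finset.range J, (1 + Real.exp (-a g)) := by
    rw [Finset.prod_one_add]
    refine Finset.sum_congr rfl fun s _ => ?_
    rw [← Real.exp_sum, Finset.sum_neg_distrib]
  rw [h1]
  calc ∏ g ∈ Finset.range J, (1 + Real.exp (-a g))
      ≤ ∏ g ∈ Finset.range J, Real.exp (Real.exp (-a g)) := by
        refine Finset.prod_le_prod (fun g _ => by positivity) fun g _ => ?_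
        have := Real.add_one_le_exp (Real.exp (-a g))
        linarith
    _ = Real.exp (∑ g ∈ Finset.range J, Real.exp (-a g)) := (Real.exp_sum _ _).symm
    _ ≤ Real.exp 2 := Real.exp_le_exp.2 h

lemma G_shift (A : Par) (V d : ℝ) : A.G (V + d) = A.G V * Real.exp (-(A.be * d)) := by
  unfold Par.G
  rw [mul_assoc, ← Real.exp_add]
  congr 2
  ring

/-- the prime sum beyond a level -/
lemma far (hW : TiltW) (hM : WMean) : ∃ (C D T0 : ℝ) (v0 : ℕ), 1 ≤ C ∧ 1 ≤ D ∧ 3 ≤ T0 ∧
    ∀ A : Par, A.Ok → v0 ≤ A.v → A.b = 1 / 20 → ∀ T : ℝ, T0 ≤ T → Len A T →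
    ∀ s : Finset ℕ, s ⊆ Finset.range A.J → ∀ x B : ℝ,
    un x T {t | A.Good s (om t) ∧ A.Bad s (om t) ∧ B < A.X s (om t)} ≤
      ENNReal.ofReal (C * Real.exp (-∑ g ∈ s, (A.r g : ℝ)) * (A.G (B - D) / A.be)) := by
  obtain ⟨C3, D3, v3, hC3, hD3, hW⟩ := hW
  obtain ⟨C4, T4, hC4, hT4, hM⟩ := hM
  refine ⟨C3 * C4, D3, T4, v3, by nlinarith, hD3, hT4, fun A hA hv hb T hT hL s hs x B => ?_⟩
  have hT0 : 0 < T := by linarith
  have hp : IsProbabilityMeasure (un x T) := prob_un x hT0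
  set w : ℝ := Real.exp (-∑ g ∈ s, (A.r g : ℝ)) with hw
  have hw0 : 0 < w := Real.exp_pos _
  set om1 : ℝ → ENNReal := (Ioi B).indicator (fun _ => 1) with ho1
  set om2 : ℝ → ENNReal := (Ioi (B - D3)).indicator (fun _ => 1) with ho2
  have m1 : Measurable om1 := measurable_const.indicator measurableSet_Ioi
  have m2 : Measurable om2 := measurable_const.indicator measurableSet_Ioi
  have h12 : ∀ u y : ℝ, |u - y| ≤ D3 → om1 u ≤ om2 y := by
    intro u y huy
    rw [ho1, ho2]
    by_cases hu : u ∈ Ioi B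
    · have hy : y ∈ Ioi (B - D3) := by
        rw [Set.mem_Ioi] at hu ⊢
        have := (abs_le.1 huy).2
        linarith
      rw [Set.indicator_of_mem hu, Set.indicator_of_mem hy]
    · rw [Set.indicator_of_notMem hu]
      exact bot_le
  have key := hW A hA hv hb s hs (un x T) inferInstance (C4 * w) (by positivity) (fun _ => 1)
    measurable_const (fun y => by
      simp only [mul_one]
      exact hM A hA T hT hL x y s hs) om1 om2 m1 m2 h12
  set E : Set ℝ := {t | A.Good s (om t) ∧ A.Bad s (om t)} with hE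
  have e1 : {t | A.Good s (om t) ∧ A.Bad s (om t) ∧ B < A.X s (om t)} ⊆ E :=
    fun t ht => ⟨ht.1, ht.2.1⟩
  have cX : Continuous fun t : ℝ => A.X s (om t) := (F1.cont_X A s).comp continuous_om
  have k1 : un x T {t | A.Good s (om t) ∧ A.Bad s (om t) ∧ B < A.X s (om t)} ≤
      ∫⁻ t in E, om1 (A.X s (om t)) * 1 ∂(un x T) := by
    rw [← Measure.restrict_eq_self (μ := un x T) e1]
    refine meas_le_lintegral₀ ?_ ?_
    · exact ((m1.comp cX.measurable).mul measurable_const).aemeasurable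
    · rintro t ⟨-, -, ht⟩
      have hmem : A.X s (om t) ∈ Ioi B := ht
      rw [ho1, Set.indicator_of_mem hmem, mul_one]
  refine k1.trans (key.trans ?_)
  have k2 : ∫⁻ y : ℝ, om2 y * ENNReal.ofReal (A.G y) ≤ ENNReal.ofReal (A.G (B - D3) / A.be) := by
    have e2 : ∀ y : ℝ, om2 y * ENNReal.ofReal (A.G y)
        = (Ioi (B - D3)).indicator (fun y => ENNReal.ofReal (1 * A.G y)) y := by
      intro y
      rw [ho2]
      by_cases hy : y ∈ Ioi (B - D3)
      · rw [Set.indicator_of_mem hy, Set.indicator_of_mem hy, one_mul, one_mul]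
      · rw [Set.indicator_of_notMem hy, Set.indicator_of_notMem hy, zero_mul]
    simp_rw [e2]
    rw [lintegral_indicator measurableSet_Ioi]
    exact F1.int_G_up A hA.hbe (B - D3)
  refine (mul_le_mul' le_rfl k2).trans ?_
  rw [← ENNReal.ofReal_mul (by positivity)]
  refine ENNReal.ofReal_le_ofReal (le_of_eq ?_)
  ring

end LTop

open LTop

/-- E7 -/
theorem levelTop (hL : StepLow) (hB : StepBad) (hW : TiltW) (hM : WMean) (hN : SpecNum)
    (hG : GroupNum) : LevelTop := by
  classical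
  obtain ⟨C1, N1, T1, hC1, hN1, hT1, hL⟩ := hL
  obtain ⟨C2, N2, T2, hC2, hN2, hT2, hB⟩ := hB
  obtain ⟨C3, D, T3, v3, hC3, hD, hT3, hF⟩ := far hW hM
  obtain ⟨C5, N5, -, hN5, hS⟩ := hN
  set c : ℝ := Real.exp 2 * Real.exp D * (Nat.factorial 12 : ℝ) with hc
  have hc0 : 0 < c := by positivity
  refine ⟨C1 + 2 * C2 + C3 * c, max 3 (max (Real.exp v3) (max N1 (max N2 N5))),
    max T1 (max T2 T3), ?_, ?_, ?_, ?_⟩
  · have : 0 ≤ C3 * c := by positivity
    linarith
  · exact le_trans (by norm_num) (le_max_left _ _)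
  · exact hT1.trans (le_max_left _ _)
  intro A T N hSp hN0 hT0 hll hbl x V h hx hh
  have n0 : 3 ≤ N := (le_max_left _ _).trans hN0
  have nv : Real.exp v3 ≤ N := ((le_max_left _ _).trans (le_max_right _ _)).trans hN0
  have n1 : N1 ≤ N :=
    (((le_max_left _ _).trans (le_max_right _ _)).trans (le_max_right _ _)).trans hN0
  have n2 : N2 ≤ N := ((((le_max_left _ _).trans (le_max_right _ _)).trans
    (le_max_right _ _)).trans (le_max_right _ _)).trans hN0
  have n5 : N5 ≤ N := ((((le_max_right _ _).trans (le_max_right _ _)).trans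
    (le_max_right _ _)).trans (le_max_right _ _)).trans hN0
  have t1 : T1 ≤ T := (le_max_left _ _).trans hT0
  have t2 : T2 ≤ T := ((le_max_left _ _).trans (le_max_right _ _)).trans hT0
  have t3 : T3 ≤ T := ((le_max_right _ _).trans (le_max_right _ _)).trans hT0
  have hA := hSp.ok
  have hLen : Len A T := (hS A T N hSp n5).1
  have hNp : 0 < N := by linarith
  have hN1' : 1 ≤ N := by linarith
  have hlogN : 0 ≤ Real.log N := Real.log_nonneg hN1'
  have hv : v3 ≤ A.v := by
    have h1 : (v3 : ℝ) ≤ Real.log N := by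
      rw [Real.le_log_iff_exp_le hNp]
      exact nv
    have h2 := hSp.hv1
    have h3 : (v3 : ℝ) ≤ A.v := by linarith
    exact_mod_cast h3
  have hbe := hA.hbe
  have hbe1 : A.be ≤ 1 := hSp.hbe.trans (by norm_num)
  have hGV : 0 < A.G V := hA.G_pos V
  -- the numbers
  set u : ℝ := N ^ (1 / 10 : ℝ) with hu
  have hu1 : 1 ≤ u := Real.one_le_rpow hN1' (by norm_num)
  have hu0 : 0 < u := by linarith
  have hbu : 1 / A.be ≤ u ^ 9 := by
    have h1 : 1 < Real.log (Real.log T) := by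
      have h2 : (3 : ℝ) ≤ Real.log T := by
        calc (3 : ℝ) ≤ N := n0
          _ ≤ N ^ 12 := le_self_pow₀ hN1' (by norm_num)
          _ ≤ _ := hSp.hN
      rw [Real.lt_log_iff_exp_lt (by linarith)]
      have := Real.exp_one_lt_d9
      linarith
    have h2 : 0 < Real.sqrt (Real.log (Real.log T)) := Real.sqrt_pos.2 (by linarith)
    have h3 : 1 / A.be ≤ Real.sqrt (Real.log (Real.log T)) := by
      rw [div_le_iff₀ hbe]
      rw [div_le_iff₀ h2] at hbl
      linarith
    refine h3.trans ?_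
    have h4 : Real.log (Real.log T) ≤ (u ^ 9) ^ 2 := by
      refine hll.trans (le_of_eq ?_)
      rw [← pow_mul, hu, ← Real.rpow_natCast, ← Real.rpow_mul hNp.le]
      norm_num
    calc Real.sqrt (Real.log (Real.log T)) ≤ Real.sqrt ((u ^ 9) ^ 2) := Real.sqrt_le_sqrt h4
      _ = u ^ 9 := Real.sqrt_sq (by positivity)
  have hNu : N = u ^ 10 := by
    rw [hu, ← Real.rpow_natCast, ← Real.rpow_mul hNp.le]
    norm_num
  have hbN : u ≤ A.be * N := by
    have h1 : 1 ≤ u ^ 9 * A.be := by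
      rwa [div_le_iff₀ hbe] at hbu
    calc u = u * 1 := (mul_one u).symm
      _ ≤ u * (u ^ 9 * A.be) := mul_le_mul_of_nonneg_left h1 hu0.le
      _ = A.be * u ^ 10 := by ring
      _ = A.be * N := by rw [← hNu]
  have hq : N ^ (1 / 4 : ℝ) ≤ u ^ 3 := by
    rw [hu, ← Real.rpow_natCast, ← Real.rpow_mul hNp.le]
    exact Real.rpow_le_rpow_of_exponent_le hN1' (by norm_num)
  have hq0 : 0 < N ^ (1 / 4 : ℝ) := Real.rpow_pos_of_pos hNp _
  set q : ℝ := N ^ (1 / 4 : ℝ) with hqd
  have hqN : q ≤ N := by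
    conv_rhs => rw [← Real.rpow_one N]
    exact Real.rpow_le_rpow_of_exponent_le hN1' (by norm_num)
  have hexp : Real.exp (-u) * u ^ 9 ≤ (Nat.factorial 12 : ℝ) / q := by
    have h1 := Real.pow_div_factorial_le_exp u hu0.le 12
    rw [div_le_iff₀ (by positivity)] at h1
    rw [le_div_iff₀ hq0]
    calc Real.exp (-u) * u ^ 9 * q ≤ Real.exp (-u) * u ^ 9 * u ^ 3 := by gcongr
      _ = Real.exp (-u) * u ^ 12 := by ring
      _ ≤ Real.exp (-u) * (Real.exp u * (Nat.factorial 12 : ℝ)) := by gcongr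
      _ = (Nat.factorial 12 : ℝ) := by
          rw [← mul_assoc, ← Real.exp_add, neg_add_cancel, Real.exp_zero, one_mul]
  set Q : ℝ := (1 + h) / q * A.G V with hQ
  have hQ0 : 0 ≤ Q := by positivity
  have hGQ : A.G V / q ≤ Q := by
    rw [hQ, div_mul_eq_mul_div]
    have : A.G V ≤ (1 + h) * A.G V := by nlinarith
    gcongr
  set B : ℝ := V + h + N with hBd
  have hfar : A.G (B - D) / A.be ≤ Real.exp D * (Nat.factorial 12 : ℝ) * Q := by
    have e1 : B - D = V + (h + N - D) := by rw [hBd]; ring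
    rw [e1, G_shift]
    have h1 : Real.exp (-(A.be * (h + N - D))) ≤ Real.exp D * Real.exp (-u) := by
      rw [← Real.exp_add]
      refine Real.exp_le_exp.2 ?_
      have h2 : 0 ≤ A.be * h := by positivity
      have h3 : A.be * D ≤ 1 * D := by gcongr
      nlinarith
    calc A.G V * Real.exp (-(A.be * (h + N - D))) / A.be
        = A.G V * (Real.exp (-(A.be * (h + N - D))) * (1 / A.be)) := by ring
      _ ≤ A.G V * ((Real.exp D * Real.exp (-u)) * u ^ 9) := by gcongr
      _ = Real.exp D * (A.G V * (Real.exp (-u) * u ^ 9)) := by ring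
      _ ≤ Real.exp D * (A.G V * ((Nat.factorial 12 : ℝ) / q)) := by gcongr
      _ = Real.exp D * (Nat.factorial 12 : ℝ) * (A.G V / q) := by ring
      _ ≤ _ := by gcongr
  -- the sets
  set μ := un x T with hμ
  set P := (Finset.range A.J).powerset with hP
  set E1 : Set ℝ := {t | t ∈ Icc (T ^ (19 / 20 : ℝ)) (x + T) ∧
      Real.exp V < ‖riemannZeta (1 / 2 + I * t)‖ ∧
      ∃ s ⊆ Finset.range A.J, A.Good s (om t) ∧ A.Bad s (om t) ∧ A.X s (om t) ≤ V - 10 * Real.log N}
    with hE1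
  set E2 : Set ℝ := {t | ∃ s ⊆ Finset.range A.J, s.Nonempty ∧ A.Good s (om t) ∧ A.Bad s (om t) ∧
      V - 10 * Real.log N < A.X s (om t) ∧ A.X s (om t) ≤ B} with hE2
  set E3 : Finset ℕ → Set ℝ := fun s => {t | A.Good s (om t) ∧ A.Bad s (om t) ∧ B < A.X s (om t)}
    with hE3
  have cov : {t | t ∈ Ev x T V h ∧ ¬ Perf A N V h t} ⊆ E1 ∪ (E2 ∪ ⋃ s ∈ P, E3 s) := by
    rintro t ⟨⟨hI, hz1, -⟩, hnp⟩
    set s : Finset ℕ := (Finset.range A.J).filter fun g => RR (A.r g) < ‖A.P g (om t)‖ with hs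
    have hsP : s ∈ P := Finset.mem_powerset.2 (Finset.filter_subset _ _)
    have hsr : s ⊆ Finset.range A.J := Finset.filter_subset _ _
    have hgood : A.Good s (om t) := by
      intro g hg
      rw [Finset.mem_sdiff, hs, Finset.mem_filter, not_and, not_lt] at hg
      exact hg.2 hg.1
    have hbad : A.Bad s (om t) := by
      intro g hg
      rw [hs, Finset.mem_filter] at hg
      exact hg.2
    rcases le_or_gt (A.X s (om t)) (V - 10 * Real.log N) with hX | hX
    · exact Or.inl ⟨hI, hz1, s, hsr, hgood, hbad, hX⟩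
    · rcases le_or_gt (A.X s (om t)) B with hX2 | hX2
      · refine Or.inr (Or.inl ⟨s, hsr, ?_, hgood, hbad, hX, hX2⟩)
        by_contra hne
        rw [Finset.not_nonempty_iff_eq_empty] at hne
        rw [hne] at hgood hX hX2
        exact hnp ⟨hgood, hX, hX2⟩
      · refine Or.inr (Or.inr ?_)
        simp only [Set.mem_iUnion]
        exact ⟨s, hsP, hgood, hbad, hX2⟩
  have b1 : μ E1 ≤ ENNReal.ofReal (C1 * Q) := by
    refine (hL A T N hSp n1 t1 x V hx).trans (ENNReal.ofReal_le_ofReal ?_)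
    calc C1 / N * A.G V ≤ C1 / q * A.G V := by gcongr
      _ = C1 * (A.G V / q) := by ring
      _ ≤ C1 * Q := by gcongr
  have b2 : μ E2 ≤ ENNReal.ofReal (2 * C2 * Q) := by
    refine (hB A T N hSp n2 t2 x V B (by rw [hBd]; linarith)).trans (ENNReal.ofReal_le_ofReal ?_)
    have e1 : B - V + N = h + 2 * N := by rw [hBd]; ring
    rw [e1]
    have h1 : h + 2 * N ≤ 2 * ((1 + h) * N) := by nlinarith
    calc C2 * (h + 2 * N) / N ^ 4 * A.G V ≤ C2 * (2 * ((1 + h) * N)) / N ^ 4 * A.G V := by gcongr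
      _ = 2 * C2 * ((1 + h) / N ^ 3 * A.G V) := by
          field_simp
      _ ≤ 2 * C2 * ((1 + h) / q * A.G V) := by
          have h2 : q ≤ N ^ 3 := hqN.trans (le_self_pow₀ hN1' (by norm_num))
          gcongr
      _ = _ := by rw [hQ]
  have b3 : μ (⋃ s ∈ P, E3 s) ≤ ENNReal.ofReal (C3 * c * Q) := by
    refine (measure_biUnion_finset_le _ _).trans ?_
    refine (Finset.sum_le_sum fun s hs => hF A hA hv hSp.hb T t3 hLen s
      (Finset.mem_powerset.1 hs) x B).trans ?_
    have hr0 : 0 ≤ A.G (B - D) / A.be := div_nonneg (hA.G_pos _).le hbe.le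
    rw [← ENNReal.ofReal_sum_of_nonneg (fun s _ => by positivity)]
    refine ENNReal.ofReal_le_ofReal ?_
    rw [← Finset.sum_mul, ← Finset.mul_sum]
    have hs1 := sum_sets A.J (fun g => (A.r g : ℝ)) ((hG A hA).2.2.2.2.2.1.trans (by
      have : Real.exp (-(A.v : ℝ)) ≤ 1 := Real.exp_le_one_iff.2 (by simp)
      linarith))
    calc C3 * (∑ s ∈ P, Real.exp (-∑ g ∈ s, (A.r g : ℝ))) * (A.G (B - D) / A.be)
        ≤ C3 * Real.exp 2 * (Real.exp D * (Nat.factorial 12 : ℝ) * Q) := by gcongr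
      _ = C3 * c * Q := by rw [hc]; ring
  calc μ {t | t ∈ Ev x T V h ∧ ¬ Perf A N V h t} ≤ μ (E1 ∪ (E2 ∪ ⋃ s ∈ P, E3 s)) :=
        measure_mono cov
    _ ≤ μ E1 + (μ E2 + μ (⋃ s ∈ P, E3 s)) :=
        (measure_union_le _ _).trans (add_le_add le_rfl (measure_union_le _ _))
    _ ≤ ENNReal.ofReal (C1 * Q) + (ENNReal.ofReal (2 * C2 * Q) + ENNReal.ofReal (C3 * c * Q)) :=
        add_le_add b1 (add_le_add b2 b3)
    _ = ENNReal.ofReal ((C1 + 2 * C2 + C3 * c) * (1 + h) / q * A.G V) := by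
        rw [← ENNReal.ofReal_add (by positivity) (by positivity),
          ← ENNReal.ofReal_add (by positivity) (by positivity)]
        congr 1
        rw [hQ]
        ring

end Pool.Agent.Lib.LC
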