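import Pool.Agent.Lib.MP_f9aece_nt_loc.Stmts
import Pool.Agent.Lib.MP_f9aece_nt_gt.G2

/-! Module E8: existence of the parameters. -/

set_option autoImplicit false

namespace Pool.Agent.Lib.LC

open MeasureTheory Set Filter Topology Complex
open Pool.Agent.Lib.GT

namespace SX

lemma log_le_sqrt {x : ℝ} (hx : 0 < x) : Real.log x ≤ 2 * Real.sqrt x := by
  have h1 : Real.log x = 2 * Real.log (Real.sqrt x) := by
    rw [Real.log_sqrt hx.le]; ring
  have h2 := Real.log_le_sub_one_of_pos (Real.sqrt_pos.2 hx)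
  rw [h1]
  linarith

end SX

open SX in
/-- E8: existence of the parameters -/
theorem specEx (hV : GT.Variance') : SpecEx := by
  obtain ⟨C, hC, hV⟩ := hV
  refine ⟨(100 + 2 * C) ^ 2, by nlinarith, ?_⟩
  intro N hN T hT hT2
  have hq : 100 + 2 * C ≤ Real.sqrt N := Real.le_sqrt_of_sq_le hN
  have hN0 : 0 < N := lt_of_lt_of_le (by positivity) hN
  set q : ℝ := Real.sqrt N with hqdef
  have hq2 : q ^ 2 = N := Real.sq_sqrt hN0.le
  have hq100 : 100 ≤ q := by linarith
  have hN4 : 10 ^ 4 ≤ N := by nlinarith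
  have hlogq := log_le_sqrt hN0
  rw [← hqdef] at hlogq
  have hlogN : 9 ≤ Real.log N := by
    rw [Real.le_log_iff_exp_le hN0]
    have h1 := Real.exp_one_lt_d9
    have h2 : Real.exp 9 = Real.exp 1 ^ 9 := by rw [← Real.exp_nat_mul]; norm_num
    rw [h2]
    calc Real.exp 1 ^ 9 ≤ 2.7182818286 ^ 9 := by gcongr
      _ ≤ 10 ^ 4 := by norm_num
      _ ≤ N := hN4
  set L : ℝ := Real.log T with hL
  have hN12 : N ≤ N ^ 12 := by
    calc N = N ^ 1 := (pow_one N).symm
      _ ≤ N ^ 12 := pow_le_pow_right₀ (by linarith) (by norm_num)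
  have hL0 : 0 < L := by linarith
  set v : ℕ := ⌈5 * Real.log N⌉₊ with hv
  set p0 : ℕ := ⌈N ^ 4⌉₊ with hp0
  have hv1 : 5 * Real.log N ≤ v := Nat.le_ceil _
  have hv2 : (v : ℝ) ≤ 6 * Real.log N := by
    have := (Nat.ceil_lt_add_one (show 0 ≤ 5 * Real.log N by positivity)).le
    linarith
  have hp1 : N ^ 4 ≤ p0 := Nat.le_ceil _
  have hN4p : (10 ^ 4) ^ 4 ≤ N ^ 4 := by gcongr
  have hp2 : (p0 : ℝ) ≤ 2 * N ^ 4 := by
    have := (Nat.ceil_lt_add_one (show 0 ≤ N ^ 4 by positivity)).le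
    linarith
  have hv45 : (45 : ℝ) ≤ v := by linarith
  have hv4 : 4 ≤ v := by exact_mod_cast (show (4 : ℝ) ≤ v by linarith)
  have hp1000 : 1000 ≤ p0 := by
    have : (1000 : ℝ) ≤ p0 := by
      refine le_trans ?_ hp1
      refine le_trans (by norm_num) hN4p
    exact_mod_cast this
  set Y : ℝ := L / (10 ^ 11 * v) with hY
  have hv0 : (0 : ℝ) < v := by linarith
  have hvq : (v : ℝ) ≤ 12 * q := by linarith
  have hY1 : 1 ≤ Y := by
    rw [hY, one_le_div (by positivity)]
    have h3 : N ^ 12 = q ^ 24 := by rw [← hq2]; ring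
    have h4 : (10 : ℝ) ^ 11 * (12 * q) ≤ q ^ 24 := by
      calc (10 : ℝ) ^ 11 * (12 * q) ≤ 100 ^ 23 * q := by nlinarith
        _ ≤ q ^ 23 * q := by gcongr
        _ = q ^ 24 := by ring
    calc (10 : ℝ) ^ 11 * v ≤ 10 ^ 11 * (12 * q) := by gcongr
      _ ≤ q ^ 24 := h4
      _ = N ^ 12 := h3.symm
      _ ≤ L := hT
  obtain ⟨J, hJ⟩ := Pool.Agent.Lib.J4.existsJ v p0 (by omega) (by omega) Y (by linarith)
  set lam : ℝ := N ^ (1 / 2 : ℝ) / L with hlam
  have hNq : N ^ (1 / 2 : ℝ) = q := by rw [hqdef, Real.sqrt_eq_rpow]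
  have hlam0 : 0 ≤ lam := by positivity
  have hqN : q ≤ N := by nlinarith
  have hlam1 : lam ≤ 1 := by
    rw [hlam, hNq, div_le_one hL0]
    linarith
  have hlamY : lam * Y ≤ q := by
    have h5 : lam * Y = q / (10 ^ 11 * v) := by
      rw [hlam, hY, hNq]
      field_simp
    rw [h5]
    exact div_le_self (by linarith) (by nlinarith)
  refine ⟨⟨v, p0, J, Y, lam, 1 / 10 ^ 4, 1 / 20⟩, ?_⟩
  intro be hbe hbe1
  have hvar := hV ⟨v, p0, J, Y, lam, be, 1 / 20⟩ hv4 hp1000 hY1 hJ hlam0 hlam1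
  have hs : 1 ≤ Par.s2 ⟨v, p0, J, Y, lam, be, 1 / 20⟩ := by
    rw [Par.s2]
    have h6 := (abs_le.1 hvar).1
    dsimp only at h6
    have h7 : Real.log Y = Real.log L - Real.log (10 ^ 11 * v) := by
      rw [hY, Real.log_div hL0.ne' (by positivity)]
    have h8 : Real.log (10 ^ 11 * (v : ℝ)) ≤ 33 + 12 * q := by
      rw [Real.log_mul (by positivity) hv0.ne', Real.log_pow]
      have h9 := Real.log_le_sub_one_of_pos hv0
      have h10 : Real.log 10 ≤ 3 := by
        rw [Real.log_le_iff_le_exp (by norm_num)]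
        have h1 := Real.exp_one_gt_d9
        have h2 : Real.exp 3 = Real.exp 1 ^ 3 := by rw [← Real.exp_nat_mul]; norm_num
        rw [h2]
        calc (10 : ℝ) ≤ 2.7182818283 ^ 3 := by norm_num
          _ ≤ Real.exp 1 ^ 3 := by gcongr
      push_cast
      linarith
    have h11 : Real.log p0 ≤ 1 + 8 * q := by
      have h12 : Real.log p0 ≤ Real.log (2 * N ^ 4) :=
        Real.log_le_log (by exact_mod_cast (show 0 < p0 by omega)) hp2
      rw [Real.log_mul (by norm_num) (by positivity), Real.log_pow] at h12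
      have h13 := Real.log_two_lt_d9
      push_cast at h12
      linarith
    have h14 : C * (lam * Y) ≤ C * q := by gcongr
    have h15 : (Par.vt ⟨v, p0, J, Y, lam, be, 1 / 20⟩) ≥ q ^ 2 - (33 + 12 * q) - C - (1 + 8 * q)
        - C * q := by
      have : N ≤ Real.log L := hT2
      rw [hq2]
      linarith
    have h16 : 2 ≤ q ^ 2 - (33 + 12 * q) - C - (1 + 8 * q) - C * q := by
      nlinarith [mul_le_mul_of_nonneg_left hq (show 0 ≤ q by linarith), mul_nonneg hC hC]
    linarith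
  exact
    { ok :=
        { hv := hv4
          hp := hp1000
          hY := hY1
          hJ := hJ
          hl := hlam0
          hl1 := hlam1
          hbe := hbe
          hbb := hbe1.trans (by norm_num)
          hb := le_rfl
          hs := hs }
      hb := rfl
      hv1 := hv1
      hv2 := hv2
      hp1 := hp1
      hp2 := hp2
      hl := rfl
      hY := rfl
      hN := hT
      hbe := hbe1 }

end Pool.Agent.Lib.LC
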