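import Mathlib
import Pool.Agent.Lib.MP_f9aece_nt_loc.Stmts

/-!
The law of `log |zeta|` at bounded scale: module E9, all the levels.
-/

set_option autoImplicit false

namespace Pool.Agent.Lib.LC

open MeasureTheory Set Filter Topology Complex ProbabilityTheory
open scoped ComplexConjugate
open Pool.Agent.Lib.GT

namespace E9

/-- the sizes of the levels -/
noncomputable def NN (N : ℝ) (j : ℕ) : ℝ := N ^ ((3 / 2 : ℝ) ^ j)

lemma NN_zero (N : ℝ) : NN N 0 = N := by simp [NN]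

lemma NN_succ {N : ℝ} (hN : 0 ≤ N) (j : ℕ) : NN N (j + 1) = NN N j ^ (3 / 2 : ℝ) := by
  unfold NN
  rw [← Real.rpow_mul hN, pow_succ]

lemma bern (j : ℕ) : 1 + (j : ℝ) / 2 ≤ (3 / 2 : ℝ) ^ j := by
  induction j with
  | zero => simp
  | succ j ih =>
    rw [pow_succ]
    push_cast
    have : (0 : ℝ) ≤ j := Nat.cast_nonneg j
    nlinarith

lemma NN_ge {N : ℝ} (hN : 256 ≤ N) (j : ℕ) : N * 16 ^ j ≤ NN N j := by
  have h0 : 0 < N := by linarith
  have h1 : (1 : ℝ) ≤ N := by linarith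
  calc N * 16 ^ j ≤ N * (N ^ (1 / 2 : ℝ)) ^ j := by
        have h2 : (16 : ℝ) ≤ N ^ (1 / 2 : ℝ) := by
          have : (16 : ℝ) = 256 ^ (1 / 2 : ℝ) := by
            rw [show (256 : ℝ) = 16 ^ (2 : ℝ) by norm_num, ← Real.rpow_mul (by norm_num)]
            norm_num
          rw [this]
          exact Real.rpow_le_rpow (by norm_num) hN (by norm_num)
        gcongr
    _ = N ^ (1 + (j : ℝ) / 2) := by
        rw [← Real.rpow_natCast, ← Real.rpow_mul h0.le, Real.rpow_add h0, Real.rpow_one]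
        congr 2
        ring
    _ ≤ NN N j := Real.rpow_le_rpow_of_exponent_le h1 (bern j)

/-- the sizes of the windows of two sets of parameters with the same tilt -/
lemma G_cmp {A B : Par} (hbe : B.be = A.be) (h1 : B.s2 ≤ A.s2) (h2 : A.s2 ≤ 4 * B.s2) (h3 : 0 < B.s2)
    (V : ℝ) : B.G V ≤ 2 * A.G V := by
  have hA : 0 < A.s2 := h3.trans_le h1
  unfold Par.G
  rw [hbe]
  have e1 : 1 / Real.sqrt B.s2 ≤ 2 * (1 / Real.sqrt A.s2) := by
    have e2 : Real.sqrt A.s2 ≤ 2 * Real.sqrt B.s2 := by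
      calc Real.sqrt A.s2 ≤ Real.sqrt (4 * B.s2) := Real.sqrt_le_sqrt h2
        _ = 2 * Real.sqrt B.s2 := by
            rw [Real.sqrt_mul (by norm_num), show (4 : ℝ) = 2 ^ 2 by norm_num,
              Real.sqrt_sq (by norm_num)]
    have e3 : 0 < Real.sqrt A.s2 := Real.sqrt_pos.2 hA
    have e4 : 0 < Real.sqrt B.s2 := Real.sqrt_pos.2 h3
    rw [mul_one_div, div_le_div_iff₀ e4 e3]
    linarith
  have e5 : Real.exp (-(A.be * V) + A.be ^ 2 * B.s2 / 2)
      ≤ Real.exp (-(A.be * V) + A.be ^ 2 * A.s2 / 2) := by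
    refine Real.exp_le_exp.2 ?_
    have : A.be ^ 2 * B.s2 ≤ A.be ^ 2 * A.s2 := mul_le_mul_of_nonneg_left h1 (sq_nonneg _)
    linarith
  calc 1 / Real.sqrt B.s2 * Real.exp (-(A.be * V) + A.be ^ 2 * B.s2 / 2)
      ≤ (2 * (1 / Real.sqrt A.s2)) * Real.exp (-(A.be * V) + A.be ^ 2 * A.s2 / 2) := by gcongr
    _ = _ := by ring

/-- the induction over the levels -/
lemma chain {μ : Measure ℝ} {E : Set ℝ} {P : ℕ → ℝ → Prop} {a : ℕ → ℝ} {τ : ℝ} {m : ℕ} (hτ : 0 ≤ τ)
    (ha : ∀ j, j ≤ m → 0 ≤ a j) (htop : μ {t | t ∈ E ∧ ¬ P m t} ≤ ENNReal.ofReal (a m))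
    (hstep : ∀ j, j < m → μ {t | t ∈ E ∧ P (j + 1) t ∧ ¬ P j t} ≤ ENNReal.ofReal (a j + τ)) :
    ∀ k, k ≤ m → μ {t | t ∈ E ∧ ¬ P (m - k) t}
      ≤ ENNReal.ofReal (∑ j ∈ Finset.Icc (m - k) m, a j + k * τ) := by
  intro k
  induction k with
  | zero =>
    intro _
    simpa using htop
  | succ k ih =>
    intro hk
    have ih := ih (by omega)
    have e1 : m - k = (m - (k + 1)) + 1 := by omega
    have hs := hstep (m - (k + 1)) (by omega)
    have hsub : {t | t ∈ E ∧ ¬ P (m - (k + 1)) t} ⊆ {t | t ∈ E ∧ ¬ P (m - k) t} ∪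
        {t | t ∈ E ∧ P (m - (k + 1) + 1) t ∧ ¬ P (m - (k + 1)) t} := by
      intro t ht
      by_cases h : P (m - k) t
      · right
        refine ⟨ht.1, ?_, ht.2⟩
        rwa [← e1]
      · exact Or.inl ⟨ht.1, h⟩
    have hsum : ∑ j ∈ Finset.Icc (m - (k + 1)) m, a j
        = a (m - (k + 1)) + ∑ j ∈ Finset.Icc (m - k) m, a j := by
      have e2 : Finset.Icc (m - (k + 1)) m = insert (m - (k + 1)) (Finset.Icc (m - k) m) := by
        ext j
        simp only [Finset.mem_Icc, Finset.mem_insert]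
        omega
      rw [e2, Finset.sum_insert (by simp only [Finset.mem_Icc]; omega)]
    have h0 : 0 ≤ ∑ j ∈ Finset.Icc (m - k) m, a j :=
      Finset.sum_nonneg fun j hj => ha j (Finset.mem_Icc.1 hj).2
    calc μ {t | t ∈ E ∧ ¬ P (m - (k + 1)) t}
        ≤ μ ({t | t ∈ E ∧ ¬ P (m - k) t} ∪
          {t | t ∈ E ∧ P (m - (k + 1) + 1) t ∧ ¬ P (m - (k + 1)) t}) := measure_mono hsub
      _ ≤ μ {t | t ∈ E ∧ ¬ P (m - k) t} +
          μ {t | t ∈ E ∧ P (m - (k + 1) + 1) t ∧ ¬ P (m - (k + 1)) t} := measure_union_le _ _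
      _ ≤ ENNReal.ofReal (∑ j ∈ Finset.Icc (m - k) m, a j + k * τ)
          + ENNReal.ofReal (a (m - (k + 1)) + τ) := add_le_add ih hs
      _ = ENNReal.ofReal (∑ j ∈ Finset.Icc (m - (k + 1)) m, a j + (k + 1 : ℕ) * τ) := by
          rw [← ENNReal.ofReal_add (by positivity) (by
            have := ha (m - (k + 1)) (by omega)
            linarith), hsum]
          congr 1
          push_cast
          ring

/-- the sum of the sizes -/
lemma sum_NN {N : ℝ} (hN : 256 ≤ N) (m : ℕ) :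
    ∑ j ∈ Finset.Icc 0 m, 1 / NN N j ^ (1 / 4 : ℝ) ≤ 2 / N ^ (1 / 4 : ℝ) := by
  have h0 : 0 < N := by linarith
  have hq : 0 < N ^ (1 / 4 : ℝ) := by positivity
  have h1 : ∀ j : ℕ, 1 / NN N j ^ (1 / 4 : ℝ) ≤ 1 / N ^ (1 / 4 : ℝ) * (1 / 2) ^ j := by
    intro j
    have h2 := NN_ge hN j
    have h3 : N ^ (1 / 4 : ℝ) * 2 ^ j ≤ NN N j ^ (1 / 4 : ℝ) := by
      have e : N ^ (1 / 4 : ℝ) * 2 ^ j = (N * 16 ^ j) ^ (1 / 4 : ℝ) := by
        rw [Real.mul_rpow h0.le (by positivity)]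
        congr 1
        rw [← Real.rpow_natCast 16 j, ← Real.rpow_mul (by norm_num),
          show (16 : ℝ) = 2 ^ (4 : ℝ) by norm_num, ← Real.rpow_mul (by norm_num), ← Real.rpow_natCast]
        congr 1
        ring
      rw [e]
      exact Real.rpow_le_rpow (by positivity) h2 (by norm_num)
    calc 1 / NN N j ^ (1 / 4 : ℝ) ≤ 1 / (N ^ (1 / 4 : ℝ) * 2 ^ j) :=
          one_div_le_one_div_of_le (by positivity) h3
      _ = _ := by
          rw [one_div_pow]
          field_simp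
  have hgeo : ∀ n : ℕ, ∑ j ∈ Finset.range n, (1 / 2 : ℝ) ^ j ≤ 2 := by
    intro n
    have h : ∑ j ∈ Finset.range n, (1 / 2 : ℝ) ^ j = 2 - 2 * (1 / 2) ^ n := by
      induction n with
      | zero => simp
      | succ n ih =>
        rw [Finset.sum_range_succ, ih, pow_succ]
        ring
    rw [h]
    have : (0 : ℝ) ≤ (1 / 2) ^ n := by positivity
    linarith
  have hr : Finset.Icc 0 m = Finset.range (m + 1) := by
    ext j
    rw [Finset.mem_Icc, Finset.mem_range]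
    omega
  rw [hr]
  calc ∑ j ∈ Finset.range (m + 1), 1 / NN N j ^ (1 / 4 : ℝ)
      ≤ ∑ j ∈ Finset.range (m + 1), 1 / N ^ (1 / 4 : ℝ) * (1 / 2) ^ j :=
        Finset.sum_le_sum fun j _ => h1 j
    _ = 1 / N ^ (1 / 4 : ℝ) * ∑ j ∈ Finset.range (m + 1), (1 / 2 : ℝ) ^ j := by
        rw [Finset.mul_sum]
    _ ≤ 1 / N ^ (1 / 4 : ℝ) * 2 := by
        have := hgeo (m + 1)
        gcongr
    _ = _ := by ring

/-- the last level -/
lemma last {N l : ℝ} (hN : 256 ≤ N) (hl : N ^ 2 < l) : ∃ m : ℕ, l ≤ NN N m ^ (9 / 5 : ℝ) ∧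
    (∀ j, j ≤ m → NN N j ≤ l ^ (5 / 6 : ℝ)) ∧ 4 * (m : ℝ) ≤ l := by
  have h0 : 0 < N := by linarith
  have h1 : (1 : ℝ) ≤ N := by linarith
  have hl1 : 1 < l := by nlinarith
  have hge1 : ∀ j, 1 ≤ NN N j := fun j => by
    have := NN_ge hN j
    have h16 : (1 : ℝ) ≤ 16 ^ j := one_le_pow₀ (by norm_num)
    nlinarith
  have hmono : Monotone (NN N) := by
    refine monotone_nat_of_le_succ fun j => ?_
    rw [NN_succ h0.le]
    calc NN N j = NN N j ^ (1 : ℝ) := (Real.rpow_one _).symm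
      _ ≤ NN N j ^ (3 / 2 : ℝ) := Real.rpow_le_rpow_of_exponent_le (hge1 j) (by norm_num)
  have hself : ∀ j, NN N j ≤ NN N j ^ (9 / 5 : ℝ) := fun j => by
    calc NN N j = NN N j ^ (1 : ℝ) := (Real.rpow_one _).symm
      _ ≤ NN N j ^ (9 / 5 : ℝ) := Real.rpow_le_rpow_of_exponent_le (hge1 j) (by norm_num)
  have hex : ∃ j, l ≤ NN N j ^ (9 / 5 : ℝ) := by
    obtain ⟨j, hj⟩ := pow_unbounded_of_one_lt l (show (1 : ℝ) < 16 by norm_num)
    refine ⟨j, ?_⟩
    have h2 := NN_ge hN j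
    have h16 : (0 : ℝ) < 16 ^ j := by positivity
    have h3 := hself j
    nlinarith
  have hm := Nat.find_spec hex
  have hmin : ∀ j, j < Nat.find hex → NN N j ^ (9 / 5 : ℝ) < l := fun j hj =>
    not_le.1 (Nat.find_min hex hj)
  generalize Nat.find hex = m at hm hmin
  have hm0 : m ≠ 0 := by
    rintro rfl
    rw [NN_zero] at hm
    have : N ^ (9 / 5 : ℝ) ≤ N ^ 2 := by
      rw [← Real.rpow_natCast N 2]
      exact Real.rpow_le_rpow_of_exponent_le h1 (by norm_num)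
    linarith
  obtain ⟨n, rfl⟩ := Nat.exists_eq_succ_of_ne_zero hm0
  have h2 := hmin n (Nat.lt_succ_self n)
  have hn0 : 0 < NN N n := by linarith [hge1 n]
  have h3 : NN N (n + 1) ≤ l ^ (5 / 6 : ℝ) := by
    rw [NN_succ h0.le]
    have e : NN N n ^ (3 / 2 : ℝ) = (NN N n ^ (9 / 5 : ℝ)) ^ (5 / 6 : ℝ) := by
      rw [← Real.rpow_mul hn0.le]
      norm_num
    rw [e]
    exact Real.rpow_le_rpow (by positivity) h2.le (by norm_num)
  refine ⟨n + 1, hm, fun j hj => (hmono hj).trans h3, ?_⟩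
  have h4 := NN_ge hN n
  have h5 := hself n
  have h6 : 1 + (n : ℝ) * 15 ≤ 16 ^ n := by
    have := one_add_mul_le_pow (show (-2 : ℝ) ≤ 15 by norm_num) n
    norm_num at this
    linarith
  have h7 : (0 : ℝ) ≤ n := Nat.cast_nonneg n
  push_cast
  nlinarith

end E9

open E9

set_option maxHeartbeats 4000000 in
/-- E9 -/
theorem levels (hS : LevelStep) (hT : LevelTop) (hE : SpecEx) (hN : SpecNum) (hL : SpecLin) : Levels := by
  obtain ⟨C1, N1, T1, hC1, hN1, hT1, H1⟩ := hS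
  obtain ⟨C2, N2, T2, hC2, hN2, hT2, H2⟩ := hT
  obtain ⟨N3, hN3, H3⟩ := hE
  obtain ⟨C4, N4, hC4, hN4, H4⟩ := hN
  obtain ⟨C5, N5, hC5, hN5, H5⟩ := hL
  refine ⟨4 * (C1 + C2), max 256 (max N1 (max N2 (max N3 (max N4 N5)))), by linarith,
    (by norm_num : (1 : ℝ) ≤ 256).trans (le_max_left _ _), fun N hN => ?_⟩
  have hN256 : 256 ≤ N := (le_max_left _ _).trans hN
  have hN' := (le_max_right _ _).trans hN
  have hNN1 : N1 ≤ N := (le_max_left _ _).trans hN'
  have hN' := (le_max_right _ _).trans hN'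
  have hNN2 : N2 ≤ N := (le_max_left _ _).trans hN'
  have hN' := (le_max_right _ _).trans hN'
  have hNN3 : N3 ≤ N := (le_max_left _ _).trans hN'
  have hN' := (le_max_right _ _).trans hN'
  have hNN4 : N4 ≤ N := (le_max_left _ _).trans hN'
  have hNN5 : N5 ≤ N := (le_max_right _ _).trans hN'
  have hN0 : 0 < N := by linarith
  obtain ⟨l0, hl0⟩ : ∃ l0 : ℝ, ∀ l : ℝ, l0 ≤ l → l ^ 10 ≤ Real.exp l := by
    have h := (Real.tendsto_pow_mul_exp_neg_atTop_nhds_zero 10).eventually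
      (gt_mem_nhds (show (0 : ℝ) < 1 by norm_num))
    obtain ⟨l0, h⟩ := eventually_atTop.1 h
    refine ⟨l0, fun l hl => ?_⟩
    have h1 := h l hl
    rw [Real.exp_neg] at h1
    have h2 := Real.exp_pos l
    have h3 : l ^ 10 < Real.exp l := by
      rwa [← div_eq_mul_inv, div_lt_one h2] at h1
    exact h3.le
  set lm : ℝ := max (N ^ 2 + 1) (max l0 (64 * C4 ^ 2)) with hlm
  refine ⟨max (max T1 T2) (Real.exp (Real.exp lm)),
    hT1.trans ((le_max_left _ _).trans (le_max_left _ _)), ?_⟩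
  intro A T hA hT0 hbe x V h hx hh
  have hTT1 : T1 ≤ T := ((le_max_left _ _).trans (le_max_left _ _)).trans hT0
  have hTT2 : T2 ≤ T := ((le_max_right _ _).trans (le_max_left _ _)).trans hT0
  have hTe : Real.exp (Real.exp lm) ≤ T := (le_max_right _ _).trans hT0
  have hTp : 0 < T := (Real.exp_pos _).trans_le hTe
  have hLe : Real.exp lm ≤ Real.log T := (Real.le_log_iff_exp_le hTp).2 hTe
  have hLp : 0 < Real.log T := (Real.exp_pos _).trans_le hLe
  have hle : lm ≤ Real.log (Real.log T) := (Real.le_log_iff_exp_le hLp).2 hLe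
  set l : ℝ := Real.log (Real.log T) with hl
  have hlN : N ^ 2 < l := by
    have := (le_max_left (N ^ 2 + 1) _).trans hle
    linarith
  have hl0' : l ^ 10 ≤ Real.log T := by
    have h1 := hl0 l (((le_max_left l0 (64 * C4 ^ 2)).trans (le_max_right (N ^ 2 + 1) _)).trans hle)
    rwa [hl, Real.exp_log hLp] at h1
  have hlC : 64 * C4 ^ 2 ≤ l :=
    ((le_max_right l0 (64 * C4 ^ 2)).trans (le_max_right (N ^ 2 + 1) _)).trans hle
  have hl1 : 1 < l := by nlinarith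
  have hlp : 0 < l := by linarith
  obtain ⟨m, hm1, hm2, hm3⟩ := last hN256 hlN
  have hNge : ∀ j, N ≤ NN N j := fun j => by
    have := NN_ge hN256 j
    have h16 : (1 : ℝ) ≤ 16 ^ j := one_le_pow₀ (by norm_num)
    nlinarith
  have hNl : ∀ j, j ≤ m → NN N j ≤ l := fun j hj => by
    refine (hm2 j hj).trans ?_
    calc l ^ (5 / 6 : ℝ) ≤ l ^ (1 : ℝ) := Real.rpow_le_rpow_of_exponent_le hl1.le (by norm_num)
      _ = l := Real.rpow_one _
  have hN12 : ∀ j, j ≤ m → NN N j ^ 12 ≤ Real.log T := fun j hj => by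
    have h0 : 0 ≤ NN N j := hN0.le.trans (hNge j)
    calc NN N j ^ 12 ≤ (l ^ (5 / 6 : ℝ)) ^ 12 := pow_le_pow_left₀ h0 (hm2 j hj) 12
      _ = l ^ 10 := by
          rw [← Real.rpow_natCast, ← Real.rpow_mul hlp.le, ← Real.rpow_natCast]
          norm_num
      _ ≤ Real.log T := hl0'
  -- the parameters
  have hex : ∀ j : ℕ, ∃ B : Par, (j ≤ m → Spec B T (NN N j) ∧ B.be = A.be) ∧ (j = 0 → B = A) := by
    intro j
    rcases Nat.eq_zero_or_pos j with rfl | hj
    · refine ⟨A, fun _ => ⟨?_, rfl⟩, fun _ => rfl⟩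
      rw [NN_zero]
      exact hA
    · by_cases hjm : j ≤ m
      · obtain ⟨B, hB⟩ := H3 (NN N j) (hNN3.trans (hNge j)) T (hN12 j hjm) (hNl j hjm)
        exact ⟨{ B with be := A.be }, fun _ => ⟨hB A.be hA.ok.hbe hA.hbe, rfl⟩, fun h => by omega⟩
      · exact ⟨A, fun h => absurd h hjm, fun h => by omega⟩
  choose B hB hB0 using hex
  have hvt : ∀ j, j ≤ m → (B j).vt ≤ A.vt := by
    intro j
    induction j with
    | zero => intro _; rw [hB0 0 rfl]
    | succ j ih =>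
      intro hj
      have h1 := (hB j (by omega)).1
      have h2 := (hB (j + 1) hj).1
      rw [NN_succ hN0.le] at h2
      exact ((H5 (B j) (B (j + 1)) T (NN N j) h1 h2 (hNN5.trans (hNge j))).1).trans (ih (by omega))
  have hvl : ∀ j, j ≤ m → |(B j).vt - l| ≤ l / 8 := by
    intro j hj
    have h1 := (H4 (B j) T (NN N j) (hB j hj).1 (hNN4.trans (hNge j))).2.2.2.2.2.2.2.2
    refine h1.trans ?_
    have h2 : NN N j ^ (1 / 2 : ℝ) ≤ Real.sqrt l := by
      rw [Real.sqrt_eq_rpow]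
      exact Real.rpow_le_rpow (hN0.le.trans (hNge j)) (hNl j hj) (by norm_num)
    have h3 : 8 * C4 ≤ Real.sqrt l := by
      refine Real.le_sqrt_of_sq_le ?_
      linarith
    have h4 : Real.sqrt l * Real.sqrt l = l := Real.mul_self_sqrt hlp.le
    have h5 : 0 ≤ Real.sqrt l := Real.sqrt_nonneg l
    calc C4 * NN N j ^ (1 / 2 : ℝ) ≤ C4 * Real.sqrt l := by gcongr
      _ ≤ Real.sqrt l / 8 * Real.sqrt l := by
          have : C4 ≤ Real.sqrt l / 8 := by linarith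
          exact mul_le_mul_of_nonneg_right this h5
      _ = l / 8 := by rw [div_mul_eq_mul_div, h4]
  have hG : ∀ j, j ≤ m → (B j).G V ≤ 2 * A.G V := by
    intro j hj
    have h1 := abs_le.1 (hvl j hj)
    have h0 := abs_le.1 (hvl 0 (Nat.zero_le m))
    rw [hB0 0 rfl] at h0
    refine G_cmp (hB j hj).2 ?_ ?_ ?_ V
    · unfold Par.s2
      linarith [hvt j hj]
    · unfold Par.s2
      linarith [h1.1, h0.2]
    · unfold Par.s2
      linarith [h1.1]
  have hGA : 0 ≤ A.G V := by unfold Par.G; positivity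
  have hG0 : ∀ j, 0 ≤ (B j).G V := fun j => by unfold Par.G; positivity
  set τ : ℝ := 4 * T ^ (-(1 / 20) : ℝ) with hτ
  have hτ0 : 0 ≤ τ := by positivity
  set a : ℕ → ℝ := fun j => (C1 + C2) * (1 + h) / NN N j ^ (1 / 4 : ℝ) * (B j).G V with ha
  have hNp : ∀ j, 0 < NN N j := fun j => hN0.trans_le (hNge j)
  have ha0 : ∀ j, 0 ≤ a j := fun j => by
    have h1 := hG0 j
    have h2 := hNp j
    simp only [ha]
    positivity
  have hch := chain (μ := un x T) (E := Ev x T V h) (P := fun j t => Perf (B j) (NN N j) V h t)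
    (a := a) (τ := τ) (m := m) hτ0 (fun j _ => ha0 j) ?_ ?_ m le_rfl
  rotate_left
  · have h1 := H2 (B m) T (NN N m) (hB m le_rfl).1 (hNN2.trans (hNge m)) hTT2 hm1
      (by rw [(hB m le_rfl).2]; exact hbe) x V h hx hh
    refine h1.trans (ENNReal.ofReal_le_ofReal ?_)
    simp only [ha]
    have h2 := hNp m
    have h3 := hG0 m
    gcongr
    linarith
  · intro j hj
    have h2 := (hB (j + 1) hj).1
    rw [NN_succ hN0.le] at h2
    have h1 := H1 (B j) (B (j + 1)) T (NN N j) (hB j hj.le).1 h2 (hNN1.trans (hNge j)) hTT1 x V h hx hh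
    rw [← NN_succ hN0.le] at h1
    refine h1.trans (ENNReal.ofReal_le_ofReal ?_)
    simp only [ha, hτ]
    have h2 := hNp j
    have h3 := hG0 j
    gcongr
    linarith
  rw [Nat.sub_self] at hch
  have hset : {t | t ∈ Ev x T V h ∧ ¬ Perf A N V h t}
      = {t | t ∈ Ev x T V h ∧ ¬ Perf (B 0) (NN N 0) V h t} := by
    rw [hB0 0 rfl, NN_zero]
  rw [hset]
  refine hch.trans (ENNReal.ofReal_le_ofReal (add_le_add ?_ ?_))
  · have h1 : ∀ j ∈ Finset.Icc 0 m, a j
        ≤ (C1 + C2) * (1 + h) * (2 * A.G V) * (1 / NN N j ^ (1 / 4 : ℝ)) := by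
      intro j hj
      have h2 := hG j (Finset.mem_Icc.1 hj).2
      have h3 := hNp j
      simp only [ha]
      calc (C1 + C2) * (1 + h) / NN N j ^ (1 / 4 : ℝ) * (B j).G V
          ≤ (C1 + C2) * (1 + h) / NN N j ^ (1 / 4 : ℝ) * (2 * A.G V) := by gcongr
        _ = _ := by ring
    calc ∑ j ∈ Finset.Icc 0 m, a j
        ≤ ∑ j ∈ Finset.Icc 0 m, (C1 + C2) * (1 + h) * (2 * A.G V) * (1 / NN N j ^ (1 / 4 : ℝ)) :=
          Finset.sum_le_sum h1
      _ = (C1 + C2) * (1 + h) * (2 * A.G V) * ∑ j ∈ Finset.Icc 0 m, 1 / NN N j ^ (1 / 4 : ℝ) := by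
          rw [Finset.mul_sum]
      _ ≤ (C1 + C2) * (1 + h) * (2 * A.G V) * (2 / N ^ (1 / 4 : ℝ)) := by
          have := sum_NN hN256 m
          gcongr
      _ = 4 * (C1 + C2) * (1 + h) / N ^ (1 / 4 : ℝ) * A.G V := by ring
  · rw [hτ]
    have h1 : 0 < T ^ (-(1 / 20) : ℝ) := by positivity
    nlinarith

end Pool.Agent.Lib.LC
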