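import Mathlib
import Pool.Agent.Lib.MP_f9aece_nt_g2.StmtsZ
import Pool.Agent.Lib.MP_f9aece_nt_loc.Stmts

/-!
The law of `log |zeta|` at bounded scale: statements of the modules, second part (measure `|zeta| ^ 2`
and assembly).  Parameters, windows and measures are those of the library `G2`.
-/

set_option autoImplicit false

namespace Pool.Agent.Lib.LC

open MeasureTheory Set Filter Topology Complex ProbabilityTheory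
open scoped ComplexConjugate

/-! ### K: the measure `|zeta| ^ 2` -/

section Two

open Pool.Agent.Lib.G2
open Pool.Agent.Lib.GT (om un)

/-- the heights where `sg log |zeta|` lies between `V` and `V + h` -/
def Ez (sg V h : ℝ) : Set ℝ :=
  {t | ze t ≠ 0 ∧ V < sg * Real.log ‖ze t‖ ∧ sg * Real.log ‖ze t‖ ≤ V + h}

/-- K1: from the weights to sets, with a weight -/
def TiltW2 : Prop := ∃ (C C1 : ℝ) (v0 : ℕ), 1 ≤ C ∧ 1 ≤ C1 ∧ ∀ A : Par, A.Ok → v0 ≤ A.v →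
  A.b = 1 / 20 → ∀ s : Finset ℕ, s ⊆ Finset.range A.J → ∀ m : Measure ℝ, SFinite m → ∀ κ : ℝ, 0 ≤ κ →
  ∀ H : ℝ → ENNReal, Measurable H →
  (∀ y : ℝ, ∫⁻ t, ENNReal.ofReal (A.W s y (om t)) * H t ∂m ≤ ENNReal.ofReal (κ * A.Gs y)) →
  ∀ ω ω' : ℝ → ENNReal, Measurable ω → Measurable ω' → (∀ u y : ℝ, |u - y| ≤ C1 → ω u ≤ ω' y) →
  ∫⁻ t in {t | A.Good s (om t) ∧ A.Bad s (om t)}, ω (A.X s (om t)) * H t ∂m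
    ≤ ENNReal.ofReal (C * κ) * ∫⁻ y : ℝ, ω' y * ENNReal.ofReal (A.Gs y)

/-- K2: the law of the prime sum in intervals -/
def LawNuLoc : Prop := ∃ (C : ℝ) (v0 : ℕ), 1 ≤ C ∧ ∀ p0 : ℕ, 1000 ≤ p0 → ∃ C' T0 : ℝ, 1 ≤ C' ∧
  3 ≤ T0 ∧ ∀ A : Par, A.Ok → v0 ≤ A.v → A.p0 = p0 → A.b = 1 / 20 → ∀ T e : ℝ, T0 ≤ T → Len A T e →
  ∀ x V1 V2 : ℝ, |x| ≤ T ^ (9 / 10 : ℝ) → V1 + 1 ≤ V2 → A.be * (V2 - V1) ≤ 1 →
  |(nu x T {t | A.Good ∅ (om t) ∧ V1 < A.X ∅ (om t) ∧ A.X ∅ (om t) ≤ V2}).toReal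
      - (gaussianReal 0 (Real.toNNReal A.s2) (Ioc (V1 - A.sg * A.vt) (V2 - A.sg * A.vt))).toReal|
    ≤ ((C * (1 / A.p0 + 1 / A.v) + C' * (Real.exp (-A.v) + Real.sqrt e)) * (V2 - V1)
      + C' * Real.sqrt (V2 - V1)) * A.Gs V1

/-- K3: upper bound for the values of zeta; `A.Y = log T / M` -/
def NuUpLoc : Prop := ∀ p0 : ℕ, 1000 ≤ p0 → ∃ (C : ℝ) (v0 : ℕ), 1 ≤ C ∧ ∀ v : ℕ, v0 ≤ v → ∀ M : ℝ,
  10 ^ 20 * Real.exp v ≤ M → ∃ T0 : ℝ, 3 ≤ T0 ∧ ∀ A : Par, A.Ok → A.v = v → A.p0 = p0 → A.i = 0 →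
  A.b = 1 / 20 → A.be ≤ 1 / 10 ^ 8 → ∀ T : ℝ, T0 ≤ T → A.Y = Real.log T / M → ∀ x V h : ℝ,
  |x| ≤ T ^ (9 / 10 : ℝ) → 0 ≤ h →
  (nu x T (Ez A.sg V h)).toReal
    ≤ (nu x T {t | A.Good ∅ (om t) ∧ V - 8 * Real.log M < A.X ∅ (om t) ∧
        A.X ∅ (om t) ≤ V + h + 8 * Real.log M}).toReal
      + C * (1 + h + Real.log M) * (Real.exp (-(v / 2)) + Real.exp v / M)
        * Real.exp (8 * (A.be * Real.log M)) * A.Gs V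
      + Real.log T ^ (-(1 / 8) : ℝ)

/-- K4: lower bound for the values of zeta -/
def NuLowLoc : Prop := ∀ p0 : ℕ, 1000 ≤ p0 → ∃ (C T0 : ℝ) (v0 : ℕ), 1 ≤ C ∧ 3 ≤ T0 ∧ ∀ A : Par, A.Ok →
  v0 ≤ A.v → A.p0 = p0 → A.b = 1 / 20 → ∀ T e : ℝ, T0 ≤ T → Len A T e → ∀ x V h κ : ℝ,
  |x| ≤ T ^ (9 / 10 : ℝ) → 1 ≤ κ → 1 ≤ h → 2 * κ ≤ h →
  (nu x T {t | A.Good ∅ (om t) ∧ V + κ < A.X ∅ (om t) ∧ A.X ∅ (om t) ≤ V + h - κ}).toReal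
    ≤ (nu x T (Ez A.sg V h)).toReal
      + C * h * (e + (Real.log T / A.Y) ^ 10 * Real.exp (-(2 * κ))) * A.Gs V

/-- K5: the law of `log |zeta|` in bounded intervals under the measure `|zeta| ^ 2 / log T` -/
def LocalTwo : Prop := ∀ ε : ℝ, 0 < ε → ∃ h0 : ℝ, 1 ≤ h0 ∧ ∀ h1 : ℝ, ∃ δ T0 : ℝ, 0 < δ ∧
  ∀ x T V h : ℝ, T0 ≤ T → |x| ≤ T ^ (9 / 10 : ℝ) → h0 ≤ h → h ≤ h1 →
  |V| ≤ δ * Real.log (Real.log T) →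
  |(nu x T {t | Real.log T * Real.exp V < ‖ze t‖ ∧ ‖ze t‖ ≤ Real.log T * Real.exp (V + h)}).toReal
    - gi (Real.sqrt (Real.log (Real.log T) / 2)) V (V + h)|
    ≤ ε * gi (Real.sqrt (Real.log (Real.log T) / 2)) V (V + h)

end Two

/-! ### F: all intervals -/

/-- the modulus -/
noncomputable def zm (x T u : ℝ) : ℝ := ‖riemannZeta (1 / 2 + I * x + I * u * T)‖

/-- F1: Gaussian intervals and tails -/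
def GaussCut : Prop := ∀ ε δ : ℝ, 0 < ε → 0 < δ → ∃ δ' : ℝ, 0 < δ' ∧ δ' ≤ δ / 4 ∧ ∀ h0 : ℝ, 1 ≤ h0 →
  ∃ s0 : ℝ, 1 ≤ s0 ∧ ∀ s V W : ℝ, s0 ≤ s → 0 ≤ V → V ≤ δ' * s ^ 2 → δ * s ^ 2 / 2 ≤ W →
  (gaussianReal 0 1 (Ioi (W / s))).toReal ≤ ε * gi s V (V + h0)

/-- F2: the law of `log |zeta|` in all intervals of length at least `h0` -/
def WideZero : Prop := ∀ ε : ℝ, 0 < ε → ∃ h0 δ T0 : ℝ, 0 < h0 ∧ 0 < δ ∧ ∀ x T V W : ℝ, T0 ≤ T →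
  |x| ≤ T ^ (9 / 10 : ℝ) → V + h0 ≤ W → -(Real.sqrt (Real.log (Real.log T)) / ε) ≤ V →
  V ≤ δ * Real.log (Real.log T) →
  |(volume {u : ℝ | u ∈ Icc (0 : ℝ) 1 ∧ Real.exp V < zm x T u ∧ zm x T u ≤ Real.exp W}).toReal
    - gi (Real.sqrt (Real.log (Real.log T) / 2)) V W|
    ≤ ε * gi (Real.sqrt (Real.log (Real.log T) / 2)) V W

/-- F3: the same under the measure `|zeta| ^ 2` -/
def WideTwo : Prop := ∀ ε : ℝ, 0 < ε → ∃ h0 δ T0 : ℝ, 0 < h0 ∧ 0 < δ ∧ ∀ x T V W : ℝ, T0 ≤ T →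
  |x| ≤ T ^ (9 / 10 : ℝ) → V + h0 ≤ W → |V| ≤ δ * Real.log (Real.log T) →
  |(∫ u in {u : ℝ | u ∈ Icc (0 : ℝ) 1 ∧ Real.log T * Real.exp V < zm x T u ∧
      zm x T u ≤ Real.log T * Real.exp W}, zm x T u ^ 2)
    - Real.log T * gi (Real.sqrt (Real.log (Real.log T) / 2)) V W|
    ≤ ε * (Real.log T * gi (Real.sqrt (Real.log (Real.log T) / 2)) V W)

end Pool.Agent.Lib.LC
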