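import Mathlib
import Pool.Agent.Lib.MP_f9aece_nt_loc.StmtsTwo
import Pool.Agent.Lib.MP_f9aece_nt_gt.G1
import Pool.Agent.Lib.MP_f9aece_nt_gt.G3

/-!
The law of `log |zeta|` at bounded scale: module F1, Gaussian intervals and tails, and the passage from
intervals of length between `h0` and `2 * h0` to all intervals.
-/

set_option autoImplicit false

namespace Pool.Agent.Lib.LC

open MeasureTheory Set Filter Topology Complex ProbabilityTheory
open scoped ComplexConjugate
open Pool.Agent.Lib.GT (tl)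

namespace F1

lemma gi_nonneg (s V W : ℝ) : 0 ≤ gi s V W := ENNReal.toReal_nonneg

lemma gi_add (s : ℝ) {a b c : ℝ} (hab : a ≤ b) (hbc : b ≤ c) : gi s a c = gi s a b + gi s b c := by
  unfold gi
  rw [← ENNReal.toReal_add (measure_ne_top _ _) (measure_ne_top _ _),
    ← measure_union (Set.disjoint_left.2 (fun x hx hy => absurd hx.2 (not_le.2 hy.1)))
      measurableSet_Ioc, Ioc_union_Ioc_eq_Ioc hab hbc]

lemma gi_mono (s : ℝ) {a a' b b' : ℝ} (h1 : a' ≤ a) (h2 : b ≤ b') : gi s a b ≤ gi s a' b' := by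
  unfold gi
  exact ENNReal.toReal_mono (measure_ne_top _ _) (measure_mono (Ioc_subset_Ioc h1 h2))

lemma gi_le_tl {s V W : ℝ} (hs : 0 < s) : gi s V W ≤ tl (V / s) := by
  rw [← GT.G1.scale hs]
  unfold gi
  exact ENNReal.toReal_mono (measure_ne_top _ _) (measure_mono Ioc_subset_Ioi_self)

/-- pieces of length between `h0` and `2 * h0` -/
lemma pieces {s h0 ε A B : ℝ} {m : ℝ → ℝ → ℝ} (h0p : 0 < h0)
    (hadd : ∀ a b c : ℝ, a ≤ b → b ≤ c → m a c = m a b + m b c)
    (hloc : ∀ a h : ℝ, A ≤ a → a ≤ B → h0 ≤ h → h ≤ 2 * h0 →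
      |m a (a + h) - gi s a (a + h)| ≤ ε * gi s a (a + h))
    {V W : ℝ} (hV : A ≤ V) (hW : V + h0 ≤ W) (hB : W ≤ B + h0) :
    |m V W - gi s V W| ≤ ε * gi s V W := by
  set n : ℕ := ⌊(W - V) / h0⌋₊ with hn
  have hWV : 1 ≤ (W - V) / h0 := by rw [le_div_iff₀ h0p]; linarith
  have hn1 : 1 ≤ n := by
    rw [hn]
    exact Nat.le_floor (by exact_mod_cast hWV)
  have hnR : (1 : ℝ) ≤ n := by exact_mod_cast hn1
  have hnp : (0 : ℝ) < n := by linarith
  have hle : (n : ℝ) ≤ (W - V) / h0 := Nat.floor_le (by linarith)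
  have hlt : (W - V) / h0 < n + 1 := Nat.lt_floor_add_one _
  set h : ℝ := (W - V) / n with hh
  have hh1 : h0 ≤ h := by
    rw [hh, le_div_iff₀ hnp]
    rw [le_div_iff₀ h0p] at hle
    linarith
  have hh2 : h ≤ 2 * h0 := by
    rw [hh, div_le_iff₀ hnp]
    rw [div_lt_iff₀ h0p] at hlt
    nlinarith
  have hnh : (n : ℝ) * h = W - V := by rw [hh]; field_simp
  have hhp : 0 < h := lt_of_lt_of_le h0p hh1
  have key : ∀ k : ℕ, k ≤ n → |m V (V + k * h) - gi s V (V + k * h)| ≤ ε * gi s V (V + k * h) ∨ k = 0 := by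
    intro k
    induction k with
    | zero => intro _; exact Or.inr rfl
    | succ k ih =>
      intro hk
      left
      have hkn : (k : ℝ) + 1 ≤ n := by exact_mod_cast hk
      have hk0 : (0 : ℝ) ≤ k := Nat.cast_nonneg k
      have hkh : 0 ≤ (k : ℝ) * h := mul_nonneg hk0 hhp.le
      have e1 : V + ((k + 1 : ℕ) : ℝ) * h = (V + k * h) + h := by push_cast; ring
      have hle2 : V + k * h ≤ B := by
        have : ((k : ℝ) + 1) * h ≤ n * h := mul_le_mul_of_nonneg_right hkn hhp.le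
        nlinarith
      have hl := hloc (V + k * h) h (by linarith) hle2 hh1 hh2
      rw [e1]
      rcases Nat.eq_zero_or_pos k with h0 | h0
      · subst h0
        simpa using hl
      · rcases ih (by omega) with hi | hi
        · rw [hadd V (V + k * h) (V + k * h + h) (by linarith) (by linarith),
            gi_add s (show V ≤ V + k * h by linarith) (show V + k * h ≤ V + k * h + h by linarith)]
          calc |m V (V + k * h) + m (V + k * h) (V + k * h + h)
                - (gi s V (V + k * h) + gi s (V + k * h) (V + k * h + h))|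
              = |(m V (V + k * h) - gi s V (V + k * h))
                + (m (V + k * h) (V + k * h + h) - gi s (V + k * h) (V + k * h + h))| := by
                congr 1; ring
            _ ≤ |m V (V + k * h) - gi s V (V + k * h)|
                + |m (V + k * h) (V + k * h + h) - gi s (V + k * h) (V + k * h + h)| := abs_add_le _ _
            _ ≤ _ := by linarith
        · omega
  have e2 : V + (n : ℝ) * h = W := by rw [hnh]; ring
  rcases key n le_rfl with h | h
  · rwa [e2] at h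
  · omega

/-- all intervals: the part beyond `B` is controlled by tails -/
lemma wide {s h0 ε ε3 A B : ℝ} {m : ℝ → ℝ → ℝ} {τ : ℝ → ℝ} (h0p : 0 < h0) (hε : 0 ≤ ε) (hε3 : 0 ≤ ε3)
    (hadd : ∀ a b c : ℝ, a ≤ b → b ≤ c → m a c = m a b + m b c)
    (hm0 : ∀ a b : ℝ, 0 ≤ m a b)
    (hloc : ∀ a h : ℝ, A ≤ a → a ≤ B → h0 ≤ h → h ≤ 2 * h0 →
      |m a (a + h) - gi s a (a + h)| ≤ ε * gi s a (a + h))
    (hmt : ∀ a b : ℝ, a ≤ B → m a b ≤ 2 * τ a) (hgt : ∀ a b : ℝ, gi s a b ≤ τ a)
    {V W : ℝ} (hV : A ≤ V) (hVB : V + h0 ≤ B) (hW : V + h0 ≤ W)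
    (hcut : B ≤ W → τ B ≤ ε3 * gi s V W) :
    |m V W - gi s V W| ≤ (ε + 3 * ε3) * gi s V W := by
  have hg0 := gi_nonneg s V W
  rcases le_or_gt W (B + h0) with hWB | hWB
  · have := pieces h0p hadd hloc hV hW hWB
    nlinarith [mul_nonneg hε3 hg0]
  · -- cut at `B`
    have h1 := pieces h0p hadd hloc hV hVB (show B ≤ B + h0 by linarith)
    have hVB' : V ≤ B := by linarith
    have hBW : B ≤ W := by linarith
    have h2 := hmt B W le_rfl
    have h3 := hgt B W
    have h4 := hcut hBW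
    have h5 := hm0 B W
    have h6 := gi_nonneg s B W
    have e1 := hadd V B W hVB' hBW
    have e2 := gi_add s hVB' hBW
    have e3 : gi s V B ≤ gi s V W := gi_mono s le_rfl hBW
    rw [abs_le] at h1 ⊢
    constructor <;> nlinarith [mul_le_mul_of_nonneg_left e3 hε]

end F1

/-- F1: Gaussian intervals and tails -/
theorem gaussCut (hT : GT.TailFacts) (hG : GaussInt) : GaussCut := by
  obtain ⟨C, hC, hG1, -⟩ := hG
  intro ε δ hε hδ
  refine ⟨min (δ / 4) 1, lt_min (by linarith) one_pos, min_le_left _ _, ?_⟩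
  intro h0 hh0
  set κ : ℝ := 3 * δ ^ 2 / 32 with hκ
  have hκp : 0 < κ := by positivity
  refine ⟨max 1 (C / (κ * ε)), le_max_left _ _, ?_⟩
  intro s V W hs hV hVs hW
  have hs1 : 1 ≤ s := le_trans (le_max_left _ _) hs
  have hs2 : C / (κ * ε) ≤ s := le_trans (le_max_right _ _) hs
  have hsp : 0 < s := by linarith
  have hd1 : min (δ / 4) 1 ≤ 1 := min_le_right _ _
  have hd4 : min (δ / 4) 1 ≤ δ / 4 := min_le_left _ _
  have hVs1 : V ≤ s ^ 2 := le_trans hVs (by nlinarith [sq_nonneg s])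
  have hVs4 : V ≤ δ / 4 * s ^ 2 := le_trans hVs (by nlinarith [sq_nonneg s])
  -- lower bound for the Gaussian interval
  have hlow : Real.exp (-(V ^ 2 / (2 * s ^ 2))) ≤ C * s * gi s V (V + h0) := by
    have h1 := (hG1 s V 1 hs1 zero_le_one hs1 (by rw [one_mul, abs_of_nonneg hV]; exact hVs1)).1
    have h2 : gi s V (V + 1) ≤ gi s V (V + h0) := F1.gi_mono s le_rfl (by linarith)
    have h3 : 1 / s * Real.exp (-(V ^ 2 / (2 * s ^ 2))) ≤ C * gi s V (V + h0) :=
      le_trans h1 (mul_le_mul_of_nonneg_left h2 (by linarith))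
    have h4 := mul_le_mul_of_nonneg_left h3 hsp.le
    have e1 : s * (1 / s * Real.exp (-(V ^ 2 / (2 * s ^ 2)))) = Real.exp (-(V ^ 2 / (2 * s ^ 2))) := by
      field_simp
    rw [e1] at h4
    linarith
  -- upper bound for the tail
  have hup : (gaussianReal 0 1 (Ioi (W / s))).toReal ≤ Real.exp (-(δ ^ 2 * s ^ 2 / 8)) := by
    have hx : 0 ≤ δ * s / 2 := by positivity
    have hle : δ * s / 2 ≤ W / s := by
      rw [le_div_iff₀ hsp]
      nlinarith
    have h1 : tl (W / s) ≤ tl (δ * s / 2) := by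
      obtain ⟨c, C, -, -, -, -, -, h⟩ := hT
      exact h hle
    have h2 := GT.tl_chernoff hx
    have e1 : -((δ * s / 2) ^ 2 / 2) = -(δ ^ 2 * s ^ 2 / 8) := by ring
    rw [e1] at h2
    exact le_trans h1 h2
  have hexp : Real.exp (-(δ ^ 2 * s ^ 2 / 8)) ≤ Real.exp (-(V ^ 2 / (2 * s ^ 2))) * Real.exp (-(κ * s ^ 2)) := by
    rw [← Real.exp_add]
    apply Real.exp_le_exp.2
    have h1 : V ^ 2 ≤ (δ / 4 * s ^ 2) ^ 2 := pow_le_pow_left₀ hV hVs4 2
    have h2 : V ^ 2 / (2 * s ^ 2) ≤ δ ^ 2 * s ^ 2 / 32 := by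
      rw [div_le_iff₀ (by positivity)]
      nlinarith
    rw [hκ]
    nlinarith
  have hk : s * C * Real.exp (-(κ * s ^ 2)) ≤ ε := by
    have h1 : κ * s ^ 2 + 1 ≤ Real.exp (κ * s ^ 2) := Real.add_one_le_exp _
    have h2 : Real.exp (-(κ * s ^ 2)) ≤ 1 / (κ * s ^ 2) := by
      rw [Real.exp_neg, ← one_div]
      apply one_div_le_one_div_of_le (by positivity)
      linarith
    have h3 : s * C * Real.exp (-(κ * s ^ 2)) ≤ s * C * (1 / (κ * s ^ 2)) :=
      mul_le_mul_of_nonneg_left h2 (by positivity)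
    have h4 : s * C * (1 / (κ * s ^ 2)) = C / (κ * s) := by field_simp
    have h5 : C / (κ * s) ≤ ε := by
      rw [div_le_iff₀ (by positivity)]
      rw [div_le_iff₀ (by positivity)] at hs2
      nlinarith
    linarith
  have hgn := F1.gi_nonneg s V (V + h0)
  calc (gaussianReal 0 1 (Ioi (W / s))).toReal ≤ Real.exp (-(δ ^ 2 * s ^ 2 / 8)) := hup
    _ ≤ Real.exp (-(V ^ 2 / (2 * s ^ 2))) * Real.exp (-(κ * s ^ 2)) := hexp
    _ ≤ (C * s * gi s V (V + h0)) * Real.exp (-(κ * s ^ 2)) :=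
        mul_le_mul_of_nonneg_right hlow (Real.exp_pos _).le
    _ = (s * C * Real.exp (-(κ * s ^ 2))) * gi s V (V + h0) := by ring
    _ ≤ ε * gi s V (V + h0) := mul_le_mul_of_nonneg_right hk hgn

end Pool.Agent.Lib.LC
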