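import Mathlib
import Pool.Agent.Lib.MP_f9aece_nt_loc.F1
import Pool.Agent.Lib.MP_f9aece_nt_g2.H7

/-!
The law of `log |zeta|` at bounded scale: module F2, all intervals, uniform measure.
-/

set_option autoImplicit false

namespace Pool.Agent.Lib.LC

open MeasureTheory Set Filter Topology Complex ProbabilityTheory
open scoped ComplexConjugate
open Pool.Agent.Lib.GT (tl)

namespace F2

lemma zm_eq (x T u : ℝ) : zm x T u = GT.zf x T u := rfl

lemma measurable_zm (x T : ℝ) : Measurable (zm x T) := (GT.continuous_zf x T).measurable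

/-- the mass of the heights with values between `exp a` and `exp b` -/
noncomputable def mz (x T a b : ℝ) : ℝ :=
  (volume {u : ℝ | u ∈ Icc (0 : ℝ) 1 ∧ Real.exp a < zm x T u ∧ zm x T u ≤ Real.exp b}).toReal

lemma fin (E : Set ℝ) (hE : E ⊆ Icc (0 : ℝ) 1) : volume E ≠ ⊤ := by
  have h : volume E ≤ volume (Icc (0 : ℝ) 1) := measure_mono hE
  rw [Real.volume_Icc] at h
  exact ne_top_of_le_ne_top ENNReal.ofReal_ne_top h

lemma meas (x T a b : ℝ) :
    MeasurableSet {u : ℝ | u ∈ Icc (0 : ℝ) 1 ∧ Real.exp a < zm x T u ∧ zm x T u ≤ Real.exp b} :=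
  measurableSet_Icc.inter ((measurableSet_lt measurable_const (measurable_zm x T)).inter
    (measurableSet_le (measurable_zm x T) measurable_const))

lemma mz_add (x T : ℝ) {a b c : ℝ} (hab : a ≤ b) (hbc : b ≤ c) :
    mz x T a c = mz x T a b + mz x T b c := by
  unfold mz
  rw [← ENNReal.toReal_add (fin _ fun u hu => hu.1) (fin _ fun u hu => hu.1),
    ← measure_union (Set.disjoint_left.2 (fun u hu hu' => absurd hu.2.2 (not_le.2 hu'.2.1)))
      (meas x T b c)]
  congr 2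
  ext u
  simp only [Set.mem_ofPred_eq, mem_union]
  have e1 := Real.exp_le_exp.2 hab
  have e2 := Real.exp_le_exp.2 hbc
  constructor
  · rintro ⟨h1, h2, h3⟩
    rcases le_or_gt (zm x T u) (Real.exp b) with h | h
    · exact Or.inl ⟨h1, h2, h⟩
    · exact Or.inr ⟨h1, h, h3⟩
  · rintro (⟨h1, h2, h3⟩ | ⟨h1, h2, h3⟩)
    · exact ⟨h1, h2, le_trans h3 e2⟩
    · exact ⟨h1, lt_of_le_of_lt e1 h2, h3⟩

end F2

/-- F2: the law of `log |zeta|` in all intervals of length at least `h0` -/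
theorem wideZero (hL : LocalZero) (hF : G2.FinZero) (hG : GaussCut) : WideZero := by
  intro ε hε
  set ε1 : ℝ := ε / 2 with hε1
  have hε1p : 0 < ε1 := by positivity
  obtain ⟨h0, hh0, hL0⟩ := hL ε1 hε1p
  obtain ⟨δ1, T1, hδ1, hL1⟩ := hL0 (2 * h0)
  obtain ⟨δ2, T2, hδ2, hF2⟩ := hF 1 one_pos
  set δ0 : ℝ := min δ1 δ2 with hδ0
  have hδ0p : 0 < δ0 := lt_min hδ1 hδ2
  obtain ⟨δ', hδ'p, hδ'4, hG1⟩ := hG (ε / 12) (4 * δ0) (by positivity) (by positivity)
  obtain ⟨s0, hs01, hG2⟩ := hG1 h0 hh0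
  set M : ℝ := max (2 * s0 ^ 2) (max (2 * h0 / δ0) 2) with hM
  refine ⟨h0, δ' / 2, max (max T1 T2) (Real.exp (Real.exp M)), by linarith, by positivity, ?_⟩
  intro x T V W hTT hx hVW hV1 hV2
  have hT1 : T1 ≤ T := le_trans (le_trans (le_max_left _ _) (le_max_left _ _)) hTT
  have hT2 : T2 ≤ T := le_trans (le_trans (le_max_right _ _) (le_max_left _ _)) hTT
  have hTe : Real.exp (Real.exp M) ≤ T := le_trans (le_max_right _ _) hTT
  have hTp : 0 < T := lt_of_lt_of_le (Real.exp_pos _) hTe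
  have hL2 : Real.exp M ≤ Real.log T := (Real.le_log_iff_exp_le hTp).2 hTe
  have hLp : 0 < Real.log T := lt_of_lt_of_le (Real.exp_pos _) hL2
  set l : ℝ := Real.log (Real.log T) with hl
  have hMl : M ≤ l := (Real.le_log_iff_exp_le hLp).2 hL2
  have hl1 : 2 * s0 ^ 2 ≤ l := le_trans (le_max_left _ _) hMl
  have hl2 : 2 * h0 / δ0 ≤ l := le_trans (le_trans (le_max_left _ _) (le_max_right _ _)) hMl
  have hl3 : 2 ≤ l := le_trans (le_trans (le_max_right _ _) (le_max_right _ _)) hMl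
  have hl0 : 0 < l := by linarith
  set s : ℝ := Real.sqrt (l / 2) with hs
  have hsp : 0 < s := Real.sqrt_pos.2 (by linarith)
  have hs2 : s ^ 2 = l / 2 := Real.sq_sqrt (by linarith)
  have hs0 : s0 ≤ s := Real.le_sqrt_of_sq_le (by linarith)
  have hh0l : 2 * h0 ≤ δ0 * l := by
    rw [div_le_iff₀ hδ0p] at hl2
    linarith
  have hVδ : V ≤ δ0 / 2 * l := by nlinarith
  have hB1 : ∀ a : ℝ, a ≤ δ0 * l → a ≤ δ1 * l := fun a ha =>
    le_trans ha (mul_le_mul_of_nonneg_right (min_le_left _ _) hl0.le)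
  have hB2 : ∀ a : ℝ, a ≤ δ0 * l → a ≤ δ2 * l := fun a ha =>
    le_trans ha (mul_le_mul_of_nonneg_right (min_le_right _ _) hl0.le)
  have hmain := F1.wide (s := s) (h0 := h0) (ε := ε1) (ε3 := ε / 12) (A := -(Real.sqrt l / ε1))
    (B := δ0 * l) (m := F2.mz x T) (τ := fun a => tl (a / s)) (by linarith) hε1p.le (by positivity)
    (fun a b c hab hbc => F2.mz_add x T hab hbc) (fun a b => ENNReal.toReal_nonneg)
    (fun a h ha1 ha2 hh1 hh2 => by
      have := hL1 x T a h hT1 hx hh1 hh2 ha1 (hB1 a ha2)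
      exact this)
    (fun a b ha => by
      have h1 := (hF2 x T hT2 hx).1 a (hB2 a ha)
      rw [one_mul, abs_le] at h1
      have h2 : F2.mz x T a b ≤ (volume {u : ℝ | u ∈ Icc (0 : ℝ) 1 ∧ Real.exp a < GT.zf x T u}).toReal := by
        unfold F2.mz
        apply ENNReal.toReal_mono (F2.fin _ fun u hu => hu.1)
        apply measure_mono
        intro u hu
        exact ⟨hu.1, hu.2.1⟩
      have h3 := h1.2
      show F2.mz x T a b ≤ 2 * tl (a / s)
      linarith)
    (fun a b => F1.gi_le_tl hsp)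
    (V := V) (W := W)
    (by
      have h1 : Real.sqrt l / ε ≤ Real.sqrt l / ε1 :=
        div_le_div_of_nonneg_left (Real.sqrt_nonneg _) hε1p (by rw [hε1]; linarith)
      linarith)
    (by nlinarith) hVW
    (fun hBW => by
      show tl (δ0 * l / s) ≤ ε / 12 * gi s V W
      have hW' : 4 * δ0 * s ^ 2 / 2 ≤ δ0 * l := by rw [hs2]; linarith
      rcases le_or_gt 0 V with h | h
      · have h1 := hG2 s V (δ0 * l) hs0 h (by rw [hs2]; nlinarith) hW'
        have h2 : gi s V (V + h0) ≤ gi s V W := F1.gi_mono s le_rfl hVW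
        calc tl (δ0 * l / s) ≤ ε / 12 * gi s V (V + h0) := h1
          _ ≤ _ := mul_le_mul_of_nonneg_left h2 (by positivity)
      · have h1 := hG2 s 0 (δ0 * l) hs0 le_rfl (by positivity) hW'
        have h2 : gi s 0 (0 + h0) ≤ gi s V W := F1.gi_mono s h.le (by linarith)
        calc tl (δ0 * l / s) ≤ ε / 12 * gi s 0 (0 + h0) := h1
          _ ≤ _ := mul_le_mul_of_nonneg_left h2 (by positivity))
  have hg0 := F1.gi_nonneg s V W
  have e1 : (volume {u : ℝ | u ∈ Icc (0 : ℝ) 1 ∧ Real.exp V < zm x T u ∧ zm x T u ≤ Real.exp W}).toReal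
      = F2.mz x T V W := rfl
  rw [e1]
  refine le_trans hmain (mul_le_mul_of_nonneg_right ?_ hg0)
  rw [hε1]
  linarith

end Pool.Agent.Lib.LC
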