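import Mathlib
import Pool.Agent.Lib.MP_f9aece_nt_loc.F1
import Pool.Agent.Lib.MP_f9aece_nt_g2.H7

/-!
The law of `log |zeta|` at bounded scale: module F3, all intervals, the measure `|zeta| ^ 2`.
-/

set_option autoImplicit false

namespace Pool.Agent.Lib.LC

open MeasureTheory Set Filter Topology Complex ProbabilityTheory
open scoped ComplexConjugate
open Pool.Agent.Lib.GT (tl zf)
open Pool.Agent.Lib.G2 (ze nu)

namespace F3

/-- the mass of the heights with values between `log T * exp a` and `log T * exp b` -/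
noncomputable def mz (x T a b : ℝ) : ℝ :=
  (nu x T {t | ‖ze t‖ ∈ Ioc (Real.log T * Real.exp a) (Real.log T * Real.exp b)}).toReal

lemma meas (a b : ℝ) : MeasurableSet {t : ℝ | ‖ze t‖ ∈ Ioc a b} :=
  G2.H2.cont_ze.norm.measurable measurableSet_Ioc

lemma mz_add (x : ℝ) {T : ℝ} (hT : 0 < T) (hL : 0 < Real.log T) {a b c : ℝ} (hab : a ≤ b)
    (hbc : b ≤ c) : mz x T a c = mz x T a b + mz x T b c := by
  have e1 : Real.log T * Real.exp a ≤ Real.log T * Real.exp b :=
    mul_le_mul_of_nonneg_left (Real.exp_le_exp.2 hab) hL.le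
  have e2 : Real.log T * Real.exp b ≤ Real.log T * Real.exp c :=
    mul_le_mul_of_nonneg_left (Real.exp_le_exp.2 hbc) hL.le
  have hd : Disjoint {t : ℝ | ‖ze t‖ ∈ Ioc (Real.log T * Real.exp a) (Real.log T * Real.exp b)}
      {t : ℝ | ‖ze t‖ ∈ Ioc (Real.log T * Real.exp b) (Real.log T * Real.exp c)} := by
    rw [Set.disjoint_left]
    intro t ht ht'
    exact absurd ht.2 (not_le.2 ht'.1)
  have hu : {t : ℝ | ‖ze t‖ ∈ Ioc (Real.log T * Real.exp a) (Real.log T * Real.exp c)}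
      = {t : ℝ | ‖ze t‖ ∈ Ioc (Real.log T * Real.exp a) (Real.log T * Real.exp b)}
        ∪ {t : ℝ | ‖ze t‖ ∈ Ioc (Real.log T * Real.exp b) (Real.log T * Real.exp c)} := by
    ext t
    have h : ‖ze t‖ ∈ Ioc (Real.log T * Real.exp a) (Real.log T * Real.exp c)
        ↔ ‖ze t‖ ∈ Ioc (Real.log T * Real.exp a) (Real.log T * Real.exp b)
          ∪ Ioc (Real.log T * Real.exp b) (Real.log T * Real.exp c) := by
      rw [Ioc_union_Ioc_eq_Ioc e1 e2]
    exact h
  unfold mz
  rw [hu, measure_union hd (meas _ _),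
    ENNReal.toReal_add (G2.H2.nu_lt_top x hT _).ne (G2.H2.nu_lt_top x hT _).ne]

end F3

/-- F3: the law of `log |zeta|` in all intervals of length at least `h0`, under `|zeta| ^ 2` -/
theorem wideTwo (hL : LocalTwo) (hF : G2.FinTwo) (hG : GaussCut) : WideTwo := by
  intro ε hε
  set ε1 : ℝ := ε / 2 with hε1
  have hε1p : 0 < ε1 := by positivity
  obtain ⟨h0, hh0, hL0⟩ := hL ε1 hε1p
  obtain ⟨δ1, T1, hδ1, hL1⟩ := hL0 (2 * h0)
  obtain ⟨δ2, T2, hδ2, hF2⟩ := hF 1 one_pos
  set δ0 : ℝ := min δ1 δ2 with hδ0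
  have hδ0p : 0 < δ0 := lt_min hδ1 hδ2
  obtain ⟨δ', hδ'p, hδ'4, hG1⟩ := hG (ε / 12) (4 * δ0) (by positivity) (by positivity)
  obtain ⟨s0, hs01, hG2⟩ := hG1 h0 hh0
  set M : ℝ := max (2 * s0 ^ 2) (max (2 * h0 / δ0) 2) with hM
  refine ⟨h0, δ' / 2, max (max T1 T2) (Real.exp (Real.exp M)), by linarith, by positivity, ?_⟩
  intro x T V W hTT hx hVW hVa
  have hT1 : T1 ≤ T := le_trans (le_trans (le_max_left _ _) (le_max_left _ _)) hTT
  have hT2 : T2 ≤ T := le_trans (le_trans (le_max_right _ _) (le_max_left _ _)) hTT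
  have hTe : Real.exp (Real.exp M) ≤ T := le_trans (le_max_right _ _) hTT
  have hTp : 0 < T := lt_of_lt_of_le (Real.exp_pos _) hTe
  have hL2 : Real.exp M ≤ Real.log T := (Real.le_log_iff_exp_le hTp).2 hTe
  have hLp : 0 < Real.log T := lt_of_lt_of_le (Real.exp_pos _) hL2
  set l : ℝ := Real.log (Real.log T) with hl
  have hMl : M ≤ l := (Real.le_log_iff_exp_le hLp).2 hL2
  have hl1 : 2 * s0 ^ 2 ≤ l := le_trans (le_max_left _ _) hMl
  have hl2 : 2 * h0 / δ0 ≤ l := le_trans (le_trans (le_max_left _ _) (le_max_right _ _)) hMl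
  have hl3 : 2 ≤ l := le_trans (le_trans (le_max_right _ _) (le_max_right _ _)) hMl
  have hl0 : 0 < l := by linarith
  obtain ⟨hV1, hV2⟩ := abs_le.1 hVa
  set s : ℝ := Real.sqrt (l / 2) with hs
  have hsp : 0 < s := Real.sqrt_pos.2 (by linarith)
  have hs2 : s ^ 2 = l / 2 := Real.sq_sqrt (by linarith)
  have hs0 : s0 ≤ s := Real.le_sqrt_of_sq_le (by linarith)
  have hh0l : 2 * h0 ≤ δ0 * l := by
    rw [div_le_iff₀ hδ0p] at hl2
    linarith
  have hVδ : V ≤ δ0 / 2 * l := by nlinarith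
  have hδ01 : δ0 ≤ δ1 := min_le_left _ _
  have hB1 : ∀ a : ℝ, a ≤ δ0 * l → a ≤ δ1 * l := fun a ha =>
    le_trans ha (mul_le_mul_of_nonneg_right hδ01 hl0.le)
  have hB2 : ∀ a : ℝ, a ≤ δ0 * l → a ≤ δ2 * l := fun a ha =>
    le_trans ha (mul_le_mul_of_nonneg_right (min_le_right _ _) hl0.le)
  have hmain := F1.wide (s := s) (h0 := h0) (ε := ε1) (ε3 := ε / 12) (A := -(δ1 * l))
    (B := δ0 * l) (m := F3.mz x T) (τ := fun a => tl (a / s)) (by linarith) hε1p.le (by positivity)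
    (fun a b c hab hbc => F3.mz_add x hTp hLp hab hbc) (fun a b => ENNReal.toReal_nonneg)
    (fun a h ha1 ha2 hh1 hh2 => by
      have := hL1 x T a h hT1 hx hh1 hh2 (abs_le.2 ⟨ha1, hB1 a ha2⟩)
      exact this)
    (fun a b ha => by
      have h1 := ((hF2 x T hT2 hx).1 a (hB2 a ha)).1
      have h4 := G2.H7.set_nu x hTp hLp (measurableSet_Ioi (a := Real.log T * Real.exp a))
      have e4 : {u : ℝ | u ∈ Icc (0 : ℝ) 1 ∧ zf x T u ∈ Ioi (Real.log T * Real.exp a)}
          = {u : ℝ | u ∈ Icc (0 : ℝ) 1 ∧ Real.log T * Real.exp a < zf x T u} := rfl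
      rw [e4] at h4
      rw [h4, one_mul, abs_le] at h1
      have h3 := h1.2
      have h5 : (nu x T {t | ‖ze t‖ ∈ Ioi (Real.log T * Real.exp a)}).toReal ≤ 2 * tl (a / s) := by
        have : Real.log T * (nu x T {t | ‖ze t‖ ∈ Ioi (Real.log T * Real.exp a)}).toReal
            ≤ Real.log T * (2 * tl (a / s)) := by
          rw [hs]
          linarith
        exact le_of_mul_le_mul_left this hLp
      have h2 : F3.mz x T a b ≤ (nu x T {t | ‖ze t‖ ∈ Ioi (Real.log T * Real.exp a)}).toReal := by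
        unfold F3.mz
        apply ENNReal.toReal_mono (G2.H2.nu_lt_top x hTp _).ne
        apply measure_mono
        intro t ht
        exact ht.1
      exact le_trans h2 h5)
    (fun a b => F1.gi_le_tl hsp)
    (V := V) (W := W)
    (by nlinarith)
    (by nlinarith) hVW
    (fun hBW => by
      show tl (δ0 * l / s) ≤ ε / 12 * gi s V W
      have hW' : 4 * δ0 * s ^ 2 / 2 ≤ δ0 * l := by rw [hs2]; linarith
      rcases le_or_gt 0 V with h | h
      · have h1 := hG2 s V (δ0 * l) hs0 h (by rw [hs2]; nlinarith) hW'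
        have h2 : gi s V (V + h0) ≤ gi s V W := F1.gi_mono s le_rfl hVW
        calc tl (δ0 * l / s) ≤ ε / 12 * gi s V (V + h0) := h1
          _ ≤ _ := mul_le_mul_of_nonneg_left h2 (by positivity)
      · have h1 := hG2 s 0 (δ0 * l) hs0 le_rfl (by positivity) hW'
        have h2 : gi s 0 (0 + h0) ≤ gi s V W := F1.gi_mono s h.le (by linarith)
        calc tl (δ0 * l / s) ≤ ε / 12 * gi s 0 (0 + h0) := h1
          _ ≤ _ := mul_le_mul_of_nonneg_left h2 (by positivity))
  have hg0 := F1.gi_nonneg s V W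
  have e1 := G2.H7.set_nu x hTp hLp
    (measurableSet_Ioc (a := Real.log T * Real.exp V) (b := Real.log T * Real.exp W))
  have e2 : (∫ u in {u : ℝ | u ∈ Icc (0 : ℝ) 1 ∧ Real.log T * Real.exp V < zm x T u ∧
      zm x T u ≤ Real.log T * Real.exp W}, zm x T u ^ 2) = Real.log T * F3.mz x T V W := e1
  rw [e2]
  have e3 : Real.log T * F3.mz x T V W - Real.log T * gi s V W
      = Real.log T * (F3.mz x T V W - gi s V W) := by ring
  rw [e3, abs_mul, abs_of_pos hLp]
  have h6 : (ε1 + 3 * (ε / 12)) * gi s V W ≤ ε * gi s V W := by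
    apply mul_le_mul_of_nonneg_right _ hg0
    rw [hε1]
    linarith
  calc Real.log T * |F3.mz x T V W - gi s V W| ≤ Real.log T * (ε * gi s V W) :=
        mul_le_mul_of_nonneg_left (le_trans hmain h6) hLp.le
    _ = ε * (Real.log T * gi s V W) := by ring

end Pool.Agent.Lib.LC
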