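import Mathlib
import Pool.Agent.Lib.MP_f9aece_nt_g2.F3
import Pool.Agent.Lib.MP_f9aece_nt_loc.StmtsTwo
import Pool.Agent.Lib.MP_f9aece_nt_loc.C2a

/-!
K2: the law of the prime sum in intervals under the measure `|zeta| ^ 2 / log T`.
-/

set_option autoImplicit false

namespace Pool.Agent.Lib.G2

open MeasureTheory Set Filter Topology Complex ProbabilityTheory
open scoped ComplexConjugate
open Pool.Agent.Lib.GT

open F3 in
/-- K2, in this namespace -/
theorem lawNuLocAux (hM : NuMain) (hS : NuUp) (hP : WPoint) (hG : WGauss)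
    (hN : GroupNum) (hψ : PsiBd) : Pool.Agent.Lib.LC.LawNuLoc := by
  obtain ⟨Cm, hCm, hM⟩ := hM
  obtain ⟨Cp, C1, v0, hCp, hC1, hP⟩ := hP
  obtain ⟨Cc, hCc, hC⟩ := Pool.Agent.Lib.LC.compLoc hψ
  obtain ⟨Cg, hCg, hG⟩ := hG
  obtain ⟨Cψ, hCψ, hψb, hψc, hc0, -⟩ := hψ
  have hpi : 0 < Real.pi := Real.pi_pos
  set CH : ℝ := Cψ ^ 2 / c0 with hCH
  have hCH0 : 0 ≤ CH := by positivity
  set K0 : ℝ := Cp * Real.pi * (CH * Cg + 3 * Cm) + Cg with hK0
  have hK01 : 1 ≤ K0 := by
    have h1 : 1 ≤ Cp * Real.pi := by nlinarith [Real.pi_gt_three]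
    have h2 : 1 ≤ CH * Cg + 3 * Cm := by nlinarith
    nlinarith
  refine ⟨Cc * (Cm * K0), v0, ?_, ?_⟩
  · have h1 : 1 ≤ Cm * K0 := by nlinarith
    nlinarith
  intro p0 hp0
  obtain ⟨Cm', Tm, hCm', hTm, hM⟩ := hM p0 hp0
  obtain ⟨Cu, Tu, hCu, hTu, hS⟩ := hS p0 hp0
  set K1 : ℝ := Cp * Real.pi * Cm' with hK1
  have hK10 : 0 ≤ K1 := by positivity
  set WM : ℝ := CH * Cg + 3 * Cm + Cm' with hWM
  have hWM0 : 0 ≤ WM := by positivity
  set D1 : ℝ := Cm + 2 * Cu + Cp * (Cp * WM * Real.pi) + Cm' with hD1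
  have hD10 : 1 ≤ D1 := by
    have : 0 ≤ Cp * (Cp * WM * Real.pi) := by positivity
    rw [hD1]
    linarith
  refine ⟨Cc * (D1 * K0 + 2 * Cm * K1 + 2 * D1 * K1 + (K0 + K1)), max Tm Tu, ?_,
    hTm.trans (le_max_left _ _), ?_⟩
  · have h1 : 1 ≤ D1 * K0 := by nlinarith
    have h2 : 0 ≤ 2 * Cm * K1 := by positivity
    have h3 : 0 ≤ 2 * D1 * K1 := by positivity
    nlinarith
  intro A hOk hv hAp hb20 T e hT hLen x V1 V2 hx hV hbV
  have hTm' : Tm ≤ T := (le_max_left _ _).trans hT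
  have hTu' : Tu ≤ T := (le_max_right _ _).trans hT
  have hT0 : 0 < T := by linarith
  have hbe := hOk.hbe
  have hbb := hOk.hbb
  have hb0 : 0 < A.b := lt_of_lt_of_le hbe hbb
  have hG0 : ∀ y, 0 ≤ A.Gs y := fun y => by unfold Par.Gs Par.G; positivity
  have hfin := fin_nu x T hT0
  have he0 : 0 < e := hLen.he
  have he1 : Real.sqrt e ≤ 1 := Real.sqrt_le_one.2 (by have := hLen.he1; linarith)
  have hsq : 0 ≤ Real.sqrt e := Real.sqrt_nonneg _
  set c : ℝ := A.sg * A.vt with hc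
  set E0 : Set ℝ := {t : ℝ | A.Good ∅ (om t)} with hE0
  have hE0m : MeasurableSet E0 := (closed_good A ∅).measurableSet
  set Xf : ℝ → ℝ := fun t => A.X ∅ (om t) with hXf
  have hXc : Continuous Xf := by
    have h1 := cont_X A ∅
    rw [hXf]
    fun_prop
  set ν : Measure ℝ := ((nu x T).restrict E0).map Xf with hν
  set ν0 : Measure ℝ := gaussianReal 0 (Real.toNNReal A.s2) with hν0
  set ν' : Measure ℝ := ν0.map (fun z => z + c) with hν'
  have hmc : Measurable fun z : ℝ => z + c := measurable_id.add_const c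
  have hν'f : IsFiniteMeasure ν' := by rw [hν']; infer_instance
  -- the small quantities
  have hE3 : 0 < Real.exp (-(A.v : ℝ)) := Real.exp_pos _
  have hE3' : Real.exp (-(A.v : ℝ)) ≤ 1 := Real.exp_le_one_iff.2 (by
    have : (0 : ℝ) ≤ A.v := Nat.cast_nonneg _
    linarith)
  have hv1 : (1 : ℝ) ≤ A.v := by
    have := hOk.hv
    exact_mod_cast (by omega : 1 ≤ A.v)
  have hp1 : (1 : ℝ) ≤ A.p0 := by
    have := hOk.hp
    exact_mod_cast (by omega : 1 ≤ A.p0)
  have hq1 : 1 / (A.v : ℝ) ≤ 1 := by rw [div_le_one (by linarith)]; exact hv1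
  have hq2 : 1 / (A.p0 : ℝ) ≤ 1 := by rw [div_le_one (by linarith)]; exact hp1
  have hq3 : 0 ≤ 1 / (A.v : ℝ) := by positivity
  have hq4 : 0 ≤ 1 / (A.p0 : ℝ) := by positivity
  -- the windows and the envelope of the Gaussian measure
  have hEnv0 : ∀ y z, 0 ≤ Env A.be A.b y z := fun y z => by unfold Env; positivity
  have hEi' : ∀ y : ℝ, Integrable (Env A.be A.b y) ν0 := by
    intro y
    have h1 : Integrable (fun z => A.b * Real.exp (-(A.be * y)) * Real.exp (A.be * z)) ν0 :=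
      (integrable_exp_mul_gaussianReal A.be).const_mul _
    refine h1.mono' (cont_Env _ _ y).aestronglyMeasurable (Eventually.of_forall fun z => ?_)
    rw [Real.norm_eq_abs, abs_of_nonneg (hEnv0 y z)]
    unfold Env
    rw [mul_assoc, ← Real.exp_add, show -(A.be * y) + A.be * z = A.be * (z - y) by ring]
    refine mul_le_mul_of_nonneg_left ?_ hb0.le
    refine div_le_self (Real.exp_pos _).le ?_
    nlinarith [sq_nonneg (A.b * (z - y))]
  have hHH0 : ∀ y z, 0 ≤ HH A.be A.b y z := fun y z => by unfold HH; positivity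
  have hHi' : ∀ y : ℝ, Integrable (HH A.be A.b y) ν0 := fun y =>
    ((hEi' y).const_mul CH).mono' (cont_HH hψc _ _ y).aestronglyMeasurable
      (Eventually.of_forall fun z => by
        rw [Real.norm_eq_abs, abs_of_nonneg (hHH0 y z)]
        exact hh_le hψb hc0 hb0.le y z)
  have hHl' : ∀ y : ℝ, ∫ z, HH A.be A.b (y - c) z ∂ν0 ≤ CH * (Cg * A.Gs y) := by
    intro y
    calc ∫ z, HH A.be A.b (y - c) z ∂ν0 ≤ ∫ z, CH * Env A.be A.b (y - c) z ∂ν0 :=
          integral_mono (hHi' _) ((hEi' _).const_mul CH) fun z => hh_le hψb hc0 hb0.le _ z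
      _ = CH * ∫ z, Env A.be A.b (y - c) z ∂ν0 := integral_const_mul _ _
      _ ≤ CH * (Cg * A.Gs y) := by
          refine mul_le_mul_of_nonneg_left ?_ hCH0
          exact (hG A hOk (y - c)).2.2
  -- the weights
  set Wm : ℝ := CH * Cg + 3 * Cm + Cm' * Real.sqrt e with hWm
  have hWm0 : 0 ≤ Wm := by positivity
  have hWmM : Wm ≤ WM := by
    rw [hWm, hWM]
    nlinarith
  have hWc : ∀ y : ℝ, Continuous fun t : ℝ => A.W ∅ y (om t) := fun y => cont_W A ∅ y
  have hW0 : ∀ (y : ℝ) (t : ℝ), 0 ≤ A.W ∅ y (om t) := fun y t => Wg_nonneg A hb0.le _ _ _ _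
  have hWi : ∀ y : ℝ, Integrable (fun t => A.W ∅ y (om t)) (nu x T) := by
    intro y
    have h1 : ∫⁻ t, ENNReal.ofReal (A.W ∅ y (om t)) ∂(nu x T) ≤
        ENNReal.ofReal (Cu * Real.exp (-∑ g ∈ (∅ : Finset ℕ), (A.r g : ℝ)) * A.Gs y) := by
      unfold Par.W
      exact hS A hOk hAp T e hTu' hLen x y hx ∅ ∅ subset_rfl (Finset.empty_subset _)
    have h2 : 0 ≤ Cu * Real.exp (-∑ g ∈ (∅ : Finset ℕ), (A.r g : ℝ)) * A.Gs y :=
      mul_nonneg (mul_nonneg (by linarith) (Real.exp_pos _).le) (hG0 y)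
    exact (int_of_lint (hWc y).aestronglyMeasurable (hW0 y) h2 h1).1
  have hWb : ∀ y : ℝ, ∫ t, A.W ∅ y (om t) ∂(nu x T) ≤ Wm * A.Gs y := by
    intro y
    have h1 := (abs_le.1 (hM A hOk hAp T e hTm' hLen x y hx)).2
    have h2 := hHl' y
    have h3 : Cm * (Real.exp (-A.v) + 1 / A.p0 + 1 / A.v) ≤ 3 * Cm := by nlinarith
    have h4 : (Cm * (Real.exp (-A.v) + 1 / A.p0 + 1 / A.v) + Cm' * Real.sqrt e) * A.Gs y ≤
        (3 * Cm + Cm' * Real.sqrt e) * A.Gs y :=
      mul_le_mul_of_nonneg_right (by linarith) (hG0 y)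
    have h5 : Wm * A.Gs y = CH * (Cg * A.Gs y) + (3 * Cm + Cm' * Real.sqrt e) * A.Gs y := by
      rw [hWm]; ring
    rw [h5]
    linarith
  have hWl : ∀ y : ℝ, ∫⁻ t, ENNReal.ofReal (A.W ∅ y (om t)) ∂(nu x T) ≤
      ENNReal.ofReal (Wm * A.Gs y) := by
    intro y
    rw [← ofReal_integral_eq_lintegral_ofReal (hWi y) (Eventually.of_forall (hW0 y))]
    exact ENNReal.ofReal_le_ofReal (hWb y)
  -- the envelope
  have hEl : ∀ y : ℝ, ∫⁻ t in E0, ENNReal.ofReal (Env A.be A.b y (Xf t)) ∂(nu x T) ≤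
      ENNReal.ofReal (Cp * Wm * Real.pi * A.Gs y) := by
    intro y
    have h1 := tonelli A ∅ (nu x T) Wm (Cp * A.b) A.Gs hWm0 (by positivity) hWl E0
      (fun t => ENNReal.ofReal (Env A.be A.b y (Xf t)))
      (fun y' => Real.exp (A.be * (y' - y)) / (1 + (A.b * (y' - y)) ^ 2))
      (by
        refine Continuous.measurable (Continuous.div (by fun_prop) (by fun_prop) ?_)
        intro p
        positivity)
      (fun y' => by positivity) univ (by
        intro t ht
        have h2 := (hP A hOk hv ∅ (Finset.empty_subset _) (om t) ht (by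
          intro g hg
          exact absurd hg (Finset.notMem_empty g))).2.2.1 y
        rw [setLIntegral_univ]
        exact h2)
    refine h1.trans ?_
    refine (mul_le_mul' le_rfl (int_w A hb0 y)).trans ?_
    rw [← ENNReal.ofReal_mul (by positivity)]
    refine ENNReal.ofReal_le_ofReal (le_of_eq ?_)
    field_simp
  have hEi : ∀ y : ℝ, IntegrableOn (fun t => Env A.be A.b y (Xf t)) E0 (nu x T) ∧
      ∫ t in E0, Env A.be A.b y (Xf t) ∂(nu x T) ≤ Cp * Wm * Real.pi * A.Gs y := fun y =>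
    int_of_lint ((cont_Env _ _ y).comp hXc).aestronglyMeasurable (fun t => hEnv0 _ _)
      (mul_nonneg (by positivity) (hG0 y)) (hEl y)
  -- the factor
  set K : ℝ := Cp * Real.pi * Wm + Cg with hK
  have hKK : K = K0 + K1 * Real.sqrt e := by rw [hK, hWm, hK0, hK1]; ring
  have hKone : 1 ≤ K := by
    rw [hKK]
    have : 0 ≤ K1 * Real.sqrt e := mul_nonneg hK10 hsq
    linarith
  have hGV : ∀ y : ℝ, K * A.Gs V1 * Real.exp (-(A.be * (y - V1))) = K * A.Gs y := by
    intro y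
    have e1 : A.Gs y = A.Gs V1 * Real.exp (-(A.be * (y - V1))) := by
      unfold Par.Gs Par.G
      rw [mul_assoc, ← Real.exp_add]
      congr 2
      ring
    rw [e1]
    ring
  set ε : ℝ := Cm * (1 / A.p0 + 1 / A.v) + D1 * (Real.exp (-A.v) + Real.sqrt e) with hε
  have hε0 : 0 ≤ ε := by positivity
  have hcmp := hC A.be A.b (K * A.Gs V1) V1 V2 ε ν ν' hbe hbb hb20 hε0
    (mul_nonneg (by linarith) (hG0 V1)) hV hbV inferInstance hν'f
    (by
      intro y
      rw [hGV y]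
      have hm : AEMeasurable Xf ((nu x T).restrict E0) := hXc.measurable.aemeasurable
      constructor
      · rw [hν, integrable_map_measure (cont_Env _ _ y).aestronglyMeasurable hm]
        exact (hEi y).1
      · rw [hν, integral_map hm (cont_Env _ _ y).aestronglyMeasurable]
        refine (hEi y).2.trans ?_
        refine mul_le_mul_of_nonneg_right ?_ (hG0 y)
        rw [hK]
        nlinarith)
    (by
      intro y
      rw [hGV y]
      constructor
      · rw [hν', integrable_map_measure (cont_Env _ _ y).aestronglyMeasurable hmc.aemeasurable]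
        refine (hEi' (y - c)).congr (Eventually.of_forall fun z => ?_)
        exact (env_shift _ _ y c z).symm
      · rw [hν', integral_map hmc.aemeasurable (cont_Env _ _ y).aestronglyMeasurable]
        simp_rw [env_shift]
        refine (hG A hOk (y - c)).2.2.trans ?_
        refine mul_le_mul_of_nonneg_right ?_ (hG0 y)
        rw [hK]
        have : 0 ≤ Cp * Real.pi * Wm := by positivity
        linarith)
    (by
      intro y
      rw [hGV y]
      have hm : AEMeasurable Xf ((nu x T).restrict E0) := hXc.measurable.aemeasurable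
      rw [hν, integral_map hm (cont_HH hψc _ _ y).aestronglyMeasurable, hν',
        integral_map hmc.aemeasurable (cont_HH hψc _ _ y).aestronglyMeasurable]
      simp_rw [hh_shift]
      -- the difference at the good points
      have hd : ∀ t ∈ E0, |HH A.be A.b y (Xf t) - A.W ∅ y (om t)| ≤
          Cp * Real.exp (-A.v) * Env A.be A.b y (Xf t) := by
        intro t ht
        rw [abs_sub_comm]
        exact (hP A hOk hv ∅ (Finset.empty_subset _) (om t) ht (by
          intro g hg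
          exact absurd hg (Finset.notMem_empty g))).2.2.2.1 rfl y
      have hdi : IntegrableOn (fun t => HH A.be A.b y (Xf t) - A.W ∅ y (om t)) E0 (nu x T) := by
        refine ((hEi y).1.const_mul (Cp * Real.exp (-A.v))).mono' ?_ ?_
        · exact (((cont_HH hψc _ _ y).comp hXc).sub (hWc y)).aestronglyMeasurable
        · filter_upwards [ae_restrict_mem hE0m] with t ht
          rw [Real.norm_eq_abs]
          exact hd t ht
      have hHi : IntegrableOn (fun t => HH A.be A.b y (Xf t)) E0 (nu x T) := by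
        have h1 := hdi.add (hWi y).integrableOn
        refine h1.congr (Eventually.of_forall fun t => ?_)
        simp
      have e1 : (∫ t in E0, HH A.be A.b y (Xf t) ∂(nu x T)) - ∫ t, A.W ∅ y (om t) ∂(nu x T) =
          (∫ t in E0, (HH A.be A.b y (Xf t) - A.W ∅ y (om t)) ∂(nu x T)) -
            ∫ t in E0ᶜ, A.W ∅ y (om t) ∂(nu x T) := by
        rw [integral_sub hHi (hWi y).integrableOn, ← integral_add_compl hE0m (hWi y)]
        ring
      have b1 : |∫ t in E0, (HH A.be A.b y (Xf t) - A.W ∅ y (om t)) ∂(nu x T)| ≤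
          Cp * Real.exp (-A.v) * (Cp * Wm * Real.pi * A.Gs y) := by
        rw [← Real.norm_eq_abs]
        refine (norm_integral_le_of_norm_le ((hEi y).1.const_mul (Cp * Real.exp (-A.v)))
          ?_).trans ?_
        · filter_upwards [ae_restrict_mem hE0m] with t ht
          rw [Real.norm_eq_abs]
          exact hd t ht
        · rw [integral_const_mul]
          exact mul_le_mul_of_nonneg_left (hEi y).2 (by positivity)
      have b2 : |∫ t in E0ᶜ, A.W ∅ y (om t) ∂(nu x T)| ≤ 2 * Cu * Real.exp (-A.v) * A.Gs y := by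
        have h1 := not_good A hOk hb0.le hN hCu (nu x T) y fun g hg => by
          have h2 := hS A hOk hAp T e hTu' hLen x y hx ∅ {g} (Finset.empty_subset _)
            (Finset.singleton_subset_iff.2 (Finset.mem_range.2 hg))
          rwa [Finset.sum_singleton] at h2
        have h2 := int_of_lint (hWc y).aestronglyMeasurable (hW0 y)
          (mul_nonneg (by positivity) (hG0 y)) h1
        rw [abs_of_nonneg (integral_nonneg fun t => hW0 y t)]
        exact h2.2
      have b3 := hM A hOk hAp T e hTm' hLen x y hx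
      have b4 : |(∫ t in E0, HH A.be A.b y (Xf t) ∂(nu x T)) - ∫ z, HH A.be A.b (y - c) z ∂ν0| ≤
          Cp * Real.exp (-A.v) * (Cp * Wm * Real.pi * A.Gs y) + 2 * Cu * Real.exp (-A.v) * A.Gs y +
            (Cm * (Real.exp (-A.v) + 1 / A.p0 + 1 / A.v) + Cm' * Real.sqrt e) * A.Gs y := by
        have e2 : (∫ t in E0, HH A.be A.b y (Xf t) ∂(nu x T)) - ∫ z, HH A.be A.b (y - c) z ∂ν0 =
            ((∫ t in E0, HH A.be A.b y (Xf t) ∂(nu x T)) - ∫ t, A.W ∅ y (om t) ∂(nu x T)) +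
            ((∫ t, A.W ∅ y (om t) ∂(nu x T)) - ∫ z, HH A.be A.b (y - c) z ∂ν0) := by ring
        rw [e2, e1]
        exact (abs_add_le _ _).trans (add_le_add ((abs_sub _ _).trans (add_le_add b1 b2)) b3)
      refine b4.trans ?_
      have hg := hG0 y
      have c1 : Cp * (Cp * Wm * Real.pi) ≤ Cp * (Cp * WM * Real.pi) := by gcongr
      have c2 : Cp * (Cp * Wm * Real.pi) * Real.exp (-A.v) ≤
          Cp * (Cp * WM * Real.pi) * Real.exp (-A.v) := mul_le_mul_of_nonneg_right c1 hE3.le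
      have c3 : Cp * Real.exp (-A.v) * (Cp * Wm * Real.pi) + 2 * Cu * Real.exp (-A.v) +
          (Cm * (Real.exp (-A.v) + 1 / A.p0 + 1 / A.v) + Cm' * Real.sqrt e) ≤ ε := by
        have i1 : 0 ≤ (Cm + 2 * Cu + Cp * (Cp * WM * Real.pi)) * Real.sqrt e := by positivity
        have i2 : 0 ≤ Cm' * Real.exp (-A.v) := by positivity
        rw [hε, hD1]
        linarith
      calc Cp * Real.exp (-A.v) * (Cp * Wm * Real.pi * A.Gs y) + 2 * Cu * Real.exp (-A.v) * A.Gs y +
            (Cm * (Real.exp (-A.v) + 1 / A.p0 + 1 / A.v) + Cm' * Real.sqrt e) * A.Gs y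
          = (Cp * Real.exp (-A.v) * (Cp * Wm * Real.pi) + 2 * Cu * Real.exp (-A.v) +
            (Cm * (Real.exp (-A.v) + 1 / A.p0 + 1 / A.v) + Cm' * Real.sqrt e)) * A.Gs y := by ring
        _ ≤ ε * A.Gs y := mul_le_mul_of_nonneg_right c3 hg
        _ = ε * (1 * A.Gs y) := by ring
        _ ≤ ε * (K * A.Gs y) :=
            mul_le_mul_of_nonneg_left (mul_le_mul_of_nonneg_right hKone hg) hε0)
  -- the measure of the interval
  have e3 : ν (Ioc V1 V2) =
      nu x T {t | A.Good ∅ (om t) ∧ V1 < A.X ∅ (om t) ∧ A.X ∅ (om t) ≤ V2} := by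
    rw [hν, Measure.map_apply hXc.measurable measurableSet_Ioc,
      Measure.restrict_apply (hXc.measurable measurableSet_Ioc)]
    congr 1
    ext t
    simp [hE0, hXf, and_comm]
  have e4 : ν' (Ioc V1 V2) = ν0 (Ioc (V1 - c) (V2 - c)) := by
    rw [hν', Measure.map_apply hmc measurableSet_Ioc]
    congr 1
    ext t
    simp only [mem_preimage, mem_Ioc]
    rw [sub_lt_iff_lt_add, le_sub_iff_add_le]
  rw [e3, e4] at hcmp
  refine hcmp.trans ?_
  set η0 : ℝ := 1 / A.p0 + 1 / A.v with hη0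
  set η1 : ℝ := Real.exp (-A.v) + Real.sqrt e with hη1
  have hη00 : 0 ≤ η0 := by positivity
  have hη04 : η0 ≤ 2 := by rw [hη0]; linarith
  have hη10 : 0 ≤ η1 := by positivity
  have hη12 : η1 ≤ 2 := by rw [hη1]; linarith
  have hg : 0 ≤ A.Gs V1 := hG0 V1
  have hl1 : 1 ≤ V2 - V1 := by linarith
  have hs1 : 1 ≤ Real.sqrt (V2 - V1) := Real.one_le_sqrt.2 hl1
  have h6 : K ≤ K0 + K1 * η1 := by
    rw [hKK]
    have : K1 * Real.sqrt e ≤ K1 * η1 := mul_le_mul_of_nonneg_left (by rw [hη1]; linarith) hK10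
    linarith
  have h6' : K ≤ K0 + K1 := by
    rw [hKK]
    have : K1 * Real.sqrt e ≤ K1 * 1 := mul_le_mul_of_nonneg_left he1 hK10
    linarith
  have h7 : (Cm * η0 + D1 * η1) * (K0 + K1 * η1) ≤
      Cm * K0 * η0 + (D1 * K0 + 2 * Cm * K1 + 2 * D1 * K1) * η1 := by
    have i1 : Cm * K1 * η1 * η0 ≤ Cm * K1 * η1 * 2 :=
      mul_le_mul_of_nonneg_left hη04 (by positivity)
    have i2 : D1 * K1 * η1 * η1 ≤ D1 * K1 * η1 * 2 :=
      mul_le_mul_of_nonneg_left hη12 (by positivity)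
    have i3 : (Cm * η0 + D1 * η1) * (K0 + K1 * η1) = Cm * K0 * η0 + D1 * K0 * η1 +
        Cm * K1 * η1 * η0 + D1 * K1 * η1 * η1 := by ring
    rw [i3]
    linarith
  have h8 : 0 ≤ Cm * η0 + D1 * η1 := by positivity
  have h9 : ε * K ≤ Cm * K0 * η0 + (D1 * K0 + 2 * Cm * K1 + 2 * D1 * K1) * η1 := by
    have i1 : ε = Cm * η0 + D1 * η1 := hε
    rw [i1]
    exact (mul_le_mul_of_nonneg_left h6 h8).trans h7
  set Q1 : ℝ := D1 * K0 + 2 * Cm * K1 + 2 * D1 * K1 with hQ1
  have hQ0 : 0 ≤ Q1 := by positivity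
  have h10 : (ε * (V2 - V1) + 1) * K ≤ (Cm * K0 * η0 + (Q1 + (K0 + K1)) * η1) * (V2 - V1) +
      (Q1 + (K0 + K1)) * Real.sqrt (V2 - V1) := by
    have i1 : ε * K * (V2 - V1) ≤ (Cm * K0 * η0 + Q1 * η1) * (V2 - V1) :=
      mul_le_mul_of_nonneg_right h9 (by linarith)
    have i2 : 0 ≤ (K0 + K1) * η1 * (V2 - V1) :=
      mul_nonneg (mul_nonneg (by linarith) hη10) (by linarith)
    have i3 : (K0 + K1) * 1 ≤ (K0 + K1) * Real.sqrt (V2 - V1) :=
      mul_le_mul_of_nonneg_left hs1 (by linarith)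
    have i4 : 0 ≤ Q1 * Real.sqrt (V2 - V1) := by positivity
    have i5 : (ε * (V2 - V1) + 1) * K = ε * K * (V2 - V1) + K := by ring
    rw [i5]
    have i6 : (Cm * K0 * η0 + (Q1 + (K0 + K1)) * η1) * (V2 - V1) =
        (Cm * K0 * η0 + Q1 * η1) * (V2 - V1) + (K0 + K1) * η1 * (V2 - V1) := by ring
    rw [i6]
    linarith
  calc Cc * (ε * (V2 - V1) + 1) * (K * A.Gs V1)
      = Cc * ((ε * (V2 - V1) + 1) * K) * A.Gs V1 := by ring
    _ ≤ Cc * ((Cm * K0 * η0 + (Q1 + (K0 + K1)) * η1) * (V2 - V1) +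
          (Q1 + (K0 + K1)) * Real.sqrt (V2 - V1)) * A.Gs V1 :=
        mul_le_mul_of_nonneg_right (mul_le_mul_of_nonneg_left h10 (by linarith)) hg
    _ = _ := by ring

end Pool.Agent.Lib.G2

namespace Pool.Agent.Lib.LC

/-- K2 -/
theorem lawNuLoc (hX : G2.NuMain) (hU : G2.NuUp) (hP : G2.WPoint) (_hW : TiltW2) (hG : G2.WGauss)
    (hN : G2.GroupNum) (h1 : GT.PsiBd) : LawNuLoc :=
  Pool.Agent.Lib.G2.lawNuLocAux hX hU hP hG hN h1

end Pool.Agent.Lib.LC
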