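import Mathlib
import Pool.Agent.Lib.MP_f9aece_nt_g2.Lev
import Pool.Agent.Lib.MP_f9aece_nt_loc.StmtsTwo

/-!
The law of `log |zeta|` at bounded scale, measure `|zeta| ^ 2`: tools for module K3 (sets of heights
with values of the prime sum in an interval, easy tails, sizes of the windows at the levels, numbers).
-/

set_option autoImplicit false

namespace Pool.Agent.Lib.LC

open MeasureTheory Set Filter Topology Complex ProbabilityTheory
open scoped ComplexConjugate
open Pool.Agent.Lib.G2
open Pool.Agent.Lib.GT (om un Om RR lin tex continuous_om prob_un)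

namespace K3aux

lemma cont_lin (S : Finset ℕ) (c : ℕ → ℂ) : Continuous fun t : ℝ => lin S c (om t) := by
  have h : Continuous fun x : Om => lin S c x := by
    unfold lin
    fun_prop
  exact h.comp continuous_om

lemma cont_P (A : Par) (g : ℕ) : Continuous fun t : ℝ => A.P g (om t) := cont_lin _ _

lemma cont_X (A : Par) (s : Finset ℕ) : Continuous fun t : ℝ => A.X s (om t) := by
  unfold Par.X Par.Xt
  exact continuous_const.mul
    (continuous_finsetSum _ fun g _ => Complex.continuous_re.comp (cont_P A g))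

lemma cont_mo (A : Par) (μ : ℂ) (s : Finset ℕ) : Continuous fun t : ℝ => A.mo μ s (om t) := by
  unfold Par.mo
  refine continuous_finsetProd _ fun g _ => ?_
  have h : Continuous fun t : ℝ => A.P g (om t) := cont_lin _ _
  unfold tex
  fun_prop

lemma cont_ze : Continuous ze := by
  unfold ze
  rw [continuous_iff_continuousAt]
  intro t
  have h1 : (1 / 2 + I * t : ℂ) ≠ 1 := by
    intro h
    have := congrArg Complex.re h
    norm_num at this
  have h2 : ContinuousAt (fun t : ℝ => (1 / 2 + I * t : ℂ)) t := by fun_prop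
  exact ContinuousAt.comp (g := riemannZeta) (f := fun t : ℝ => (1 / 2 + I * t : ℂ))
    (differentiableAt_riemannZeta h1).continuousAt h2

lemma meas_dens (T : ℝ) : Measurable fun t : ℝ => ENNReal.ofReal (‖ze t‖ ^ 2 / Real.log T) :=
  ENNReal.measurable_ofReal.comp (((cont_ze.norm.pow 2).div_const _).measurable)

lemma lint_nu (x T : ℝ) (f : ℝ → ENNReal) : ∫⁻ t, f t ∂(nu x T)
    = ∫⁻ t, f t * ENNReal.ofReal (‖ze t‖ ^ 2 / Real.log T) ∂(un x T) := by
  unfold nu
  rw [lintegral_withDensity_eq_lintegral_mul_non_measurable _ (meas_dens T)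
    (Filter.Eventually.of_forall fun t => ENNReal.ofReal_lt_top)]
  refine lintegral_congr fun t => ?_
  rw [Pi.mul_apply, mul_comm]

lemma nu_apply (x : ℝ) {T : ℝ} (hT : 0 < T) (S : Set ℝ) : nu x T S
    = ∫⁻ t in S, ENNReal.ofReal (‖ze t‖ ^ 2 / Real.log T) ∂(un x T) := by
  have : IsProbabilityMeasure (un x T) := prob_un x hT
  unfold nu
  exact withDensity_apply' _ _

lemma nu_fin (x : ℝ) {T : ℝ} (hT : 0 < T) : IsFiniteMeasure (nu x T) := by
  refine ⟨?_⟩
  rw [nu_apply x hT, Measure.restrict_univ]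
  unfold un
  rw [lintegral_smul_measure]
  refine ENNReal.mul_lt_top ?_ ?_
  · rw [ENNReal.inv_lt_top]
    exact ENNReal.ofReal_pos.2 hT
  · exact setLIntegral_lt_top_of_isCompact (by rw [Real.volume_Icc]; exact ENNReal.ofReal_ne_top)
      isCompact_Icc (f := fun t => Real.toNNReal (‖ze t‖ ^ 2 / Real.log T))
      (continuous_real_toNNReal.comp ((cont_ze.norm.pow 2).div_const _))

lemma meas_GB (A : Par) (s : Finset ℕ) :
    MeasurableSet {t : ℝ | A.Good s (om t) ∧ A.Bad s (om t)} := by
  have h1 : MeasurableSet {t : ℝ | A.Good s (om t)} := by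
    have : {t : ℝ | A.Good s (om t)}
        = ⋂ g ∈ (Finset.range A.J \ s), {t : ℝ | ‖A.P g (om t)‖ ≤ RR (A.r g)} := by
      ext t
      simp only [Par.Good, Set.mem_ofPred_eq, Set.mem_iInter]
    rw [this]
    exact Finset.measurableSet_biInter _ fun g _ =>
      (isClosed_le (cont_P A g).norm continuous_const).measurableSet
  have h2 : MeasurableSet {t : ℝ | A.Bad s (om t)} := by
    have : {t : ℝ | A.Bad s (om t)} = ⋂ g ∈ s, {t : ℝ | RR (A.r g) < ‖A.P g (om t)‖} := by
      ext t
      simp only [Par.Bad, Set.mem_ofPred_eq, Set.mem_iInter]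
    rw [this]
    exact Finset.measurableSet_biInter _ fun g _ =>
      (isOpen_lt continuous_const (cont_P A g).norm).measurableSet
  exact h1.inter h2

lemma meas_Ez (sg V h : ℝ) : MeasurableSet (Ez sg V h) := by
  have h0 : Measurable fun t : ℝ => sg * Real.log ‖ze t‖ :=
    (Real.measurable_log.comp cont_ze.norm.measurable).const_mul sg
  exact (isOpen_ne_fun cont_ze continuous_const).measurableSet.inter
    ((measurableSet_lt measurable_const h0).inter (measurableSet_le h0 measurable_const))

/-- the conclusion of `TiltW2` -/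
def Tc (B : Par) (Ct K1 x T : ℝ) (s : Finset ℕ) : Prop := ∀ κ : ℝ, 0 ≤ κ →
  ∀ H : ℝ → ENNReal, Measurable H →
  (∀ y : ℝ, ∫⁻ t, ENNReal.ofReal (B.W s y (om t)) * H t ∂(un x T) ≤ ENNReal.ofReal (κ * B.Gs y)) →
  ∀ ω ω' : ℝ → ENNReal, Measurable ω → Measurable ω' → (∀ u y : ℝ, |u - y| ≤ K1 → ω u ≤ ω' y) →
  ∫⁻ t in {t | B.Good s (om t) ∧ B.Bad s (om t)}, ω (B.X s (om t)) * H t ∂(un x T)
    ≤ ENNReal.ofReal (Ct * κ) * ∫⁻ y : ℝ, ω' y * ENNReal.ofReal (B.Gs y)

/-- values of the prime sum in an interval -/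
lemma winSet {B : Par} {Ct K1 x T : ℝ} {s : Finset ℕ} (tc : Tc B Ct K1 x T s) (hCt : 0 ≤ Ct)
    {κ : ℝ} (hκ : 0 ≤ κ) {H : ℝ → ENNReal} (hH : Measurable H)
    (hb : ∀ y : ℝ, ∫⁻ t, ENNReal.ofReal (B.W s y (om t)) * H t ∂(un x T)
      ≤ ENNReal.ofReal (κ * B.Gs y))
    {a b G0 : ℝ} (hG0 : 0 ≤ G0) (hG : ∀ y, a - K1 ≤ y → B.Gs y ≤ G0) :
    ∫⁻ t in {t | B.Good s (om t) ∧ B.Bad s (om t) ∧ a < B.X s (om t) ∧ B.X s (om t) ≤ b}, H t ∂(un x T)
      ≤ ENNReal.ofReal (Ct * κ * ((b - a + 2 * K1) * G0)) := by
  have h1 := tc κ hκ H hH hb ((Ioc a b).indicator 1) ((Icc (a - K1) (b + K1)).indicator 1)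
    (measurable_one.indicator measurableSet_Ioc) (measurable_one.indicator measurableSet_Icc) (by
      intro u y huy
      by_cases hu : u ∈ Ioc a b
      · have hy : y ∈ Icc (a - K1) (b + K1) := by
          rw [abs_le] at huy
          exact ⟨by linarith [hu.1, huy.2], by linarith [hu.2, huy.1]⟩
        rw [indicator_of_mem hu, indicator_of_mem hy]
        simp
      · rw [indicator_of_notMem hu]
        exact bot_le)
  have hM : MeasurableSet ((fun t : ℝ => B.X s (om t)) ⁻¹' (Ioc a b)) :=
    (cont_X B s).measurable measurableSet_Ioc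
  have e1 : {t : ℝ | B.Good s (om t) ∧ B.Bad s (om t) ∧ a < B.X s (om t) ∧ B.X s (om t) ≤ b}
      = ((fun t : ℝ => B.X s (om t)) ⁻¹' (Ioc a b)) ∩ {t | B.Good s (om t) ∧ B.Bad s (om t)} := by
    ext t
    simp only [Set.mem_ofPred_eq, Set.mem_inter_iff, Set.mem_preimage, Set.mem_Ioc]
    tauto
  have e2 : ∫⁻ t in {t | B.Good s (om t) ∧ B.Bad s (om t)},
      (Ioc a b).indicator 1 (B.X s (om t)) * H t ∂(un x T)
      = ∫⁻ t in {t | B.Good s (om t) ∧ B.Bad s (om t)},
        ((fun t : ℝ => B.X s (om t)) ⁻¹' (Ioc a b)).indicator H t ∂(un x T) := by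
    refine lintegral_congr fun t => ?_
    by_cases ht : B.X s (om t) ∈ Ioc a b
    · rw [indicator_of_mem ht, indicator_of_mem (show t ∈ (fun t : ℝ => B.X s (om t)) ⁻¹' (Ioc a b)
        from ht)]
      simp
    · rw [indicator_of_notMem ht, indicator_of_notMem (show t ∉ (fun t : ℝ => B.X s (om t)) ⁻¹'
        (Ioc a b) from ht), zero_mul]
  rw [e1, ← setLIntegral_indicator hM, ← e2]
  refine h1.trans ?_
  have h2 : ∫⁻ y : ℝ, (Icc (a - K1) (b + K1)).indicator 1 y * ENNReal.ofReal (B.Gs y)
      ≤ ENNReal.ofReal ((b - a + 2 * K1) * G0) := by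
    calc ∫⁻ y : ℝ, (Icc (a - K1) (b + K1)).indicator 1 y * ENNReal.ofReal (B.Gs y)
        ≤ ∫⁻ y : ℝ, (Icc (a - K1) (b + K1)).indicator (fun _ => ENNReal.ofReal G0) y := by
          refine lintegral_mono fun y => ?_
          by_cases hy : y ∈ Icc (a - K1) (b + K1)
          · rw [indicator_of_mem hy, indicator_of_mem hy, Pi.one_apply, one_mul]
            exact ENNReal.ofReal_le_ofReal (hG y hy.1)
          · rw [indicator_of_notMem hy, zero_mul]
            exact bot_le
      _ = ENNReal.ofReal G0 * ENNReal.ofReal (b + K1 - (a - K1)) := by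
          rw [lintegral_indicator measurableSet_Icc, lintegral_const, Measure.restrict_apply_univ,
            Real.volume_Icc]
      _ = _ := by
          rw [← ENNReal.ofReal_mul hG0]
          congr 1
          ring
  rw [ENNReal.ofReal_mul (by positivity : 0 ≤ Ct * κ)]
  gcongr

lemma Gs_shift (B : Par) (y V : ℝ) : B.Gs y = Real.exp (-(B.be * (y - V))) * B.Gs V := by
  unfold Par.Gs Par.G
  rw [mul_left_comm, ← Real.exp_add]
  congr 2
  ring

lemma Gs_nonneg (B : Par) (y : ℝ) : 0 ≤ B.Gs y := by unfold Par.Gs Par.G; positivity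

/-- the easy tail -/
def Ea (B : Par) (s : Finset ℕ) (V h : ℝ) : Set ℝ :=
  {t | (B.sg = 1 ∧ V + h < B.X s (om t)) ∨ (B.sg = -1 ∧ B.X s (om t) < V)}

lemma int_up {c d : ℝ} : ∫⁻ y in Ioi c, ENNReal.ofReal (Real.exp (-2 * (y - d)))
    = ENNReal.ofReal (Real.exp (-2 * (c - d)) / 2) := by
  have e : ∀ y : ℝ, Real.exp (-2 * (y - d)) = Real.exp (2 * d) * Real.exp (-2 * y) := by
    intro y
    rw [← Real.exp_add]
    congr 1
    ring
  rw [← ofReal_integral_eq_lintegral_ofReal]
  · simp only [e]
    rw [integral_const_mul, integral_exp_mul_Ioi (by norm_num)]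
    congr 1
    ring
  · simp only [e]
    exact (integrableOn_exp_mul_Ioi (by norm_num) c).const_mul _
  · exact Eventually.of_forall fun y => (Real.exp_pos _).le

lemma int_low {a c V : ℝ} (ha : 1 ≤ a) : ∫⁻ y in Iio (V + c), ENNReal.ofReal (Real.exp (a * (y - V)))
    ≤ ENNReal.ofReal (Real.exp (a * c)) := by
  have e : ∀ y : ℝ, Real.exp (a * (y - V)) = Real.exp (-(a * V)) * Real.exp (a * y) := by
    intro y
    rw [← Real.exp_add]
    congr 1
    ring
  have h1 : ∫⁻ y in Iic (V + c), ENNReal.ofReal (Real.exp (a * (y - V)))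
      = ENNReal.ofReal (Real.exp (a * c) / a) := by
    rw [← ofReal_integral_eq_lintegral_ofReal]
    · simp only [e]
      rw [integral_const_mul, integral_exp_mul_Iic (by linarith), ← mul_div_assoc, ← Real.exp_add]
      congr 3
      ring
    · simp only [e]
      exact (integrableOn_exp_mul_Iic (by linarith) _).const_mul _
    · exact Eventually.of_forall fun y => (Real.exp_pos _).le
  refine (lintegral_mono_set Iio_subset_Iic_self).trans ?_
  rw [h1]
  refine ENNReal.ofReal_le_ofReal ?_
  exact div_le_self (Real.exp_pos _).le ha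

/-- from a pointwise bound to the easy tail -/
lemma tail_gen {B : Par} {Ct K1 x T : ℝ} {s : Finset ℕ} (tc : Tc B Ct K1 x T s) (hCt : 0 ≤ Ct)
    (hT : 0 < T) (hL : 0 < Real.log T) {κ : ℝ} (hκ : 0 ≤ κ)
    (hb : ∀ y : ℝ, ∫⁻ t, ENNReal.ofReal (B.W s y (om t) * ‖B.mo 1 s (om t)‖ ^ 2) ∂(un x T)
      ≤ ENNReal.ofReal (κ * B.Gs y)) {S : Set ℝ}
    (hS : S ⊆ {t | B.Good s (om t) ∧ B.Bad s (om t)}) (hSm : MeasurableSet S)
    {ω ω' : ℝ → ENNReal} (hω : Measurable ω) (hω' : Measurable ω')
    (hωω : ∀ u y : ℝ, |u - y| ≤ K1 → ω u ≤ ω' y)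
    (hp : ∀ t ∈ S, ENNReal.ofReal (‖ze t‖ ^ 2)
      ≤ ω (B.X s (om t)) * ENNReal.ofReal (2 * ‖B.mo 1 s (om t)‖ ^ 2))
    {R : ℝ} (hR : ∫⁻ y : ℝ, ω' y * ENNReal.ofReal (B.Gs y) ≤ ENNReal.ofReal R) :
    nu x T S ≤ ENNReal.ofReal (Ct * (κ * (2 / Real.log T)) * R) := by
  have h2L : 0 ≤ 2 / Real.log T := by positivity
  obtain ⟨H, hH⟩ : ∃ H : ℝ → ENNReal,
      H = fun t => ENNReal.ofReal (2 / Real.log T * ‖B.mo 1 s (om t)‖ ^ 2) := ⟨_, rfl⟩
  have hHm : Measurable H := by
    rw [hH]
    exact (((cont_mo B 1 s).norm.pow 2).const_mul _ |>.measurable).ennreal_ofReal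
  have hbH : ∀ y : ℝ, ∫⁻ t, ENNReal.ofReal (B.W s y (om t)) * H t ∂(un x T)
      ≤ ENNReal.ofReal (κ * (2 / Real.log T) * B.Gs y) := by
    intro y
    have e1 : ∀ t, ENNReal.ofReal (B.W s y (om t)) * H t
        = ENNReal.ofReal (2 / Real.log T)
          * ENNReal.ofReal (B.W s y (om t) * ‖B.mo 1 s (om t)‖ ^ 2) := by
      intro t
      rw [hH]
      simp only
      rw [← ENNReal.ofReal_mul' (by positivity), ← ENNReal.ofReal_mul h2L]
      congr 1
      ring
    simp only [e1]
    rw [lintegral_const_mul' _ _ ENNReal.ofReal_ne_top]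
    calc ENNReal.ofReal (2 / Real.log T)
          * ∫⁻ t, ENNReal.ofReal (B.W s y (om t) * ‖B.mo 1 s (om t)‖ ^ 2) ∂(un x T)
        ≤ ENNReal.ofReal (2 / Real.log T) * ENNReal.ofReal (κ * B.Gs y) := by
          gcongr
          exact hb y
      _ = _ := by
          rw [← ENNReal.ofReal_mul h2L]
          congr 1
          ring
  have h1 := tc (κ * (2 / Real.log T)) (by positivity) H hHm hbH ω ω' hω hω' hωω
  rw [nu_apply x hT]
  have h3 : ∫⁻ t in S, ENNReal.ofReal (‖ze t‖ ^ 2 / Real.log T) ∂(un x T)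
      ≤ ∫⁻ t in S, ω (B.X s (om t)) * H t ∂(un x T) := by
    refine setLIntegral_mono' hSm fun t ht => ?_
    have h4 := hp t ht
    rw [hH]
    simp only
    have e2 : ENNReal.ofReal (‖ze t‖ ^ 2 / Real.log T)
        = ENNReal.ofReal (1 / Real.log T) * ENNReal.ofReal (‖ze t‖ ^ 2) := by
      rw [← ENNReal.ofReal_mul (by positivity)]
      congr 1
      ring
    have e3 : ENNReal.ofReal (2 / Real.log T * ‖B.mo 1 s (om t)‖ ^ 2)
        = ENNReal.ofReal (1 / Real.log T) * ENNReal.ofReal (2 * ‖B.mo 1 s (om t)‖ ^ 2) := by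
      rw [← ENNReal.ofReal_mul (by positivity)]
      congr 1
      ring
    rw [e2, e3, mul_left_comm]
    gcongr
  refine h3.trans ((lintegral_mono_set hS).trans (h1.trans ?_))
  rw [ENNReal.ofReal_mul (by positivity : 0 ≤ Ct * (κ * (2 / Real.log T)))]
  gcongr

/-- the easy tail under the measure `|zeta| ^ 2` -/
lemma tailSet {B : Par} {Ct K1 x T : ℝ} {s : Finset ℕ} (tc : Tc B Ct K1 x T s) (hCt : 0 ≤ Ct)
    (hK1 : 0 ≤ K1) (hT : 0 < T) (hL : 0 < Real.log T) (hbe : 0 < B.be) (hbe1 : B.be ≤ 1)
    (hsg : B.sg = 1 ∨ B.sg = -1) {κ : ℝ} (hκ : 0 ≤ κ)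
    (hb : ∀ y : ℝ, ∫⁻ t, ENNReal.ofReal (B.W s y (om t) * ‖B.mo 1 s (om t)‖ ^ 2) ∂(un x T)
      ≤ ENNReal.ofReal (κ * B.Gs y))
    (hp : ∀ t : ℝ, B.Good s (om t) → B.Bad s (om t) →
      Real.exp (2 * B.Xt s (om t)) ≤ 2 * ‖B.mo 1 s (om t)‖ ^ 2) {V h : ℝ} (hh : 0 ≤ h) :
    nu x T (Ez B.sg V h ∩ ({t | B.Good s (om t) ∧ B.Bad s (om t)} ∩ Ea B s V h))
      ≤ ENNReal.ofReal (Ct * (κ * (2 / Real.log T)) * (Real.exp (5 * K1) * B.Gs V)) := by
  have hEa : MeasurableSet (Ea B s V h) := by
    have h1 : MeasurableSet {t : ℝ | V + h < B.X s (om t)} :=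
      (isOpen_lt continuous_const (cont_X B s)).measurableSet
    have h2 : MeasurableSet {t : ℝ | B.X s (om t) < V} :=
      (isOpen_lt (cont_X B s) continuous_const).measurableSet
    exact ((MeasurableSet.const _).inter h1).union ((MeasurableSet.const _).inter h2)
  have hSm : MeasurableSet (Ez B.sg V h ∩ ({t | B.Good s (om t) ∧ B.Bad s (om t)} ∩ Ea B s V h)) :=
    (meas_Ez _ _ _).inter ((meas_GB B s).inter hEa)
  have hGV := Gs_nonneg B V
  rcases hsg with hs | hs
  · refine tail_gen tc hCt hT hL hκ hb (fun t ht => ht.2.1) hSm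
      (ω := (Ioi (V + h)).indicator fun u => ENNReal.ofReal (Real.exp (-2 * (u - (V + h)))))
      (ω' := (Ioi (V + h - K1)).indicator
        fun u => ENNReal.ofReal (Real.exp (2 * K1) * Real.exp (-2 * (u - (V + h)))))
      (Measurable.indicator (by fun_prop) measurableSet_Ioi)
      (Measurable.indicator (by fun_prop) measurableSet_Ioi) ?_ ?_ ?_
    · intro u y huy
      rw [abs_le] at huy
      by_cases hu : u ∈ Ioi (V + h)
      · have hy : y ∈ Ioi (V + h - K1) := by
          rw [mem_Ioi] at hu ⊢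
          linarith [huy.2]
        rw [indicator_of_mem hu, indicator_of_mem hy, ← Real.exp_add]
        refine ENNReal.ofReal_le_ofReal (Real.exp_le_exp.2 ?_)
        linarith [huy.1]
      · rw [indicator_of_notMem hu]
        exact bot_le
    · rintro t ⟨hz, hGB, hE⟩
      have hE' : V + h < B.X s (om t) := by
        rcases hE with h1 | h1
        · exact h1.2
        · exfalso
          linarith [h1.1]
      have hX : B.X s (om t) = B.Xt s (om t) := by
        unfold Par.X
        rw [hs, one_mul]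
      have hm := hp t hGB.1 hGB.2
      obtain ⟨hz0, -, hz2⟩ := hz
      rw [hs, one_mul] at hz2
      have hz3 : ‖ze t‖ ≤ Real.exp (V + h) := by
        rw [← Real.exp_log (norm_pos_iff.mpr hz0)]
        exact Real.exp_le_exp.2 hz2
      rw [indicator_of_mem (show B.X s (om t) ∈ Ioi (V + h) from hE'),
        ← ENNReal.ofReal_mul (Real.exp_pos _).le]
      refine ENNReal.ofReal_le_ofReal ?_
      calc ‖ze t‖ ^ 2 ≤ Real.exp (V + h) ^ 2 := pow_le_pow_left₀ (norm_nonneg _) hz3 2
        _ = Real.exp (-2 * (B.X s (om t) - (V + h))) * Real.exp (2 * B.Xt s (om t)) := by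
            rw [← Real.exp_nat_mul, ← Real.exp_add, hX]
            congr 1
            push_cast
            ring
        _ ≤ _ := by gcongr
    · calc ∫⁻ y : ℝ, (Ioi (V + h - K1)).indicator
            (fun u => ENNReal.ofReal (Real.exp (2 * K1) * Real.exp (-2 * (u - (V + h))))) y
              * ENNReal.ofReal (B.Gs y)
          ≤ ∫⁻ y in Ioi (V + h - K1), ENNReal.ofReal (Real.exp (3 * K1) * B.Gs V)
              * ENNReal.ofReal (Real.exp (-2 * (y - (V + h)))) := by
            rw [← lintegral_indicator measurableSet_Ioi]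
            refine lintegral_mono fun y => ?_
            by_cases hy : y ∈ Ioi (V + h - K1)
            · rw [indicator_of_mem hy, indicator_of_mem hy,
                ← ENNReal.ofReal_mul (by positivity), ← ENNReal.ofReal_mul (by positivity)]
              refine ENNReal.ofReal_le_ofReal ?_
              have h1 : B.Gs y ≤ Real.exp K1 * B.Gs V := by
                rw [Gs_shift B y V]
                refine mul_le_mul_of_nonneg_right (Real.exp_le_exp.2 ?_) hGV
                rw [mem_Ioi] at hy
                nlinarith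
              have h2 : Real.exp (3 * K1) = Real.exp (2 * K1) * Real.exp K1 := by
                rw [← Real.exp_add]
                congr 1
                ring
              calc Real.exp (2 * K1) * Real.exp (-2 * (y - (V + h))) * B.Gs y
                  ≤ Real.exp (2 * K1) * Real.exp (-2 * (y - (V + h))) * (Real.exp K1 * B.Gs V) := by
                    gcongr
                _ = _ := by rw [h2]; ring
            · rw [indicator_of_notMem hy, zero_mul]
              exact bot_le
        _ = ENNReal.ofReal (Real.exp (3 * K1) * B.Gs V)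
              * ENNReal.ofReal (Real.exp (-2 * (V + h - K1 - (V + h))) / 2) := by
            rw [lintegral_const_mul' _ _ ENNReal.ofReal_ne_top, int_up]
        _ ≤ ENNReal.ofReal (Real.exp (5 * K1) * B.Gs V) := by
            rw [← ENNReal.ofReal_mul (by positivity)]
            refine ENNReal.ofReal_le_ofReal ?_
            have h1 : Real.exp (-2 * (V + h - K1 - (V + h))) = Real.exp (2 * K1) := by
              congr 1
              ring
            have h2 : Real.exp (5 * K1) = Real.exp (3 * K1) * Real.exp (2 * K1) := by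
              rw [← Real.exp_add]
              congr 1
              ring
            rw [h1, h2]
            have h3 : 0 ≤ Real.exp (3 * K1) * B.Gs V * Real.exp (2 * K1) := by positivity
            linarith
  · refine tail_gen tc hCt hT hL hκ hb (fun t ht => ht.2.1) hSm
      (ω := (Iio V).indicator fun u => ENNReal.ofReal (Real.exp (2 * (u - V))))
      (ω' := (Iio (V + K1)).indicator
        fun u => ENNReal.ofReal (Real.exp (2 * K1) * Real.exp (2 * (u - V))))
      (Measurable.indicator (by fun_prop) measurableSet_Iio)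
      (Measurable.indicator (by fun_prop) measurableSet_Iio) ?_ ?_ ?_
    · intro u y huy
      rw [abs_le] at huy
      by_cases hu : u ∈ Iio V
      · have hy : y ∈ Iio (V + K1) := by
          rw [mem_Iio] at hu ⊢
          linarith [huy.1]
        rw [indicator_of_mem hu, indicator_of_mem hy, ← Real.exp_add]
        refine ENNReal.ofReal_le_ofReal (Real.exp_le_exp.2 ?_)
        linarith [huy.2]
      · rw [indicator_of_notMem hu]
        exact bot_le
    · rintro t ⟨hz, hGB, hE⟩
      have hE' : B.X s (om t) < V := by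
        rcases hE with h1 | h1
        · exfalso
          linarith [h1.1]
        · exact h1.2
      have hX : B.X s (om t) = -B.Xt s (om t) := by
        unfold Par.X
        rw [hs, neg_one_mul]
      have hm := hp t hGB.1 hGB.2
      obtain ⟨hz0, hz1, -⟩ := hz
      rw [hs, neg_one_mul] at hz1
      have hz3 : ‖ze t‖ ≤ Real.exp (-V) := by
        rw [← Real.exp_log (norm_pos_iff.mpr hz0)]
        exact Real.exp_le_exp.2 (by linarith)
      rw [indicator_of_mem (show B.X s (om t) ∈ Iio V from hE'),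
        ← ENNReal.ofReal_mul (Real.exp_pos _).le]
      refine ENNReal.ofReal_le_ofReal ?_
      calc ‖ze t‖ ^ 2 ≤ Real.exp (-V) ^ 2 := pow_le_pow_left₀ (norm_nonneg _) hz3 2
        _ = Real.exp (2 * (B.X s (om t) - V)) * Real.exp (2 * B.Xt s (om t)) := by
            rw [← Real.exp_nat_mul, ← Real.exp_add, hX]
            congr 1
            push_cast
            ring
        _ ≤ _ := by gcongr
    · calc ∫⁻ y : ℝ, (Iio (V + K1)).indicator
            (fun u => ENNReal.ofReal (Real.exp (2 * K1) * Real.exp (2 * (u - V)))) y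
              * ENNReal.ofReal (B.Gs y)
          ≤ ∫⁻ y in Iio (V + K1), ENNReal.ofReal (Real.exp (2 * K1) * B.Gs V)
              * ENNReal.ofReal (Real.exp ((2 - B.be) * (y - V))) := by
            rw [← lintegral_indicator measurableSet_Iio]
            refine lintegral_mono fun y => ?_
            by_cases hy : y ∈ Iio (V + K1)
            · rw [indicator_of_mem hy, indicator_of_mem hy,
                ← ENNReal.ofReal_mul (by positivity), ← ENNReal.ofReal_mul (by positivity)]
              refine ENNReal.ofReal_le_ofReal (le_of_eq ?_)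
              have h2 : Real.exp ((2 - B.be) * (y - V))
                  = Real.exp (2 * (y - V)) * Real.exp (-(B.be * (y - V))) := by
                rw [← Real.exp_add]
                congr 1
                ring
              rw [Gs_shift B y V, h2]
              ring
            · rw [indicator_of_notMem hy, zero_mul]
              exact bot_le
        _ = ENNReal.ofReal (Real.exp (2 * K1) * B.Gs V)
              * ∫⁻ y in Iio (V + K1), ENNReal.ofReal (Real.exp ((2 - B.be) * (y - V))) :=
            lintegral_const_mul' _ _ ENNReal.ofReal_ne_top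
        _ ≤ ENNReal.ofReal (Real.exp (2 * K1) * B.Gs V)
              * ENNReal.ofReal (Real.exp ((2 - B.be) * K1)) := by
            gcongr
            exact int_low (by linarith)
        _ ≤ ENNReal.ofReal (Real.exp (5 * K1) * B.Gs V) := by
            rw [← ENNReal.ofReal_mul (by positivity)]
            refine ENNReal.ofReal_le_ofReal ?_
            have h1 : Real.exp (2 * K1) * Real.exp ((2 - B.be) * K1) ≤ Real.exp (5 * K1) := by
              rw [← Real.exp_add]
              refine Real.exp_le_exp.2 ?_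
              nlinarith
            calc Real.exp (2 * K1) * B.Gs V * Real.exp ((2 - B.be) * K1)
                = (Real.exp (2 * K1) * Real.exp ((2 - B.be) * K1)) * B.Gs V := by ring
              _ ≤ _ := by gcongr

end K3aux

end Pool.Agent.Lib.LC
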