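import Mathlib
import Pool.Agent.Lib.MP_f9aece_nt_loc.K3a

/-!
The law of `log |zeta|` at bounded scale, measure `|zeta| ^ 2`: tools for module K3, second part
(sizes of the windows at the levels, numbers).
-/

set_option autoImplicit false

namespace Pool.Agent.Lib.LC

open MeasureTheory Set Filter Topology Complex ProbabilityTheory
open scoped ComplexConjugate
open Pool.Agent.Lib.G2
open Pool.Agent.Lib.GT (om un Om RR lin tex continuous_om prob_un)

namespace K3aux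

lemma le_twenty_exp (x : ℝ) : 1 + x ≤ 20 * Real.exp (x / 20) := by
  have := Real.add_one_le_exp (x / 20)
  linarith

lemma exp_neg_le (i : ℕ) : Real.exp (-(i : ℝ)) ≤ (1 / 2) ^ i := by
  have h1 : Real.exp (-1 : ℝ) ≤ 1 / 2 := by
    rw [Real.exp_neg, inv_eq_one_div]
    have := Real.add_one_le_exp (1 : ℝ)
    exact one_div_le_one_div_of_le (by norm_num) (by linarith)
  calc Real.exp (-(i : ℝ)) = Real.exp (-1) ^ i := by
        rw [← Real.exp_nat_mul]
        congr 1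
        ring
    _ ≤ (1 / 2) ^ i := pow_le_pow_left₀ (Real.exp_nonneg _) h1 i

lemma xx_ge {v : ℝ} (hv : 4 ≤ v) (j : ℕ) : v ≤ v * (j + 1) ∧ 4 * ((j : ℝ) + 1) ≤ v * (j + 1) := by
  have h : (0 : ℝ) ≤ j := Nat.cast_nonneg _
  constructor <;> nlinarith

lemma sq_le_exp {x : ℝ} (hx : 0 ≤ x) : (1 + x) ^ 2 ≤ 400 * Real.exp (x / 10) := by
  have h3 := le_twenty_exp x
  calc (1 + x) ^ 2 ≤ (20 * Real.exp (x / 20)) ^ 2 := pow_le_pow_left₀ (by linarith) h3 2
    _ = 400 * Real.exp (x / 10) := by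
        rw [mul_pow, ← Real.exp_nat_mul]
        congr 2
        · norm_num
        · push_cast
          ring

lemma numA {v : ℝ} (hv : 4 ≤ v) (j : ℕ) :
    Real.exp (-(v * (j + 1))) * ((1 + v * (j + 1)) ^ 2 * Real.exp (v * (j + 1) / 1000))
      ≤ 400 * Real.exp (-(v / 2)) * (1 / 2) ^ (j + 1) := by
  obtain ⟨h1, h2⟩ := xx_ge hv j
  set x := v * (j + 1) with hx
  have hx0 : 0 ≤ x := by linarith
  have h3 := sq_le_exp hx0
  have h4 := exp_neg_le (j + 1)
  push_cast at h4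
  calc Real.exp (-x) * ((1 + x) ^ 2 * Real.exp (x / 1000))
      ≤ Real.exp (-x) * (400 * Real.exp (x / 10) * Real.exp (x / 1000)) := by gcongr
    _ = 400 * Real.exp (-x + (x / 10 + x / 1000)) := by rw [Real.exp_add, Real.exp_add]; ring
    _ ≤ 400 * Real.exp (-(v / 2) + -((j : ℝ) + 1)) :=
        mul_le_mul_of_nonneg_left (Real.exp_le_exp.2 (by linarith)) (by norm_num)
    _ = 400 * Real.exp (-(v / 2)) * Real.exp (-((j : ℝ) + 1)) := by rw [Real.exp_add]; ring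
    _ ≤ _ := by gcongr

lemma numB {v : ℝ} (hv : 4 ≤ v) (j : ℕ) :
    v * (j + 1) * Real.exp (-(v * (j + 1)))
        * ((1 + v * (j + 1)) ^ 2 * Real.exp (v * (j + 1) / 1000))
      ≤ 8000 * (1 / 2) ^ (j + 1) := by
  obtain ⟨h1, h2⟩ := xx_ge hv j
  set x := v * (j + 1) with hx
  have hx0 : 0 ≤ x := by linarith
  have h3 := sq_le_exp hx0
  have h5 : x ≤ 20 * Real.exp (x / 20) := by linarith [le_twenty_exp x]
  have h4 := exp_neg_le (j + 1)
  push_cast at h4
  calc x * Real.exp (-x) * ((1 + x) ^ 2 * Real.exp (x / 1000))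
      ≤ 20 * Real.exp (x / 20) * Real.exp (-x) * (400 * Real.exp (x / 10) * Real.exp (x / 1000)) := by
        gcongr
    _ = 8000 * Real.exp (x / 20 + (-x + (x / 10 + x / 1000))) := by
        rw [Real.exp_add, Real.exp_add, Real.exp_add]; ring
    _ ≤ 8000 * Real.exp (-((j : ℝ) + 1)) := by
        gcongr
        linarith
    _ ≤ _ := by gcongr

lemma numC {v : ℝ} (hv : 4 ≤ v) (j : ℕ) :
    Real.exp (-(2 * (v * (j + 1)))) * ((1 + v * (j + 1)) ^ 2 * Real.exp (v * (j + 1) / 1000))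
      ≤ 400 * (1 / 2) ^ (j + 1) := by
  obtain ⟨h1, h2⟩ := xx_ge hv j
  set x := v * (j + 1) with hx
  have hx0 : 0 ≤ x := by linarith
  have h3 := sq_le_exp hx0
  have h4 := exp_neg_le (j + 1)
  push_cast at h4
  calc Real.exp (-(2 * x)) * ((1 + x) ^ 2 * Real.exp (x / 1000))
      ≤ Real.exp (-(2 * x)) * (400 * Real.exp (x / 10) * Real.exp (x / 1000)) := by gcongr
    _ = 400 * Real.exp (-(2 * x) + (x / 10 + x / 1000)) := by
        rw [Real.exp_add, Real.exp_add]; ring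
    _ ≤ 400 * Real.exp (-((j : ℝ) + 1)) :=
        mul_le_mul_of_nonneg_left (Real.exp_le_exp.2 (by linarith)) (by norm_num)
    _ ≤ _ := by gcongr

lemma num3 {C2 C3 C6 x F q E u : ℝ} (h2 : 0 ≤ C2) (h3 : 0 ≤ C3) (h6 : 0 ≤ C6) (hE : 0 ≤ E)
    (hE1 : E ≤ 1) (hu : 0 ≤ u) (hu1 : u ≤ 1) (hq : 0 ≤ q) (n1 : Real.exp (-x) * F ≤ 400 * u * q)
    (n2 : x * Real.exp (-x) * F ≤ 8000 * q) (n3 : Real.exp (-(2 * x)) * F ≤ 400 * q) :
    (C2 * Real.exp (-x) + C3 * (10 ^ 10 * (x * Real.exp (-x)) * E + Real.exp (-(2 * x)) * E ^ 2)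
      + C6 * (E * Real.exp (-x))) * F
      ≤ 10 ^ 15 * (C2 + C3 + C6) * (u + E) * q := by
  have a1 : C2 * (Real.exp (-x) * F) ≤ C2 * (400 * u * q) := mul_le_mul_of_nonneg_left n1 h2
  have a2 : C3 * E * (x * Real.exp (-x) * F) ≤ C3 * E * (8000 * q) :=
    mul_le_mul_of_nonneg_left n2 (mul_nonneg h3 hE)
  have a3 : C3 * E ^ 2 * (Real.exp (-(2 * x)) * F) ≤ C3 * E ^ 2 * (400 * q) :=
    mul_le_mul_of_nonneg_left n3 (mul_nonneg h3 (sq_nonneg _))
  have a4 : C3 * E ^ 2 * (400 * q) ≤ C3 * E * (400 * q) := by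
    have : E ^ 2 ≤ E := by nlinarith
    exact mul_le_mul_of_nonneg_right (mul_le_mul_of_nonneg_left this h3) (by linarith)
  have a5 : C6 * E * (Real.exp (-x) * F) ≤ C6 * E * (400 * q) := by
    refine mul_le_mul_of_nonneg_left (n1.trans ?_) (mul_nonneg h6 hE)
    nlinarith
  have a8 : 0 ≤ C2 * (u * q) := mul_nonneg h2 (mul_nonneg hu hq)
  have a9 : 0 ≤ C3 * (u * q) := mul_nonneg h3 (mul_nonneg hu hq)
  have a12 : 0 ≤ C6 * (u * q) := mul_nonneg h6 (mul_nonneg hu hq)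
  have a10 : 0 ≤ C2 * (E * q) := mul_nonneg h2 (mul_nonneg hE hq)
  have a11 : 0 ≤ C3 * (E * q) := mul_nonneg h3 (mul_nonneg hE hq)
  have a13 : 0 ≤ C6 * (E * q) := mul_nonneg h6 (mul_nonneg hE hq)
  have e1 : (C2 * Real.exp (-x) + C3 * (10 ^ 10 * (x * Real.exp (-x)) * E
      + Real.exp (-(2 * x)) * E ^ 2) + C6 * (E * Real.exp (-x))) * F = C2 * (Real.exp (-x) * F)
      + 10 ^ 10 * (C3 * E * (x * Real.exp (-x) * F)) + C3 * E ^ 2 * (Real.exp (-(2 * x)) * F)
      + C6 * E * (Real.exp (-x) * F) := by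
    ring
  have e2 : 10 ^ 15 * (C2 + C3 + C6) * (u + E) * q = 10 ^ 15 * (C2 * (u * q))
      + 10 ^ 15 * (C3 * (u * q)) + 10 ^ 15 * (C6 * (u * q)) + 10 ^ 15 * (C2 * (E * q))
      + 10 ^ 15 * (C3 * (E * q)) + 10 ^ 15 * (C6 * (E * q)) := by ring
  have e3 : C2 * (400 * u * q) = 400 * (C2 * (u * q)) := by ring
  have e4 : C3 * E * (8000 * q) = 8000 * (C3 * (E * q)) := by ring
  have e5 : C3 * E * (400 * q) = 400 * (C3 * (E * q)) := by ring
  have e6 : C6 * E * (400 * q) = 400 * (C6 * (E * q)) := by ring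
  rw [e1, e2]
  rw [e3] at a1
  rw [e4] at a2
  rw [e5] at a4
  rw [e6] at a5
  linarith

lemma sum_half (n : ℕ) : ∑ j ∈ Finset.range n, (1 / 2 : ℝ) ^ (j + 1) ≤ 1 := by
  have h : ∀ n : ℕ, ∑ j ∈ Finset.range n, (1 / 2 : ℝ) ^ (j + 1) = 1 - (1 / 2) ^ n := by
    intro n
    induction n with
    | zero => simp
    | succ n ih =>
      rw [Finset.sum_range_succ, ih, pow_succ]
      ring
  rw [h]
  have : (0 : ℝ) ≤ (1 / 2) ^ n := by positivity
  linarith

/-- the sizes of the windows at two levels -/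
lemma Gs_lev {A : Par} {j : ℕ} {C' V y : ℝ} (h6 : GroupNum) (hA : A.Ok)
    (hC' : 0 ≤ C') (h0 : |A.vt - Real.log A.Y| ≤ C')
    (hj : |(lev A j).vt - Real.log (A.Yf j)| ≤ C') (hs : 1 ≤ (lev A j).s2) :
    (lev A j).Gs y ≤ (1 + C' + A.v * j)
      * (Real.exp (A.be * (V - y) + A.be * (A.v * j + 2 * C')) * A.Gs V) := by
  have hY : 0 < A.Y := by linarith [hA.hY]
  have hbe := hA.hbe
  have hvt := lev_vt_le h6 hA j
  have hj0 : (0 : ℝ) ≤ A.v * j := by positivity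
  set B : ℝ := 1 + C' + A.v * j with hB
  have hB1 : 1 ≤ B := by linarith
  have hlY : Real.log (A.Yf j) = Real.log A.Y - A.v * j := by
    unfold Par.Yf
    rw [Real.log_mul hY.ne' (Real.exp_pos _).ne', Real.log_exp]
    ring
  have e1 : A.vt ≤ (lev A j).vt + (A.v * j + 2 * C') := by
    rw [abs_le] at h0 hj
    linarith [h0.1, h0.2, hj.1, hj.2]
  have h1 : A.s2 ≤ B ^ 2 * (lev A j).s2 := by
    have e2 : A.s2 ≤ (lev A j).s2 + (A.v * j + 2 * C') / 2 := by
      unfold Par.s2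
      linarith
    have e3 : (lev A j).s2 + (A.v * j + 2 * C') / 2 ≤ B * (lev A j).s2 := by
      have : (A.v * j + C') * 1 ≤ (A.v * j + C') * (lev A j).s2 :=
        mul_le_mul_of_nonneg_left hs (by linarith)
      have e4 : B * (lev A j).s2 = (lev A j).s2 + (A.v * j + C') * (lev A j).s2 := by
        rw [hB]; ring
      rw [e4]
      linarith
    have e5 : B * (lev A j).s2 ≤ B ^ 2 * (lev A j).s2 := by
      have : B ≤ B ^ 2 := by nlinarith
      exact mul_le_mul_of_nonneg_right this (by linarith)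
    linarith
  have hs0 : 0 < (lev A j).s2 := by linarith
  have hA0 : 0 < A.s2 := by linarith [hA.hs]
  have h2 : 1 / Real.sqrt (lev A j).s2 ≤ B * (1 / Real.sqrt A.s2) := by
    have e3 : Real.sqrt A.s2 ≤ B * Real.sqrt (lev A j).s2 := by
      calc Real.sqrt A.s2 ≤ Real.sqrt (B ^ 2 * (lev A j).s2) := Real.sqrt_le_sqrt h1
        _ = B * Real.sqrt (lev A j).s2 := by
            rw [Real.sqrt_mul (sq_nonneg _), Real.sqrt_sq (by linarith)]
    have e4 : 0 < Real.sqrt A.s2 := Real.sqrt_pos.2 hA0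
    have e5 : 0 < Real.sqrt (lev A j).s2 := Real.sqrt_pos.2 hs0
    rw [mul_one_div, div_le_div_iff₀ e5 e4]
    linarith
  have h3 : Real.exp (-(A.be * (y - A.sg * (lev A j).vt)) + A.be ^ 2 * (lev A j).s2 / 2)
      ≤ Real.exp (A.be * (V - y) + A.be * (A.v * j + 2 * C'))
        * Real.exp (-(A.be * (V - A.sg * A.vt)) + A.be ^ 2 * A.s2 / 2) := by
    rw [← Real.exp_add]
    refine Real.exp_le_exp.2 ?_
    have e6 : A.be * (A.sg * (lev A j).vt) ≤ A.be * (A.v * j + 2 * C' + A.sg * A.vt) := by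
      refine mul_le_mul_of_nonneg_left ?_ hbe.le
      rcases hA.hsg with h | h
      · rw [h]
        linarith
      · rw [h]
        linarith
    have e7 : A.be ^ 2 * (lev A j).s2 ≤ A.be ^ 2 * A.s2 := by
      refine mul_le_mul_of_nonneg_left ?_ (sq_nonneg _)
      unfold Par.s2
      linarith
    nlinarith
  have e8 : (lev A j).Gs y = 1 / Real.sqrt (lev A j).s2
      * Real.exp (-(A.be * (y - A.sg * (lev A j).vt)) + A.be ^ 2 * (lev A j).s2 / 2) := by
    unfold Par.Gs Par.G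
    rfl
  have e9 : A.Gs V = 1 / Real.sqrt A.s2
      * Real.exp (-(A.be * (V - A.sg * A.vt)) + A.be ^ 2 * A.s2 / 2) := by
    unfold Par.Gs Par.G
    rfl
  rw [e8, e9]
  calc 1 / Real.sqrt (lev A j).s2
      * Real.exp (-(A.be * (y - A.sg * (lev A j).vt)) + A.be ^ 2 * (lev A j).s2 / 2)
      ≤ (B * (1 / Real.sqrt A.s2))
        * (Real.exp (A.be * (V - y) + A.be * (A.v * j + 2 * C'))
          * Real.exp (-(A.be * (V - A.sg * A.vt)) + A.be ^ 2 * A.s2 / 2)) := by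
        gcongr
    _ = _ := by ring

/-- a good level: the logarithm of zeta is bounded by the prime sum -/
lemma log_le {A : Par} {s : Finset ℕ} {t k : ℝ}
    (hm : 1 / 2 * Real.exp (2 * (-1) * A.Xt s (om t)) ≤ ‖A.mo (-1) s (om t)‖ ^ 2)
    (hk : ‖ze t‖ * ‖A.mo (-1) s (om t)‖ ≤ Real.exp k) (h0 : ze t ≠ 0) :
    Real.log ‖ze t‖ < A.Xt s (om t) + k + 1 := by
  have hz : 0 < ‖ze t‖ := norm_pos_iff.mpr h0
  set V : ℝ := Real.log ‖ze t‖ with hV
  have hVe : Real.exp V = ‖ze t‖ := Real.exp_log hz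
  have h1 : Real.exp V ^ 2 * ‖A.mo (-1) s (om t)‖ ^ 2 ≤ Real.exp k ^ 2 := by
    rw [← mul_pow, hVe]
    exact pow_le_pow_left₀ (by positivity) hk 2
  have h2 : Real.exp (2 * V) * (1 / 2 * Real.exp (2 * (-1) * A.Xt s (om t))) ≤ Real.exp (2 * k) := by
    have e1 : Real.exp (2 * V) = Real.exp V ^ 2 := by
      rw [← Real.exp_nat_mul]; norm_num
    have e2 : Real.exp (2 * k) = Real.exp k ^ 2 := by
      rw [← Real.exp_nat_mul]; norm_num
    rw [e1, e2]
    exact (mul_le_mul_of_nonneg_left hm (sq_nonneg _)).trans h1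
  have h3 : Real.exp (2 * V - 2 * A.Xt s (om t)) < Real.exp (2 + 2 * k) := by
    have e3 : Real.exp (2 * V - 2 * A.Xt s (om t))
        = Real.exp (2 * V) * Real.exp (2 * (-1) * A.Xt s (om t)) := by
      rw [← Real.exp_add]
      congr 1
      ring
    have e4 : (2 : ℝ) < Real.exp 2 := by
      have := Real.add_one_le_exp (2 : ℝ)
      linarith
    rw [e3, Real.exp_add]
    have e5 := Real.exp_pos (2 * k)
    have e6 : Real.exp (2 * V) * Real.exp (2 * (-1) * A.Xt s (om t)) ≤ 2 * Real.exp (2 * k) := by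
      have e7 : Real.exp (2 * V) * Real.exp (2 * (-1) * A.Xt s (om t))
          = 2 * (Real.exp (2 * V) * (1 / 2 * Real.exp (2 * (-1) * A.Xt s (om t)))) := by ring
      rw [e7]
      exact mul_le_mul_of_nonneg_left h2 (by norm_num)
    exact e6.trans_lt (mul_lt_mul_of_pos_right e4 e5)
  have h4 := Real.exp_lt_exp.1 h3
  linarith

/-- a good level: the hard side -/
lemma hard {A : Par} {s : Finset ℕ} {t k V h : ℝ}
    (hm : 1 / 2 * Real.exp (2 * (-1) * A.Xt s (om t)) ≤ ‖A.mo (-1) s (om t)‖ ^ 2)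
    (hk : ‖ze t‖ * ‖A.mo (-1) s (om t)‖ ≤ Real.exp k) (ht : t ∈ Ez A.sg V h) :
    (A.sg = 1 → V - k - 1 < A.X s (om t)) ∧ (A.sg = -1 → A.X s (om t) < V + h + k + 1) := by
  obtain ⟨h0, h1, h2⟩ := ht
  have h3 := log_le hm hk h0
  constructor
  · intro h
    rw [h, one_mul] at h1
    unfold Par.X
    rw [h, one_mul]
    linarith
  · intro h
    rw [h] at h2
    unfold Par.X
    rw [h]
    linarith

end K3aux

end Pool.Agent.Lib.LC
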