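import Mathlib
import Pool.Agent.Lib.MP_f9aece_nt_loc.K3b

/-!
The law of `log |zeta|` at bounded scale, measure `|zeta| ^ 2`: module K3, upper bound.
-/

set_option autoImplicit false

namespace Pool.Agent.Lib.LC

open MeasureTheory Set Filter Topology Complex ProbabilityTheory
open scoped ComplexConjugate
open Pool.Agent.Lib.G2
open Pool.Agent.Lib.GT (om un Om RR lin tex continuous_om prob_un)

namespace K3aux

/-- the sizes of the windows at a level and the lengths of the intervals -/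
lemma win_num {A : Par} {j : ℕ} {C' K1 V h M xx D y : ℝ} {v : ℕ} (hA : A.Ok) (hAv : A.v = v)
    (hbe8 : A.be ≤ 1 / 10 ^ 8) (hC' : 0 ≤ C') (hK1 : 1 ≤ K1) (hh : 0 ≤ h) (hlM : 1 ≤ Real.log M)
    (hxx : xx = v * ((j : ℝ) + 1)) (hD : D = 6 * (Real.log M + xx) + 1 + 10000 * xx)
    (hG : (lev A j).Gs y ≤ (1 + C' + A.v * j)
      * (Real.exp (A.be * (V - y) + A.be * (A.v * j + 2 * C')) * A.Gs V)) (hy : V - D - K1 ≤ y) :
    (h + 2 * D + 2 * K1) * (lev A j).Gs y
      ≤ (30000 + 2 * K1) * (1 + C') * Real.exp (1 + K1 + 2 * C')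
        * ((1 + xx) ^ 2 * Real.exp (xx / 1000))
        * ((1 + h + Real.log M) * (Real.exp (8 * (A.be * Real.log M)) * A.Gs V)) := by
  have hbe := hA.hbe
  have hj0 : (0 : ℝ) ≤ j := Nat.cast_nonneg _
  have hv0 : (0 : ℝ) ≤ v := Nat.cast_nonneg _
  have hxx0 : 0 ≤ xx := by rw [hxx]; positivity
  have hGV := Gs_nonneg A V
  have hvj : A.v * (j : ℝ) ≤ xx := by rw [hxx, hAv]; nlinarith
  have hD0 : 0 ≤ D := by rw [hD]; linarith
  have g2 : Real.exp (A.be * (V - y) + A.be * (A.v * j + 2 * C'))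
      ≤ Real.exp (xx / 1000) * Real.exp (8 * (A.be * Real.log M)) * Real.exp (1 + K1 + 2 * C') := by
    rw [← Real.exp_add, ← Real.exp_add]
    refine Real.exp_le_exp.2 ?_
    have e1 : A.be * (V - y) ≤ A.be * (D + K1) := mul_le_mul_of_nonneg_left (by linarith) hbe.le
    have e2 : A.be * xx ≤ 1 / 10 ^ 8 * xx := mul_le_mul_of_nonneg_right hbe8 hxx0
    have e3 : 0 ≤ A.be * Real.log M := by positivity
    have e4 : A.be * (D + K1) = 6 * (A.be * Real.log M) + 10006 * (A.be * xx) + A.be * (1 + K1) := by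
      rw [hD]
      ring
    have e5 : A.be * (A.v * j + 2 * C') ≤ A.be * xx + A.be * (2 * C') := by
      rw [← mul_add]
      exact mul_le_mul_of_nonneg_left (by linarith) hbe.le
    have hbe1 : A.be ≤ 1 := hbe8.trans (by norm_num)
    have e6 : A.be * (1 + K1) ≤ 1 * (1 + K1) := mul_le_mul_of_nonneg_right hbe1 (by linarith)
    have e7 : A.be * (2 * C') ≤ 1 * (2 * C') := mul_le_mul_of_nonneg_right hbe1 (by linarith)
    rw [e4] at e1
    norm_num at e2
    linarith
  have g3 : 1 + C' + A.v * j ≤ (1 + C') * (1 + xx) := by nlinarith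
  have g4 : h + 2 * D + 2 * K1 ≤ (30000 + 2 * K1) * ((1 + h + Real.log M) * (1 + xx)) := by
    have e1 : 0 ≤ h * xx := by positivity
    have e2 : 0 ≤ Real.log M * xx := by positivity
    have e3 : (1 + h + Real.log M) * (1 + xx)
        = 1 + h + Real.log M + xx + h * xx + Real.log M * xx := by ring
    have e4 : 1 ≤ (1 + h + Real.log M) * (1 + xx) := by rw [e3]; linarith
    have e5 : K1 * 1 ≤ K1 * ((1 + h + Real.log M) * (1 + xx)) :=
      mul_le_mul_of_nonneg_left e4 (by linarith)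
    have e6 : h + 2 * D ≤ 30000 * ((1 + h + Real.log M) * (1 + xx)) := by
      rw [e3, hD]
      linarith
    linarith
  have hG0 := Gs_nonneg (lev A j) y
  calc (h + 2 * D + 2 * K1) * (lev A j).Gs y
      ≤ ((30000 + 2 * K1) * ((1 + h + Real.log M) * (1 + xx))) * (((1 + C') * (1 + xx))
        * ((Real.exp (xx / 1000) * Real.exp (8 * (A.be * Real.log M)) * Real.exp (1 + K1 + 2 * C'))
          * A.Gs V)) := by
        refine mul_le_mul g4 (hG.trans ?_) hG0 (by positivity)
        gcongr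
    _ = _ := by ring

/-- the numbers of a level for the easy tail -/
lemma tail_num {A : Par} {j : ℕ} {C' K1 V h M xx : ℝ} {v : ℕ} (hA : A.Ok) (hAv : A.v = v)
    (hbe8 : A.be ≤ 1 / 10 ^ 8) (hC' : 0 ≤ C') (hK1 : 1 ≤ K1) (hh : 0 ≤ h) (hlM : 1 ≤ Real.log M)
    (hxx : xx = v * ((j : ℝ) + 1))
    (hG : (lev A j).Gs V ≤ (1 + C' + A.v * j)
      * (Real.exp (A.be * (V - V) + A.be * (A.v * j + 2 * C')) * A.Gs V)) :
    (lev A j).Gs V
      ≤ (30000 + 2 * K1) * (1 + C') * Real.exp (1 + K1 + 2 * C')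
        * ((1 + xx) ^ 2 * Real.exp (xx / 1000))
        * ((1 + h + Real.log M) * (Real.exp (8 * (A.be * Real.log M)) * A.Gs V)) := by
  have hv0 : (0 : ℝ) ≤ v := Nat.cast_nonneg _
  have hxx0 : 0 ≤ xx := by rw [hxx]; positivity
  obtain ⟨D, hD⟩ : ∃ D : ℝ, D = 6 * (Real.log M + xx) + 1 + 10000 * xx := ⟨_, rfl⟩
  have h1 := win_num (D := D) hA hAv hbe8 hC' hK1 hh hlM hxx hD hG (by rw [hD]; linarith)
  refine le_trans ?_ h1
  have hG0 := Gs_nonneg (lev A j) V
  have : 1 ≤ h + 2 * D + 2 * K1 := by rw [hD]; linarith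
  nlinarith

end K3aux

open K3aux

set_option maxHeartbeats 4000000 in
/-- K3 -/
theorem nuUpLoc (hW : TiltW2) (hU : NuUp) (hI : NuUI) (hM : MoUp) (hL : LastLevel) (hP : WPoint)
    (hN : GroupNum) (hV : Variance) : NuUpLoc := by
  classical
  intro p0 hp0
  obtain ⟨Ct, K1, v1, hCt, hK1, H1⟩ := hW
  obtain ⟨C2, T2, hC2, hT2, H2⟩ := hU p0 hp0
  obtain ⟨C3, T3, hC3, hT3, H3⟩ := hI p0 hp0
  obtain ⟨C4, T6, hC4, hT6, H6⟩ := hM p0 hp0
  obtain ⟨v4, H4⟩ := hL p0 hp0
  obtain ⟨C5, D5, v5, -, -, H5⟩ := hP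
  obtain ⟨⟨CN, hCN, H7⟩, -⟩ := hV
  have hlp : 1 < Real.log p0 := one_lt_log_thousand hp0
  set C' : ℝ := CN + Real.log p0 with hC'
  have hC'0 : 0 ≤ C' := by linarith
  obtain ⟨Cb, hCb⟩ : ∃ Cb : ℝ, Cb = (30000 + 2 * K1) * (1 + C') * Real.exp (1 + K1 + 2 * C') :=
    ⟨_, rfl⟩
  have hCb1 : 1 ≤ Cb := by
    have e1 : 1 ≤ Real.exp (1 + K1 + 2 * C') := Real.one_le_exp (by linarith)
    have e2 : 1 ≤ (30000 + 2 * K1) * (1 + C') := by nlinarith
    rw [hCb]
    exact one_le_mul_of_one_le_of_one_le e2 e1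
  obtain ⟨C6, hC6⟩ : ∃ C6 : ℝ, C6 = 4 * C4 * Real.exp (5 * K1) := ⟨_, rfl⟩
  have hC60 : 0 ≤ C6 := by rw [hC6]; positivity
  refine ⟨2 * 10 ^ 15 * (Ct * Cb * (C2 + C3 + C6)), max v1 (max v4 (max v5 4)), ?_, ?_⟩
  · have e1 : 1 ≤ Ct * Cb := one_le_mul_of_one_le_of_one_le hCt hCb1
    have e2 : 1 ≤ Ct * Cb * (C2 + C3 + C6) := one_le_mul_of_one_le_of_one_le e1 (by linarith)
    linarith
  intro v hv M hM'
  have hv1 : v1 ≤ v := (le_max_left _ _).trans hv
  have hv4 : v4 ≤ v := ((le_max_left _ _).trans (le_max_right _ _)).trans hv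
  have hv5 : v5 ≤ v :=
    (((le_max_left _ _).trans (le_max_right _ _)).trans (le_max_right _ _)).trans hv
  have hvR : (4 : ℝ) ≤ v := by
    have : 4 ≤ v :=
      (((le_max_right _ _).trans (le_max_right _ _)).trans (le_max_right _ _)).trans hv
    exact_mod_cast this
  have hev : 1 ≤ Real.exp v := Real.one_le_exp (by linarith)
  have hM1 : 10 ^ 20 ≤ M := le_trans (by nlinarith) hM'
  have hM0 : 0 < M := by linarith
  obtain ⟨T4, hT4, H4⟩ := H4 v hv4 M (by linarith)
  set R : ℝ := max M (max (Real.log p0 + 1) (Real.exp (2 + C'))) with hR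
  refine ⟨max (Real.exp (R ^ 2)) (max T2 (max T3 (max T4 T6))),
    le_max_of_le_right (le_max_of_le_left hT2), ?_⟩
  intro A hA hAv hAp hAi hb20 hbe8 T hT hAY x V h hx hh
  have hTR : Real.exp (R ^ 2) ≤ T := (le_max_left _ _).trans hT
  have hT2' : T2 ≤ T := ((le_max_left _ _).trans (le_max_right _ _)).trans hT
  have hT3' : T3 ≤ T :=
    (((le_max_left _ _).trans (le_max_right _ _)).trans (le_max_right _ _)).trans hT
  have hT4' : T4 ≤ T :=
    ((((le_max_left _ _).trans (le_max_right _ _)).trans (le_max_right _ _)).trans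
      (le_max_right _ _)).trans hT
  have hT6' : T6 ≤ T :=
    ((((le_max_right _ _).trans (le_max_right _ _)).trans (le_max_right _ _)).trans
      (le_max_right _ _)).trans hT
  have hT1 : 3 ≤ T := hT2.trans hT2'
  have hT0 : 0 < T := by linarith
  have hlogR : R ^ 2 ≤ Real.log T := by
    rw [Real.le_log_iff_exp_le hT0]
    exact hTR
  have hlog : 0 < Real.log T := Real.log_pos (by linarith)
  set Lh : ℝ := Real.log T ^ (1 / 2 : ℝ) with hLh
  have hLh0 : 0 < Lh := by positivity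
  have hRM : M ≤ R := le_max_left _ _
  have hR0 : 0 ≤ R := by linarith
  have hRL : R ≤ Lh := by
    rw [hLh, ← Real.sqrt_eq_rpow]
    exact Real.le_sqrt_of_sq_le hlogR
  have hLhM : M ≤ Lh := hRM.trans hRL
  have hLhp : Real.log p0 < Lh := by
    have : Real.log p0 + 1 ≤ R := (le_max_left _ _).trans (le_max_right _ _)
    linarith
  have hLhe : Real.exp (2 + C') ≤ Lh :=
    ((le_max_right _ _).trans (le_max_right _ _)).trans hRL
  have hLh1 : 1 ≤ Lh := by linarith
  have hLh2 : Lh * Lh = Real.log T := by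
    rw [hLh, ← Real.sqrt_eq_rpow]
    exact Real.mul_self_sqrt hlog.le
  have hbe := hA.hbe
  have hbe1 : A.be ≤ 1 := hbe8.trans (by norm_num)
  have hY : 0 < A.Y := by linarith [hA.hY]
  have : IsProbabilityMeasure (un x T) := prob_un x hT0
  have hfin : IsFiniteMeasure (nu x T) := nu_fin x hT0
  have hlM : 1 ≤ Real.log M := by
    rw [Real.le_log_iff_exp_le hM0]
    have := Real.exp_one_lt_d9
    linarith
  have hMv : 10 ^ 20 * Real.exp A.v ≤ M := by rw [hAv]; exact hM'
  -- the sizes of the levels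
  have hYf : ∀ i : ℕ, A.Yf i = Real.log T / M * Real.exp (-(v * i)) := by
    intro i
    unfold Par.Yf
    rw [hAY, hAv]
  have hratio : ∀ i : ℕ, Real.log T / A.Yf i = Real.exp (Real.log M + v * i) := by
    intro i
    rw [hYf, Real.exp_add, Real.exp_log hM0, Real.exp_neg]
    field_simp
  have hJL : ∀ i : ℕ, Lh ≤ A.Yf i → i < A.J := by
    intro i hi
    by_contra hc
    rw [not_lt] at hc
    have e1 := Yf_anti (A := A) hY hc
    have e2 := hA.hJ.1
    rw [hAp] at e2
    linarith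
  have hvt : ∀ i : ℕ, Lh ≤ A.Yf i → |(lev A i).vt - Real.log (A.Yf i)| ≤ C' := by
    intro i hi
    have := lev_vt (C := CN) hN hA H7 (hLh1.trans hi)
    rwa [hAp] at this
  have hs2 : ∀ i : ℕ, Lh ≤ A.Yf i → 1 ≤ (lev A i).s2 := by
    intro i hi
    have e1 := hvt i hi
    have e2 : 2 + C' ≤ Real.log (A.Yf i) := by
      rw [Real.le_log_iff_exp_le (by linarith)]
      linarith
    rw [abs_le] at e1
    unfold Par.s2
    linarith [e1.1]
  have hok : ∀ i : ℕ, Lh ≤ A.Yf i → (lev A i).Ok := fun i hi => lev_ok hA (hJL i hi) (hs2 i hi)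
  have hlen : ∀ i : ℕ, Lh ≤ A.Yf i → Len (lev A i) T (elev A T i) := fun i hi =>
    lev_len hA hAi hT1 hMv hAY hi
  have h00 : Lh ≤ A.Yf 0 := by
    have e1 : A.Yf 0 = Real.log T / M := by
      rw [hYf]
      simp
    rw [e1, le_div_iff₀ hM0, ← hLh2]
    exact mul_le_mul_of_nonneg_left hLhM hLh0.le
  have h00' : |A.vt - Real.log A.Y| ≤ C' := by
    have := hvt 0 h00
    rw [lev_zero] at this
    have e0 : A.Yf 0 = A.Y := by
      unfold Par.Yf
      simp
    rwa [e0] at this
  have hGs : ∀ i : ℕ, Lh ≤ A.Yf i → ∀ y : ℝ, (lev A i).Gs y ≤ (1 + C' + A.v * i)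
      * (Real.exp (A.be * (V - y) + A.be * (A.v * i + 2 * C')) * A.Gs V) := fun i hi y =>
    Gs_lev hN hA hC'0 h00' (hvt i hi) (hs2 i hi)
  -- the last level
  have hex : ∃ i : ℕ, A.Yf i < Lh := by
    refine ⟨A.J, ?_⟩
    have e2 := hA.hJ.1
    rw [hAp] at e2
    linarith
  obtain ⟨I, hI1, hI2⟩ : ∃ I : ℕ, (∀ i ≤ I, Lh ≤ A.Yf i) ∧ A.Yf (I + 1) < Lh := by
    have e1 := Nat.find_spec hex
    have e2 : Nat.find hex ≠ 0 := by
      intro h
      rw [h] at e1
      linarith
    obtain ⟨I, hI⟩ := Nat.exists_eq_succ_of_ne_zero e2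
    refine ⟨I, fun i hi => ?_, ?_⟩
    · exact not_lt.1 (Nat.find_min hex (by omega))
    · rw [hI] at e1
      exact e1
  have hI3 : A.Yf I ≤ Real.exp v * Lh := by
    have e1 : A.Yf I = Real.exp v * A.Yf (I + 1) := by
      rw [hYf, hYf, mul_left_comm, ← Real.exp_add]
      congr 2
      push_cast
      ring
    rw [e1]
    exact mul_le_mul_of_nonneg_left hI2.le (Real.exp_nonneg _)
  have hlast := H4 A hA hAv hAp hAi T hT4' hAY x hx I (hI1 I le_rfl) hI3
  -- the sets
  obtain ⟨D, hD⟩ : ∃ D : ℕ → ℝ, D = fun j : ℕ => 6 * (Real.log M + v * ((j : ℝ) + 1)) + 1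
      + 10000 * (v * ((j : ℝ) + 1)) := ⟨_, rfl⟩
  have hD0 : ∀ j, 0 ≤ D j := by
    intro j
    rw [hD]
    simp only
    positivity
  set gd : ℕ → ℝ → Prop := fun i t => (lev A i).Good ∅ (om t) ∧
    ‖ze t‖ * ‖(lev A i).mo (-1) ∅ (om t)‖ ≤ (Real.log T / A.Yf i) ^ 6 with hgd
  set Wn : ℕ → Finset ℕ → Set ℝ := fun j s => {t | (lev A j).Good s (om t) ∧
    (lev A j).Bad s (om t) ∧ V - D j < (lev A j).X s (om t) ∧ (lev A j).X s (om t) ≤ V + h + D j}
    with hWn
  set BB : ℕ → Set ℝ := fun j => {t | (Real.log T / A.Yf j) ^ 6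
    < ‖ze t‖ * ‖(lev A j).mo (-1) ∅ (om t)‖} with hBB
  set TT : ℕ → Finset ℕ → Set ℝ := fun j s => Ez A.sg V h ∩
    ({t | (lev A j).Good s (om t) ∧ (lev A j).Bad s (om t)} ∩ Ea (lev A j) s V h) with hTT
  have hBBm : ∀ j, MeasurableSet (BB j) := fun j =>
    (isOpen_lt continuous_const (cont_ze.norm.mul (cont_mo _ _ _).norm)).measurableSet
  have hhard : ∀ i ≤ I, ∀ t, gd i t → t ∈ Ez A.sg V h →
      (A.sg = 1 → V - 6 * (Real.log M + v * i) - 1 < (lev A i).X ∅ (om t)) ∧
      (A.sg = -1 → (lev A i).X ∅ (om t) < V + h + 6 * (Real.log M + v * i) + 1) := by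
    intro i hi t ht hE
    have hYi := hI1 i hi
    have e1 := ((H5 (lev A i) (hok i hYi) (by show v5 ≤ A.v; rw [hAv]; exact hv5) ∅
      (Finset.empty_subset _) (om t) ht.1 (fun g hg => by simp at hg)).2.2.2.2 (-1)
        (Or.inr rfl)).1
    rw [show (((-1 : ℝ)) : ℂ) = -1 by push_cast; rfl] at e1
    have e2 := hard (A := lev A i) (k := 6 * (Real.log M + v * i)) e1 (le_of_le_of_eq ht.2 (by
      rw [hratio, ← Real.exp_nat_mul]
      norm_num)) hE
    exact e2
  have hXsucc : ∀ j, j < A.J → ∀ t, (lev A j).X ∅ (om t)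
      = A.sg * (A.P j (om t)).re + (lev A (j + 1)).X ∅ (om t) := by
    intro j hj t
    show A.sg * (lev A j).Xt ∅ (om t) = _ + A.sg * (lev A (j + 1)).Xt ∅ (om t)
    rw [lev_Xt hj]
    ring
  have hXsing : ∀ j, j < A.J → ∀ t, (lev A j).X {0} (om t) = (lev A (j + 1)).X ∅ (om t) := by
    intro j hj t
    show A.sg * (lev A j).Xt {0} (om t) = A.sg * (lev A (j + 1)).Xt ∅ (om t)
    rw [lev_Xt_single hj]
  -- the covering
  have cov : Ez A.sg V h ⊆ {t : ℝ | A.Good ∅ (om t) ∧
      V - 8 * Real.log M < A.X ∅ (om t) ∧ A.X ∅ (om t) ≤ V + h + 8 * Real.log M} ∪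
      ({t | ¬((lev A I).Good ∅ (om t) ∧
        ‖ze t‖ * ‖(lev A I).mo (-1) ∅ (om t)‖ ≤ (Real.log T / A.Yf I) ^ 6)} ∪
        (TT 0 ∅ ∪ ⋃ j ∈ Finset.range I, ((Wn j {0} ∪ (BB j ∩ Wn j ∅))
          ∪ (TT j {0} ∪ TT j ∅)))) := by
    intro t ht
    by_cases hg : ∃ i, i ≤ I ∧ gd i t
    · obtain ⟨hi1, hi2⟩ := Nat.find_spec hg
      have hmin : ∀ k, k < Nat.find hg → ¬ (k ≤ I ∧ gd k t) := fun k hk => Nat.find_min hg hk
      generalize Nat.find hg = i at hi1 hi2 hmin
      have hb := hhard i hi1 t hi2 ht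
      rcases Nat.eq_zero_or_pos i with rfl | hi0
      · by_cases hE : t ∈ Ea (lev A 0) ∅ V h
        · right; right; left
          exact ⟨ht, ⟨hi2.1, fun g hg => by simp at hg⟩, hE⟩
        · left
          have e1 := hi2.1
          have hE' : ¬ ((A.sg = 1 ∧ V + h < (lev A 0).X ∅ (om t)) ∨
            (A.sg = -1 ∧ (lev A 0).X ∅ (om t) < V)) := hE
          rw [lev_zero] at e1 hb hE'
          push_cast at hb
          rw [mul_zero, add_zero] at hb
          rw [not_or, not_and, not_and, not_lt, not_lt] at hE'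
          refine ⟨e1, ?_⟩
          rcases hA.hsg with hs | hs
          · have a1 := hb.1 hs
            have a2 := hE'.1 hs
            constructor <;> linarith
          · have a1 := hb.2 hs
            have a2 := hE'.2 hs
            constructor <;> linarith
      · obtain ⟨j, rfl⟩ := Nat.exists_eq_succ_of_ne_zero hi0.ne'
        have hjI : j ∈ Finset.range I := Finset.mem_range.2 (by omega)
        have hjJ : j < A.J := hJL j (hI1 j (by omega))
        have hng := hmin j (Nat.lt_succ_self j)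
        have hv0 : (0 : ℝ) ≤ v * ((j : ℝ) + 1) := by positivity
        have hb' : (A.sg = 1 → V - 6 * (Real.log M + v * ((j : ℝ) + 1)) - 1
              < (lev A (j + 1)).X ∅ (om t)) ∧
            (A.sg = -1 → (lev A (j + 1)).X ∅ (om t)
              < V + h + 6 * (Real.log M + v * ((j : ℝ) + 1)) + 1) := by
          have := hb
          push_cast at this
          exact this
        refine Or.inr (Or.inr (Or.inr ?_))
        simp only [Set.mem_iUnion]
        refine ⟨j, hjI, ?_⟩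
        by_cases hG : (lev A j).Good ∅ (om t)
        · -- the size of zeta is bad
          have hK : t ∈ BB j := by
            by_contra hc
            exact hng ⟨by omega, hG, not_lt.1 hc⟩
          have hGB : (lev A j).Good ∅ (om t) ∧ (lev A j).Bad ∅ (om t) :=
            ⟨hG, fun g hg' => by simp at hg'⟩
          by_cases hE : t ∈ Ea (lev A j) ∅ V h
          · exact Or.inr (Or.inr ⟨ht, hGB, hE⟩)
          · refine Or.inl (Or.inr ⟨hK, hGB.1, hGB.2, ?_⟩)
            have hE' : ¬ ((A.sg = 1 ∧ V + h < (lev A j).X ∅ (om t)) ∨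
              (A.sg = -1 ∧ (lev A j).X ∅ (om t) < V)) := hE
            rw [not_or, not_and, not_and, not_lt, not_lt] at hE'
            have e3 : ‖A.P j (om t)‖ ≤ 10000 * (v * ((j : ℝ) + 1)) := by
              have e4 := hG 0 (by
                rw [Finset.sdiff_empty, Finset.mem_range]
                show 0 < A.J - j
                omega)
              rw [lev_P, lev_r, Nat.add_zero] at e4
              unfold RR Par.r at e4
              rw [hAi, hAv] at e4
              push_cast at e4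
              linarith
            have e5 := neg_le_of_abs_le (Complex.abs_re_le_norm (A.P j (om t)))
            have e6 := hXsucc j hjJ t
            rw [hD]
            simp only
            rcases hA.hsg with hs | hs
            · have a1 := hb'.1 hs
              have a2 := hE'.1 hs
              rw [hs, one_mul] at e6
              constructor <;> linarith
            · have a1 := hb'.2 hs
              have a2 := hE'.2 hs
              rw [hs] at e6
              constructor <;> linarith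
        · -- group `j` is bad
          have hGB : (lev A j).Good {0} (om t) ∧ (lev A j).Bad {0} (om t) :=
            ⟨lev_good_single hjJ hi2.1, lev_bad_single hjJ hi2.1 hG⟩
          by_cases hE : t ∈ Ea (lev A j) {0} V h
          · exact Or.inr (Or.inl ⟨ht, hGB, hE⟩)
          · refine Or.inl (Or.inl ⟨hGB.1, hGB.2, ?_⟩)
            have hE' : ¬ ((A.sg = 1 ∧ V + h < (lev A j).X {0} (om t)) ∨
              (A.sg = -1 ∧ (lev A j).X {0} (om t) < V)) := hE
            rw [not_or, not_and, not_and, not_lt, not_lt] at hE'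
            have e6 := hXsing j hjJ t
            rw [hD]
            simp only
            rcases hA.hsg with hs | hs
            · have a1 := hb'.1 hs
              have a2 := hE'.1 hs
              constructor <;> linarith
            · have a1 := hb'.2 hs
              have a2 := hE'.2 hs
              constructor <;> linarith
    · refine Or.inr (Or.inl fun hc => hg ⟨I, le_rfl, hc⟩)
  -- the tilt
  have tilt : ∀ j ≤ I, ∀ s ⊆ Finset.range (lev A j).J, Tc (lev A j) Ct K1 x T s := by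
    intro j hj s hs
    exact H1 (lev A j) (hok j (hI1 j hj)) (by show v1 ≤ A.v; rw [hAv]; exact hv1) hb20 s hs
      (un x T) inferInstance
  have hs0 : ∀ j ≤ I, ({0} : Finset ℕ) ⊆ Finset.range (lev A j).J := by
    intro j hj
    rw [Finset.singleton_subset_iff, Finset.mem_range]
    have := hJL j (hI1 j hj)
    show 0 < A.J - j
    omega
  obtain ⟨Bd, hBd⟩ : ∃ Bd : ℕ → ℝ, Bd = fun j : ℕ => Cb * ((1 + v * ((j : ℝ) + 1)) ^ 2
      * Real.exp (v * ((j : ℝ) + 1) / 1000))
      * ((1 + h + Real.log M) * (Real.exp (8 * (A.be * Real.log M)) * A.Gs V)) := ⟨_, rfl⟩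
  have hBd0 : ∀ j, 0 ≤ Bd j := by
    intro j
    rw [hBd]
    have := Gs_nonneg A V
    have h2 : 0 ≤ Real.log M := by linarith
    have h3 : 0 ≤ Cb := by linarith
    simp only
    positivity
  have hwin : ∀ j ≤ I, ∀ y, V - D j - K1 ≤ y → (lev A j).Gs y ≤ Bd j / (h + 2 * D j + 2 * K1) := by
    intro j hj y hy
    have e1 := win_num (D := D j) (xx := v * ((j : ℝ) + 1)) hA hAv hbe8 hC'0 hK1 hh hlM rfl
      (by rw [hD]) (hGs j (hI1 j hj) y) hy
    have e2 : 0 < h + 2 * D j + 2 * K1 := by linarith [hD0 j]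
    rw [le_div_iff₀ e2, mul_comm, hBd, hCb]
    exact e1
  have htl : ∀ j ≤ I, (lev A j).Gs V ≤ Bd j := by
    intro j hj
    have e1 := tail_num (xx := v * ((j : ℝ) + 1)) hA hAv hbe8 hC'0 hK1 hh hlM rfl
      (hGs j (hI1 j hj) V)
    rw [hBd, hCb]
    exact e1
  have bA : ∀ j ∈ Finset.range I, nu x T (Wn j {0})
      ≤ ENNReal.ofReal (Ct * (C2 * Real.exp (-(v * ((j : ℝ) + 1)))) * Bd j) := by
    intro j hj
    have hj' := Finset.mem_range.1 hj
    have hYj := hI1 j hj'.le
    have hs := hs0 j hj'.le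
    have e2 : 0 < h + 2 * D j + 2 * K1 := by linarith [hD0 j]
    rw [nu_apply x hT0]
    have e3 := winSet (κ := C2 * Real.exp (-(v * ((j : ℝ) + 1)))) (a := V - D j) (b := V + h + D j)
      (G0 := Bd j / (h + 2 * D j + 2 * K1)) (tilt j hj'.le {0} hs) (by linarith) (by positivity)
      (meas_dens T) (fun y => ?_) (div_nonneg (hBd0 j) e2.le) (fun y hy => hwin j hj'.le y hy)
    · refine e3.trans (ENNReal.ofReal_le_ofReal (le_of_eq ?_))
      rw [show V + h + D j - (V - D j) + 2 * K1 = h + 2 * D j + 2 * K1 by ring,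
        mul_div_cancel₀ _ e2.ne']
    · have e1 : ∫⁻ t, ENNReal.ofReal ((lev A j).W {0} y (om t)) ∂(nu x T)
          ≤ ENNReal.ofReal (C2 * Real.exp (-∑ g ∈ ({0} : Finset ℕ), ((lev A j).r g : ℝ))
            * (lev A j).Gs y) :=
        H2 (lev A j) (hok j hYj) hAp T _ hT2' (hlen j hYj) x y hx {0} {0}
          (Finset.Subset.refl _) hs
      rw [lint_nu, Finset.sum_singleton, lev_r, Nat.add_zero] at e1
      have e2 : ((A.r j : ℕ) : ℝ) = v * ((j : ℝ) + 1) := by
        unfold Par.r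
        rw [hAi, hAv]
        push_cast
        ring
      rwa [e2] at e1
  have bB : ∀ j ∈ Finset.range I, nu x T (BB j ∩ Wn j ∅)
      ≤ ENNReal.ofReal (Ct * (C3 * (elev A T j + (Real.log T / A.Yf j) ^ 10
        / ((Real.log T / A.Yf j) ^ 6) ^ 2)) * Bd j) := by
    intro j hj
    have hj' := Finset.mem_range.1 hj
    have hYj := hI1 j hj'.le
    have hL := hlen j hYj
    have hK1' : 1 ≤ (Real.log T / A.Yf j) ^ 6 := by
      rw [hratio]
      exact one_le_pow₀ (Real.one_le_exp (by positivity))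
    have he : 0 < elev A T j := hL.he
    have hYj0 : 0 < A.Yf j := hLh0.trans_le hYj
    have e2 : 0 < h + 2 * D j + 2 * K1 := by linarith [hD0 j]
    rw [nu_apply x hT0, ← setLIntegral_indicator (hBBm j)]
    have e3 := winSet (κ := C3 * (elev A T j + (Real.log T / A.Yf j) ^ 10
        / ((Real.log T / A.Yf j) ^ 6) ^ 2)) (a := V - D j) (b := V + h + D j)
      (G0 := Bd j / (h + 2 * D j + 2 * K1)) (tilt j hj'.le ∅ (Finset.empty_subset _)) (by linarith)
      (by positivity) ((meas_dens T).indicator (hBBm j)) (fun y => ?_)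
      (div_nonneg (hBd0 j) e2.le) (fun y hy => hwin j hj'.le y hy)
    · refine e3.trans (ENNReal.ofReal_le_ofReal (le_of_eq ?_))
      rw [show V + h + D j - (V - D j) + 2 * K1 = h + 2 * D j + 2 * K1 by ring,
        mul_div_cancel₀ _ e2.ne']
    · have e1 := H3 (lev A j) (hok j hYj) hAp T _ hT3' hL x y _ hx hK1'
      rw [← lintegral_indicator (hBBm j), lint_nu] at e1
      refine le_of_eq_of_le (lintegral_congr fun t => ?_) e1
      by_cases ht : t ∈ BB j
      · rw [Set.indicator_of_mem ht, Set.indicator_of_mem ht]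
      · rw [Set.indicator_of_notMem ht, Set.indicator_of_notMem ht]
        simp
  have bT : ∀ j ≤ I, ∀ s ⊆ Finset.range (lev A j).J, nu x T (TT j s)
      ≤ ENNReal.ofReal (Ct * (2 * C4 * (Real.exp v / M * Real.exp (-(v * ((j : ℝ) + 1)))))
        * (Real.exp (5 * K1) * Bd j)) := by
    intro j hj s hs
    have hYj := hI1 j hj
    have hYj0 : 0 < A.Yf j := hLh0.trans_le hYj
    have e3 := tailSet (B := lev A j) (κ := C4 * A.Yf j) (V := V) (h := h) (tilt j hj s hs)
      (by linarith) (by linarith) hT0 hlog hbe hbe1 hA.hsg (by positivity) (fun y => ?_)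
      (fun t hg hb => ?_) hh
    · refine e3.trans (ENNReal.ofReal_le_ofReal ?_)
      have k6 : C4 * A.Yf j * (2 / Real.log T)
          = 2 * C4 * (Real.exp v / M * Real.exp (-(v * ((j : ℝ) + 1)))) := by
        have e1 : Real.exp v * Real.exp (-(v * ((j : ℝ) + 1))) = Real.exp (-(v * (j : ℝ))) := by
          rw [← Real.exp_add]
          congr 1
          ring
        rw [hYf j, ← e1]
        field_simp
      rw [k6]
      have := htl j hj
      have hCt0 : 0 ≤ Ct := by linarith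
      gcongr
    · refine (H6 (lev A j) (hok j hYj) hAp T _ hT6' (hlen j hYj) x y s hs).trans
        (ENNReal.ofReal_le_ofReal ?_)
      have e1 : Real.exp (-∑ g ∈ s, ((lev A j).r g : ℝ)) ≤ 1 := by
        rw [Real.exp_le_one_iff, neg_nonpos]
        exact Finset.sum_nonneg fun g _ => Nat.cast_nonneg _
      have e2 := Gs_nonneg (lev A j) y
      have e4 : (lev A j).Y = A.Yf j := rfl
      rw [e4]
      calc C4 * Real.exp (-∑ g ∈ s, ((lev A j).r g : ℝ)) * (A.Yf j * (lev A j).Gs y)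
          ≤ C4 * 1 * (A.Yf j * (lev A j).Gs y) := by gcongr
        _ = _ := by ring
    · have e1 := ((H5 (lev A j) (hok j hYj) (by show v5 ≤ A.v; rw [hAv]; exact hv5) s
        hs (om t) hg hb).2.2.2.2 1 (Or.inl rfl)).1
      rw [show (((1 : ℝ)) : ℂ) = 1 by push_cast; rfl, mul_one] at e1
      linarith
  -- the numbers
  obtain ⟨E, hE⟩ : ∃ E : ℝ, E = Real.exp v / M := ⟨_, rfl⟩
  have hE0 : 0 < E := by rw [hE]; positivity
  have hE1 : E ≤ 1 := by
    rw [hE, div_le_one hM0]
    nlinarith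
  obtain ⟨u, hu⟩ : ∃ u : ℝ, u = Real.exp (-((v : ℝ) / 2)) := ⟨_, rfl⟩
  have hu0 : 0 ≤ u := by rw [hu]; positivity
  have hu1 : u ≤ 1 := by
    rw [hu, Real.exp_le_one_iff]
    linarith
  obtain ⟨Z, hZ⟩ : ∃ Z : ℝ, Z = (1 + h + Real.log M) * (Real.exp (8 * (A.be * Real.log M)) * A.Gs V) :=
    ⟨_, rfl⟩
  have hZ0 : 0 ≤ Z := by
    rw [hZ]
    have := Gs_nonneg A V
    positivity
  obtain ⟨CC, hCC⟩ : ∃ CC : ℝ, CC = 10 ^ 15 * (Ct * Cb * (C2 + C3 + C6)) * ((u + E) * Z) := ⟨_, rfl⟩
  have hCt0 : 0 ≤ Ct := by linarith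
  have hCb0 : 0 ≤ Cb := by linarith
  have hCC0 : 0 ≤ CC := by rw [hCC]; positivity
  have key : ∀ j : ℕ, (C2 * Real.exp (-(v * ((j : ℝ) + 1)))
      + C3 * (10 ^ 10 * (v * ((j : ℝ) + 1) * Real.exp (-(v * ((j : ℝ) + 1)))) * E
        + Real.exp (-(2 * (v * ((j : ℝ) + 1)))) * E ^ 2)
      + C6 * (E * Real.exp (-(v * ((j : ℝ) + 1)))))
        * ((1 + v * ((j : ℝ) + 1)) ^ 2 * Real.exp (v * ((j : ℝ) + 1) / 1000))
      ≤ 10 ^ 15 * (C2 + C3 + C6) * (u + E) * (1 / 2) ^ (j + 1) := by
    intro j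
    refine num3 (by linarith) (by linarith) hC60 hE0.le hE1 hu0 hu1 (by positivity) ?_
      (numB hvR j) (numC hvR j)
    rw [hu]
    exact numA hvR j
  have hBdZ : ∀ j, Bd j = Cb * ((1 + v * ((j : ℝ) + 1)) ^ 2 * Real.exp (v * ((j : ℝ) + 1) / 1000))
      * Z := by
    intro j
    rw [hBd, hZ]
  have num : ∀ j ∈ Finset.range I,
      Ct * (C2 * Real.exp (-(v * ((j : ℝ) + 1)))) * Bd j
        + Ct * (C3 * (elev A T j + (Real.log T / A.Yf j) ^ 10 / ((Real.log T / A.Yf j) ^ 6) ^ 2))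
          * Bd j
        + 2 * (Ct * (2 * C4 * (Real.exp v / M * Real.exp (-(v * ((j : ℝ) + 1)))))
          * (Real.exp (5 * K1) * Bd j))
      ≤ CC * (1 / 2) ^ (j + 1) := by
    intro j hj
    have hj0 : (0 : ℝ) ≤ j := Nat.cast_nonneg _
    have k0 := key j
    have hB := hBdZ j
    set xx : ℝ := v * ((j : ℝ) + 1) with hxx
    have hxx0 : 0 ≤ xx := by positivity
    have k1 : elev A T j = 10 ^ 10 * (xx * Real.exp (-xx)) * E := by
      unfold elev
      rw [lev_KY A j hAi, hE]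
      have e1 : A.Yf j = Real.log T / M * (Real.exp (-xx) * Real.exp v) := by
        rw [hYf j, ← Real.exp_add]
        congr 2
        rw [hxx]
        ring
      rw [e1, hAv, hxx]
      field_simp
    have k2 : (Real.log T / A.Yf j) ^ 10 / ((Real.log T / A.Yf j) ^ 6) ^ 2
        = Real.exp (-(2 * xx)) * E ^ 2 := by
      have e1 : Real.log T / A.Yf j ≠ 0 := by
        rw [hratio]
        exact (Real.exp_pos _).ne'
      have e2 : (Real.log T / A.Yf j) ^ 10 / ((Real.log T / A.Yf j) ^ 6) ^ 2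
          = ((Real.log T / A.Yf j) ^ 2)⁻¹ := by
        field_simp
      rw [e2, hE, hratio, ← Real.exp_nat_mul, ← Real.exp_neg, div_pow, ← Real.exp_nat_mul]
      have e3 : M ^ 2 = Real.exp (2 * Real.log M) := by
        rw [show (2 : ℝ) = ((2 : ℕ) : ℝ) by norm_num, ← Real.log_pow, Real.exp_log (by positivity)]
      rw [e3, ← Real.exp_sub, ← Real.exp_add]
      congr 1
      rw [hxx]
      push_cast
      ring
    rw [k1, k2, ← hE, hB]
    obtain ⟨F, hF⟩ : ∃ F : ℝ, F = (1 + xx) ^ 2 * Real.exp (xx / 1000) := ⟨_, rfl⟩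
    rw [← hF] at k0 ⊢
    calc Ct * (C2 * Real.exp (-xx)) * (Cb * F * Z)
        + Ct * (C3 * (10 ^ 10 * (xx * Real.exp (-xx)) * E + Real.exp (-(2 * xx)) * E ^ 2))
          * (Cb * F * Z)
        + 2 * (Ct * (2 * C4 * (E * Real.exp (-xx))) * (Real.exp (5 * K1) * (Cb * F * Z)))
        = Ct * Cb * Z * ((C2 * Real.exp (-xx)
          + C3 * (10 ^ 10 * (xx * Real.exp (-xx)) * E + Real.exp (-(2 * xx)) * E ^ 2)
          + C6 * (E * Real.exp (-xx))) * F) := by rw [hC6]; ring
      _ ≤ Ct * Cb * Z * (10 ^ 15 * (C2 + C3 + C6) * (u + E) * (1 / 2) ^ (j + 1)) := by gcongr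
      _ = _ := by rw [hCC]; ring
  have num0 : Ct * (2 * C4 * (Real.exp v / M * Real.exp (-(v * (((0 : ℕ) : ℝ) + 1)))))
      * (Real.exp (5 * K1) * Bd 0) ≤ CC := by
    have k0 := key 0
    have hB := hBdZ 0
    set xx : ℝ := v * (((0 : ℕ) : ℝ) + 1) with hxx
    have hxx0 : 0 ≤ xx := by positivity
    rw [← hE, hB]
    obtain ⟨F, hF⟩ : ∃ F : ℝ, F = (1 + xx) ^ 2 * Real.exp (xx / 1000) := ⟨_, rfl⟩
    have hF0 : 0 ≤ F := by rw [hF]; positivity
    rw [← hF] at k0 ⊢
    have hC20 : 0 ≤ C2 := by linarith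
    have hC30 : 0 ≤ C3 := by linarith
    calc Ct * (2 * C4 * (E * Real.exp (-xx))) * (Real.exp (5 * K1) * (Cb * F * Z))
        = Ct * Cb * Z * (1 / 2 * (C6 * (E * Real.exp (-xx))) * F) := by rw [hC6]; ring
      _ ≤ Ct * Cb * Z * ((C2 * Real.exp (-xx)
          + C3 * (10 ^ 10 * (xx * Real.exp (-xx)) * E + Real.exp (-(2 * xx)) * E ^ 2)
          + C6 * (E * Real.exp (-xx))) * F) := by
          refine mul_le_mul_of_nonneg_left ?_ (by positivity)
          refine mul_le_mul_of_nonneg_right ?_ hF0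
          have e1 : 0 ≤ C6 * (E * Real.exp (-xx)) := by positivity
          have e2 : 0 ≤ C2 * Real.exp (-xx) := by positivity
          have e3 : 0 ≤ C3 * (10 ^ 10 * (xx * Real.exp (-xx)) * E
            + Real.exp (-(2 * xx)) * E ^ 2) := by positivity
          linarith
      _ ≤ Ct * Cb * Z * (10 ^ 15 * (C2 + C3 + C6) * (u + E) * (1 / 2) ^ (0 + 1)) := by gcongr
      _ ≤ Ct * Cb * Z * (10 ^ 15 * (C2 + C3 + C6) * (u + E) * 1) := by
          gcongr
          norm_num
      _ = _ := by rw [hCC]; ring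
  -- the assembly
  have tot : nu x T (TT 0 ∅ ∪ ⋃ j ∈ Finset.range I, ((Wn j {0} ∪ (BB j ∩ Wn j ∅))
          ∪ (TT j {0} ∪ TT j ∅))) ≤ ENNReal.ofReal (2 * CC) := by
    have t0 : nu x T (TT 0 ∅) ≤ ENNReal.ofReal CC :=
      (bT 0 (Nat.zero_le _) ∅ (Finset.empty_subset _)).trans (ENNReal.ofReal_le_ofReal num0)
    have t1 : nu x T (⋃ j ∈ Finset.range I, ((Wn j {0} ∪ (BB j ∩ Wn j ∅))
          ∪ (TT j {0} ∪ TT j ∅))) ≤ ENNReal.ofReal CC := by
      refine (measure_biUnion_finset_le _ _).trans ?_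
      have e1 : ∀ j ∈ Finset.range I, nu x T ((Wn j {0} ∪ (BB j ∩ Wn j ∅))
          ∪ (TT j {0} ∪ TT j ∅)) ≤ ENNReal.ofReal (CC * (1 / 2) ^ (j + 1)) := by
        intro j hj
        have hj' := Finset.mem_range.1 hj
        have b1 := bA j hj
        have b2 := bB j hj
        have b3 := bT j hj'.le {0} (hs0 j hj'.le)
        have b4 := bT j hj'.le ∅ (Finset.empty_subset _)
        have he : 0 < elev A T j := (hlen j (hI1 j hj'.le)).he
        have hYj0 : 0 < A.Yf j := hLh0.trans_le (hI1 j hj'.le)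
        have hB0 := hBd0 j
        refine (measure_union_le _ _).trans ?_
        refine (add_le_add (measure_union_le _ _) (measure_union_le _ _)).trans ?_
        refine (add_le_add (add_le_add b1 b2) (add_le_add b3 b4)).trans ?_
        rw [← ENNReal.ofReal_add (by positivity) (by positivity),
          ← ENNReal.ofReal_add (by positivity) (by positivity),
          ← ENNReal.ofReal_add (by positivity) (by positivity)]
        refine ENNReal.ofReal_le_ofReal ((le_of_eq ?_).trans (num j hj))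
        ring
      refine (Finset.sum_le_sum e1).trans ?_
      rw [← ENNReal.ofReal_sum_of_nonneg (fun j _ => by positivity)]
      refine ENNReal.ofReal_le_ofReal ?_
      rw [← Finset.mul_sum]
      exact mul_le_of_le_one_right hCC0 (sum_half I)
    refine (measure_union_le _ _).trans ((add_le_add t0 t1).trans (le_of_eq ?_))
    rw [← ENNReal.ofReal_add hCC0 hCC0]
    congr 1
    ring
  have fin : nu x T (Ez A.sg V h) ≤
      nu x T {t | A.Good ∅ (om t) ∧ V - 8 * Real.log M < A.X ∅ (om t) ∧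
        A.X ∅ (om t) ≤ V + h + 8 * Real.log M}
        + ENNReal.ofReal (Real.log T ^ (-(1 / 8) : ℝ) + 2 * CC) := by
    refine (measure_mono cov).trans ((measure_union_le _ _).trans ?_)
    gcongr
    refine (measure_union_le _ _).trans ?_
    rw [ENNReal.ofReal_add (by positivity) (by positivity)]
    exact add_le_add hlast tot
  have fin2 := ENNReal.toReal_mono (by finiteness) fin
  rw [ENNReal.toReal_add (by finiteness) ENNReal.ofReal_ne_top, ENNReal.toReal_ofReal
    (by positivity)] at fin2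
  refine fin2.trans (le_of_eq ?_)
  rw [hCC, hZ, hE, hu]
  ring

end Pool.Agent.Lib.LC
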