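import Mathlib
import Pool.Agent.Lib.MP_f9aece_nt_g2.H2
import Pool.Agent.Lib.MP_f9aece_nt_loc.StmtsTwo

/-!
The law of `log |zeta|` at bounded scale under the measure `|zeta| ^ 2`: module K4, lower bound for the
values in an interval.
-/

set_option autoImplicit false

namespace Pool.Agent.Lib.LC

open MeasureTheory Set Filter Topology Complex ProbabilityTheory
open scoped ComplexConjugate
open Pool.Agent.Lib.G2
open Pool.Agent.Lib.GT (om un)
open Pool.Agent.Lib.G2.H2

namespace K4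

lemma Gs_shift (A : Par) (V c : ℝ) : A.Gs (V - c) = Real.exp (A.be * c) * A.Gs V := by
  unfold Par.Gs Par.G
  rw [show -(A.be * (V - c - A.sg * A.vt)) + A.be ^ 2 * A.s2 / 2
    = A.be * c + (-(A.be * (V - A.sg * A.vt)) + A.be ^ 2 * A.s2 / 2) by ring, Real.exp_add]
  ring

/-- the integral of the windows over an interval -/
lemma win {A : Par} (hA : A.Ok) (hb : A.b = 1 / 20) {C1 V κ h : ℝ} (hC1 : 1 ≤ C1) (hκ : 1 ≤ κ)
    (hh : 1 ≤ h) :
    ∫⁻ y : ℝ, (Icc (V + κ - C1) (V + h - κ + C1)).indicator (fun _ => (1 : ENNReal)) y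
        * ENNReal.ofReal (A.Gs y)
      ≤ ENNReal.ofReal ((1 + 2 * C1) * Real.exp (C1 / 20) * (h * A.Gs V)) := by
  have h1 : ∀ y : ℝ, (Icc (V + κ - C1) (V + h - κ + C1)).indicator (fun _ => (1 : ENNReal)) y
        * ENNReal.ofReal (A.Gs y)
      ≤ (Icc (V + κ - C1) (V + h - κ + C1)).indicator
          (fun _ => ENNReal.ofReal (Real.exp (C1 / 20) * A.Gs V)) y := by
    intro y
    by_cases hy : y ∈ Icc (V + κ - C1) (V + h - κ + C1)
    · rw [indicator_of_mem hy, indicator_of_mem hy, one_mul]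
      refine ENNReal.ofReal_le_ofReal ?_
      have h2 : A.Gs y ≤ A.Gs (V - C1) := Gs_anti hA (by linarith [hy.1])
      rw [Gs_shift] at h2
      refine h2.trans (mul_le_mul_of_nonneg_right (Real.exp_le_exp.2 ?_) (Gs_nonneg A V))
      have h3 : A.be ≤ 1 / 20 := by
        have := hA.hbb
        linarith
      have := mul_le_mul_of_nonneg_right h3 (by linarith : (0 : ℝ) ≤ C1)
      linarith
    · rw [indicator_of_notMem hy, indicator_of_notMem hy, zero_mul]
  have h0 : 0 ≤ Real.exp (C1 / 20) * A.Gs V := mul_nonneg (Real.exp_pos _).le (Gs_nonneg A V)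
  calc ∫⁻ y : ℝ, (Icc (V + κ - C1) (V + h - κ + C1)).indicator (fun _ => (1 : ENNReal)) y
        * ENNReal.ofReal (A.Gs y)
      ≤ ∫⁻ y : ℝ, (Icc (V + κ - C1) (V + h - κ + C1)).indicator
          (fun _ => ENNReal.ofReal (Real.exp (C1 / 20) * A.Gs V)) y := lintegral_mono h1
    _ = ENNReal.ofReal (Real.exp (C1 / 20) * A.Gs V) *
          volume (Icc (V + κ - C1) (V + h - κ + C1)) := by
        rw [lintegral_indicator measurableSet_Icc, setLIntegral_const]
    _ = ENNReal.ofReal (Real.exp (C1 / 20) * A.Gs V) *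
          ENNReal.ofReal (V + h - κ + C1 - (V + κ - C1)) := by rw [Real.volume_Icc]
    _ ≤ ENNReal.ofReal (Real.exp (C1 / 20) * A.Gs V) * ENNReal.ofReal ((1 + 2 * C1) * h) := by
        refine mul_le_mul_right (ENNReal.ofReal_le_ofReal ?_) _
        nlinarith
    _ = ENNReal.ofReal (Real.exp (C1 / 20) * A.Gs V * ((1 + 2 * C1) * h)) :=
        (ENNReal.ofReal_mul h0).symm
    _ = _ := by
        congr 1
        ring

lemma win_le {C1 V κ h : ℝ} (u y : ℝ) (huy : |u - y| ≤ C1) :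
    (Ioc (V + κ) (V + h - κ)).indicator (fun _ => (1 : ENNReal)) u ≤
      (Icc (V + κ - C1) (V + h - κ + C1)).indicator (fun _ => (1 : ENNReal)) y := by
  by_cases hu : u ∈ Ioc (V + κ) (V + h - κ)
  · have h1 := abs_le.1 huy
    have hy : y ∈ Icc (V + κ - C1) (V + h - κ + C1) :=
      ⟨by linarith [hu.1, h1.2], by linarith [hu.2, h1.1]⟩
    rw [indicator_of_mem hu, indicator_of_mem hy]
  · rw [indicator_of_notMem hu]
    exact zero_le

lemma cont_Xt (A : Par) : Continuous fun t : ℝ => A.Xt ∅ (om t) := by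
  unfold Par.Xt
  exact continuous_finsetSum _ fun g _ => Complex.continuous_re.comp (cont_lin _ _)

lemma cont_X (A : Par) : Continuous fun t : ℝ => A.X ∅ (om t) :=
  continuous_const.mul (cont_Xt A)

lemma meas_good (A : Par) : MeasurableSet {t : ℝ | A.Good ∅ (om t)} := by
  have e : {t : ℝ | A.Good ∅ (om t)} =
      ⋂ g ∈ Finset.range A.J \ ∅, {t : ℝ | ‖A.P g (om t)‖ ≤ Pool.Agent.Lib.GT.RR (A.r g)} := by
    ext t
    simp [Par.Good]
  rw [e]
  refine Finset.measurableSet_biInter _ fun g _ => ?_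
  exact measurableSet_le (cont_lin _ _).norm.measurable measurable_const

/-- a measurable set of good points in the window, bounded with a majorant of the density -/
lemma bound_set {A : Par} (hA : A.Ok) (hb : A.b = 1 / 20) {Ct C1 V κ h : ℝ} (hC1 : 1 ≤ C1)
    (hκ : 1 ≤ κ) (hh : 1 ≤ h) (x T : ℝ) (hT : 0 < T) (hCt : 1 ≤ Ct)
    (ht : ∀ m : Measure ℝ, SFinite m → ∀ κ : ℝ, 0 ≤ κ → ∀ H : ℝ → ENNReal, Measurable H →
      (∀ y : ℝ, ∫⁻ t, ENNReal.ofReal (A.W ∅ y (om t)) * H t ∂m ≤ ENNReal.ofReal (κ * A.Gs y)) →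
      ∀ ω ω' : ℝ → ENNReal, Measurable ω → Measurable ω' → (∀ u y : ℝ, |u - y| ≤ C1 → ω u ≤ ω' y) →
      ∫⁻ t in {t | A.Good ∅ (om t) ∧ A.Bad ∅ (om t)}, ω (A.X ∅ (om t)) * H t ∂m
        ≤ ENNReal.ofReal (Ct * κ) * ∫⁻ y : ℝ, ω' y * ENNReal.ofReal (A.Gs y))
    (κ0 : ℝ) (hκ0 : 0 ≤ κ0) (H : ℝ → ENNReal) (hH : Measurable H)
    (hWH : ∀ y : ℝ, ∫⁻ t, ENNReal.ofReal (A.W ∅ y (om t)) * H t ∂(un x T)
      ≤ ENNReal.ofReal (κ0 * A.Gs y))
    (B : Set ℝ) (hBm : MeasurableSet B)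
    (hB : ∀ t ∈ B, A.Good ∅ (om t) ∧ V + κ < A.X ∅ (om t) ∧ A.X ∅ (om t) ≤ V + h - κ)
    (hBH : ∀ t ∈ B, ENNReal.ofReal (‖ze t‖ ^ 2 / Real.log T) ≤ H t) :
    nu x T B ≤ ENNReal.ofReal (Ct * κ0 * ((1 + 2 * C1) * Real.exp (C1 / 20) * (h * A.Gs V))) := by
  have hp := Pool.Agent.Lib.GT.prob_un x hT
  have hsub : B ⊆ {t | A.Good ∅ (om t) ∧ A.Bad ∅ (om t)} := fun t h5 =>
    ⟨(hB t h5).1, fun g hg => absurd hg (Finset.notMem_empty g)⟩
  calc nu x T B = ∫⁻ t in B, ENNReal.ofReal (‖ze t‖ ^ 2 / Real.log T) ∂(un x T) := nu_apply x hT B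
    _ ≤ ∫⁻ t in B, (Ioc (V + κ) (V + h - κ)).indicator (fun _ => (1 : ENNReal)) (A.X ∅ (om t))
          * H t ∂(un x T) := by
        refine setLIntegral_mono' hBm fun t h5 => ?_
        have h6 := hB t h5
        rw [indicator_of_mem (show A.X ∅ (om t) ∈ Ioc (V + κ) (V + h - κ) from ⟨h6.2.1, h6.2.2⟩),
          one_mul]
        exact hBH t h5
    _ ≤ ∫⁻ t in {t | A.Good ∅ (om t) ∧ A.Bad ∅ (om t)},
          (Ioc (V + κ) (V + h - κ)).indicator (fun _ => (1 : ENNReal)) (A.X ∅ (om t))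
          * H t ∂(un x T) := lintegral_mono' (Measure.restrict_mono hsub le_rfl) le_rfl
    _ ≤ ENNReal.ofReal (Ct * κ0) * ∫⁻ y : ℝ,
          (Icc (V + κ - C1) (V + h - κ + C1)).indicator (fun _ => (1 : ENNReal)) y
          * ENNReal.ofReal (A.Gs y) :=
        ht (un x T) inferInstance κ0 hκ0 H hH hWH _ _
          (measurable_const.indicator measurableSet_Ioc)
          (measurable_const.indicator measurableSet_Icc) (fun u y huy => win_le u y huy)
    _ ≤ ENNReal.ofReal (Ct * κ0) *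
          ENNReal.ofReal ((1 + 2 * C1) * Real.exp (C1 / 20) * (h * A.Gs V)) := by
        gcongr
        exact win hA hb hC1 hκ hh
    _ = _ := (ENNReal.ofReal_mul (by positivity)).symm

end K4

open K4

/-- K4: lower bound for the values of zeta -/
theorem nuLowLoc (hW : TiltW2) (hI : NuUI) (hM : MoUp) (hP : WPoint) : NuLowLoc := by
  intro p0 hp0
  obtain ⟨Ct, C1, v1, hCt, hC1, ht⟩ := hW
  obtain ⟨Cu, T1, hCu, hT1, hu⟩ := hI p0 hp0
  obtain ⟨Cm, T2, hCm, hT2, hm⟩ := hM p0 hp0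
  obtain ⟨Cw, C1', v2, hCw, hC1', hw⟩ := hP
  set D0 : ℝ := (1 + 2 * C1) * Real.exp (C1 / 20) with hD0
  have hD1 : 1 ≤ D0 := by
    have h1 : (1 : ℝ) ≤ 1 + 2 * C1 := by linarith
    have h2 : (1 : ℝ) ≤ Real.exp (C1 / 20) := Real.one_le_exp (by linarith)
    exact one_le_mul_of_one_le_of_one_le h1 h2
  refine ⟨2 * (Ct * (Cm + Cu)) * D0, max T1 T2, max v1 v2, ?_, le_trans hT1 (le_max_left _ _), ?_⟩
  · have h1 : 1 ≤ Ct * (Cm + Cu) := one_le_mul_of_one_le_of_one_le hCt (by linarith)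
    have h2 : 1 ≤ 2 * (Ct * (Cm + Cu)) := by linarith
    exact one_le_mul_of_one_le_of_one_le h2 hD1
  intro A hA hv hAp hb T e hT hL x V h κ hx hκ hh hκh
  have hT1' : T1 ≤ T := (le_max_left _ _).trans hT
  have hT2' : T2 ≤ T := (le_max_right _ _).trans hT
  have hTp : 0 < T := by linarith
  have hlog : 0 < Real.log T := Real.log_pos (by linarith)
  have hY1 : 1 ≤ A.Y := hA.hY
  have hY : 0 < A.Y := by linarith
  have he : 0 < e := hL.he
  have hYT : A.Y ≤ Real.log T := by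
    have h1 := hL.hK
    have h2 : A.Y ≤ A.KY := by
      unfold Par.KY
      have h3 : (4 : ℝ) ≤ (A.v : ℝ) := by exact_mod_cast hA.hv
      have h4 : (0 : ℝ) ≤ (A.i : ℝ) := Nat.cast_nonneg _
      have h5 : (1 : ℝ) ≤ (A.v : ℝ) * ((A.i : ℝ) + 1) := by nlinarith
      nlinarith
    have h3 : e * Real.log T ≤ 1 * Real.log T :=
      mul_le_mul_of_nonneg_right (by linarith [hL.he1]) hlog.le
    nlinarith
  have hm' := hm A hA hAp T e hT2' hL x
  -- the threshold
  obtain ⟨K, hK1, hK2⟩ : ∃ K : ℝ, 1 ≤ K ∧ K ^ 2 = Real.exp (2 * κ) / 2 := by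
    refine ⟨Real.sqrt (Real.exp (2 * κ) / 2), ?_, Real.sq_sqrt (by positivity)⟩
    rw [Real.one_le_sqrt]
    have := Real.add_one_le_exp (2 * κ)
    linarith
  have hK0 : 0 < K ^ 2 := by positivity
  have hu' := fun y => hu A hA hAp T e hT1' hL x y K hx hK1
  have hW0 : ∀ y t, 0 ≤ A.W ∅ y (om t) := fun y t => by
    unfold Par.W Par.Wg
    have hc0 : 0 ≤ Pool.Agent.Lib.GT.c0 := by
      unfold Pool.Agent.Lib.GT.c0
      exact integral_nonneg fun _ => by positivity
    have hb' : 0 ≤ A.b := by linarith [hA.hbe, hA.hbb]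
    simp only [Finset.prod_empty, mul_one]
    positivity
  have hpt := fun (t : ℝ) (h5 : A.Good ∅ (om t)) =>
    (hw A hA (le_trans (le_max_right _ _) hv) ∅ (Finset.empty_subset _) (om t) h5
      (fun g hg => absurd hg (Finset.notMem_empty g))).2.2.2.2
  have htA := ht A hA (le_trans (le_max_left _ _) hv) hb ∅ (Finset.empty_subset _)
  -- the sets
  set E : Set ℝ := {t | A.Good ∅ (om t) ∧ V + κ < A.X ∅ (om t) ∧ A.X ∅ (om t) ≤ V + h - κ} with hE
  have hEm : MeasurableSet E :=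
    (meas_good A).inter ((measurableSet_lt measurable_const (cont_X A).measurable).inter
      (measurableSet_le (cont_X A).measurable measurable_const))
  set B1 : Set ℝ := E ∩ {t | ‖ze t‖ ≤ Real.exp (A.Xt ∅ (om t) - κ)} with hB1
  set B2 : Set ℝ := E ∩ {t | Real.exp (A.Xt ∅ (om t) + κ) < ‖ze t‖} with hB2
  have hB1m : MeasurableSet B1 := hEm.inter (measurableSet_le cont_ze.norm.measurable
    (Real.measurable_exp.comp ((cont_Xt A).measurable.sub_const κ)))
  have hB2m : MeasurableSet B2 := hEm.inter (measurableSet_lt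
    (Real.measurable_exp.comp ((cont_Xt A).measurable.add_const κ)) cont_ze.norm.measurable)
  have hsplit : E ⊆ Ez A.sg V h ∪ (B1 ∪ B2) := by
    intro t ht1
    by_cases hz : ze t = 0
    · refine Or.inr (Or.inl ⟨ht1, ?_⟩)
      simp only [mem_setOf_eq, hz, norm_zero]
      exact (Real.exp_pos _).le
    have hzp : 0 < ‖ze t‖ := norm_pos_iff.2 hz
    by_cases h1 : V < A.sg * Real.log ‖ze t‖ ∧ A.sg * Real.log ‖ze t‖ ≤ V + h
    · exact Or.inl ⟨hz, h1.1, h1.2⟩
    refine Or.inr ?_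
    have hX : A.X ∅ (om t) = A.sg * A.Xt ∅ (om t) := rfl
    have h2 := ht1.2.1
    have h3 := ht1.2.2
    rw [hX] at h2 h3
    have key : Real.log ‖ze t‖ ≤ A.Xt ∅ (om t) - κ ∨ A.Xt ∅ (om t) + κ < Real.log ‖ze t‖ := by
      rcases hA.hsg with hs | hs
      · rw [hs, one_mul] at h1 h2 h3
        by_cases h4 : V < Real.log ‖ze t‖
        · right
          have h5 : ¬ Real.log ‖ze t‖ ≤ V + h := fun h6 => h1 ⟨h4, h6⟩
          linarith [not_le.1 h5]
        · left
          linarith [not_lt.1 h4]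
      · rw [hs, neg_one_mul] at h1 h2 h3
        by_cases h4 : V < -Real.log ‖ze t‖
        · left
          have h5 : ¬ -Real.log ‖ze t‖ ≤ V + h := fun h6 => h1 ⟨h4, h6⟩
          linarith [not_le.1 h5]
        · right
          linarith [not_lt.1 h4]
    rcases key with h4 | h4
    · refine Or.inl ⟨ht1, ?_⟩
      have := Real.exp_le_exp.2 h4
      rwa [Real.exp_log hzp] at this
    · refine Or.inr ⟨ht1, ?_⟩
      have := Real.exp_lt_exp.2 h4
      rwa [Real.exp_log hzp] at this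
  have hG0 : 0 ≤ A.Gs V := Gs_nonneg A V
  have hh0 : 0 < h := by linarith
  -- zeta small
  have hmo : Measurable fun t : ℝ => ENNReal.ofReal (‖A.mo 1 ∅ (om t)‖ ^ 2) := by
    have := cont_mo A 1 ∅
    exact ENNReal.measurable_ofReal.comp
      (by fun_prop : Continuous fun t : ℝ => ‖A.mo 1 ∅ (om t)‖ ^ 2).measurable
  have n1 : nu x T B1 ≤ ENNReal.ofReal (Ct * (2 * Real.exp (-(2 * κ)) / Real.log T * (Cm * A.Y))
      * (D0 * (h * A.Gs V))) := by
    refine bound_set hA hb hC1 hκ hh x T hTp hCt htA _ (by positivity)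
      (fun t => ENNReal.ofReal (2 * Real.exp (-(2 * κ)) / Real.log T)
        * ENNReal.ofReal (‖A.mo 1 ∅ (om t)‖ ^ 2)) (hmo.const_mul _) ?_ B1 hB1m
      (fun t h5 => h5.1) ?_
    · intro y
      have h4 := hm' y ∅ (Finset.empty_subset _)
      simp only [Finset.sum_empty, neg_zero, Real.exp_zero, mul_one] at h4
      calc ∫⁻ t, ENNReal.ofReal (A.W ∅ y (om t)) *
            (ENNReal.ofReal (2 * Real.exp (-(2 * κ)) / Real.log T)
              * ENNReal.ofReal (‖A.mo 1 ∅ (om t)‖ ^ 2)) ∂(un x T)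
          = ∫⁻ t, ENNReal.ofReal (2 * Real.exp (-(2 * κ)) / Real.log T) *
              ENNReal.ofReal (A.W ∅ y (om t) * ‖A.mo 1 ∅ (om t)‖ ^ 2) ∂(un x T) := by
            refine lintegral_congr fun t => ?_
            rw [ENNReal.ofReal_mul (hW0 y t)]
            ring
        _ = ENNReal.ofReal (2 * Real.exp (-(2 * κ)) / Real.log T) *
              ∫⁻ t, ENNReal.ofReal (A.W ∅ y (om t) * ‖A.mo 1 ∅ (om t)‖ ^ 2) ∂(un x T) :=
            lintegral_const_mul' _ _ ENNReal.ofReal_ne_top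
        _ ≤ ENNReal.ofReal (2 * Real.exp (-(2 * κ)) / Real.log T) *
              ENNReal.ofReal (Cm * (A.Y * A.Gs y)) := by gcongr
        _ = _ := by
            rw [← ENNReal.ofReal_mul (by positivity)]
            congr 1
            ring
    · intro t h5
      rw [← ENNReal.ofReal_mul (by positivity)]
      refine ENNReal.ofReal_le_ofReal ?_
      have h8 := (hpt t h5.1.1 1 (Or.inl rfl)).1
      have h7 : ‖ze t‖ ≤ Real.exp (A.Xt ∅ (om t) - κ) := h5.2
      have h10 : ‖ze t‖ ^ 2 ≤ Real.exp (-(2 * κ)) * Real.exp (2 * 1 * A.Xt ∅ (om t)) := by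
        calc ‖ze t‖ ^ 2 ≤ Real.exp (A.Xt ∅ (om t) - κ) ^ 2 :=
              pow_le_pow_left₀ (norm_nonneg _) h7 2
          _ = Real.exp (-(2 * κ)) * Real.exp (2 * 1 * A.Xt ∅ (om t)) := by
              rw [← Real.exp_nat_mul, ← Real.exp_add]
              congr 1
              push_cast
              ring
      calc ‖ze t‖ ^ 2 / Real.log T
          ≤ Real.exp (-(2 * κ)) * (2 * ‖A.mo 1 ∅ (om t)‖ ^ 2) / Real.log T := by
            refine div_le_div_of_nonneg_right (h10.trans ?_) hlog.le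
            refine mul_le_mul_of_nonneg_left ?_ (Real.exp_pos _).le
            have h8' : 1 / 2 * Real.exp (2 * 1 * A.Xt ∅ (om t)) ≤ ‖A.mo 1 ∅ (om t)‖ ^ 2 := by
              simpa using h8
            calc Real.exp (2 * 1 * A.Xt ∅ (om t))
                = 2 * (1 / 2 * Real.exp (2 * 1 * A.Xt ∅ (om t))) := by ring
              _ ≤ 2 * ‖A.mo 1 ∅ (om t)‖ ^ 2 := mul_le_mul_of_nonneg_left h8' (by norm_num)
        _ = _ := by ring
  -- zeta large
  set Q : Set ℝ := {t | K < ‖ze t‖ * ‖A.mo (-1) ∅ (om t)‖} with hQ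
  have hQm : MeasurableSet Q :=
    measurableSet_lt measurable_const (cont_ze.norm.mul (cont_mo A (-1) ∅).norm).measurable
  have hf : Measurable fun t : ℝ => ENNReal.ofReal (‖ze t‖ ^ 2 / Real.log T) := by
    have := cont_ze
    exact ENNReal.measurable_ofReal.comp
      (by fun_prop : Continuous fun t : ℝ => ‖ze t‖ ^ 2 / Real.log T).measurable
  have hH : Measurable (Q.indicator fun t : ℝ => ENNReal.ofReal (‖ze t‖ ^ 2 / Real.log T)) :=
    hf.indicator hQm
  have n2 : nu x T B2 ≤ ENNReal.ofReal (Ct * (Cu * (e + (Real.log T / A.Y) ^ 10 / K ^ 2))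
      * (D0 * (h * A.Gs V))) := by
    refine bound_set hA hb hC1 hκ hh x T hTp hCt htA _ (by positivity)
      (Q.indicator fun t : ℝ => ENNReal.ofReal (‖ze t‖ ^ 2 / Real.log T)) hH ?_ B2 hB2m
      (fun t h5 => h5.1) ?_
    · intro y
      have h4 := hu' y
      calc ∫⁻ t, ENNReal.ofReal (A.W ∅ y (om t)) *
            Q.indicator (fun t : ℝ => ENNReal.ofReal (‖ze t‖ ^ 2 / Real.log T)) t ∂(un x T)
          = ∫⁻ t in Q, ENNReal.ofReal (A.W ∅ y (om t)) ∂(nu x T) := by
            unfold nu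
            rw [setLIntegral_withDensity_eq_setLIntegral_mul_non_measurable₀ _ hf.aemeasurable _ hQm
              (Eventually.of_forall fun _ => ENNReal.ofReal_lt_top), ← lintegral_indicator hQm]
            refine lintegral_congr fun t => ?_
            by_cases h5 : t ∈ Q
            · rw [indicator_of_mem h5, indicator_of_mem h5]
              simp only [Pi.mul_apply]
              rw [mul_comm]
            · rw [indicator_of_notMem h5, indicator_of_notMem h5, mul_zero]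
        _ ≤ _ := h4
    · intro t h5
      have h6 : t ∈ Q := by
        have h8 := (hpt t h5.1.1 (-1) (Or.inr rfl)).1
        have h7 : Real.exp (A.Xt ∅ (om t) + κ) < ‖ze t‖ := h5.2
        have h12 : Real.exp (2 * (A.Xt ∅ (om t) + κ)) < ‖ze t‖ ^ 2 := by
          calc Real.exp (2 * (A.Xt ∅ (om t) + κ)) = Real.exp (A.Xt ∅ (om t) + κ) ^ 2 := by
                rw [← Real.exp_nat_mul]
                norm_num
            _ < ‖ze t‖ ^ 2 := pow_lt_pow_left₀ h7 (Real.exp_pos _).le (by norm_num)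
        have h13 : K ^ 2 < (‖ze t‖ * ‖A.mo (-1) ∅ (om t)‖) ^ 2 := by
          calc K ^ 2 = Real.exp (2 * (A.Xt ∅ (om t) + κ))
                * (1 / 2 * Real.exp (2 * -1 * A.Xt ∅ (om t))) := by
                rw [hK2, mul_left_comm, ← Real.exp_add]
                rw [show 2 * (A.Xt ∅ (om t) + κ) + 2 * -1 * A.Xt ∅ (om t) = 2 * κ by ring]
                ring
            _ < ‖ze t‖ ^ 2 * (1 / 2 * Real.exp (2 * -1 * A.Xt ∅ (om t))) :=
                mul_lt_mul_of_pos_right h12 (by positivity)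
            _ ≤ ‖ze t‖ ^ 2 * ‖A.mo (-1) ∅ (om t)‖ ^ 2 :=
                mul_le_mul_of_nonneg_left (by simpa using h8) (by positivity)
            _ = _ := by ring
        exact lt_of_pow_lt_pow_left₀ 2 (by positivity) h13
      rw [indicator_of_mem h6]
  -- together
  have hfin : nu x T (B1 ∪ B2) ≤ ENNReal.ofReal
      (Ct * (2 * Real.exp (-(2 * κ)) / Real.log T * (Cm * A.Y)) * (D0 * (h * A.Gs V))
        + Ct * (Cu * (e + (Real.log T / A.Y) ^ 10 / K ^ 2)) * (D0 * (h * A.Gs V))) := by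
    refine (measure_union_le _ _).trans ((add_le_add n1 n2).trans ?_)
    rw [ENNReal.ofReal_add (by positivity) (by positivity)]
  refine (toReal_split hTp hsplit hfin (by positivity)).trans ?_
  refine add_le_add le_rfl ?_
  have hR : 1 ≤ (Real.log T / A.Y) ^ 10 := one_le_pow₀ ((one_le_div hY).2 hYT)
  have hR' : A.Y / Real.log T ≤ 1 := (div_le_one hlog).2 hYT
  have hE0 : 0 < Real.exp (-(2 * κ)) := Real.exp_pos _
  set R : ℝ := (Real.log T / A.Y) ^ 10 with hRdef
  have e1 : 2 * Real.exp (-(2 * κ)) / Real.log T * (Cm * A.Y)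
      = 2 * Cm * (A.Y / Real.log T * Real.exp (-(2 * κ))) := by ring
  have e2 : R / K ^ 2 = 2 * (R * Real.exp (-(2 * κ))) := by
    rw [hK2, Real.exp_neg]
    field_simp
  have e3 : A.Y / Real.log T * Real.exp (-(2 * κ)) ≤ R * Real.exp (-(2 * κ)) :=
    mul_le_mul_of_nonneg_right (hR'.trans hR) hE0.le
  rw [e1, e2]
  have hx0 : 0 ≤ R * Real.exp (-(2 * κ)) := by positivity
  have k1 : 2 * Cm * (A.Y / Real.log T * Real.exp (-(2 * κ)))
      + Cu * (e + 2 * (R * Real.exp (-(2 * κ))))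
      ≤ 2 * (Cm + Cu) * (e + R * Real.exp (-(2 * κ))) := by
    have a1 : 2 * Cm * (A.Y / Real.log T * Real.exp (-(2 * κ))) ≤ 2 * Cm * (R * Real.exp (-(2 * κ))) :=
      mul_le_mul_of_nonneg_left e3 (by linarith)
    have a2 : 0 ≤ Cm * e := by positivity
    have a3 : 0 ≤ Cu * e := by positivity
    nlinarith
  calc Ct * (2 * Cm * (A.Y / Real.log T * Real.exp (-(2 * κ)))) * (D0 * (h * A.Gs V))
        + Ct * (Cu * (e + 2 * (R * Real.exp (-(2 * κ))))) * (D0 * (h * A.Gs V))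
      = Ct * (D0 * (h * A.Gs V)) * (2 * Cm * (A.Y / Real.log T * Real.exp (-(2 * κ)))
      + Cu * (e + 2 * (R * Real.exp (-(2 * κ))))) := by ring
    _ ≤ Ct * (D0 * (h * A.Gs V)) * (2 * (Cm + Cu) * (e + R * Real.exp (-(2 * κ)))) :=
        mul_le_mul_of_nonneg_left k1 (by positivity)
    _ = _ := by ring

end Pool.Agent.Lib.LC
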