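import Mathlib
import Pool.Agent.Lib.MP_f9aece_nt_loc.StmtsTwo
import Pool.Agent.Lib.MP_f9aece_nt_loc.E11
import Pool.Agent.Lib.MP_f9aece_nt_g2.H5

/-!
The law of `log |zeta|` at bounded scale, module K5: the measure `|zeta| ^ 2`, assembly (choice of
the parameters).
-/

set_option autoImplicit false

namespace Pool.Agent.Lib.LC.K5

open MeasureTheory Set Filter Topology ProbabilityTheory
open Pool.Agent.Lib.G2
open Pool.Agent.Lib.GT (om un choose_p choose_M scales)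
open Pool.Agent.Lib.LC.GI (p p_eq gi_eq p_int sqrt_two_pi_le)

/-! ### densities -/

theorem p_pos {s : ℝ} (hs : 0 < s) (z : ℝ) : 0 < p s z := by
  rw [p_eq hs]
  positivity

theorem p_neg {s : ℝ} (hs : 0 < s) (z : ℝ) : p s (-z) = p s z := by
  rw [p_eq hs, p_eq hs, neg_sq]

/-- the density at `z` for the standard deviation `s` is close to the density at `U` -/
theorem dens {l s s0 K D H δ θ U z : ℝ} (hl : 1 ≤ l) (hs : 0 < s) (hs0 : 0 < s0)
    (hs2 : l / 4 ≤ s ^ 2) (hs02 : s0 ^ 2 = l / 2) (hK : |s ^ 2 - s0 ^ 2| ≤ K) (hD : 0 ≤ D) (hH : 0 ≤ H)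
    (hδ0 : 0 ≤ δ) (hδ1 : δ ≤ 1) (hU : |U| ≤ δ * l + H) (hz : |z - U| ≤ D) (hθ : θ ≤ 1 / 2)
    (h1 : (4 * D + 8 * K) * δ ≤ θ / 2)
    (h2 : (2 * D * (2 * H + D) + 8 * K * H ^ 2 + 2 * K) / l ≤ θ / 2) :
    |p s z - p s0 U| ≤ 4 * θ * p s0 U := by
  obtain ⟨g1, g2, g3⟩ := scales hl hs hs0 hs2 hs02 hK
  have hK0 : 0 ≤ K := (abs_nonneg _).trans hK
  have hlp : 0 < l := by linarith
  have hδl : 0 ≤ δ * l := by positivity
  rw [div_le_iff₀ hlp] at h2
  have hHl : 8 * K * H ^ 2 / l ^ 2 ≤ 8 * K * H ^ 2 / l := by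
    apply div_le_div_of_nonneg_left (by positivity) hlp
    nlinarith
  -- the exponent
  have b1 : |(z ^ 2 - U ^ 2) / (2 * s ^ 2)| ≤ D * (2 * (δ * l + H) + D) / (l / 2) := by
    rw [abs_div, abs_of_pos (by positivity : 0 < 2 * s ^ 2)]
    apply div_le_div₀ (by positivity) _ (by linarith) (by linarith)
    have e : z ^ 2 - U ^ 2 = (z - U) * (2 * U + (z - U)) := by ring
    rw [e, abs_mul]
    apply mul_le_mul hz _ (abs_nonneg _) hD
    refine (abs_add_le _ _).trans ?_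
    rw [abs_mul, abs_two]
    linarith
  have b2 : |U ^ 2 * (s0 ^ 2 - s ^ 2) / (2 * s ^ 2 * s0 ^ 2)| ≤ (δ * l + H) ^ 2 * K / (l ^ 2 / 4) := by
    rw [abs_div, abs_of_pos (by positivity : 0 < 2 * s ^ 2 * s0 ^ 2)]
    apply div_le_div₀ (by positivity) _ (by positivity)
    · rw [hs02]
      nlinarith
    · rw [abs_mul, abs_sub_comm]
      apply mul_le_mul _ hK (abs_nonneg _) (by positivity)
      rw [abs_of_nonneg (sq_nonneg U), ← sq_abs U]
      exact pow_le_pow_left₀ (abs_nonneg _) hU 2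
  have b3 : D * (2 * (δ * l + H) + D) / (l / 2) = 4 * D * δ + 2 * D * (2 * H + D) / l := by
    field_simp
    ring
  have b4 : (δ * l + H) ^ 2 * K / (l ^ 2 / 4) ≤ 8 * K * δ + 8 * K * H ^ 2 / l := by
    have e1 : (δ * l + H) ^ 2 * K / (l ^ 2 / 4) ≤ (2 * (δ * l) ^ 2 + 2 * H ^ 2) * K / (l ^ 2 / 4) := by
      apply div_le_div_of_nonneg_right _ (by positivity)
      apply mul_le_mul_of_nonneg_right _ hK0
      nlinarith [sq_nonneg (δ * l - H)]
    have e2 : (2 * (δ * l) ^ 2 + 2 * H ^ 2) * K / (l ^ 2 / 4) = 8 * K * (δ * δ) + 8 * K * H ^ 2 / l ^ 2 := by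
      field_simp
      ring
    have e3 : 8 * K * (δ * δ) ≤ 8 * K * δ := by
      apply mul_le_mul_of_nonneg_left _ (by positivity)
      nlinarith
    linarith
  have b5 : 2 * D * (2 * H + D) / l + 8 * K * H ^ 2 / l + 2 * K / l ≤ θ / 2 := by
    have e : 2 * D * (2 * H + D) / l + 8 * K * H ^ 2 / l + 2 * K / l =
        (2 * D * (2 * H + D) + 8 * K * H ^ 2 + 2 * K) / l := by ring
    rw [e, div_le_iff₀ hlp]
    exact h2
  have b6 : 0 ≤ 2 * K / l := by positivity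
  have b6' : 0 ≤ 2 * D * (2 * H + D) / l := by positivity
  have b6'' : 0 ≤ 8 * K * H ^ 2 / l := by positivity
  have b6''' : 0 ≤ (4 * D + 8 * K) * δ := by positivity
  have e1 : |z ^ 2 / (2 * s ^ 2) - U ^ 2 / (2 * s0 ^ 2)| ≤ θ := by
    have e : z ^ 2 / (2 * s ^ 2) - U ^ 2 / (2 * s0 ^ 2) =
        (z ^ 2 - U ^ 2) / (2 * s ^ 2) + U ^ 2 * (s0 ^ 2 - s ^ 2) / (2 * s ^ 2 * s0 ^ 2) := by
      field_simp
      ring
    rw [e]
    refine (abs_add_le _ _).trans ?_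
    linarith
  have e2 : |s0 / s - 1| ≤ θ := by
    have e : s0 / s - 1 = (s0 - s) / s := by field_simp
    rw [e, abs_div, abs_of_pos hs]
    have hw0 : 0 < Real.sqrt l := Real.sqrt_pos.mpr hlp
    have hww : Real.sqrt l * Real.sqrt l = l := Real.mul_self_sqrt hlp.le
    have e3 : |s0 - s| / s ≤ K / Real.sqrt l / (Real.sqrt l / 2) :=
      div_le_div₀ (by positivity) g3 (by positivity) g1
    have e4 : K / Real.sqrt l / (Real.sqrt l / 2) = 2 * K / (Real.sqrt l * Real.sqrt l) := by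
      field_simp
    rw [hww] at e4
    linarith
  have hθ0 : 0 ≤ θ := (abs_nonneg _).trans e2
  have e3 : p s z = s0 / s * Real.exp (-(z ^ 2 / (2 * s ^ 2) - U ^ 2 / (2 * s0 ^ 2))) * p s0 U := by
    rw [p_eq hs, p_eq hs0]
    have e : Real.exp (-(z ^ 2 / (2 * s ^ 2))) =
        Real.exp (-(z ^ 2 / (2 * s ^ 2) - U ^ 2 / (2 * s0 ^ 2))) * Real.exp (-(U ^ 2 / (2 * s0 ^ 2))) := by
      rw [← Real.exp_add]
      congr 1
      ring
    rw [e]
    have hpi : Real.sqrt (2 * Real.pi) ≠ 0 := (Real.sqrt_pos.mpr (by positivity)).ne'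
    field_simp
  obtain ⟨E, hE⟩ : ∃ E : ℝ, E = z ^ 2 / (2 * s ^ 2) - U ^ 2 / (2 * s0 ^ 2) := ⟨_, rfl⟩
  rw [← hE] at e1 e3
  obtain ⟨y, hy⟩ : ∃ y : ℝ, y = Real.exp (-E) := ⟨_, rfl⟩
  have y1 : 1 - θ ≤ y := by
    rw [hy]
    have := Real.add_one_le_exp (-E)
    have := (abs_le.mp e1).2
    linarith
  have y2 : y ≤ 1 + 2 * θ := by
    have a1 : y ≤ Real.exp θ := by
      rw [hy]
      apply Real.exp_le_exp.mpr
      have := (abs_le.mp e1).1
      linarith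
    have a2 : Real.exp θ * (1 - θ) ≤ 1 := by
      have a3 := Real.add_one_le_exp (-θ)
      have a4 : Real.exp θ * Real.exp (-θ) = 1 := by rw [← Real.exp_add]; simp
      rw [← a4]
      apply mul_le_mul_of_nonneg_left _ (Real.exp_pos _).le
      linarith
    have a5 : 0 < 1 - θ := by linarith
    have a6 : y * (1 - θ) ≤ 1 := (mul_le_mul_of_nonneg_right a1 a5.le).trans a2
    have a7 : 1 ≤ (1 + 2 * θ) * (1 - θ) := by nlinarith
    exact le_of_mul_le_mul_right (a6.trans a7) a5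
  obtain ⟨x, hx⟩ : ∃ x : ℝ, x = s0 / s := ⟨_, rfl⟩
  rw [← hx] at e2 e3
  rw [← hy] at e3
  have x1 := (abs_le.mp e2).1
  have x2 := (abs_le.mp e2).2
  have P0 := p_pos hs0 U
  have m1 : x * y ≤ 1 + 4 * θ := by
    have : x * y ≤ (1 + θ) * (1 + 2 * θ) :=
      mul_le_mul (by linarith) y2 (by linarith) (by linarith)
    nlinarith
  have m2 : 1 - 4 * θ ≤ x * y := by
    have : (1 - θ) * (1 - θ) ≤ x * y :=
      mul_le_mul (by linarith) y1 (by linarith) (by linarith)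
    nlinarith [sq_nonneg θ]
  rw [e3]
  have m3 : x * y * p s0 U - p s0 U = (x * y - 1) * p s0 U := by ring
  rw [m3, abs_mul, abs_of_pos P0]
  apply mul_le_mul_of_nonneg_right _ P0.le
  rw [abs_le]
  constructor <;> linarith

/-- intervals on which the density is almost constant -/
theorem gi_near {s a b Φ η : ℝ} (hs : 0 < s) (hab : a ≤ b)
    (h : ∀ z ∈ Ioc a b, |p s z - Φ| ≤ η * Φ) :
    |gi s a b - (b - a) * Φ| ≤ η * ((b - a) * Φ) := by
  rw [gi_eq hs]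
  have hc : ∀ c : ℝ, ∫ _ in Ioc a b, c = (b - a) * c := by
    intro c
    rw [setIntegral_const, measureReal_def, Real.volume_Ioc, ENNReal.toReal_ofReal (by linarith),
      smul_eq_mul]
  have hci : ∀ c : ℝ, IntegrableOn (fun _ : ℝ => c) (Ioc a b) := by
    intro c
    exact (continuous_const (y := c)).integrableOn_Ioc
  have h1 : ∫ z in Ioc a b, p s z ≤ (b - a) * (Φ + η * Φ) := by
    rw [← hc]
    refine setIntegral_mono_on (p_int s _) (hci _) measurableSet_Ioc fun z hz => ?_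
    linarith [(abs_le.mp (h z hz)).2]
  have h2 : (b - a) * (Φ - η * Φ) ≤ ∫ z in Ioc a b, p s z := by
    rw [← hc]
    refine setIntegral_mono_on (hci _) (p_int s _) measurableSet_Ioc fun z hz => ?_
    linarith [(abs_le.mp (h z hz)).1]
  rw [abs_le]
  constructor <;> linarith

/-! ### the sets -/

theorem sub_up {L l V h U sg : ℝ} (hL : 0 < L) (hl : l = Real.log L)
    (hU : (sg = 1 ∧ U = V) ∨ (sg = -1 ∧ U = -(V + h))) :
    {t : ℝ | L * Real.exp V < ‖ze t‖ ∧ ‖ze t‖ ≤ L * Real.exp (V + h)} ⊆ Ez sg (U + sg * l - 1) (h + 2) := by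
  intro t ht
  obtain ⟨h1, h2⟩ := ht
  have hz : 0 < ‖ze t‖ := lt_trans (by positivity) h1
  have e1 : l + V < Real.log ‖ze t‖ := by
    rw [Real.lt_log_iff_exp_lt hz, Real.exp_add, hl, Real.exp_log hL]
    exact h1
  have e2 : Real.log ‖ze t‖ ≤ l + (V + h) := by
    rw [Real.log_le_iff_le_exp hz, Real.exp_add, hl, Real.exp_log hL]
    exact h2
  refine ⟨norm_pos_iff.mp hz, ?_, ?_⟩
  · rcases hU with ⟨rfl, rfl⟩ | ⟨rfl, rfl⟩ <;> linarith
  · rcases hU with ⟨rfl, rfl⟩ | ⟨rfl, rfl⟩ <;> linarith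

theorem sub_low {L l V h U sg : ℝ} (hL : 0 < L) (hl : l = Real.log L)
    (hU : (sg = 1 ∧ U = V) ∨ (sg = -1 ∧ U = -(V + h))) :
    Ez sg (U + sg * l + 1) (h - 2) ⊆ {t : ℝ | L * Real.exp V < ‖ze t‖ ∧ ‖ze t‖ ≤ L * Real.exp (V + h)} := by
  intro t ht
  obtain ⟨h0, h1, h2⟩ := ht
  have hz : 0 < ‖ze t‖ := norm_pos_iff.mpr h0
  constructor
  · have e1 : l + V < Real.log ‖ze t‖ := by
      rcases hU with ⟨rfl, rfl⟩ | ⟨rfl, rfl⟩ <;> linarith
    rw [Real.lt_log_iff_exp_lt hz, Real.exp_add, hl, Real.exp_log hL] at e1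
    exact e1
  · have e2 : Real.log ‖ze t‖ ≤ l + (V + h) := by
      rcases hU with ⟨rfl, rfl⟩ | ⟨rfl, rfl⟩ <;> linarith
    rw [Real.log_le_iff_le_exp hz, Real.exp_add, hl, Real.exp_log hL] at e2
    exact e2

/-! ### the size of the windows -/

theorem exp_98 : Real.exp (9 / 8) ≤ 4 := by
  have h1 : Real.exp (9 / 8) = Real.exp 1 * Real.exp (1 / 8) := by
    rw [← Real.exp_add]
    norm_num
  have h2 := Real.exp_one_lt_d9
  have h3 : Real.exp (1 / 8) ≤ 1 / (1 - 1 / 8) := Real.exp_bound_div_one_sub_of_interval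
    (by norm_num) (by norm_num)
  rw [h1]
  have h4 : Real.exp 1 * Real.exp (1 / 8) ≤ 2.72 * (1 / (1 - 1 / 8)) :=
    mul_le_mul (by linarith) h3 (Real.exp_pos _).le (by norm_num)
  refine h4.trans ?_
  norm_num

theorem G_le {s be U U1 H D d : ℝ} (hs : 0 < s) (hU1 : U1 = max U 0) (hbe : be = (U1 + s) / s ^ 2)
    (hH : 0 ≤ H) (hUH : -H ≤ U) (hd : |d| ≤ D) (hD : be * (H + D) ≤ 1 / 2) :
    H5.Gf (s ^ 2) be (U + d) ≤ 12 * p s U := by
  have hD0 : 0 ≤ D := (abs_nonneg _).trans hd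
  have hU10 : 0 ≤ U1 := by rw [hU1]; exact le_max_right _ _
  have hbe0 : 0 < be := by rw [hbe]; positivity
  have hbd : -(be * d) ≤ be * D := by
    have : -d ≤ D := (neg_le_abs d).trans hd
    nlinarith
  have hbH : 0 ≤ be * H := by positivity
  have hbD : 0 ≤ be * D := by positivity
  have hsum : be * H + be * D ≤ 1 / 2 := by linarith
  have key : -(be * (U + d)) + be ^ 2 * s ^ 2 / 2 ≤ 9 / 8 + -(U ^ 2 / (2 * s ^ 2)) := by
    rcases le_total 0 U with hU | hU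
    · have e : U1 = U := by rw [hU1]; exact max_eq_left hU
      rw [e] at hbe
      have e1 : -(be * U) + be ^ 2 * s ^ 2 / 2 = 1 / 2 + -(U ^ 2 / (2 * s ^ 2)) := by
        rw [hbe]
        field_simp
        ring
      linarith
    · have e : U1 = 0 := by rw [hU1]; exact max_eq_right hU
      rw [e] at hbe
      have e1 : be ^ 2 * s ^ 2 / 2 = 1 / 2 := by
        rw [hbe]
        field_simp
        ring
      have e2 : U ^ 2 / (2 * s ^ 2) = (be * U) ^ 2 / 2 := by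
        rw [hbe]
        field_simp
        ring
      have e3 : (be * U) ^ 2 ≤ (1 / 2) ^ 2 := by
        have a1 : be * (-U) ≤ be * H := mul_le_mul_of_nonneg_left (by linarith) hbe0.le
        have a2 : 0 ≤ be * (-U) := mul_nonneg hbe0.le (by linarith)
        have a3 : (be * U) ^ 2 = (be * (-U)) ^ 2 := by ring
        rw [a3]
        exact pow_le_pow_left₀ a2 (by linarith) 2
      have e4 : -(be * U) ≤ be * H := by
        have a1 : be * (-U) ≤ be * H := mul_le_mul_of_nonneg_left (by linarith) hbe0.le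
        linarith
      rw [e1, e2]
      linarith
  unfold H5.Gf
  rw [Real.sqrt_sq hs.le]
  have h1 : Real.exp (-(be * (U + d)) + be ^ 2 * s ^ 2 / 2) ≤ 4 * Real.exp (-(U ^ 2 / (2 * s ^ 2))) := by
    refine (Real.exp_le_exp.mpr key).trans ?_
    rw [Real.exp_add]
    exact mul_le_mul_of_nonneg_right exp_98 (Real.exp_pos _).le
  have h2 : 1 / s = Real.sqrt (2 * Real.pi) * (Real.sqrt (2 * Real.pi) * s)⁻¹ := by
    have hpi : Real.sqrt (2 * Real.pi) ≠ 0 := (Real.sqrt_pos.mpr (by positivity)).ne'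
    field_simp
  rw [p_eq hs]
  have h3 : 0 < (Real.sqrt (2 * Real.pi) * s)⁻¹ := by positivity
  calc 1 / s * Real.exp (-(be * (U + d)) + be ^ 2 * s ^ 2 / 2)
      ≤ 1 / s * (4 * Real.exp (-(U ^ 2 / (2 * s ^ 2)))) := mul_le_mul_of_nonneg_left h1 (by positivity)
    _ = Real.sqrt (2 * Real.pi) * (4 * ((Real.sqrt (2 * Real.pi) * s)⁻¹ *
        Real.exp (-(U ^ 2 / (2 * s ^ 2))))) := by rw [h2]; ring
    _ ≤ 3 * (4 * ((Real.sqrt (2 * Real.pi) * s)⁻¹ * Real.exp (-(U ^ 2 / (2 * s ^ 2))))) :=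
        mul_le_mul_of_nonneg_right sqrt_two_pi_le (by positivity)
    _ = _ := by ring

/-- lower bound for the density at the limiting variance -/
theorem p_low {U l δ H : ℝ} (hl : 1 ≤ l) (hδ0 : 0 ≤ δ) (hδ : δ ≤ 1 / 8)
    (hHl : 2 * H ^ 2 ≤ l) (hU : |U| ≤ δ * l + H) :
    Real.exp (-1) / 48 / 2 * Real.exp (-(l / 16)) ≤ p (Real.sqrt (l / 2)) U := by
  have hlp : 0 < l := by linarith
  obtain ⟨s0, hs0⟩ : ∃ s0 : ℝ, s0 = Real.sqrt (l / 2) := ⟨_, rfl⟩
  have hs0p : 0 < s0 := by rw [hs0]; exact Real.sqrt_pos.mpr (by linarith)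
  have hs02 : s0 ^ 2 = l / 2 := by rw [hs0]; exact Real.sq_sqrt (by linarith)
  rw [← hs0, p_eq hs0p, hs02]
  have h1 : U ^ 2 / (2 * (l / 2)) ≤ l / 32 + 1 := by
    have e : 2 * (l / 2) = l := by ring
    rw [e, div_le_iff₀ hlp]
    have e1 : U ^ 2 ≤ (δ * l + H) ^ 2 := by
      rw [← sq_abs U]
      exact pow_le_pow_left₀ (abs_nonneg _) hU 2
    have e2 : (δ * l) ^ 2 ≤ (1 / 8 * l) ^ 2 :=
      pow_le_pow_left₀ (by positivity) (mul_le_mul_of_nonneg_right hδ hlp.le) 2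
    nlinarith [sq_nonneg (δ * l - H)]
  have h2 : s0 ≤ 32 * Real.exp (l / 32) := by
    have e1 : s0 ≤ l := by
      by_contra h
      push Not at h
      nlinarith
    have e2 := Real.add_one_le_exp (l / 32)
    linarith
  have h3 : Real.sqrt (2 * Real.pi) * s0 ≤ 96 * Real.exp (l / 32) := by
    calc Real.sqrt (2 * Real.pi) * s0 ≤ 3 * (32 * Real.exp (l / 32)) :=
          mul_le_mul sqrt_two_pi_le h2 hs0p.le (by norm_num)
      _ = _ := by ring
  have hpi : 0 < Real.sqrt (2 * Real.pi) := Real.sqrt_pos.mpr (by positivity)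
  have h4 : (96 * Real.exp (l / 32))⁻¹ ≤ (Real.sqrt (2 * Real.pi) * s0)⁻¹ :=
    inv_anti₀ (by positivity) h3
  have h5 : Real.exp (-(l / 32 + 1)) ≤ Real.exp (-(U ^ 2 / (2 * (l / 2)))) :=
    Real.exp_le_exp.mpr (by linarith)
  calc Real.exp (-1) / 48 / 2 * Real.exp (-(l / 16))
      = (96 * Real.exp (l / 32))⁻¹ * Real.exp (-(l / 32 + 1)) := by
        rw [mul_inv, ← Real.exp_neg, show -(l / 32 + 1) = -(l / 32) + -1 by ring, Real.exp_add,
          show -(l / 16) = -(l / 32) + -(l / 32) by ring, Real.exp_add]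
        ring
    _ ≤ _ := mul_le_mul h4 h5 (Real.exp_pos _).le (by positivity)

/-! ### the parameters -/

/-- what is needed from the parameters -/
structure Pr (A : Par) (v p0 : ℕ) (sg ρ K D η M e L U T Φ : ℝ) : Prop where
  ok : A.Ok
  hv : A.v = v
  hp : A.p0 = p0
  hi : A.i = 0
  hsg : A.sg = sg
  hbe : A.be ≤ ρ
  hb : A.b = 1 / 20
  hY : A.Y = L / M
  len : Len A T e
  vt : |A.vt - Real.log L| ≤ K
  ga : ∀ a b : ℝ, |a| ≤ D → |b| ≤ D → a ≤ b →
    |(gaussianReal 0 (Real.toNNReal A.s2) (Ioc (U + a) (U + b))).toReal - (b - a) * Φ|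
      ≤ η * ((b - a) * Φ)
  G : ∀ d : ℝ, |d| ≤ D → A.G (U + d) ≤ 24 * Φ

theorem prep {C6 : ℝ} (hC6 : 0 ≤ C6) (hVar : ∀ A : Par, 1000 ≤ A.p0 → 1 ≤ A.Y →
    (∀ p, p ∈ A.U ↔ p.Prime ∧ A.p0 < p ∧ (p : ℝ) ≤ Real.exp A.Y) →
    |A.vt - Real.log A.Y| ≤ C6 + Real.log A.p0) {c C η N K D H ρ δ M e T U sg : ℝ}
    {v p0 : ℕ} (hv4 : 4 ≤ v) (hp0 : 1000 ≤ p0) (hsg : sg = 1 ∨ sg = -1) (hT3 : 3 ≤ T)
    (hK : K = C6 + Real.log p0 + Real.log M) (hH : 0 ≤ H) (hHD : H ≤ D) (hM1 : 1 ≤ M)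
    (hMv : 10 ^ 10 * v / e ≤ M)
    (he0 : 0 < e) (he1 : e ≤ 1 / 100) (hη : 0 < η) (hη1 : η ≤ 1 / 2)
    (hρ0 : 0 < ρ) (hρD : 2 * D * ρ ≤ 1 / 2) (hρ8 : ρ ≤ 1 / 10 ^ 8)
    (hδ0 : 0 < δ) (hδ8 : δ ≤ 1 / 8) (hδρ : 4 * δ ≤ ρ / 2) (hδK : (4 * D + 8 * K) * δ ≤ η / 8)
    (hL : H5.Lg c C η N K D (ρ / 2) δ M e (Real.log T))
    (hQ : (2 * D * (2 * H + D) + 8 * K * H ^ 2 + 2 * K) * (8 / η) ≤ Real.log (Real.log T))
    (hHl : 16 * H / ρ ≤ Real.log (Real.log T))
    (hUH : -H ≤ U) (hU : |U| ≤ δ * Real.log (Real.log T) + H) :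
    ∃ A : Par, Pr A v p0 sg ρ K D η M e (Real.log T) U T
      (p (Real.sqrt (Real.log (Real.log T) / 2)) U) := by
  obtain ⟨L, hLdef⟩ : ∃ L : ℝ, L = Real.log T := ⟨_, rfl⟩
  obtain ⟨l, hldef⟩ : ∃ l : ℝ, l = Real.log L := ⟨_, rfl⟩
  rw [← hLdef] at hL hQ hHl hU ⊢
  obtain ⟨hLp, hl, hl4, -, hlρ, -, hML, hlen, -⟩ := hL
  rw [← hldef] at hl hl4 hlρ hQ hHl hU ⊢
  have hD : 0 ≤ D := hH.trans hHD
  have nM : 0 < M := zero_lt_one.trans_le hM1
  have hp1 : (1 : ℝ) ≤ p0 := by exact_mod_cast (by omega : 1 ≤ p0)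
  have hlp := Real.log_nonneg hp1
  have hlM := Real.log_nonneg hM1
  have hK0 : 0 ≤ K := by linarith only [hK, hlp, hlM, hC6]
  have hlpos : 0 < l := by linarith only [hl]
  obtain ⟨U1, hU1⟩ : ∃ U1 : ℝ, U1 = max U 0 := ⟨_, rfl⟩
  have hU10 : 0 ≤ U1 := by rw [hU1]; exact le_max_right _ _
  have hU1δ : U1 ≤ δ * l + H := by
    rw [hU1]
    exact max_le ((le_abs_self U).trans hU) (by positivity)
  obtain ⟨J, hJ⟩ := H5.existsJ v p0 (by omega) (by omega) (L / M)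
  have hY1 : 1 ≤ L / M := by
    rw [le_div_iff₀ nM]
    linarith only [hML]
  obtain ⟨A0, hA0⟩ : ∃ A : Par, A = ⟨v, p0, J, 0, L / M, sg, 1, 1 / 20⟩ := ⟨_, rfl⟩
  have hmem := H5.mem_U (A := A0) (by rw [hA0]; exact zero_le_one.trans hY1)
    (by rw [hA0]; exact (by norm_num : 1 ≤ 1000).trans hp0) (by rw [hA0]; exact hJ.1)
  have hvar := hVar A0 (by rw [hA0]; exact hp0) (by rw [hA0]; exact hY1) hmem
  have hA0p : A0.p0 = p0 := by rw [hA0]
  have hA0Y : A0.Y = L / M := by rw [hA0]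
  rw [hA0p, hA0Y, Real.log_div hLp.ne' nM.ne', ← hldef] at hvar
  have hvt : |A0.vt - l| ≤ K := by
    rw [abs_le] at hvar ⊢
    constructor
    · linarith only [hvar.1, hK, hlM]
    · linarith only [hvar.2, hK, hlM]
  obtain ⟨s2, hs2def⟩ : ∃ s2 : ℝ, s2 = A0.s2 := ⟨_, rfl⟩
  have hs2v : s2 = A0.vt / 2 := hs2def
  have hs2l : |s2 - l / 2| ≤ K := by
    rw [hs2v]
    rw [abs_le] at hvt ⊢
    constructor
    · linarith only [hvt.1, hK0]
    · linarith only [hvt.2, hK0]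
  have hs24 : l / 4 ≤ s2 := by
    have := (abs_le.mp hs2l).1
    linarith only [this, hl4, hK0]
  have hs21 : 1 ≤ s2 := by linarith only [hs24, hl4, hK0]
  have hs2p : 0 < s2 := zero_lt_one.trans_le hs21
  obtain ⟨s, hs⟩ : ∃ s : ℝ, s = Real.sqrt s2 := ⟨_, rfl⟩
  have hsp : 0 < s := by rw [hs]; exact Real.sqrt_pos.mpr hs2p
  have hss : s ^ 2 = s2 := by rw [hs]; exact Real.sq_sqrt hs2p.le
  have hl2p : 0 < l / 2 := by linarith only [hl]
  have hs0p : 0 < Real.sqrt (l / 2) := Real.sqrt_pos.mpr hl2p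
  have hs0s : Real.sqrt (l / 2) ^ 2 = l / 2 := Real.sq_sqrt hl2p.le
  have hs2' : l / 4 ≤ s ^ 2 := by rw [hss]; exact hs24
  have hsK : |s ^ 2 - Real.sqrt (l / 2) ^ 2| ≤ K := by rw [hss, hs0s]; exact hs2l
  obtain ⟨sc1, sc2, -⟩ := scales hl hsp hs0p hs2' hs0s hsK
  obtain ⟨be, hbe⟩ : ∃ be : ℝ, be = (U1 + s) / s2 := ⟨_, rfl⟩
  have hbe0 : 0 < be := by rw [hbe]; positivity
  have hbeρ : be ≤ ρ := by
    have e1 : be = U1 / s ^ 2 + 1 / s := by
      rw [hbe, ← hss]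
      field_simp
    have e2 : U1 / s ^ 2 ≤ 4 * δ + ρ / 4 := by
      rw [div_le_iff₀ (by positivity)]
      have a1 : (4 * δ + ρ / 4) * (l / 4) ≤ (4 * δ + ρ / 4) * s ^ 2 :=
        mul_le_mul_of_nonneg_left hs2' (by positivity)
      have a2 : H ≤ ρ / 4 * (l / 4) := by
        rw [div_le_iff₀ hρ0] at hHl
        linarith only [hHl]
      linarith only [a1, a2, hU1δ]
    have hw0 : 0 < Real.sqrt l := Real.sqrt_pos.mpr hlpos
    have e3 : 1 / s ≤ 2 / Real.sqrt l := by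
      rw [div_le_div_iff₀ hsp hw0]
      linarith only [sc1]
    rw [e1]
    linarith only [e2, e3, hδρ, hlρ]
  have dn : ∀ z : ℝ, |z - U| ≤ D → |p s z - p (Real.sqrt (l / 2)) U| ≤
      η * p (Real.sqrt (l / 2)) U := by
    intro z hz
    have h1 := dens (θ := η / 4) hl hsp hs0p hs2' hs0s hsK hD hH hδ0.le (by linarith only [hδ8]) hU hz
      (by linarith only [hη1]) (by linarith only [hδK]) (by
        rw [div_le_iff₀ hlpos]
        have a1 : (2 * D * (2 * H + D) + 8 * K * H ^ 2 + 2 * K) * (8 / η) * (η / 8) ≤ l * (η / 8) :=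
          mul_le_mul_of_nonneg_right hQ (by positivity)
        have a2 : (2 * D * (2 * H + D) + 8 * K * H ^ 2 + 2 * K) * (8 / η) * (η / 8) =
            2 * D * (2 * H + D) + 8 * K * H ^ 2 + 2 * K := by field_simp
        linarith only [a1, a2])
    linarith only [h1]
  obtain ⟨A, hA⟩ : ∃ A : Par, A = ⟨v, p0, J, 0, L / M, sg, be, 1 / 20⟩ := ⟨_, rfl⟩
  have hAv : A.v = v := by rw [hA]
  have hAp : A.p0 = p0 := by rw [hA]
  have hAi : A.i = 0 := by rw [hA]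
  have hAY : A.Y = L / M := by rw [hA]
  have hAsg : A.sg = sg := by rw [hA]
  have hAbe : A.be = be := by rw [hA]
  have hAb : A.b = 1 / 20 := by rw [hA]
  have hAs : A.s2 = s2 := by rw [hA, hs2def, hA0]; rfl
  have hAvt : A.vt = A0.vt := by rw [hA, hA0]; rfl
  have hOk : A.Ok := by
    refine ⟨?_, ?_, ?_, ?_, ?_, ?_, ?_, ?_, ?_⟩
    · rw [hAv]; exact hv4
    · rw [hAp]; exact hp0
    · rw [hAY]; exact hY1
    · rw [hA]; exact hJ
    · rw [hAsg]; exact hsg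
    · rw [hAbe]; exact hbe0
    · rw [hAbe, hAb]; linarith only [hbeρ, hρ8]
    · rw [hAb]
    · rw [hAs]; exact hs21
  refine ⟨A, hOk, hAv, hAp, hAi, hAsg, by rw [hAbe]; exact hbeρ, hAb, hAY, ?_, ?_, ?_, ?_⟩
  · refine ⟨he0, he1, hT3, ?_, ?_⟩
    · unfold Par.KY
      rw [hAv, hAi, hAY, ← hLdef]
      rw [div_le_iff₀ he0] at hMv
      push_cast
      rw [zero_add, mul_one, mul_div_assoc', mul_div_assoc', div_le_iff₀ nM]
      have := mul_le_mul_of_nonneg_right hMv hLp.le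
      linarith only [this]
    · rw [← hLdef]
      exact hlen
  · rw [hAvt, ← hldef]
    exact hvt
  · intro a b ha hb hab
    rw [hAs, ← hss]
    have h1 := gi_near (s := s) (a := U + a) (b := U + b) (Φ := p (Real.sqrt (l / 2)) U) (η := η) hsp
      (by linarith only [hab]) (fun z hz => dn z (by
        rw [abs_le] at ha hb ⊢
        constructor
        · linarith only [hz.1, ha.1]
        · linarith only [hz.2, hb.2]))
    have e : U + b - (U + a) = b - a := by ring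
    rw [e] at h1
    exact h1
  · intro d hd
    rw [H5.Gf_eq, hAs, hAbe]
    have g1 : H5.Gf s2 be (U + d) ≤ 12 * p s U := by
      rw [← hss]
      refine G_le hsp hU1 (by rw [hbe, hss]) hH hUH hd ?_
      have a1 : be * (H + D) ≤ ρ * (H + D) := mul_le_mul_of_nonneg_right hbeρ (by positivity)
      have a2 : ρ * (H + D) ≤ ρ * (2 * D) := mul_le_mul_of_nonneg_left (by linarith only [hHD]) hρ0.le
      linarith only [a1, a2, hρD]
    have g2 := (abs_le.mp (dn U (by rw [sub_self, abs_zero]; exact hD))).2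
    have g3 := p_pos hs0p U
    have g4 : η * p (Real.sqrt (l / 2)) U ≤ 1 / 2 * p (Real.sqrt (l / 2)) U :=
      mul_le_mul_of_nonneg_right hη1 g3.le
    linarith only [g1, g2, g3, g4]

/-! ### the final computation -/

/-- the error term of the law of the prime sum -/
theorem law_bd {C1 C1' p0 v ev e η len h g Φ : ℝ} (hη : 0 < η) (hC1' : 0 ≤ C1')
    (h1 : C1 * (1 / p0) ≤ η) (h2 : C1 * (1 / v) ≤ η) (h3 : C1' * ev ≤ η) (h4 : C1' * Real.sqrt e ≤ η)
    (hl0 : 0 ≤ len) (hl : len ≤ 2 * h) (hh : 0 ≤ h) (hC : 2 * C1' ^ 2 ≤ η ^ 2 * h) (hg0 : 0 ≤ g)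
    (hg : g ≤ 24 * Φ) :
    ((C1 * (1 / p0 + 1 / v) + C1' * (ev + Real.sqrt e)) * len + C1' * Real.sqrt len) * g
      ≤ 216 * η * (h * Φ) := by
  have a1 : C1 * (1 / p0 + 1 / v) + C1' * (ev + Real.sqrt e) ≤ 4 * η := by
    have e1 : C1 * (1 / p0 + 1 / v) + C1' * (ev + Real.sqrt e) =
        C1 * (1 / p0) + C1 * (1 / v) + C1' * ev + C1' * Real.sqrt e := by ring
    rw [e1]
    linarith only [h1, h2, h3, h4]
  have a2 : (C1 * (1 / p0 + 1 / v) + C1' * (ev + Real.sqrt e)) * len ≤ 8 * η * h := by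
    have b1 := mul_le_mul_of_nonneg_right a1 hl0
    have b2 := mul_le_mul_of_nonneg_left hl (by positivity : 0 ≤ 4 * η)
    linarith only [b1, b2]
  have a3 : C1' * Real.sqrt len ≤ η * h := by
    have b1 : Real.sqrt len ≤ Real.sqrt (2 * h) := Real.sqrt_le_sqrt hl
    have b2 : C1' * Real.sqrt (2 * h) ≤ η * h := by
      apply le_of_sq_le_sq _ (by positivity)
      rw [mul_pow, Real.sq_sqrt (by positivity), mul_pow]
      have b3 := mul_le_mul_of_nonneg_right hC hh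
      have e1 : C1' ^ 2 * (2 * h) = 2 * C1' ^ 2 * h := by ring
      have e2 : η ^ 2 * h ^ 2 = η ^ 2 * h * h := by ring
      rw [e1, e2]
      exact b3
    exact (mul_le_mul_of_nonneg_left b1 hC1').trans b2
  have a4 : (C1 * (1 / p0 + 1 / v) + C1' * (ev + Real.sqrt e)) * len + C1' * Real.sqrt len
      ≤ 9 * η * h := by linarith only [a2, a3]
  calc ((C1 * (1 / p0 + 1 / v) + C1' * (ev + Real.sqrt e)) * len + C1' * Real.sqrt len) * g
      ≤ 9 * η * h * g := mul_le_mul_of_nonneg_right a4 hg0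
    _ ≤ 9 * η * h * (24 * Φ) := mul_le_mul_of_nonneg_left hg (by positivity)
    _ = _ := by ring

/-- the sign and the normalised left end point -/
theorem sign {V h δ l H : ℝ} (hV : |V| ≤ δ * l) (h0 : 0 ≤ h) (hH : h ≤ H) :
    ∃ sg U : ℝ, (sg = 1 ∨ sg = -1) ∧ ((sg = 1 ∧ U = V) ∨ (sg = -1 ∧ U = -(V + h))) ∧ -H ≤ U ∧
      |U| ≤ δ * l + H := by
  rcases le_total 0 V with h1 | h1
  · refine ⟨1, V, Or.inl rfl, Or.inl ⟨rfl, rfl⟩, by linarith, by linarith⟩
  · refine ⟨-1, -(V + h), Or.inr rfl, Or.inr ⟨rfl, rfl⟩, by linarith, ?_⟩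
    rw [abs_neg]
    refine (abs_add_le _ _).trans ?_
    rw [abs_of_nonneg h0]
    linarith

end Pool.Agent.Lib.LC.K5

namespace Pool.Agent.Lib.LC

open MeasureTheory Set Filter Topology ProbabilityTheory
open Pool.Agent.Lib.G2
open Pool.Agent.Lib.GT (om un choose_p choose_M)
open Pool.Agent.Lib.LC.GI (p)

open K5 in
/-- **K5**: the law of `log |zeta|` in bounded intervals under the measure `|zeta| ^ 2 / log T` -/
theorem localTwo (hX : LawNuLoc) (hU : NuUpLoc) (hL : NuLowLoc) (hV : G2.Variance) (_hG : GaussInt) :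
    LocalTwo := by
  obtain ⟨C1, v1, hC1, hX⟩ := hX
  obtain ⟨⟨C6, hC6, hVar⟩, -⟩ := hV
  intro ε0 hε0
  obtain ⟨η, hη, hη1, hηε⟩ : ∃ η : ℝ, 0 < η ∧ η ≤ 1 / 2 ∧ 1000 * η ≤ ε0 := by
    refine ⟨min (1 / 2) (ε0 / 1000), lt_min (by norm_num) (by positivity), min_le_left _ _, ?_⟩
    have := min_le_right (1 / 2) (ε0 / 1000)
    linarith only [this]
  -- constants
  obtain ⟨p0, hp0, hp⟩ := choose_p C1 η hη 1000
  obtain ⟨C1', T1, hC1', hT1, hX⟩ := hX p0 hp0
  obtain ⟨C2, v2, hC2, hU⟩ := hU p0 hp0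
  obtain ⟨C3, T3, v3, hC3, hT3, hL⟩ := hL p0 hp0
  have n1' : 0 ≤ C1' := zero_le_one.trans hC1'
  have n2 : 0 ≤ C2 := zero_le_one.trans hC2
  have n3 : 0 ≤ C3 := zero_le_one.trans hC3
  obtain ⟨v, hv0, hv1', hv2', hv3'⟩ := H5.choose_v2 (C1' + C2) C1 η (by positivity) hη
    (max 4 (max v1 (max v2 v3)))
  simp only [max_le_iff] at hv0
  obtain ⟨hv4, hvv1, hvv2, hvv3⟩ := hv0
  obtain ⟨e, he0, he1, heC1, heC3⟩ := H5.choose_e C1' C3 η hη
  obtain ⟨M, hM1, hMm, hM⟩ := choose_M (C2 * Real.exp v) η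
    (max (10 ^ 20 * Real.exp v) (10 ^ 10 * v / e)) hη
  obtain ⟨hM20, hMv⟩ := max_le_iff.mp hMm
  obtain ⟨T2, hT2, hU⟩ := hU v hvv2 M hM20
  obtain ⟨κ, hκ1, hκ⟩ := H5.choose_k (C3 * M ^ 10) η hη
  have nM : 0 < M := zero_lt_one.trans_le hM1
  obtain ⟨lM, hlMdef⟩ : ∃ lM : ℝ, lM = Real.log M := ⟨_, rfl⟩
  have hlM : 0 ≤ lM := by rw [hlMdef]; exact Real.log_nonneg hM1
  have hp1 : (1 : ℝ) ≤ p0 := by exact_mod_cast (by omega : 1 ≤ p0)
  have hlp := Real.log_nonneg hp1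
  have s1 : C1' * Real.exp (-(v : ℝ)) ≤ η := by
    have : 0 ≤ C2 * Real.exp (-(v : ℝ)) := by positivity
    linarith only [hv2', this]
  have s2 : C2 * Real.exp (-((v : ℝ) / 2)) ≤ η := by
    have : 0 ≤ C1' * Real.exp (-((v : ℝ) / 2)) := by positivity
    linarith only [hv1', this]
  have s3 : C2 * (Real.exp v / M) ≤ η := by
    have e1 : C2 * Real.exp v * (1 / M) = C2 * (Real.exp v / M) := by ring
    rw [← e1]
    exact hM
  obtain ⟨h0, hh0⟩ : ∃ h0 : ℝ, h0 = (5 + 16 * lM + 2 * κ) / η + 2 * C1' ^ 2 / η ^ 2 := ⟨_, rfl⟩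
  have h0a : ∀ h : ℝ, h0 ≤ h → 5 + 16 * lM + 2 * κ ≤ η * h := by
    intro h hh
    have a1 : (5 + 16 * lM + 2 * κ) / η ≤ h := by
      have : 0 ≤ 2 * C1' ^ 2 / η ^ 2 := by positivity
      linarith only [hh, hh0, this]
    rw [div_le_iff₀ hη] at a1
    linarith only [a1]
  have h0b : ∀ h : ℝ, h0 ≤ h → 2 * C1' ^ 2 ≤ η ^ 2 * h := by
    intro h hh
    have a1 : 2 * C1' ^ 2 / η ^ 2 ≤ h := by
      have : 0 ≤ (5 + 16 * lM + 2 * κ) / η := by positivity
      linarith only [hh, hh0, this]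
    rw [div_le_iff₀ (by positivity)] at a1
    linarith only [a1]
  have h0c : ∀ h : ℝ, h0 ≤ h → 10 + 32 * lM + 4 * κ ≤ h := by
    intro h hh
    have a1 := h0a h hh
    have a2 : 0 ≤ h := by
      by_contra hneg
      push Not at hneg
      have : η * h < 0 := mul_neg_of_pos_of_neg hη hneg
      linarith only [this, a1, hlM, hκ1]
    have a3 : η * h ≤ 1 / 2 * h := mul_le_mul_of_nonneg_right hη1 a2
    linarith only [a1, a3]
  refine ⟨h0, by have := h0c h0 le_rfl; linarith only [this, hlM, hκ1], fun h1 => ?_⟩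
  obtain ⟨H, hHdef⟩ : ∃ H : ℝ, H = max h1 1 := ⟨_, rfl⟩
  have hH1 : h1 ≤ H := by rw [hHdef]; exact le_max_left _ _
  have hH0 : 0 ≤ H := by rw [hHdef]; exact le_trans (by norm_num) (le_max_right _ _)
  obtain ⟨K, hK⟩ : ∃ K : ℝ, K = C6 + Real.log p0 + Real.log M := ⟨_, rfl⟩
  have hK0 : 0 ≤ K := by rw [hK, ← hlMdef]; linarith only [hlp, hlM, hC6]
  obtain ⟨D, hD⟩ : ∃ D : ℝ, D = K + H + κ + 16 * lM + 3 := ⟨_, rfl⟩
  have hHD : H ≤ D := by linarith only [hD, hK0, hlM, hκ1]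
  obtain ⟨ρ, hρ0, hρ8, hρD, -⟩ := H5.choose_r (2 * D) 0 0 0 η hη
  obtain ⟨δ, hδ0, hδ8, hδρ, hδK⟩ := H5.choose_d (2 * (4 * D + 8 * K)) η ρ hη hρ0
  obtain ⟨T0, hT0⟩ := H5.ev_T (c := Real.exp (-1) / 48) (C := 0) (K := K) (D := D) (M := M)
    (by positivity) hη (le_refl (0 : ℝ)) (by positivity : 0 < ρ / 2) hδ0 he0
    (max 3 (max T1 (max T2 T3)))
  obtain ⟨X0, hX0⟩ : ∃ X0 : ℝ, X0 = max ((2 * D * (2 * H + D) + 8 * K * H ^ 2 + 2 * K) * (8 / η))
    (max (16 * H / ρ) (2 * H ^ 2)) := ⟨_, rfl⟩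
  obtain ⟨T0', hT0'⟩ := eventually_atTop.mp
    ((Real.tendsto_log_atTop.comp Real.tendsto_log_atTop).eventually_ge_atTop X0)
  refine ⟨δ, max T0 T0', hδ0, fun x T V h hT hx hh hhh hVδ => ?_⟩
  obtain ⟨b1, hLg⟩ := hT0 T ((le_max_left _ _).trans hT)
  have b2 : X0 ≤ Real.log (Real.log T) := hT0' T ((le_max_right _ _).trans hT)
  rw [hX0] at b2
  simp only [max_le_iff] at b1 b2
  obtain ⟨b3, bT1, bT2, bT3⟩ := b1
  obtain ⟨hQ, hHl, hHl2⟩ := b2
  have hLp := hLg.h0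
  have hl := hLg.hl
  have hτ := hLg.hτ
  have hh10 := h0c h hh
  have hhη := h0a h hh
  have hhC := h0b h hh
  have hhH : h ≤ H := hhh.trans hH1
  have hhp : 0 ≤ h := by linarith only [hh10, hlM, hκ1]
  obtain ⟨sg, U, hsg, hUV, hUH, hUa⟩ := K5.sign hVδ hhp hhH
  obtain ⟨A, hA⟩ := prep hC6 hVar hv4 hp0 hsg b3 hK hH0 hHD hM1 hMv he0 he1 hη hη1 hρ0 hρD hρ8 hδ0
    hδ8 hδρ (by linarith only [hδK]) hLg hQ hHl hUH hUa
  have hPlow := p_low hl hδ0.le hδ8 hHl2 hUa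
  obtain ⟨l, hldef⟩ : ∃ l : ℝ, l = Real.log (Real.log T) := ⟨_, rfl⟩
  rw [← hldef] at hl hQ hHl hHl2 hUa hA hPlow hτ ⊢
  have hs0p : 0 < Real.sqrt (l / 2) := Real.sqrt_pos.mpr (by linarith only [hl])
  have hs0s : Real.sqrt (l / 2) ^ 2 = l / 2 := Real.sq_sqrt (by linarith only [hl])
  -- the limiting Gaussian
  have hgi : |gi (Real.sqrt (l / 2)) V (V + h) - h * p (Real.sqrt (l / 2)) U| ≤
      η * (h * p (Real.sqrt (l / 2)) U) := by
    have dn : ∀ z : ℝ, |z - U| ≤ D → |p (Real.sqrt (l / 2)) z - p (Real.sqrt (l / 2)) U| ≤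
        η * p (Real.sqrt (l / 2)) U := by
      intro z hz
      have h1 := dens (θ := η / 4) (K := K) hl hs0p hs0p (by rw [hs0s]; linarith only [hl]) hs0s
        (by rw [sub_self, abs_zero]; exact hK0) (hH0.trans hHD) hH0 hδ0.le (by linarith only [hδ8]) hUa hz
        (by linarith only [hη1]) (by linarith only [hδK]) (by
          rw [div_le_iff₀ (by linarith only [hl])]
          have a1 : (2 * D * (2 * H + D) + 8 * K * H ^ 2 + 2 * K) * (8 / η) * (η / 8) ≤ l * (η / 8) :=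
            mul_le_mul_of_nonneg_right hQ (by positivity)
          have a2 : (2 * D * (2 * H + D) + 8 * K * H ^ 2 + 2 * K) * (8 / η) * (η / 8) =
              2 * D * (2 * H + D) + 8 * K * H ^ 2 + 2 * K := by field_simp
          linarith only [a1, a2])
      linarith only [h1]
    have h2 := gi_near (s := Real.sqrt (l / 2)) (a := V) (b := V + h)
      (Φ := p (Real.sqrt (l / 2)) U) (η := η) hs0p (by linarith only [hhp]) (fun z hz => by
        rcases hUV with ⟨-, hU2⟩ | ⟨-, hU2⟩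
        · apply dn
          rw [hU2, abs_of_nonneg (by linarith only [hz.1])]
          linarith only [hz.2, hhH, hHD]
        · rw [← p_neg hs0p z]
          apply dn
          rw [hU2, abs_of_nonneg (by linarith only [hz.2])]
          linarith only [hz.1, hhH, hHD])
    rw [add_sub_cancel_left] at h2
    exact h2
  obtain ⟨Φ, hΦ⟩ : ∃ Φ : ℝ, Φ = p (Real.sqrt (l / 2)) U := ⟨_, rfl⟩
  rw [← hΦ] at hgi hPlow hA
  have hΦ0 : 0 < Φ := lt_of_lt_of_le (by positivity) hPlow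
  have hτ' : Real.log T ^ (-(1 / 8) : ℝ) ≤ η * Φ := hτ.trans (mul_le_mul_of_nonneg_left hPlow hη.le)
  -- the prime sum
  have hvt := abs_le.mp hA.vt
  rw [← hldef] at hvt
  obtain ⟨q, hq⟩ : ∃ q : ℝ, q = sg * (l - A.vt) := ⟨_, rfl⟩
  have hqK : -K ≤ q ∧ q ≤ K := by
    rcases hsg with h2 | h2
    · rw [hq, h2]
      constructor <;> linarith only [hvt.1, hvt.2]
    · rw [hq, h2]
      constructor <;> linarith only [hvt.1, hvt.2]
  have gs : ∀ d W : ℝ, |d| ≤ D → W - sg * A.vt = U + d → A.Gs W ≤ 24 * Φ ∧ 0 ≤ A.Gs W := by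
    intro d W hd hW
    constructor
    · unfold Par.Gs
      rw [hA.hsg, hW]
      exact hA.G d hd
    · unfold Par.Gs
      rw [H5.Gf_eq]
      exact H5.Gf_nonneg _ _ _
  have law : ∀ a b W W' : ℝ, |a| ≤ D → |b| ≤ D → a + 1 ≤ b → b - a ≤ 2 * h → b - a ≤ 2 * D →
      W - sg * A.vt = U + a → W' - sg * A.vt = U + b →
      |(nu x T {t | A.Good ∅ (om t) ∧ W < A.X ∅ (om t) ∧ A.X ∅ (om t) ≤ W'}).toReal - (b - a) * Φ|
        ≤ 216 * η * (h * Φ) + η * ((b - a) * Φ) := by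
    intro a b W W' ha hb hab hbh hbD hW hW'
    have e1 : W' - W = b - a := by linarith only [hW, hW']
    have h2 := hX A hA.ok (by rw [hA.hv]; exact hvv1) hA.hp hA.hb T e bT1 hA.len x W W' hx
      (by linarith only [e1, hab]) (by
        rw [e1]
        have a1 : A.be * (b - a) ≤ ρ * (b - a) :=
          mul_le_mul_of_nonneg_right hA.hbe (by linarith only [hab])
        have a2 : ρ * (b - a) ≤ ρ * (2 * D) := mul_le_mul_of_nonneg_left hbD hρ0.le
        linarith only [a1, a2, hρD])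
    rw [hA.hsg, hW, hW', e1, hA.hv, hA.hp] at h2
    obtain ⟨g1, g2⟩ := gs a W ha hW
    have h3 := law_bd (C1 := C1) (p0 := p0) (v := v) (ev := Real.exp (-(v : ℝ))) (e := e)
      (len := b - a) (h := h) (g := A.Gs W) (Φ := Φ) hη n1' hp hv3' s1 heC1
      (by linarith only [hab]) hbh hhp hhC g2 g1
    have h4 := hA.ga a b ha hb (by linarith only [hab])
    have h5 := h2.trans h3
    rw [abs_le] at h4 h5 ⊢
    constructor
    · linarith only [h4.1, h5.1]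
    · linarith only [h4.2, h5.2]
  have := H5.nu_fin x (T := T) (by linarith only [b3])
  have hfin : ∀ S : Set ℝ, nu x T S ≠ ⊤ := fun S => measure_ne_top _ _
  obtain ⟨E, hE⟩ : ∃ E : Set ℝ, E = {t | Real.log T * Real.exp V < ‖ze t‖ ∧
    ‖ze t‖ ≤ Real.log T * Real.exp (V + h)} := ⟨_, rfl⟩
  rw [← hE]
  have hEu : (nu x T E).toReal ≤ (nu x T (Ez sg (U + sg * l - 1) (h + 2))).toReal := by
    apply ENNReal.toReal_mono (hfin _)
    apply measure_mono
    rw [hE]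
    exact sub_up hLp hldef hUV
  have hEl : (nu x T (Ez sg (U + sg * l + 1) (h - 2))).toReal ≤ (nu x T E).toReal := by
    apply ENNReal.toReal_mono (hfin _)
    apply measure_mono
    rw [hE]
    exact sub_low hLp hldef hUV
  have hhΦ : 0 ≤ h * Φ := by positivity
  -- upper bound
  have up : (nu x T E).toReal ≤ h * Φ + 412 * η * (h * Φ) := by
    have u1 := hU A hA.ok hA.hv hA.hp hA.hi hA.hb (hA.hbe.trans hρ8) T bT2 hA.hY x (U + sg * l - 1)
      (h + 2) hx (by linarith only [hhp])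
    rw [hA.hsg, ← hlMdef] at u1
    have l1 := law (q - 1 - 8 * lM) (q - 1 + (h + 2) + 8 * lM) (U + sg * l - 1 - 8 * lM)
      (U + sg * l - 1 + (h + 2) + 8 * lM)
      (by rw [abs_le]; constructor <;> linarith only [hqK.1, hqK.2, hD, hlM, hκ1, hH0])
      (by rw [abs_le]; constructor <;> linarith only [hqK.1, hqK.2, hD, hlM, hκ1, hH0, hhH, hhp])
      (by linarith only [hhp, hlM]) (by linarith only [hh10, hlM, hκ1])
      (by linarith only [hD, hlM, hκ1, hH0, hhH, hK0, hh10]) (by rw [hq]; ring) (by rw [hq]; ring)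
    obtain ⟨g1, g2⟩ := gs (q - 1) (U + sg * l - 1)
      (by rw [abs_le]; constructor <;> linarith only [hqK.1, hqK.2, hD, hlM, hκ1, hH0])
      (by rw [hq]; ring)
    have f1 : Real.exp (8 * (A.be * lM)) ≤ 2 := by
      have f2 : 8 * (A.be * lM) ≤ 1 / 2 := by
        have a1 := mul_le_mul_of_nonneg_right hA.hbe (by positivity : 0 ≤ 8 * lM)
        have a2 : ρ * (8 * lM) ≤ ρ * (2 * D) :=
          mul_le_mul_of_nonneg_left (by linarith only [hD, hlM, hκ1, hH0, hK0]) hρ0.le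
        linarith only [a1, a2, hρD]
      refine (Real.exp_le_exp.mpr f2).trans ?_
      have h4 : Real.exp (1 / 2) ≤ 1 / (1 - 1 / 2) := Real.exp_bound_div_one_sub_of_interval
        (by norm_num) (by norm_num)
      linarith only [h4]
    have f3 : C2 * (Real.exp (-((v : ℝ) / 2)) + Real.exp v / M) ≤ 2 * η := by
      linarith only [s2, s3]
    have f3' : 0 ≤ C2 * (Real.exp (-((v : ℝ) / 2)) + Real.exp v / M) := by positivity
    have f4 : C2 * (1 + (h + 2) + lM) * (Real.exp (-((v : ℝ) / 2)) + Real.exp v / M) *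
        Real.exp (8 * (A.be * lM)) * A.Gs (U + sg * l - 1) ≤ 192 * η * (h * Φ) := by
      have f5 : 1 + (h + 2) + lM ≤ 2 * h := by linarith only [hh10, hlM, hκ1]
      have f6 : (1 + (h + 2) + lM) * (C2 * (Real.exp (-((v : ℝ) / 2)) + Real.exp v / M)) ≤
          2 * h * (2 * η) := mul_le_mul f5 f3 f3' (by positivity)
      have f7 : (1 + (h + 2) + lM) * (C2 * (Real.exp (-((v : ℝ) / 2)) + Real.exp v / M)) *
          Real.exp (8 * (A.be * lM)) ≤ 2 * h * (2 * η) * 2 :=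
        mul_le_mul f6 f1 (Real.exp_pos _).le (by positivity)
      have f8 : (1 + (h + 2) + lM) * (C2 * (Real.exp (-((v : ℝ) / 2)) + Real.exp v / M)) *
          Real.exp (8 * (A.be * lM)) * A.Gs (U + sg * l - 1) ≤ 2 * h * (2 * η) * 2 * (24 * Φ) :=
        mul_le_mul f7 g1 g2 (by positivity)
      linarith only [f8]
    have l2 := (abs_le.mp l1).2
    have e1 : q - 1 + (h + 2) + 8 * lM - (q - 1 - 8 * lM) = h + 2 + 16 * lM := by ring
    rw [e1] at l2
    have f9 : (h + 2 + 16 * lM) * Φ ≤ (1 + η) * (h * Φ) := by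
      have : h + 2 + 16 * lM ≤ (1 + η) * h := by linarith only [hhη, hκ1]
      calc (h + 2 + 16 * lM) * Φ ≤ (1 + η) * h * Φ := mul_le_mul_of_nonneg_right this hΦ0.le
        _ = _ := by ring
    have f10 : η * ((h + 2 + 16 * lM) * Φ) ≤ η * ((1 + 1) * (h * Φ)) := by
      apply mul_le_mul_of_nonneg_left _ hη.le
      refine f9.trans ?_
      apply mul_le_mul_of_nonneg_right _ hhΦ
      linarith only [hη1]
    have f11 : η * Φ ≤ η * (h * Φ) := by
      apply mul_le_mul_of_nonneg_left _ hη.le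
      have : 1 * Φ ≤ h * Φ := mul_le_mul_of_nonneg_right (by linarith only [hh10, hlM, hκ1]) hΦ0.le
      linarith only [this]
    linarith only [hEu, u1, f4, l2, f9, f10, f11, hτ']
  -- lower bound
  have low : h * Φ - 412 * η * (h * Φ) ≤ (nu x T E).toReal := by
    have u1 := hL A hA.ok (by rw [hA.hv]; exact hvv3) hA.hp hA.hb T e bT3 hA.len x (U + sg * l + 1)
      (h - 2) κ hx hκ1 (by linarith only [hh10, hlM, hκ1]) (by linarith only [hh10, hlM, hκ1])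
    have hLM2 : Real.log T / (Real.log T / M) = M := by field_simp
    rw [hA.hsg, hA.hY, hLM2] at u1
    have l1 := law (q + 1 + κ) (q + 1 + (h - 2) - κ) (U + sg * l + 1 + κ)
      (U + sg * l + 1 + (h - 2) - κ)
      (by rw [abs_le]; constructor <;> linarith only [hqK.1, hqK.2, hD, hlM, hκ1, hH0])
      (by rw [abs_le]; constructor <;> linarith only [hqK.1, hqK.2, hD, hlM, hκ1, hH0, hhH, hh10])
      (by linarith only [hh10, hlM, hκ1]) (by linarith only [hh10, hlM, hκ1])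
      (by linarith only [hD, hlM, hκ1, hH0, hhH, hK0, hh10]) (by rw [hq]; ring) (by rw [hq]; ring)
    obtain ⟨g1, g2⟩ := gs (q + 1) (U + sg * l + 1)
      (by rw [abs_le]; constructor <;> linarith only [hqK.1, hqK.2, hD, hlM, hκ1, hH0])
      (by rw [hq]; ring)
    have f3 : C3 * (e + M ^ 10 * Real.exp (-(2 * κ))) ≤ 2 * η := by linarith only [heC3, hκ]
    have f3' : 0 ≤ C3 * (e + M ^ 10 * Real.exp (-(2 * κ))) := by positivity
    have f4 : C3 * (h - 2) * (e + M ^ 10 * Real.exp (-(2 * κ))) * A.Gs (U + sg * l + 1) ≤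
        48 * η * (h * Φ) := by
      have f6 : (h - 2) * (C3 * (e + M ^ 10 * Real.exp (-(2 * κ)))) ≤ h * (2 * η) :=
        mul_le_mul (by linarith only) f3 f3' hhp
      have f8 : (h - 2) * (C3 * (e + M ^ 10 * Real.exp (-(2 * κ)))) * A.Gs (U + sg * l + 1) ≤
          h * (2 * η) * (24 * Φ) := mul_le_mul f6 g1 g2 (by positivity)
      linarith only [f8]
    have l2 := (abs_le.mp l1).1
    have e1 : q + 1 + (h - 2) - κ - (q + 1 + κ) = h - 2 - 2 * κ := by ring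
    rw [e1] at l2
    have f9 : (1 - η) * (h * Φ) ≤ (h - 2 - 2 * κ) * Φ := by
      have : (1 - η) * h ≤ h - 2 - 2 * κ := by linarith only [hhη, hlM]
      calc (1 - η) * (h * Φ) = (1 - η) * h * Φ := by ring
        _ ≤ _ := mul_le_mul_of_nonneg_right this hΦ0.le
    have f10 : η * ((h - 2 - 2 * κ) * Φ) ≤ η * (h * Φ) := by
      apply mul_le_mul_of_nonneg_left _ hη.le
      exact mul_le_mul_of_nonneg_right (by linarith only [hκ1]) hΦ0.le
    have f11 : 0 ≤ η * (h * Φ) := by positivity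
    linarith only [hEl, u1, f4, l2, f9, f10, f11]
  have ha := abs_le.mp hgi
  have f1 : h * Φ ≤ 2 * gi (Real.sqrt (l / 2)) V (V + h) := by
    have : η * (h * Φ) ≤ 1 / 2 * (h * Φ) := mul_le_mul_of_nonneg_right hη1 hhΦ
    linarith only [ha.1, this]
  have f2 : 413 * η * (h * Φ) ≤ 826 * η * gi (Real.sqrt (l / 2)) V (V + h) := by
    have := mul_le_mul_of_nonneg_left f1 (by positivity : 0 ≤ 413 * η)
    linarith only [this]
  have f3 : 0 ≤ gi (Real.sqrt (l / 2)) V (V + h) := by linarith only [f1, hhΦ]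
  have f4 : 826 * η * gi (Real.sqrt (l / 2)) V (V + h) ≤ ε0 * gi (Real.sqrt (l / 2)) V (V + h) :=
    mul_le_mul_of_nonneg_right (by linarith only [hηε, hη]) f3
  rw [abs_le]
  constructor
  · linarith only [low, ha.1, ha.2, f2, f4]
  · linarith only [up, ha.1, ha.2, f2, f4]

end Pool.Agent.Lib.LC
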