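import Mathlib
import Pool.Agent.Lib.MP_f9aece_nt_gt.All
import Pool.Agent.Lib.MP_f9aece_nt_g2.All
import Pool.Agent.Lib.MP_f9aece_nt_loc.A1
import Pool.Agent.Lib.MP_f9aece_nt_loc.A2
import Pool.Agent.Lib.MP_f9aece_nt_loc.A3
import Pool.Agent.Lib.MP_f9aece_nt_loc.A4
import Pool.Agent.Lib.MP_f9aece_nt_loc.A5
import Pool.Agent.Lib.MP_f9aece_nt_loc.A6
import Pool.Agent.Lib.MP_f9aece_nt_loc.A7
import Pool.Agent.Lib.MP_f9aece_nt_loc.B1
import Pool.Agent.Lib.MP_f9aece_nt_loc.B2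
import Pool.Agent.Lib.MP_f9aece_nt_loc.B3
import Pool.Agent.Lib.MP_f9aece_nt_loc.C1
import Pool.Agent.Lib.MP_f9aece_nt_loc.C2
import Pool.Agent.Lib.MP_f9aece_nt_loc.C3
import Pool.Agent.Lib.MP_f9aece_nt_loc.D1
import Pool.Agent.Lib.MP_f9aece_nt_loc.D2
import Pool.Agent.Lib.MP_f9aece_nt_loc.D3
import Pool.Agent.Lib.MP_f9aece_nt_loc.E1
import Pool.Agent.Lib.MP_f9aece_nt_loc.E2
import Pool.Agent.Lib.MP_f9aece_nt_loc.E3
import Pool.Agent.Lib.MP_f9aece_nt_loc.E4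
import Pool.Agent.Lib.MP_f9aece_nt_loc.E5
import Pool.Agent.Lib.MP_f9aece_nt_loc.E6
import Pool.Agent.Lib.MP_f9aece_nt_loc.E7
import Pool.Agent.Lib.MP_f9aece_nt_loc.E8
import Pool.Agent.Lib.MP_f9aece_nt_loc.E9
import Pool.Agent.Lib.MP_f9aece_nt_loc.E10
import Pool.Agent.Lib.MP_f9aece_nt_loc.E11
import Pool.Agent.Lib.MP_f9aece_nt_loc.F1
import Pool.Agent.Lib.MP_f9aece_nt_loc.F2
import Pool.Agent.Lib.MP_f9aece_nt_loc.F3
import Pool.Agent.Lib.MP_f9aece_nt_loc.K1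
import Pool.Agent.Lib.MP_f9aece_nt_loc.K2
import Pool.Agent.Lib.MP_f9aece_nt_loc.K3
import Pool.Agent.Lib.MP_f9aece_nt_loc.K4
import Pool.Agent.Lib.MP_f9aece_nt_loc.K5

/-!
The law of `log |zeta|` at bounded scale: the assembly.
-/

set_option autoImplicit false

namespace Pool.Agent.Lib.LC

/-- the hypotheses of `localZero` (module E12) -/
theorem localZero_hyps : UpLoc ∧ SpecEx ∧ SpecNum ∧ GaussInt := by
  have hN1 := GT.groupNum
  have hN2 := GT.primeSums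
  have hV := GT.variance
  have hB2 := GT.prodPrimes GT.onePrime
  have hB4 := GT.groupMain hB2 GT.expMom
  have hB5 := GT.groupBad GT.expMom
  have hB6 := GT.allMain hB4 hN1
  have hB7 := GT.allBd hB4 hB5 hN1
  have hC1 := GT.psiBd GT.winDecay
  have hC4 := GT.wLen hN1
  have hC5 := GT.wTransfer GT.wForm hC4
  have hC6 := GT.wGauss hC1
  have hC7 := GT.wMain GT.wForm hB6 hC6 hN1
  have hC8 := GT.wBd GT.wForm hB6 hB7 hC6 hN1
  have hC9 := GT.pointwise GT.winDecay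
  have hC10 := GT.wPoint hC1 hC9
  have hD6 := GT.fNear hC7 hC6 hN2
  have hE1 := GT.wMean hC5 hC8 hN1
  have hE2 := GT.wAsym hC5 hC7 hC6 hN1
  have hE3 := GT.wShift hC5 hC8 hN1
  have hE6 := GT.wDelta hC5 hC8 hN1 hN2
  have hD3 := GT.suBound GT.kerRep
  -- the new modules
  have hA1 := fBoundX hC8 hN2
  have hA2 := lineMeanX GT.smoothAfe hD3 GT.roughS hA1 hC5 hC8 hN1
  have hA4 := suBoundX GT.kerRep ker3
  have hA5 := nearTorusX hA4 GT.roughS hA1 hD6 hN1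
  have hA6 := msmMean hC5 hC8 hN1
  have hA7 := lowPt hA5 hA2 hA6 hC5 hC8 hN1
  have hBB := supMean hA2 hC5 hC8 hN1
  have hTW := tiltW hC1 hC9
  have hLX := lawXloc hE1 hE2 hE3 hC10 hTW hC6 hN1 hC1
  have hLM := linMean hC5 hC8 hN1
  have hD1 := niceMean hA7 hBB
  have hD2 := niceShift discSup cartan hC9
  have hLT := lowTail hTW hE1 hE6 hE3 hD1 hD2 hN1
  have hSN := specNum hV
  have hSL := specLin hN1
  have hSLow := stepLow hTW hA2 hC10 hSN hN1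
  have hSB := stepBad hTW hE1 hN1
  have hSF := stepFar hTW hLM hSN hSL hN1
  have hLS := levelStep hSLow hSB hSF hLT hSN
  have hLTop := levelTop hSLow hSB hTW hE1 hSN hN1
  have hSE := specEx GT.variance'
  have hLev := levels hLS hLTop hSE hSN hSL
  exact ⟨upLoc hLev hLX hLT hTW hA2 hC10 hSN, hSE, hSN, gaussInt⟩

/-- the law under `|zeta| ^ 2` at bounded scale -/
theorem localTwo' : LocalTwo := by
  have hN1 := G2.groupNum
  have hN2 := G2.primeSums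
  have hV := G2.variance
  have hB2 := G2.prodPrimes G2.onePrime
  have hB4 := G2.groupMain hB2 G2.expMom
  have hB5 := G2.groupBad G2.expMom
  have hB6 := G2.allMain hB4 hN1
  have hB7 := G2.allBd hB4 hB5 hN1
  have hC1 := GT.psiBd GT.winDecay
  have hC3 := G2.wForm
  have hC4 := G2.wLen hN1
  have hC5 := G2.wTransfer hC3 hC4
  have hC6 := G2.wGauss hC1
  have hC7 := G2.wMain hC3 hB6 hC6 hN1
  have hC8 := G2.wBd hC3 hB6 hB7 hC6 hN1
  have hC9 := G2.pointwise GT.winDecay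
  have hC10 := G2.wPoint hC1 hC9
  have hT1 := G2.fuBd hC8 hN2
  have hT1b := G2.fuDiff hT1
  have hT2 := G2.fuFour hC8 hN2
  have hT6 := G2.fuMain hC7 hC6
  have hT7 := G2.moBd hC8
  have hT9 := G2.rouNum hN1 hN2
  have hT3 := G2.smWin G2.sForm G2.sKer G2.ker1 G2.ker2 hT1 hT9
  have hT4 := G2.smUp G2.sForm G2.sKer G2.ker1 hT1 hT9
  have hT5 := G2.smMain hN1 hV G2.sForm G2.sKer G2.ker1 hT1 hT1b hT6 hT9
  have hT8 := G2.smFour G2.sForm G2.sKer G2.ker1 hT2 hT9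
  have hM1 := G2.gaMean hC5 hN1
  have hZ6 := G2.moUp hM1 hT7 hV hN1
  have hM2 := G2.unMean hC5
  have hM3 := G2.cross hC3 hC4
  have hM4 := G2.smallT hC3 hC4 hN1
  have hZ1b := G2.afeSq G2.afeW
  have hZ4 := G2.nuUp GT.smoothAfe hM1 hT4 hM4 hV hC8 hN1
  have hZ2 := G2.nearE G2.afeW hM1 hT3 hV hC8 hN1
  have hZ3 := G2.nuMain hZ2 hM2 hM3 hM4 hT5 hC6
  have hZ5 := G2.nuUI hM1 hT8 hV hC8 hM2 hZ1b hZ2 hM4
  have hF1 := G2.tiltUp hC10
  have hH0 := G2.lastLevel hF1 hZ4 hZ5 hV hN1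
  -- the new modules
  have hTW := tiltW2 hC1 hC9
  have hK2 := lawNuLoc hZ3 hZ4 hC10 hTW hC6 hN1 hC1
  have hK3 := nuUpLoc hTW hZ4 hZ5 hZ6 hH0 hC10 hN1 hV
  have hK4 := nuLowLoc hTW hZ5 hZ6 hC10
  exact localTwo hK2 hK3 hK4 hV gaussInt

/-- the cut-off of the Gaussian law -/
theorem gaussCut' : GaussCut := gaussCut GT.tailFacts gaussInt

/-- everything, from the law of `log |zeta|` at bounded scale under Lebesgue measure -/
theorem all (hz : LocalZero) : WideZero ∧ WideTwo :=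
  ⟨wideZero hz (G2.finZero GT.gaussianTails) gaussCut',
    wideTwo localTwo' (G2.finTwo G2.mainTwo') gaussCut'⟩

end Pool.Agent.Lib.LC
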