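import Mathlib
import Pool.Agent.Lib.MP_f9aece_nt_loc.D1
import Pool.Agent.Lib.MP_f9aece_nt_gt.E4
import Pool.Agent.Lib.MP_f9aece_nt_h20.Refl2

/-!
The law of `log |zeta|` at bounded scale: B2, mean of the kernel of the discs.
-/

set_option autoImplicit false

namespace Pool.Agent.Lib.LC

open MeasureTheory Set Filter Topology Complex ProbabilityTheory
open scoped ComplexConjugate
open Pool.Agent.Lib.GT

namespace SM

lemma kd_nonneg {lam : ℝ} (hl : 0 < lam) (w : ℝ) : 0 ≤ kd lam w := by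
  unfold kd
  positivity

/-- the kernel against the growth -/
lemma kd_gr {lam L : ℝ} (hl : 0 < lam) (hL : 0 ≤ L) (w : ℝ) :
    kd lam w * gr L w ≤ (1 + lam * L) ^ 5 * (lam⁻¹ * LM.k3 (lam⁻¹ * w)) := by
  unfold kd gr LM.k3
  have h1 : |lam⁻¹ * w| = |w| / lam := by
    rw [abs_mul, abs_of_pos (inv_pos.2 hl)]
    field_simp
  rw [h1]
  set z : ℝ := 1 + |w| / lam with hz
  have hz0 : 0 ≤ |w| / lam := by positivity
  have hz1 : 1 ≤ z := by linarith
  have h2 : 1 + L * |w| ≤ (1 + lam * L) * z := by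
    have h3 : L * |w| = (lam * L) * (|w| / lam) := by
      field_simp
    rw [h3, hz]
    have : 0 ≤ lam * L := by positivity
    nlinarith
  have h4 : (1 + L * |w|) ^ (17 / 4 : ℝ) ≤ ((1 + lam * L) * z) ^ 5 := by
    have h5 : 1 ≤ 1 + L * |w| := by
      have : 0 ≤ L * |w| := by positivity
      linarith
    calc (1 + L * |w|) ^ (17 / 4 : ℝ) ≤ (1 + L * |w|) ^ (5 : ℝ) :=
          Real.rpow_le_rpow_of_exponent_le h5 (by norm_num)
      _ = (1 + L * |w|) ^ 5 := by
          rw [← Real.rpow_natCast]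
          norm_num
      _ ≤ _ := by gcongr
  calc lam⁻¹ / z ^ 8 * (1 + L * |w|) ^ (17 / 4 : ℝ)
      ≤ lam⁻¹ / z ^ 8 * ((1 + lam * L) * z) ^ 5 := by gcongr
    _ = (1 + lam * L) ^ 5 * (lam⁻¹ * (1 / z ^ 3)) := by
        have : z ≠ 0 := by linarith
        field_simp

/-- the kernel far away -/
lemma kd_far {lam T t w : ℝ} (hl : 0 < lam) (hl1 : lam ≤ 1) (hT : 3 ≤ T) (ht : |t| ≤ 2 * T)
    (hw : Real.sqrt T < |w|) :
    kd lam w * ‖riemannZeta (1 / 2 + I * (t + w : ℝ))‖ ^ 2 ≤ 19200 / T * LM.k3 w := by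
  have h1 := Pool.Agent.H20.Smooth.norm_zeta_sq_le t w
  have hw2 : T < |w| ^ 2 := by
    have := Real.lt_sq_of_sqrt_lt hw
    exact this
  have hw1 : 1 ≤ |w| := by
    by_contra h
    push Not at h
    have : |w| ^ 2 ≤ 1 := by
      have := abs_nonneg w
      nlinarith
    linarith
  have h2 : kd lam w ≤ 1 / |w| ^ 8 := by
    unfold kd
    have h3 : |w| / lam ≤ 1 + |w| / lam := by linarith
    calc lam⁻¹ / (1 + |w| / lam) ^ 8 ≤ lam⁻¹ / (|w| / lam) ^ 8 := by gcongr
      _ = lam ^ 7 / |w| ^ 8 := by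
          field_simp
      _ ≤ 1 / |w| ^ 8 := by
          gcongr
          exact pow_le_one₀ hl.le hl1
  have h4 : ‖riemannZeta (1 / 2 + I * (t + w : ℝ))‖ ^ 2 ≤ 2400 * |w| ^ 3 := by
    calc _ ≤ 400 * (1 + |t|) * (1 + |w|) := h1
      _ ≤ 400 * (3 * |w| ^ 2) * (2 * |w|) := by
          gcongr
          · linarith
          · linarith
      _ = _ := by ring
  have hk := kd_nonneg hl w
  calc kd lam w * ‖riemannZeta (1 / 2 + I * (t + w : ℝ))‖ ^ 2
      ≤ 1 / |w| ^ 8 * (2400 * |w| ^ 3) := by gcongr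
    _ = 2400 / (|w| ^ 2 * |w| ^ 3) := by
        have : |w| ≠ 0 := by linarith
        field_simp
    _ ≤ 2400 / (T * ((1 + |w|) / 2) ^ 3) := by
        have h5 : (1 + |w|) / 2 ≤ |w| := by linarith
        gcongr
    _ = 19200 / T * LM.k3 w := by
        unfold LM.k3
        have : (1 + |w|) ≠ 0 := by positivity
        field_simp
        norm_num

lemma lint_k3 {lam a : ℝ} (hl : 0 < lam) (ha : 0 ≤ a) :
    ∫⁻ w : ℝ, ENNReal.ofReal (a * (lam⁻¹ * LM.k3 (lam⁻¹ * w))) = ENNReal.ofReal (a * LM.c3) := by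
  have hi := LM.integrable_Lk3 (Λ := lam⁻¹) (inv_pos.2 hl)
  rw [← ofReal_integral_eq_lintegral_ofReal (hi.const_mul a) (Eventually.of_forall fun w => by
      have h1 := LM.k3_nonneg (lam⁻¹ * w)
      have h2 : 0 ≤ lam⁻¹ := (inv_pos.2 hl).le
      simp only [Pi.zero_apply]
      positivity),
    integral_const_mul, LM.integral_Lk3 (inv_pos.2 hl)]

lemma lint_k3' {b : ℝ} (hb : 0 ≤ b) :
    ∫⁻ w : ℝ, ENNReal.ofReal (b * LM.k3 w) = ENNReal.ofReal (b * LM.c3) := by
  have h := lint_k3 (lam := 1) one_pos hb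
  simpa using h

end SM

open SM

/-- B2 -/
theorem supMean (hL : LineMeanX) (hT : WTransfer) (hB : WBd) (hN : GroupNum) : SupMean := by
  obtain ⟨C1, T1, hC1, hT1, hL⟩ := hL
  obtain ⟨C4, hC4, hmo⟩ := LM.mo_mean hT hB hN
  have hc3 := LM.c3_nonneg
  refine ⟨C1 * LM.c3 + 19200 * C4 * LM.c3 + 1, T1, ?_, hT1, ?_⟩
  · have h1 : 0 ≤ C1 * LM.c3 := by positivity
    have h2 : 0 ≤ 19200 * C4 * LM.c3 := by positivity
    linarith
  intro A hA T hT0 hLen hlT hl x hx y
  have hT3 : 3 ≤ T := hT1.trans hT0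
  have hTp : 0 < T := by linarith
  obtain ⟨hK1, hK2⟩ := LM.log_ge hA hLen
  have hK := EE.K_ge hA
  have hY1 := hA.hY
  have hY0 : 0 < A.Y := by linarith
  have hG := hA.G_pos y
  have hlam : 0 < A.lam := by
    rcases lt_or_ge 0 A.lam with h | h
    · exact h
    · have : A.lam * Real.log T ≤ 0 := mul_nonpos_of_nonpos_of_nonneg h (by linarith)
      linarith
  have hW0 : ∀ z, 0 ≤ A.W ∅ y z := A.W_nonneg hA.b_pos.le ∅ y
  set Λ : ℝ := Real.log T with hΛ
  have hv : (4 : ℝ) ≤ A.v := by exact_mod_cast hA.hv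
  have hp0 : 1 ≤ Real.log A.p0 := by
    rw [Real.le_log_iff_exp_le (by
      have : (1000 : ℝ) ≤ A.p0 := by exact_mod_cast hA.hp
      linarith)]
    have h1 : (1000 : ℝ) ≤ A.p0 := by exact_mod_cast hA.hp
    have h2 := Real.exp_one_lt_d9
    linarith
  have hq1 : 1 ≤ Λ / A.Y := by
    rw [one_le_div hY0]
    nlinarith
  set Q : ℝ := Real.log A.p0 ^ 20 * (Λ / A.Y) * (1 + A.lam * A.Y) ^ 17 * (1 + A.lam * Λ) ^ 5 with hQ
  have hQ1 : 1 ≤ Q := by
    have e1 : 1 ≤ Real.log A.p0 ^ 20 := one_le_pow₀ hp0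
    have e2 : 1 ≤ (1 + A.lam * A.Y) ^ 17 := one_le_pow₀ (by
      have : 0 ≤ A.lam * A.Y := by positivity
      linarith)
    have e3 : 1 ≤ (1 + A.lam * Λ) ^ 5 := one_le_pow₀ (by linarith)
    exact one_le_mul_of_one_le_of_one_le (one_le_mul_of_one_le_of_one_le
      (one_le_mul_of_one_le_of_one_le e1 hq1) e2) e3
  set a : ℝ := C1 * Q * A.G y with ha
  set b : ℝ := 19200 / T * (C4 * Real.exp (4 * (A.v * A.Y)) * A.G y) with hb
  have ha0 : 0 ≤ a := by positivity
  have hb0 : 0 ≤ b := by positivity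
  set I0 : Set ℝ := Icc (T ^ (19 / 20 : ℝ)) (x + T) with hI0
  -- measurability
  have hmoc : Continuous fun t : ℝ => A.W ∅ y (om t) * ‖A.mo (-1) ∅ (om t)‖ ^ 2 :=
    ((A.continuous_W' hA ∅ y).comp continuous_om).mul
      ((((A.continuous_mo (-1) ∅).comp continuous_om).norm).pow 2)
  have hkz : Continuous fun q : ℝ × ℝ =>
      kd A.lam q.2 * ‖riemannZeta (1 / 2 + I * (q.1 + q.2 : ℝ))‖ ^ 2 := by
    have h2 : Continuous fun q : ℝ × ℝ => riemannZeta (1 / 2 + I * (q.1 + q.2 : ℝ)) :=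
      NM.continuous_zeta_line.comp (f := fun q : ℝ × ℝ => q.1 + q.2) (by fun_prop)
    have h3 : Continuous fun w : ℝ => kd A.lam w := by
      unfold kd
      refine continuous_const.div (by fun_prop) fun w => ?_
      have : 0 ≤ |w| / A.lam := by positivity
      positivity
    exact (h3.comp continuous_snd).mul (h2.norm.pow 2)
  have hmE : Measurable fun q : ℝ × ℝ =>
      ENNReal.ofReal (A.W ∅ y (om q.1) * ‖A.mo (-1) ∅ (om q.1)‖ ^ 2)
      * ENNReal.ofReal (kd A.lam q.2 * ‖riemannZeta (1 / 2 + I * (q.1 + q.2 : ℝ))‖ ^ 2) :=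
    (ENNReal.measurable_ofReal.comp (hmoc.comp continuous_fst).measurable).mul
      (ENNReal.measurable_ofReal.comp hkz.measurable)
  -- the mean for every shift
  have hw : ∀ w : ℝ, ∫⁻ t in I0, ENNReal.ofReal (A.W ∅ y (om t) * ‖A.mo (-1) ∅ (om t)‖ ^ 2)
      * ENNReal.ofReal (kd A.lam w * ‖riemannZeta (1 / 2 + I * (t + w : ℝ))‖ ^ 2) ∂(un x T)
      ≤ ENNReal.ofReal (a * (A.lam⁻¹ * LM.k3 (A.lam⁻¹ * w))) + ENNReal.ofReal (b * LM.k3 w) := by
    intro w
    have hk := kd_nonneg hlam w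
    rcases le_or_gt |w| (Real.sqrt T) with hw | hw
    · refine le_add_right ?_
      have h1 := hL A hA T hT0 hLen x hx y w hw ∅ (Finset.empty_subset _)
      rw [Finset.sum_empty, neg_zero, Real.exp_zero, mul_one] at h1
      calc ∫⁻ t in I0, ENNReal.ofReal (A.W ∅ y (om t) * ‖A.mo (-1) ∅ (om t)‖ ^ 2)
          * ENNReal.ofReal (kd A.lam w * ‖riemannZeta (1 / 2 + I * (t + w : ℝ))‖ ^ 2) ∂(un x T)
          = ∫⁻ t in I0, ENNReal.ofReal (kd A.lam w) * ENNReal.ofReal (A.W ∅ y (om t)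
            * (‖A.mo (-1) ∅ (om t)‖ ^ 2
            * ‖riemannZeta (1 / 2 + I * (t + w : ℝ))‖ ^ 2)) ∂(un x T) := by
            refine lintegral_congr fun t => ?_
            rw [← ENNReal.ofReal_mul (mul_nonneg (hW0 _) (by positivity)), ← ENNReal.ofReal_mul hk]
            congr 1
            ring
        _ = ENNReal.ofReal (kd A.lam w) * ∫⁻ t in I0, ENNReal.ofReal (A.W ∅ y (om t)
            * (‖A.mo (-1) ∅ (om t)‖ ^ 2
            * ‖riemannZeta (1 / 2 + I * (t + w : ℝ))‖ ^ 2)) ∂(un x T) :=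
            lintegral_const_mul' _ _ ENNReal.ofReal_ne_top
        _ ≤ ENNReal.ofReal (kd A.lam w) * ENNReal.ofReal (C1 * Real.log A.p0 ^ 20 * (Λ / A.Y)
            * (1 + A.lam * A.Y) ^ 17 * gr Λ w * A.G y) := mul_le_mul_right h1 _
        _ = ENNReal.ofReal (kd A.lam w * (C1 * Real.log A.p0 ^ 20 * (Λ / A.Y)
            * (1 + A.lam * A.Y) ^ 17 * gr Λ w * A.G y)) := by rw [ENNReal.ofReal_mul hk]
        _ ≤ _ := by
            refine ENNReal.ofReal_le_ofReal ?_
            have h2 := kd_gr hlam (L := Λ) (by linarith) w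
            have h3 : 0 ≤ C1 * Real.log A.p0 ^ 20 * (Λ / A.Y) * (1 + A.lam * A.Y) ^ 17 * A.G y := by
              positivity
            calc kd A.lam w * (C1 * Real.log A.p0 ^ 20 * (Λ / A.Y)
                * (1 + A.lam * A.Y) ^ 17 * gr Λ w * A.G y)
                = (C1 * Real.log A.p0 ^ 20 * (Λ / A.Y) * (1 + A.lam * A.Y) ^ 17 * A.G y)
                  * (kd A.lam w * gr Λ w) := by ring
              _ ≤ (C1 * Real.log A.p0 ^ 20 * (Λ / A.Y) * (1 + A.lam * A.Y) ^ 17 * A.G y)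
                  * ((1 + A.lam * Λ) ^ 5 * (A.lam⁻¹ * LM.k3 (A.lam⁻¹ * w))) := by gcongr
              _ = _ := by
                  rw [ha, hQ]
                  ring
    · refine le_add_left ?_
      have h1 := hmo A hA T hT3 hLen x y ∅ (Finset.empty_subset _)
      rw [Finset.sum_empty, neg_zero, Real.exp_zero, mul_one] at h1
      have hT' := abs_le.mp hx
      have hc : 0 ≤ 19200 / T * LM.k3 w := by
        have := LM.k3_nonneg w
        positivity
      calc ∫⁻ t in I0, ENNReal.ofReal (A.W ∅ y (om t) * ‖A.mo (-1) ∅ (om t)‖ ^ 2)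
          * ENNReal.ofReal (kd A.lam w * ‖riemannZeta (1 / 2 + I * (t + w : ℝ))‖ ^ 2) ∂(un x T)
          ≤ ∫⁻ t in I0, ENNReal.ofReal (19200 / T * LM.k3 w) * ENNReal.ofReal (A.W ∅ y (om t)
            * ‖A.mo (-1) ∅ (om t)‖ ^ 2) ∂(un x T) := by
            refine setLIntegral_mono' measurableSet_Icc fun t ht => ?_
            rw [mul_comm (ENNReal.ofReal (19200 / T * LM.k3 w))]
            refine mul_le_mul_right (ENNReal.ofReal_le_ofReal ?_) _
            refine kd_far hlam hA.hl1 hT3 ?_ hw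
            have h2 : 0 ≤ T ^ (19 / 20 : ℝ) := by positivity
            rw [abs_le]
            constructor
            · linarith [ht.1]
            · linarith [ht.2]
        _ ≤ ∫⁻ t, ENNReal.ofReal (19200 / T * LM.k3 w) * ENNReal.ofReal (A.W ∅ y (om t)
            * ‖A.mo (-1) ∅ (om t)‖ ^ 2) ∂(un x T) := setLIntegral_le_lintegral _ _
        _ = ENNReal.ofReal (19200 / T * LM.k3 w) * ∫⁻ t, ENNReal.ofReal (A.W ∅ y (om t)
            * ‖A.mo (-1) ∅ (om t)‖ ^ 2) ∂(un x T) :=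
            lintegral_const_mul' _ _ ENNReal.ofReal_ne_top
        _ ≤ ENNReal.ofReal (19200 / T * LM.k3 w)
            * ENNReal.ofReal (C4 * Real.exp (4 * (A.v * A.Y)) * A.G y) := mul_le_mul_right h1 _
        _ = _ := by
            rw [← ENNReal.ofReal_mul hc]
            congr 1
            rw [hb]
            ring
  have hsw : ∫⁻ t in I0, ENNReal.ofReal (A.W ∅ y (om t) * ‖A.mo (-1) ∅ (om t)‖ ^ 2)
      * (∫⁻ w : ℝ, ENNReal.ofReal (kd A.lam w * ‖riemannZeta (1 / 2 + I * (t + w : ℝ))‖ ^ 2))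
      ∂(un x T)
      = ∫⁻ w : ℝ, ∫⁻ t in I0, ENNReal.ofReal (A.W ∅ y (om t) * ‖A.mo (-1) ∅ (om t)‖ ^ 2)
      * ENNReal.ofReal (kd A.lam w * ‖riemannZeta (1 / 2 + I * (t + w : ℝ))‖ ^ 2) ∂(un x T) := by
    have hprob := prob_un x hTp
    rw [← lintegral_lintegral_swap hmE.aemeasurable]
    refine lintegral_congr fun t => ?_
    rw [lintegral_const_mul' _ _ ENNReal.ofReal_ne_top]
  rw [hsw]
  calc ∫⁻ w : ℝ, ∫⁻ t in I0, ENNReal.ofReal (A.W ∅ y (om t) * ‖A.mo (-1) ∅ (om t)‖ ^ 2)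
      * ENNReal.ofReal (kd A.lam w * ‖riemannZeta (1 / 2 + I * (t + w : ℝ))‖ ^ 2) ∂(un x T)
      ≤ ∫⁻ w : ℝ, (ENNReal.ofReal (a * (A.lam⁻¹ * LM.k3 (A.lam⁻¹ * w)))
        + ENNReal.ofReal (b * LM.k3 w)) := lintegral_mono hw
    _ = ENNReal.ofReal (a * LM.c3) + ENNReal.ofReal (b * LM.c3) := by
        rw [lintegral_add_right, lint_k3 hlam ha0, lint_k3' hb0]
        have : Measurable LM.k3 := by
          unfold LM.k3
          fun_prop
        exact ENNReal.measurable_ofReal.comp (this.const_mul b)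
    _ ≤ _ := by
        rw [← ENNReal.ofReal_add (by positivity) (by positivity)]
        refine ENNReal.ofReal_le_ofReal ?_
        have h9 : 1 / T * Real.exp (4 * (A.v * A.Y)) ≤ 1 := by
          have e1 : (1 : ℝ) / T = Real.exp (-Λ) := by
            rw [Real.exp_neg, hΛ, Real.exp_log hTp, one_div]
          rw [e1, ← Real.exp_add]
          exact Real.exp_le_one_iff.mpr (by linarith)
        have h10 : b ≤ 19200 * C4 * A.G y := by
          calc b = (19200 * C4 * A.G y) * (1 / T * Real.exp (4 * (A.v * A.Y))) := by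
                rw [hb]
                ring
            _ ≤ _ := mul_le_of_le_one_right (by positivity) h9
        have h11 : 19200 * C4 * A.G y ≤ 19200 * C4 * A.G y * Q :=
          le_mul_of_one_le_right (by positivity) hQ1
        have h12 : b * LM.c3 ≤ 19200 * C4 * A.G y * Q * LM.c3 :=
          mul_le_mul_of_nonneg_right (h10.trans h11) hc3
        have h13 : 0 ≤ Q * A.G y := by positivity
        calc a * LM.c3 + b * LM.c3 ≤ C1 * Q * A.G y * LM.c3 + 19200 * C4 * A.G y * Q * LM.c3 := by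
              rw [← ha]
              linarith
          _ = (C1 * LM.c3 + 19200 * C4 * LM.c3) * (Q * A.G y) := by ring
          _ ≤ (C1 * LM.c3 + 19200 * C4 * LM.c3 + 1) * (Q * A.G y) := by
              refine mul_le_mul_of_nonneg_right (by linarith) h13
          _ = _ := by ring

end Pool.Agent.Lib.LC
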