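import Mathlib
import Pool.Agent.Lib.MP_f9aece_nt_loc.Stmts
import Pool.Agent.Lib.MP_f9aece_nt_gt.G2

/-!
The law of `log |zeta|` at bounded scale, module E12: choice of the parameters.
-/

set_option autoImplicit false

namespace Pool.Agent.Lib.LC

open MeasureTheory Set Filter Topology Complex ProbabilityTheory
open scoped ComplexConjugate
open Pool.Agent.Lib.GT

private lemma un_out {T x : ℝ} (hT : 3 ≤ T) (hx : |x| ≤ T ^ (9 / 10 : ℝ)) :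
    un x T (Icc (T ^ (19 / 20 : ℝ)) (x + T))ᶜ ≤ ENNReal.ofReal (2 * T ^ (-(1 / 20) : ℝ)) := by
  have hT0 : 0 < T := by linarith
  unfold un
  rw [Measure.smul_apply, Measure.restrict_apply measurableSet_Icc.compl, smul_eq_mul]
  have h1 : (Icc (T ^ (19 / 20 : ℝ)) (x + T))ᶜ ∩ Icc x (x + T) ⊆ Ico x (T ^ (19 / 20 : ℝ)) := by
    rintro t ⟨ht, ht1, ht2⟩
    refine ⟨ht1, ?_⟩
    by_contra h
    exact ht ⟨not_lt.1 h, ht2⟩
  have h2 : T ^ (9 / 10 : ℝ) ≤ T ^ (19 / 20 : ℝ) :=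
    Real.rpow_le_rpow_of_exponent_le (by linarith) (by norm_num)
  have h3 : volume ((Icc (T ^ (19 / 20 : ℝ)) (x + T))ᶜ ∩ Icc x (x + T))
      ≤ ENNReal.ofReal (2 * T ^ (19 / 20 : ℝ)) := by
    refine (measure_mono h1).trans ?_
    rw [Real.volume_Ico]
    refine ENNReal.ofReal_le_ofReal ?_
    have := (abs_le.1 hx).1
    linarith
  calc (ENNReal.ofReal T)⁻¹ * volume ((Icc (T ^ (19 / 20 : ℝ)) (x + T))ᶜ ∩ Icc x (x + T))
      ≤ (ENNReal.ofReal T)⁻¹ * ENNReal.ofReal (2 * T ^ (19 / 20 : ℝ)) := by gcongr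
    _ = ENNReal.ofReal (2 * T ^ (-(1 / 20) : ℝ)) := by
        rw [← ENNReal.ofReal_inv_of_pos hT0, ← ENNReal.ofReal_mul (by positivity)]
        congr 1
        have : T ^ (-(1 / 20) : ℝ) = T ^ (19 / 20 : ℝ) * T ^ (-1 : ℝ) := by
          rw [← Real.rpow_add hT0]
          norm_num
        rw [this, Real.rpow_neg_one]
        ring

/-- the measure of the event, low heights removed -/
theorem vol_near {x T V h : ℝ} (hT : 3 ≤ T) (hx : |x| ≤ T ^ (9 / 10 : ℝ)) :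
    |(volume {u : ℝ | u ∈ Icc (0 : ℝ) 1 ∧ Real.exp V < ‖riemannZeta (1 / 2 + I * x + I * u * T)‖ ∧
      ‖riemannZeta (1 / 2 + I * x + I * u * T)‖ ≤ Real.exp (V + h)}).toReal
      - (un x T (Ev x T V h)).toReal| ≤ 2 * T ^ (-(1 / 20) : ℝ) := by
  have hT0 : 0 < T := by linarith
  have := prob_un x hT0
  have h1 := vol_eq x hT0 (fun z => Real.exp V < ‖riemannZeta z‖ ∧ ‖riemannZeta z‖ ≤ Real.exp (V + h))
  have h1' : volume {u : ℝ | u ∈ Icc (0 : ℝ) 1 ∧ Real.exp V < ‖riemannZeta (1 / 2 + I * x + I * u * T)‖ ∧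
      ‖riemannZeta (1 / 2 + I * x + I * u * T)‖ ≤ Real.exp (V + h)} =
      un x T {t : ℝ | Real.exp V < ‖riemannZeta (1 / 2 + I * t)‖ ∧
        ‖riemannZeta (1 / 2 + I * t)‖ ≤ Real.exp (V + h)} := h1
  rw [h1']
  set E : Set ℝ := {t : ℝ | Real.exp V < ‖riemannZeta (1 / 2 + I * t)‖ ∧
        ‖riemannZeta (1 / 2 + I * t)‖ ≤ Real.exp (V + h)} with hE
  have h2 : Ev x T V h ⊆ E := fun t ht => ht.2
  have h3 : E ⊆ Ev x T V h ∪ (Icc (T ^ (19 / 20 : ℝ)) (x + T))ᶜ := by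
    intro t ht
    by_cases h : t ∈ Icc (T ^ (19 / 20 : ℝ)) (x + T)
    · exact Or.inl ⟨h, ht⟩
    · exact Or.inr h
  have h4 : un x T E ≤ un x T (Ev x T V h) + ENNReal.ofReal (2 * T ^ (-(1 / 20) : ℝ)) :=
    (measure_mono h3).trans ((measure_union_le _ _).trans (add_le_add le_rfl (un_out hT hx)))
  have h5 : (un x T E).toReal ≤ (un x T (Ev x T V h)).toReal + 2 * T ^ (-(1 / 20) : ℝ) := by
    have h6 := ENNReal.toReal_mono (by finiteness) h4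
    rwa [ENNReal.toReal_add (measure_ne_top _ _) ENNReal.ofReal_ne_top,
      ENNReal.toReal_ofReal (by positivity)] at h6
  have h6 : (un x T (Ev x T V h)).toReal ≤ (un x T E).toReal :=
    ENNReal.toReal_mono (measure_ne_top _ _) (measure_mono h2)
  rw [abs_of_nonneg (by linarith)]
  linarith

/-- the square of the level against the variance -/
theorem sq_le {l V ε δ : ℝ} (hε : 0 < ε) (hl : 4 ≤ l)
    (hV1 : -(Real.sqrt l / ε) ≤ V) (hV2 : V ≤ δ * l) :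
    V ^ 2 ≤ l / ε ^ 2 + δ ^ 2 * l ^ 2 := by
  have hl0 : 0 ≤ l := by linarith
  have hs := Real.sq_sqrt hl0
  rcases le_total 0 V with h | h
  · have h1 : V ^ 2 ≤ (δ * l) ^ 2 := by gcongr
    have h2 : 0 ≤ l / ε ^ 2 := by positivity
    nlinarith
  · have h1 : (-V) ^ 2 ≤ (Real.sqrt l / ε) ^ 2 := by
      have : 0 ≤ -V := by linarith
      have : -V ≤ Real.sqrt l / ε := by linarith
      gcongr
    rw [div_pow, hs] at h1
    have h2 : 0 ≤ δ ^ 2 * l ^ 2 := by positivity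
    nlinarith

/-- size of the windows at the chosen tilt -/
theorem G_le {A : Par} {l V ε D δ : ℝ} (hε : 0 < ε) (hl : 4 ≤ l) (hD : 2 * D ≤ l) (hD0 : 0 ≤ D)
    (hs : |A.s2 - l / 2| ≤ D / 2) (hV1 : -(Real.sqrt l / ε) ≤ V) (hV2 : V ≤ δ * l)
    (hδ : 2 * δ ^ 2 * D ≤ 1) (hbe : A.be = (max V 0 + Real.sqrt A.s2) / A.s2) :
    A.G V ≤ 2 * Real.exp (2 / ε + 1 / ε ^ 2 + 2) *
      (1 / Real.sqrt (l / 2) * Real.exp (-(V ^ 2 / (2 * (Real.sqrt (l / 2)) ^ 2)))) := by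
  obtain ⟨hs1, hs3⟩ := abs_le.1 hs
  have hs2 : l / 4 ≤ A.s2 := by linarith
  have hs0 : 0 < A.s2 := by linarith
  set σ := Real.sqrt A.s2 with hσ
  have hσ0 : 0 < σ := Real.sqrt_pos.mpr hs0
  have hσs : A.s2 = σ ^ 2 := (Real.sq_sqrt hs0.le).symm
  set s := Real.sqrt (l / 2) with hsd
  have hl0 : 0 < l := by linarith
  have hs00 : 0 < s := Real.sqrt_pos.mpr (by linarith)
  have hss : s ^ 2 = l / 2 := Real.sq_sqrt (by linarith)
  have h1 : 1 / σ ≤ 2 * (1 / s) := by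
    rw [mul_one_div, div_le_div_iff₀ hσ0 hs00]
    have : s ≤ 2 * σ := by
      apply le_of_sq_le_sq _ (by positivity)
      nlinarith
    linarith
  have hG : A.G V = 1 / σ * Real.exp (-(A.be * V) + A.be ^ 2 * A.s2 / 2) := rfl
  have he : -(A.be * V) + A.be ^ 2 * A.s2 / 2 ≤
      2 / ε + 1 / ε ^ 2 + 2 + -(V ^ 2 / (2 * s ^ 2)) := by
    have hε2 : 0 < 2 / ε := by positivity
    have hε3 : 0 < 1 / ε ^ 2 := by positivity
    rcases le_total 0 V with h | h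
    · rw [max_eq_left h] at hbe
      have e1 : -(A.be * V) + A.be ^ 2 * A.s2 / 2 = 1 / 2 - V ^ 2 / (2 * σ ^ 2) := by
        rw [hbe, hσs]
        field_simp
        ring
      rw [e1]
      have h2 : V ^ 2 / (2 * s ^ 2) - V ^ 2 / (2 * σ ^ 2) ≤ 1 := by
        rw [div_sub_div _ _ (by positivity) (by positivity), div_le_one (by positivity)]
        have h3 : V ^ 2 * (2 * σ ^ 2) - 2 * s ^ 2 * V ^ 2 = 2 * V ^ 2 * (A.s2 - l / 2) := by
          rw [hss, ← hσs]; ring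
        rw [h3, hss, ← hσs]
        have h4 : V ^ 2 ≤ (δ * l) ^ 2 := by gcongr
        have h5 : 2 * V ^ 2 * (A.s2 - l / 2) ≤ 2 * (δ * l) ^ 2 * (D / 2) := by
          calc 2 * V ^ 2 * (A.s2 - l / 2) ≤ 2 * V ^ 2 * (D / 2) := by
                apply mul_le_mul_of_nonneg_left hs3 (by positivity)
            _ ≤ 2 * (δ * l) ^ 2 * (D / 2) := by gcongr
        have h6 : 2 * (δ * l) ^ 2 * (D / 2) ≤ l ^ 2 / 2 := by
          have : 2 * (δ * l) ^ 2 * (D / 2) = (2 * δ ^ 2 * D) * (l ^ 2 / 2) := by ring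
          rw [this]
          have h7 : 0 ≤ l ^ 2 / 2 := by positivity
          nlinarith
        nlinarith
      linarith
    · rw [max_eq_right h] at hbe
      have e1 : -(A.be * V) + A.be ^ 2 * A.s2 / 2 = 1 / 2 + (-V) / σ := by
        rw [hbe, hσs]
        field_simp
        ring
      rw [e1]
      have h2 : (-V) / σ ≤ 2 / ε := by
        have h3 : Real.sqrt l ≤ 2 * σ := by
          apply le_of_sq_le_sq _ (by positivity)
          rw [Real.sq_sqrt hl0.le]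
          nlinarith
        rw [div_le_div_iff₀ hσ0 hε]
        have h4 : -V ≤ Real.sqrt l / ε := by linarith
        calc -V * ε ≤ Real.sqrt l / ε * ε := by gcongr
          _ = Real.sqrt l := by field_simp
          _ ≤ 2 * σ := h3
      have h3 : V ^ 2 / (2 * s ^ 2) ≤ 1 / ε ^ 2 := by
        have h4 : 2 * s ^ 2 = l := by rw [hss]; ring
        rw [h4, div_le_div_iff₀ hl0 (by positivity)]
        have h5 : (-V) ^ 2 ≤ (Real.sqrt l / ε) ^ 2 := by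
          have : 0 ≤ -V := by linarith
          have : -V ≤ Real.sqrt l / ε := by linarith
          gcongr
        rw [div_pow, Real.sq_sqrt hl0.le] at h5
        calc V ^ 2 * ε ^ 2 = (-V) ^ 2 * ε ^ 2 := by ring
          _ ≤ l / ε ^ 2 * ε ^ 2 := by gcongr
          _ = 1 * l := by field_simp
      linarith
  rw [hG]
  calc 1 / σ * Real.exp (-(A.be * V) + A.be ^ 2 * A.s2 / 2)
      ≤ (2 * (1 / s)) * Real.exp (2 / ε + 1 / ε ^ 2 + 2 + -(V ^ 2 / (2 * s ^ 2))) := by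
        gcongr
    _ = 2 * Real.exp (2 / ε + 1 / ε ^ 2 + 2) * (1 / s * Real.exp (-(V ^ 2 / (2 * s ^ 2)))) := by
        rw [Real.exp_add]
        ring

/-- a lower bound of the probability of the interval -/
theorem gi_low {C4 l L V h ε δ s : ℝ} (hC4 : 1 ≤ C4) (hl : 4 ≤ l) (hlL : l ≤ L) (hL : l = Real.log L)
    (hL0 : 0 < L) (hδ1 : δ ≤ 1) (hδ0 : 0 ≤ δ)
    (hV : V ^ 2 ≤ l / ε ^ 2 + δ ^ 2 * l ^ 2) (hs : s = Real.sqrt (l / 2)) (hh : 1 ≤ h)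
    (hg : h / s * Real.exp (-(V ^ 2 / (2 * s ^ 2))) ≤ C4 * gi s V (V + h)) :
    Real.exp (-(1 / ε ^ 2)) / (C4 * L ^ 2) ≤ gi s V (V + h) := by
  have hl0 : 0 < l := by linarith
  have hs0 : 0 < s := by rw [hs]; exact Real.sqrt_pos.mpr (by linarith)
  have hss : s ^ 2 = l / 2 := by rw [hs]; exact Real.sq_sqrt (by linarith)
  have h1 : V ^ 2 / (2 * s ^ 2) ≤ 1 / ε ^ 2 + l := by
    rw [hss, div_le_iff₀ (by linarith)]
    have h2 : δ ^ 2 * l ^ 2 ≤ l ^ 2 := by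
      have : δ ^ 2 ≤ 1 := by nlinarith
      have : 0 ≤ l ^ 2 := by positivity
      nlinarith
    have h3 : l / ε ^ 2 = 1 / ε ^ 2 * l := by ring
    nlinarith
  have h2 : Real.exp (-(1 / ε ^ 2)) / L ≤ Real.exp (-(V ^ 2 / (2 * s ^ 2))) := by
    have h3 : Real.exp (-(1 / ε ^ 2)) / L = Real.exp (-(1 / ε ^ 2 + l)) := by
      rw [neg_add, Real.exp_add, hL, Real.exp_neg (Real.log L), Real.exp_log hL0]
      rfl
    rw [h3]
    gcongr
  have h3 : 1 / L ≤ h / s := by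
    rw [div_le_div_iff₀ hL0 hs0]
    have : s ≤ l := by
      apply le_of_sq_le_sq _ hl0.le
      nlinarith
    nlinarith
  have h4 : Real.exp (-(1 / ε ^ 2)) / L * (1 / L) ≤ C4 * gi s V (V + h) := by
    refine le_trans ?_ hg
    rw [mul_comm (h / s)]
    gcongr
  have h5 : Real.exp (-(1 / ε ^ 2)) / (C4 * L ^ 2) = Real.exp (-(1 / ε ^ 2)) / L * (1 / L) / C4 := by
    field_simp
  rw [h5, div_le_iff₀ (by linarith)]
  linarith

/-- the additive errors -/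
theorem ev_add (c : ℝ) (hc : 0 < c) : ∀ᶠ T : ℝ in atTop,
    T ^ (-(1 / 30) : ℝ) + 2 * T ^ (-(1 / 20) : ℝ) ≤ c / Real.log T ^ 2 := by
  have h1 : ∀ᶠ T : ℝ in atTop, Real.log T ^ (2 : ℝ) ≤ c / 3 * T ^ (1 / 30 : ℝ) := by
    have h4 := (isLittleO_log_rpow_rpow_atTop (2 : ℝ) (show (0 : ℝ) < 1 / 30 by norm_num)).bound
      (c := c / 3) (by positivity)
    filter_upwards [h4, eventually_ge_atTop 1] with T h5 h6
    have h7 : 0 ≤ Real.log T := Real.log_nonneg h6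
    rwa [Real.norm_of_nonneg (by positivity), Real.norm_of_nonneg (by positivity)] at h5
  filter_upwards [h1, eventually_ge_atTop 3] with T h2 h3
  have h4 : 1 < Real.log T := by
    rw [Real.lt_log_iff_exp_lt (by linarith)]
    exact lt_of_lt_of_le Real.exp_one_lt_d9 (by linarith)
  have h5 : T ^ (-(1 / 20) : ℝ) ≤ T ^ (-(1 / 30) : ℝ) :=
    Real.rpow_le_rpow_of_exponent_le (by linarith) (by norm_num)
  have h6 : T ^ (-(1 / 30) : ℝ) = (T ^ (1 / 30 : ℝ))⁻¹ := Real.rpow_neg (by linarith) _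
  have h7 : (0 : ℝ) < T ^ (1 / 30 : ℝ) := by positivity
  rw [Real.rpow_two] at h2
  calc T ^ (-(1 / 30) : ℝ) + 2 * T ^ (-(1 / 20) : ℝ) ≤ 3 * T ^ (-(1 / 30) : ℝ) := by linarith
    _ ≤ c / Real.log T ^ 2 := by
      rw [h6, le_div_iff₀ (by positivity)]
      have : 3 * (T ^ (1 / 30 : ℝ))⁻¹ * Real.log T ^ 2 ≤ 3 * (T ^ (1 / 30 : ℝ))⁻¹ * (c / 3 * T ^ (1 / 30 : ℝ)) := by
        gcongr
      refine this.trans (le_of_eq ?_)
      field_simp

theorem ev_big (T1 l0 L0 c : ℝ) (hc : 0 < c) : ∀ᶠ T : ℝ in atTop,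
    T1 ≤ T ∧ l0 ≤ Real.log (Real.log T) ∧ L0 ≤ Real.log T ∧
    Real.log (Real.log T) ≤ Real.log T ∧
    T ^ (-(1 / 30) : ℝ) + 2 * T ^ (-(1 / 20) : ℝ) ≤ c / Real.log T ^ 2 := by
  filter_upwards [eventually_ge_atTop T1, tendsto_loglog.eventually_ge_atTop l0,
    Real.tendsto_log_atTop.eventually_ge_atTop L0, Real.tendsto_log_atTop.eventually_ge_atTop 1,
    ev_add c hc] with T a1 a2 a3 a4 a5
  exact ⟨a1, a2, a3, (Real.log_le_sub_one_of_pos (by linarith)).trans (by linarith), a5⟩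

theorem choose_N {K N1 N2 N3 : ℝ} (hK0 : 0 < K) : ∃ N : ℝ, N1 ≤ N ∧ N2 ≤ N ∧ N3 ≤ N ∧
    K ≤ |N| ^ (1 / 4 : ℝ) := by
  refine ⟨max (max N1 N2) (max N3 (K ^ 4)), le_trans (le_max_left _ _) (le_max_left _ _),
      le_trans (le_max_right _ _) (le_max_left _ _), le_trans (le_max_left _ _) (le_max_right _ _), ?_⟩
  have h0 : K ^ 4 ≤ |max (max N1 N2) (max N3 (K ^ 4))| :=
    (le_trans (le_max_right _ _) (le_max_right _ _)).trans (le_abs_self _)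
  have h1 : (K ^ 4) ^ (1 / 4 : ℝ) ≤ |max (max N1 N2) (max N3 (K ^ 4))| ^ (1 / 4 : ℝ) := by gcongr
  have h2 : (K ^ 4) ^ (1 / 4 : ℝ) = K := by
    rw [← Real.rpow_natCast, ← Real.rpow_mul hK0.le]
    norm_num
  rwa [h2] at h1

theorem choose_d {H N D C4 ε : ℝ} (hH : 0 < H) (hN : 0 < N) (hD : 0 < D) (hC : 0 < C4) (hε : 0 < ε) :
    ∃ δ : ℝ, 0 < δ ∧ δ ≤ 1 ∧ 4 * δ ≤ 1 / (2 * 10 ^ 4) ∧
      4 * δ * (H + 2 * N) ≤ 1 / 2 ∧ 2 * δ ^ 2 * D ≤ 1 ∧ 2 * δ * H ≤ 1 ∧ 16 * C4 * D * δ ^ 2 ≤ ε := by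
  have hR0 : 0 < 10 ^ 5 * (1 + H + N + D + C4 * D / ε) := by positivity
  refine ⟨1 / (10 ^ 5 * (1 + H + N + D + C4 * D / ε)), by positivity, ?_⟩
  set δ := 1 / (10 ^ 5 * (1 + H + N + D + C4 * D / ε)) with hδ
  have hδ0 : 0 < δ := by positivity
  have hR : δ * (10 ^ 5 * (1 + H + N + D + C4 * D / ε)) = 1 := by
    rw [hδ]
    exact one_div_mul_cancel hR0.ne'
  have a1 : 0 ≤ δ * H := by positivity
  have a2 : 0 ≤ δ * N := by positivity
  have a3 : 0 ≤ δ * D := by positivity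
  have a4 : 0 ≤ δ * (C4 * D / ε) := by positivity
  have hR' : 10 ^ 5 * (δ + δ * H + δ * N + δ * D + δ * (C4 * D / ε)) = 1 := by
    rw [← hR]; ring
  have hδ1 : δ ≤ 1 := by linarith
  refine ⟨hδ1, by linarith, by linarith, ?_, by linarith, ?_⟩
  · have e1 : 2 * δ ^ 2 * D = 2 * (δ * (δ * D)) := by ring
    have e2 : δ * (δ * D) ≤ 1 * (δ * D) := by gcongr
    rw [e1]
    linarith
  · have e1 : 16 * C4 * D * δ ^ 2 = 16 * ((δ * (δ * (C4 * D / ε))) * ε) := by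
      field_simp
    have e2 : δ * (δ * (C4 * D / ε)) ≤ 1 * (δ * (C4 * D / ε)) := by gcongr
    have e3 : δ * (δ * (C4 * D / ε)) ≤ 1 / 16 := by linarith
    have e4 : δ * (δ * (C4 * D / ε)) * ε ≤ 1 / 16 * ε := by gcongr
    rw [e1]
    linarith

/-- the tilt -/
theorem tilt {l δ H N σ m s2 : ℝ} (hl : 0 < l) (hs2 : l / 4 ≤ s2) (hs2' : s2 ≤ l) (hσ : σ = Real.sqrt s2)
    (hm0 : 0 ≤ m) (hmV : m ≤ δ * l) (hδa : 4 * δ ≤ 1 / (2 * 10 ^ 4))
    (hδb : 4 * δ * (H + 2 * N) ≤ 1 / 2) (q2 : 4 * (H + 2 * N) ≤ Real.sqrt l)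
    (q3 : (4 * 10 ^ 4 : ℝ) ≤ Real.sqrt l) {h : ℝ} (hh : h ≤ H) (hh0 : 0 ≤ h) (hN : 0 ≤ N) :
    0 < (m + σ) / s2 ∧ (m + σ) / s2 ≤ 1 / 10 ^ 4 ∧ (m + σ) / s2 * (h + 2 * N) ≤ 1 ∧
      1 / Real.sqrt l ≤ (m + σ) / s2 := by
  have hs20 : 0 < s2 := by linarith
  have hσ0 : 0 < σ := by rw [hσ]; exact Real.sqrt_pos.mpr hs20
  have hσs : s2 = σ ^ 2 := by rw [hσ]; exact (Real.sq_sqrt hs20.le).symm
  have hsl0 : 0 < Real.sqrt l := Real.sqrt_pos.mpr hl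
  have hsl : Real.sqrt l ^ 2 = l := Real.sq_sqrt hl.le
  have hσl : σ ≤ Real.sqrt l := by rw [hσ]; exact Real.sqrt_le_sqrt hs2'
  have hσl2 : Real.sqrt l ≤ 2 * σ := by
    apply le_of_sq_le_sq _ (by positivity)
    rw [hsl]
    linarith [mul_pow 2 σ 2]
  have hbs : (m + σ) / s2 = m / s2 + 1 / σ := by
    rw [hσs]
    field_simp
  have hbe1 : (m + σ) / s2 ≤ 4 * δ + 2 / Real.sqrt l := by
    rw [hbs]
    have e1 : m / s2 ≤ 4 * δ := by
      rw [div_le_iff₀ hs20]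
      have hδ0 : 0 ≤ δ := by
        by_contra h'
        push Not at h'
        have : δ * l < 0 := mul_neg_of_neg_of_pos h' hl
        linarith
      calc m ≤ δ * l := hmV
        _ = 4 * δ * (l / 4) := by ring
        _ ≤ 4 * δ * s2 := by gcongr
    have e2 : 1 / σ ≤ 2 / Real.sqrt l := by
      rw [div_le_div_iff₀ hσ0 hsl0]
      linarith
    linarith
  refine ⟨by positivity, ?_, ?_, ?_⟩
  · have e1 : 2 / Real.sqrt l ≤ 1 / (2 * 10 ^ 4) := by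
      rw [div_le_div_iff₀ hsl0 (by norm_num)]
      linarith
    refine hbe1.trans ?_
    have : (1 : ℝ) / 10 ^ 4 = 1 / (2 * 10 ^ 4) + 1 / (2 * 10 ^ 4) := by norm_num
    rw [this]
    linarith
  · have e1 : 2 / Real.sqrt l * (H + 2 * N) ≤ 1 / 2 := by
      rw [div_mul_eq_mul_div, div_le_iff₀ hsl0]
      linarith
    have e0 : 0 ≤ (m + σ) / s2 := by positivity
    have e2 : h + 2 * N ≤ H + 2 * N := by linarith
    have e3 : 0 ≤ H + 2 * N := by linarith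
    calc (m + σ) / s2 * (h + 2 * N) ≤ (m + σ) / s2 * (H + 2 * N) := by gcongr
      _ ≤ (4 * δ + 2 / Real.sqrt l) * (H + 2 * N) := by gcongr
      _ = 4 * δ * (H + 2 * N) + 2 / Real.sqrt l * (H + 2 * N) := by ring
      _ ≤ 1 := by linarith
  · rw [hbs]
    have e1 : 1 / Real.sqrt l ≤ 1 / σ := one_div_le_one_div_of_le hσ0 hσl
    have e2 : 0 ≤ m / s2 := by positivity
    linarith

theorem cond1 {l V ε δ h H : ℝ} (hl : 0 < l) (hδd : 2 * δ * H ≤ 1) (hh : h ≤ H) (hh0 : 0 ≤ h)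
    (hV1 : -(Real.sqrt l / ε) ≤ V) (hV2 : V ≤ δ * l) (q1 : 2 * H / ε ≤ Real.sqrt l) :
    h * |V| ≤ l / 2 := by
  have hsl : Real.sqrt l * Real.sqrt l = l := Real.mul_self_sqrt hl.le
  have hH : 0 ≤ H := hh0.trans hh
  have e1 : |V| ≤ max (δ * l) (Real.sqrt l / ε) := by
    rw [abs_le]
    exact ⟨by have := le_max_right (δ * l) (Real.sqrt l / ε); linarith,
      hV2.trans (le_max_left _ _)⟩
  calc h * |V| ≤ H * max (δ * l) (Real.sqrt l / ε) := by gcongr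
    _ ≤ l / 2 := by
      rcases max_cases (δ * l) (Real.sqrt l / ε) with ⟨e2, -⟩ | ⟨e2, -⟩
      · rw [e2]
        have e3 : H * (δ * l) = (2 * δ * H) * (l / 2) := by ring
        have e4 : (2 * δ * H) * (l / 2) ≤ 1 * (l / 2) := by gcongr
        linarith
      · rw [e2]
        have e3 : H * (Real.sqrt l / ε) = (2 * H / ε) * Real.sqrt l / 2 := by ring
        have e4 : (2 * H / ε) * Real.sqrt l ≤ Real.sqrt l * Real.sqrt l := by gcongr
        linarith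

theorem cond2 {l V ε δ D d : ℝ} (hl : 0 < l) (hD0 : 0 ≤ D)
    (hV1 : -(Real.sqrt l / ε) ≤ V) (hV2 : V ≤ δ * l) (hδc : 2 * δ ^ 2 * D ≤ 1) (hd : d ≤ D / 2)
    (hDε : 2 * D / ε ^ 2 ≤ l) : d * V ^ 2 ≤ l ^ 2 / 4 := by
  have hsl : Real.sqrt l ^ 2 = l := Real.sq_sqrt hl.le
  have e2 : V ^ 2 ≤ max ((δ * l) ^ 2) (l / ε ^ 2) := by
    rcases le_total 0 V with h' | h'
    · exact le_trans (by gcongr) (le_max_left _ _)
    · have e3 : (-V) ^ 2 ≤ (Real.sqrt l / ε) ^ 2 := by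
        have : 0 ≤ -V := by linarith
        have : -V ≤ Real.sqrt l / ε := by linarith
        gcongr
      rw [div_pow, hsl] at e3
      exact le_trans (by linarith [neg_sq V]) (le_max_right _ _)
  calc d * V ^ 2 ≤ D / 2 * V ^ 2 := by gcongr
    _ ≤ D / 2 * max ((δ * l) ^ 2) (l / ε ^ 2) := by gcongr
    _ ≤ l ^ 2 / 4 := by
      rcases max_cases ((δ * l) ^ 2) (l / ε ^ 2) with ⟨e3, -⟩ | ⟨e3, -⟩
      · rw [e3]
        have e4 : D / 2 * (δ * l) ^ 2 = (2 * δ ^ 2 * D) * (l ^ 2 / 4) := by ring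
        have e5 : (2 * δ ^ 2 * D) * (l ^ 2 / 4) ≤ 1 * (l ^ 2 / 4) := by gcongr
        linarith
      · rw [e3]
        have e4 : D / 2 * (l / ε ^ 2) = (2 * D / ε ^ 2) * (l / 4) := by ring
        have e5 : (2 * D / ε ^ 2) * (l / 4) ≤ l * (l / 4) := by gcongr
        have e6 : l * (l / 4) = l ^ 2 / 4 := by ring
        linarith

theorem cond3 {l V ε δ D d C4 : ℝ} (hl : 0 < l) (hC4 : 0 < C4) (hε : 0 < ε)
    (hd : d ≤ D / 2) (hd0 : 0 ≤ d) (hV : V ^ 2 ≤ l / ε ^ 2 + δ ^ 2 * l ^ 2)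
    (hδe : 16 * C4 * D * δ ^ 2 ≤ ε) (hl3 : 8 * C4 * (D + 2 * D / ε ^ 2) / ε ≤ l) :
    C4 * (d * (1 + V ^ 2 / (l / 2)) / (l / 2)) ≤ ε / 4 := by
  have hD0 : 0 ≤ D := by linarith
  have e1 : d * (1 + V ^ 2 / (l / 2)) / (l / 2) ≤
      D / l * (1 + 2 / l * (l / ε ^ 2 + δ ^ 2 * l ^ 2)) := by
    calc d * (1 + V ^ 2 / (l / 2)) / (l / 2)
        ≤ D / 2 * (1 + (l / ε ^ 2 + δ ^ 2 * l ^ 2) / (l / 2)) / (l / 2) := by gcongr
      _ = D / l * (1 + 2 / l * (l / ε ^ 2 + δ ^ 2 * l ^ 2)) := by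
        field_simp
  have e2 : D / l * (1 + 2 / l * (l / ε ^ 2 + δ ^ 2 * l ^ 2)) =
      (D + 2 * D / ε ^ 2) / l + 2 * D * δ ^ 2 := by
    field_simp
    ring
  rw [e2] at e1
  have e3 : C4 * ((D + 2 * D / ε ^ 2) / l) ≤ ε / 8 := by
    rw [← mul_div_assoc, div_le_iff₀ hl]
    rw [div_le_iff₀ hε] at hl3
    linarith
  calc C4 * (d * (1 + V ^ 2 / (l / 2)) / (l / 2))
      ≤ C4 * ((D + 2 * D / ε ^ 2) / l + 2 * D * δ ^ 2) := by gcongr
    _ = C4 * ((D + 2 * D / ε ^ 2) / l) + 2 * C4 * D * δ ^ 2 := by ring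
    _ ≤ ε / 4 := by linarith

/-- E12 -/
theorem localZero (hU : UpLoc) (hE : SpecEx) (hN : SpecNum) (hG : GaussInt) : LocalZero := by
  obtain ⟨C1, N1, hC1, hN1, HU⟩ := hU
  obtain ⟨N2, hN2, HE⟩ := hE
  obtain ⟨C3, N3, hC3, hN3, HN⟩ := hN
  obtain ⟨C4, hC4, HG1, HG2⟩ := hG
  intro ε hε
  set Cε := 2 * Real.exp (2 / ε + 1 / ε ^ 2 + 2) with hCε
  have hCε0 : 0 < Cε := by positivity
  set K := 4 * C1 * Cε * C4 / ε with hK
  have hC10 : 0 < C1 := by linarith only [hC1]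
  have hC30 : 0 < C3 := by linarith only [hC3]
  have hC40 : 0 < C4 := by linarith only [hC4]
  have hK0 : 0 < K := by positivity
  obtain ⟨N, hN1', hN2', hN3', hKN⟩ := choose_N (N1 := N1) (N2 := N2) (N3 := N3) hK0
  have hN : 1 ≤ N := hN1.trans hN1'
  have hN0 : 0 < N := by linarith only [hN]
  rw [abs_of_pos hN0] at hKN
  have hNq : 0 < N ^ (1 / 4 : ℝ) := by positivity
  have hNe : C1 / N ^ (1 / 4 : ℝ) * (Cε * C4) ≤ ε / 4 := by
    rw [div_mul_eq_mul_div, div_le_iff₀ hNq]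
    have h1 : ε / 4 * K = C1 * (Cε * C4) := by
      rw [hK]
      field_simp
    rw [← h1]
    gcongr
  obtain ⟨T1, hT1, HU⟩ := HU N hN1'
  have hNsq : 1 ≤ N ^ 2 := by nlinarith only [hN]
  refine ⟨N ^ 2, hNsq, fun h1 => ?_⟩
  obtain ⟨H, hH1, hhH⟩ : ∃ H : ℝ, 1 ≤ H ∧ h1 ≤ H := ⟨max h1 1, le_max_right _ _, le_max_left _ _⟩
  set D := C3 * N ^ (1 / 2 : ℝ) with hD
  have hD0 : 0 < D := by positivity
  obtain ⟨δ, hδ0, hδ1, hδa, hδb, hδc, hδd, hδe⟩ := choose_d (H := H) (by linarith only [hH1]) hN0 hD0 hC40 hε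
  set c := ε / 4 * (Real.exp (-(1 / ε ^ 2)) / C4) with hc
  have hc0 : 0 < c := by positivity
  have hH0 : 0 < H := by linarith only [hH1]
  have p1 : 0 ≤ (2 * H / ε) ^ 2 := by positivity
  have p2 : 0 ≤ 2 * H ^ 2 := by positivity
  have p3 : 0 ≤ (4 * (H + 2 * N)) ^ 2 := by positivity
  have p4 : (0 : ℝ) ≤ (4 * 10 ^ 4) ^ 2 := by positivity
  have p5 : 0 ≤ 2 * D / ε ^ 2 := by positivity
  have p6 : 0 ≤ 8 * C4 * (D + 2 * D / ε ^ 2) / ε := by positivity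
  obtain ⟨T0, hT0⟩ := eventually_atTop.mp (ev_big (max T1 3)
    (4 + N + 2 * D + (2 * H / ε) ^ 2 + 2 * H ^ 2 + (4 * (H + 2 * N)) ^ 2 + (4 * 10 ^ 4) ^ 2 + 2 * D / ε ^ 2
      + 8 * C4 * (D + 2 * D / ε ^ 2) / ε) (N ^ 12) c hc0)
  refine ⟨δ, T0, hδ0, fun x T V h hT hx hh0 hh1 hV1 hV2 => ?_⟩
  obtain ⟨b1, b2, b3, b4, b5⟩ := hT0 T hT
  obtain ⟨hT1', hT3⟩ := max_le_iff.mp b1
  obtain ⟨c1, c2, c3, c4, c5, c6, c7, c8, c9⟩ : 4 ≤ Real.log (Real.log T) ∧ N ≤ Real.log (Real.log T) ∧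
      2 * D ≤ Real.log (Real.log T) ∧ (2 * H / ε) ^ 2 ≤ Real.log (Real.log T) ∧
      2 * H ^ 2 ≤ Real.log (Real.log T) ∧ (4 * (H + 2 * N)) ^ 2 ≤ Real.log (Real.log T) ∧
      (4 * 10 ^ 4) ^ 2 ≤ Real.log (Real.log T) ∧ 2 * D / ε ^ 2 ≤ Real.log (Real.log T) ∧
      8 * C4 * (D + 2 * D / ε ^ 2) / ε ≤ Real.log (Real.log T) :=
    ⟨by linarith only [p1, p2, p3, p4, p5, p6, hN0, hD0, b2], by linarith only [p1, p2, p3, p4, p5, p6, hN0, hD0, b2],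
      by linarith only [p1, p2, p3, p4, p5, p6, hN0, hD0, b2], by linarith only [p1, p2, p3, p4, p5, p6, hN0, hD0, b2],
      by linarith only [p1, p2, p3, p4, p5, p6, hN0, hD0, b2], by linarith only [p1, p2, p3, p4, p5, p6, hN0, hD0, b2],
      by linarith only [p1, p2, p3, p4, p5, p6, hN0, hD0, b2], by linarith only [p1, p2, p3, p4, p5, p6, hN0, hD0, b2],
      by linarith only [p1, p2, p3, p4, p5, p6, hN0, hD0, b2]⟩
  clear b1 b2 p1 p2 p3 p4 p5 p6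
  set L := Real.log T with hL
  set l := Real.log L with hl
  have hl0 : 0 < l := by linarith only [c1]
  have hL0 : 0 < L := by linarith only [hl0, b4]
  have q1 : 2 * H / ε ≤ Real.sqrt l := Real.le_sqrt_of_sq_le c4
  have q2 : 4 * (H + 2 * N) ≤ Real.sqrt l := Real.le_sqrt_of_sq_le c6
  have q3 : (4 * 10 ^ 4 : ℝ) ≤ Real.sqrt l := Real.le_sqrt_of_sq_le c7
  set s := Real.sqrt (l / 2) with hs
  have hs0 : 0 < s := Real.sqrt_pos.mpr (by linarith only [hl0])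
  have hss : s ^ 2 = l / 2 := Real.sq_sqrt (by linarith only [hl0])
  have hHs : H ≤ s := Real.le_sqrt_of_sq_le (by linarith only [c5])
  have hh : h ≤ H := hh1.trans hhH
  have hh1' : 1 ≤ h := hNsq.trans hh0
  have hh0' : 0 ≤ h := by linarith only [hh1']
  -- the parameters
  obtain ⟨A0, HA0⟩ := HE N hN2' T b3 c2
  have hsp0 := HA0 (1 / 10 ^ 4) (by norm_num) le_rfl
  have hvt : |A0.vt - l| ≤ D := (HN _ T N hsp0 hN3').2.2.2.2.2.2.2.2
  have hsd : |A0.s2 - l / 2| ≤ D / 2 := by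
    unfold Par.s2
    rw [abs_le] at hvt ⊢
    constructor
    · linarith only [hvt.1]
    · linarith only [hvt.2]
  obtain ⟨hsd1, hsd2⟩ := abs_le.1 hsd
  have hs2 : l / 4 ≤ A0.s2 := by linarith only [hsd1, c3]
  have hs2' : A0.s2 ≤ l := by linarith only [hsd2, c3, hl0]
  have hs20 : 0 < A0.s2 := by linarith only [hs2, hl0]
  have hσs : A0.s2 = Real.sqrt A0.s2 ^ 2 := (Real.sq_sqrt hs20.le).symm
  have hσ1 : 1 ≤ Real.sqrt A0.s2 := Real.le_sqrt_of_sq_le (by linarith only [hs2, c1])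
  have hm0 : 0 ≤ max V 0 := le_max_right _ _
  have hmV : max V 0 ≤ δ * l := max_le hV2 (by positivity)
  obtain ⟨hbe0, hbe2, hbe3, hbe4⟩ := tilt hl0 hs2 hs2' rfl hm0 hmV hδa hδb q2 q3 hh hh0' hN0.le
  have hGV : ({ A0 with be := (max V 0 + Real.sqrt A0.s2) / A0.s2 } : Par).G V ≤
      Cε * (1 / s * Real.exp (-(V ^ 2 / (2 * s ^ 2)))) :=
    G_le (A := { A0 with be := (max V 0 + Real.sqrt A0.s2) / A0.s2 }) hε c1 c3 hD0.le hsd hV1 hV2 hδc rfl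
  set be := (max V 0 + Real.sqrt A0.s2) / A0.s2 with hbe
  have hsp := HA0 be hbe0 hbe2
  have hu := HU { A0 with be := be } T hsp hT1' hbe4 x V h hx hh0 hbe3
  set σ := Real.sqrt A0.s2 with hσ
  have hgi : (gaussianReal 0 (Real.toNNReal ({ A0 with be := be } : Par).s2) (Ioc V (V + h))).toReal
      = gi σ V (V + h) := by
    unfold gi
    rw [← hσs]
    rfl
  rw [hgi] at hu
  generalize ({ A0 with be := be } : Par).G V = G at hGV hu
  clear hsp HA0 hsp0 hgi hbe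
  have hVsq := sq_le hε c1 hV1 hV2
  -- conditions of the Gaussian estimates
  have hhV : h * |V| ≤ s ^ 2 := by
    rw [hss]
    exact cond1 hl0 hδd hh hh0' hV1 hV2 q1
  have hs1 : 1 ≤ s := hH1.trans hHs
  have hhs : h ≤ s := hh.trans hHs
  have g1 := (HG1 s V h hs1 hh0' hhs hhV).1
  have hgi0 : 0 ≤ gi s V (V + h) := ENNReal.toReal_nonneg
  have hGi : h * G ≤ Cε * C4 * gi s V (V + h) := by
    calc h * G ≤ h * (Cε * (1 / s * Real.exp (-(V ^ 2 / (2 * s ^ 2))))) := by gcongr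
      _ = Cε * (h / s * Real.exp (-(V ^ 2 / (2 * s ^ 2)))) := by ring
      _ ≤ Cε * (C4 * gi s V (V + h)) := by gcongr
      _ = Cε * C4 * gi s V (V + h) := by ring
  have hds : |s ^ 2 - σ ^ 2| ≤ D / 2 := by
    rw [hss, ← hσs, abs_sub_comm]
    exact hsd
  have hd1 : |s ^ 2 - σ ^ 2| * V ^ 2 ≤ s ^ 4 := by
    have e1 : s ^ 4 = l ^ 2 / 4 := by
      have : s ^ 4 = (s ^ 2) ^ 2 := by ring
      rw [this, hss]; ring
    rw [e1]
    exact cond2 hl0 hD0.le hV1 hV2 hδc hds c8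
  have g2 := HG2 s σ V h hs1 hσ1 hh0' hhs hhV
    (by rw [hss] at hds ⊢; linarith only [hds, c3]) hd1
  have g3 : C4 * (|s ^ 2 - σ ^ 2| * (1 + V ^ 2 / s ^ 2) / s ^ 2) ≤ ε / 4 := by
    rw [hss] at hds ⊢
    exact cond3 hl0 hC40 hε hds (abs_nonneg _) hVsq hδe c9
  have g4 : |gi σ V (V + h) - gi s V (V + h)| ≤ ε / 4 * gi s V (V + h) :=
    g2.trans (mul_le_mul_of_nonneg_right g3 hgi0)
  have g5 := gi_low hC4 c1 b4 rfl hL0 hδ1 hδ0.le hVsq rfl hh1' g1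
  have g6 : T ^ (-(1 / 30) : ℝ) + 2 * T ^ (-(1 / 20) : ℝ) ≤ ε / 4 * gi s V (V + h) := by
    refine b5.trans ?_
    have : c / L ^ 2 = ε / 4 * (Real.exp (-(1 / ε ^ 2)) / (C4 * L ^ 2)) := by
      rw [hc]
      field_simp
    rw [this]
    gcongr
  have g7 := vol_near (V := V) (h := h) hT3 hx
  have g8 : C1 * h / N ^ (1 / 4 : ℝ) * G ≤ ε / 4 * gi s V (V + h) := by
    calc C1 * h / N ^ (1 / 4 : ℝ) * G
        = C1 / N ^ (1 / 4 : ℝ) * (h * G) := by ring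
      _ ≤ C1 / N ^ (1 / 4 : ℝ) * (Cε * C4 * gi s V (V + h)) := by gcongr
      _ = C1 / N ^ (1 / 4 : ℝ) * (Cε * C4) * gi s V (V + h) := by ring
      _ ≤ ε / 4 * gi s V (V + h) := by gcongr
  rw [abs_le] at g4 g7 hu ⊢
  have hεg : 0 ≤ ε * gi s V (V + h) := by positivity
  constructor
  · linarith only [g4.1, g7.1, hu.1, hεg, g6, g8]
  · linarith only [g4.2, g7.2, hu.2, hεg, g6, g8]

end Pool.Agent.Lib.LC
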