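import Mathlib
import Pool.Agent.Lib.MP_f9aece_nt_loc.StmtsTwo

/-!
The law of `log |zeta|` at bounded scale: statements of the modules, third part (the left end of the
interval may be arbitrarily far to the left).
-/

set_option autoImplicit false

namespace Pool.Agent.Lib.LC

open MeasureTheory Set Filter Topology Complex ProbabilityTheory
open scoped ComplexConjugate

/-- F4: the law of `log |zeta|` in all intervals of length at least `h0` -/
def AllZero : Prop := ∀ ε : ℝ, 0 < ε → ∃ h0 δ T0 : ℝ, 0 < h0 ∧ 0 < δ ∧ ∀ x T V W : ℝ, T0 ≤ T →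
  |x| ≤ T ^ (9 / 10 : ℝ) → V + h0 ≤ W → V ≤ δ * Real.log (Real.log T) →
  -(Real.sqrt (Real.log (Real.log T)) / ε) ≤ W →
  |(volume {u : ℝ | u ∈ Icc (0 : ℝ) 1 ∧ Real.exp V < zm x T u ∧ zm x T u ≤ Real.exp W}).toReal
    - gi (Real.sqrt (Real.log (Real.log T) / 2)) V W|
    ≤ ε * gi (Real.sqrt (Real.log (Real.log T) / 2)) V W

/-- F5: the same under the measure `|zeta| ^ 2` -/
def AllTwo : Prop := ∀ ε : ℝ, 0 < ε → ∃ h0 δ T0 : ℝ, 0 < h0 ∧ 0 < δ ∧ ∀ x T V W : ℝ, T0 ≤ T →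
  |x| ≤ T ^ (9 / 10 : ℝ) → V + h0 ≤ W → V ≤ δ * Real.log (Real.log T) →
  -(δ * Real.log (Real.log T)) ≤ W →
  |(∫ u in {u : ℝ | u ∈ Icc (0 : ℝ) 1 ∧ Real.log T * Real.exp V < zm x T u ∧
      zm x T u ≤ Real.log T * Real.exp W}, zm x T u ^ 2)
    - Real.log T * gi (Real.sqrt (Real.log (Real.log T) / 2)) V W|
    ≤ ε * (Real.log T * gi (Real.sqrt (Real.log (Real.log T) / 2)) V W)

end Pool.Agent.Lib.LC
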