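import Mathlib
import Pool.Agent.Lib.MP_f9aece_nt_loc.StmtsThree
import Pool.Agent.Lib.MP_f9aece_nt_gt.G1
import Pool.Agent.Lib.MP_f9aece_nt_gt.G2
import Pool.Agent.Lib.MP_f9aece_nt_gt.G3
import Pool.Agent.Lib.MP_f9aece_nt_g2.H7

/-!
The law of `log |zeta|` at bounded scale, module F6: the lower tail of the uniform law.
-/

set_option autoImplicit false

namespace Pool.Agent.Lib.LC

open MeasureTheory Set Filter Topology Complex ProbabilityTheory
open scoped ComplexConjugate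
open Pool.Agent.Lib.GT (tl zf tendsto_loglog tl_chernoff)

namespace F6

lemma tl_symm (x : ℝ) : tl (-x) = 1 - tl x := by
  have h1 : gaussianReal 0 1 (Ioi (-x)) = gaussianReal 0 1 (Iio x) := by
    have h2 := gaussianReal_map_neg (μ := 0) (v := 1)
    rw [neg_zero] at h2
    conv_lhs => rw [← h2]
    rw [Measure.map_apply measurable_neg measurableSet_Ioi]
    congr 1
    ext y
    simp
  have h3 : gaussianReal 0 1 (Iio x) = gaussianReal 0 1 (Iic x) := by
    rw [← Iio_union_right, measure_union (by simp) (measurableSet_singleton x)]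
    have : gaussianReal 0 1 {x} = 0 := by
      have := noAtoms_gaussianReal (μ := 0) (v := 1) one_ne_zero
      exact measure_singleton x
    rw [this, add_zero]
  have h4 : (gaussianReal 0 1 (Ioi x)) = 1 - gaussianReal 0 1 (Iic x) := by
    rw [← compl_Iic, prob_compl_eq_one_sub measurableSet_Iic]
  unfold tl
  rw [h1, h3, h4, ENNReal.toReal_sub_of_le prob_le_one ENNReal.one_ne_top, ENNReal.toReal_one]
  ring

lemma tl_pos (hT : GT.TailFacts) (x : ℝ) : 0 < tl x := by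
  obtain ⟨c, C, hc, -, h1, -, -, ha⟩ := hT
  have h2 : tl (max x 0) ≤ tl x := ha (le_max_left _ _)
  have h3 := h1 (max x 0) (le_max_right _ _)
  have h4 : 0 < c * Real.exp (-((max x 0) ^ 2 / 2)) / (1 + max x 0) := by
    have : 0 ≤ max x 0 := le_max_right _ _
    positivity
  linarith

lemma vol_low (x T W : ℝ) :
    (volume {u : ℝ | u ∈ Icc (0 : ℝ) 1 ∧ zf x T u ≤ Real.exp W}).toReal
      = 1 - (volume {u : ℝ | u ∈ Icc (0 : ℝ) 1 ∧ Real.exp W < zf x T u}).toReal := by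
  have hm : Measurable (zf x T) := (GT.continuous_zf x T).measurable
  have h1 : MeasurableSet {u : ℝ | u ∈ Icc (0 : ℝ) 1 ∧ Real.exp W < zf x T u} :=
    measurableSet_Icc.inter (measurableSet_lt measurable_const hm)
  have h2 : Disjoint {u : ℝ | u ∈ Icc (0 : ℝ) 1 ∧ zf x T u ≤ Real.exp W}
      {u : ℝ | u ∈ Icc (0 : ℝ) 1 ∧ Real.exp W < zf x T u} :=
    Set.disjoint_left.2 fun u hu hu' => absurd hu.2 (not_le.2 hu'.2)
  have h3 := measure_union (μ := volume) h2 h1
  have h4 : {u : ℝ | u ∈ Icc (0 : ℝ) 1 ∧ zf x T u ≤ Real.exp W} ∪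
      {u : ℝ | u ∈ Icc (0 : ℝ) 1 ∧ Real.exp W < zf x T u} = Icc 0 1 := by
    ext u
    constructor
    · rintro (h | h)
      · exact h.1
      · exact h.1
    · intro h
      rcases le_or_gt (zf x T u) (Real.exp W) with h' | h'
      · exact Or.inl ⟨h, h'⟩
      · exact Or.inr ⟨h, h'⟩
  have fin : ∀ E : Set ℝ, E ⊆ Icc (0 : ℝ) 1 → volume E ≠ ⊤ := by
    intro E hE
    have h : volume E ≤ volume (Icc (0 : ℝ) 1) := measure_mono hE
    rw [Real.volume_Icc] at h
    exact ne_top_of_le_ne_top ENNReal.ofReal_ne_top h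
  rw [h4, Real.volume_Icc] at h3
  have h5 := congrArg ENNReal.toReal h3
  rw [ENNReal.toReal_add (fin _ fun u hu => hu.1) (fin _ fun u hu => hu.1)] at h5
  rw [ENNReal.toReal_ofReal (by norm_num)] at h5
  linarith

end F6

/-- F6: the lower tail of the uniform law -/
theorem lowZero (hF : G2.FinZero) (hT : GT.TailFacts) : ∀ ε : ℝ, 0 < ε → ∃ T0 : ℝ, ∀ x T W : ℝ,
    T0 ≤ T → |x| ≤ T ^ (9 / 10 : ℝ) → -(Real.sqrt (Real.log (Real.log T)) / ε) ≤ W →
    |(volume {u : ℝ | u ∈ Icc (0 : ℝ) 1 ∧ zf x T u ≤ Real.exp W}).toReal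
      - tl (-W / Real.sqrt (Real.log (Real.log T) / 2))|
      ≤ ε * tl (-W / Real.sqrt (Real.log (Real.log T) / 2)) := by
  intro ε hε
  set c := tl (Real.sqrt 2 / ε) with hc
  have hc0 : 0 < c := F6.tl_pos hT _
  obtain ⟨-, -, -, -, -, -, -, ha⟩ := id hT
  obtain ⟨δ, T1, hδ, H⟩ := hF (ε * c / 4) (by positivity)
  -- the tail at `δ l` is small
  have h1 : ∀ᶠ l : ℝ in atTop, Real.exp (-((δ * l / Real.sqrt (l / 2)) ^ 2 / 2)) ≤ ε * c / 4 := by
    have h2 : ∀ᶠ l : ℝ in atTop, 4 / (ε * c * δ ^ 2) ≤ l := eventually_ge_atTop _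
    filter_upwards [h2, eventually_gt_atTop 0] with l h3 h4
    have h5 : (δ * l / Real.sqrt (l / 2)) ^ 2 / 2 = δ ^ 2 * l := by
      rw [div_pow, Real.sq_sqrt (by positivity)]
      field_simp
    rw [h5, Real.exp_neg]
    have h6 : 4 / (ε * c) ≤ Real.exp (δ ^ 2 * l) := by
      have h7 := Real.add_one_le_exp (δ ^ 2 * l)
      have h8 : 4 / (ε * c) ≤ δ ^ 2 * l := by
        rw [div_le_iff₀ (by positivity)] at h3 ⊢
        linarith
      linarith
    have h9 : (Real.exp (δ ^ 2 * l))⁻¹ ≤ (4 / (ε * c))⁻¹ := inv_anti₀ (by positivity) h6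
    rwa [inv_div] at h9
  obtain ⟨T2, hT2⟩ := eventually_atTop.mp (tendsto_loglog.eventually (h1.and (eventually_ge_atTop 1)))
  refine ⟨max T1 T2, fun x T W hTT hx hW => ?_⟩
  have hTT1 : T1 ≤ T := (le_max_left _ _).trans hTT
  have hTT2 : T2 ≤ T := (le_max_right _ _).trans hTT
  obtain ⟨k1, k2⟩ := hT2 T hTT2
  set l := Real.log (Real.log T) with hl
  have hl0 : 0 < l := by linarith
  set s := Real.sqrt (l / 2) with hs
  have hs0 : 0 < s := Real.sqrt_pos.mpr (by positivity)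
  obtain ⟨H1, -, -⟩ := H x T hTT1 hx
  have hlow : c ≤ tl (-W / s) := by
    apply ha
    rw [div_le_div_iff₀ hs0 hε]
    have e1 : Real.sqrt 2 * s = Real.sqrt l := by
      rw [hs, ← Real.sqrt_mul (by norm_num)]
      congr 1
      ring
    rw [e1]
    have e2 : -W ≤ Real.sqrt l / ε := by linarith
    rwa [le_div_iff₀ hε] at e2
  have hneg : tl (-W / s) = 1 - tl (W / s) := by
    rw [neg_div]
    exact F6.tl_symm _
  rw [F6.vol_low]
  have key : |(volume {u : ℝ | u ∈ Icc (0 : ℝ) 1 ∧ Real.exp W < zf x T u}).toReal - tl (W / s)|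
      ≤ ε * c := by
    rcases le_or_gt W (δ * l) with h | h
    · refine (H1 W h).trans ?_
      have e1 : tl (W / s) ≤ 1 := GT.tl_le_one _
      have e2 : 0 ≤ tl (W / s) := GT.tl_nonneg _
      have e3 : 0 < ε * c := by positivity
      nlinarith
    · have e1 := H1 (δ * l) le_rfl
      have e2 : tl (δ * l / s) ≤ ε * c / 4 := (tl_chernoff (by positivity)).trans k1
      have e3 : tl (W / s) ≤ tl (δ * l / s) := ha (by gcongr)
      have e4 : (volume {u : ℝ | u ∈ Icc (0 : ℝ) 1 ∧ Real.exp W < zf x T u}).toReal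
          ≤ (volume {u : ℝ | u ∈ Icc (0 : ℝ) 1 ∧ Real.exp (δ * l) < zf x T u}).toReal := by
        have fin : volume {u : ℝ | u ∈ Icc (0 : ℝ) 1 ∧ Real.exp (δ * l) < zf x T u} ≠ ⊤ := by
          have h : volume {u : ℝ | u ∈ Icc (0 : ℝ) 1 ∧ Real.exp (δ * l) < zf x T u}
            ≤ volume (Icc (0 : ℝ) 1) := measure_mono fun u hu => hu.1
          rw [Real.volume_Icc] at h
          exact ne_top_of_le_ne_top ENNReal.ofReal_ne_top h
        refine ENNReal.toReal_mono fin (measure_mono fun u hu => ⟨hu.1, ?_⟩)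
        exact lt_of_le_of_lt (Real.exp_le_exp.2 h.le) hu.2
      have e5 : 0 ≤ tl (W / s) := GT.tl_nonneg _
      have e6 : 0 ≤ (volume {u : ℝ | u ∈ Icc (0 : ℝ) 1 ∧ Real.exp W < zf x T u}).toReal :=
        ENNReal.toReal_nonneg
      have e7 : tl (δ * l / s) ≤ 1 := GT.tl_le_one _
      have e8 : 0 ≤ tl (δ * l / s) := GT.tl_nonneg _
      have e9 : 0 < ε * c := by positivity
      rw [abs_le] at e1 ⊢
      constructor <;> nlinarith [e1.2]
  have e1 : (1 - (volume {u : ℝ | u ∈ Icc (0 : ℝ) 1 ∧ Real.exp W < zf x T u}).toReal) - tl (-W / s)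
      = -((volume {u : ℝ | u ∈ Icc (0 : ℝ) 1 ∧ Real.exp W < zf x T u}).toReal - tl (W / s)) := by
    rw [hneg]
    ring
  rw [e1, abs_neg]
  exact key.trans (mul_le_mul_of_nonneg_left hlow hε.le)

end Pool.Agent.Lib.LC
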