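import Mathlib
import Pool.Agent.Lib.MP_f9aece_nt_loc.StmtsThree
import Pool.Agent.Lib.MP_f9aece_nt_loc.F2
import Pool.Agent.Lib.MP_f9aece_nt_loc.F6

/-!
The law of `log |zeta|` at bounded scale, module F4: the left end of the interval may be arbitrarily far
to the left (uniform law).
-/

set_option autoImplicit false

namespace Pool.Agent.Lib.LC

open MeasureTheory Set Filter Topology Complex ProbabilityTheory
open scoped ComplexConjugate
open Pool.Agent.Lib.GT (tl tendsto_loglog)

namespace F4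

lemma gi_eq {s V W : ℝ} (hs : 0 < s) (hVW : V ≤ W) : gi s V W = tl (V / s) - tl (W / s) := by
  have h5 : (gaussianReal 0 (Real.toNNReal (s ^ 2)) (Ioi V)).toReal =
      gi s V W + (gaussianReal 0 (Real.toNNReal (s ^ 2)) (Ioi W)).toReal := by
    unfold gi
    rw [← ENNReal.toReal_add (measure_ne_top _ _) (measure_ne_top _ _),
      ← measure_union (Set.Ioc_disjoint_Ioi le_rfl) measurableSet_Ioi, Set.Ioc_union_Ioi_eq_Ioi hVW]
  rw [GT.G1.scale hs, GT.G1.scale hs] at h5
  linarith

/-- the mass of an interval is at most the mass of its left half line -/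
lemma mz_le (x T a b : ℝ) : F2.mz x T a b
    ≤ (volume {u : ℝ | u ∈ Icc (0 : ℝ) 1 ∧ GT.zf x T u ≤ Real.exp b}).toReal := by
  unfold F2.mz
  apply ENNReal.toReal_mono (F2.fin _ fun u hu => hu.1)
  apply measure_mono
  intro u hu
  exact ⟨hu.1, hu.2.2⟩

end F4

/-- F4: the law of `log |zeta|` in all intervals of length at least `h0` -/
theorem allZero (hW : WideZero) (hF : G2.FinZero) (hT : GT.TailFacts) : AllZero := by
  intro ε hε
  set c := tl (Real.sqrt 2 / ε) with hc
  have hc0 : 0 < c := F6.tl_pos hT _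
  have hc1 : c ≤ 1 := GT.tl_le_one _
  obtain ⟨-, -, -, -, -, -, -, ha⟩ := id hT
  -- the level of the cut
  have hεc : 0 < ε * c := by positivity
  obtain ⟨η, hη0, hη1, hη2⟩ : ∃ η : ℝ, 0 < η ∧ η ≤ c / 2 ∧ η ≤ ε * c / 16 :=
    ⟨min (c / 2) (ε * c / 16), lt_min (by positivity) (by positivity), min_le_left _ _,
      min_le_right _ _⟩
  obtain ⟨N, hN0, hN⟩ := GT.tl_near_one η hη0
  set M := max N (Real.sqrt 2 / ε + 1) with hM
  have hM1 : Real.sqrt 2 / ε + 1 ≤ M := le_max_right _ _
  have hM0 : 0 < M := by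
    have : 0 < Real.sqrt 2 / ε := by positivity
    linarith
  have hMη : tl M ≤ η := by
    have h1 : tl (-M) = 1 - tl M := F6.tl_symm M
    have h2 : tl (-N) ≤ tl (-M) := ha (neg_le_neg (le_max_left _ _))
    linarith
  obtain ⟨ε1, hε1, he1, he2⟩ : ∃ ε1 : ℝ, 0 < ε1 ∧ ε1 ≤ ε / 8 ∧ ε1 ≤ Real.sqrt 2 / M :=
    ⟨min (ε / 8) (Real.sqrt 2 / M), lt_min (by positivity) (by positivity), min_le_left _ _,
      min_le_right _ _⟩
  obtain ⟨h0, δ, T1, hh0, hδ, H1⟩ := hW ε1 hε1
  obtain ⟨T2, H2⟩ := lowZero hF hT (min 1 (Real.sqrt 2 / M)) (lt_min one_pos (by positivity))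
  obtain ⟨T3, hT3⟩ := eventually_atTop.mp
    (tendsto_loglog.eventually (eventually_ge_atTop (2 * (h0 ^ 2 + 1))))
  refine ⟨h0, δ, max T1 (max T2 T3), hh0, hδ, fun x T V W hTT hx hVW hV hWl => ?_⟩
  have t1 : T1 ≤ T := (le_max_left _ _).trans hTT
  have t2 : T2 ≤ T := ((le_max_left _ _).trans (le_max_right _ _)).trans hTT
  have t3 : T3 ≤ T := ((le_max_right _ _).trans (le_max_right _ _)).trans hTT
  have k1 := hT3 T t3
  set l := Real.log (Real.log T) with hl
  have hl0 : 0 < l := by
    have : 0 ≤ h0 ^ 2 := sq_nonneg h0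
    linarith only [this, k1]
  set s := Real.sqrt (l / 2) with hs
  have hs0 : 0 < s := Real.sqrt_pos.mpr (by positivity)
  have hsh : h0 ≤ s := Real.le_sqrt_of_sq_le (by linarith)
  have hsl : Real.sqrt 2 * s = Real.sqrt l := by
    rw [hs, ← Real.sqrt_mul (by norm_num)]
    congr 1
    ring
  have h20 : 0 < Real.sqrt 2 := by positivity
  -- the cut
  have hMs : M * s ≤ Real.sqrt l / ε1 := by
    rw [le_div_iff₀ hε1, ← hsl]
    calc M * s * ε1 ≤ M * s * (Real.sqrt 2 / M) := by gcongr
      _ = Real.sqrt 2 * s := by field_simp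
  have hg0 := F1.gi_nonneg s V W
  have e0 : (volume {u : ℝ | u ∈ Icc (0 : ℝ) 1 ∧ Real.exp V < zm x T u ∧
      zm x T u ≤ Real.exp W}).toReal = F2.mz x T V W := rfl
  rw [e0]
  rcases le_or_gt (-(M * s)) V with h | h
  · have := H1 x T V W t1 hx hVW (by linarith) hV
    refine this.trans (mul_le_mul_of_nonneg_right ?_ hg0)
    linarith
  · have hWs : -(Real.sqrt 2 / ε * s) ≤ W := by
      have e1 : Real.sqrt 2 / ε * s = Real.sqrt l / ε := by
        rw [← hsl]
        ring
      rw [e1]
      exact hWl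
    have hcut : -(M * s) + h0 ≤ W := by
      have e1 : (Real.sqrt 2 / ε + 1) * s ≤ M * s := by gcongr
      have e2 : (Real.sqrt 2 / ε + 1) * s = Real.sqrt 2 / ε * s + s := by ring
      linarith
    have a1 := H1 x T (-(M * s)) W t1 hx hcut (by linarith) (by
      have : 0 < M * s := by positivity
      have : 0 < δ * l := by positivity
      linarith)
    have e1 : (volume {u : ℝ | u ∈ Icc (0 : ℝ) 1 ∧ Real.exp (-(M * s)) < zm x T u ∧
        zm x T u ≤ Real.exp W}).toReal = F2.mz x T (-(M * s)) W := rfl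
    rw [e1] at a1
    have hcutW : -(M * s) ≤ W := by linarith
    have a2 := F2.mz_add x T h.le hcutW
    have a3 := F1.gi_add s h.le hcutW
    -- the mass on the left of the cut
    have a4 := H2 x T (-(M * s)) t2 hx (by
      have e2 : M * s ≤ Real.sqrt l / min 1 (Real.sqrt 2 / M) := by
        rw [le_div_iff₀ (lt_min one_pos (by positivity)), ← hsl]
        calc M * s * min 1 (Real.sqrt 2 / M) ≤ M * s * (Real.sqrt 2 / M) := by
              gcongr
              exact min_le_right _ _
          _ = Real.sqrt 2 * s := by field_simp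
      linarith)
    have e3 : -(-(M * s)) / s = M := by
      rw [neg_neg]
      field_simp
    rw [e3] at a4
    have a5 : min 1 (Real.sqrt 2 / M) * tl M ≤ tl M :=
      mul_le_of_le_one_left (GT.tl_nonneg M) (min_le_left _ _)
    have a6 : F2.mz x T V (-(M * s)) ≤ 2 * η := by
      have := F4.mz_le x T V (-(M * s))
      have b1 := (abs_le.1 a4).2
      linarith
    have a7 : 0 ≤ F2.mz x T V (-(M * s)) := ENNReal.toReal_nonneg
    have a8 : gi s V (-(M * s)) ≤ η := by
      rw [F4.gi_eq hs0 h.le]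
      have e4 : -(M * s) / s = -M := by field_simp
      rw [e4, F6.tl_symm]
      have := GT.tl_le_one (V / s)
      linarith
    have a9 := F1.gi_nonneg s V (-(M * s))
    have a10 : c / 2 ≤ gi s (-(M * s)) W := by
      rw [F4.gi_eq hs0 hcutW]
      have e4 : -(M * s) / s = -M := by field_simp
      rw [e4, F6.tl_symm]
      have b1 : tl (W / s) ≤ tl (-(Real.sqrt 2 / ε)) := by
        apply ha
        rw [le_div_iff₀ hs0]
        linarith
      rw [F6.tl_symm] at b1
      linarith
    have b2 := F1.gi_nonneg s (-(M * s)) W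
    rw [abs_le] at a1 ⊢
    have b3 : ε1 * gi s (-(M * s)) W ≤ ε / 8 * gi s (-(M * s)) W := by gcongr
    have b4 : 3 * η ≤ 3 / 8 * (ε * gi s (-(M * s)) W) := by
      have b7 : ε * (c / 2) ≤ ε * gi s (-(M * s)) W := by gcongr
      linarith only [b7, hη2]
    have b5 : 0 ≤ ε * gi s (-(M * s)) W := by positivity
    have b6 : 0 ≤ ε * gi s V (-(M * s)) := by positivity
    constructor
    · rw [a2, a3]
      linarith only [a1.1, a7, a8, b3, b4, b5, b6]
    · rw [a2, a3]
      linarith only [a1.2, a6, a9, b3, b4, b5, b6]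

end Pool.Agent.Lib.LC
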