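import Mathlib
import Pool.Agent.Lib.MP_f9aece_nt_loc.StmtsThree
import Pool.Agent.Lib.MP_f9aece_nt_loc.F3

/-!
The law of `log |zeta|` at bounded scale: module F5, all intervals, the measure `|zeta| ^ 2`; the left
end may be arbitrarily far to the left.
-/

set_option autoImplicit false

namespace Pool.Agent.Lib.LC

open MeasureTheory Set Filter Topology Complex ProbabilityTheory
open scoped ComplexConjugate
open Pool.Agent.Lib.GT (tl zf)
open Pool.Agent.Lib.G2 (ze nu)

namespace F5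

/-- symmetry of the Gaussian -/
lemma sym (s : ℝ) {E : Set ℝ} (hE : MeasurableSet E) :
    gaussianReal 0 (Real.toNNReal (s ^ 2)) {y | -y ∈ E} = gaussianReal 0 (Real.toNNReal (s ^ 2)) E := by
  have h1 := gaussianReal_map_neg (μ := 0) (v := Real.toNNReal (s ^ 2))
  rw [neg_zero] at h1
  conv_rhs => rw [← h1]
  rw [Measure.map_apply (by fun_prop) hE]
  rfl

lemma var_ne {s : ℝ} (hs : 0 < s) : Real.toNNReal (s ^ 2) ≠ 0 := by
  have h : 0 < Real.toNNReal (s ^ 2) := Real.toNNReal_pos.2 (by positivity)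
  exact h.ne'

lemma gi_sym {s : ℝ} (hs : 0 < s) (a b : ℝ) : gi s (-b) (-a) = gi s a b := by
  unfold gi
  have : NullSingletonClass (gaussianReal 0 (Real.toNNReal (s ^ 2))) :=
    nullSingletonClass_gaussianReal (var_ne hs)
  have h1 := sym s (E := Ioc (-b) (-a)) measurableSet_Ioc
  have h2 : {y : ℝ | -y ∈ Ioc (-b) (-a)} = Ico a b := by
    ext y
    simp only [mem_Ioc, Set.mem_ofPred_eq, mem_Ico]
    constructor
    · rintro ⟨h3, h4⟩; constructor <;> linarith
    · rintro ⟨h3, h4⟩; constructor <;> linarith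
  rw [h2] at h1
  rw [← h1, measure_congr Ico_ae_eq_Ioc]

/-- an interval to the left -/
lemma gi_left {s : ℝ} (hs : 0 < s) (V b : ℝ) : gi s V (-b) ≤ tl (b / s) := by
  have h1 := gi_sym hs b (-V)
  rw [neg_neg] at h1
  rw [h1]
  exact F1.gi_le_tl hs

end F5

/-- F5: the law of `log |zeta|` in all intervals of length at least `h0`, under `|zeta| ^ 2` -/
theorem allTwo (hW : WideTwo) (hF : G2.FinTwo) (hG : GaussCut) : AllTwo := by
  intro ε hε
  obtain ⟨h00, δ1, T1, hh00, hδ1, hW1⟩ := hW (ε / 4) (by positivity)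
  obtain ⟨δ2, T2, hδ2, hF2⟩ := hF 1 one_pos
  obtain ⟨δ3, hδ3⟩ : ∃ δ3 : ℝ, δ3 = min δ1 δ2 := ⟨_, rfl⟩
  have hδ3p : 0 < δ3 := by rw [hδ3]; exact lt_min hδ1 hδ2
  have hδ31 : δ3 ≤ δ1 := by rw [hδ3]; exact min_le_left _ _
  have hδ32 : δ3 ≤ δ2 := by rw [hδ3]; exact min_le_right _ _
  obtain ⟨δ', hδ'p, -, hG1⟩ := hG (ε / 64) (4 * δ3) (by positivity) (by positivity)
  obtain ⟨h0, hh0⟩ : ∃ h0 : ℝ, h0 = max h00 1 := ⟨_, rfl⟩
  have hh01 : 1 ≤ h0 := by rw [hh0]; exact le_max_right _ _
  have hh02 : h00 ≤ h0 := by rw [hh0]; exact le_max_left _ _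
  obtain ⟨s0, hs01, hG2⟩ := hG1 h0 hh01
  obtain ⟨δ, hδ⟩ : ∃ δ : ℝ, δ = min (δ3 / 2) (δ' / 2) := ⟨_, rfl⟩
  have hδp : 0 < δ := by rw [hδ]; exact lt_min (by positivity) (by positivity)
  have hδa : δ ≤ δ3 / 2 := by rw [hδ]; exact min_le_left _ _
  have hδb : δ ≤ δ' / 2 := by rw [hδ]; exact min_le_right _ _
  obtain ⟨M, hM⟩ : ∃ M : ℝ, M = max (2 * s0 ^ 2) (max (2 * h0 / δ3) 2) := ⟨_, rfl⟩
  refine ⟨h0, δ, max (max T1 T2) (Real.exp (Real.exp M)), by linarith, hδp, ?_⟩
  intro x T V W hTT hx hVW hVδ hWδ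
  have hT1 : T1 ≤ T := le_trans (le_trans (le_max_left _ _) (le_max_left _ _)) hTT
  have hT2 : T2 ≤ T := le_trans (le_trans (le_max_right _ _) (le_max_left _ _)) hTT
  have hTe : Real.exp (Real.exp M) ≤ T := le_trans (le_max_right _ _) hTT
  have hTp : 0 < T := lt_of_lt_of_le (Real.exp_pos _) hTe
  have hL2 : Real.exp M ≤ Real.log T := (Real.le_log_iff_exp_le hTp).2 hTe
  have hLp : 0 < Real.log T := lt_of_lt_of_le (Real.exp_pos _) hL2
  have hMl : M ≤ Real.log (Real.log T) := (Real.le_log_iff_exp_le hLp).2 hL2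
  have hW2 := hW1 x T
  have hF3 := (hF2 x T hT2 hx).1
  set l : ℝ := Real.log (Real.log T) with hl
  have hl1 : 2 * s0 ^ 2 ≤ l := le_trans (by rw [hM]; exact le_max_left _ _) hMl
  have hl2 : 2 * h0 / δ3 ≤ l :=
    le_trans (by rw [hM]; exact le_trans (le_max_left _ _) (le_max_right _ _)) hMl
  have hl3 : 2 ≤ l :=
    le_trans (by rw [hM]; exact le_trans (le_max_right _ _) (le_max_right _ _)) hMl
  have hl0 : 0 < l := by linarith
  set s : ℝ := Real.sqrt (l / 2) with hs
  have hsp : 0 < s := Real.sqrt_pos.2 (by linarith)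
  have hs2 : s ^ 2 = l / 2 := Real.sq_sqrt (by linarith)
  have hs0 : s0 ≤ s := Real.le_sqrt_of_sq_le (by linarith)
  have hh0l : 2 * h0 ≤ δ3 * l := by
    rw [div_le_iff₀ hδ3p] at hl2
    linarith
  have hδl : δ * l ≤ δ3 * l / 2 := by
    have := mul_le_mul_of_nonneg_right hδa hl0.le
    linarith
  have hg0 := F1.gi_nonneg s V W
  -- the integral is the mass of an interval
  have eI : ∀ a b : ℝ, (∫ u in {u : ℝ | u ∈ Icc (0 : ℝ) 1 ∧ Real.log T * Real.exp a < zm x T u ∧
      zm x T u ≤ Real.log T * Real.exp b}, zm x T u ^ 2) = Real.log T * F3.mz x T a b := fun a b =>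
    G2.H7.set_nu x hTp hLp
      (measurableSet_Ioc (a := Real.log T * Real.exp a) (b := Real.log T * Real.exp b))
  -- what the wide law says
  have hwide : ∀ a : ℝ, -(δ3 * l) ≤ a → a ≤ δ * l → a + h0 ≤ W →
      |F3.mz x T a W - gi s a W| ≤ ε / 4 * gi s a W := by
    intro a ha1 ha2 ha3
    have h1 := hW2 a W hT1 hx (by linarith) (abs_le.2 ⟨by
      have := mul_le_mul_of_nonneg_right hδ31 hl0.le
      linarith, by
      have := mul_le_mul_of_nonneg_right hδ31 hl0.le
      have h5 : 0 < δ3 * l := by positivity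
      linarith⟩)
    rw [eI] at h1
    have e3 : Real.log T * F3.mz x T a W - Real.log T * gi s a W
        = Real.log T * (F3.mz x T a W - gi s a W) := by ring
    have e4 : ε / 4 * (Real.log T * gi s a W) = Real.log T * (ε / 4 * gi s a W) := by ring
    rw [e3, abs_mul, abs_of_pos hLp, e4] at h1
    exact le_of_mul_le_mul_left h1 hLp
  have main : |F3.mz x T V W - gi s V W| ≤ ε * gi s V W := by
    rcases le_or_gt (-(δ3 * l)) V with hV | hV
    · have h1 := hwide V hV hVδ hVW
      nlinarith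
    · -- cut at `-(δ3 * l)`
      have hBW : -(δ3 * l) + h0 ≤ W := by linarith
      have hBW' : -(δ3 * l) ≤ W := by linarith
      have h1 := hwide (-(δ3 * l)) le_rfl (by
        have : 0 < δ * l := by positivity
        have : 0 < δ3 * l := by positivity
        linarith) hBW
      -- the lower part
      have h2 : F3.mz x T V (-(δ3 * l)) ≤ 2 * tl (δ3 * l / s) := by
        have h3 := (hF3 (δ3 * l) (mul_le_mul_of_nonneg_right hδ32 hl0.le)).2
        have h4 := G2.H7.set_nu x hTp hLp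
          (measurableSet_Iic (a := Real.log T * Real.exp (-(δ3 * l))))
        have e4 : {u : ℝ | u ∈ Icc (0 : ℝ) 1 ∧ zf x T u ∈ Iic (Real.log T * Real.exp (-(δ3 * l)))}
            = {u : ℝ | u ∈ Icc (0 : ℝ) 1 ∧ zf x T u ≤ Real.log T * Real.exp (-(δ3 * l))} := rfl
        rw [e4] at h4
        rw [h4, one_mul, abs_le] at h3
        have h5 : (nu x T {t | ‖ze t‖ ∈ Iic (Real.log T * Real.exp (-(δ3 * l)))}).toReal
            ≤ 2 * tl (δ3 * l / s) := by
          have : Real.log T * (nu x T {t | ‖ze t‖ ∈ Iic (Real.log T *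
              Real.exp (-(δ3 * l)))}).toReal ≤ Real.log T * (2 * tl (δ3 * l / s)) := by
            linarith [h3.2]
          exact le_of_mul_le_mul_left this hLp
        refine le_trans ?_ h5
        unfold F3.mz
        apply ENNReal.toReal_mono (G2.H2.nu_lt_top x hTp _).ne
        apply measure_mono
        intro t ht
        exact ht.2
      have h3 : gi s V (-(δ3 * l)) ≤ tl (δ3 * l / s) := F5.gi_left hsp _ _
      have h4 : tl (δ3 * l / s) ≤ ε / 64 * gi s V W := by
        have h5 := hG2 s (δ * l) (δ3 * l) hs0 (by positivity) (by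
          rw [hs2]
          have := mul_le_mul_of_nonneg_right hδb hl0.le
          linarith) (by rw [hs2]; linarith)
        have h6 : gi s (δ * l) (δ * l + h0) ≤ gi s V W := by
          rw [← F5.gi_sym hsp]
          exact F1.gi_mono s (by linarith) (by linarith)
        calc tl (δ3 * l / s) ≤ ε / 64 * gi s (δ * l) (δ * l + h0) := h5
          _ ≤ _ := mul_le_mul_of_nonneg_left h6 (by positivity)
      have e1 := F3.mz_add x hTp hLp hV.le hBW'
      have e2 := F1.gi_add s hV.le hBW'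
      have e3 : gi s (-(δ3 * l)) W ≤ gi s V W := F1.gi_mono s hV.le le_rfl
      have h7 : 0 ≤ F3.mz x T V (-(δ3 * l)) := ENNReal.toReal_nonneg
      have h8 := F1.gi_nonneg s V (-(δ3 * l))
      have h9 : ε / 4 * gi s (-(δ3 * l)) W ≤ ε / 4 * gi s V W :=
        mul_le_mul_of_nonneg_left e3 (by positivity)
      have h10 : 0 ≤ ε * gi s V W := by positivity
      rw [abs_le] at h1 ⊢
      constructor <;> linarith [h1.1, h1.2]
  rw [eI V W]
  have e3 : Real.log T * F3.mz x T V W - Real.log T * gi s V W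
      = Real.log T * (F3.mz x T V W - gi s V W) := by ring
  rw [e3, abs_mul, abs_of_pos hLp]
  calc Real.log T * |F3.mz x T V W - gi s V W| ≤ Real.log T * (ε * gi s V W) :=
        mul_le_mul_of_nonneg_left main hLp.le
    _ = ε * (Real.log T * gi s V W) := by ring

end Pool.Agent.Lib.LC
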