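import Mathlib
import Pool.Agent.Lib.MP_f9aece_nt_g2.F1
import Pool.Agent.Lib.MP_f9aece_nt_loc.StmtsTwo

/-!
K1: from the weights to sets, with a weight, for the measure `|zeta| ^ 2`.
-/

set_option autoImplicit false

namespace Pool.Agent.Lib.LC

open MeasureTheory Set Filter Topology Complex ProbabilityTheory
open scoped ComplexConjugate
open Pool.Agent.Lib.G2
open Pool.Agent.Lib.GT (om Om psi c0 bp MM RR PsiBd)

namespace K1

/-- a lower bound for an integral from a lower bound on an interval -/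
lemma lint_ge {f : ℝ → ℝ} {S : Set ℝ} {a l c : ℝ} (hS : Icc a (a + l) ⊆ S)
    (hc : 0 ≤ c) (hf : ∀ y ∈ Icc a (a + l), c ≤ f y) :
    ENNReal.ofReal (c * l) ≤ ∫⁻ y in S, ENNReal.ofReal (f y) := by
  calc ENNReal.ofReal (c * l) = ∫⁻ _ in Icc a (a + l), ENNReal.ofReal c := by
        rw [setLIntegral_const, Real.volume_Icc, add_sub_cancel_left, ENNReal.ofReal_mul hc]
    _ ≤ ∫⁻ y in Icc a (a + l), ENNReal.ofReal (f y) :=
        setLIntegral_mono' measurableSet_Icc fun y hy => ENNReal.ofReal_le_ofReal (hf y hy)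
    _ ≤ _ := lintegral_mono_set hS

/-- the window is bounded below on an interval -/
lemma psi_window (h1 : PsiBd) : ∃ (r1 κ ρ : ℝ), 0 < κ ∧ 0 < ρ ∧ ρ ≤ 1 ∧
    ∀ r, |r - r1| ≤ ρ → κ ≤ ‖psi r‖ := by
  obtain ⟨C, hC, hb, hcont, hc0, hint⟩ := h1
  have hne : ∃ r1, psi r1 ≠ 0 := by
    by_contra hcon
    push Not at hcon
    have : c0 = 0 := by unfold c0; simp [hcon]
    linarith
  obtain ⟨r1, hr1⟩ := hne
  have hpos : 0 < ‖psi r1‖ := norm_pos_iff.2 hr1
  have hev : ∀ᶠ r in 𝓝 r1, ‖psi r1‖ / 2 < ‖psi r‖ :=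
    (hcont.norm.tendsto r1).eventually (lt_mem_nhds (by linarith))
  obtain ⟨δ, hδ, hd⟩ := Metric.eventually_nhds_iff.1 hev
  refine ⟨r1, ‖psi r1‖ / 2, min (δ / 2) 1, by positivity, by positivity, min_le_right _ _, fun r hr => ?_⟩
  refine (hd ?_).le
  rw [Real.dist_eq]
  have : min (δ / 2) 1 ≤ δ / 2 := min_le_left _ _
  linarith

/-- the powers at a bad point -/
lemma one_le_bb (A : Par) (s : Finset ℕ) (x : Om) (hB : A.Bad s x) :
    1 ≤ ∏ g ∈ s, A.bb g x := by
  refine Finset.prod_induction _ (fun t : ℝ => 1 ≤ t) (fun a b ha hb => one_le_mul_of_one_le_of_one_le ha hb) le_rfl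
    fun g hg => ?_
  unfold Par.bb bp
  rcases Nat.eq_zero_or_pos (A.r g) with h0 | h0
  · rw [h0]; simp [MM]
  · have h1 := hB g hg
    have h2 : (0 : ℝ) < RR (A.r g) := by unfold RR; positivity
    refine one_le_pow₀ ?_
    rw [one_le_div h2]
    exact h1.le

/-- the weights near a good point -/
lemma one_le_W (h1 : PsiBd) (h9 : Pointwise) : ∃ (C D : ℝ) (v0 : ℕ), 1 ≤ C ∧ 1 ≤ D ∧ ∀ A : Par, A.Ok →
    v0 ≤ A.v → ∀ s : Finset ℕ, s ⊆ Finset.range A.J → ∀ x : Om, A.Good s x → A.Bad s x →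
    1 ≤ ENNReal.ofReal C * ∫⁻ y in Icc (A.X s x - D / A.b) (A.X s x + D / A.b),
      ENNReal.ofReal (A.W s y x) := by
  obtain ⟨r1, κ, ρ, hκ, hρ, hρ1, hwin⟩ := psi_window h1
  obtain ⟨Cp, hCp, hpsi, hcont, hc0, hint⟩ := h1
  obtain ⟨C9, hC90, h9⟩ := h9
  set D : ℝ := |r1| + 1 with hD
  have hD1 : 1 ≤ D := by have := abs_nonneg r1; linarith
  set m : ℝ := 1 / c0 * (Real.exp (-D) * (κ / 2) ^ 2) with hm
  have hmpos : 0 < m := by positivity
  set m3 : ℝ := m * (2 * ρ) with hm3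
  have hm3pos : 0 < m3 := by positivity
  set C : ℝ := 1 + 1 / m3 with hCdef
  have hC1 : 1 ≤ C := by
    have : 0 ≤ 1 / m3 := by positivity
    linarith
  have hCm3 : 1 ≤ C * m3 := by
    rw [hCdef, add_mul, one_div, inv_mul_cancel₀ hm3pos.ne']
    linarith
  set δ : ℝ := κ / 2 with hδ
  have hδpos : 0 < δ := by positivity
  refine ⟨C, D, ⌈C9 / δ⌉₊, hC1, hD1, ?_⟩
  intro A hA hv s hs x hG hB
  have hb0 : 0 < A.b := hA.hbe.trans_le hA.hbb
  obtain ⟨hq, hmo⟩ := h9 A hA s hs x hG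
  set X : ℝ := A.X s x with hX
  -- the error
  have herr : C9 * Real.exp (-A.v) ≤ δ := by
    have e1 : C9 / δ ≤ A.v := (Nat.le_ceil _).trans (by exact_mod_cast hv)
    have e2 : (A.v : ℝ) + 1 ≤ Real.exp A.v := Real.add_one_le_exp _
    have e3 : C9 ≤ δ * Real.exp A.v := by
      have h4 : C9 ≤ A.v * δ := by rwa [div_le_iff₀ hδpos] at e1
      nlinarith [Real.exp_pos (A.v : ℝ)]
    rw [Real.exp_neg, ← div_eq_mul_inv, div_le_iff₀ (Real.exp_pos _)]
    exact e3
  have hbb : 1 ≤ ∏ g ∈ s, A.bb g x := one_le_bb A s x hB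
  -- the modulus of q
  have hqn : ∀ y, ‖A.q s y x‖ = Real.exp (A.be * (X - y) / 2) *
      ‖A.q s y x * Real.exp (-(A.be * (X - y) / 2))‖ := by
    intro y
    rw [norm_mul, Complex.norm_real, Real.norm_eq_abs, abs_of_pos (Real.exp_pos _), Real.exp_neg]
    have := Real.exp_pos (A.be * (X - y) / 2)
    field_simp
  have hexp2 : ∀ y, Real.exp (A.be * (X - y) / 2) ^ 2 = Real.exp (A.be * (X - y)) := by
    intro y
    rw [← Real.exp_nat_mul]; congr 1; push_cast; ring
  -- lower bound of the weight on the window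
  have hW : ∀ y, |A.b * (X - y) - r1| ≤ ρ → A.b * m ≤ A.W s y x := by
    intro y hy
    have hr : |A.b * (X - y)| ≤ D := by
      have := abs_sub_abs_le_abs_sub (A.b * (X - y)) r1
      linarith
    have e1 := hq y
    have e2 := hwin _ hy
    have e3 : C9 * Real.exp (-A.v) / (1 + (A.b * (X - y)) ^ 2) ≤ κ / 2 := by
      rw [div_le_iff₀ (by positivity)]
      nlinarith [sq_nonneg (A.b * (X - y))]
    have e4 : κ / 2 ≤ ‖A.q s y x * Real.exp (-(A.be * (X - y) / 2))‖ := by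
      have h6 := norm_sub_norm_le (psi (A.b * (X - y))) (A.q s y x * Real.exp (-(A.be * (X - y) / 2)))
      rw [norm_sub_rev] at h6
      linarith
    have e5 : Real.exp (-D) ≤ Real.exp (A.be * (X - y)) := by
      apply Real.exp_le_exp.2
      have h7 : |A.be * (X - y)| ≤ |A.b * (X - y)| := by
        rw [abs_mul, abs_mul, abs_of_pos hA.hbe, abs_of_pos hb0]
        exact mul_le_mul_of_nonneg_right hA.hbb (abs_nonneg _)
      have h8 := neg_abs_le (A.be * (X - y))
      linarith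
    have e6 : Real.exp (-D) * (κ / 2) ^ 2 ≤ ‖A.q s y x‖ ^ 2 := by
      rw [hqn y, mul_pow, hexp2]
      exact mul_le_mul e5 (pow_le_pow_left₀ (by positivity) e4 2) (by positivity) (Real.exp_pos _).le
    unfold Par.W Par.Wg
    calc A.b * m = A.b / c0 * 1 * (Real.exp (-D) * (κ / 2) ^ 2) := by rw [hm]; ring
      _ ≤ A.b / c0 * (∏ g ∈ s, A.bb g x) * ‖A.q s y x‖ ^ 2 := by
        refine mul_le_mul (mul_le_mul_of_nonneg_left hbb (by positivity)) e6 (by positivity) (by positivity)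
  -- the window
  set a : ℝ := X - (r1 + ρ) / A.b with ha
  have hwd : ∀ y ∈ Icc a (a + 2 * ρ / A.b), |A.b * (X - y) - r1| ≤ ρ := by
    intro y hy
    have h2 : A.b * (X - a) = r1 + ρ := by rw [ha]; field_simp; ring
    have h3 : A.b * (X - (a + 2 * ρ / A.b)) = r1 - ρ := by rw [ha]; field_simp; ring
    have h4 : A.b * (X - y) ≤ A.b * (X - a) := mul_le_mul_of_nonneg_left (by linarith [hy.1]) hb0.le
    have h5 : A.b * (X - (a + 2 * ρ / A.b)) ≤ A.b * (X - y) :=
      mul_le_mul_of_nonneg_left (by linarith [hy.2]) hb0.le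
    rw [abs_le]
    constructor <;> linarith
  have hsub : Icc a (a + 2 * ρ / A.b) ⊆ Icc (X - D / A.b) (X + D / A.b) := by
    intro y hy
    have h6 : |A.b * (X - y)| ≤ D := by
      have := abs_sub_abs_le_abs_sub (A.b * (X - y)) r1
      have := hwd y hy
      linarith
    rw [abs_le] at h6
    have h7 : A.b * (D / A.b) = D := by field_simp
    constructor
    · by_contra hcon
      push Not at hcon
      have := mul_lt_mul_of_pos_left hcon hb0
      nlinarith
    · by_contra hcon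
      push Not at hcon
      have := mul_lt_mul_of_pos_left hcon hb0
      nlinarith
  have h2 := lint_ge (f := fun y => A.W s y x) (S := Icc (X - D / A.b) (X + D / A.b)) (a := a)
      (l := 2 * ρ / A.b) (c := A.b * m) hsub (by positivity) (fun y hy => hW y (hwd y hy))
  have hlen : A.b * m * (2 * ρ / A.b) = m3 := by rw [hm3]; field_simp
  rw [hlen] at h2
  calc (1 : ENNReal) = ENNReal.ofReal 1 := ENNReal.ofReal_one.symm
    _ ≤ ENNReal.ofReal (C * m3) := ENNReal.ofReal_le_ofReal hCm3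
    _ = ENNReal.ofReal C * ENNReal.ofReal m3 := by rw [ENNReal.ofReal_mul (by linarith)]
    _ ≤ _ := mul_le_mul_right h2 _

end K1

open K1 in
/-- K1: from the weights to sets, with a weight -/
theorem tiltW2 (h1 : PsiBd) (h9 : Pointwise) : TiltW2 := by
  obtain ⟨C, D, v0, hC, hD, hp⟩ := one_le_W h1 h9
  refine ⟨C, 20 * D, v0, hC, by linarith, ?_⟩
  intro A hA hv hb s hs m hm κ hκ H hH hW ω ω' hω hω' hωω
  have hD' : D / A.b = 20 * D := by rw [hb]; ring
  have hmW : Measurable fun p : ℝ × ℝ => ENNReal.ofReal (A.W s p.2 (om p.1)) :=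
    (G2.F1.cont_W_om A s).measurable.ennreal_ofReal
  have hmy : ∀ t : ℝ, Measurable fun y : ℝ => ENNReal.ofReal (A.W s y (om t)) := fun t =>
    ((G2.F1.cont_W_om A s).comp (Continuous.prodMk_right t)).measurable.ennreal_ofReal
  have hmt : ∀ y : ℝ, Measurable fun t : ℝ => ENNReal.ofReal (A.W s y (om t)) := fun y =>
    ((G2.F1.cont_W_om A s).comp (Continuous.prodMk_left y)).measurable.ennreal_ofReal
  have hm2 : Measurable fun p : ℝ × ℝ => ω' p.2 * ENNReal.ofReal (A.W s p.2 (om p.1)) * H p.1 :=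
    ((hω'.comp measurable_snd).mul hmW).mul (hH.comp measurable_fst)
  have hm1 : Measurable fun t : ℝ => ∫⁻ y : ℝ, ω' y * ENNReal.ofReal (A.W s y (om t)) * H t :=
    hm2.lintegral_prod_right'
  -- pointwise
  have hpt : ∀ t ∈ {t | A.Good s (om t) ∧ A.Bad s (om t)}, ω (A.X s (om t)) * H t ≤
      ENNReal.ofReal C * ∫⁻ y : ℝ, ω' y * ENNReal.ofReal (A.W s y (om t)) * H t := by
    rintro t ⟨hg, hbd⟩
    have h2 := hp A hA hv s hs (om t) hg hbd
    rw [hD'] at h2
    set X : ℝ := A.X s (om t) with hX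
    have hmy2 : Measurable fun y : ℝ => ω' y * ENNReal.ofReal (A.W s y (om t)) := hω'.mul (hmy t)
    rw [lintegral_mul_const _ hmy2, ← mul_assoc]
    refine mul_le_mul_left ?_ _
    calc ω X = ω X * 1 := (mul_one _).symm
      _ ≤ ω X * (ENNReal.ofReal C * ∫⁻ y in Icc (X - 20 * D) (X + 20 * D),
            ENNReal.ofReal (A.W s y (om t))) := mul_le_mul_right h2 _
      _ = ENNReal.ofReal C * (ω X * ∫⁻ y in Icc (X - 20 * D) (X + 20 * D),
            ENNReal.ofReal (A.W s y (om t))) := by ring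
      _ = ENNReal.ofReal C * ∫⁻ y in Icc (X - 20 * D) (X + 20 * D),
            ω X * ENNReal.ofReal (A.W s y (om t)) := by
          rw [lintegral_const_mul _ (hmy t)]
      _ ≤ ENNReal.ofReal C * ∫⁻ y in Icc (X - 20 * D) (X + 20 * D),
            ω' y * ENNReal.ofReal (A.W s y (om t)) := by
          refine mul_le_mul_right (setLIntegral_mono' measurableSet_Icc fun y hy => ?_) _
          refine mul_le_mul_left (hωω X y ?_) _
          rw [abs_le]
          constructor <;> linarith [hy.1, hy.2]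
      _ ≤ ENNReal.ofReal C * ∫⁻ y : ℝ, ω' y * ENNReal.ofReal (A.W s y (om t)) :=
          mul_le_mul_right (setLIntegral_le_lintegral _ _) _
  calc ∫⁻ t in {t | A.Good s (om t) ∧ A.Bad s (om t)}, ω (A.X s (om t)) * H t ∂m
      ≤ ∫⁻ t in {t | A.Good s (om t) ∧ A.Bad s (om t)},
          (ENNReal.ofReal C * ∫⁻ y : ℝ, ω' y * ENNReal.ofReal (A.W s y (om t)) * H t) ∂m :=
        setLIntegral_mono (hm1.const_mul _) hpt
    _ ≤ ∫⁻ t, (ENNReal.ofReal C * ∫⁻ y : ℝ, ω' y * ENNReal.ofReal (A.W s y (om t)) * H t) ∂m :=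
        setLIntegral_le_lintegral _ _
    _ = ENNReal.ofReal C * ∫⁻ t, (∫⁻ y : ℝ, ω' y * ENNReal.ofReal (A.W s y (om t)) * H t) ∂m := by
        rw [lintegral_const_mul _ hm1]
    _ = ENNReal.ofReal C * ∫⁻ y : ℝ, (∫⁻ t, ω' y * ENNReal.ofReal (A.W s y (om t)) * H t ∂m) := by
        rw [lintegral_lintegral_swap hm2.aemeasurable]
    _ ≤ ENNReal.ofReal C * ∫⁻ y : ℝ, ENNReal.ofReal κ * (ω' y * ENNReal.ofReal (A.Gs y)) := by
        refine mul_le_mul_right (lintegral_mono fun y => ?_) _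
        have e1 : ∀ t : ℝ, ω' y * ENNReal.ofReal (A.W s y (om t)) * H t =
            ω' y * (ENNReal.ofReal (A.W s y (om t)) * H t) := fun t => mul_assoc _ _ _
        simp_rw [e1]
        have hmt2 : Measurable fun t : ℝ => ENNReal.ofReal (A.W s y (om t)) * H t := (hmt y).mul hH
        rw [lintegral_const_mul _ hmt2]
        calc ω' y * ∫⁻ t, ENNReal.ofReal (A.W s y (om t)) * H t ∂m
            ≤ ω' y * ENNReal.ofReal (κ * A.Gs y) := mul_le_mul_right (hW y) _
          _ = ENNReal.ofReal κ * (ω' y * ENNReal.ofReal (A.Gs y)) := by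
            rw [ENNReal.ofReal_mul hκ]; ring
    _ = ENNReal.ofReal (C * κ) * ∫⁻ y : ℝ, ω' y * ENNReal.ofReal (A.Gs y) := by
        rw [lintegral_const_mul' _ _ ENNReal.ofReal_ne_top, ← mul_assoc,
          ← ENNReal.ofReal_mul (by linarith)]

end Pool.Agent.Lib.LC
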