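import Mathlib
import Pool.Agent.Lib.MP_f9aece_nt_loc.StmtsThree
import Pool.Agent.Lib.MP_f9aece_nt_loc.F6
import Pool.Agent.Lib.MP_f9aece_nt_g2.H8

/-!
The law of `log |zeta|` at all scales: one statement.
-/

set_option autoImplicit false

namespace Pool.Agent.Lib.LC

open MeasureTheory Set Filter Topology Complex ProbabilityTheory
open scoped ComplexConjugate
open Pool.Agent.Lib.GT (tl zf tendsto_loglog)
open Pool.Agent.Lib.G2 (gm)

/-- everything -/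
def Whole : Prop := ∀ ε : ℝ, 0 < ε → ∃ h0 δ T0 : ℝ, 0 < h0 ∧ 0 < δ ∧ ∀ x T : ℝ, T0 ≤ T →
  |x| ≤ T ^ (9 / 10 : ℝ) →
  (∀ k : ℕ, k = 0 ∨ k = 2 →
    (∀ V W : ℝ, V + h0 ≤ W → V ≤ δ * Real.log (Real.log T) →
      (k = 0 → -(Real.sqrt (Real.log (Real.log T)) / ε) ≤ W) →
      (k = 2 → -(δ * Real.log (Real.log T)) ≤ W) →
      |(∫ u in {u : ℝ | u ∈ Icc (0 : ℝ) 1 ∧ Real.log T ^ ((k : ℝ) / 2) * Real.exp V < zf x T u ∧
          zf x T u ≤ Real.log T ^ ((k : ℝ) / 2) * Real.exp W}, zf x T u ^ k)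
        - Real.log T ^ ((k : ℝ) ^ 2 / 4) * gi (Real.sqrt (Real.log (Real.log T) / 2)) V W|
      ≤ ε * (Real.log T ^ ((k : ℝ) ^ 2 / 4) * gi (Real.sqrt (Real.log (Real.log T) / 2)) V W)) ∧
    (∀ V : ℝ, V ≤ δ * Real.log (Real.log T) →
      |(∫ u in {u : ℝ | u ∈ Icc (0 : ℝ) 1 ∧ Real.log T ^ ((k : ℝ) / 2) * Real.exp V < zf x T u},
          zf x T u ^ k)
        - Real.log T ^ ((k : ℝ) ^ 2 / 4) * tl (V / Real.sqrt (Real.log (Real.log T) / 2))|
      ≤ ε * (Real.log T ^ ((k : ℝ) ^ 2 / 4) * tl (V / Real.sqrt (Real.log (Real.log T) / 2)))) ∧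
    (∀ W : ℝ, (k = 0 → -(Real.sqrt (Real.log (Real.log T)) / ε) ≤ W) →
      (k = 2 → -(δ * Real.log (Real.log T)) ≤ W) →
      |(∫ u in {u : ℝ | u ∈ Icc (0 : ℝ) 1 ∧ zf x T u ≤ Real.log T ^ ((k : ℝ) / 2) * Real.exp W},
          zf x T u ^ k)
        - Real.log T ^ ((k : ℝ) ^ 2 / 4) * tl (-W / Real.sqrt (Real.log (Real.log T) / 2))|
      ≤ ε * (Real.log T ^ ((k : ℝ) ^ 2 / 4) * tl (-W / Real.sqrt (Real.log (Real.log T) / 2)))) ∧
    (∀ d β : ℝ, d ≤ δ → 0 < β →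
      |(∫ u in Icc (0 : ℝ) 1, zf x T u ^ k
          * min (zf x T u / Real.log T ^ ((k : ℝ) / 2)) (Real.log T ^ d) ^ β)
        - Real.log T ^ ((k : ℝ) ^ 2 / 4)
          * gm (Real.sqrt (Real.log (Real.log T) / 2)) (Real.log T ^ d) β|
      ≤ ε * (Real.log T ^ ((k : ℝ) ^ 2 / 4)
          * gm (Real.sqrt (Real.log (Real.log T) / 2)) (Real.log T ^ d) β))) ∧
  (∀ d β : ℝ, d ≤ δ → 0 < β →
    |(∫ u in Icc (0 : ℝ) 1, zf x T u ^ 2 * min (Real.log T / zf x T u) (Real.log T ^ d) ^ β)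
        - Real.log T * gm (Real.sqrt (Real.log (Real.log T) / 2)) (Real.log T ^ d) β|
      ≤ ε * (Real.log T * gm (Real.sqrt (Real.log (Real.log T) / 2)) (Real.log T ^ d) β)) ∧
  (∀ β : ℝ, 0 < β → β ≤ δ ∨ |β - 2| ≤ δ →
    |(∫ u in (0 : ℝ)..1, zf x T u ^ β) - Real.log T ^ (β ^ 2 / 4)| ≤ ε * Real.log T ^ (β ^ 2 / 4))

private lemma int_one (x T : ℝ) (S : Set ℝ) : ∫ u in S, zf x T u ^ 0 = (volume S).toReal := by
  simp [Measure.real]

theorem whole (hA : AllZero) (hB : AllTwo) (hF0 : G2.FinZero) (hT : GT.TailFacts) (hF : G2.Final) :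
    Whole := by
  intro ε hε
  obtain ⟨h1, δ1, T1, hh1, hδ1, H1⟩ := hA ε hε
  obtain ⟨h2, δ2, T2, hh2, hδ2, H2⟩ := hB ε hε
  obtain ⟨T3, H3⟩ := lowZero hF0 hT ε hε
  obtain ⟨δ4, T4, hδ4, H4⟩ := hF ε hε
  obtain ⟨T5, hT5⟩ := eventually_atTop.mp (tendsto_loglog.eventually (eventually_ge_atTop 1))
  obtain ⟨δ, hδ, d1, d2, d4⟩ : ∃ δ : ℝ, 0 < δ ∧ δ ≤ δ1 ∧ δ ≤ δ2 ∧ δ ≤ δ4 :=
    ⟨min δ1 (min δ2 δ4), lt_min hδ1 (lt_min hδ2 hδ4), min_le_left _ _,
      (min_le_right _ _).trans (min_le_left _ _), (min_le_right _ _).trans (min_le_right _ _)⟩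
  obtain ⟨T0, t1, t2, t3, t4, t5, t6⟩ : ∃ T0 : ℝ, T1 ≤ T0 ∧ T2 ≤ T0 ∧ T3 ≤ T0 ∧ T4 ≤ T0 ∧ T5 ≤ T0 ∧
      16 ≤ T0 :=
    ⟨max (max T1 T2) (max (max T3 T4) (max T5 16)), (le_max_left _ _).trans (le_max_left _ _),
      (le_max_right _ _).trans (le_max_left _ _),
      ((le_max_left _ _).trans (le_max_left _ _)).trans (le_max_right _ _),
      ((le_max_right _ _).trans (le_max_left _ _)).trans (le_max_right _ _),
      ((le_max_left _ _).trans (le_max_right _ _)).trans (le_max_right _ _),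
      ((le_max_right _ _).trans (le_max_right _ _)).trans (le_max_right _ _)⟩
  refine ⟨max h1 h2, δ, T0, lt_max_of_lt_left hh1, hδ, fun x T hT hx => ?_⟩
  have hl1 : 1 ≤ Real.log (Real.log T) := hT5 T (t5.trans hT)
  have hl0 : 0 < Real.log (Real.log T) := by linarith
  obtain ⟨K1, K2, K3, K4⟩ := H4 x T (t4.trans hT) hx
  have up : ∀ {V δ' : ℝ}, δ ≤ δ' → V ≤ δ * Real.log (Real.log T) → V ≤ δ' * Real.log (Real.log T) :=
    fun h h' => h'.trans (by gcongr)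
  have dn : ∀ {W δ' : ℝ}, δ ≤ δ' → -(δ * Real.log (Real.log T)) ≤ W →
      -(δ' * Real.log (Real.log T)) ≤ W := by
    intro W δ' h h'
    have : δ * Real.log (Real.log T) ≤ δ' * Real.log (Real.log T) := by gcongr
    linarith
  refine ⟨fun k hk => ⟨fun V W hVW hV hW0 hW2 => ?_, fun V hV => (K1 k hk).1 V (up d4 hV),
    fun W hW0 hW2 => ?_, fun d β hd hβ => (K1 k hk).2 d β (hd.trans d4) hβ⟩,
    fun d β hd hβ => K3 d β (hd.trans d4) hβ, fun β hβ h => K4 β hβ ?_⟩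
  · rcases hk with rfl | rfl
    · have := H1 x T V W (t1.trans hT) hx (by linarith [le_max_left h1 h2]) (up d1 hV) (hW0 rfl)
      simp only [Nat.cast_zero, zero_div, Real.rpow_zero, one_mul, ne_eq, OfNat.ofNat_ne_zero,
        not_false_eq_true, zero_pow]
      rw [int_one]
      exact this
    · have := H2 x T V W (t2.trans hT) hx (by linarith [le_max_right h1 h2]) (up d2 hV)
        (dn d2 (hW2 rfl))
      have e1 : ((2 : ℕ) : ℝ) / 2 = 1 := by norm_num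
      have e2 : ((2 : ℕ) : ℝ) ^ 2 / 4 = 1 := by norm_num
      rw [e1, e2, Real.rpow_one]
      exact this
  · rcases hk with rfl | rfl
    · have := H3 x T W (t3.trans hT) hx (hW0 rfl)
      simp only [Nat.cast_zero, zero_div, Real.rpow_zero, one_mul, ne_eq, OfNat.ofNat_ne_zero,
        not_false_eq_true, zero_pow]
      rw [int_one]
      exact this
    · have := K2 (-W) (by have := dn d4 (hW2 rfl); linarith)
      rw [neg_neg] at this
      have e1 : ((2 : ℕ) : ℝ) / 2 = 1 := by norm_num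
      have e2 : ((2 : ℕ) : ℝ) ^ 2 / 4 = 1 := by norm_num
      rw [e1, e2, Real.rpow_one]
      exact this
  · rcases h with h | h
    · exact Or.inl (h.trans d4)
    · exact Or.inr (h.trans d4)

end Pool.Agent.Lib.LC
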