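import Mathlib
import Pool.Agent.Lib.MP_f9aece_nt_loc.All
import Pool.Agent.Lib.MP_f9aece_nt_loc.E12
import Pool.Agent.Lib.MP_f9aece_nt_loc.F4
import Pool.Agent.Lib.MP_f9aece_nt_loc.F5
import Pool.Agent.Lib.MP_f9aece_nt_loc.Whole

/-!
The law of `log |zeta|` at all scales: the assembly.
-/

set_option autoImplicit false

namespace Pool.Agent.Lib.LC

open Pool.Agent.Lib

/-- everything, no hypothesis left -/
theorem total : Whole := by
  obtain ⟨hU, hE, hN, hG⟩ := localZero_hyps
  have hz : LocalZero := localZero hU hE hN hG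
  obtain ⟨hA, hB⟩ := all hz
  have hF0 : G2.FinZero := G2.finZero GT.gaussianTails
  exact whole (allZero hA hF0 GT.tailFacts) (allTwo hB (G2.finTwo G2.mainTwo') gaussCut') hF0
    GT.tailFacts G2.all

end Pool.Agent.Lib.LC
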